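import Pool.Agent.Myc.SynA

set_option autoImplicit false

namespace Pool.Agent.Myc

open Fm

variable {R R' R'' : Type} {ar : R → ℕ} {ar' : R' → ℕ} {ar'' : R'' → ℕ}

/-! ### Substitution -/

theorem SynB_ext_lt {n : ℕ} (v : Fin n → ℕ) {i : ℕ} (h : i < n) : ext v i = v ⟨i, h⟩ := by
  simp [ext, h]

theorem SynB_ext_fin {n : ℕ} (v : Fin n → ℕ) (k : Fin n) : ext v k = v k := by
  simp [ext]

theorem subst_rename {τ : (r : R) → Fm R' ar'} (hτ : Good ar τ) (ρ : ℕ → ℕ) (φ : Fm R ar) :
    subst τ (rename ρ φ) = rename ρ (subst τ φ) := by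
  induction φ generalizing ρ with
  | bot => rfl
  | eq i j => rfl
  | rel r v =>
    simp only [rename, Myc.subst, rename_rename]
    refine rename_congr (hτ r) ?_
    intro i hi
    simp only [Function.comp_apply, SynB_ext_lt _ hi]
  | imp φ ψ ih1 ih2 => simp only [rename, Myc.subst, ih1, ih2]
  | all φ ih => simp only [rename, Myc.subst, ih]

theorem subst_subst {τ : (r : R) → Fm R' ar'} {σ : (r : R') → Fm R'' ar''} (hτ : Good ar τ)
    (hσ : Good ar' σ) (φ : Fm R ar) :
    subst σ (subst τ φ) = subst (fun r => subst σ (τ r)) φ := by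
  induction φ with
  | bot => rfl
  | eq i j => rfl
  | rel r v =>
    simp only [Myc.subst]
    exact subst_rename hσ _ _
  | imp φ ψ ih1 ih2 => simp only [Myc.subst, ih1, ih2]
  | all φ ih => simp only [Myc.subst, ih]

theorem subst_neg (τ : (r : R) → Fm R' ar') (φ : Fm R ar) :
    subst τ (neg φ) = neg (subst τ φ) := rfl
theorem subst_or (τ : (r : R) → Fm R' ar') (φ ψ : Fm R ar) :
    subst τ (or φ ψ) = or (subst τ φ) (subst τ ψ) := rfl
theorem subst_and (τ : (r : R) → Fm R' ar') (φ ψ : Fm R ar) :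
    subst τ (and φ ψ) = and (subst τ φ) (subst τ ψ) := rfl
theorem subst_iff (τ : (r : R) → Fm R' ar') (φ ψ : Fm R ar) :
    subst τ (iff φ ψ) = iff (subst τ φ) (subst τ ψ) := rfl
theorem subst_ex (τ : (r : R) → Fm R' ar') (φ : Fm R ar) :
    subst τ (ex φ) = ex (subst τ φ) := rfl
theorem subst_alN {τ : (r : R) → Fm R' ar'} (hτ : Good ar τ) (x : ℕ) (φ : Fm R ar) :
    subst τ (alN x φ) = alN x (subst τ φ) := by
  simp only [alN, Myc.subst, subst_rename hτ]
theorem subst_exN {τ : (r : R) → Fm R' ar'} (hτ : Good ar τ) (x : ℕ) (φ : Fm R ar) :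
    subst τ (exN x φ) = exN x (subst τ φ) := by
  simp only [exN, subst_neg, subst_alN hτ]
theorem subst_ap {τ : (r : R) → Fm R' ar'} (hτ : Good ar τ) (φ : Fm R ar) (v : List ℕ) :
    subst τ (ap φ v) = ap (subst τ φ) v := by
  simp only [ap, subst_rename hτ]
theorem subst_alls (τ : (r : R) → Fm R' ar') (k : ℕ) (φ : Fm R ar) :
    subst τ (alls k φ) = alls k (subst τ φ) := by
  induction k with
  | zero => rfl
  | succ k ih => simp only [alls, Myc.subst, ih]

theorem FVs_subst {τ : (r : R) → Fm R' ar'} (hτ : Good ar τ) {P : ℕ → Prop} {φ : Fm R ar}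
    (h : FVs P φ) : FVs P (subst τ φ) := by
  induction φ generalizing P with
  | bot => trivial
  | eq i j => exact h
  | rel r v =>
    simp only [Myc.subst, FVs_rename]
    simp only [FVs] at h
    refine (hτ r).mono ?_
    intro i hi
    rw [SynB_ext_lt _ hi]
    exact h _
  | imp φ ψ ih1 ih2 => exact ⟨ih1 h.1, ih2 h.2⟩
  | all φ ih => exact ih h

theorem SynB_rename_inst (ρ : ℕ → ℕ) (j : ℕ) (φ : Fm R ar) :
    Fm.rename ρ (Fm.rename (instMap j) φ) =
      Fm.rename (instMap (ρ j)) (Fm.rename (up ρ) φ) := by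
  rw [rename_rename, rename_rename]
  congr 1
  funext i
  cases i <;> rfl

theorem SynB_rename_succ (ρ : ℕ → ℕ) (φ : Fm R ar) :
    Fm.rename (up ρ) (Fm.rename Nat.succ φ) = Fm.rename Nat.succ (Fm.rename ρ φ) := by
  rw [rename_rename, rename_rename]
  congr 1

/-- Logical axioms are preserved by renaming. -/
theorem LogAx.rename {φ : Fm R ar} (h : LogAx φ) (ρ : ℕ → ℕ) : LogAx (Fm.rename ρ φ) := by
  cases h with
  | k φ ψ => exact LogAx.k _ _
  | s φ ψ χ => exact LogAx.s _ _ _
  | dn φ => exact LogAx.dn _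
  | inst j φ =>
    simp only [Fm.rename, SynB_rename_inst]
    exact LogAx.inst _ _
  | dist φ ψ => exact LogAx.dist _ _
  | vac φ =>
    simp only [Fm.rename, SynB_rename_succ]
    exact LogAx.vac _
  | refl i => exact LogAx.refl _
  | leib i j φ =>
    simp only [Fm.rename, SynB_rename_inst]
    exact LogAx.leib _ _ _

/-- Logical axioms are preserved by substitution. -/
theorem LogAx.subst {φ : Fm R ar} (h : LogAx φ) {τ : (r : R) → Fm R' ar'} (hτ : Good ar τ) :
    LogAx (Myc.subst τ φ) := by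
  cases h with
  | k φ ψ => exact LogAx.k _ _
  | s φ ψ χ => exact LogAx.s _ _ _
  | dn φ => exact LogAx.dn _
  | inst j φ =>
    simp only [Myc.subst, subst_rename hτ]
    exact LogAx.inst _ _
  | dist φ ψ => exact LogAx.dist _ _
  | vac φ =>
    simp only [Myc.subst, subst_rename hτ]
    exact LogAx.vac _
  | refl i => exact LogAx.refl _
  | leib i j φ =>
    simp only [Myc.subst, subst_rename hτ]
    exact LogAx.leib _ _ _

end Pool.Agent.Myc
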