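import Pool.Agent.Myc.AxDefs
import Pool.Agent.Myc.SynB

set_option autoImplicit false

namespace Pool.Agent.Myc

open Fm

section AxA_vec

variable (P : ℕ → Prop)

private theorem AxA_v1 (x : ℕ) : (∀ k : Fin 1, P ((![x] : Fin 1 → ℕ) k)) ↔ P x := by
  simp
private theorem AxA_v2 (x y : ℕ) : (∀ k : Fin 2, P ((![x, y] : Fin 2 → ℕ) k)) ↔ P x ∧ P y := by
  simp [Fin.forall_fin_succ]
private theorem AxA_v3 (x y z : ℕ) :
    (∀ k : Fin 3, P ((![x, y, z] : Fin 3 → ℕ) k)) ↔ P x ∧ P y ∧ P z := by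
  simp [Fin.forall_fin_succ]
private theorem AxA_v4 (x y z w : ℕ) :
    (∀ k : Fin 4, P ((![x, y, z, w] : Fin 4 → ℕ) k)) ↔ P x ∧ P y ∧ P z ∧ P w := by
  simp [Fin.forall_fin_succ]

private theorem AxA_zero (x : ℕ) : FVs P (zeroX x) ↔ P x := AxA_v1 P x
private theorem AxA_succ (x y : ℕ) : FVs P (succX x y) ↔ P x ∧ P y := AxA_v2 P x y
private theorem AxA_add (x y z : ℕ) : FVs P (addX x y z) ↔ P x ∧ P y ∧ P z := AxA_v3 P x y z
private theorem AxA_mul (x y z : ℕ) : FVs P (mulX x y z) ↔ P x ∧ P y ∧ P z := AxA_v3 P x y z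
private theorem AxA_pr (x y z : ℕ) : FVs P (prX x y z) ↔ P x ∧ P y ∧ P z := AxA_v3 P x y z
private theorem AxA_vl (x y z : ℕ) : FVs P (vlX x y z) ↔ P x ∧ P y ∧ P z := AxA_v3 P x y z
private theorem AxA_t0 (x y : ℕ) : FVs P (t0X x y) ↔ P x ∧ P y := AxA_v2 P x y
private theorem AxA_ats (x : ℕ) : FVs P (atsX x) ↔ P x := AxA_v1 P x
private theorem AxA_im (x y z : ℕ) : FVs P (imX x y z) ↔ P x ∧ P y ∧ P z := AxA_v3 P x y z
private theorem AxA_al (x y : ℕ) : FVs P (alX x y) ↔ P x ∧ P y := AxA_v2 P x y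
private theorem AxA_dp (x y : ℕ) : FVs P (dpX x y) ↔ P x ∧ P y := AxA_v2 P x y
private theorem AxA_rn (x y z : ℕ) : FVs P (rnX x y z) ↔ P x ∧ P y ∧ P z := AxA_v3 P x y z
private theorem AxA_rl (x y z : ℕ) : FVs P (rlX x y z) ↔ P x ∧ P y ∧ P z := AxA_v3 P x y z
private theorem AxA_up (x y : ℕ) : FVs P (upX x y) ↔ P x ∧ P y := AxA_v2 P x y
private theorem AxA_pf (x y z w : ℕ) : FVs P (pfX x y z w) ↔ P x ∧ P y ∧ P z ∧ P w :=
  AxA_v4 P x y z w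
private theorem AxA_mem (x y : ℕ) : FVs P (memX x y) ↔ P x ∧ P y := AxA_v2 P x y
private theorem AxA_form (x : ℕ) : FVs P (formX x) ↔ P x := AxA_v1 P x
private theorem AxA_tk (x : ℕ) : FVs P (tkX x) ↔ P x := AxA_v1 P x
private theorem AxA_conc (x y z : ℕ) : FVs P (concX x y z) ↔ P x ∧ P y ∧ P z := AxA_v3 P x y z
private theorem AxA_pp (x y z : ℕ) : FVs P (ppX x y z) ↔ P x ∧ P y ∧ P z := AxA_v3 P x y z
private theorem AxA_nu (x y : ℕ) : FVs P (nuX x y) ↔ P x ∧ P y := AxA_v2 P x y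
private theorem AxA_sz (x y : ℕ) : FVs P (szX x y) ↔ P x ∧ P y := AxA_v2 P x y
private theorem AxA_e2 (x y : ℕ) : FVs P (e2X x y) ↔ P x ∧ P y := AxA_v2 P x y
private theorem AxA_cl (x y z : ℕ) : FVs P (clX x y z) ↔ P x ∧ P y ∧ P z := AxA_v3 P x y z
private theorem AxA_lst (x : ℕ) : FVs P (lstX x) ↔ P x := AxA_v1 P x
private theorem AxA_F (x y z : ℕ) : FVs P (FX x y z) ↔ P x ∧ P y ∧ P z := AxA_v3 P x y z

private theorem AxA_zeroA (x : ℕ) : FVs P (zeroA x) ↔ P x := AxA_v1 P x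
private theorem AxA_succA (x y : ℕ) : FVs P (succA x y) ↔ P x ∧ P y := AxA_v2 P x y
private theorem AxA_addA (x y z : ℕ) : FVs P (addA x y z) ↔ P x ∧ P y ∧ P z := AxA_v3 P x y z
private theorem AxA_mulA (x y z : ℕ) : FVs P (mulA x y z) ↔ P x ∧ P y ∧ P z := AxA_v3 P x y z
private theorem AxA_eqA (x y : ℕ) : FVs P (Fm.eq x y : AFm) ↔ P x ∧ P y := Iff.rfl
private theorem AxA_impA (φ ψ : AFm) : FVs P (imp φ ψ) ↔ FVs P φ ∧ FVs P ψ := Iff.rfl
private theorem AxA_allA (φ : AFm) :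
    FVs P (all φ) ↔ FVs (fun i => i = 0 ∨ ∃ k, i = k + 1 ∧ P k) φ := Iff.rfl

private theorem AxA_eq (x y : ℕ) : FVs P (Fm.eq x y : XFm) ↔ P x ∧ P y := Iff.rfl
private theorem AxA_imp (φ ψ : XFm) : FVs P (imp φ ψ) ↔ FVs P φ ∧ FVs P ψ := Iff.rfl
private theorem AxA_all (φ : XFm) :
    FVs P (all φ) ↔ FVs (fun i => i = 0 ∨ ∃ k, i = k + 1 ∧ P k) φ := Iff.rfl

end AxA_vec

private theorem AxA_embT : Good arA embT := by
  intro r
  cases r
  · exact (AxA_zero _ 0).2 (by decide)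
  · exact (AxA_succ _ 0 1).2 (by decide)
  · exact (AxA_add _ 0 1 2).2 (by decide)
  · exact (AxA_mul _ 0 1 2).2 (by decide)

theorem isNX_fv (k x : ℕ) (P : ℕ → Prop) (h : P x) : FVs P (isNX k x) := by
  refine FVs_ap (n := 1) (FVs_subst AxA_embT (FVs_num k)) P [x] rfl ?_
  intro i hi
  rw [List.mem_singleton] at hi
  rw [hi]
  exact h

private theorem AxA_isN (P : ℕ → Prop) (k x : ℕ) (h : P x) : FVs P (isNX k x) ↔ True :=
  iff_true_intro (isNX_fv k x P h)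

private theorem AxA_alL (P : ℕ → Prop) (l : List ℕ) (φ : XFm) :
    FVs P (alL l φ) ↔ FVs (fun i => i ∈ l ∨ P i) φ := by
  induction l generalizing P with
  | nil => simp [alL]
  | cons x l ih =>
    rw [alL, FVs_alN, ih]
    constructor <;> intro h <;> refine h.mono ?_ <;> intro i hi <;>
      simp only [List.mem_cons] at hi ⊢ <;> tauto

private theorem AxA_ap1 {φ : XFm} (h : FVs (fun i => i < 1) φ) (P : ℕ → Prop) (a : ℕ) (ha : P a) :
    FVs P (ap φ [a]) := by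
  refine FVs_ap h P [a] rfl ?_
  simpa using ha

private theorem AxA_ap2 {φ : XFm} (h : FVs (fun i => i < 2) φ) (P : ℕ → Prop) (a b : ℕ)
    (ha : P a) (hb : P b) : FVs P (ap φ [a, b]) := by
  refine FVs_ap h P [a, b] rfl ?_
  intro i hi
  simp only [List.mem_cons, List.not_mem_nil, or_false] at hi
  rcases hi with rfl | rfl <;> assumption

theorem dgX_fv (w : List Bool) : FVs (fun i => i < 2) (dgX w) := by
  induction w with
  | nil => exact ⟨by decide, by decide⟩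
  | cons b w ih =>
    cases b
    · rw [dgX, FVs_exL, FVs_and]
      exact ⟨(AxA_add _ _ _ _).2 (by decide), AxA_ap2 ih _ _ _ (by decide) (by decide)⟩
    · rw [dgX, FVs_exL, FVs_andL]
      intro φ hφ
      simp only [List.mem_cons, List.not_mem_nil, or_false] at hφ
      rcases hφ with rfl | rfl | rfl
      · exact (AxA_add _ _ _ _).2 (by decide)
      · exact (AxA_succ _ _ _).2 (by decide)
      · exact AxA_ap2 ih _ _ _ (by decide) (by decide)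

theorem isUX_fv (k : ℕ) : FVs (fun i => i < 1) (isUX k) := by
  induction k with
  | zero => exact (AxA_zero _ _).2 (by decide)
  | succ k ih =>
    rw [isUX, FVs_exL, FVs_and]
    exact ⟨AxA_ap1 ih _ _ (by decide), (AxA_succ _ _ _).2 (by decide)⟩

theorem pwX_fv (c : ℕ) : FVs (fun i => i < 2) (pwX c) := by
  induction c with
  | zero => exact isNX_fv _ _ _ (by decide)
  | succ c ih =>
    rw [pwX, FVs_exL, FVs_and]
    exact ⟨AxA_ap2 ih _ _ _ (by decide) (by decide), (AxA_mul _ _ _ _).2 (by decide)⟩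

private theorem AxA_dg (P : ℕ → Prop) (w : List Bool) (a b : ℕ) (ha : P a) (hb : P b) :
    FVs P (ap (dgX w) [a, b]) ↔ True := iff_true_intro (AxA_ap2 (dgX_fv w) P a b ha hb)

private theorem AxA_isU (P : ℕ → Prop) (k : ℕ) (a : ℕ) (ha : P a) :
    FVs P (ap (isUX k) [a]) ↔ True := iff_true_intro (AxA_ap1 (isUX_fv k) P a ha)

private theorem AxA_pw (P : ℕ → Prop) (k : ℕ) (a b : ℕ) (ha : P a) (hb : P b) :
    FVs P (ap (pwX k) [a, b]) ↔ True := iff_true_intro (AxA_ap2 (pwX_fv k) P a b ha hb)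

private theorem AxA_wX : FVs (fun i => i < 4) wX := by
  simp [wX, FVs_exL, FVs_and, FVs_or, AxA_im, AxA_al, AxA_isN, AxA_zero, AxA_pr]

private theorem AxA_qX : FVs (fun i => i < 7) qX := by
  simp [qX, FVs_exL, FVs_and, FVs_or, FVs_orL, FVs_andL, AxA_im, AxA_al, AxA_isN, AxA_zero,
    AxA_pr, AxA_eq]

theorem phiX_fv : FVs (fun i => i < 3) phiX := by
  have hw : ∀ P : ℕ → Prop, P 1 → P 2 → P 3 → P 0 → FVs P (ap wX [1, 2, 3, 0]) := by
    intro P h1 h2 h3 h0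
    refine FVs_ap AxA_wX P _ rfl ?_
    simp [*]
  have hq : ∀ P : ℕ → Prop, P 4 → P 5 → P 6 → P 3 → P 0 → P 1 → P 2 →
      FVs P (ap qX [4, 5, 6, 3, 0, 1, 2]) := by
    intro P h1 h2 h3 h0 h4 h5 h6
    refine FVs_ap AxA_qX P _ rfl ?_
    simp [*]
  rw [phiX]
  simp only [FVs_or, FVs_and, FVs_ex, FVs_neg, AxA_all, AxA_imp]
  refine ⟨⟨?_, ⟨?_, ?_⟩, ?_, ?_⟩, ?_, ?_, ?_, ?_⟩
  · simp [AxA_ats]
  · simp [AxA_isN]
  · simp [AxA_t0]
  · simp [AxA_zero]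
  · simp [AxA_t0]
  · simp [AxA_ats]
  · apply hw <;> simp
  · apply hq <;> simp
  · simp [AxA_F]

private theorem AxA_phi (P : ℕ → Prop) (a b c : ℕ) (ha : P a) (hb : P b) (hc : P c) :
    FVs P (ap phiX [a, b, c]) ↔ True := by
  refine iff_true_intro (FVs_ap phiX_fv P _ rfl ?_)
  simp [*]

theorem hX_fv : FVs (fun i => i < 1) hX := by
  simp [hX, AxA_alL, FVs_iff, FVs_andL, FVs_neg, AxA_imp, AxA_zero, AxA_isN, AxA_dp,
    AxA_F, AxA_phi]

theorem slX_fv : FVs (fun i => i < 2) slX := by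
  simp [slX, AxA_alL, FVs_iff, AxA_imp, AxA_isN, AxA_dp,
    AxA_F, AxA_rn, AxA_rl]

theorem lxX_fv : FVs (fun i => i < 1) lxX := by
  simp [lxX, FVs_and, FVs_andL, FVs_orL, FVs_exL, FVs_alN, FVs_neg, AxA_imp,
    AxA_im, AxA_al, AxA_ats, AxA_t0, AxA_rn, AxA_rl, AxA_pr]

private theorem AxA_lx (P : ℕ → Prop) (a : ℕ) (ha : P a) : FVs P (ap lxX [a]) ↔ True :=
  iff_true_intro (AxA_ap1 lxX_fv P a ha)

/-- The free variables are as announced. -/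
theorem axs_fv (cE a0 sC : ℕ) : ∀ p ∈ axs cE a0 sC, FVs (fun i => i < p.1) p.2 := by
  simp only [axs, List.forall_mem_cons, List.not_mem_nil, false_imp_iff, implies_true, and_true]
  refine ⟨?_, ?_, ?_, ?_, ?_, ?_, ?_, ?_, ?_, ?_, ?_, ?_, ?_, ?_, ?_, ?_, ?_, ?_, ?_, ?_, ?_, ?_,
    ?_, ?_, ?_, ?_, ?_, ?_, ?_, ?_, ?_, ?_, ?_, ?_, ?_, ?_, ?_, ?_, ?_, ?_, ?_, ?_, ?_, ?_,
    ?_, ?_, ?_, ?_, ?_, ?_, ?_, ?_⟩ <;>
  simp [FVs_exL, FVs_andL, FVs_orL, FVs_and, FVs_or, FVs_neg, FVs_iff, FVs_alN, AxA_alL,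
    AxA_imp, AxA_eq, AxA_zero, AxA_succ, AxA_add, AxA_mul, AxA_pr, AxA_vl, AxA_t0, AxA_ats,
    AxA_im, AxA_al, AxA_dp, AxA_rn, AxA_rl, AxA_up, AxA_pf, AxA_mem, AxA_form, AxA_tk, AxA_conc,
    AxA_pp, AxA_nu, AxA_sz, AxA_e2, AxA_cl, AxA_lst, AxA_isN, AxA_isU, AxA_pw, AxA_dg, AxA_lx]

theorem SigX_closed (cE a0 sC : ℕ) : ∀ φ ∈ SigX cE a0 sC, Closed φ := by
  intro φ hφ
  rw [SigX, List.mem_append, List.mem_map, List.mem_map] at hφ
  rcases hφ with ⟨ψ, hψ, rfl⟩ | ⟨p, hp, rfl⟩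
  · refine FVs_subst AxA_embT ?_
    revert ψ
    simp only [Q, List.forall_mem_cons, List.not_mem_nil, false_imp_iff, implies_true, and_true]
    refine ⟨?_, ?_, ?_, ?_, ?_, ?_, ?_, ?_, ?_, ?_, ?_, ?_, ?_, ?_, ?_⟩ <;>
    simp [FVs_ex, FVs_or, FVs_neg, AxA_impA, AxA_allA, AxA_eqA, AxA_zeroA, AxA_succA, AxA_addA,
      AxA_mulA]
  · exact closed_alls (axs_fv cE a0 sC p hp)

end Pool.Agent.Myc
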