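import Pool.Agent.Myc.SemA
import Pool.Agent.Myc.SynB

set_option autoImplicit false

/-!
# Substitution lemma and soundness
-/

namespace Pool.Agent.Myc

open Fm

variable {R R' : Type} {ar : R → ℕ} {ar' : R' → ℕ} {M : Type}

/-- The structure given by formulas for the predicate symbols. The values of the variables which
are not among the first `ar r` ones do not matter. -/
def pull (ar : R → ℕ) (S : Str R' ar' M) (d : M) (τ : (r : R) → Fm R' ar') : Str R ar M where
  rel r v := Sat S (τ r) (fun i => if h : i < ar r then v ⟨i, h⟩ else d)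

theorem sat_subst (S : Str R' ar' M) (d : M) {τ : (r : R) → Fm R' ar'} (hτ : Good ar τ)
    (φ : Fm R ar) (e : ℕ → M) :
    Sat S (subst τ φ) e ↔ Sat (pull ar S d τ) φ e := by
  induction φ generalizing e with
  | bot => exact Iff.rfl
  | eq i j => exact Iff.rfl
  | rel r v =>
    show Sat S (rename (ext v) (τ r)) e ↔ _
    rw [sat_rename]
    exact sat_congr S (hτ r) (fun i hi => by
      simp only [ext]
      rw [dif_pos hi, dif_pos hi])
  | imp φ ψ ih1 ih2 =>
    show (Sat S (subst τ φ) e → Sat S (subst τ ψ) e) ↔ _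
    rw [ih1, ih2]
    exact Iff.rfl
  | all φ ih =>
    show (∀ a, Sat S (subst τ φ) (scons a e)) ↔ _
    constructor
    · intro h a; exact (ih _).1 (h a)
    · intro h a; exact (ih _).2 (h a)

private theorem scons_inst (e : ℕ → M) (j : ℕ) :
    (fun i => e (instMap j i)) = scons (e j) e := by
  funext i
  cases i <;> rfl

/-- Soundness of the logical axioms. -/
theorem LogAx.sat (S : Str R ar M) {φ : Fm R ar} (h : LogAx φ) (e : ℕ → M) : Sat S φ e := by
  cases h with
  | k φ ψ => intro h1 _; exact h1
  | s φ ψ χ => intro h1 h2 h3; exact h1 h3 (h2 h3)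
  | dn φ => intro h; exact by_contra h
  | inst j φ =>
    intro h
    rw [sat_rename, scons_inst]
    exact h _
  | dist φ ψ => intro h1 h2 a; exact h1 a (h2 a)
  | vac φ =>
    intro h a
    rw [sat_rename]
    exact h
  | refl i => rfl
  | leib i j φ =>
    intro h1 h2
    rw [sat_rename, scons_inst] at h2 ⊢
    have h1' : e i = e j := h1
    rw [← h1']
    exact h2

/-- Soundness. -/
theorem soundness (S : Str R ar M) {T : Set (Fm R ar)} (hT : ∀ φ ∈ T, ∀ e, Sat S φ e)
    {l : List (Fm R ar)} (h : IsProof T l) : ∀ φ ∈ l, ∀ e, Sat S φ e := by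
  induction h with
  | nil => intro φ h; cases h
  | @cons l φ h hφ ih =>
    intro χ hχ e
    rcases List.mem_cons.1 hχ with rfl | hχ
    · cases hφ with
      | hyp h => exact hT _ h e
      | logic h => exact h.sat S e
      | mp h1 h2 => exact ih _ h2 e (ih _ h1 e)
      | gen h => intro a; exact ih _ h _
    · exact ih _ hχ e

theorem consistent_of_model (S : Str AR arA M) [Nonempty M] {T : Set AFm}
    (hT : ∀ φ ∈ T, ∀ e, Sat S φ e) : Consistent T := by
  rintro m ⟨l, hl, -⟩
  obtain ⟨d⟩ := ‹Nonempty M›
  exact soundness S hT hl bot (List.mem_cons_self) (fun _ => d)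

end Pool.Agent.Myc
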