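import Pool.Agent.Myc.AxDefs
import Pool.Agent.Myc.SemB

set_option autoImplicit false

namespace Pool.Agent.Myc

open Fm

/-! ### The meaning of the auxiliary formulas -/

section
variable {M : Type} (S : XStr M)

theorem sat_zeroX (x : ℕ) (e : ℕ → M) :
    Sat S (zeroX x) e ↔ zeroR S (e x) :=
  Iff.of_eq (congrArg (S.rel .zero) (comp_vec1 e x))

theorem sat_succX (x y : ℕ) (e : ℕ → M) :
    Sat S (succX x y) e ↔ succR S (e x) (e y) :=
  Iff.of_eq (congrArg (S.rel .succ) (comp_vec2 e x y))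

theorem sat_addX (x y z : ℕ) (e : ℕ → M) :
    Sat S (addX x y z) e ↔ addR S (e x) (e y) (e z) :=
  Iff.of_eq (congrArg (S.rel .add) (comp_vec3 e x y z))

theorem sat_mulX (x y z : ℕ) (e : ℕ → M) :
    Sat S (mulX x y z) e ↔ mulR S (e x) (e y) (e z) :=
  Iff.of_eq (congrArg (S.rel .mul) (comp_vec3 e x y z))

theorem sat_prX (x y z : ℕ) (e : ℕ → M) :
    Sat S (prX x y z) e ↔ prR S (e x) (e y) (e z) :=
  Iff.of_eq (congrArg (S.rel .pr) (comp_vec3 e x y z))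

theorem sat_vlX (x y z : ℕ) (e : ℕ → M) :
    Sat S (vlX x y z) e ↔ vlR S (e x) (e y) (e z) :=
  Iff.of_eq (congrArg (S.rel .vl) (comp_vec3 e x y z))

theorem sat_t0X (x y : ℕ) (e : ℕ → M) :
    Sat S (t0X x y) e ↔ t0R S (e x) (e y) :=
  Iff.of_eq (congrArg (S.rel .t0) (comp_vec2 e x y))

theorem sat_atsX (x : ℕ) (e : ℕ → M) :
    Sat S (atsX x) e ↔ atsR S (e x) :=
  Iff.of_eq (congrArg (S.rel .ats) (comp_vec1 e x))

theorem sat_imX (x y z : ℕ) (e : ℕ → M) :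
    Sat S (imX x y z) e ↔ imR S (e x) (e y) (e z) :=
  Iff.of_eq (congrArg (S.rel .im) (comp_vec3 e x y z))

theorem sat_alX (x y : ℕ) (e : ℕ → M) :
    Sat S (alX x y) e ↔ alR S (e x) (e y) :=
  Iff.of_eq (congrArg (S.rel .al) (comp_vec2 e x y))

theorem sat_dpX (x y : ℕ) (e : ℕ → M) :
    Sat S (dpX x y) e ↔ dpR S (e x) (e y) :=
  Iff.of_eq (congrArg (S.rel .dp) (comp_vec2 e x y))

theorem sat_rnX (x y z : ℕ) (e : ℕ → M) :
    Sat S (rnX x y z) e ↔ rnR S (e x) (e y) (e z) :=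
  Iff.of_eq (congrArg (S.rel .rn) (comp_vec3 e x y z))

theorem sat_rlX (x y z : ℕ) (e : ℕ → M) :
    Sat S (rlX x y z) e ↔ rlR S (e x) (e y) (e z) :=
  Iff.of_eq (congrArg (S.rel .rl) (comp_vec3 e x y z))

theorem sat_upX (x y : ℕ) (e : ℕ → M) :
    Sat S (upX x y) e ↔ upR S (e x) (e y) :=
  Iff.of_eq (congrArg (S.rel .up) (comp_vec2 e x y))

theorem sat_pfX (x y z w : ℕ) (e : ℕ → M) :
    Sat S (pfX x y z w) e ↔ pfR S (e x) (e y) (e z) (e w) :=
  Iff.of_eq (congrArg (S.rel .pf) (comp_vec4 e x y z w))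

theorem sat_memX (x y : ℕ) (e : ℕ → M) :
    Sat S (memX x y) e ↔ memR S (e x) (e y) :=
  Iff.of_eq (congrArg (S.rel .mem) (comp_vec2 e x y))

theorem sat_formX (x : ℕ) (e : ℕ → M) :
    Sat S (formX x) e ↔ formR S (e x) :=
  Iff.of_eq (congrArg (S.rel .form) (comp_vec1 e x))

theorem sat_tkX (x : ℕ) (e : ℕ → M) :
    Sat S (tkX x) e ↔ tkR S (e x) :=
  Iff.of_eq (congrArg (S.rel .tk) (comp_vec1 e x))

theorem sat_concX (x y z : ℕ) (e : ℕ → M) :
    Sat S (concX x y z) e ↔ concR S (e x) (e y) (e z) :=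
  Iff.of_eq (congrArg (S.rel .conc) (comp_vec3 e x y z))

theorem sat_ppX (x y z : ℕ) (e : ℕ → M) :
    Sat S (ppX x y z) e ↔ ppR S (e x) (e y) (e z) :=
  Iff.of_eq (congrArg (S.rel .pp) (comp_vec3 e x y z))

theorem sat_nuX (x y : ℕ) (e : ℕ → M) :
    Sat S (nuX x y) e ↔ nuR S (e x) (e y) :=
  Iff.of_eq (congrArg (S.rel .nu) (comp_vec2 e x y))

theorem sat_szX (x y : ℕ) (e : ℕ → M) :
    Sat S (szX x y) e ↔ szR S (e x) (e y) :=
  Iff.of_eq (congrArg (S.rel .sz) (comp_vec2 e x y))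

theorem sat_e2X (x y : ℕ) (e : ℕ → M) :
    Sat S (e2X x y) e ↔ e2R S (e x) (e y) :=
  Iff.of_eq (congrArg (S.rel .e2) (comp_vec2 e x y))

theorem sat_clX (x y z : ℕ) (e : ℕ → M) :
    Sat S (clX x y z) e ↔ clR S (e x) (e y) (e z) :=
  Iff.of_eq (congrArg (S.rel .cl) (comp_vec3 e x y z))

theorem sat_lstX (x : ℕ) (e : ℕ → M) :
    Sat S (lstX x) e ↔ lstR S (e x) :=
  Iff.of_eq (congrArg (S.rel .lst) (comp_vec1 e x))

theorem sat_FX (x y z : ℕ) (e : ℕ → M) :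
    Sat S (FX x y z) e ↔ FR S (e x) (e y) (e z) :=
  Iff.of_eq (congrArg (S.rel .F) (comp_vec3 e x y z))

theorem sat_GX (x : ℕ) (e : ℕ → M) :
    Sat S (GX x) e ↔ GR S (e x) :=
  Iff.of_eq (congrArg (S.rel .G) (comp_vec1 e x))

theorem sat_HX (x : ℕ) (e : ℕ → M) :
    Sat S (HX x) e ↔ HR S (e x) :=
  Iff.of_eq (congrArg (S.rel .H) (comp_vec1 e x))

theorem sat_KX (x : ℕ) (e : ℕ → M) :
    Sat S (KX x) e ↔ KR S (e x) :=
  Iff.of_eq (congrArg (S.rel .K) (comp_vec1 e x))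


theorem AxB_good_embT : Good arA embT := by
  intro r
  cases r
  · intro k; fin_cases k; decide
  · intro k; fin_cases k <;> decide
  · intro k; fin_cases k <;> decide
  · intro k; fin_cases k <;> decide

theorem sat_eqX (i j : ℕ) (e : ℕ → M) : Sat S (eq i j) e ↔ e i = e j := Iff.rfl

theorem sat_isNX (k x : ℕ) (e : ℕ → M) : Sat S (isNX k x) e ↔ IsN S k (e x) := by
  unfold isNX IsN
  rw [sat_ap]
  refine sat_congr S (FVs_subst AxB_good_embT (FVs_num k)) ?_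
  intro i hi
  have : i = 0 := by omega
  subst this
  rfl

theorem sat_dgX (w : List Bool) (e : ℕ → M) : Sat S (dgX w) e ↔ DG S w (e 0) (e 1) := by
  induction w generalizing e with
  | nil => exact Iff.rfl
  | cons b w ih =>
    cases b
    · simp only [dgX, DG, sat_exL_cons, sat_exL_nil, sat_and, sat_ap, ih, sat_addX,
        Function.update_apply]
      simp
    · simp only [dgX, DG, sat_exL_cons, sat_exL_nil, sat_andL, sat_ap, ih, sat_addX, sat_succX,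
        Function.update_apply, List.forall_mem_cons]
      simp

theorem sat_isUX (k : ℕ) (e : ℕ → M) : Sat S (isUX k) e ↔ IsU S k (e 0) := by
  induction k generalizing e with
  | zero => exact sat_zeroX S 0 e
  | succ k ih =>
    simp only [isUX, IsU, sat_exL_cons, sat_exL_nil, sat_and, sat_ap, ih, sat_succX,
      Function.update_apply]
    simp

theorem sat_pwX (c : ℕ) (e : ℕ → M) : Sat S (pwX c) e ↔ PW S (e 0) c (e 1) := by
  induction c generalizing e with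
  | zero => exact sat_isNX S 1 1 e
  | succ c ih =>
    simp only [pwX, PW, sat_exL_cons, sat_exL_nil, sat_and, sat_ap, ih, sat_mulX,
      Function.update_apply]
    simp

theorem AxB_sat_wX (e : ℕ → M) : Sat S wX e ↔
    ((∃ y z, imR S (e 0) y z) ∧ ((IsN S 1 (e 2) ∧ (zeroR S (e 3) ∨ IsN S 1 (e 3))) ∨
        zeroR S (e 2)) ∨
      (∃ y, alR S (e 0) y) ∧ (IsN S 1 (e 2) ∨ (zeroR S (e 2) ∧ ∃ a, prR S a (e 1) (e 3)))) := by
  unfold wX
  simp only [sat_exL_cons, sat_exL_nil, sat_and, sat_or, sat_imX, sat_isNX, sat_zeroX, sat_alX,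
    sat_prX, Function.update_apply]
  simp

theorem AxB_sat_qX (e : ℕ → M) : Sat S qX e ↔
    ((∃ z, imR S (e 0) (e 4) z) ∧ (e 5) = (e 1) ∧
          ((IsN S 1 (e 2) ∧ zeroR S (e 3) ∧ zeroR S (e 6)) ∨ (zeroR S (e 2) ∧ IsN S 1 (e 6))) ∨
        (∃ z, imR S (e 0) z (e 4)) ∧ (e 5) = (e 1) ∧
          ((IsN S 1 (e 2) ∧ IsN S 1 (e 3) ∧ IsN S 1 (e 6)) ∨ (zeroR S (e 2) ∧ zeroR S (e 6))) ∨
        alR S (e 0) (e 4) ∧ ((IsN S 1 (e 2) ∧ IsN S 1 (e 6) ∧ ∃ a, prR S a (e 1) (e 5)) ∨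
          (zeroR S (e 2) ∧ zeroR S (e 6) ∧ (e 5) = (e 3)))) := by
  unfold qX
  simp only [sat_orL, sat_andL, List.mem_cons, List.not_mem_nil, or_false, exists_eq_or_imp,
    forall_eq_or_imp, forall_eq, exists_eq_left, sat_exL_cons, sat_exL_nil, sat_and, sat_or,
    sat_imX, sat_isNX, sat_zeroX, sat_alX, sat_prX, sat_eqX, Function.update_apply]
  simp

theorem sat_phiX (e : ℕ → M) : Sat S phiX e ↔ PhiM S (FR S) (e 0) (e 1) (e 2) := by
  unfold phiX PhiM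
  simp only [sat_and, sat_or, sat_neg, sat_ex, sat_all, sat_imp, sat_ap, sat_atsX, sat_isNX,
    sat_t0X, sat_zeroX, sat_FX, AxB_sat_wX, AxB_sat_qX]
  simp only [scons, List.getD_cons_zero, List.getD_cons_succ]
  exact or_congr Iff.rfl (and_congr Iff.rfl (exists_congr fun w => and_congr Iff.rfl
    ⟨fun h y t c => h c t y, fun h c t y => h y t c⟩))

theorem sat_hX (e : ℕ → M) : Sat S hX e ↔ HM S (FR S) (e 0) := by
  unfold hX HM
  simp only [alL, sat_alN, sat_andL, List.mem_cons, List.not_mem_nil, or_false,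
    forall_eq_or_imp, forall_eq, sat_imp, sat_zeroX, sat_isNX, sat_dpX, sat_iff, sat_neg, sat_FX,
    sat_ap, sat_phiX, Function.update_apply]
  simp

theorem sat_slX (e : ℕ → M) : Sat S slX e ↔ SLM S (FR S) (e 0) (e 1) := by
  unfold slX SLM
  simp only [alL, sat_alN, sat_imp, sat_isNX, sat_dpX, sat_rnX, sat_rlX, sat_iff, sat_FX,
    Function.update_apply]
  simp
  exact ⟨fun h i x h1 h2 h3 r y s t h4 h5 => h i x r y s t h1 h2 h3 h4 h5,
    fun h i x r y s t h1 h2 h3 h4 h5 => h i x h1 h2 h3 r y s t h4 h5⟩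

theorem sat_lxX (e : ℕ → M) : Sat S lxX e ↔ LXM S (e 0) := by
  unfold lxX LXM
  simp only [sat_orL, sat_andL, List.mem_cons, List.not_mem_nil, or_false, exists_eq_or_imp,
    forall_eq_or_imp, forall_eq, exists_eq_left, sat_exL_cons, sat_exL_nil, sat_and,
    sat_neg, sat_imp, sat_alN, sat_imX, sat_atsX, sat_t0X, sat_rnX, sat_prX, sat_rlX, sat_alX,
    Function.update_apply]
  simp

end

end Pool.Agent.Myc
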