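import Pool.Agent.Myc.AxA
import Pool.Agent.Myc.AxB

set_option autoImplicit false
set_option linter.unusedSimpArgs false

namespace Pool.Agent.Myc

open Fm

section
variable {M : Type} (S : XStr M)

theorem AxC_pr_tot : (∀ e, Sat S ((exL [10] (prX 0 1 10)) : XFm) e) ↔
    (∀ a s, ∃ t, prR S a s t) := by
  constructor
  · intro h a s
    have := h (fun i => [a, s].getD i a)
    simpa [sat_imp, sat_neg, sat_and, sat_or, sat_iff, sat_exL_cons, sat_exL_nil, sat_alN, alL, sat_andL,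
      sat_orL, sat_ap, sat_eqX, sat_isNX, sat_dgX, sat_isUX, sat_pwX, sat_lxX, sat_zeroX, sat_succX, sat_addX, sat_mulX, sat_prX, sat_vlX, sat_t0X, sat_atsX, sat_imX, sat_alX, sat_dpX, sat_rnX, sat_rlX, sat_upX, sat_pfX, sat_memX, sat_formX, sat_tkX, sat_concX, sat_ppX, sat_nuX, sat_szX, sat_e2X, sat_clX, sat_lstX, sat_FX, sat_GX, sat_HX, sat_KX, Function.update_apply] using this
  · intro h e
    have := h (e 0) (e 1)
    simpa [sat_imp, sat_neg, sat_and, sat_or, sat_iff, sat_exL_cons, sat_exL_nil, sat_alN, alL, sat_andL,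
      sat_orL, sat_ap, sat_eqX, sat_isNX, sat_dgX, sat_isUX, sat_pwX, sat_lxX, sat_zeroX, sat_succX, sat_addX, sat_mulX, sat_prX, sat_vlX, sat_t0X, sat_atsX, sat_imX, sat_alX, sat_dpX, sat_rnX, sat_rlX, sat_upX, sat_pfX, sat_memX, sat_formX, sat_tkX, sat_concX, sat_ppX, sat_nuX, sat_szX, sat_e2X, sat_clX, sat_lstX, sat_FX, sat_GX, sat_HX, sat_KX, Function.update_apply] using this

theorem AxC_pr_sur : (∀ e, Sat S ((exL [10, 11] (prX 10 11 0)) : XFm) e) ↔
    (∀ t, ∃ a s, prR S a s t) := by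
  constructor
  · intro h t
    have := h (fun i => [t].getD i t)
    simpa [sat_imp, sat_neg, sat_and, sat_or, sat_iff, sat_exL_cons, sat_exL_nil, sat_alN, alL, sat_andL,
      sat_orL, sat_ap, sat_eqX, sat_isNX, sat_dgX, sat_isUX, sat_pwX, sat_lxX, sat_zeroX, sat_succX, sat_addX, sat_mulX, sat_prX, sat_vlX, sat_t0X, sat_atsX, sat_imX, sat_alX, sat_dpX, sat_rnX, sat_rlX, sat_upX, sat_pfX, sat_memX, sat_formX, sat_tkX, sat_concX, sat_ppX, sat_nuX, sat_szX, sat_e2X, sat_clX, sat_lstX, sat_FX, sat_GX, sat_HX, sat_KX, Function.update_apply] using this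
  · intro h e
    have := h (e 0)
    simpa [sat_imp, sat_neg, sat_and, sat_or, sat_iff, sat_exL_cons, sat_exL_nil, sat_alN, alL, sat_andL,
      sat_orL, sat_ap, sat_eqX, sat_isNX, sat_dgX, sat_isUX, sat_pwX, sat_lxX, sat_zeroX, sat_succX, sat_addX, sat_mulX, sat_prX, sat_vlX, sat_t0X, sat_atsX, sat_imX, sat_alX, sat_dpX, sat_rnX, sat_rlX, sat_upX, sat_pfX, sat_memX, sat_formX, sat_tkX, sat_concX, sat_ppX, sat_nuX, sat_szX, sat_e2X, sat_clX, sat_lstX, sat_FX, sat_GX, sat_HX, sat_KX, Function.update_apply] using this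

theorem AxC_pr_inj : (∀ e, Sat S ((imp (prX 0 1 2) (imp (prX 3 4 2) (and (eq 0 3) (eq 1 4)))) : XFm) e) ↔
    (∀ a s t a' s', prR S a s t → prR S a' s' t → a = a' ∧ s = s') := by
  constructor
  · intro h a s t a' s'
    have := h (fun i => [a, s, t, a', s'].getD i a)
    simpa [sat_imp, sat_neg, sat_and, sat_or, sat_iff, sat_exL_cons, sat_exL_nil, sat_alN, alL, sat_andL,
      sat_orL, sat_ap, sat_eqX, sat_isNX, sat_dgX, sat_isUX, sat_pwX, sat_lxX, sat_zeroX, sat_succX, sat_addX, sat_mulX, sat_prX, sat_vlX, sat_t0X, sat_atsX, sat_imX, sat_alX, sat_dpX, sat_rnX, sat_rlX, sat_upX, sat_pfX, sat_memX, sat_formX, sat_tkX, sat_concX, sat_ppX, sat_nuX, sat_szX, sat_e2X, sat_clX, sat_lstX, sat_FX, sat_GX, sat_HX, sat_KX, Function.update_apply] using this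
  · intro h e
    have := h (e 0) (e 1) (e 2) (e 3) (e 4)
    simpa [sat_imp, sat_neg, sat_and, sat_or, sat_iff, sat_exL_cons, sat_exL_nil, sat_alN, alL, sat_andL,
      sat_orL, sat_ap, sat_eqX, sat_isNX, sat_dgX, sat_isUX, sat_pwX, sat_lxX, sat_zeroX, sat_succX, sat_addX, sat_mulX, sat_prX, sat_vlX, sat_t0X, sat_atsX, sat_imX, sat_alX, sat_dpX, sat_rnX, sat_rlX, sat_upX, sat_pfX, sat_memX, sat_formX, sat_tkX, sat_concX, sat_ppX, sat_nuX, sat_szX, sat_e2X, sat_clX, sat_lstX, sat_FX, sat_GX, sat_HX, sat_KX, Function.update_apply] using this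

theorem AxC_vl0 : (∀ e, Sat S ((imp (isNX 6 0) (imp (prX 1 2 3) (vlX 3 0 1))) : XFm) e) ↔
    (∀ v a s' s, IsN S 6 v → prR S a s' s → vlR S s v a) := by
  constructor
  · intro h v a s' s
    have := h (fun i => [v, a, s', s].getD i v)
    simpa [sat_imp, sat_neg, sat_and, sat_or, sat_iff, sat_exL_cons, sat_exL_nil, sat_alN, alL, sat_andL,
      sat_orL, sat_ap, sat_eqX, sat_isNX, sat_dgX, sat_isUX, sat_pwX, sat_lxX, sat_zeroX, sat_succX, sat_addX, sat_mulX, sat_prX, sat_vlX, sat_t0X, sat_atsX, sat_imX, sat_alX, sat_dpX, sat_rnX, sat_rlX, sat_upX, sat_pfX, sat_memX, sat_formX, sat_tkX, sat_concX, sat_ppX, sat_nuX, sat_szX, sat_e2X, sat_clX, sat_lstX, sat_FX, sat_GX, sat_HX, sat_KX, Function.update_apply] using this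
  · intro h e
    have := h (e 0) (e 1) (e 2) (e 3)
    simpa [sat_imp, sat_neg, sat_and, sat_or, sat_iff, sat_exL_cons, sat_exL_nil, sat_alN, alL, sat_andL,
      sat_orL, sat_ap, sat_eqX, sat_isNX, sat_dgX, sat_isUX, sat_pwX, sat_lxX, sat_zeroX, sat_succX, sat_addX, sat_mulX, sat_prX, sat_vlX, sat_t0X, sat_atsX, sat_imX, sat_alX, sat_dpX, sat_rnX, sat_rlX, sat_upX, sat_pfX, sat_memX, sat_formX, sat_tkX, sat_concX, sat_ppX, sat_nuX, sat_szX, sat_e2X, sat_clX, sat_lstX, sat_FX, sat_GX, sat_HX, sat_KX, Function.update_apply] using this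

theorem AxC_vlS : (∀ e, Sat S ((imp (addX 0 0 1) (imp (exL [10] (and (succX 1 10) (succX 10 2))) (imp (prX 3 4 5) (imp (vlX 4 0 6) (vlX 5 2 6))))) : XFm) e) ↔
    (∀ v u v' b s' s a, addR S v v u → (∃ w, succR S u w ∧ succR S w v') → prR S b s' s →
      vlR S s' v a → vlR S s v' a) := by
  constructor
  · intro h v u v' b s' s a
    have := h (fun i => [v, u, v', b, s', s, a].getD i v)
    simpa [sat_imp, sat_neg, sat_and, sat_or, sat_iff, sat_exL_cons, sat_exL_nil, sat_alN, alL, sat_andL,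
      sat_orL, sat_ap, sat_eqX, sat_isNX, sat_dgX, sat_isUX, sat_pwX, sat_lxX, sat_zeroX, sat_succX, sat_addX, sat_mulX, sat_prX, sat_vlX, sat_t0X, sat_atsX, sat_imX, sat_alX, sat_dpX, sat_rnX, sat_rlX, sat_upX, sat_pfX, sat_memX, sat_formX, sat_tkX, sat_concX, sat_ppX, sat_nuX, sat_szX, sat_e2X, sat_clX, sat_lstX, sat_FX, sat_GX, sat_HX, sat_KX, Function.update_apply] using this
  · intro h e
    have := h (e 0) (e 1) (e 2) (e 3) (e 4) (e 5) (e 6)
    simpa [sat_imp, sat_neg, sat_and, sat_or, sat_iff, sat_exL_cons, sat_exL_nil, sat_alN, alL, sat_andL,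
      sat_orL, sat_ap, sat_eqX, sat_isNX, sat_dgX, sat_isUX, sat_pwX, sat_lxX, sat_zeroX, sat_succX, sat_addX, sat_mulX, sat_prX, sat_vlX, sat_t0X, sat_atsX, sat_imX, sat_alX, sat_dpX, sat_rnX, sat_rlX, sat_upX, sat_pfX, sat_memX, sat_formX, sat_tkX, sat_concX, sat_ppX, sat_nuX, sat_szX, sat_e2X, sat_clX, sat_lstX, sat_FX, sat_GX, sat_HX, sat_KX, Function.update_apply] using this

theorem AxC_at_im : (∀ e, Sat S ((imp (atsX 0) (neg (imX 0 1 2))) : XFm) e) ↔
    (∀ x y z, atsR S x → ¬ imR S x y z) := by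
  constructor
  · intro h x y z
    have := h (fun i => [x, y, z].getD i x)
    simpa [sat_imp, sat_neg, sat_and, sat_or, sat_iff, sat_exL_cons, sat_exL_nil, sat_alN, alL, sat_andL,
      sat_orL, sat_ap, sat_eqX, sat_isNX, sat_dgX, sat_isUX, sat_pwX, sat_lxX, sat_zeroX, sat_succX, sat_addX, sat_mulX, sat_prX, sat_vlX, sat_t0X, sat_atsX, sat_imX, sat_alX, sat_dpX, sat_rnX, sat_rlX, sat_upX, sat_pfX, sat_memX, sat_formX, sat_tkX, sat_concX, sat_ppX, sat_nuX, sat_szX, sat_e2X, sat_clX, sat_lstX, sat_FX, sat_GX, sat_HX, sat_KX, Function.update_apply] using this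
  · intro h e
    have := h (e 0) (e 1) (e 2)
    simpa [sat_imp, sat_neg, sat_and, sat_or, sat_iff, sat_exL_cons, sat_exL_nil, sat_alN, alL, sat_andL,
      sat_orL, sat_ap, sat_eqX, sat_isNX, sat_dgX, sat_isUX, sat_pwX, sat_lxX, sat_zeroX, sat_succX, sat_addX, sat_mulX, sat_prX, sat_vlX, sat_t0X, sat_atsX, sat_imX, sat_alX, sat_dpX, sat_rnX, sat_rlX, sat_upX, sat_pfX, sat_memX, sat_formX, sat_tkX, sat_concX, sat_ppX, sat_nuX, sat_szX, sat_e2X, sat_clX, sat_lstX, sat_FX, sat_GX, sat_HX, sat_KX, Function.update_apply] using this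

theorem AxC_at_al : (∀ e, Sat S ((imp (atsX 0) (neg (alX 0 1))) : XFm) e) ↔
    (∀ x y, atsR S x → ¬ alR S x y) := by
  constructor
  · intro h x y
    have := h (fun i => [x, y].getD i x)
    simpa [sat_imp, sat_neg, sat_and, sat_or, sat_iff, sat_exL_cons, sat_exL_nil, sat_alN, alL, sat_andL,
      sat_orL, sat_ap, sat_eqX, sat_isNX, sat_dgX, sat_isUX, sat_pwX, sat_lxX, sat_zeroX, sat_succX, sat_addX, sat_mulX, sat_prX, sat_vlX, sat_t0X, sat_atsX, sat_imX, sat_alX, sat_dpX, sat_rnX, sat_rlX, sat_upX, sat_pfX, sat_memX, sat_formX, sat_tkX, sat_concX, sat_ppX, sat_nuX, sat_szX, sat_e2X, sat_clX, sat_lstX, sat_FX, sat_GX, sat_HX, sat_KX, Function.update_apply] using this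
  · intro h e
    have := h (e 0) (e 1)
    simpa [sat_imp, sat_neg, sat_and, sat_or, sat_iff, sat_exL_cons, sat_exL_nil, sat_alN, alL, sat_andL,
      sat_orL, sat_ap, sat_eqX, sat_isNX, sat_dgX, sat_isUX, sat_pwX, sat_lxX, sat_zeroX, sat_succX, sat_addX, sat_mulX, sat_prX, sat_vlX, sat_t0X, sat_atsX, sat_imX, sat_alX, sat_dpX, sat_rnX, sat_rlX, sat_upX, sat_pfX, sat_memX, sat_formX, sat_tkX, sat_concX, sat_ppX, sat_nuX, sat_szX, sat_e2X, sat_clX, sat_lstX, sat_FX, sat_GX, sat_HX, sat_KX, Function.update_apply] using this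

theorem AxC_im_al : (∀ e, Sat S ((imp (imX 0 1 2) (neg (alX 0 3))) : XFm) e) ↔
    (∀ x y z w, imR S x y z → ¬ alR S x w) := by
  constructor
  · intro h x y z w
    have := h (fun i => [x, y, z, w].getD i x)
    simpa [sat_imp, sat_neg, sat_and, sat_or, sat_iff, sat_exL_cons, sat_exL_nil, sat_alN, alL, sat_andL,
      sat_orL, sat_ap, sat_eqX, sat_isNX, sat_dgX, sat_isUX, sat_pwX, sat_lxX, sat_zeroX, sat_succX, sat_addX, sat_mulX, sat_prX, sat_vlX, sat_t0X, sat_atsX, sat_imX, sat_alX, sat_dpX, sat_rnX, sat_rlX, sat_upX, sat_pfX, sat_memX, sat_formX, sat_tkX, sat_concX, sat_ppX, sat_nuX, sat_szX, sat_e2X, sat_clX, sat_lstX, sat_FX, sat_GX, sat_HX, sat_KX, Function.update_apply] using this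
  · intro h e
    have := h (e 0) (e 1) (e 2) (e 3)
    simpa [sat_imp, sat_neg, sat_and, sat_or, sat_iff, sat_exL_cons, sat_exL_nil, sat_alN, alL, sat_andL,
      sat_orL, sat_ap, sat_eqX, sat_isNX, sat_dgX, sat_isUX, sat_pwX, sat_lxX, sat_zeroX, sat_succX, sat_addX, sat_mulX, sat_prX, sat_vlX, sat_t0X, sat_atsX, sat_imX, sat_alX, sat_dpX, sat_rnX, sat_rlX, sat_upX, sat_pfX, sat_memX, sat_formX, sat_tkX, sat_concX, sat_ppX, sat_nuX, sat_szX, sat_e2X, sat_clX, sat_lstX, sat_FX, sat_GX, sat_HX, sat_KX, Function.update_apply] using this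

theorem AxC_im_inj : (∀ e, Sat S ((imp (imX 0 1 2) (imp (imX 0 3 4) (and (eq 1 3) (eq 2 4)))) : XFm) e) ↔
    (∀ x y z y' z', imR S x y z → imR S x y' z' → y = y' ∧ z = z') := by
  constructor
  · intro h x y z y' z'
    have := h (fun i => [x, y, z, y', z'].getD i x)
    simpa [sat_imp, sat_neg, sat_and, sat_or, sat_iff, sat_exL_cons, sat_exL_nil, sat_alN, alL, sat_andL,
      sat_orL, sat_ap, sat_eqX, sat_isNX, sat_dgX, sat_isUX, sat_pwX, sat_lxX, sat_zeroX, sat_succX, sat_addX, sat_mulX, sat_prX, sat_vlX, sat_t0X, sat_atsX, sat_imX, sat_alX, sat_dpX, sat_rnX, sat_rlX, sat_upX, sat_pfX, sat_memX, sat_formX, sat_tkX, sat_concX, sat_ppX, sat_nuX, sat_szX, sat_e2X, sat_clX, sat_lstX, sat_FX, sat_GX, sat_HX, sat_KX, Function.update_apply] using this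
  · intro h e
    have := h (e 0) (e 1) (e 2) (e 3) (e 4)
    simpa [sat_imp, sat_neg, sat_and, sat_or, sat_iff, sat_exL_cons, sat_exL_nil, sat_alN, alL, sat_andL,
      sat_orL, sat_ap, sat_eqX, sat_isNX, sat_dgX, sat_isUX, sat_pwX, sat_lxX, sat_zeroX, sat_succX, sat_addX, sat_mulX, sat_prX, sat_vlX, sat_t0X, sat_atsX, sat_imX, sat_alX, sat_dpX, sat_rnX, sat_rlX, sat_upX, sat_pfX, sat_memX, sat_formX, sat_tkX, sat_concX, sat_ppX, sat_nuX, sat_szX, sat_e2X, sat_clX, sat_lstX, sat_FX, sat_GX, sat_HX, sat_KX, Function.update_apply] using this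

theorem AxC_al_inj : (∀ e, Sat S ((imp (alX 0 1) (imp (alX 0 2) (eq 1 2))) : XFm) e) ↔
    (∀ x y y', alR S x y → alR S x y' → y = y') := by
  constructor
  · intro h x y y'
    have := h (fun i => [x, y, y'].getD i x)
    simpa [sat_imp, sat_neg, sat_and, sat_or, sat_iff, sat_exL_cons, sat_exL_nil, sat_alN, alL, sat_andL,
      sat_orL, sat_ap, sat_eqX, sat_isNX, sat_dgX, sat_isUX, sat_pwX, sat_lxX, sat_zeroX, sat_succX, sat_addX, sat_mulX, sat_prX, sat_vlX, sat_t0X, sat_atsX, sat_imX, sat_alX, sat_dpX, sat_rnX, sat_rlX, sat_upX, sat_pfX, sat_memX, sat_formX, sat_tkX, sat_concX, sat_ppX, sat_nuX, sat_szX, sat_e2X, sat_clX, sat_lstX, sat_FX, sat_GX, sat_HX, sat_KX, Function.update_apply] using this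
  · intro h e
    have := h (e 0) (e 1) (e 2)
    simpa [sat_imp, sat_neg, sat_and, sat_or, sat_iff, sat_exL_cons, sat_exL_nil, sat_alN, alL, sat_andL,
      sat_orL, sat_ap, sat_eqX, sat_isNX, sat_dgX, sat_isUX, sat_pwX, sat_lxX, sat_zeroX, sat_succX, sat_addX, sat_mulX, sat_prX, sat_vlX, sat_t0X, sat_atsX, sat_imX, sat_alX, sat_dpX, sat_rnX, sat_rlX, sat_upX, sat_pfX, sat_memX, sat_formX, sat_tkX, sat_concX, sat_ppX, sat_nuX, sat_szX, sat_e2X, sat_clX, sat_lstX, sat_FX, sat_GX, sat_HX, sat_KX, Function.update_apply] using this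

theorem AxC_dp_zero : (∀ e, Sat S ((imp (zeroX 0) (neg (dpX 0 1))) : XFm) e) ↔
    (∀ k x, zeroR S k → ¬ dpR S k x) := by
  constructor
  · intro h k x
    have := h (fun i => [k, x].getD i k)
    simpa [sat_imp, sat_neg, sat_and, sat_or, sat_iff, sat_exL_cons, sat_exL_nil, sat_alN, alL, sat_andL,
      sat_orL, sat_ap, sat_eqX, sat_isNX, sat_dgX, sat_isUX, sat_pwX, sat_lxX, sat_zeroX, sat_succX, sat_addX, sat_mulX, sat_prX, sat_vlX, sat_t0X, sat_atsX, sat_imX, sat_alX, sat_dpX, sat_rnX, sat_rlX, sat_upX, sat_pfX, sat_memX, sat_formX, sat_tkX, sat_concX, sat_ppX, sat_nuX, sat_szX, sat_e2X, sat_clX, sat_lstX, sat_FX, sat_GX, sat_HX, sat_KX, Function.update_apply] using this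
  · intro h e
    have := h (e 0) (e 1)
    simpa [sat_imp, sat_neg, sat_and, sat_or, sat_iff, sat_exL_cons, sat_exL_nil, sat_alN, alL, sat_andL,
      sat_orL, sat_ap, sat_eqX, sat_isNX, sat_dgX, sat_isUX, sat_pwX, sat_lxX, sat_zeroX, sat_succX, sat_addX, sat_mulX, sat_prX, sat_vlX, sat_t0X, sat_atsX, sat_imX, sat_alX, sat_dpX, sat_rnX, sat_rlX, sat_upX, sat_pfX, sat_memX, sat_formX, sat_tkX, sat_concX, sat_ppX, sat_nuX, sat_szX, sat_e2X, sat_clX, sat_lstX, sat_FX, sat_GX, sat_HX, sat_KX, Function.update_apply] using this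

theorem AxC_dp_cases : (∀ e, Sat S ((imp (dpX 0 1) (orL [atsX 1, exL [10, 11] (imX 1 10 11), exL [10] (alX 1 10)])) : XFm) e) ↔
    (∀ k x, dpR S k x → atsR S x ∨ (∃ y z, imR S x y z) ∨ ∃ y, alR S x y) := by
  constructor
  · intro h k x
    have := h (fun i => [k, x].getD i k)
    simpa [sat_imp, sat_neg, sat_and, sat_or, sat_iff, sat_exL_cons, sat_exL_nil, sat_alN, alL, sat_andL,
      sat_orL, sat_ap, sat_eqX, sat_isNX, sat_dgX, sat_isUX, sat_pwX, sat_lxX, sat_zeroX, sat_succX, sat_addX, sat_mulX, sat_prX, sat_vlX, sat_t0X, sat_atsX, sat_imX, sat_alX, sat_dpX, sat_rnX, sat_rlX, sat_upX, sat_pfX, sat_memX, sat_formX, sat_tkX, sat_concX, sat_ppX, sat_nuX, sat_szX, sat_e2X, sat_clX, sat_lstX, sat_FX, sat_GX, sat_HX, sat_KX, Function.update_apply] using this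
  · intro h e
    have := h (e 0) (e 1)
    simpa [sat_imp, sat_neg, sat_and, sat_or, sat_iff, sat_exL_cons, sat_exL_nil, sat_alN, alL, sat_andL,
      sat_orL, sat_ap, sat_eqX, sat_isNX, sat_dgX, sat_isUX, sat_pwX, sat_lxX, sat_zeroX, sat_succX, sat_addX, sat_mulX, sat_prX, sat_vlX, sat_t0X, sat_atsX, sat_imX, sat_alX, sat_dpX, sat_rnX, sat_rlX, sat_upX, sat_pfX, sat_memX, sat_formX, sat_tkX, sat_concX, sat_ppX, sat_nuX, sat_szX, sat_e2X, sat_clX, sat_lstX, sat_FX, sat_GX, sat_HX, sat_KX, Function.update_apply] using this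

theorem AxC_dp_im : (∀ e, Sat S ((imp (succX 0 1) (imp (dpX 1 2) (imp (imX 2 3 4) (and (dpX 0 3) (dpX 0 4))))) : XFm) e) ↔
    (∀ k k' x y z, succR S k k' → dpR S k' x → imR S x y z → dpR S k y ∧ dpR S k z) := by
  constructor
  · intro h k k' x y z
    have := h (fun i => [k, k', x, y, z].getD i k)
    simpa [sat_imp, sat_neg, sat_and, sat_or, sat_iff, sat_exL_cons, sat_exL_nil, sat_alN, alL, sat_andL,
      sat_orL, sat_ap, sat_eqX, sat_isNX, sat_dgX, sat_isUX, sat_pwX, sat_lxX, sat_zeroX, sat_succX, sat_addX, sat_mulX, sat_prX, sat_vlX, sat_t0X, sat_atsX, sat_imX, sat_alX, sat_dpX, sat_rnX, sat_rlX, sat_upX, sat_pfX, sat_memX, sat_formX, sat_tkX, sat_concX, sat_ppX, sat_nuX, sat_szX, sat_e2X, sat_clX, sat_lstX, sat_FX, sat_GX, sat_HX, sat_KX, Function.update_apply] using this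
  · intro h e
    have := h (e 0) (e 1) (e 2) (e 3) (e 4)
    simpa [sat_imp, sat_neg, sat_and, sat_or, sat_iff, sat_exL_cons, sat_exL_nil, sat_alN, alL, sat_andL,
      sat_orL, sat_ap, sat_eqX, sat_isNX, sat_dgX, sat_isUX, sat_pwX, sat_lxX, sat_zeroX, sat_succX, sat_addX, sat_mulX, sat_prX, sat_vlX, sat_t0X, sat_atsX, sat_imX, sat_alX, sat_dpX, sat_rnX, sat_rlX, sat_upX, sat_pfX, sat_memX, sat_formX, sat_tkX, sat_concX, sat_ppX, sat_nuX, sat_szX, sat_e2X, sat_clX, sat_lstX, sat_FX, sat_GX, sat_HX, sat_KX, Function.update_apply] using this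

theorem AxC_dp_al : (∀ e, Sat S ((imp (succX 0 1) (imp (dpX 1 2) (imp (alX 2 3) (dpX 0 3)))) : XFm) e) ↔
    (∀ k k' x y, succR S k k' → dpR S k' x → alR S x y → dpR S k y) := by
  constructor
  · intro h k k' x y
    have := h (fun i => [k, k', x, y].getD i k)
    simpa [sat_imp, sat_neg, sat_and, sat_or, sat_iff, sat_exL_cons, sat_exL_nil, sat_alN, alL, sat_andL,
      sat_orL, sat_ap, sat_eqX, sat_isNX, sat_dgX, sat_isUX, sat_pwX, sat_lxX, sat_zeroX, sat_succX, sat_addX, sat_mulX, sat_prX, sat_vlX, sat_t0X, sat_atsX, sat_imX, sat_alX, sat_dpX, sat_rnX, sat_rlX, sat_upX, sat_pfX, sat_memX, sat_formX, sat_tkX, sat_concX, sat_ppX, sat_nuX, sat_szX, sat_e2X, sat_clX, sat_lstX, sat_FX, sat_GX, sat_HX, sat_KX, Function.update_apply] using this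
  · intro h e
    have := h (e 0) (e 1) (e 2) (e 3)
    simpa [sat_imp, sat_neg, sat_and, sat_or, sat_iff, sat_exL_cons, sat_exL_nil, sat_alN, alL, sat_andL,
      sat_orL, sat_ap, sat_eqX, sat_isNX, sat_dgX, sat_isUX, sat_pwX, sat_lxX, sat_zeroX, sat_succX, sat_addX, sat_mulX, sat_prX, sat_vlX, sat_t0X, sat_atsX, sat_imX, sat_alX, sat_dpX, sat_rnX, sat_rlX, sat_upX, sat_pfX, sat_memX, sat_formX, sat_tkX, sat_concX, sat_ppX, sat_nuX, sat_szX, sat_e2X, sat_clX, sat_lstX, sat_FX, sat_GX, sat_HX, sat_KX, Function.update_apply] using this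

theorem AxC_dp_imp : (∀ e, Sat S ((imp (dpX 0 1) (imp (imX 1 2 3) (and (dpX 0 2) (dpX 0 3)))) : XFm) e) ↔
    (∀ k x y z, dpR S k x → imR S x y z → dpR S k y ∧ dpR S k z) := by
  constructor
  · intro h k x y z
    have := h (fun i => [k, x, y, z].getD i k)
    simpa [sat_imp, sat_neg, sat_and, sat_or, sat_iff, sat_exL_cons, sat_exL_nil, sat_alN, alL, sat_andL,
      sat_orL, sat_ap, sat_eqX, sat_isNX, sat_dgX, sat_isUX, sat_pwX, sat_lxX, sat_zeroX, sat_succX, sat_addX, sat_mulX, sat_prX, sat_vlX, sat_t0X, sat_atsX, sat_imX, sat_alX, sat_dpX, sat_rnX, sat_rlX, sat_upX, sat_pfX, sat_memX, sat_formX, sat_tkX, sat_concX, sat_ppX, sat_nuX, sat_szX, sat_e2X, sat_clX, sat_lstX, sat_FX, sat_GX, sat_HX, sat_KX, Function.update_apply] using this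
  · intro h e
    have := h (e 0) (e 1) (e 2) (e 3)
    simpa [sat_imp, sat_neg, sat_and, sat_or, sat_iff, sat_exL_cons, sat_exL_nil, sat_alN, alL, sat_andL,
      sat_orL, sat_ap, sat_eqX, sat_isNX, sat_dgX, sat_isUX, sat_pwX, sat_lxX, sat_zeroX, sat_succX, sat_addX, sat_mulX, sat_prX, sat_vlX, sat_t0X, sat_atsX, sat_imX, sat_alX, sat_dpX, sat_rnX, sat_rlX, sat_upX, sat_pfX, sat_memX, sat_formX, sat_tkX, sat_concX, sat_ppX, sat_nuX, sat_szX, sat_e2X, sat_clX, sat_lstX, sat_FX, sat_GX, sat_HX, sat_KX, Function.update_apply] using this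

theorem AxC_dp_alp : (∀ e, Sat S ((imp (dpX 0 1) (imp (alX 1 2) (dpX 0 2))) : XFm) e) ↔
    (∀ k x y, dpR S k x → alR S x y → dpR S k y) := by
  constructor
  · intro h k x y
    have := h (fun i => [k, x, y].getD i k)
    simpa [sat_imp, sat_neg, sat_and, sat_or, sat_iff, sat_exL_cons, sat_exL_nil, sat_alN, alL, sat_andL,
      sat_orL, sat_ap, sat_eqX, sat_isNX, sat_dgX, sat_isUX, sat_pwX, sat_lxX, sat_zeroX, sat_succX, sat_addX, sat_mulX, sat_prX, sat_vlX, sat_t0X, sat_atsX, sat_imX, sat_alX, sat_dpX, sat_rnX, sat_rlX, sat_upX, sat_pfX, sat_memX, sat_formX, sat_tkX, sat_concX, sat_ppX, sat_nuX, sat_szX, sat_e2X, sat_clX, sat_lstX, sat_FX, sat_GX, sat_HX, sat_KX, Function.update_apply] using this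
  · intro h e
    have := h (e 0) (e 1) (e 2)
    simpa [sat_imp, sat_neg, sat_and, sat_or, sat_iff, sat_exL_cons, sat_exL_nil, sat_alN, alL, sat_andL,
      sat_orL, sat_ap, sat_eqX, sat_isNX, sat_dgX, sat_isUX, sat_pwX, sat_lxX, sat_zeroX, sat_succX, sat_addX, sat_mulX, sat_prX, sat_vlX, sat_t0X, sat_atsX, sat_imX, sat_alX, sat_dpX, sat_rnX, sat_rlX, sat_upX, sat_pfX, sat_memX, sat_formX, sat_tkX, sat_concX, sat_ppX, sat_nuX, sat_szX, sat_e2X, sat_clX, sat_lstX, sat_FX, sat_GX, sat_HX, sat_KX, Function.update_apply] using this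

theorem AxC_rn_at : (∀ e, Sat S ((imp (atsX 1) (imp (rnX 0 1 2) (and (atsX 2) (alL [10, 11] (imp (rlX 0 10 11) (iff (t0X 2 10) (t0X 1 11))))))) : XFm) e) ↔
    (∀ r x y, atsR S x → rnR S r x y → atsR S y ∧ ∀ s t, rlR S r s t →
      (t0R S y s ↔ t0R S x t)) := by
  constructor
  · intro h r x y
    have := h (fun i => [r, x, y].getD i r)
    simpa [sat_imp, sat_neg, sat_and, sat_or, sat_iff, sat_exL_cons, sat_exL_nil, sat_alN, alL, sat_andL,
      sat_orL, sat_ap, sat_eqX, sat_isNX, sat_dgX, sat_isUX, sat_pwX, sat_lxX, sat_zeroX, sat_succX, sat_addX, sat_mulX, sat_prX, sat_vlX, sat_t0X, sat_atsX, sat_imX, sat_alX, sat_dpX, sat_rnX, sat_rlX, sat_upX, sat_pfX, sat_memX, sat_formX, sat_tkX, sat_concX, sat_ppX, sat_nuX, sat_szX, sat_e2X, sat_clX, sat_lstX, sat_FX, sat_GX, sat_HX, sat_KX, Function.update_apply] using this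
  · intro h e
    have := h (e 0) (e 1) (e 2)
    simpa [sat_imp, sat_neg, sat_and, sat_or, sat_iff, sat_exL_cons, sat_exL_nil, sat_alN, alL, sat_andL,
      sat_orL, sat_ap, sat_eqX, sat_isNX, sat_dgX, sat_isUX, sat_pwX, sat_lxX, sat_zeroX, sat_succX, sat_addX, sat_mulX, sat_prX, sat_vlX, sat_t0X, sat_atsX, sat_imX, sat_alX, sat_dpX, sat_rnX, sat_rlX, sat_upX, sat_pfX, sat_memX, sat_formX, sat_tkX, sat_concX, sat_ppX, sat_nuX, sat_szX, sat_e2X, sat_clX, sat_lstX, sat_FX, sat_GX, sat_HX, sat_KX, Function.update_apply] using this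

theorem AxC_rn_im : (∀ e, Sat S ((imp (rnX 0 1 2) (imp (imX 1 3 4) (exL [10, 11] (andL [imX 2 10 11, rnX 0 3 10, rnX 0 4 11])))) : XFm) e) ↔
    (∀ r x y x1 x2, rnR S r x y → imR S x x1 x2 → ∃ y1 y2, imR S y y1 y2 ∧ rnR S r x1 y1 ∧
      rnR S r x2 y2) := by
  constructor
  · intro h r x y x1 x2
    have := h (fun i => [r, x, y, x1, x2].getD i r)
    simpa [sat_imp, sat_neg, sat_and, sat_or, sat_iff, sat_exL_cons, sat_exL_nil, sat_alN, alL, sat_andL,
      sat_orL, sat_ap, sat_eqX, sat_isNX, sat_dgX, sat_isUX, sat_pwX, sat_lxX, sat_zeroX, sat_succX, sat_addX, sat_mulX, sat_prX, sat_vlX, sat_t0X, sat_atsX, sat_imX, sat_alX, sat_dpX, sat_rnX, sat_rlX, sat_upX, sat_pfX, sat_memX, sat_formX, sat_tkX, sat_concX, sat_ppX, sat_nuX, sat_szX, sat_e2X, sat_clX, sat_lstX, sat_FX, sat_GX, sat_HX, sat_KX, Function.update_apply] using this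
  · intro h e
    have := h (e 0) (e 1) (e 2) (e 3) (e 4)
    simpa [sat_imp, sat_neg, sat_and, sat_or, sat_iff, sat_exL_cons, sat_exL_nil, sat_alN, alL, sat_andL,
      sat_orL, sat_ap, sat_eqX, sat_isNX, sat_dgX, sat_isUX, sat_pwX, sat_lxX, sat_zeroX, sat_succX, sat_addX, sat_mulX, sat_prX, sat_vlX, sat_t0X, sat_atsX, sat_imX, sat_alX, sat_dpX, sat_rnX, sat_rlX, sat_upX, sat_pfX, sat_memX, sat_formX, sat_tkX, sat_concX, sat_ppX, sat_nuX, sat_szX, sat_e2X, sat_clX, sat_lstX, sat_FX, sat_GX, sat_HX, sat_KX, Function.update_apply] using this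

theorem AxC_rn_al : (∀ e, Sat S ((imp (rnX 0 1 2) (imp (alX 1 3) (exL [10, 11] (andL [alX 2 11, upX 0 10, rnX 10 3 11])))) : XFm) e) ↔
    (∀ r x y x1, rnR S r x y → alR S x x1 → ∃ r' y1, alR S y y1 ∧ upR S r r' ∧
      rnR S r' x1 y1) := by
  constructor
  · intro h r x y x1
    have := h (fun i => [r, x, y, x1].getD i r)
    simpa [sat_imp, sat_neg, sat_and, sat_or, sat_iff, sat_exL_cons, sat_exL_nil, sat_alN, alL, sat_andL,
      sat_orL, sat_ap, sat_eqX, sat_isNX, sat_dgX, sat_isUX, sat_pwX, sat_lxX, sat_zeroX, sat_succX, sat_addX, sat_mulX, sat_prX, sat_vlX, sat_t0X, sat_atsX, sat_imX, sat_alX, sat_dpX, sat_rnX, sat_rlX, sat_upX, sat_pfX, sat_memX, sat_formX, sat_tkX, sat_concX, sat_ppX, sat_nuX, sat_szX, sat_e2X, sat_clX, sat_lstX, sat_FX, sat_GX, sat_HX, sat_KX, Function.update_apply] using this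
  · intro h e
    have := h (e 0) (e 1) (e 2) (e 3)
    simpa [sat_imp, sat_neg, sat_and, sat_or, sat_iff, sat_exL_cons, sat_exL_nil, sat_alN, alL, sat_andL,
      sat_orL, sat_ap, sat_eqX, sat_isNX, sat_dgX, sat_isUX, sat_pwX, sat_lxX, sat_zeroX, sat_succX, sat_addX, sat_mulX, sat_prX, sat_vlX, sat_t0X, sat_atsX, sat_imX, sat_alX, sat_dpX, sat_rnX, sat_rlX, sat_upX, sat_pfX, sat_memX, sat_formX, sat_tkX, sat_concX, sat_ppX, sat_nuX, sat_szX, sat_e2X, sat_clX, sat_lstX, sat_FX, sat_GX, sat_HX, sat_KX, Function.update_apply] using this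

theorem AxC_rn_dp : (∀ e, Sat S ((imp (rnX 0 1 2) (iff (dpX 3 1) (dpX 3 2))) : XFm) e) ↔
    (∀ r x y k, rnR S r x y → (dpR S k x ↔ dpR S k y)) := by
  constructor
  · intro h r x y k
    have := h (fun i => [r, x, y, k].getD i r)
    simpa [sat_imp, sat_neg, sat_and, sat_or, sat_iff, sat_exL_cons, sat_exL_nil, sat_alN, alL, sat_andL,
      sat_orL, sat_ap, sat_eqX, sat_isNX, sat_dgX, sat_isUX, sat_pwX, sat_lxX, sat_zeroX, sat_succX, sat_addX, sat_mulX, sat_prX, sat_vlX, sat_t0X, sat_atsX, sat_imX, sat_alX, sat_dpX, sat_rnX, sat_rlX, sat_upX, sat_pfX, sat_memX, sat_formX, sat_tkX, sat_concX, sat_ppX, sat_nuX, sat_szX, sat_e2X, sat_clX, sat_lstX, sat_FX, sat_GX, sat_HX, sat_KX, Function.update_apply] using this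
  · intro h e
    have := h (e 0) (e 1) (e 2) (e 3)
    simpa [sat_imp, sat_neg, sat_and, sat_or, sat_iff, sat_exL_cons, sat_exL_nil, sat_alN, alL, sat_andL,
      sat_orL, sat_ap, sat_eqX, sat_isNX, sat_dgX, sat_isUX, sat_pwX, sat_lxX, sat_zeroX, sat_succX, sat_addX, sat_mulX, sat_prX, sat_vlX, sat_t0X, sat_atsX, sat_imX, sat_alX, sat_dpX, sat_rnX, sat_rlX, sat_upX, sat_pfX, sat_memX, sat_formX, sat_tkX, sat_concX, sat_ppX, sat_nuX, sat_szX, sat_e2X, sat_clX, sat_lstX, sat_FX, sat_GX, sat_HX, sat_KX, Function.update_apply] using this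

theorem AxC_up_rl : (∀ e, Sat S ((imp (upX 0 1) (imp (rlX 0 2 3) (imp (prX 4 2 5) (imp (prX 4 3 6) (rlX 1 5 6))))) : XFm) e) ↔
    (∀ r r' s t a s' t', upR S r r' → rlR S r s t → prR S a s s' → prR S a t t' →
      rlR S r' s' t') := by
  constructor
  · intro h r r' s t a s' t'
    have := h (fun i => [r, r', s, t, a, s', t'].getD i r)
    simpa [sat_imp, sat_neg, sat_and, sat_or, sat_iff, sat_exL_cons, sat_exL_nil, sat_alN, alL, sat_andL,
      sat_orL, sat_ap, sat_eqX, sat_isNX, sat_dgX, sat_isUX, sat_pwX, sat_lxX, sat_zeroX, sat_succX, sat_addX, sat_mulX, sat_prX, sat_vlX, sat_t0X, sat_atsX, sat_imX, sat_alX, sat_dpX, sat_rnX, sat_rlX, sat_upX, sat_pfX, sat_memX, sat_formX, sat_tkX, sat_concX, sat_ppX, sat_nuX, sat_szX, sat_e2X, sat_clX, sat_lstX, sat_FX, sat_GX, sat_HX, sat_KX, Function.update_apply] using this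
  · intro h e
    have := h (e 0) (e 1) (e 2) (e 3) (e 4) (e 5) (e 6)
    simpa [sat_imp, sat_neg, sat_and, sat_or, sat_iff, sat_exL_cons, sat_exL_nil, sat_alN, alL, sat_andL,
      sat_orL, sat_ap, sat_eqX, sat_isNX, sat_dgX, sat_isUX, sat_pwX, sat_lxX, sat_zeroX, sat_succX, sat_addX, sat_mulX, sat_prX, sat_vlX, sat_t0X, sat_atsX, sat_imX, sat_alX, sat_dpX, sat_rnX, sat_rlX, sat_upX, sat_pfX, sat_memX, sat_formX, sat_tkX, sat_concX, sat_ppX, sat_nuX, sat_szX, sat_e2X, sat_clX, sat_lstX, sat_FX, sat_GX, sat_HX, sat_KX, Function.update_apply] using this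

theorem AxC_pf_zero : (∀ e, Sat S ((imp (zeroX 2) (neg (pfX 0 1 2 3))) : XFm) e) ↔
    (∀ a n m y, zeroR S m → ¬ pfR S a n m y) := by
  constructor
  · intro h a n m y
    have := h (fun i => [a, n, m, y].getD i a)
    simpa [sat_imp, sat_neg, sat_and, sat_or, sat_iff, sat_exL_cons, sat_exL_nil, sat_alN, alL, sat_andL,
      sat_orL, sat_ap, sat_eqX, sat_isNX, sat_dgX, sat_isUX, sat_pwX, sat_lxX, sat_zeroX, sat_succX, sat_addX, sat_mulX, sat_prX, sat_vlX, sat_t0X, sat_atsX, sat_imX, sat_alX, sat_dpX, sat_rnX, sat_rlX, sat_upX, sat_pfX, sat_memX, sat_formX, sat_tkX, sat_concX, sat_ppX, sat_nuX, sat_szX, sat_e2X, sat_clX, sat_lstX, sat_FX, sat_GX, sat_HX, sat_KX, Function.update_apply] using this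
  · intro h e
    have := h (e 0) (e 1) (e 2) (e 3)
    simpa [sat_imp, sat_neg, sat_and, sat_or, sat_iff, sat_exL_cons, sat_exL_nil, sat_alN, alL, sat_andL,
      sat_orL, sat_ap, sat_eqX, sat_isNX, sat_dgX, sat_isUX, sat_pwX, sat_lxX, sat_zeroX, sat_succX, sat_addX, sat_mulX, sat_prX, sat_vlX, sat_t0X, sat_atsX, sat_imX, sat_alX, sat_dpX, sat_rnX, sat_rlX, sat_upX, sat_pfX, sat_memX, sat_formX, sat_tkX, sat_concX, sat_ppX, sat_nuX, sat_szX, sat_e2X, sat_clX, sat_lstX, sat_FX, sat_GX, sat_HX, sat_KX, Function.update_apply] using this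

theorem AxC_pf_succ : (∀ e, Sat S ((imp (succX 2 3) (imp (pfX 0 1 3 4) (and (dpX 1 4) (orL [pfX 0 1 2 4, memX 4 0, ap lxX [4], exL [10, 11] (andL [pfX 0 1 2 10, pfX 0 1 2 11, imX 11 10 4]), exL [10] (and (pfX 0 1 2 10) (alX 4 10))])))) : XFm) e) ↔
    (∀ a n m m' y, succR S m m' → pfR S a n m' y → dpR S n y ∧
      (pfR S a n m y ∨ memR S y a ∨ LXM S y ∨ (∃ p q, pfR S a n m p ∧ pfR S a n m q ∧ imR S q p y) ∨
      ∃ p, pfR S a n m p ∧ alR S y p)) := by
  constructor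
  · intro h a n m m' y
    have := h (fun i => [a, n, m, m', y].getD i a)
    simpa [sat_imp, sat_neg, sat_and, sat_or, sat_iff, sat_exL_cons, sat_exL_nil, sat_alN, alL, sat_andL,
      sat_orL, sat_ap, sat_eqX, sat_isNX, sat_dgX, sat_isUX, sat_pwX, sat_lxX, sat_zeroX, sat_succX, sat_addX, sat_mulX, sat_prX, sat_vlX, sat_t0X, sat_atsX, sat_imX, sat_alX, sat_dpX, sat_rnX, sat_rlX, sat_upX, sat_pfX, sat_memX, sat_formX, sat_tkX, sat_concX, sat_ppX, sat_nuX, sat_szX, sat_e2X, sat_clX, sat_lstX, sat_FX, sat_GX, sat_HX, sat_KX, Function.update_apply] using this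
  · intro h e
    have := h (e 0) (e 1) (e 2) (e 3) (e 4)
    simpa [sat_imp, sat_neg, sat_and, sat_or, sat_iff, sat_exL_cons, sat_exL_nil, sat_alN, alL, sat_andL,
      sat_orL, sat_ap, sat_eqX, sat_isNX, sat_dgX, sat_isUX, sat_pwX, sat_lxX, sat_zeroX, sat_succX, sat_addX, sat_mulX, sat_prX, sat_vlX, sat_t0X, sat_atsX, sat_imX, sat_alX, sat_dpX, sat_rnX, sat_rlX, sat_upX, sat_pfX, sat_memX, sat_formX, sat_tkX, sat_concX, sat_ppX, sat_nuX, sat_szX, sat_e2X, sat_clX, sat_lstX, sat_FX, sat_GX, sat_HX, sat_KX, Function.update_apply] using this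

theorem AxC_pp_pf : (∀ e, Sat S ((imp (ppX 0 1 2) (pfX 0 1 1 2)) : XFm) e) ↔
    (∀ a n y, ppR S a n y → pfR S a n n y) := by
  constructor
  · intro h a n y
    have := h (fun i => [a, n, y].getD i a)
    simpa [sat_imp, sat_neg, sat_and, sat_or, sat_iff, sat_exL_cons, sat_exL_nil, sat_alN, alL, sat_andL,
      sat_orL, sat_ap, sat_eqX, sat_isNX, sat_dgX, sat_isUX, sat_pwX, sat_lxX, sat_zeroX, sat_succX, sat_addX, sat_mulX, sat_prX, sat_vlX, sat_t0X, sat_atsX, sat_imX, sat_alX, sat_dpX, sat_rnX, sat_rlX, sat_upX, sat_pfX, sat_memX, sat_formX, sat_tkX, sat_concX, sat_ppX, sat_nuX, sat_szX, sat_e2X, sat_clX, sat_lstX, sat_FX, sat_GX, sat_HX, sat_KX, Function.update_apply] using this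
  · intro h e
    have := h (e 0) (e 1) (e 2)
    simpa [sat_imp, sat_neg, sat_and, sat_or, sat_iff, sat_exL_cons, sat_exL_nil, sat_alN, alL, sat_andL,
      sat_orL, sat_ap, sat_eqX, sat_isNX, sat_dgX, sat_isUX, sat_pwX, sat_lxX, sat_zeroX, sat_succX, sat_addX, sat_mulX, sat_prX, sat_vlX, sat_t0X, sat_atsX, sat_imX, sat_alX, sat_dpX, sat_rnX, sat_rlX, sat_upX, sat_pfX, sat_memX, sat_formX, sat_tkX, sat_concX, sat_ppX, sat_nuX, sat_szX, sat_e2X, sat_clX, sat_lstX, sat_FX, sat_GX, sat_HX, sat_KX, Function.update_apply] using this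

theorem AxC_bot_at : (∀ e, Sat S ((imp (isNX 16 0) (andL [atsX 0, formX 0, alN 10 (neg (t0X 0 10))])) : XFm) e) ↔
    (∀ y, IsN S 16 y → atsR S y ∧ formR S y ∧ ∀ s, ¬ t0R S y s) := by
  constructor
  · intro h y
    have := h (fun i => [y].getD i y)
    simpa [sat_imp, sat_neg, sat_and, sat_or, sat_iff, sat_exL_cons, sat_exL_nil, sat_alN, alL, sat_andL,
      sat_orL, sat_ap, sat_eqX, sat_isNX, sat_dgX, sat_isUX, sat_pwX, sat_lxX, sat_zeroX, sat_succX, sat_addX, sat_mulX, sat_prX, sat_vlX, sat_t0X, sat_atsX, sat_imX, sat_alX, sat_dpX, sat_rnX, sat_rlX, sat_upX, sat_pfX, sat_memX, sat_formX, sat_tkX, sat_concX, sat_ppX, sat_nuX, sat_szX, sat_e2X, sat_clX, sat_lstX, sat_FX, sat_GX, sat_HX, sat_KX, Function.update_apply] using this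
  · intro h e
    have := h (e 0)
    simpa [sat_imp, sat_neg, sat_and, sat_or, sat_iff, sat_exL_cons, sat_exL_nil, sat_alN, alL, sat_andL,
      sat_orL, sat_ap, sat_eqX, sat_isNX, sat_dgX, sat_isUX, sat_pwX, sat_lxX, sat_zeroX, sat_succX, sat_addX, sat_mulX, sat_prX, sat_vlX, sat_t0X, sat_atsX, sat_imX, sat_alX, sat_dpX, sat_rnX, sat_rlX, sat_upX, sat_pfX, sat_memX, sat_formX, sat_tkX, sat_concX, sat_ppX, sat_nuX, sat_szX, sat_e2X, sat_clX, sat_lstX, sat_FX, sat_GX, sat_HX, sat_KX, Function.update_apply] using this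

theorem AxC_mem_nil : (∀ e, Sat S ((imp (isNX 1 1) (neg (memX 0 1))) : XFm) e) ↔
    (∀ y a, IsN S 1 a → ¬ memR S y a) := by
  constructor
  · intro h y a
    have := h (fun i => [y, a].getD i y)
    simpa [sat_imp, sat_neg, sat_and, sat_or, sat_iff, sat_exL_cons, sat_exL_nil, sat_alN, alL, sat_andL,
      sat_orL, sat_ap, sat_eqX, sat_isNX, sat_dgX, sat_isUX, sat_pwX, sat_lxX, sat_zeroX, sat_succX, sat_addX, sat_mulX, sat_prX, sat_vlX, sat_t0X, sat_atsX, sat_imX, sat_alX, sat_dpX, sat_rnX, sat_rlX, sat_upX, sat_pfX, sat_memX, sat_formX, sat_tkX, sat_concX, sat_ppX, sat_nuX, sat_szX, sat_e2X, sat_clX, sat_lstX, sat_FX, sat_GX, sat_HX, sat_KX, Function.update_apply] using this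
  · intro h e
    have := h (e 0) (e 1)
    simpa [sat_imp, sat_neg, sat_and, sat_or, sat_iff, sat_exL_cons, sat_exL_nil, sat_alN, alL, sat_andL,
      sat_orL, sat_ap, sat_eqX, sat_isNX, sat_dgX, sat_isUX, sat_pwX, sat_lxX, sat_zeroX, sat_succX, sat_addX, sat_mulX, sat_prX, sat_vlX, sat_t0X, sat_atsX, sat_imX, sat_alX, sat_dpX, sat_rnX, sat_rlX, sat_upX, sat_pfX, sat_memX, sat_formX, sat_tkX, sat_concX, sat_ppX, sat_nuX, sat_szX, sat_e2X, sat_clX, sat_lstX, sat_FX, sat_GX, sat_HX, sat_KX, Function.update_apply] using this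

theorem AxC_mem_cons : (∀ e, Sat S ((imp (formX 0) (imp (lstX 1) (imp (concX 0 1 2) (imp (memX 3 2) (or (eq 3 0) (memX 3 1)))))) : XFm) e) ↔
    (∀ x a b y, formR S x → lstR S a → concR S x a b → memR S y b →
      y = x ∨ memR S y a) := by
  constructor
  · intro h x a b y
    have := h (fun i => [x, a, b, y].getD i x)
    simpa [sat_imp, sat_neg, sat_and, sat_or, sat_iff, sat_exL_cons, sat_exL_nil, sat_alN, alL, sat_andL,
      sat_orL, sat_ap, sat_eqX, sat_isNX, sat_dgX, sat_isUX, sat_pwX, sat_lxX, sat_zeroX, sat_succX, sat_addX, sat_mulX, sat_prX, sat_vlX, sat_t0X, sat_atsX, sat_imX, sat_alX, sat_dpX, sat_rnX, sat_rlX, sat_upX, sat_pfX, sat_memX, sat_formX, sat_tkX, sat_concX, sat_ppX, sat_nuX, sat_szX, sat_e2X, sat_clX, sat_lstX, sat_FX, sat_GX, sat_HX, sat_KX, Function.update_apply] using this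
  · intro h e
    have := h (e 0) (e 1) (e 2) (e 3)
    simpa [sat_imp, sat_neg, sat_and, sat_or, sat_iff, sat_exL_cons, sat_exL_nil, sat_alN, alL, sat_andL,
      sat_orL, sat_ap, sat_eqX, sat_isNX, sat_dgX, sat_isUX, sat_pwX, sat_lxX, sat_zeroX, sat_succX, sat_addX, sat_mulX, sat_prX, sat_vlX, sat_t0X, sat_atsX, sat_imX, sat_alX, sat_dpX, sat_rnX, sat_rlX, sat_upX, sat_pfX, sat_memX, sat_formX, sat_tkX, sat_concX, sat_ppX, sat_nuX, sat_szX, sat_e2X, sat_clX, sat_lstX, sat_FX, sat_GX, sat_HX, sat_KX, Function.update_apply] using this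

theorem AxC_lst_nil : (∀ e, Sat S ((imp (isNX 1 0) (lstX 0)) : XFm) e) ↔
    (∀ a, IsN S 1 a → lstR S a) := by
  constructor
  · intro h a
    have := h (fun i => [a].getD i a)
    simpa [sat_imp, sat_neg, sat_and, sat_or, sat_iff, sat_exL_cons, sat_exL_nil, sat_alN, alL, sat_andL,
      sat_orL, sat_ap, sat_eqX, sat_isNX, sat_dgX, sat_isUX, sat_pwX, sat_lxX, sat_zeroX, sat_succX, sat_addX, sat_mulX, sat_prX, sat_vlX, sat_t0X, sat_atsX, sat_imX, sat_alX, sat_dpX, sat_rnX, sat_rlX, sat_upX, sat_pfX, sat_memX, sat_formX, sat_tkX, sat_concX, sat_ppX, sat_nuX, sat_szX, sat_e2X, sat_clX, sat_lstX, sat_FX, sat_GX, sat_HX, sat_KX, Function.update_apply] using this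
  · intro h e
    have := h (e 0)
    simpa [sat_imp, sat_neg, sat_and, sat_or, sat_iff, sat_exL_cons, sat_exL_nil, sat_alN, alL, sat_andL,
      sat_orL, sat_ap, sat_eqX, sat_isNX, sat_dgX, sat_isUX, sat_pwX, sat_lxX, sat_zeroX, sat_succX, sat_addX, sat_mulX, sat_prX, sat_vlX, sat_t0X, sat_atsX, sat_imX, sat_alX, sat_dpX, sat_rnX, sat_rlX, sat_upX, sat_pfX, sat_memX, sat_formX, sat_tkX, sat_concX, sat_ppX, sat_nuX, sat_szX, sat_e2X, sat_clX, sat_lstX, sat_FX, sat_GX, sat_HX, sat_KX, Function.update_apply] using this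

theorem AxC_lst_cons : (∀ e, Sat S ((imp (formX 0) (imp (lstX 1) (imp (concX 0 1 2) (lstX 2)))) : XFm) e) ↔
    (∀ x a b, formR S x → lstR S a → concR S x a b → lstR S b) := by
  constructor
  · intro h x a b
    have := h (fun i => [x, a, b].getD i x)
    simpa [sat_imp, sat_neg, sat_and, sat_or, sat_iff, sat_exL_cons, sat_exL_nil, sat_alN, alL, sat_andL,
      sat_orL, sat_ap, sat_eqX, sat_isNX, sat_dgX, sat_isUX, sat_pwX, sat_lxX, sat_zeroX, sat_succX, sat_addX, sat_mulX, sat_prX, sat_vlX, sat_t0X, sat_atsX, sat_imX, sat_alX, sat_dpX, sat_rnX, sat_rlX, sat_upX, sat_pfX, sat_memX, sat_formX, sat_tkX, sat_concX, sat_ppX, sat_nuX, sat_szX, sat_e2X, sat_clX, sat_lstX, sat_FX, sat_GX, sat_HX, sat_KX, Function.update_apply] using this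
  · intro h e
    have := h (e 0) (e 1) (e 2)
    simpa [sat_imp, sat_neg, sat_and, sat_or, sat_iff, sat_exL_cons, sat_exL_nil, sat_alN, alL, sat_andL,
      sat_orL, sat_ap, sat_eqX, sat_isNX, sat_dgX, sat_isUX, sat_pwX, sat_lxX, sat_zeroX, sat_succX, sat_addX, sat_mulX, sat_prX, sat_vlX, sat_t0X, sat_atsX, sat_imX, sat_alX, sat_dpX, sat_rnX, sat_rlX, sat_upX, sat_pfX, sat_memX, sat_formX, sat_tkX, sat_concX, sat_ppX, sat_nuX, sat_szX, sat_e2X, sat_clX, sat_lstX, sat_FX, sat_GX, sat_HX, sat_KX, Function.update_apply] using this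

theorem AxC_tk0 : (∀ e, Sat S ((imp (isNX 6 0) (tkX 0)) : XFm) e) ↔
    (∀ v, IsN S 6 v → tkR S v) := by
  constructor
  · intro h v
    have := h (fun i => [v].getD i v)
    simpa [sat_imp, sat_neg, sat_and, sat_or, sat_iff, sat_exL_cons, sat_exL_nil, sat_alN, alL, sat_andL,
      sat_orL, sat_ap, sat_eqX, sat_isNX, sat_dgX, sat_isUX, sat_pwX, sat_lxX, sat_zeroX, sat_succX, sat_addX, sat_mulX, sat_prX, sat_vlX, sat_t0X, sat_atsX, sat_imX, sat_alX, sat_dpX, sat_rnX, sat_rlX, sat_upX, sat_pfX, sat_memX, sat_formX, sat_tkX, sat_concX, sat_ppX, sat_nuX, sat_szX, sat_e2X, sat_clX, sat_lstX, sat_FX, sat_GX, sat_HX, sat_KX, Function.update_apply] using this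
  · intro h e
    have := h (e 0)
    simpa [sat_imp, sat_neg, sat_and, sat_or, sat_iff, sat_exL_cons, sat_exL_nil, sat_alN, alL, sat_andL,
      sat_orL, sat_ap, sat_eqX, sat_isNX, sat_dgX, sat_isUX, sat_pwX, sat_lxX, sat_zeroX, sat_succX, sat_addX, sat_mulX, sat_prX, sat_vlX, sat_t0X, sat_atsX, sat_imX, sat_alX, sat_dpX, sat_rnX, sat_rlX, sat_upX, sat_pfX, sat_memX, sat_formX, sat_tkX, sat_concX, sat_ppX, sat_nuX, sat_szX, sat_e2X, sat_clX, sat_lstX, sat_FX, sat_GX, sat_HX, sat_KX, Function.update_apply] using this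

theorem AxC_tkS : (∀ e, Sat S ((imp (tkX 0) (imp (addX 0 0 1) (imp (succX 1 2) (imp (succX 2 3) (tkX 3))))) : XFm) e) ↔
    (∀ v u w v', tkR S v → addR S v v u → succR S u w → succR S w v' → tkR S v') := by
  constructor
  · intro h v u w v'
    have := h (fun i => [v, u, w, v'].getD i v)
    simpa [sat_imp, sat_neg, sat_and, sat_or, sat_iff, sat_exL_cons, sat_exL_nil, sat_alN, alL, sat_andL,
      sat_orL, sat_ap, sat_eqX, sat_isNX, sat_dgX, sat_isUX, sat_pwX, sat_lxX, sat_zeroX, sat_succX, sat_addX, sat_mulX, sat_prX, sat_vlX, sat_t0X, sat_atsX, sat_imX, sat_alX, sat_dpX, sat_rnX, sat_rlX, sat_upX, sat_pfX, sat_memX, sat_formX, sat_tkX, sat_concX, sat_ppX, sat_nuX, sat_szX, sat_e2X, sat_clX, sat_lstX, sat_FX, sat_GX, sat_HX, sat_KX, Function.update_apply] using this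
  · intro h e
    have := h (e 0) (e 1) (e 2) (e 3)
    simpa [sat_imp, sat_neg, sat_and, sat_or, sat_iff, sat_exL_cons, sat_exL_nil, sat_alN, alL, sat_andL,
      sat_orL, sat_ap, sat_eqX, sat_isNX, sat_dgX, sat_isUX, sat_pwX, sat_lxX, sat_zeroX, sat_succX, sat_addX, sat_mulX, sat_prX, sat_vlX, sat_t0X, sat_atsX, sat_imX, sat_alX, sat_dpX, sat_rnX, sat_rlX, sat_upX, sat_pfX, sat_memX, sat_formX, sat_tkX, sat_concX, sat_ppX, sat_nuX, sat_szX, sat_e2X, sat_clX, sat_lstX, sat_FX, sat_GX, sat_HX, sat_KX, Function.update_apply] using this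

theorem AxC_form_eq : (∀ e, Sat S ((imp (tkX 0) (imp (tkX 1) (imp (concX 0 1 2) (imp (ap (dgX [false, false, false, true]) [2, 3]) (andL [formX 3, atsX 3, alL [10, 11, 12] (imp (vlX 10 0 11) (imp (vlX 10 1 12) (iff (t0X 3 10) (eq 11 12))))]))))) : XFm) e) ↔
    (∀ v w t x, tkR S v → tkR S w → concR S v w t → DG S [false, false, false, true] t x →
      formR S x ∧ atsR S x ∧ ∀ s a b, vlR S s v a → vlR S s w b → (t0R S x s ↔ a = b)) := by
  constructor
  · intro h v w t x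
    have := h (fun i => [v, w, t, x].getD i v)
    simpa [sat_imp, sat_neg, sat_and, sat_or, sat_iff, sat_exL_cons, sat_exL_nil, sat_alN, alL, sat_andL,
      sat_orL, sat_ap, sat_eqX, sat_isNX, sat_dgX, sat_isUX, sat_pwX, sat_lxX, sat_zeroX, sat_succX, sat_addX, sat_mulX, sat_prX, sat_vlX, sat_t0X, sat_atsX, sat_imX, sat_alX, sat_dpX, sat_rnX, sat_rlX, sat_upX, sat_pfX, sat_memX, sat_formX, sat_tkX, sat_concX, sat_ppX, sat_nuX, sat_szX, sat_e2X, sat_clX, sat_lstX, sat_FX, sat_GX, sat_HX, sat_KX, Function.update_apply] using this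
  · intro h e
    have := h (e 0) (e 1) (e 2) (e 3)
    simpa [sat_imp, sat_neg, sat_and, sat_or, sat_iff, sat_exL_cons, sat_exL_nil, sat_alN, alL, sat_andL,
      sat_orL, sat_ap, sat_eqX, sat_isNX, sat_dgX, sat_isUX, sat_pwX, sat_lxX, sat_zeroX, sat_succX, sat_addX, sat_mulX, sat_prX, sat_vlX, sat_t0X, sat_atsX, sat_imX, sat_alX, sat_dpX, sat_rnX, sat_rlX, sat_upX, sat_pfX, sat_memX, sat_formX, sat_tkX, sat_concX, sat_ppX, sat_nuX, sat_szX, sat_e2X, sat_clX, sat_lstX, sat_FX, sat_GX, sat_HX, sat_KX, Function.update_apply] using this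

theorem AxC_form_zero : (∀ e, Sat S ((imp (tkX 0) (imp (ap (dgX [false, false, true, false]) [0, 1]) (andL [formX 1, atsX 1, alL [10, 11] (imp (vlX 10 0 11) (iff (t0X 1 10) (zeroX 11)))]))) : XFm) e) ↔
    (∀ v x, tkR S v → DG S [false, false, true, false] v x →
      formR S x ∧ atsR S x ∧ ∀ s a, vlR S s v a → (t0R S x s ↔ zeroR S a)) := by
  constructor
  · intro h v x
    have := h (fun i => [v, x].getD i v)
    simpa [sat_imp, sat_neg, sat_and, sat_or, sat_iff, sat_exL_cons, sat_exL_nil, sat_alN, alL, sat_andL,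
      sat_orL, sat_ap, sat_eqX, sat_isNX, sat_dgX, sat_isUX, sat_pwX, sat_lxX, sat_zeroX, sat_succX, sat_addX, sat_mulX, sat_prX, sat_vlX, sat_t0X, sat_atsX, sat_imX, sat_alX, sat_dpX, sat_rnX, sat_rlX, sat_upX, sat_pfX, sat_memX, sat_formX, sat_tkX, sat_concX, sat_ppX, sat_nuX, sat_szX, sat_e2X, sat_clX, sat_lstX, sat_FX, sat_GX, sat_HX, sat_KX, Function.update_apply] using this
  · intro h e
    have := h (e 0) (e 1)
    simpa [sat_imp, sat_neg, sat_and, sat_or, sat_iff, sat_exL_cons, sat_exL_nil, sat_alN, alL, sat_andL,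
      sat_orL, sat_ap, sat_eqX, sat_isNX, sat_dgX, sat_isUX, sat_pwX, sat_lxX, sat_zeroX, sat_succX, sat_addX, sat_mulX, sat_prX, sat_vlX, sat_t0X, sat_atsX, sat_imX, sat_alX, sat_dpX, sat_rnX, sat_rlX, sat_upX, sat_pfX, sat_memX, sat_formX, sat_tkX, sat_concX, sat_ppX, sat_nuX, sat_szX, sat_e2X, sat_clX, sat_lstX, sat_FX, sat_GX, sat_HX, sat_KX, Function.update_apply] using this

theorem AxC_form_succ : (∀ e, Sat S ((imp (tkX 0) (imp (tkX 1) (imp (concX 0 1 2) (imp (ap (dgX [false, false, true, true]) [2, 3]) (andL [formX 3, atsX 3, alL [10, 11, 12] (imp (vlX 10 0 11) (imp (vlX 10 1 12) (iff (t0X 3 10) (succX 11 12))))]))))) : XFm) e) ↔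
    (∀ v w t x, tkR S v → tkR S w → concR S v w t → DG S [false, false, true, true] t x →
      formR S x ∧ atsR S x ∧ ∀ s a b, vlR S s v a → vlR S s w b → (t0R S x s ↔ succR S a b)) := by
  constructor
  · intro h v w t x
    have := h (fun i => [v, w, t, x].getD i v)
    simpa [sat_imp, sat_neg, sat_and, sat_or, sat_iff, sat_exL_cons, sat_exL_nil, sat_alN, alL, sat_andL,
      sat_orL, sat_ap, sat_eqX, sat_isNX, sat_dgX, sat_isUX, sat_pwX, sat_lxX, sat_zeroX, sat_succX, sat_addX, sat_mulX, sat_prX, sat_vlX, sat_t0X, sat_atsX, sat_imX, sat_alX, sat_dpX, sat_rnX, sat_rlX, sat_upX, sat_pfX, sat_memX, sat_formX, sat_tkX, sat_concX, sat_ppX, sat_nuX, sat_szX, sat_e2X, sat_clX, sat_lstX, sat_FX, sat_GX, sat_HX, sat_KX, Function.update_apply] using this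
  · intro h e
    have := h (e 0) (e 1) (e 2) (e 3)
    simpa [sat_imp, sat_neg, sat_and, sat_or, sat_iff, sat_exL_cons, sat_exL_nil, sat_alN, alL, sat_andL,
      sat_orL, sat_ap, sat_eqX, sat_isNX, sat_dgX, sat_isUX, sat_pwX, sat_lxX, sat_zeroX, sat_succX, sat_addX, sat_mulX, sat_prX, sat_vlX, sat_t0X, sat_atsX, sat_imX, sat_alX, sat_dpX, sat_rnX, sat_rlX, sat_upX, sat_pfX, sat_memX, sat_formX, sat_tkX, sat_concX, sat_ppX, sat_nuX, sat_szX, sat_e2X, sat_clX, sat_lstX, sat_FX, sat_GX, sat_HX, sat_KX, Function.update_apply] using this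

theorem AxC_form_add : (∀ e, Sat S ((imp (tkX 0) (imp (tkX 1) (imp (tkX 2) (imp (concX 0 1 3) (imp (concX 3 2 4) (imp (ap (dgX [false, true, false, false]) [4, 5]) (andL [formX 5, atsX 5, alL [10, 11, 12, 13] (imp (vlX 10 0 11) (imp (vlX 10 1 12) (imp (vlX 10 2 13) (iff (t0X 5 10) (addX 11 12 13)))))]))))))) : XFm) e) ↔
    (∀ v w u t t' x, tkR S v → tkR S w → tkR S u → concR S v w t → concR S t u t' →
      DG S [false, true, false, false] t' x → formR S x ∧ atsR S x ∧ ∀ s a b c, vlR S s v a →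
      vlR S s w b → vlR S s u c → (t0R S x s ↔ addR S a b c)) := by
  constructor
  · intro h v w u t t' x
    have := h (fun i => [v, w, u, t, t', x].getD i v)
    simpa [sat_imp, sat_neg, sat_and, sat_or, sat_iff, sat_exL_cons, sat_exL_nil, sat_alN, alL, sat_andL,
      sat_orL, sat_ap, sat_eqX, sat_isNX, sat_dgX, sat_isUX, sat_pwX, sat_lxX, sat_zeroX, sat_succX, sat_addX, sat_mulX, sat_prX, sat_vlX, sat_t0X, sat_atsX, sat_imX, sat_alX, sat_dpX, sat_rnX, sat_rlX, sat_upX, sat_pfX, sat_memX, sat_formX, sat_tkX, sat_concX, sat_ppX, sat_nuX, sat_szX, sat_e2X, sat_clX, sat_lstX, sat_FX, sat_GX, sat_HX, sat_KX, Function.update_apply] using this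
  · intro h e
    have := h (e 0) (e 1) (e 2) (e 3) (e 4) (e 5)
    simpa [sat_imp, sat_neg, sat_and, sat_or, sat_iff, sat_exL_cons, sat_exL_nil, sat_alN, alL, sat_andL,
      sat_orL, sat_ap, sat_eqX, sat_isNX, sat_dgX, sat_isUX, sat_pwX, sat_lxX, sat_zeroX, sat_succX, sat_addX, sat_mulX, sat_prX, sat_vlX, sat_t0X, sat_atsX, sat_imX, sat_alX, sat_dpX, sat_rnX, sat_rlX, sat_upX, sat_pfX, sat_memX, sat_formX, sat_tkX, sat_concX, sat_ppX, sat_nuX, sat_szX, sat_e2X, sat_clX, sat_lstX, sat_FX, sat_GX, sat_HX, sat_KX, Function.update_apply] using this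

theorem AxC_form_mul : (∀ e, Sat S ((imp (tkX 0) (imp (tkX 1) (imp (tkX 2) (imp (concX 0 1 3) (imp (concX 3 2 4) (imp (ap (dgX [false, true, false, true]) [4, 5]) (andL [formX 5, atsX 5, alL [10, 11, 12, 13] (imp (vlX 10 0 11) (imp (vlX 10 1 12) (imp (vlX 10 2 13) (iff (t0X 5 10) (mulX 11 12 13)))))]))))))) : XFm) e) ↔
    (∀ v w u t t' x, tkR S v → tkR S w → tkR S u → concR S v w t → concR S t u t' →
      DG S [false, true, false, true] t' x → formR S x ∧ atsR S x ∧ ∀ s a b c, vlR S s v a →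
      vlR S s w b → vlR S s u c → (t0R S x s ↔ mulR S a b c)) := by
  constructor
  · intro h v w u t t' x
    have := h (fun i => [v, w, u, t, t', x].getD i v)
    simpa [sat_imp, sat_neg, sat_and, sat_or, sat_iff, sat_exL_cons, sat_exL_nil, sat_alN, alL, sat_andL,
      sat_orL, sat_ap, sat_eqX, sat_isNX, sat_dgX, sat_isUX, sat_pwX, sat_lxX, sat_zeroX, sat_succX, sat_addX, sat_mulX, sat_prX, sat_vlX, sat_t0X, sat_atsX, sat_imX, sat_alX, sat_dpX, sat_rnX, sat_rlX, sat_upX, sat_pfX, sat_memX, sat_formX, sat_tkX, sat_concX, sat_ppX, sat_nuX, sat_szX, sat_e2X, sat_clX, sat_lstX, sat_FX, sat_GX, sat_HX, sat_KX, Function.update_apply] using this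
  · intro h e
    have := h (e 0) (e 1) (e 2) (e 3) (e 4) (e 5)
    simpa [sat_imp, sat_neg, sat_and, sat_or, sat_iff, sat_exL_cons, sat_exL_nil, sat_alN, alL, sat_andL,
      sat_orL, sat_ap, sat_eqX, sat_isNX, sat_dgX, sat_isUX, sat_pwX, sat_lxX, sat_zeroX, sat_succX, sat_addX, sat_mulX, sat_prX, sat_vlX, sat_t0X, sat_atsX, sat_imX, sat_alX, sat_dpX, sat_rnX, sat_rlX, sat_upX, sat_pfX, sat_memX, sat_formX, sat_tkX, sat_concX, sat_ppX, sat_nuX, sat_szX, sat_e2X, sat_clX, sat_lstX, sat_FX, sat_GX, sat_HX, sat_KX, Function.update_apply] using this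

theorem AxC_form_im : (∀ e, Sat S ((imp (formX 0) (imp (formX 1) (imp (concX 0 1 2) (imp (ap (dgX [false, true, true, false]) [2, 3]) (and (formX 3) (imX 3 0 1)))))) : XFm) e) ↔
    (∀ y z t x, formR S y → formR S z → concR S y z t →
      DG S [false, true, true, false] t x → formR S x ∧ imR S x y z) := by
  constructor
  · intro h y z t x
    have := h (fun i => [y, z, t, x].getD i y)
    simpa [sat_imp, sat_neg, sat_and, sat_or, sat_iff, sat_exL_cons, sat_exL_nil, sat_alN, alL, sat_andL,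
      sat_orL, sat_ap, sat_eqX, sat_isNX, sat_dgX, sat_isUX, sat_pwX, sat_lxX, sat_zeroX, sat_succX, sat_addX, sat_mulX, sat_prX, sat_vlX, sat_t0X, sat_atsX, sat_imX, sat_alX, sat_dpX, sat_rnX, sat_rlX, sat_upX, sat_pfX, sat_memX, sat_formX, sat_tkX, sat_concX, sat_ppX, sat_nuX, sat_szX, sat_e2X, sat_clX, sat_lstX, sat_FX, sat_GX, sat_HX, sat_KX, Function.update_apply] using this
  · intro h e
    have := h (e 0) (e 1) (e 2) (e 3)
    simpa [sat_imp, sat_neg, sat_and, sat_or, sat_iff, sat_exL_cons, sat_exL_nil, sat_alN, alL, sat_andL,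
      sat_orL, sat_ap, sat_eqX, sat_isNX, sat_dgX, sat_isUX, sat_pwX, sat_lxX, sat_zeroX, sat_succX, sat_addX, sat_mulX, sat_prX, sat_vlX, sat_t0X, sat_atsX, sat_imX, sat_alX, sat_dpX, sat_rnX, sat_rlX, sat_upX, sat_pfX, sat_memX, sat_formX, sat_tkX, sat_concX, sat_ppX, sat_nuX, sat_szX, sat_e2X, sat_clX, sat_lstX, sat_FX, sat_GX, sat_HX, sat_KX, Function.update_apply] using this

theorem AxC_form_al : (∀ e, Sat S ((imp (formX 0) (imp (ap (dgX [false, true, true, true]) [0, 1]) (and (formX 1) (alX 1 0)))) : XFm) e) ↔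
    (∀ y x, formR S y → DG S [false, true, true, true] y x → formR S x ∧ alR S x y) := by
  constructor
  · intro h y x
    have := h (fun i => [y, x].getD i y)
    simpa [sat_imp, sat_neg, sat_and, sat_or, sat_iff, sat_exL_cons, sat_exL_nil, sat_alN, alL, sat_andL,
      sat_orL, sat_ap, sat_eqX, sat_isNX, sat_dgX, sat_isUX, sat_pwX, sat_lxX, sat_zeroX, sat_succX, sat_addX, sat_mulX, sat_prX, sat_vlX, sat_t0X, sat_atsX, sat_imX, sat_alX, sat_dpX, sat_rnX, sat_rlX, sat_upX, sat_pfX, sat_memX, sat_formX, sat_tkX, sat_concX, sat_ppX, sat_nuX, sat_szX, sat_e2X, sat_clX, sat_lstX, sat_FX, sat_GX, sat_HX, sat_KX, Function.update_apply] using this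
  · intro h e
    have := h (e 0) (e 1)
    simpa [sat_imp, sat_neg, sat_and, sat_or, sat_iff, sat_exL_cons, sat_exL_nil, sat_alN, alL, sat_andL,
      sat_orL, sat_ap, sat_eqX, sat_isNX, sat_dgX, sat_isUX, sat_pwX, sat_lxX, sat_zeroX, sat_succX, sat_addX, sat_mulX, sat_prX, sat_vlX, sat_t0X, sat_atsX, sat_imX, sat_alX, sat_dpX, sat_rnX, sat_rlX, sat_upX, sat_pfX, sat_memX, sat_formX, sat_tkX, sat_concX, sat_ppX, sat_nuX, sat_szX, sat_e2X, sat_clX, sat_lstX, sat_FX, sat_GX, sat_HX, sat_KX, Function.update_apply] using this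

theorem AxC_conc0 : (∀ e, Sat S ((imp (isNX 1 1) (concX 0 1 0)) : XFm) e) ↔
    (∀ x y, IsN S 1 y → concR S x y x) := by
  constructor
  · intro h x y
    have := h (fun i => [x, y].getD i x)
    simpa [sat_imp, sat_neg, sat_and, sat_or, sat_iff, sat_exL_cons, sat_exL_nil, sat_alN, alL, sat_andL,
      sat_orL, sat_ap, sat_eqX, sat_isNX, sat_dgX, sat_isUX, sat_pwX, sat_lxX, sat_zeroX, sat_succX, sat_addX, sat_mulX, sat_prX, sat_vlX, sat_t0X, sat_atsX, sat_imX, sat_alX, sat_dpX, sat_rnX, sat_rlX, sat_upX, sat_pfX, sat_memX, sat_formX, sat_tkX, sat_concX, sat_ppX, sat_nuX, sat_szX, sat_e2X, sat_clX, sat_lstX, sat_FX, sat_GX, sat_HX, sat_KX, Function.update_apply] using this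
  · intro h e
    have := h (e 0) (e 1)
    simpa [sat_imp, sat_neg, sat_and, sat_or, sat_iff, sat_exL_cons, sat_exL_nil, sat_alN, alL, sat_andL,
      sat_orL, sat_ap, sat_eqX, sat_isNX, sat_dgX, sat_isUX, sat_pwX, sat_lxX, sat_zeroX, sat_succX, sat_addX, sat_mulX, sat_prX, sat_vlX, sat_t0X, sat_atsX, sat_imX, sat_alX, sat_dpX, sat_rnX, sat_rlX, sat_upX, sat_pfX, sat_memX, sat_formX, sat_tkX, sat_concX, sat_ppX, sat_nuX, sat_szX, sat_e2X, sat_clX, sat_lstX, sat_FX, sat_GX, sat_HX, sat_KX, Function.update_apply] using this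

theorem AxC_concD : (∀ e, Sat S ((imp (concX 0 1 2) (imp (addX 1 1 3) (imp (addX 2 2 4) (concX 0 3 4)))) : XFm) e) ↔
    (∀ x y z y' z', concR S x y z → addR S y y y' → addR S z z z' → concR S x y' z') := by
  constructor
  · intro h x y z y' z'
    have := h (fun i => [x, y, z, y', z'].getD i x)
    simpa [sat_imp, sat_neg, sat_and, sat_or, sat_iff, sat_exL_cons, sat_exL_nil, sat_alN, alL, sat_andL,
      sat_orL, sat_ap, sat_eqX, sat_isNX, sat_dgX, sat_isUX, sat_pwX, sat_lxX, sat_zeroX, sat_succX, sat_addX, sat_mulX, sat_prX, sat_vlX, sat_t0X, sat_atsX, sat_imX, sat_alX, sat_dpX, sat_rnX, sat_rlX, sat_upX, sat_pfX, sat_memX, sat_formX, sat_tkX, sat_concX, sat_ppX, sat_nuX, sat_szX, sat_e2X, sat_clX, sat_lstX, sat_FX, sat_GX, sat_HX, sat_KX, Function.update_apply] using this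
  · intro h e
    have := h (e 0) (e 1) (e 2) (e 3) (e 4)
    simpa [sat_imp, sat_neg, sat_and, sat_or, sat_iff, sat_exL_cons, sat_exL_nil, sat_alN, alL, sat_andL,
      sat_orL, sat_ap, sat_eqX, sat_isNX, sat_dgX, sat_isUX, sat_pwX, sat_lxX, sat_zeroX, sat_succX, sat_addX, sat_mulX, sat_prX, sat_vlX, sat_t0X, sat_atsX, sat_imX, sat_alX, sat_dpX, sat_rnX, sat_rlX, sat_upX, sat_pfX, sat_memX, sat_formX, sat_tkX, sat_concX, sat_ppX, sat_nuX, sat_szX, sat_e2X, sat_clX, sat_lstX, sat_FX, sat_GX, sat_HX, sat_KX, Function.update_apply] using this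

theorem AxC_concE : (∀ e, Sat S ((imp (concX 0 1 2) (imp (addX 1 1 3) (imp (addX 2 2 4) (imp (succX 3 5) (imp (succX 4 6) (concX 0 5 6)))))) : XFm) e) ↔
    (∀ x y z y' z' y'' z'', concR S x y z → addR S y y y' → addR S z z z' →
      succR S y' y'' → succR S z' z'' → concR S x y'' z'') := by
  constructor
  · intro h x y z y' z' y'' z''
    have := h (fun i => [x, y, z, y', z', y'', z''].getD i x)
    simpa [sat_imp, sat_neg, sat_and, sat_or, sat_iff, sat_exL_cons, sat_exL_nil, sat_alN, alL, sat_andL,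
      sat_orL, sat_ap, sat_eqX, sat_isNX, sat_dgX, sat_isUX, sat_pwX, sat_lxX, sat_zeroX, sat_succX, sat_addX, sat_mulX, sat_prX, sat_vlX, sat_t0X, sat_atsX, sat_imX, sat_alX, sat_dpX, sat_rnX, sat_rlX, sat_upX, sat_pfX, sat_memX, sat_formX, sat_tkX, sat_concX, sat_ppX, sat_nuX, sat_szX, sat_e2X, sat_clX, sat_lstX, sat_FX, sat_GX, sat_HX, sat_KX, Function.update_apply] using this
  · intro h e
    have := h (e 0) (e 1) (e 2) (e 3) (e 4) (e 5) (e 6)
    simpa [sat_imp, sat_neg, sat_and, sat_or, sat_iff, sat_exL_cons, sat_exL_nil, sat_alN, alL, sat_andL,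
      sat_orL, sat_ap, sat_eqX, sat_isNX, sat_dgX, sat_isUX, sat_pwX, sat_lxX, sat_zeroX, sat_succX, sat_addX, sat_mulX, sat_prX, sat_vlX, sat_t0X, sat_atsX, sat_imX, sat_alX, sat_dpX, sat_rnX, sat_rlX, sat_upX, sat_pfX, sat_memX, sat_formX, sat_tkX, sat_concX, sat_ppX, sat_nuX, sat_szX, sat_e2X, sat_clX, sat_lstX, sat_FX, sat_GX, sat_HX, sat_KX, Function.update_apply] using this

theorem AxC_nu0 : (∀ e, Sat S ((imp (isNX 0 0) (imp (isNX (codeS (encode (num 0))) 1) (nuX 0 1))) : XFm) e) ↔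
    (∀ v z, IsN S 0 v → IsN S (codeS (encode (num 0))) z → nuR S v z) := by
  constructor
  · intro h v z
    have := h (fun i => [v, z].getD i v)
    simpa [sat_imp, sat_neg, sat_and, sat_or, sat_iff, sat_exL_cons, sat_exL_nil, sat_alN, alL, sat_andL,
      sat_orL, sat_ap, sat_eqX, sat_isNX, sat_dgX, sat_isUX, sat_pwX, sat_lxX, sat_zeroX, sat_succX, sat_addX, sat_mulX, sat_prX, sat_vlX, sat_t0X, sat_atsX, sat_imX, sat_alX, sat_dpX, sat_rnX, sat_rlX, sat_upX, sat_pfX, sat_memX, sat_formX, sat_tkX, sat_concX, sat_ppX, sat_nuX, sat_szX, sat_e2X, sat_clX, sat_lstX, sat_FX, sat_GX, sat_HX, sat_KX, Function.update_apply] using this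
  · intro h e
    have := h (e 0) (e 1)
    simpa [sat_imp, sat_neg, sat_and, sat_or, sat_iff, sat_exL_cons, sat_exL_nil, sat_alN, alL, sat_andL,
      sat_orL, sat_ap, sat_eqX, sat_isNX, sat_dgX, sat_isUX, sat_pwX, sat_lxX, sat_zeroX, sat_succX, sat_addX, sat_mulX, sat_prX, sat_vlX, sat_t0X, sat_atsX, sat_imX, sat_alX, sat_dpX, sat_rnX, sat_rlX, sat_upX, sat_pfX, sat_memX, sat_formX, sat_tkX, sat_concX, sat_ppX, sat_nuX, sat_szX, sat_e2X, sat_clX, sat_lstX, sat_FX, sat_GX, sat_HX, sat_KX, Function.update_apply] using this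

theorem AxC_nuD : (∀ e, Sat S ((imp (nuX 0 1) (imp (neg (zeroX 0)) (imp (addX 0 0 2) (imp (ap (dgX suf0) [1, 3]) (nuX 2 3))))) : XFm) e) ↔
    (∀ v z v' z', nuR S v z → ¬ zeroR S v → addR S v v v' → DG S suf0 z z' → nuR S v' z') := by
  constructor
  · intro h v z v' z'
    have := h (fun i => [v, z, v', z'].getD i v)
    simpa [sat_imp, sat_neg, sat_and, sat_or, sat_iff, sat_exL_cons, sat_exL_nil, sat_alN, alL, sat_andL,
      sat_orL, sat_ap, sat_eqX, sat_isNX, sat_dgX, sat_isUX, sat_pwX, sat_lxX, sat_zeroX, sat_succX, sat_addX, sat_mulX, sat_prX, sat_vlX, sat_t0X, sat_atsX, sat_imX, sat_alX, sat_dpX, sat_rnX, sat_rlX, sat_upX, sat_pfX, sat_memX, sat_formX, sat_tkX, sat_concX, sat_ppX, sat_nuX, sat_szX, sat_e2X, sat_clX, sat_lstX, sat_FX, sat_GX, sat_HX, sat_KX, Function.update_apply] using this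
  · intro h e
    have := h (e 0) (e 1) (e 2) (e 3)
    simpa [sat_imp, sat_neg, sat_and, sat_or, sat_iff, sat_exL_cons, sat_exL_nil, sat_alN, alL, sat_andL,
      sat_orL, sat_ap, sat_eqX, sat_isNX, sat_dgX, sat_isUX, sat_pwX, sat_lxX, sat_zeroX, sat_succX, sat_addX, sat_mulX, sat_prX, sat_vlX, sat_t0X, sat_atsX, sat_imX, sat_alX, sat_dpX, sat_rnX, sat_rlX, sat_upX, sat_pfX, sat_memX, sat_formX, sat_tkX, sat_concX, sat_ppX, sat_nuX, sat_szX, sat_e2X, sat_clX, sat_lstX, sat_FX, sat_GX, sat_HX, sat_KX, Function.update_apply] using this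

theorem AxC_nuE : (∀ e, Sat S ((imp (nuX 0 1) (imp (addX 0 0 2) (imp (succX 2 3) (imp (ap (dgX suf1) [1, 4]) (nuX 3 4))))) : XFm) e) ↔
    (∀ v z u v' z', nuR S v z → addR S v v u → succR S u v' → DG S suf1 z z' → nuR S v' z') := by
  constructor
  · intro h v z u v' z'
    have := h (fun i => [v, z, u, v', z'].getD i v)
    simpa [sat_imp, sat_neg, sat_and, sat_or, sat_iff, sat_exL_cons, sat_exL_nil, sat_alN, alL, sat_andL,
      sat_orL, sat_ap, sat_eqX, sat_isNX, sat_dgX, sat_isUX, sat_pwX, sat_lxX, sat_zeroX, sat_succX, sat_addX, sat_mulX, sat_prX, sat_vlX, sat_t0X, sat_atsX, sat_imX, sat_alX, sat_dpX, sat_rnX, sat_rlX, sat_upX, sat_pfX, sat_memX, sat_formX, sat_tkX, sat_concX, sat_ppX, sat_nuX, sat_szX, sat_e2X, sat_clX, sat_lstX, sat_FX, sat_GX, sat_HX, sat_KX, Function.update_apply] using this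
  · intro h e
    have := h (e 0) (e 1) (e 2) (e 3) (e 4)
    simpa [sat_imp, sat_neg, sat_and, sat_or, sat_iff, sat_exL_cons, sat_exL_nil, sat_alN, alL, sat_andL,
      sat_orL, sat_ap, sat_eqX, sat_isNX, sat_dgX, sat_isUX, sat_pwX, sat_lxX, sat_zeroX, sat_succX, sat_addX, sat_mulX, sat_prX, sat_vlX, sat_t0X, sat_atsX, sat_imX, sat_alX, sat_dpX, sat_rnX, sat_rlX, sat_upX, sat_pfX, sat_memX, sat_formX, sat_tkX, sat_concX, sat_ppX, sat_nuX, sat_szX, sat_e2X, sat_clX, sat_lstX, sat_FX, sat_GX, sat_HX, sat_KX, Function.update_apply] using this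

theorem AxC_sz1 (sC : ℕ) : (∀ e, Sat S ((imp (isNX 1 0) (imp (ap (isUX sC) [1]) (szX 0 1))) : XFm) e) ↔
    (∀ a m, IsN S 1 a → IsU S sC m → szR S a m) := by
  constructor
  · intro h a m
    have := h (fun i => [a, m].getD i a)
    simpa [sat_imp, sat_neg, sat_and, sat_or, sat_iff, sat_exL_cons, sat_exL_nil, sat_alN, alL, sat_andL,
      sat_orL, sat_ap, sat_eqX, sat_isNX, sat_dgX, sat_isUX, sat_pwX, sat_lxX, sat_zeroX, sat_succX, sat_addX, sat_mulX, sat_prX, sat_vlX, sat_t0X, sat_atsX, sat_imX, sat_alX, sat_dpX, sat_rnX, sat_rlX, sat_upX, sat_pfX, sat_memX, sat_formX, sat_tkX, sat_concX, sat_ppX, sat_nuX, sat_szX, sat_e2X, sat_clX, sat_lstX, sat_FX, sat_GX, sat_HX, sat_KX, Function.update_apply] using this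
  · intro h e
    have := h (e 0) (e 1)
    simpa [sat_imp, sat_neg, sat_and, sat_or, sat_iff, sat_exL_cons, sat_exL_nil, sat_alN, alL, sat_andL,
      sat_orL, sat_ap, sat_eqX, sat_isNX, sat_dgX, sat_isUX, sat_pwX, sat_lxX, sat_zeroX, sat_succX, sat_addX, sat_mulX, sat_prX, sat_vlX, sat_t0X, sat_atsX, sat_imX, sat_alX, sat_dpX, sat_rnX, sat_rlX, sat_upX, sat_pfX, sat_memX, sat_formX, sat_tkX, sat_concX, sat_ppX, sat_nuX, sat_szX, sat_e2X, sat_clX, sat_lstX, sat_FX, sat_GX, sat_HX, sat_KX, Function.update_apply] using this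

theorem AxC_szD (sC : ℕ) : (∀ e, Sat S ((imp (szX 0 1) (imp (or (ap (dgX [false]) [0, 2]) (ap (dgX [true]) [0, 2])) (imp (ap (isUX sC) [3]) (imp (addX 1 3 4) (szX 2 4))))) : XFm) e) ↔
    (∀ a m b d m', szR S a m → (DG S [false] a b ∨ DG S [true] a b) → IsU S sC d →
      addR S m d m' → szR S b m') := by
  constructor
  · intro h a m b d m'
    have := h (fun i => [a, m, b, d, m'].getD i a)
    simpa [sat_imp, sat_neg, sat_and, sat_or, sat_iff, sat_exL_cons, sat_exL_nil, sat_alN, alL, sat_andL,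
      sat_orL, sat_ap, sat_eqX, sat_isNX, sat_dgX, sat_isUX, sat_pwX, sat_lxX, sat_zeroX, sat_succX, sat_addX, sat_mulX, sat_prX, sat_vlX, sat_t0X, sat_atsX, sat_imX, sat_alX, sat_dpX, sat_rnX, sat_rlX, sat_upX, sat_pfX, sat_memX, sat_formX, sat_tkX, sat_concX, sat_ppX, sat_nuX, sat_szX, sat_e2X, sat_clX, sat_lstX, sat_FX, sat_GX, sat_HX, sat_KX, Function.update_apply] using this
  · intro h e
    have := h (e 0) (e 1) (e 2) (e 3) (e 4)
    simpa [sat_imp, sat_neg, sat_and, sat_or, sat_iff, sat_exL_cons, sat_exL_nil, sat_alN, alL, sat_andL,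
      sat_orL, sat_ap, sat_eqX, sat_isNX, sat_dgX, sat_isUX, sat_pwX, sat_lxX, sat_zeroX, sat_succX, sat_addX, sat_mulX, sat_prX, sat_vlX, sat_t0X, sat_atsX, sat_imX, sat_alX, sat_dpX, sat_rnX, sat_rlX, sat_upX, sat_pfX, sat_memX, sat_formX, sat_tkX, sat_concX, sat_ppX, sat_nuX, sat_szX, sat_e2X, sat_clX, sat_lstX, sat_FX, sat_GX, sat_HX, sat_KX, Function.update_apply] using this

theorem AxC_szS : (∀ e, Sat S ((imp (szX 0 1) (imp (succX 1 2) (szX 0 2))) : XFm) e) ↔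
    (∀ a m m', szR S a m → succR S m m' → szR S a m') := by
  constructor
  · intro h a m m'
    have := h (fun i => [a, m, m'].getD i a)
    simpa [sat_imp, sat_neg, sat_and, sat_or, sat_iff, sat_exL_cons, sat_exL_nil, sat_alN, alL, sat_andL,
      sat_orL, sat_ap, sat_eqX, sat_isNX, sat_dgX, sat_isUX, sat_pwX, sat_lxX, sat_zeroX, sat_succX, sat_addX, sat_mulX, sat_prX, sat_vlX, sat_t0X, sat_atsX, sat_imX, sat_alX, sat_dpX, sat_rnX, sat_rlX, sat_upX, sat_pfX, sat_memX, sat_formX, sat_tkX, sat_concX, sat_ppX, sat_nuX, sat_szX, sat_e2X, sat_clX, sat_lstX, sat_FX, sat_GX, sat_HX, sat_KX, Function.update_apply] using this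
  · intro h e
    have := h (e 0) (e 1) (e 2)
    simpa [sat_imp, sat_neg, sat_and, sat_or, sat_iff, sat_exL_cons, sat_exL_nil, sat_alN, alL, sat_andL,
      sat_orL, sat_ap, sat_eqX, sat_isNX, sat_dgX, sat_isUX, sat_pwX, sat_lxX, sat_zeroX, sat_succX, sat_addX, sat_mulX, sat_prX, sat_vlX, sat_t0X, sat_atsX, sat_imX, sat_alX, sat_dpX, sat_rnX, sat_rlX, sat_upX, sat_pfX, sat_memX, sat_formX, sat_tkX, sat_concX, sat_ppX, sat_nuX, sat_szX, sat_e2X, sat_clX, sat_lstX, sat_FX, sat_GX, sat_HX, sat_KX, Function.update_apply] using this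

theorem AxC_e20 : (∀ e, Sat S ((imp (zeroX 0) (imp (isNX 1 1) (e2X 0 1))) : XFm) e) ↔
    (∀ m q, zeroR S m → IsN S 1 q → e2R S m q) := by
  constructor
  · intro h m q
    have := h (fun i => [m, q].getD i m)
    simpa [sat_imp, sat_neg, sat_and, sat_or, sat_iff, sat_exL_cons, sat_exL_nil, sat_alN, alL, sat_andL,
      sat_orL, sat_ap, sat_eqX, sat_isNX, sat_dgX, sat_isUX, sat_pwX, sat_lxX, sat_zeroX, sat_succX, sat_addX, sat_mulX, sat_prX, sat_vlX, sat_t0X, sat_atsX, sat_imX, sat_alX, sat_dpX, sat_rnX, sat_rlX, sat_upX, sat_pfX, sat_memX, sat_formX, sat_tkX, sat_concX, sat_ppX, sat_nuX, sat_szX, sat_e2X, sat_clX, sat_lstX, sat_FX, sat_GX, sat_HX, sat_KX, Function.update_apply] using this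
  · intro h e
    have := h (e 0) (e 1)
    simpa [sat_imp, sat_neg, sat_and, sat_or, sat_iff, sat_exL_cons, sat_exL_nil, sat_alN, alL, sat_andL,
      sat_orL, sat_ap, sat_eqX, sat_isNX, sat_dgX, sat_isUX, sat_pwX, sat_lxX, sat_zeroX, sat_succX, sat_addX, sat_mulX, sat_prX, sat_vlX, sat_t0X, sat_atsX, sat_imX, sat_alX, sat_dpX, sat_rnX, sat_rlX, sat_upX, sat_pfX, sat_memX, sat_formX, sat_tkX, sat_concX, sat_ppX, sat_nuX, sat_szX, sat_e2X, sat_clX, sat_lstX, sat_FX, sat_GX, sat_HX, sat_KX, Function.update_apply] using this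

theorem AxC_e2S : (∀ e, Sat S ((imp (e2X 0 1) (imp (succX 0 2) (imp (addX 1 1 3) (e2X 2 3)))) : XFm) e) ↔
    (∀ m q m' q', e2R S m q → succR S m m' → addR S q q q' → e2R S m' q') := by
  constructor
  · intro h m q m' q'
    have := h (fun i => [m, q, m', q'].getD i m)
    simpa [sat_imp, sat_neg, sat_and, sat_or, sat_iff, sat_exL_cons, sat_exL_nil, sat_alN, alL, sat_andL,
      sat_orL, sat_ap, sat_eqX, sat_isNX, sat_dgX, sat_isUX, sat_pwX, sat_lxX, sat_zeroX, sat_succX, sat_addX, sat_mulX, sat_prX, sat_vlX, sat_t0X, sat_atsX, sat_imX, sat_alX, sat_dpX, sat_rnX, sat_rlX, sat_upX, sat_pfX, sat_memX, sat_formX, sat_tkX, sat_concX, sat_ppX, sat_nuX, sat_szX, sat_e2X, sat_clX, sat_lstX, sat_FX, sat_GX, sat_HX, sat_KX, Function.update_apply] using this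
  · intro h e
    have := h (e 0) (e 1) (e 2) (e 3)
    simpa [sat_imp, sat_neg, sat_and, sat_or, sat_iff, sat_exL_cons, sat_exL_nil, sat_alN, alL, sat_andL,
      sat_orL, sat_ap, sat_eqX, sat_isNX, sat_dgX, sat_isUX, sat_pwX, sat_lxX, sat_zeroX, sat_succX, sat_addX, sat_mulX, sat_prX, sat_vlX, sat_t0X, sat_atsX, sat_imX, sat_alX, sat_dpX, sat_rnX, sat_rlX, sat_upX, sat_pfX, sat_memX, sat_formX, sat_tkX, sat_concX, sat_ppX, sat_nuX, sat_szX, sat_e2X, sat_clX, sat_lstX, sat_FX, sat_GX, sat_HX, sat_KX, Function.update_apply] using this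

theorem AxC_clA : (∀ e, Sat S ((imp (lstX 0) (imp (nuX 1 2) (imp (nuX 0 3) (imp (concX 2 3 4) (imp (isNX (codeS conS) 5) (imp (concX 4 5 6) (imp (concX 6 0 7) (clX 0 1 7)))))))) : XFm) e) ↔
    (∀ a q z zz t1 w t2 b, lstR S a → nuR S q z → nuR S a zz → concR S z zz t1 →
      IsN S (codeS conS) w → concR S t1 w t2 → concR S t2 a b → clR S a q b) := by
  constructor
  · intro h a q z zz t1 w t2 b
    have := h (fun i => [a, q, z, zz, t1, w, t2, b].getD i a)
    simpa [sat_imp, sat_neg, sat_and, sat_or, sat_iff, sat_exL_cons, sat_exL_nil, sat_alN, alL, sat_andL,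
      sat_orL, sat_ap, sat_eqX, sat_isNX, sat_dgX, sat_isUX, sat_pwX, sat_lxX, sat_zeroX, sat_succX, sat_addX, sat_mulX, sat_prX, sat_vlX, sat_t0X, sat_atsX, sat_imX, sat_alX, sat_dpX, sat_rnX, sat_rlX, sat_upX, sat_pfX, sat_memX, sat_formX, sat_tkX, sat_concX, sat_ppX, sat_nuX, sat_szX, sat_e2X, sat_clX, sat_lstX, sat_FX, sat_GX, sat_HX, sat_KX, Function.update_apply] using this
  · intro h e
    have := h (e 0) (e 1) (e 2) (e 3) (e 4) (e 5) (e 6) (e 7)
    simpa [sat_imp, sat_neg, sat_and, sat_or, sat_iff, sat_exL_cons, sat_exL_nil, sat_alN, alL, sat_andL,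
      sat_orL, sat_ap, sat_eqX, sat_isNX, sat_dgX, sat_isUX, sat_pwX, sat_lxX, sat_zeroX, sat_succX, sat_addX, sat_mulX, sat_prX, sat_vlX, sat_t0X, sat_atsX, sat_imX, sat_alX, sat_dpX, sat_rnX, sat_rlX, sat_upX, sat_pfX, sat_memX, sat_formX, sat_tkX, sat_concX, sat_ppX, sat_nuX, sat_szX, sat_e2X, sat_clX, sat_lstX, sat_FX, sat_GX, sat_HX, sat_KX, Function.update_apply] using this

theorem AxC_psi (cE : ℕ) (a0 : ℕ) : (∀ e, Sat S ((imp (e2X 0 1) (imp (clX 2 1 3) (imp (szX 2 0) (imp (mulX 0 0 5) (imp (exL [10] (addX 4 10 5)) (imp (ap (pwX cE) [0, 6]) (imp (isNX 16 7) (imp (isNX a0 8) (imp (concX 8 2 9) (imp (ppX 3 4 7) (ppX 9 6 7))))))))))) : XFm) e) ↔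
    (∀ m q a b x m2 N y d a', e2R S m q → clR S a q b → szR S a m → mulR S m m m2 →
      (∃ u, addR S x u m2) → PW S m cE N → IsN S 16 y → IsN S a0 d → concR S d a a' →
      ppR S b x y → ppR S a' N y) := by
  constructor
  · intro h m q a b x m2 N y d a'
    have := h (fun i => [m, q, a, b, x, m2, N, y, d, a'].getD i m)
    simpa [sat_imp, sat_neg, sat_and, sat_or, sat_iff, sat_exL_cons, sat_exL_nil, sat_alN, alL, sat_andL,
      sat_orL, sat_ap, sat_eqX, sat_isNX, sat_dgX, sat_isUX, sat_pwX, sat_lxX, sat_zeroX, sat_succX, sat_addX, sat_mulX, sat_prX, sat_vlX, sat_t0X, sat_atsX, sat_imX, sat_alX, sat_dpX, sat_rnX, sat_rlX, sat_upX, sat_pfX, sat_memX, sat_formX, sat_tkX, sat_concX, sat_ppX, sat_nuX, sat_szX, sat_e2X, sat_clX, sat_lstX, sat_FX, sat_GX, sat_HX, sat_KX, Function.update_apply] using this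
  · intro h e
    have := h (e 0) (e 1) (e 2) (e 3) (e 4) (e 5) (e 6) (e 7) (e 8) (e 9)
    simpa [sat_imp, sat_neg, sat_and, sat_or, sat_iff, sat_exL_cons, sat_exL_nil, sat_alN, alL, sat_andL,
      sat_orL, sat_ap, sat_eqX, sat_isNX, sat_dgX, sat_isUX, sat_pwX, sat_lxX, sat_zeroX, sat_succX, sat_addX, sat_mulX, sat_prX, sat_vlX, sat_t0X, sat_atsX, sat_imX, sat_alX, sat_dpX, sat_rnX, sat_rlX, sat_upX, sat_pfX, sat_memX, sat_formX, sat_tkX, sat_concX, sat_ppX, sat_nuX, sat_szX, sat_e2X, sat_clX, sat_lstX, sat_FX, sat_GX, sat_HX, sat_KX, Function.update_apply] using this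

end

/-- A structure is a model of the theory if and only if it has the properties `SMax`. -/
theorem models_iff {M : Type} [Nonempty M] (S : XStr M) (cE a0 sC : ℕ) :
    (∀ φ ∈ SigX cE a0 sC, ∀ e, Sat S φ e) ↔ SMax S cE a0 sC := by
  have key : (∀ φ ∈ SigX cE a0 sC, ∀ e, Sat S φ e) ↔
      (∀ φ ∈ Q, ∀ e, Sat S (emb φ) e) ∧ ∀ p ∈ axs cE a0 sC, ∀ e, Sat S p.2 e := by
    unfold SigX
    simp only [List.mem_append, List.mem_map]
    constructor
    · intro h
      refine ⟨fun φ hφ => h _ (Or.inl ⟨φ, hφ, rfl⟩), fun p hp => ?_⟩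
      exact (sat_alls S p.1 p.2).1 (h _ (Or.inr ⟨p, hp, rfl⟩))
    · rintro ⟨h1, h2⟩ φ (⟨ψ, hψ, rfl⟩ | ⟨p, hp, rfl⟩)
      · exact h1 ψ hψ
      · exact (sat_alls S p.1 p.2).2 (h2 p hp)
  rw [key]
  constructor
  · rintro ⟨hq, hx⟩
    unfold axs at hx
    simp only [List.forall_mem_cons] at hx
    obtain ⟨h0, h1, h2, h3, h4, h5, h6, h7, h8, h9, h10, h11, h12, h13, h14, h15, h16, h17, h18, h19, h20, h21, h22, h23, h24, h25, h26, h27, h28, h29, h30, h31, h32, h33, h34, h35, h36, h37, h38, h39, h40, h41, h42, h43, h44, h45, h46, h47, h48, h49, h50, -⟩ := hx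
    exact
      { q := hq
        pr_tot := (AxC_pr_tot S).1 h0
        pr_sur := (AxC_pr_sur S).1 h1
        pr_inj := (AxC_pr_inj S).1 h2
        vl0 := (AxC_vl0 S).1 h3
        vlS := (AxC_vlS S).1 h4
        at_im := (AxC_at_im S).1 h5
        at_al := (AxC_at_al S).1 h6
        im_al := (AxC_im_al S).1 h7
        im_inj := (AxC_im_inj S).1 h8
        al_inj := (AxC_al_inj S).1 h9
        dp_zero := (AxC_dp_zero S).1 h10
        dp_cases := (AxC_dp_cases S).1 h11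
        dp_im := (AxC_dp_im S).1 h12
        dp_al := (AxC_dp_al S).1 h13
        dp_im' := (AxC_dp_imp S).1 h14
        dp_al' := (AxC_dp_alp S).1 h15
        rn_at := (AxC_rn_at S).1 h16
        rn_im := (AxC_rn_im S).1 h17
        rn_al := (AxC_rn_al S).1 h18
        rn_dp := (AxC_rn_dp S).1 h19
        up_rl := (AxC_up_rl S).1 h20
        pf_zero := (AxC_pf_zero S).1 h21
        pf_succ := (AxC_pf_succ S).1 h22
        pp_pf := (AxC_pp_pf S).1 h23
        bot_at := (AxC_bot_at S).1 h24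
        mem_nil := (AxC_mem_nil S).1 h25
        mem_cons := (AxC_mem_cons S).1 h26
        lst_nil := (AxC_lst_nil S).1 h27
        lst_cons := (AxC_lst_cons S).1 h28
        tk0 := (AxC_tk0 S).1 h29
        tkS := (AxC_tkS S).1 h30
        form_eq := (AxC_form_eq S).1 h31
        form_zero := (AxC_form_zero S).1 h32
        form_succ := (AxC_form_succ S).1 h33
        form_add := (AxC_form_add S).1 h34
        form_mul := (AxC_form_mul S).1 h35
        form_im := (AxC_form_im S).1 h36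
        form_al := (AxC_form_al S).1 h37
        conc0 := (AxC_conc0 S).1 h38
        concD := (AxC_concD S).1 h39
        concE := (AxC_concE S).1 h40
        nu0 := (AxC_nu0 S).1 h41
        nuD := (AxC_nuD S).1 h42
        nuE := (AxC_nuE S).1 h43
        sz1 := (AxC_sz1 S sC).1 h44
        szD := (AxC_szD S sC).1 h45
        szS := (AxC_szS S).1 h46
        e20 := (AxC_e20 S).1 h47
        e2S := (AxC_e2S S).1 h48
        clA := (AxC_clA S).1 h49
        psi := (AxC_psi S cE a0).1 h50 }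
  · intro h
    refine ⟨h.q, ?_⟩
    unfold axs
    simp only [List.forall_mem_cons]
    exact ⟨(AxC_pr_tot S).2 h.pr_tot,
      (AxC_pr_sur S).2 h.pr_sur,
      (AxC_pr_inj S).2 h.pr_inj,
      (AxC_vl0 S).2 h.vl0,
      (AxC_vlS S).2 h.vlS,
      (AxC_at_im S).2 h.at_im,
      (AxC_at_al S).2 h.at_al,
      (AxC_im_al S).2 h.im_al,
      (AxC_im_inj S).2 h.im_inj,
      (AxC_al_inj S).2 h.al_inj,
      (AxC_dp_zero S).2 h.dp_zero,
      (AxC_dp_cases S).2 h.dp_cases,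
      (AxC_dp_im S).2 h.dp_im,
      (AxC_dp_al S).2 h.dp_al,
      (AxC_dp_imp S).2 h.dp_im',
      (AxC_dp_alp S).2 h.dp_al',
      (AxC_rn_at S).2 h.rn_at,
      (AxC_rn_im S).2 h.rn_im,
      (AxC_rn_al S).2 h.rn_al,
      (AxC_rn_dp S).2 h.rn_dp,
      (AxC_up_rl S).2 h.up_rl,
      (AxC_pf_zero S).2 h.pf_zero,
      (AxC_pf_succ S).2 h.pf_succ,
      (AxC_pp_pf S).2 h.pp_pf,
      (AxC_bot_at S).2 h.bot_at,
      (AxC_mem_nil S).2 h.mem_nil,
      (AxC_mem_cons S).2 h.mem_cons,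
      (AxC_lst_nil S).2 h.lst_nil,
      (AxC_lst_cons S).2 h.lst_cons,
      (AxC_tk0 S).2 h.tk0,
      (AxC_tkS S).2 h.tkS,
      (AxC_form_eq S).2 h.form_eq,
      (AxC_form_zero S).2 h.form_zero,
      (AxC_form_succ S).2 h.form_succ,
      (AxC_form_add S).2 h.form_add,
      (AxC_form_mul S).2 h.form_mul,
      (AxC_form_im S).2 h.form_im,
      (AxC_form_al S).2 h.form_al,
      (AxC_conc0 S).2 h.conc0,
      (AxC_concD S).2 h.concD,
      (AxC_concE S).2 h.concE,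
      (AxC_nu0 S).2 h.nu0,
      (AxC_nuD S).2 h.nuD,
      (AxC_nuE S).2 h.nuE,
      (AxC_sz1 S sC).2 h.sz1,
      (AxC_szD S sC).2 h.szD,
      (AxC_szS S).2 h.szS,
      (AxC_e20 S).2 h.e20,
      (AxC_e2S S).2 h.e2S,
      (AxC_clA S).2 h.clA,
      (AxC_psi S cE a0).2 h.psi,
      fun x hx => absurd hx (List.not_mem_nil)⟩

end Pool.Agent.Myc
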