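import Pool.Agent.Myc.Sig

set_option autoImplicit false

/-!
# The axioms of the auxiliary theory, as formulas and as properties of structures
-/

namespace Pool.Agent.Myc

open Fm

/-! ### Auxiliary formulas -/

/-- `x` is the number `k`. -/
def isNX (k x : ℕ) : XFm := ap (emb (num k)) [x]

/-- `x₁` is `x₀` with the digits `w` appended. -/
def dgX : List Bool → XFm
  | [] => eq 0 1
  | false :: w => exL [10] (and (addX 0 0 10) (ap (dgX w) [10, 1]))
  | true :: w => exL [10, 11] (andL [addX 0 0 10, succX 10 11, ap (dgX w) [11, 1]])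

/-- `x₀` is the `k`-th successor of zero. -/
def isUX : ℕ → XFm
  | 0 => zeroX 0
  | k + 1 => exL [10] (and (ap (isUX k) [10]) (succX 10 0))

/-- `x₁ = x₀ ^ c`. -/
def pwX : ℕ → XFm
  | 0 => isNX 1 1
  | c + 1 => exL [10] (and (ap (pwX c) [0, 10]) (mulX 10 0 1))

/-- The witness condition in `PhiM`: `x₀ = x`, `x₁ = s`, `x₂ = b`, `x₃ = w`. -/
def wX : XFm :=
  or (and (exL [10, 11] (imX 0 10 11)) (or (and (isNX 1 2) (or (zeroX 3) (isNX 1 3))) (zeroX 2)))
    (and (exL [10] (alX 0 10)) (or (isNX 1 2) (and (zeroX 2) (exL [10] (prX 10 1 3)))))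

/-- The query condition in `PhiM`: `x₀ = x`, `x₁ = s`, `x₂ = b`, `x₃ = w`, `x₄ = y`, `x₅ = t`,
`x₆ = c`. -/
def qX : XFm :=
  orL [andL [exL [10] (imX 0 4 10), eq 5 1,
      or (andL [isNX 1 2, zeroX 3, zeroX 6]) (and (zeroX 2) (isNX 1 6))],
    andL [exL [10] (imX 0 10 4), eq 5 1,
      or (andL [isNX 1 2, isNX 1 3, isNX 1 6]) (and (zeroX 2) (zeroX 6))],
    and (alX 0 4) (or (andL [isNX 1 2, isNX 1 6, exL [10] (prX 10 1 5)])
      (andL [zeroX 2, zeroX 6, eq 5 3]))]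

/-- The evaluation of formulas, one level further (see `PhiM`), in terms of the symbol `F`, which
occurs exactly once, with the variables `0, 1, 2`. -/
def phiX : XFm :=
  or (and (atsX 0) (or (and (isNX 1 2) (t0X 0 1)) (and (zeroX 2) (neg (t0X 0 1)))))
    (and (neg (atsX 0)) (ex (and (ap wX [1, 2, 3, 0])
      (all (all (all (imp (ap qX [4, 5, 6, 3, 0, 1, 2]) (FX 0 1 2))))))))

/-- Universal quantification over the names in a list. -/
def alL : List ℕ → XFm → XFm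
  | [], φ => φ
  | x :: l, φ => alN x (alL l φ)

/-- The formula `HM`, with `x₀ = κ`. -/
def hX : XFm :=
  alL [10, 11, 12, 13] (imp (zeroX 10) (imp (isNX 1 11) (imp (dpX 0 12)
    (andL [iff (FX 12 13 10) (neg (FX 12 13 11)), iff (FX 12 13 11) (ap phiX [12, 13, 11]),
      iff (FX 12 13 10) (ap phiX [12, 13, 10])]))))

/-- The formula `SLM`, with `x₀ = ν`, `x₁ = κ`. -/
def slX : XFm :=
  alL [10, 11, 12, 13, 14, 15] (imp (isNX 1 10) (imp (dpX 1 11) (imp (dpX 0 11)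
    (imp (rnX 12 11 13) (imp (rlX 12 14 15) (iff (FX 13 14 10) (FX 11 15 10)))))))

/-- `x₀` is a logical axiom. -/
def lxX : XFm :=
  orL [
    exL [10, 11, 12] (and (imX 0 10 12) (imX 12 11 10)),
    exL [10, 11, 12, 13, 14, 15, 16, 17] (andL [imX 13 11 12, imX 14 10 13, imX 15 10 11,
      imX 16 10 12, imX 17 15 16, imX 0 14 17]),
    exL [10, 11, 12, 13] (andL [atsX 11, alN 14 (neg (t0X 11 14)), imX 12 10 11, imX 13 12 11,
      imX 0 13 10]),
    exL [10, 11, 12, 13] (andL [rnX 12 10 11,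
      alN 14 (exL [15, 16] (and (prX 15 14 16) (rlX 12 14 16))), alX 13 10, imX 0 13 11]),
    exL [10, 11, 12, 13, 14, 15, 16] (andL [imX 12 10 11, alX 13 12, alX 14 10, alX 15 11,
      imX 16 14 15, imX 0 13 16]),
    exL [10, 11, 12, 13] (andL [rnX 12 10 11,
      alN 14 (alN 15 (alN 16 (imp (prX 15 14 16) (rlX 12 16 14)))), alX 13 11, imX 0 10 13]),
    and (atsX 0) (alN 10 (t0X 0 10)),
    exL [10, 11, 12, 13, 14, 15, 16] (andL [rnX 13 10 11, rnX 14 10 12, atsX 15,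
      alN 17 (imp (t0X 15 17) (exL [18, 19] (andL [prX 18 17 19, rlX 13 17 19,
        rlX 14 17 19]))), imX 16 11 12, imX 0 15 16])]

/-! ### The axioms -/

/-- The properties of structures expressed by the axioms. The parameter `cE` is an exponent, `a0` a
number (the code of a list of axioms) and `sC` a constant. -/
structure SMax {M : Type} (S : XStr M) (cE a0 sC : ℕ) : Prop where
  q : ∀ φ ∈ Q, ∀ e, Sat S (emb φ) e
  pr_tot : ∀ a s, ∃ t, prR S a s t
  pr_sur : ∀ t, ∃ a s, prR S a s t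
  pr_inj : ∀ a s t a' s', prR S a s t → prR S a' s' t → a = a' ∧ s = s'
  vl0 : ∀ v a s' s, IsN S 6 v → prR S a s' s → vlR S s v a
  vlS : ∀ v u v' b s' s a, addR S v v u → (∃ w, succR S u w ∧ succR S w v') → prR S b s' s →
    vlR S s' v a → vlR S s v' a
  at_im : ∀ x y z, atsR S x → ¬ imR S x y z
  at_al : ∀ x y, atsR S x → ¬ alR S x y
  im_al : ∀ x y z w, imR S x y z → ¬ alR S x w
  im_inj : ∀ x y z y' z', imR S x y z → imR S x y' z' → y = y' ∧ z = z'
  al_inj : ∀ x y y', alR S x y → alR S x y' → y = y'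
  dp_zero : ∀ k x, zeroR S k → ¬ dpR S k x
  dp_cases : ∀ k x, dpR S k x → atsR S x ∨ (∃ y z, imR S x y z) ∨ ∃ y, alR S x y
  dp_im : ∀ k k' x y z, succR S k k' → dpR S k' x → imR S x y z → dpR S k y ∧ dpR S k z
  dp_al : ∀ k k' x y, succR S k k' → dpR S k' x → alR S x y → dpR S k y
  dp_im' : ∀ k x y z, dpR S k x → imR S x y z → dpR S k y ∧ dpR S k z
  dp_al' : ∀ k x y, dpR S k x → alR S x y → dpR S k y
  rn_at : ∀ r x y, atsR S x → rnR S r x y → atsR S y ∧ ∀ s t, rlR S r s t →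
    (t0R S y s ↔ t0R S x t)
  rn_im : ∀ r x y x1 x2, rnR S r x y → imR S x x1 x2 → ∃ y1 y2, imR S y y1 y2 ∧ rnR S r x1 y1 ∧
    rnR S r x2 y2
  rn_al : ∀ r x y x1, rnR S r x y → alR S x x1 → ∃ r' y1, alR S y y1 ∧ upR S r r' ∧
    rnR S r' x1 y1
  rn_dp : ∀ r x y k, rnR S r x y → (dpR S k x ↔ dpR S k y)
  up_rl : ∀ r r' s t a s' t', upR S r r' → rlR S r s t → prR S a s s' → prR S a t t' →
    rlR S r' s' t'
  pf_zero : ∀ a n m y, zeroR S m → ¬ pfR S a n m y
  pf_succ : ∀ a n m m' y, succR S m m' → pfR S a n m' y → dpR S n y ∧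
    (pfR S a n m y ∨ memR S y a ∨ LXM S y ∨ (∃ p q, pfR S a n m p ∧ pfR S a n m q ∧ imR S q p y) ∨
      ∃ p, pfR S a n m p ∧ alR S y p)
  pp_pf : ∀ a n y, ppR S a n y → pfR S a n n y
  bot_at : ∀ y, IsN S 16 y → atsR S y ∧ formR S y ∧ ∀ s, ¬ t0R S y s
  mem_nil : ∀ y a, IsN S 1 a → ¬ memR S y a
  mem_cons : ∀ x a b y, formR S x → lstR S a → concR S x a b → memR S y b →
    y = x ∨ memR S y a
  lst_nil : ∀ a, IsN S 1 a → lstR S a
  lst_cons : ∀ x a b, formR S x → lstR S a → concR S x a b → lstR S b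
  tk0 : ∀ v, IsN S 6 v → tkR S v
  tkS : ∀ v u w v', tkR S v → addR S v v u → succR S u w → succR S w v' → tkR S v'
  form_eq : ∀ v w t x, tkR S v → tkR S w → concR S v w t → DG S [false, false, false, true] t x →
    formR S x ∧ atsR S x ∧ ∀ s a b, vlR S s v a → vlR S s w b → (t0R S x s ↔ a = b)
  form_zero : ∀ v x, tkR S v → DG S [false, false, true, false] v x →
    formR S x ∧ atsR S x ∧ ∀ s a, vlR S s v a → (t0R S x s ↔ zeroR S a)
  form_succ : ∀ v w t x, tkR S v → tkR S w → concR S v w t → DG S [false, false, true, true] t x →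
    formR S x ∧ atsR S x ∧ ∀ s a b, vlR S s v a → vlR S s w b → (t0R S x s ↔ succR S a b)
  form_add : ∀ v w u t t' x, tkR S v → tkR S w → tkR S u → concR S v w t → concR S t u t' →
    DG S [false, true, false, false] t' x → formR S x ∧ atsR S x ∧ ∀ s a b c, vlR S s v a →
      vlR S s w b → vlR S s u c → (t0R S x s ↔ addR S a b c)
  form_mul : ∀ v w u t t' x, tkR S v → tkR S w → tkR S u → concR S v w t → concR S t u t' →
    DG S [false, true, false, true] t' x → formR S x ∧ atsR S x ∧ ∀ s a b c, vlR S s v a →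
      vlR S s w b → vlR S s u c → (t0R S x s ↔ mulR S a b c)
  form_im : ∀ y z t x, formR S y → formR S z → concR S y z t →
    DG S [false, true, true, false] t x → formR S x ∧ imR S x y z
  form_al : ∀ y x, formR S y → DG S [false, true, true, true] y x → formR S x ∧ alR S x y
  conc0 : ∀ x y, IsN S 1 y → concR S x y x
  concD : ∀ x y z y' z', concR S x y z → addR S y y y' → addR S z z z' → concR S x y' z'
  concE : ∀ x y z y' z' y'' z'', concR S x y z → addR S y y y' → addR S z z z' →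
    succR S y' y'' → succR S z' z'' → concR S x y'' z''
  nu0 : ∀ v z, IsN S 0 v → IsN S (codeS (encode (num 0))) z → nuR S v z
  nuD : ∀ v z v' z', nuR S v z → ¬ zeroR S v → addR S v v v' → DG S suf0 z z' → nuR S v' z'
  nuE : ∀ v z u v' z', nuR S v z → addR S v v u → succR S u v' → DG S suf1 z z' → nuR S v' z'
  sz1 : ∀ a m, IsN S 1 a → IsU S sC m → szR S a m
  szD : ∀ a m b d m', szR S a m → (DG S [false] a b ∨ DG S [true] a b) → IsU S sC d →
    addR S m d m' → szR S b m'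
  szS : ∀ a m m', szR S a m → succR S m m' → szR S a m'
  e20 : ∀ m q, zeroR S m → IsN S 1 q → e2R S m q
  e2S : ∀ m q m' q', e2R S m q → succR S m m' → addR S q q q' → e2R S m' q'
  clA : ∀ a q z zz t1 w t2 b, lstR S a → nuR S q z → nuR S a zz → concR S z zz t1 →
    IsN S (codeS conS) w → concR S t1 w t2 → concR S t2 a b → clR S a q b
  psi : ∀ m q a b x m2 N y d a', e2R S m q → clR S a q b → szR S a m → mulR S m m m2 →
    (∃ u, addR S x u m2) → PW S m cE N → IsN S 16 y → IsN S a0 d → concR S d a a' →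
    ppR S b x y → ppR S a' N y

/-- The axioms other than `Q`, with the number of their variables. -/
def axs (cE a0 sC : ℕ) : List (ℕ × XFm) :=
  [ (2, exL [10] (prX 0 1 10)),
    (1, exL [10, 11] (prX 10 11 0)),
    (5, imp (prX 0 1 2) (imp (prX 3 4 2) (and (eq 0 3) (eq 1 4)))),
    -- vl0: v a s' s
    (4, imp (isNX 6 0) (imp (prX 1 2 3) (vlX 3 0 1))),
    -- vlS: v u v' b s' s a
    (7, imp (addX 0 0 1) (imp (exL [10] (and (succX 1 10) (succX 10 2))) (imp (prX 3 4 5)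
      (imp (vlX 4 0 6) (vlX 5 2 6))))),
    (3, imp (atsX 0) (neg (imX 0 1 2))),
    (2, imp (atsX 0) (neg (alX 0 1))),
    (4, imp (imX 0 1 2) (neg (alX 0 3))),
    (5, imp (imX 0 1 2) (imp (imX 0 3 4) (and (eq 1 3) (eq 2 4)))),
    (3, imp (alX 0 1) (imp (alX 0 2) (eq 1 2))),
    (2, imp (zeroX 0) (neg (dpX 0 1))),
    (2, imp (dpX 0 1) (orL [atsX 1, exL [10, 11] (imX 1 10 11), exL [10] (alX 1 10)])),
    -- dp_im: k k' x y z
    (5, imp (succX 0 1) (imp (dpX 1 2) (imp (imX 2 3 4) (and (dpX 0 3) (dpX 0 4))))),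
    (4, imp (succX 0 1) (imp (dpX 1 2) (imp (alX 2 3) (dpX 0 3)))),
    (4, imp (dpX 0 1) (imp (imX 1 2 3) (and (dpX 0 2) (dpX 0 3)))),
    (3, imp (dpX 0 1) (imp (alX 1 2) (dpX 0 2))),
    -- rn_at: r x y
    (3, imp (atsX 1) (imp (rnX 0 1 2) (and (atsX 2) (alL [10, 11] (imp (rlX 0 10 11)
      (iff (t0X 2 10) (t0X 1 11))))))),
    -- rn_im: r x y x1 x2
    (5, imp (rnX 0 1 2) (imp (imX 1 3 4) (exL [10, 11] (andL [imX 2 10 11, rnX 0 3 10,
      rnX 0 4 11])))),
    (4, imp (rnX 0 1 2) (imp (alX 1 3) (exL [10, 11] (andL [alX 2 11, upX 0 10,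
      rnX 10 3 11])))),
    (4, imp (rnX 0 1 2) (iff (dpX 3 1) (dpX 3 2))),
    -- up_rl: r r' s t a s' t'
    (7, imp (upX 0 1) (imp (rlX 0 2 3) (imp (prX 4 2 5) (imp (prX 4 3 6) (rlX 1 5 6))))),
    (4, imp (zeroX 2) (neg (pfX 0 1 2 3))),
    -- pf_succ: a n m m' y
    (5, imp (succX 2 3) (imp (pfX 0 1 3 4) (and (dpX 1 4) (orL [pfX 0 1 2 4, memX 4 0,
      ap lxX [4], exL [10, 11] (andL [pfX 0 1 2 10, pfX 0 1 2 11, imX 11 10 4]),
      exL [10] (and (pfX 0 1 2 10) (alX 4 10))])))),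
    (3, imp (ppX 0 1 2) (pfX 0 1 1 2)),
    (1, imp (isNX 16 0) (andL [atsX 0, formX 0, alN 10 (neg (t0X 0 10))])),
    (2, imp (isNX 1 1) (neg (memX 0 1))),
    (4, imp (formX 0) (imp (lstX 1) (imp (concX 0 1 2) (imp (memX 3 2)
      (or (eq 3 0) (memX 3 1)))))),
    (1, imp (isNX 1 0) (lstX 0)),
    (3, imp (formX 0) (imp (lstX 1) (imp (concX 0 1 2) (lstX 2)))),
    (1, imp (isNX 6 0) (tkX 0)),
    (4, imp (tkX 0) (imp (addX 0 0 1) (imp (succX 1 2) (imp (succX 2 3) (tkX 3))))),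
    -- form_eq: v w t x
    (4, imp (tkX 0) (imp (tkX 1) (imp (concX 0 1 2) (imp (ap (dgX [false, false, false, true])
      [2, 3]) (andL [formX 3, atsX 3, alL [10, 11, 12] (imp (vlX 10 0 11) (imp (vlX 10 1 12)
        (iff (t0X 3 10) (eq 11 12))))]))))),
    (2, imp (tkX 0) (imp (ap (dgX [false, false, true, false]) [0, 1])
      (andL [formX 1, atsX 1, alL [10, 11] (imp (vlX 10 0 11)
        (iff (t0X 1 10) (zeroX 11)))]))),
    (4, imp (tkX 0) (imp (tkX 1) (imp (concX 0 1 2) (imp (ap (dgX [false, false, true, true])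
      [2, 3]) (andL [formX 3, atsX 3, alL [10, 11, 12] (imp (vlX 10 0 11) (imp (vlX 10 1 12)
        (iff (t0X 3 10) (succX 11 12))))]))))),
    -- form_add: v w u t t' x
    (6, imp (tkX 0) (imp (tkX 1) (imp (tkX 2) (imp (concX 0 1 3) (imp (concX 3 2 4)
      (imp (ap (dgX [false, true, false, false]) [4, 5]) (andL [formX 5, atsX 5,
        alL [10, 11, 12, 13] (imp (vlX 10 0 11) (imp (vlX 10 1 12) (imp (vlX 10 2 13)
          (iff (t0X 5 10) (addX 11 12 13)))))]))))))),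
    (6, imp (tkX 0) (imp (tkX 1) (imp (tkX 2) (imp (concX 0 1 3) (imp (concX 3 2 4)
      (imp (ap (dgX [false, true, false, true]) [4, 5]) (andL [formX 5, atsX 5,
        alL [10, 11, 12, 13] (imp (vlX 10 0 11) (imp (vlX 10 1 12) (imp (vlX 10 2 13)
          (iff (t0X 5 10) (mulX 11 12 13)))))]))))))),
    -- form_im: y z t x
    (4, imp (formX 0) (imp (formX 1) (imp (concX 0 1 2) (imp (ap (dgX [false, true, true, false])
      [2, 3]) (and (formX 3) (imX 3 0 1)))))),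
    (2, imp (formX 0) (imp (ap (dgX [false, true, true, true]) [0, 1]) (and (formX 1)
      (alX 1 0)))),
    (2, imp (isNX 1 1) (concX 0 1 0)),
    (5, imp (concX 0 1 2) (imp (addX 1 1 3) (imp (addX 2 2 4) (concX 0 3 4)))),
    -- concE: x y z y' z' y'' z''
    (7, imp (concX 0 1 2) (imp (addX 1 1 3) (imp (addX 2 2 4) (imp (succX 3 5)
      (imp (succX 4 6) (concX 0 5 6)))))),
    (2, imp (isNX 0 0) (imp (isNX (codeS (encode (num 0))) 1) (nuX 0 1))),
    -- nuD: v z v' z'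
    (4, imp (nuX 0 1) (imp (neg (zeroX 0)) (imp (addX 0 0 2) (imp (ap (dgX suf0) [1, 3])
      (nuX 2 3))))),
    -- nuE: v z u v' z'
    (5, imp (nuX 0 1) (imp (addX 0 0 2) (imp (succX 2 3) (imp (ap (dgX suf1) [1, 4])
      (nuX 3 4))))),
    (2, imp (isNX 1 0) (imp (ap (isUX sC) [1]) (szX 0 1))),
    -- szD: a m b d m'
    (5, imp (szX 0 1) (imp (or (ap (dgX [false]) [0, 2]) (ap (dgX [true]) [0, 2]))
      (imp (ap (isUX sC) [3]) (imp (addX 1 3 4) (szX 2 4))))),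
    (3, imp (szX 0 1) (imp (succX 1 2) (szX 0 2))),
    (2, imp (zeroX 0) (imp (isNX 1 1) (e2X 0 1))),
    (4, imp (e2X 0 1) (imp (succX 0 2) (imp (addX 1 1 3) (e2X 2 3)))),
    -- clA: a q z zz t1 w t2 b
    (8, imp (lstX 0) (imp (nuX 1 2) (imp (nuX 0 3) (imp (concX 2 3 4)
      (imp (isNX (codeS conS) 5) (imp (concX 4 5 6) (imp (concX 6 0 7) (clX 0 1 7)))))))),
    -- psi: m q a b x m2 N y d a'
    (10, imp (e2X 0 1) (imp (clX 2 1 3) (imp (szX 2 0) (imp (mulX 0 0 5)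
      (imp (exL [10] (addX 4 10 5)) (imp (ap (pwX cE) [0, 6]) (imp (isNX 16 7)
        (imp (isNX a0 8) (imp (concX 8 2 9) (imp (ppX 3 4 7) (ppX 9 6 7))))))))))) ]

/-- The auxiliary theory. -/
def SigX (cE a0 sC : ℕ) : List XFm :=
  Q.map emb ++ (axs cE a0 sC).map (fun p => alls p.1 p.2)

end Pool.Agent.Myc
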