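import Pool.Agent.Myc.Defs

set_option autoImplicit false

/-!
# Free variables, substitution of formulas for predicate symbols, lengths, provability
-/

namespace Pool.Agent.Myc

open Fm

variable {R R' R'' : Type} {ar : R → ℕ} {ar' : R' → ℕ} {ar'' : R'' → ℕ}

/-- All free variables of the formula satisfy `P`. -/
def FVs : (ℕ → Prop) → Fm R ar → Prop
  | _, bot => True
  | P, eq i j => P i ∧ P j
  | P, rel _ v => ∀ k, P (v k)
  | P, imp φ ψ => FVs P φ ∧ FVs P ψ
  | P, all φ => FVs (fun i => i = 0 ∨ ∃ k, i = k + 1 ∧ P k) φ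

/-- Closed formulas. -/
def Closed (φ : Fm R ar) : Prop := FVs (fun _ => False) φ

/-- `k` universal quantifiers. -/
def alls : ℕ → Fm R ar → Fm R ar
  | 0, φ => φ
  | k + 1, φ => all (alls k φ)

/-- The extension of a vector of variables to a renaming. -/
def ext {n : ℕ} (v : Fin n → ℕ) : ℕ → ℕ := fun i => if h : i < n then v ⟨i, h⟩ else 0

/-- Substitution of formulas for the predicate symbols. -/
def subst (τ : (r : R) → Fm R' ar') : Fm R ar → Fm R' ar'
  | bot => bot
  | eq i j => eq i j
  | rel r v => rename (ext v) (τ r)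
  | imp φ ψ => imp (subst τ φ) (subst τ ψ)
  | all φ => all (subst τ φ)

/-- The free variables of `τ r` are among `0, ..., ar r - 1`. -/
def Good (ar : R → ℕ) (τ : (r : R) → Fm R' ar') : Prop := ∀ r, FVs (fun i => i < ar r) (τ r)

/-- The length of a formula (for arithmetical formulas: the length of its string). -/
def len : Fm R ar → ℕ
  | bot => 4
  | eq i j => (i + 2) + (j + 2) + 4
  | rel _ v => (∑ k, (v k + 2)) + 4
  | imp φ ψ => len φ + len ψ + 4
  | all φ => len φ + 4

/-- The length of a list of formulas. -/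
def plen (l : List (Fm R ar)) : ℕ := (l.map len).sum

/-- `φ` has a proof from `T` of length at most `m`. -/
def Pv (T : Set (Fm R ar)) (m : ℕ) (φ : Fm R ar) : Prop :=
  ∃ l, IsProof T (φ :: l) ∧ plen (φ :: l) ≤ m

/-- `φ` has a proof from `T`. -/
def Pvb (T : Set (Fm R ar)) (φ : Fm R ar) : Prop := ∃ l, IsProof T (φ :: l)

end Pool.Agent.Myc
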