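import Pool.Agent.Myc.Base

set_option autoImplicit false

namespace Pool.Agent.Myc

open Fm

/-- The number of a formula. -/
def cd (φ : AFm) : ℕ := codeS (encode φ)
/-- The number of a list of formulas. -/
def cdL (T : List AFm) : ℕ := codeS (encodeL T)
/-- The number of a variable. -/
def tk (i : ℕ) : ℕ := codeS (tok i)

/-- The renamings with parameters: `pren 0` is `k ↦ k + 1`, `pren (some j)` is `instMap j`. -/
def pren : Option ℕ → ℕ → ℕ
  | none => Nat.succ
  | some j => instMap j

/-- The number of a parameter. -/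
def ptk : Option ℕ → ℕ
  | none => 0
  | some j => tk j

/-- The least set with the given base and steps. -/
inductive Lfp (base : ℕ → Prop) (st : ℕ → ℕ → ℕ → Prop) : ℕ → Prop
  | base {u : ℕ} (h : base u) : Lfp base st u
  | step {u y z : ℕ} (h : st u y z) (hy : Lfp base st y) (hz : Lfp base st z) : Lfp base st u

/-- Concatenation of numbers. -/
def Cc (x y z : ℕ) : Prop := ∃ q, (∃ k, q = 2 ^ k) ∧ q ≤ y ∧ y < 2 * q ∧ z + q = x * q + y

end Pool.Agent.Myc
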