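import Pool.Agent.Myc.Syn

set_option autoImplicit false

/-!
# Provability with lengths, for an arbitrary relational language
-/

namespace Pool.Agent.Myc

open Fm

variable {R R' : Type} {ar : R → ℕ} {ar' : R' → ℕ}

variable {T T' : Set (Fm R ar)} {φ ψ χ : Fm R ar} {a b m : ℕ}

theorem Prv_plen_cons (φ : Fm R ar) (l : List (Fm R ar)) : plen (φ :: l) = len φ + plen l := by
  simp [plen]

theorem Prv_plen_append (l l' : List (Fm R ar)) : plen (l ++ l') = plen l + plen l' := by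
  simp [plen]

theorem Prv_just_mono {l l' : List (Fm R ar)} (h : Just T l φ) (hl : ∀ ψ ∈ l, ψ ∈ l') :
    Just T l' φ := by
  cases h with
  | hyp h => exact .hyp h
  | logic h => exact .logic h
  | mp h1 h2 => exact .mp (hl _ h1) (hl _ h2)
  | gen h => exact .gen (hl _ h)

theorem Prv_just_weaken {l : List (Fm R ar)} (h : Just T l φ) (hT : T ⊆ T') :
    Just T' l φ := by
  cases h with
  | hyp h => exact .hyp (hT h)
  | logic h => exact .logic h
  | mp h1 h2 => exact .mp h1 h2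
  | gen h => exact .gen h

theorem proves_iff (T : Set AFm) (m : ℕ) (φ : AFm) : Proves T m φ ↔ Pv T m φ := by
  have h : ∀ l : List AFm, (encodeL l.reverse).length = plen l := by
    intro l
    rw [length_encodeL, List.map_reverse, List.sum_reverse]
    rfl
  simp only [Proves, Pv, h]

theorem IsProof.append {l l' : List (Fm R ar)} (h : IsProof T l) (h' : IsProof T l') :
    IsProof T (l ++ l') := by
  induction h with
  | nil => exact h'
  | cons h hφ ih =>
    exact .cons ih (Prv_just_mono hφ fun ψ hψ => List.mem_append_left _ hψ)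

/-- Every line of a proof has a proof which is not longer. -/
theorem IsProof.of_mem {l : List (Fm R ar)} (h : IsProof T l) (hφ : φ ∈ l) :
    ∃ l', IsProof T (φ :: l') ∧ plen (φ :: l') ≤ plen l := by
  induction h with
  | nil => simp at hφ
  | @cons l χ h hχ ih =>
    by_cases he : φ = χ
    · subst he
      exact ⟨l, .cons h hχ, le_rfl⟩
    · obtain ⟨l', h1, h2⟩ := ih ((List.mem_cons.1 hφ).resolve_left he)
      refine ⟨l', h1, h2.trans ?_⟩
      rw [Prv_plen_cons χ l]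
      exact Nat.le_add_left _ _

/-- Replace hypotheses by lines of a proof `l₀`. -/
theorem IsProof.absorb {l l₀ : List (Fm R ar)} (h : IsProof T' l) (h₀ : IsProof T l₀)
    (hT : ∀ ψ ∈ T', ψ ∈ l → ψ ∈ T ∨ ψ ∈ l₀) :
    ∃ l₂, IsProof T (l₂ ++ l₀) ∧ plen l₂ ≤ plen l ∧ ∀ ψ ∈ l, ψ ∈ l₂ ++ l₀ := by
  induction h with
  | nil => exact ⟨[], h₀, le_rfl, fun ψ hψ => by simp at hψ⟩
  | @cons l χ h hχ ih =>
    obtain ⟨l₂, h1, h2, h3⟩ := ih fun ψ hψ hl => hT ψ hψ (List.mem_cons_of_mem _ hl)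
    have key : Just T (l₂ ++ l₀) χ →
        ∃ l₂, IsProof T (l₂ ++ l₀) ∧ plen l₂ ≤ plen (χ :: l) ∧
          ∀ ψ ∈ χ :: l, ψ ∈ l₂ ++ l₀ := by
      intro hj
      refine ⟨χ :: l₂, .cons h1 hj, ?_, ?_⟩
      · rw [Prv_plen_cons, Prv_plen_cons]
        omega
      · intro ψ hψ
        rcases List.mem_cons.1 hψ with rfl | hψ
        · exact List.mem_cons_self
        · exact List.mem_cons_of_mem _ (h3 ψ hψ)
    cases hχ with
    | hyp hh =>
      rcases hT χ hh List.mem_cons_self with h4 | h4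
      · exact key (.hyp h4)
      · refine ⟨l₂, h1, ?_, ?_⟩
        · rw [Prv_plen_cons]
          omega
        · intro ψ hψ
          rcases List.mem_cons.1 hψ with rfl | hψ
          · exact List.mem_append_right _ h4
          · exact h3 ψ hψ
    | logic hh => exact key (.logic hh)
    | mp ha hb => exact key (.mp (h3 _ ha) (h3 _ hb))
    | gen ha => exact key (.gen (h3 _ ha))

theorem IsProof.weaken {l : List (Fm R ar)} (h : IsProof T l) (hT : T ⊆ T') : IsProof T' l := by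
  induction h with
  | nil => exact .nil
  | cons h hφ ih => exact .cons ih (Prv_just_weaken hφ hT)

theorem Pv.mono (h : Pv T m φ) {m' : ℕ} (hm : m ≤ m') : Pv T m' φ := by
  obtain ⟨l, h1, h2⟩ := h
  exact ⟨l, h1, h2.trans hm⟩
theorem Pv.weaken (h : Pv T m φ) (hT : T ⊆ T') : Pv T' m φ := by
  obtain ⟨l, h1, h2⟩ := h
  exact ⟨l, h1.weaken hT, h2⟩
theorem Pv.len_le (h : Pv T m φ) : len φ ≤ m := by
  obtain ⟨l, h1, h2⟩ := h
  rw [Prv_plen_cons] at h2
  omega
theorem Pv.logic (h : LogAx φ) : Pv T (len φ) φ :=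
  ⟨[], .cons .nil (.logic h), by simp [plen]⟩
theorem Pv.hyp (h : φ ∈ T) : Pv T (len φ) φ :=
  ⟨[], .cons .nil (.hyp h), by simp [plen]⟩
theorem Pv.mp (h1 : Pv T a (imp φ ψ)) (h2 : Pv T b φ) : Pv T (a + b + len ψ) ψ := by
  obtain ⟨l1, h1, h3⟩ := h1
  obtain ⟨l2, h2, h4⟩ := h2
  refine ⟨(imp φ ψ :: l1) ++ (φ :: l2), .cons (h1.append h2) (.mp (φ := φ) ?_ ?_), ?_⟩
  · exact List.mem_append_right _ List.mem_cons_self
  · exact List.mem_append_left _ List.mem_cons_self
  · rw [Prv_plen_cons, Prv_plen_append]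
    omega
/-- A cruder bound, more convenient for iteration: `ψ` is shorter than `φ → ψ`. -/
theorem Pv.mp' (h1 : Pv T a (imp φ ψ)) (h2 : Pv T b φ) : Pv T (2 * a + b) ψ := by
  refine (h1.mp h2).mono ?_
  have h3 := h1.len_le
  have h4 : len (imp φ ψ) = len φ + len ψ + 4 := rfl
  omega
theorem Pv.gen (h : Pv T a φ) : Pv T (2 * a + 4) (all φ) := by
  have h3 := h.len_le
  obtain ⟨l, h1, h2⟩ := h
  refine ⟨φ :: l, .cons h1 (.gen List.mem_cons_self), ?_⟩
  rw [Prv_plen_cons]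
  have h4 : len (all φ) = len φ + 4 := rfl
  omega
theorem Pv.gens (h : Pv T a φ) (k : ℕ) : Pv T (2 ^ k * (a + 4 * k)) (alls k φ) := by
  induction k with
  | zero =>
    show Pv T (2 ^ 0 * (a + 4 * 0)) φ
    simpa using h
  | succ k ih =>
    refine (Pv.gen ih).mono ?_
    have h1 : 1 ≤ 2 ^ k := Nat.one_le_two_pow
    have h2 : 2 ^ (k + 1) * (a + 4 * (k + 1)) = 2 * (2 ^ k * (a + 4 * k)) + 8 * 2 ^ k := by ring
    rw [h2]
    omega

theorem Pvb_iff : Pvb T φ ↔ ∃ m, Pv T m φ :=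
  ⟨fun ⟨l, h⟩ => ⟨plen (φ :: l), l, h, le_rfl⟩, fun ⟨_, l, h, _⟩ => ⟨l, h⟩⟩
theorem Pvb.logic (h : LogAx φ) : Pvb T φ := ⟨[], .cons .nil (.logic h)⟩
theorem Pvb.hyp (h : φ ∈ T) : Pvb T φ := ⟨[], .cons .nil (.hyp h)⟩
theorem Pvb.mp (h1 : Pvb T (imp φ ψ)) (h2 : Pvb T φ) : Pvb T ψ := by
  obtain ⟨a, h1⟩ := Pvb_iff.1 h1
  obtain ⟨b, h2⟩ := Pvb_iff.1 h2
  exact Pvb_iff.2 ⟨_, h1.mp h2⟩
theorem Pvb.gen (h : Pvb T φ) : Pvb T (all φ) := by
  obtain ⟨a, h⟩ := Pvb_iff.1 h
  exact Pvb_iff.2 ⟨_, h.gen⟩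
theorem Pvb.weaken (h : Pvb T φ) (hT : T ⊆ T') : Pvb T' φ := by
  obtain ⟨a, h⟩ := Pvb_iff.1 h
  exact Pvb_iff.2 ⟨_, h.weaken hT⟩
/-- Induction on provability. -/
theorem Pvb.induct {P : Fm R ar → Prop} (hyp : ∀ φ ∈ T, P φ) (log : ∀ φ, LogAx φ → P φ)
    (mp : ∀ φ ψ, P φ → P (imp φ ψ) → P ψ) (gen : ∀ φ, P φ → P (all φ)) (h : Pvb T φ) : P φ := by
  obtain ⟨l, h⟩ := h
  have key : ∀ l, IsProof T l → ∀ φ ∈ l, P φ := by
    intro l hl
    induction hl with
    | nil => intro φ hφ; simp at hφ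
    | @cons l χ h hχ ih =>
      intro φ hφ
      rcases List.mem_cons.1 hφ with rfl | hφ
      · cases hχ with
        | hyp hh => exact hyp _ hh
        | logic hh => exact log _ hh
        | mp ha hb => exact mp _ _ (ih _ ha) (ih _ hb)
        | gen ha => exact gen _ (ih _ ha)
      · exact ih φ hφ
  exact key _ h φ List.mem_cons_self
/-- If all axioms of `T` are provable from `T'`, then so is everything provable from `T`. -/
theorem Pvb.cut (hT : ∀ ψ ∈ T, Pvb T' ψ) (h : Pvb T φ) : Pvb T' φ :=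
  h.induct hT (fun _ h => .logic h) (fun _ _ h1 h2 => h2.mp h1) (fun _ h => h.gen)
/-- Provability from closed axioms is preserved by renaming. -/
theorem Pvb.rename (hT : ∀ ψ ∈ T, Closed ψ) (h : Pvb T φ) (ρ : ℕ → ℕ) :
    Pvb T (Fm.rename ρ φ) := by
  have key : ∀ ρ : ℕ → ℕ, Pvb T (Fm.rename ρ φ) := by
    refine h.induct (P := fun φ => ∀ ρ : ℕ → ℕ, Pvb T (Fm.rename ρ φ)) ?_ ?_ ?_ ?_
    · intro φ hφ ρ
      rw [rename_closed (hT φ hφ)]
      exact .hyp hφ
    · intro φ hφ ρ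
      exact .logic (hφ.rename ρ)
    · intro φ ψ h1 h2 ρ
      exact Pvb.mp (h2 ρ) (h1 ρ)
    · intro φ h1 ρ
      exact Pvb.gen (h1 (up ρ))
  exact key ρ

theorem Prv_subst {l : List (Fm R ar)} (h : IsProof T l) {τ : (r : R) → Fm R' ar'}
    {A : Set (Fm R' ar')} (hτ : Good ar τ) (hA : ∀ ψ ∈ T, Myc.subst τ ψ ∈ A) :
    IsProof A (l.map (Myc.subst τ)) := by
  induction h with
  | nil => exact .nil
  | cons h hφ ih =>
    refine .cons ih ?_
    cases hφ with
    | hyp hh => exact .hyp (hA _ hh)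
    | logic hh => exact .logic (hh.subst hτ)
    | mp ha hb => exact .mp (List.mem_map_of_mem ha) (List.mem_map_of_mem hb)
    | gen ha => exact .gen (List.mem_map_of_mem ha)

theorem Prv_plen_subst [Fintype R] (l : List (Fm R ar)) :
    ∃ C, ∀ τ : (r : R) → Fm R' ar',
      plen (l.map (Myc.subst τ)) ≤ C * (1 + ∑ r, len (τ r)) := by
  induction l with
  | nil => exact ⟨0, fun τ => by simp [plen]⟩
  | cons φ l ih =>
    obtain ⟨C, hC⟩ := ih
    obtain ⟨D, hD⟩ := len_subst_le (R' := R') (ar' := ar') φ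
    refine ⟨D + C, fun τ => ?_⟩
    rw [List.map_cons, Prv_plen_cons, add_mul]
    exact add_le_add (hD τ) (hC τ)

/-- Substitution in proofs, with lengths: for a given proof in the language `R` there is a constant
`C` such that for all substitutions `τ` and all theories `A` which contain the images of the axioms
the image of the conclusion has an `A`-proof whose length is linear in the lengths of the formulas
`τ r`. -/
theorem Pvb.subst [Fintype R] (h : Pvb T φ) :
    ∃ C, ∀ (τ : (r : R) → Fm R' ar') (A : Set (Fm R' ar')), Good ar τ →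
      (∀ ψ ∈ T, Myc.subst τ ψ ∈ A) → Pv A (C * (1 + ∑ r, len (τ r))) (Myc.subst τ φ) := by
  obtain ⟨l, h⟩ := h
  obtain ⟨C, hC⟩ := Prv_plen_subst (R' := R') (ar' := ar') (φ :: l)
  exact ⟨C, fun τ A hτ hA => ⟨l.map (Myc.subst τ), Prv_subst h hτ hA, hC τ⟩⟩

end Pool.Agent.Myc
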