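import Pool.Agent.Myc.Sem
import Pool.Agent.Myc.Prv

set_option autoImplicit false

/-!
# The completeness theorem, and the principle for families of short proofs
-/

namespace Pool.Agent.Myc

open Fm

variable {R R' : Type} {ar : R → ℕ} {ar' : R' → ℕ}

/-! ### Local derivability -/

section loc

variable {T : Set (Fm R ar)} {φ ψ χ : Fm R ar}

/-- Derivability from `T` and the local assumptions `G`. -/
inductive ComplLoc (T G : Set (Fm R ar)) : Fm R ar → Prop
  | mem {φ : Fm R ar} : φ ∈ G → ComplLoc T G φ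
  | der {φ : Fm R ar} : Pvb T φ → ComplLoc T G φ
  | mp {φ ψ : Fm R ar} : ComplLoc T G (imp φ ψ) → ComplLoc T G φ → ComplLoc T G ψ

variable {G G' : Set (Fm R ar)}

theorem ComplLoc.mono (hG : G ⊆ G') (h : ComplLoc T G φ) : ComplLoc T G' φ := by
  induction h with
  | mem h => exact .mem (hG h)
  | der h => exact .der h
  | mp _ _ h1 h2 => exact .mp h1 h2

theorem ComplLoc.ax (h : LogAx φ) : ComplLoc T G φ := .der (.logic h)

theorem ComplLoc.idd (φ : Fm R ar) : ComplLoc T G (imp φ φ) :=
  .mp (.mp (.ax (.s φ (imp φ φ) φ)) (.ax (.k _ _))) (.ax (.k _ _))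

/-- The deduction theorem. -/
theorem ComplLoc.ded (h : ComplLoc T (insert ψ G) φ) : ComplLoc T G (imp ψ φ) := by
  induction h with
  | mem h =>
    rcases h with rfl | h
    · exact ComplLoc.idd _
    · exact .mp (.ax (.k _ _)) (.mem h)
  | der h => exact .mp (.ax (.k _ _)) (.der h)
  | mp _ _ h1 h2 => exact .mp (.mp (.ax (.s _ _ _)) h1) h2

theorem ComplLoc.toPvb (h : ComplLoc T ∅ φ) : Pvb T φ := by
  induction h with
  | mem h => exact absurd h (Set.notMem_empty _)
  | der h => exact h
  | mp _ _ h1 h2 => exact h1.mp h2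

theorem ComplLoc.botElim (h : ComplLoc T G bot) : ComplLoc T G φ :=
  .mp (.ax (.dn φ)) (.mp (.ax (.k _ _)) h)

theorem ComplLoc.byContra (h : ComplLoc T (insert (neg φ) G) bot) : ComplLoc T G φ :=
  .mp (.ax (.dn φ)) h.ded

theorem ComplLoc.ren (hT : ∀ ψ ∈ T, Closed ψ) (σ : ℕ → ℕ) (h : ComplLoc T G φ) :
    ComplLoc T (rename σ '' G) (rename σ φ) := by
  induction h with
  | mem h => exact .mem ⟨_, h, rfl⟩
  | der h => exact .der (h.rename hT σ)
  | mp _ _ h1 h2 => exact .mp h1 h2

/-- Generalization under local assumptions. -/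
theorem ComplLoc.gen (h : ComplLoc T (rename Nat.succ '' G) φ) : ComplLoc T G (all φ) := by
  induction h with
  | mem h =>
    obtain ⟨γ, hγ, rfl⟩ := h
    exact .mp (.ax (.vac γ)) (.mem hγ)
  | der h => exact .der h.gen
  | mp _ _ h1 h2 => exact .mp (.mp (.ax (.dist _ _)) h1) h2

/-- Generalization of a fresh variable. -/
theorem ComplLoc.genFresh (hT : ∀ ψ ∈ T, Closed ψ) {j : ℕ} (hG : ∀ γ ∈ G, FVs (fun i => i ≠ j) γ)
    (hφ : FVs (fun i => i ≠ j) (all φ)) (h : ComplLoc T G (rename (instMap j) φ)) :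
    ComplLoc T G (all φ) := by
  apply ComplLoc.gen
  have h1 := h.ren hT (fun i => if i = j then 0 else i + 1)
  have h2 : rename (fun i => if i = j then 0 else i + 1) (rename (instMap j) φ) = φ := by
    rw [rename_rename]
    conv_rhs => rw [← rename_id φ]
    refine rename_congr (P := fun i => i = 0 ∨ ∃ k, i = k + 1 ∧ k ≠ j) hφ ?_
    rintro i (rfl | ⟨k, rfl, hk⟩)
    · simp [instMap]
    · simp [instMap, hk]
  have h3 : (rename (fun i => if i = j then 0 else i + 1)) '' G = rename Nat.succ '' G := by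
    refine Set.image_congr fun γ hγ => rename_congr (hG γ hγ) fun i hi => ?_
    simp [hi]
  rwa [h2, h3] at h1

end loc

/-! ### Countability -/

/-- Codes of formulas. -/
def Compl_enc (g : R → ℕ) : Fm R ar → List ℕ
  | bot => [0]
  | eq i j => [1, i, j]
  | rel r v => 2 :: g r :: List.ofFn v
  | imp φ ψ => 3 :: (Compl_enc g φ ++ Compl_enc g ψ)
  | all φ => 4 :: Compl_enc g φ

theorem Compl_enc_inj {g : R → ℕ} (hg : Function.Injective g) (φ : Fm R ar) :
    ∀ (ψ : Fm R ar) (l l' : List ℕ), Compl_enc g φ ++ l = Compl_enc g ψ ++ l' →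
      φ = ψ ∧ l = l' := by
  induction φ with
  | bot =>
    intro ψ l l' h
    cases ψ <;> simp [Compl_enc] at h
    exact ⟨rfl, h⟩
  | eq i j =>
    intro ψ l l' h
    cases ψ <;> simp [Compl_enc] at h
    obtain ⟨rfl, rfl, rfl⟩ := h
    exact ⟨rfl, rfl⟩
  | rel r v =>
    intro ψ l l' h
    cases ψ with
    | rel r' v' =>
      simp only [Compl_enc, List.cons_append, List.cons.injEq, true_and] at h
      obtain ⟨h1, h2⟩ := h
      obtain rfl := hg h1
      obtain ⟨h3, h4⟩ := List.append_inj h2 (by simp)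
      obtain rfl := List.ofFn_injective h3
      exact ⟨rfl, h4⟩
    | _ => simp [Compl_enc] at h
  | imp φ1 φ2 h1 h2 =>
    intro ψ l l' h
    cases ψ with
    | imp ψ1 ψ2 =>
      simp only [Compl_enc, List.cons_append, List.cons.injEq, true_and, List.append_assoc] at h
      obtain ⟨rfl, h'⟩ := h1 _ _ _ h
      obtain ⟨rfl, h''⟩ := h2 _ _ _ h'
      exact ⟨rfl, h''⟩
    | _ => simp [Compl_enc] at h
  | all φ h1 =>
    intro ψ l l' h
    cases ψ with
    | all ψ' =>
      simp only [Compl_enc, List.cons_append, List.cons.injEq, true_and] at h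
      obtain ⟨rfl, h''⟩ := h1 _ _ _ h
      exact ⟨rfl, h''⟩
    | _ => simp [Compl_enc] at h

theorem Compl_countable [Countable R] : Countable (Fm R ar) := by
  obtain ⟨g, hg⟩ := exists_injective_nat R
  refine Function.Injective.countable (f := Compl_enc g) fun φ ψ h => ?_
  exact (Compl_enc_inj hg φ ψ [] [] (by simpa using h)).1

/-! ### The Henkin construction -/

section henkin

variable {T : Set (Fm R ar)}

/-- Consistency of a set of local assumptions. -/
def ComplCon (T G : Set (Fm R ar)) : Prop := ¬ ComplLoc T G bot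

/-- A variable which is not free in finitely many formulas. -/
theorem Compl_fresh (G : Finset (Fm R ar)) : ∃ n, ∀ γ ∈ G, FVs (fun i => i < n) γ := by
  classical
  induction G using Finset.induction_on with
  | empty => exact ⟨0, fun γ hγ => by simp at hγ⟩
  | insert φ G _ ih =>
    obtain ⟨n, hn⟩ := ih
    obtain ⟨m, hm⟩ := FVs_bound φ
    refine ⟨max m n, fun γ hγ => ?_⟩
    rcases Finset.mem_insert.1 hγ with rfl | hγ
    · exact hm.mono fun i hi => lt_of_lt_of_le hi (le_max_left _ _)
    · exact (hn γ hγ).mono fun i hi => lt_of_lt_of_le hi (le_max_right _ _)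

/-- One step: a finite consistent set can be extended by the decision of `χ` and a witness. -/
theorem Compl_step (hT : ∀ ψ ∈ T, Closed ψ) (G : Finset (Fm R ar))
    (hG : ComplCon T (G : Set (Fm R ar))) (χ : Fm R ar) :
    ∃ G' : Finset (Fm R ar), G ⊆ G' ∧ ComplCon T (G' : Set (Fm R ar)) ∧ (χ ∈ G' ∨ neg χ ∈ G') ∧
      ∀ ψ, χ = all ψ → χ ∈ G' ∨ ∃ j, neg (rename (instMap j) ψ) ∈ G' := by
  classical
  by_cases h : ComplCon T (insert χ (G : Set (Fm R ar)))
  · refine ⟨insert χ G, Finset.subset_insert _ _, by simpa using h, Or.inl (by simp),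
      fun ψ _ => Or.inl (by simp)⟩
  · have h1 : ComplLoc T (G : Set (Fm R ar)) (neg χ) := by
      unfold ComplCon at h
      exact (not_not.1 h).ded
    have h2 : ComplCon T (insert (neg χ) (G : Set (Fm R ar))) := fun h' =>
      hG (.mp h'.ded h1)
    by_cases hall : ∃ ψ, χ = all ψ
    · obtain ⟨ψ, rfl⟩ := hall
      obtain ⟨j, hj⟩ := Compl_fresh (insert (neg (all ψ)) G)
      have hj' : ∀ γ ∈ insert (neg (all ψ)) (G : Set (Fm R ar)), FVs (fun i => i ≠ j) γ := by
        intro γ hγ
        exact (hj γ (by simpa using hγ)).mono fun i hi => ne_of_lt hi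
      have hψ : FVs (fun i => i ≠ j) (all ψ) := (hj' _ (Or.inl rfl)).1
      refine ⟨insert (neg (rename (instMap j) ψ)) (insert (neg (all ψ)) G), ?_, ?_,
        Or.inr (by simp), fun ψ' e => Or.inr ?_⟩
      · intro x hx; simp [hx]
      · intro h'
        have h3 : ComplLoc T (insert (neg (all ψ)) (G : Set (Fm R ar)))
            (rename (instMap j) ψ) := by
          refine ComplLoc.byContra ?_
          simpa using h'
        have h4 := ComplLoc.genFresh hT hj' hψ h3
        exact h2 (.mp (.mem (Or.inl rfl)) h4)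
      · simp only [Fm.all.injEq] at e
        obtain rfl := e
        exact ⟨j, by simp⟩
    · refine ⟨insert (neg χ) G, Finset.subset_insert _ _, by simpa using h2, Or.inr (by simp),
        fun ψ e => absurd ⟨ψ, e⟩ hall⟩

/-- A finite consistent set. -/
abbrev ComplFin (T : Set (Fm R ar)) : Type :=
  {G : Finset (Fm R ar) // ComplCon T (G : Set (Fm R ar))}

/-- The properties of a maximal consistent Henkin set. -/
structure ComplHenkin (T D : Set (Fm R ar)) : Prop where
  con : ComplCon T D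
  dec : ∀ χ, χ ∈ D ∨ neg χ ∈ D
  wit : ∀ ψ, all ψ ∉ D → ∃ j, neg (rename (instMap j) ψ) ∈ D

theorem Compl_exists_henkin [Countable R] (hT : ∀ ψ ∈ T, Closed ψ) (G0 : ComplFin T) :
    ∃ D : Set (Fm R ar), (G0.1 : Set (Fm R ar)) ⊆ D ∧ ComplHenkin T D := by
  have : Countable (Fm R ar) := Compl_countable
  have : Nonempty (Fm R ar) := ⟨bot⟩
  obtain ⟨e, he⟩ := exists_surjective_nat (Fm R ar)
  have hstep : ∀ (G : ComplFin T) (χ : Fm R ar), ∃ G' : ComplFin T, G.1 ⊆ G'.1 ∧
      (χ ∈ G'.1 ∨ neg χ ∈ G'.1) ∧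
      ∀ ψ, χ = all ψ → χ ∈ G'.1 ∨ ∃ j, neg (rename (instMap j) ψ) ∈ G'.1 := by
    intro G χ
    obtain ⟨G', h1, h2, h3⟩ := Compl_step hT G.1 G.2 χ
    exact ⟨⟨G', h2⟩, h1, h3⟩
  choose nx hnx using hstep
  let ch : ℕ → ComplFin T := fun n => Nat.rec G0 (fun n G => nx G (e n)) n
  have chain_succ : ∀ n, (ch n).1 ⊆ (ch (n + 1)).1 ∧
      (e n ∈ (ch (n + 1)).1 ∨ neg (e n) ∈ (ch (n + 1)).1) ∧
      ∀ ψ, e n = all ψ → e n ∈ (ch (n + 1)).1 ∨
        ∃ j, neg (rename (instMap j) ψ) ∈ (ch (n + 1)).1 := fun n => hnx (ch n) (e n)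
  have chain_mono : ∀ {m n : ℕ}, m ≤ n → (ch m).1 ⊆ (ch n).1 := by
    intro m n h
    induction h with
    | refl => exact subset_rfl
    | step _ ih => exact ih.trans (chain_succ _).1
  have hloc : ∀ φ, ComplLoc T {φ | ∃ n, φ ∈ (ch n).1} φ →
      ∃ n, ComplLoc T ((ch n).1 : Set (Fm R ar)) φ := by
    intro φ h
    induction h with
    | mem h =>
      obtain ⟨n, hn⟩ := h
      exact ⟨n, .mem hn⟩
    | der h => exact ⟨0, .der h⟩
    | mp _ _ h1 h2 =>
      obtain ⟨m, h1⟩ := h1
      obtain ⟨n, h2⟩ := h2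
      exact ⟨max m n, .mp (h1.mono fun x hx => chain_mono (le_max_left _ _) hx)
        (h2.mono fun x hx => chain_mono (le_max_right _ _) hx)⟩
  refine ⟨{φ | ∃ n, φ ∈ (ch n).1}, fun x hx => ⟨0, hx⟩, ?_, ?_, ?_⟩
  · intro h
    obtain ⟨n, hn⟩ := hloc _ h
    exact (ch n).2 hn
  · intro χ
    obtain ⟨n, rfl⟩ := he χ
    rcases (chain_succ n).2.1 with h | h
    · exact Or.inl ⟨n + 1, h⟩
    · exact Or.inr ⟨n + 1, h⟩
  · intro ψ hψ
    obtain ⟨n, hn⟩ := he (all ψ)
    rcases (chain_succ n).2.2 ψ hn with h | ⟨j, h⟩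
    · rw [hn] at h
      exact absurd ⟨n + 1, h⟩ hψ
    · exact ⟨j, n + 1, h⟩

variable {D : Set (Fm R ar)}

theorem ComplHenkin.closed (hD : ComplHenkin T D) {φ : Fm R ar} (h : ComplLoc T D φ) :
    φ ∈ D := by
  rcases hD.dec φ with h' | h'
  · exact h'
  · exact absurd (ComplLoc.mp (.mem h') h) hD.con

theorem ComplHenkin.neg_iff (hD : ComplHenkin T D) {φ : Fm R ar} : neg φ ∈ D ↔ φ ∉ D := by
  constructor
  · intro h h'
    exact hD.con (.mp (.mem h) (.mem h'))
  · intro h
    exact (hD.dec φ).resolve_left h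

theorem ComplHenkin.imp_iff (hD : ComplHenkin T D) {φ ψ : Fm R ar} :
    imp φ ψ ∈ D ↔ (φ ∈ D → ψ ∈ D) := by
  constructor
  · intro h h'
    exact hD.closed (.mp (.mem h) (.mem h'))
  · intro h
    by_cases h' : φ ∈ D
    · exact hD.closed (.mp (.ax (.k _ _)) (.mem (h h')))
    · refine hD.closed (ComplLoc.ded (ComplLoc.botElim ?_))
      exact .mp (.mem (Or.inr (hD.neg_iff.2 h'))) (.mem (Or.inl rfl))

theorem ComplHenkin.symm (hD : ComplHenkin T D) {i j : ℕ} (h : (eq i j : Fm R ar) ∈ D) :
    (eq j i : Fm R ar) ∈ D :=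
  hD.closed (.mp (.mp (.ax (.leib i j (eq 0 (i + 1)))) (.mem h)) (.ax (.refl i)))

theorem ComplHenkin.trans (hD : ComplHenkin T D) {i j k : ℕ} (h : (eq i j : Fm R ar) ∈ D)
    (h' : (eq j k : Fm R ar) ∈ D) : (eq i k : Fm R ar) ∈ D :=
  hD.closed (.mp (.mp (.ax (.leib j i (eq 0 (k + 1)))) (.mem (hD.symm h))) (.mem h'))

/-- The equivalence relation of variables. -/
def ComplHenkin.setoid (hD : ComplHenkin T D) : Setoid ℕ where
  r i j := (eq i j : Fm R ar) ∈ D
  iseqv := ⟨fun i => hD.closed (.ax (.refl i)), fun h => hD.symm h, fun h h' => hD.trans h h'⟩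

theorem ComplHenkin.rel_upd (hD : ComplHenkin T D) (r : R) (v : Fin (ar r) → ℕ)
    (k : Fin (ar r)) (y : ℕ) (h : (eq (v k) y : Fm R ar) ∈ D) (hv : rel r v ∈ D) :
    rel r (Function.update v k y) ∈ D := by
  have h1 : LogAx (imp (eq (v k) y)
      (imp (rename (instMap (v k)) (rel r (Function.update (fun l => v l + 1) k 0) : Fm R ar))
        (rename (instMap y) (rel r (Function.update (fun l => v l + 1) k 0))))) := .leib _ _ _
  have h2 : rename (instMap (v k)) (rel r (Function.update (fun l => v l + 1) k 0) : Fm R ar) =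
      rel r v := by
    simp only [rename]
    congr 1
    funext l
    by_cases hl : l = k
    · subst hl; simp [instMap]
    · simp [Function.update_of_ne hl, instMap]
  have h3 : rename (instMap y) (rel r (Function.update (fun l => v l + 1) k 0) : Fm R ar) =
      rel r (Function.update v k y) := by
    simp only [rename]
    congr 1
    funext l
    by_cases hl : l = k
    · subst hl; simp [instMap]
    · simp [Function.update_of_ne hl, instMap]
  rw [h2, h3] at h1
  exact hD.closed (.mp (.mp (.ax h1) (.mem h)) (.mem hv))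

theorem ComplHenkin.rel_congr (hD : ComplHenkin T D) (r : R) (v v' : Fin (ar r) → ℕ)
    (h : ∀ k, (eq (v k) (v' k) : Fm R ar) ∈ D) : rel r v ∈ D → rel r v' ∈ D := by
  intro hv
  have key : ∀ S : Finset (Fin (ar r)), rel r (fun k => if k ∈ S then v' k else v k) ∈ D := by
    intro S
    induction S using Finset.induction_on with
    | empty => simpa using hv
    | insert k S hk ih =>
      have h2 := hD.rel_upd r (fun k => if k ∈ S then v' k else v k) k (v' k)
        (by simpa [hk] using h k) ih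
      convert h2 using 2
      funext l
      by_cases hl : l = k
      · subst hl; simp
      · rw [Function.update_of_ne hl]
        simp [hl]
  simpa using key Finset.univ

/-- The structure of a Henkin set. -/
def ComplHenkin.str (hD : ComplHenkin T D) : Str R ar (Quotient hD.setoid) where
  rel r v := rel r (fun k => (v k).out) ∈ D

theorem ComplHenkin.str_iff (hD : ComplHenkin T D) (r : R) (v : Fin (ar r) → ℕ) :
    hD.str.rel r (fun k => (Quotient.mk hD.setoid (v k))) ↔ rel r v ∈ D := by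
  constructor
  · exact hD.rel_congr r _ _ fun k => Quotient.mk_out (s := hD.setoid) (v k)
  · exact hD.rel_congr r _ _ fun k => hD.setoid.symm (Quotient.mk_out (s := hD.setoid) (v k))

/-- Truth in the structure of a Henkin set. -/
theorem ComplHenkin.truth (hD : ComplHenkin T D) (φ : Fm R ar) : ∀ σ : ℕ → ℕ,
    Sat hD.str φ (fun i => Quotient.mk hD.setoid (σ i)) ↔ rename σ φ ∈ D := by
  induction φ with
  | bot =>
    intro σ
    exact ⟨fun h => h.elim, fun h => hD.con (.mem h)⟩
  | eq i j =>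
    intro σ
    show (Quotient.mk hD.setoid (σ i) = Quotient.mk hD.setoid (σ j) ↔ _)
    rw [Quotient.eq]
    exact Iff.rfl
  | rel r v =>
    intro σ
    exact hD.str_iff r fun k => σ (v k)
  | imp φ ψ h1 h2 =>
    intro σ
    show (_ → _) ↔ imp (rename σ φ) (rename σ ψ) ∈ D
    rw [hD.imp_iff, ← h1 σ, ← h2 σ]
  | all φ ih =>
    intro σ
    have hi : ∀ j, rename (instMap j) (rename (up σ) φ) = rename (instMap j ∘ up σ) φ :=
      fun j => rename_rename _ _ _
    have hs : ∀ j, (fun i => Quotient.mk hD.setoid ((instMap j ∘ up σ) i)) =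
        scons (Quotient.mk hD.setoid j) (fun i => Quotient.mk hD.setoid (σ i)) := by
      intro j
      funext i
      cases i <;> rfl
    show (∀ a, Sat hD.str φ (scons a _)) ↔ all (rename (up σ) φ) ∈ D
    constructor
    · intro h
      by_contra hnot
      obtain ⟨j, hw⟩ := hD.wit _ hnot
      have h1 := h (Quotient.mk hD.setoid j)
      rw [← hs, ih, ← hi] at h1
      exact hD.neg_iff.1 hw h1
    · intro h a
      obtain ⟨j, rfl⟩ := Quotient.exists_rep a
      have h1 : rename (instMap j) (rename (up σ) φ) ∈ D :=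
        hD.closed (.mp (.ax (.inst j _)) (.mem h))
      rwa [hi, ← ih, hs] at h1

end henkin

/-- Goedel's completeness theorem, for theories consisting of sentences in a countable
language. -/
theorem completeness [Countable R] {T : Set (Fm R ar)} (hT : ∀ ψ ∈ T, Closed ψ) {φ : Fm R ar}
    (h : ∀ (M : Type) [Nonempty M] (S : Str R ar M), (∀ ψ ∈ T, ∀ e, Sat S ψ e) → ∀ e, Sat S φ e) :
    Pvb T φ := by
  by_contra hno
  have hcon : ComplCon T (({neg φ} : Finset (Fm R ar)) : Set (Fm R ar)) := by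
    intro h'
    apply hno
    apply ComplLoc.toPvb
    refine ComplLoc.byContra (h'.mono ?_)
    simp
  obtain ⟨D, hD0, hD⟩ := Compl_exists_henkin hT (⟨{neg φ}, hcon⟩ : ComplFin T)
  have h1 : neg φ ∈ D := hD0 (by simp)
  have : Nonempty (Quotient hD.setoid) := ⟨Quotient.mk hD.setoid 0⟩
  have h2 := h (Quotient hD.setoid) hD.str (fun ψ hψ e => by
    have h3 := hD.truth ψ fun i => (e i).out
    simp only [Quotient.out_eq] at h3
    rw [h3, rename_closed (hT ψ hψ)]
    exact hD.closed (.der (.hyp hψ))) (fun i => Quotient.mk hD.setoid (id i))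
  rw [hD.truth, rename_id] at h2
  exact hD.neg_iff.1 h1 h2

/-- The principle for families of short proofs: if `φ` holds in all models of the sentences `T` then
there is a constant `C` such that for all substitutions `τ` of formulas for the predicate symbols
and all theories `A` which contain the images of the sentences in `T`, the image of `φ` has an
`A`-proof of length at most `C (1 + ∑ len (τ r))`. -/
theorem schema [Fintype R] {T : Set (Fm R ar)} (hT : ∀ ψ ∈ T, Closed ψ) {φ : Fm R ar}
    (h : ∀ (M : Type) [Nonempty M] (S : Str R ar M), (∀ ψ ∈ T, ∀ e, Sat S ψ e) → ∀ e, Sat S φ e) :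
    ∃ C, ∀ (τ : (r : R) → Fm R' ar') (A : Set (Fm R' ar')), Good ar τ →
      (∀ ψ ∈ T, subst τ ψ ∈ A) → Pv A (C * (1 + ∑ r, len (τ r))) (subst τ φ) :=
  Pvb.subst (completeness hT h)

end Pool.Agent.Myc
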