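import Mathlib

set_option autoImplicit false

/-!
# Short proofs of finitistic consistency: the definitions

First order logic with equality over a relational language, a Hilbert calculus, binary strings
as codes, dyadic numerals and the arithmetised provability predicate `provF`.
-/

namespace Pool.Agent.Myc

/-- Formulas of first order logic with equality over the predicate symbols `r : R` of arity
`ar r`, in de Bruijn notation: in the scope of a quantifier the variable `0` is the variable bound
by it and the variable `k + 1` is the variable `k` outside. -/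
inductive Fm (R : Type) (ar : R → ℕ) : Type
  | bot : Fm R ar
  | eq : ℕ → ℕ → Fm R ar
  | rel : (r : R) → (Fin (ar r) → ℕ) → Fm R ar
  | imp : Fm R ar → Fm R ar → Fm R ar
  | all : Fm R ar → Fm R ar

/-- The action of a renaming under one quantifier. -/
def up (ρ : ℕ → ℕ) : ℕ → ℕ
  | 0 => 0
  | k + 1 => ρ k + 1

/-- The substitution of the variable `j` for the outermost variable. -/
def instMap (j : ℕ) : ℕ → ℕ
  | 0 => j
  | k + 1 => k

namespace Fm

variable {R : Type} {ar : R → ℕ}

/-- Negation. -/
def neg (φ : Fm R ar) : Fm R ar := imp φ bot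

/-- Disjunction. -/
def or (φ ψ : Fm R ar) : Fm R ar := imp (neg φ) ψ

/-- Conjunction. -/
def and (φ ψ : Fm R ar) : Fm R ar := neg (imp φ (neg ψ))

/-- Equivalence. -/
def iff (φ ψ : Fm R ar) : Fm R ar := and (imp φ ψ) (imp ψ φ)

/-- Existential quantification. -/
def ex (φ : Fm R ar) : Fm R ar := neg (all (neg φ))

/-- Replace every free variable `i` by `ρ i`. -/
def rename : (ℕ → ℕ) → Fm R ar → Fm R ar
  | _, bot => bot
  | ρ, eq i j => eq (ρ i) (ρ j)
  | ρ, rel r v => rel r (fun k => ρ (v k))
  | ρ, imp φ ψ => imp (rename ρ φ) (rename ρ ψ)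
  | ρ, all φ => all (rename (up ρ) φ)

/-- Universal quantification over the free variable with the name `x`. -/
def alN (x : ℕ) (φ : Fm R ar) : Fm R ar :=
  all (rename (fun i => if i = x then 0 else i + 1) φ)

/-- Existential quantification over the free variable with the name `x`. -/
def exN (x : ℕ) (φ : Fm R ar) : Fm R ar := neg (alN x (neg φ))

/-- Existential quantification over the free variables with the names in a list. -/
def exL : List ℕ → Fm R ar → Fm R ar
  | [], φ => φ
  | x :: l, φ => exN x (exL l φ)

/-- Conjunction of a list. -/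
def andL : List (Fm R ar) → Fm R ar
  | [] => neg bot
  | [φ] => φ
  | φ :: ψ :: l => and φ (andL (ψ :: l))

/-- Disjunction of a list. -/
def orL : List (Fm R ar) → Fm R ar
  | [] => bot
  | [φ] => φ
  | φ :: ψ :: l => or φ (orL (ψ :: l))

/-- `ap φ [a, b, ...]` is `φ` with `a, b, ...` for its free variables `0, 1, ...`. -/
def ap (φ : Fm R ar) (v : List ℕ) : Fm R ar := rename (fun i => v.getD i 0) φ

end Fm

open Fm

/-! ### The calculus -/

section Calculus

variable {R : Type} {ar : R → ℕ}

/-- The logical axioms. -/
inductive LogAx : Fm R ar → Prop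
  | k (φ ψ : Fm R ar) : LogAx (imp φ (imp ψ φ))
  | s (φ ψ χ : Fm R ar) : LogAx (imp (imp φ (imp ψ χ)) (imp (imp φ ψ) (imp φ χ)))
  | dn (φ : Fm R ar) : LogAx (imp (neg (neg φ)) φ)
  | inst (j : ℕ) (φ : Fm R ar) : LogAx (imp (all φ) (rename (instMap j) φ))
  | dist (φ ψ : Fm R ar) : LogAx (imp (all (imp φ ψ)) (imp (all φ) (all ψ)))
  | vac (φ : Fm R ar) : LogAx (imp φ (all (rename Nat.succ φ)))
  | refl (i : ℕ) : LogAx (eq i i)
  | leib (i j : ℕ) (φ : Fm R ar) :
      LogAx (imp (eq i j) (imp (rename (instMap i) φ) (rename (instMap j) φ)))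

/-- `Just T l φ`: the formula `φ` may be added to the proof with the lines `l`: it is an axiom
of `T`, a logical axiom, or follows from lines of `l` by modus ponens or by generalization. -/
inductive Just (T : Set (Fm R ar)) (l : List (Fm R ar)) : Fm R ar → Prop
  | hyp {φ : Fm R ar} (h : φ ∈ T) : Just T l φ
  | logic {φ : Fm R ar} (h : LogAx φ) : Just T l φ
  | mp {φ ψ : Fm R ar} (h1 : φ ∈ l) (h2 : imp φ ψ ∈ l) : Just T l ψ
  | gen {φ : Fm R ar} (h : φ ∈ l) : Just T l (all φ)

/-- The list `l`, read from its end to its head, is a proof from `T`. -/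
inductive IsProof (T : Set (Fm R ar)) : List (Fm R ar) → Prop
  | nil : IsProof T []
  | cons {l : List (Fm R ar)} {φ : Fm R ar} (h : IsProof T l) (hφ : Just T l φ) :
      IsProof T (φ :: l)

end Calculus

/-! ### Structures -/

/-- Structures with domain `M`. -/
structure Str (R : Type) (ar : R → ℕ) (M : Type) where
  rel : (r : R) → (Fin (ar r) → M) → Prop

/-- Add a value in front of an assignment. -/
def scons {M : Type} (a : M) (e : ℕ → M) : ℕ → M
  | 0 => a
  | k + 1 => e k

/-- Satisfaction. -/
def Sat {R : Type} {ar : R → ℕ} {M : Type} (S : Str R ar M) : Fm R ar → (ℕ → M) → Prop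
  | bot, _ => False
  | eq i j, e => e i = e j
  | rel r v, e => S.rel r (fun k => e (v k))
  | imp φ ψ, e => Sat S φ e → Sat S ψ e
  | all φ, e => ∀ a, Sat S φ (scons a e)

/-! ### The language of arithmetic -/

/-- The predicate symbols of arithmetic: `x = 0`, `x + 1 = y`, `x + y = z`, `x y = z`. -/
inductive AR : Type
  | zero | succ | add | mul
  deriving DecidableEq

/-- Their arities. -/
def arA : AR → ℕ
  | .zero => 1
  | .succ => 2
  | .add => 3
  | .mul => 3

/-- Arithmetical formulas. -/
abbrev AFm : Type := Fm AR arA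

/-- The standard model. -/
def NN : Str AR arA ℕ where
  rel := fun r => match r with
    | .zero => fun v => v (0 : Fin 1) = 0
    | .succ => fun v => v (0 : Fin 2) + 1 = v (1 : Fin 2)
    | .add => fun v => v (0 : Fin 3) + v (1 : Fin 3) = v (2 : Fin 3)
    | .mul => fun v => v (0 : Fin 3) * v (1 : Fin 3) = v (2 : Fin 3)

/-- `x = 0`. -/
def zeroA (x : ℕ) : AFm := rel .zero ![x]
/-- `x + 1 = y`. -/
def succA (x y : ℕ) : AFm := rel .succ ![x, y]
/-- `x + y = z`. -/
def addA (x y z : ℕ) : AFm := rel .add ![x, y, z]
/-- `x y = z`. -/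
def mulA (x y z : ℕ) : AFm := rel .mul ![x, y, z]

/-- Robinson arithmetic, with the axioms saying that `0` exists and is unique and that successor,
sum and product are total and single valued, function symbols being relation symbols here. -/
def Q : List AFm :=
  [ ex (zeroA 0),
    all (all (imp (zeroA 0) (imp (zeroA 1) (eq 0 1)))),
    all (ex (succA 1 0)),
    all (all (all (imp (succA 2 0) (imp (succA 2 1) (eq 0 1))))),
    all (all (ex (addA 1 2 0))),
    all (all (all (all (imp (addA 2 3 0) (imp (addA 2 3 1) (eq 0 1)))))),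
    all (all (ex (mulA 1 2 0))),
    all (all (all (all (imp (mulA 2 3 0) (imp (mulA 2 3 1) (eq 0 1)))))),
    -- `x + 1 ≠ 0`
    all (all (imp (succA 0 1) (neg (zeroA 1)))),
    -- `x + 1 = y + 1 → x = y`
    all (all (all (imp (succA 0 2) (imp (succA 1 2) (eq 0 1))))),
    -- `x = 0 ∨ ∃ y, y + 1 = x`
    all (or (zeroA 0) (ex (succA 0 1))),
    -- `x + 0 = x`
    all (all (imp (zeroA 0) (addA 1 0 1))),
    -- `x + (y + 1) = (x + y) + 1`
    all (all (all (all (all (imp (succA 0 1) (imp (addA 2 0 3) (imp (succA 3 4)
      (addA 2 1 4)))))))),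
    -- `x * 0 = 0`
    all (all (imp (zeroA 0) (mulA 1 0 0))),
    -- `x * (y + 1) = x * y + x`
    all (all (all (all (all (imp (succA 0 1) (imp (mulA 2 0 3) (imp (addA 3 2 4)
      (mulA 2 1 4)))))))) ]

/-- The dyadic numeral of `n`, as a formula with the free variable `0`, saying that this variable
is `n`: `num 0` is `x = 0`, `num (2 m)` is `∃ y (num m (y) ∧ y + y = x)` and `num (2 m + 1)` is
`∃ z ∃ y (num m (y) ∧ y + y = z ∧ z + 1 = x)`. -/
def num : ℕ → AFm
  | 0 => zeroA 0
  | n + 1 =>
      if (n + 1) % 2 = 0 then ex (and (num ((n + 1) / 2)) (addA 0 0 1))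
      else ex (ex (and (num ((n + 1) / 2)) (and (addA 0 0 1) (succA 1 2))))
  decreasing_by all_goals omega

/-! ### Strings -/

/-- The variable `i` as a string: `i + 1` ones and a zero. -/
def tok (i : ℕ) : List Bool := List.replicate (i + 1) true ++ [false]

/-- The predicate symbols as strings. -/
def tag : AR → List Bool
  | .zero => [false, false, true, false]
  | .succ => [false, false, true, true]
  | .add => [false, true, false, false]
  | .mul => [false, true, false, true]

/-- The string of a formula, in reverse Polish notation. -/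
def encode : AFm → List Bool
  | bot => [false, false, false, false]
  | eq i j => tok i ++ tok j ++ [false, false, false, true]
  | rel r v => (List.ofFn v).flatMap tok ++ tag r
  | imp φ ψ => encode φ ++ encode ψ ++ [false, true, true, false]
  | all φ => encode φ ++ [false, true, true, true]

/-- The string of a list of formulas. -/
def encodeL (l : List AFm) : List Bool := l.flatMap encode

/-- `Proves T m φ`, written `T ⊢^m φ` in the text: `φ` has a proof from `T` which, written as a
string over `{0, 1}`, has length at most `m`. -/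
def Proves (T : Set AFm) (m : ℕ) (φ : AFm) : Prop :=
  ∃ l, IsProof T (φ :: l) ∧ (encodeL (φ :: l).reverse).length ≤ m

/-- Consistency. -/
def Consistent (T : Set AFm) : Prop := ∀ m, ¬ Proves T m bot

/-- The number of a string `w`: its dyadic expansion is `1 w`. -/
def codeS (w : List Bool) : ℕ := w.foldl (fun n b => 2 * n + b.toNat) 1

/-! ### Arithmetised syntax

Every formula below has the free variables `0, 1, ...` given in its description; the variables
with names `≥ 10` are bound. Strings are given by their numbers. -/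

/-- `x₀ < x₁`. -/
def ltF : AFm := exL [10, 11] (and (addA 0 10 11) (succA 11 1))

/-- `x₀ ≤ x₁`. -/
def leF : AFm := exL [10] (addA 0 10 1)

/-- `x₂` is the pair (`Nat.pair`) of `x₀` and `x₁`. -/
def pairF : AFm :=
  or (and (ap ltF [0, 1]) (exL [10] (and (mulA 1 1 10) (addA 10 0 2))))
    (and (ap leF [1, 0]) (exL [10, 11] (andL [mulA 0 0 10, addA 10 0 11, addA 11 1 2])))

/-- `x₂` is the remainder of `x₀` modulo `x₁`. -/
def remF : AFm := exL [10, 11] (andL [ap ltF [2, 1], mulA 10 1 11, addA 11 2 0])

/-- `x₂` is the entry with number `x₁` of the sequence coded by `x₀` (`Nat.beta`): the remainder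
of `u` modulo `(x₁ + 1) v + 1`, if `x₀` is the pair of `u` and `v`. -/
def betaF : AFm :=
  exL [10, 11, 12, 13, 14] (andL [ap pairF [10, 11, 0], succA 1 12, mulA 12 11 13, succA 13 14,
    ap remF [10, 14, 2]])

/-- `x₀` belongs to the least set which contains all `u` with `base (u)` and, with `y` and `z`,
all `u` with `st (u, y, z)`: there is a finite sequence with last entry `x₀` in which every entry
is obtained in this way from earlier ones. -/
def lfpF (base st : AFm) : AFm :=
  exL [10, 11] (and (ap betaF [10, 11, 0]) (alN 12 (imp (ap leF [12, 11])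
    (exL [13] (and (ap betaF [10, 12, 13]) (or (ap base [13])
      (exL [14, 15, 16, 17] (andL [ap ltF [14, 12], ap ltF [15, 12], ap betaF [10, 14, 16],
        ap betaF [10, 15, 17], ap st [13, 16, 17]]))))))))

/-- `x₀` is a power of two: all its divisors except `1` are even. -/
def pow2F : AFm :=
  alN 10 (alN 11 (imp (mulA 10 11 0) (or (ap (num 1) [10]) (exL [12] (addA 12 12 10)))))

/-- `x₂` is the concatenation of `x₀` and `x₁`: `x₂ + q = x₀ q + x₁` for the power `q` of two with
`q ≤ x₁ < 2 q`. -/
def concF : AFm :=
  exL [10, 11, 12, 13] (andL [ap pow2F [10], ap leF [10, 1], addA 10 10 11, ap ltF [1, 11],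
    mulA 0 10 12, addA 12 1 13, addA 2 10 13])

/-- `x₁` is `x₀` followed by the string with the number `k`. -/
def tagF (k : ℕ) : AFm := exL [10] (and (ap (num k) [10]) (ap concF [0, 10, 1]))

/-- `x₀` is (the number of the string of) a variable, that is `2 ^ (i + 3) - 2`. -/
def varF : AFm :=
  exL [10, 11, 12] (andL [succA 0 10, succA 10 11, ap pow2F [11], ap (num 6) [12],
    ap leF [12, 0]])

/-- If `x₀` is the variable `i` then `x₁` is the variable `i + 1`: `x₁ = 2 x₀ + 2`. -/
def nextF : AFm := exL [10, 11] (andL [addA 0 0 10, succA 10 11, succA 11 1])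

/-- `(x₀ + 2) (x₁ + 2) = 8 (x₂ + 2)`: if `x₀` and `x₁` are the variables `i` and `j` then `x₂` is
the variable `i + j`. -/
def vaddF : AFm :=
  exL [10, 11, 12, 13, 14, 15, 16, 17] (andL [succA 0 10, succA 10 11, succA 1 12, succA 12 13,
    succA 2 14, succA 14 15, ap (num 8) [16], mulA 11 13 17, mulA 15 16 17])

/-- The renaming with the parameters `x₀`, `x₁` sends the variable `x₂` to the variable `x₃`.
If `x₁` is the variable `d` and `x₀ = 0` this is the renaming `k ↦ k + 1` under `d` quantifiers; if
`x₀` is the variable `j` it is the renaming `0 ↦ j, k + 1 ↦ k` under `d` quantifiers. -/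
def vmapF : AFm :=
  orL [and (ap ltF [2, 1]) (eq 3 2),
    andL [ap leF [1, 2], zeroA 0, ap nextF [2, 3]],
    andL [eq 2 1, neg (zeroA 0), ap vaddF [0, 1, 3]],
    andL [ap ltF [1, 2], neg (zeroA 0), ap nextF [3, 2]]]

/-- `x₂` is the string of `eq x₀ x₁`. -/
def eqC : AFm := exL [10] (and (ap concF [0, 1, 10]) (ap (tagF 17) [10, 2]))
/-- `x₁` is the string of `zero (x₀)`. -/
def zeroC : AFm := ap (tagF 18) [0, 1]
/-- `x₂` is the string of `succ (x₀, x₁)`. -/
def succC : AFm := exL [10] (and (ap concF [0, 1, 10]) (ap (tagF 19) [10, 2]))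
/-- `x₃` is the string of `add (x₀, x₁, x₂)`. -/
def addC : AFm := exL [10, 11] (andL [ap concF [0, 1, 10], ap concF [10, 2, 11],
  ap (tagF 20) [11, 3]])
/-- `x₃` is the string of `mul (x₀, x₁, x₂)`. -/
def mulC : AFm := exL [10, 11] (andL [ap concF [0, 1, 10], ap concF [10, 2, 11],
  ap (tagF 21) [11, 3]])
/-- `x₂` is the string of the implication from `x₀` to `x₁`. -/
def impC : AFm := exL [10] (and (ap concF [0, 1, 10]) (ap (tagF 22) [10, 2]))
/-- `x₁` is the string of the universal quantification of `x₀`. -/
def allC : AFm := ap (tagF 23) [0, 1]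
/-- `x₁` is the string of the negation of `x₀`. -/
def negC : AFm := exL [10] (and (ap (num 16) [10]) (ap impC [0, 10, 1]))

/-- `x₄` is the quadruple of `x₀, x₁, x₂, x₃`. -/
def quadF : AFm :=
  exL [10, 11] (andL [ap pairF [0, 1, 10], ap pairF [2, 3, 11], ap pairF [10, 11, 4]])

/-- The base of the inductive definition of `renF`: atomic formulas. -/
def renBase : AFm :=
  exL [10, 11, 12, 13] (andL [ap quadF [10, 11, 12, 13, 0], or (zeroA 10) (ap varF [10]),
    ap varF [11],
    or (and (ap (num 16) [12]) (ap (num 16) [13]))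
      (exL [14, 15, 16, 17, 18, 19] (andL [ap varF [14], ap varF [15], ap varF [16],
        ap vmapF [10, 11, 14, 17], ap vmapF [10, 11, 15, 18], ap vmapF [10, 11, 16, 19],
        orL [and (ap eqC [14, 15, 12]) (ap eqC [17, 18, 13]),
          and (ap zeroC [14, 12]) (ap zeroC [17, 13]),
          and (ap succC [14, 15, 12]) (ap succC [17, 18, 13]),
          and (ap addC [14, 15, 16, 12]) (ap addC [17, 18, 19, 13]),
          and (ap mulC [14, 15, 16, 12]) (ap mulC [17, 18, 19, 13])]]))])

/-- The steps of the inductive definition of `renF`: implications and quantifications. -/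
def renStep : AFm :=
  exL [10, 11, 12, 13] (and (ap quadF [10, 11, 12, 13, 0])
    (or
      (exL [14, 15, 16, 17] (andL [ap quadF [10, 11, 14, 15, 1], ap quadF [10, 11, 16, 17, 2],
        ap impC [14, 16, 12], ap impC [15, 17, 13]]))
      (exL [14, 15, 16] (andL [ap nextF [11, 14], ap quadF [10, 14, 15, 16, 1],
        ap allC [15, 12], ap allC [16, 13]]))))

/-- `x₁` is a variable, `x₂` is a formula and `x₃` is its image under the renaming with the
parameters `x₀`, `x₁` (see `vmapF`). -/
def renF : AFm :=
  exL [10] (andL [ap varF [1], ap quadF [0, 1, 2, 3, 10], ap (lfpF renBase renStep) [10]])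

/-- `x₁` is the formula `x₀` with every free variable `k` replaced by `k + 1`. -/
def liftF : AFm := exL [10, 11] (andL [zeroA 10, ap (num 6) [11], ap renF [10, 11, 0, 1]])

/-- `x₀` is a variable and `x₂` is the formula `x₁` with `x₀` for its variable `0` (and with `k`
for its variable `k + 1`). -/
def instF : AFm := exL [10] (andL [ap varF [0], ap (num 6) [10], ap renF [0, 10, 1, 2]])

/-- `x₀` is a formula. -/
def formF : AFm := exL [10] (ap liftF [0, 10])

/-- `x₀` is a logical axiom. -/
def logAxF : AFm :=
  exL [10, 11, 12] (andL [ap formF [10], ap formF [11], ap formF [12],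
    orL [
      -- `k`
      exL [13] (andL [ap impC [11, 10, 13], ap impC [10, 13, 0]]),
      -- `s`
      exL [13, 14, 15, 16, 17] (andL [ap impC [11, 12, 13], ap impC [10, 13, 14],
        ap impC [10, 11, 15], ap impC [10, 12, 16], ap impC [15, 16, 17], ap impC [14, 17, 0]]),
      -- `dn`
      exL [13, 14] (andL [ap negC [10, 13], ap negC [13, 14], ap impC [14, 10, 0]]),
      -- `inst`
      exL [13, 14, 15] (andL [ap instF [13, 10, 14], ap allC [10, 15], ap impC [15, 14, 0]]),
      -- `dist`
      exL [13, 14, 15, 16, 17] (andL [ap impC [10, 11, 13], ap allC [13, 14], ap allC [10, 15],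
        ap allC [11, 16], ap impC [15, 16, 17], ap impC [14, 17, 0]]),
      -- `vac`
      exL [13, 14] (andL [ap liftF [10, 13], ap allC [13, 14], ap impC [10, 14, 0]]),
      -- `refl`
      exL [13] (andL [ap varF [13], ap eqC [13, 13, 0]]),
      -- `leib`
      exL [13, 14, 15, 16, 17, 18] (andL [ap instF [13, 10, 15], ap instF [14, 10, 16],
        ap eqC [13, 14, 17], ap impC [15, 16, 18], ap impC [17, 18, 0]])]])

/-- `x₀` is a string of formulas. -/
def lstF : AFm := lfpF (num 1) (exL [10] (andL [ap formF [10], ap concF [1, 10, 0]]))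

/-- `x₀` is a formula and `x₁` is a string of formulas, one of which is `x₀`. -/
def lineF : AFm :=
  exL [10, 11, 12] (andL [ap formF [0], ap lstF [10], ap lstF [11], ap concF [10, 0, 12],
    ap concF [12, 11, 1]])

/-- The formula `x₂` may be added to the proof `x₁` from the axioms in the string `x₀`. -/
def justF : AFm :=
  and (ap formF [2]) (orL [ap lineF [2, 0], ap logAxF [2],
    exL [10, 11] (andL [ap lineF [10, 1], ap lineF [11, 1], ap impC [10, 2, 11]]),
    exL [10] (andL [ap lineF [10, 1], ap allC [10, 2]])])

/-- `x₁` is a proof from the axioms in the string `x₀`. -/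
def proofF : AFm :=
  exL [10] (and (ap pairF [0, 1, 10]) (ap (lfpF
    (exL [10, 11] (andL [ap pairF [10, 11, 0], ap lstF [10], ap (num 1) [11]]))
    (exL [10, 11, 12, 13] (andL [ap pairF [10, 12, 0], ap pairF [10, 11, 1],
      ap justF [10, 11, 13], ap concF [11, 13, 12]]))) [10]))

/-- `x₁ = 2 ^ x₀`. -/
def exp2F : AFm :=
  exL [10] (and (ap pairF [0, 1, 10]) (ap (lfpF
    (exL [10, 11] (andL [ap pairF [10, 11, 0], zeroA 10, ap (num 1) [11]]))
    (exL [10, 11, 12, 13] (andL [ap pairF [12, 13, 0], ap pairF [10, 11, 1],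
      succA 10 12, addA 11 11 13]))) [10]))

/-- The provability predicate `P (x₀, x₁, x₂)`: `x₂` is a formula which has a proof of length at
most `x₁` from the axioms in the string `x₀`. -/
def provF : AFm :=
  exL [10, 11, 12, 13] (andL [ap proofF [0, 10], ap justF [0, 10, 2], ap concF [10, 2, 11],
    ap exp2F [1, 12], addA 12 12 13, ap ltF [11, 13]])

/-- The sentence `Con_T (N)`, for a finite axiomatization `T`: there are `x`, `a`, `y` such that `x`
is `N`, `a` is the number of the string of `T`, `y` is the number of the string of falsum (these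
three clauses are dyadic numerals) and not `P (a, x, y)`, that is, falsum has no proof of length at
most `N` from the axioms in `T`. -/
def Con (T : List AFm) (N : ℕ) : AFm :=
  ex (and (num N) (ex (and (num (codeS (encodeL T))) (ex (and (num (codeS (encode bot)))
    (neg (ap provF [1, 2, 0])))))))

end Pool.Agent.Myc
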