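import Pool.Agent.Myc.FamA
import Pool.Agent.Myc.Compl
import Pool.Agent.Myc.AxC

set_option autoImplicit false

namespace Pool.Agent.Myc

open Fm

private theorem FamB_embT_good : Good arA embT := by
  intro r
  cases r
  · intro k
    change Fin 1 at k
    fin_cases k
    exact Nat.zero_lt_one
  · intro k
    change Fin 2 at k
    fin_cases k
    · exact Nat.zero_lt_two
    · exact Nat.one_lt_two
  · intro k
    change Fin 3 at k
    fin_cases k
    · exact Nat.succ_pos 2
    · exact Nat.succ_lt_succ (Nat.succ_pos 1)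
    · exact Nat.lt_succ_self 2
  · intro k
    change Fin 3 at k
    fin_cases k
    · exact Nat.succ_pos 2
    · exact Nat.succ_lt_succ (Nat.succ_pos 1)
    · exact Nat.lt_succ_self 2

private theorem FamB_emb_closed {φ : AFm} (h : Closed φ) : Closed (emb φ) :=
  FVs_subst FamB_embT_good h

private theorem FamB_le5 (a b c d e : ℕ) : a ≤ a + b + c + d + e := by omega

private theorem FamB_sum_le (sC : ℕ) (V G H K : AFm) :
    ∑ r, len (xi sC V G H K r) ≤
      ∑ r, len (xi sC bot bot bot bot r) + len V + len G + len H + len K := by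
  have h : ∀ r : RX, len (xi sC V G H K r) ≤ len (xi sC bot bot bot bot r) +
      (if r = RX.F then len V else 0) + (if r = RX.G then len G else 0) +
      (if r = RX.H then len H else 0) + (if r = RX.K then len K else 0) := by
    intro r
    cases r
    case F => simp [xi]
    case G => simp [xi]
    case H => simp [xi]
    case K => simp [xi]
    all_goals exact FamB_le5 _ _ _ _ _
  calc ∑ r, len (xi sC V G H K r)
      ≤ ∑ r : RX, (len (xi sC bot bot bot bot r) +
      (if r = RX.F then len V else 0) + (if r = RX.G then len G else 0) +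
      (if r = RX.H then len H else 0) + (if r = RX.K then len K else 0)) :=
        Finset.sum_le_sum fun r _ => h r
    _ = ∑ r, len (xi sC bot bot bot bot r) + len V + len G + len H + len K := by
        rw [Finset.sum_add_distrib, Finset.sum_add_distrib, Finset.sum_add_distrib,
          Finset.sum_add_distrib]
        simp

private theorem FamB_bound (C B V G H K s : ℕ) (hs : s ≤ B + V + G + H + K) :
    C * (1 + s) ≤ C * (1 + B) * (1 + V + G + H + K) := by
  rw [Nat.mul_assoc]
  refine Nat.mul_le_mul_left _ ?_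
  have : (1 + B) * (1 + V + G + H + K) = (1 + V + G + H + K) + B * (1 + V + G + H + K) := by ring
  have h2 : B * 1 ≤ B * (1 + V + G + H + K) := Nat.mul_le_mul_left _ (by omega)
  omega

/-- The principle for families of short proofs, for the theory `T0` of arithmetic. -/
theorem fam0 (T0 : List AFm) (hc : ∀ φ ∈ T0, Closed φ) {φ : XFm}
    (h : ∀ (M : Type) [Nonempty M] (S : XStr M), (∀ ψ ∈ T0, ∀ e, Sat S (emb ψ) e) →
      ∀ e, Sat S φ e) (sC : ℕ) :
    ∃ C, ∀ (V G H K : AFm) (A : Set AFm), FVs (fun i => i < 3) V → FVs (fun i => i < 1) G →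
      FVs (fun i => i < 1) H → FVs (fun i => i < 1) K → (∀ ψ ∈ T0, ψ ∈ A) →
      Pv A (C * (1 + len V + len G + len H + len K)) (subst (xi sC V G H K) φ) := by
  obtain ⟨C, hC⟩ := schema (R := RX) (ar := arX) (R' := AR) (ar' := arA)
    (T := {χ | ∃ ψ ∈ T0, χ = emb ψ}) (φ := φ) (by
      rintro χ ⟨ψ, hψ, rfl⟩
      exact FamB_emb_closed (hc ψ hψ))
    (fun M _ S hS => h M S fun ψ hψ => hS (emb ψ) ⟨ψ, hψ, rfl⟩)
  refine ⟨C * (1 + ∑ r, len (xi sC bot bot bot bot r)), ?_⟩
  intro V G H K A hV hG hH hK hA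
  refine (hC (xi sC V G H K) A (xi_good sC hV hG hH hK) ?_).mono
    (FamB_bound _ _ _ _ _ _ _ (FamB_sum_le sC V G H K))
  rintro χ ⟨ψ, hψ, rfl⟩
  rw [subst_xi_emb]
  exact hA ψ hψ

/-- The principle for families of short proofs, for theories `T` which contain the base theory. -/
theorem fam (cE sC : ℕ) (T : List AFm) (hT : ∀ φ ∈ BaseA cE sC, φ ∈ T)
    (hc : ∀ φ ∈ T, Closed φ) {φ : XFm}
    (h : ∀ (M : Type) [Nonempty M] (S : XStr M), SMax S cE (cdL A0) sC → QM S →
      (∀ ψ ∈ T, ∀ e, Sat S (emb ψ) e) → ∀ e, Sat S φ e) :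
    ∃ C, ∀ V G H K : AFm, FVs (fun i => i < 3) V → FVs (fun i => i < 1) G →
      FVs (fun i => i < 1) H → FVs (fun i => i < 1) K →
      Pv {ψ | ψ ∈ T} (C * (1 + len V + len G + len H + len K)) (subst (xi sC V G H K) φ) := by
  obtain ⟨C, hC⟩ := schema (R := RX) (ar := arX) (R' := AR) (ar' := arA)
    (T := {χ | (∃ ψ ∈ T, χ = emb ψ) ∨ χ ∈ SigX cE (cdL A0) sC}) (φ := φ) (by
      rintro χ (⟨ψ, hψ, rfl⟩ | hχ)
      · exact FamB_emb_closed (hc ψ hψ)
      · exact SigX_closed _ _ _ χ hχ)
    (by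
      intro M _ S hS
      have h1 : SMax S cE (cdL A0) sC :=
        (models_iff S cE (cdL A0) sC).mp fun ψ hψ => hS ψ (Or.inr hψ)
      exact h M S h1 (qm h1.q) fun ψ hψ => hS (emb ψ) (Or.inl ⟨ψ, hψ, rfl⟩))
  refine ⟨C * (1 + ∑ r, len (xi sC bot bot bot bot r)), ?_⟩
  intro V G H K hV hG hH hK
  refine (hC (xi sC V G H K) {ψ | ψ ∈ T} (xi_good sC hV hG hH hK) ?_).mono
    (FamB_bound _ _ _ _ _ _ _ (FamB_sum_le sC V G H K))
  rintro χ (⟨ψ, hψ, rfl⟩ | hχ)
  · rw [subst_xi_emb]
    exact hψ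
  · have hχ' := hχ
    unfold SigX at hχ'
    rw [List.mem_append, List.mem_map, List.mem_map] at hχ'
    rcases hχ' with ⟨q, hq, rfl⟩ | ⟨p, hp, rfl⟩
    · rw [subst_xi_emb]
      refine hT q ?_
      unfold BaseA A0
      rw [List.mem_append, List.mem_append]
      exact Or.inl (Or.inl hq)
    · rw [subst_xi_SigX sC cE (cdL A0) V G H K _ hχ, subst_alls]
      refine hT _ ?_
      unfold BaseA
      rw [List.mem_append, List.mem_map]
      exact Or.inr ⟨p, hp, rfl⟩

end Pool.Agent.Myc
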