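import Pool.Agent.Myc.Base

set_option autoImplicit false

namespace Pool.Agent.Myc

open Fm

variable {R R' R'' : Type} {ar : R → ℕ} {ar' : R' → ℕ} {ar'' : R'' → ℕ}

/-! ### Renaming -/

theorem up_comp (σ ρ : ℕ → ℕ) : up σ ∘ up ρ = up (σ ∘ ρ) := by
  funext i
  cases i <;> rfl

theorem rename_rename (σ ρ : ℕ → ℕ) (φ : Fm R ar) :
    rename σ (rename ρ φ) = rename (σ ∘ ρ) φ := by
  induction φ generalizing σ ρ with
  | bot => rfl
  | eq i j => rfl
  | rel r v => rfl
  | imp φ ψ ih1 ih2 => simp only [rename, ih1, ih2]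
  | all φ ih => simp only [rename, ih, up_comp]

theorem rename_congr {P : ℕ → Prop} {φ : Fm R ar} (h : FVs P φ) {σ ρ : ℕ → ℕ}
    (e : ∀ i, P i → σ i = ρ i) : rename σ φ = rename ρ φ := by
  induction φ generalizing P σ ρ with
  | bot => rfl
  | eq i j =>
    simp only [FVs] at h
    simp only [rename, e i h.1, e j h.2]
  | rel r v =>
    simp only [FVs] at h
    simp only [rename]
    congr 1
    funext k
    exact e _ (h k)
  | imp φ ψ ih1 ih2 =>
    simp only [FVs] at h
    simp only [rename, ih1 h.1 e, ih2 h.2 e]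
  | all φ ih =>
    simp only [FVs] at h
    simp only [rename]
    congr 1
    refine ih h ?_
    rintro i (rfl | ⟨k, rfl, hk⟩)
    · rfl
    · simp only [up, e k hk]

theorem SynA_up_id : up id = id := by
  funext i
  cases i <;> rfl

theorem rename_id (φ : Fm R ar) : rename id φ = φ := by
  induction φ with
  | bot => rfl
  | eq i j => rfl
  | rel r v => rfl
  | imp φ ψ ih1 ih2 => simp only [rename, ih1, ih2]
  | all φ ih => simp only [rename, SynA_up_id, ih]

theorem rename_closed {φ : Fm R ar} (h : Closed φ) (ρ : ℕ → ℕ) : rename ρ φ = φ := by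
  have h1 : rename ρ φ = rename id φ := rename_congr h (fun i hi => hi.elim)
  rw [h1, rename_id]

/-! ### Free variables -/

theorem FVs.mono {P P' : ℕ → Prop} {φ : Fm R ar} (h : FVs P φ) (hP : ∀ i, P i → P' i) :
    FVs P' φ := by
  induction φ generalizing P P' with
  | bot => trivial
  | eq i j =>
    simp only [FVs] at h ⊢
    exact ⟨hP _ h.1, hP _ h.2⟩
  | rel r v =>
    simp only [FVs] at h ⊢
    exact fun k => hP _ (h k)
  | imp φ ψ ih1 ih2 =>
    simp only [FVs] at h ⊢
    exact ⟨ih1 h.1 hP, ih2 h.2 hP⟩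
  | all φ ih =>
    simp only [FVs] at h ⊢
    refine ih h ?_
    rintro i (rfl | ⟨k, rfl, hk⟩)
    · exact Or.inl rfl
    · exact Or.inr ⟨k, rfl, hP _ hk⟩

theorem SynA_FVs_congr {P P' : ℕ → Prop} (hP : ∀ i, P i ↔ P' i) (φ : Fm R ar) :
    FVs P φ ↔ FVs P' φ :=
  ⟨fun h => h.mono fun i => (hP i).1, fun h => h.mono fun i => (hP i).2⟩

theorem FVs_rename (P : ℕ → Prop) (ρ : ℕ → ℕ) (φ : Fm R ar) :
    FVs P (rename ρ φ) ↔ FVs (fun i => P (ρ i)) φ := by
  induction φ generalizing P ρ with
  | bot => rfl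
  | eq i j => rfl
  | rel r v => rfl
  | imp φ ψ ih1 ih2 => simp only [rename, FVs, ih1, ih2]
  | all φ ih =>
    simp only [rename, FVs, ih]
    refine SynA_FVs_congr ?_ φ
    intro i
    cases i with
    | zero => simp [up]
    | succ k => simp [up]

theorem FVs_neg (P : ℕ → Prop) (φ : Fm R ar) : FVs P (neg φ) ↔ FVs P φ := by
  simp only [neg, FVs, and_true]
theorem FVs_or (P : ℕ → Prop) (φ ψ : Fm R ar) : FVs P (or φ ψ) ↔ FVs P φ ∧ FVs P ψ := by
  simp only [Fm.or, neg, FVs, and_true]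
theorem FVs_and (P : ℕ → Prop) (φ ψ : Fm R ar) : FVs P (and φ ψ) ↔ FVs P φ ∧ FVs P ψ := by
  simp only [Fm.and, neg, FVs, and_true]
theorem FVs_iff (P : ℕ → Prop) (φ ψ : Fm R ar) : FVs P (iff φ ψ) ↔ FVs P φ ∧ FVs P ψ := by
  simp only [Fm.iff, FVs_and, FVs]
  tauto
theorem FVs_ex (P : ℕ → Prop) (φ : Fm R ar) :
    FVs P (ex φ) ↔ FVs (fun i => i = 0 ∨ ∃ k, i = k + 1 ∧ P k) φ := by
  simp only [Fm.ex, neg, FVs, and_true]
theorem FVs_alN (P : ℕ → Prop) (x : ℕ) (φ : Fm R ar) :
    FVs P (alN x φ) ↔ FVs (fun i => i = x ∨ P i) φ := by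
  simp only [alN, FVs, FVs_rename]
  refine SynA_FVs_congr ?_ φ
  intro i
  by_cases h : i = x
  · simp [h]
  · simp [h]
theorem FVs_exN (P : ℕ → Prop) (x : ℕ) (φ : Fm R ar) :
    FVs P (exN x φ) ↔ FVs (fun i => i = x ∨ P i) φ := by
  simp only [exN, FVs_neg, FVs_alN]
theorem FVs_exL (P : ℕ → Prop) (l : List ℕ) (φ : Fm R ar) :
    FVs P (exL l φ) ↔ FVs (fun i => i ∈ l ∨ P i) φ := by
  induction l generalizing P with
  | nil => simp [exL]
  | cons x l ih =>
    simp only [exL, FVs_exN, ih]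
    refine SynA_FVs_congr ?_ φ
    intro i
    simp only [List.mem_cons]
    tauto
theorem FVs_andL (P : ℕ → Prop) (l : List (Fm R ar)) :
    FVs P (andL l) ↔ ∀ φ ∈ l, FVs P φ := by
  induction l with
  | nil => simp [andL, FVs_neg, FVs]
  | cons φ l ih =>
    cases l with
    | nil => simp [andL]
    | cons ψ l =>
      rw [andL, FVs_and, ih]
      simp only [List.mem_cons, forall_eq_or_imp]
theorem FVs_orL (P : ℕ → Prop) (l : List (Fm R ar)) :
    FVs P (orL l) ↔ ∀ φ ∈ l, FVs P φ := by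
  induction l with
  | nil => simp [orL, FVs]
  | cons φ l ih =>
    cases l with
    | nil => simp [orL]
    | cons ψ l =>
      rw [orL, FVs_or, ih]
      simp only [List.mem_cons, forall_eq_or_imp]
theorem FVs_ap {n : ℕ} {φ : Fm R ar} (h : FVs (fun i => i < n) φ) (P : ℕ → Prop) (v : List ℕ)
    (hv : v.length = n) (hP : ∀ i ∈ v, P i) : FVs P (ap φ v) := by
  rw [ap, FVs_rename]
  refine h.mono ?_
  intro i hi
  have hi' : i < v.length := by omega
  rw [List.getD_eq_getElem _ _ hi']
  exact hP _ (List.getElem_mem hi')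

theorem FVs_num (k : ℕ) : FVs (fun i => i < 1) (num k) := by
  induction k using Nat.strong_induction_on with
  | _ k ih =>
    cases k with
    | zero =>
      rw [num]
      intro j
      fin_cases j
      exact Nat.zero_lt_one
    | succ n =>
      have h1 : FVs (fun i => i < 1) (num ((n + 1) / 2)) := ih _ (by omega)
      rw [num]
      split_ifs with h
      · rw [FVs_ex, FVs_and]
        refine ⟨h1.mono ?_, ?_⟩
        · intro i hi
          exact Or.inl (by omega)
        · intro j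
          fin_cases j
          · exact Or.inl rfl
          · exact Or.inl rfl
          · exact Or.inr ⟨0, rfl, Nat.zero_lt_one⟩
      · rw [FVs_ex, FVs_ex, FVs_and, FVs_and]
        refine ⟨h1.mono ?_, ?_, ?_⟩
        · intro i hi
          exact Or.inl (by omega)
        · intro j
          fin_cases j
          · exact Or.inl rfl
          · exact Or.inl rfl
          · exact Or.inr ⟨0, rfl, Or.inl rfl⟩
        · intro j
          fin_cases j
          · exact Or.inr ⟨0, rfl, Or.inl rfl⟩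
          · exact Or.inr ⟨1, rfl, Or.inr ⟨0, rfl, Nat.zero_lt_one⟩⟩

/-- Every formula has finitely many free variables. -/
theorem FVs_bound (φ : Fm R ar) : ∃ n, FVs (fun i => i < n) φ := by
  induction φ with
  | bot => exact ⟨0, trivial⟩
  | eq i j => exact ⟨i + j + 1, by simp only [FVs]; omega⟩
  | rel r v =>
    refine ⟨(∑ k, v k) + 1, ?_⟩
    intro k
    have := Finset.single_le_sum (f := v) (fun i _ => Nat.zero_le _) (Finset.mem_univ k)
    show v k < _
    omega
  | imp φ ψ ih1 ih2 =>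
    obtain ⟨n, hn⟩ := ih1
    obtain ⟨m, hm⟩ := ih2
    refine ⟨n + m, ?_, ?_⟩
    · exact hn.mono fun i hi => by omega
    · exact hm.mono fun i hi => by omega
  | all φ ih =>
    obtain ⟨n, hn⟩ := ih
    refine ⟨n, ?_⟩
    refine hn.mono fun i hi => ?_
    cases i with
    | zero => exact Or.inl rfl
    | succ k => exact Or.inr ⟨k, rfl, by omega⟩

theorem FVs_alls (P : ℕ → Prop) (k : ℕ) (φ : Fm R ar) :
    FVs P (alls k φ) ↔ FVs (fun i => i < k ∨ ∃ j, i = j + k ∧ P j) φ := by
  induction k generalizing P with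
  | zero =>
    rw [alls]
    refine SynA_FVs_congr ?_ φ
    intro i
    simp
  | succ k ih =>
    rw [alls, FVs, ih]
    refine SynA_FVs_congr ?_ φ
    intro i
    constructor
    · rintro (h | ⟨j, rfl, rfl | ⟨m, rfl, hm⟩⟩)
      · exact Or.inl (by omega)
      · exact Or.inl (by omega)
      · exact Or.inr ⟨m, by omega, hm⟩
    · rintro (h | ⟨j, rfl, hj⟩)
      · by_cases h' : i < k
        · exact Or.inl h'
        · exact Or.inr ⟨0, by omega, Or.inl rfl⟩
      · exact Or.inr ⟨j + 1, by omega, Or.inr ⟨j, rfl, hj⟩⟩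

theorem closed_alls {k : ℕ} {φ : Fm R ar} (h : FVs (fun i => i < k) φ) : Closed (alls k φ) := by
  rw [Closed, FVs_alls]
  exact h.mono fun i hi => Or.inl hi

end Pool.Agent.Myc
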