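import Pool.Agent.Myc.Sig
import Pool.Agent.Myc.SynA

set_option autoImplicit false

namespace Pool.Agent.Myc

open Fm

theorem num_even {m : ℕ} (hm : 0 < m) : num (2 * m) = ex (and (num m) (addA 0 0 1)) := by
  obtain ⟨k, rfl⟩ : ∃ k, m = k + 1 := ⟨m - 1, by omega⟩
  have h1 : 2 * (k + 1) = (2 * k + 1) + 1 := by ring
  have h2 : (2 * k + 1 + 1) % 2 = 0 := by omega
  have h3 : (2 * k + 1 + 1) / 2 = k + 1 := by omega
  rw [h1, num, if_pos h2, h3]

theorem num_odd (m : ℕ) :
    num (2 * m + 1) = ex (ex (and (num m) (and (addA 0 0 1) (succA 1 2)))) := by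
  have h2 : ¬ (2 * m + 1) % 2 = 0 := by omega
  have h3 : (2 * m + 1) / 2 = m := by omega
  rw [num, if_neg h2, h3]

theorem encode_and (φ ψ : AFm) : encode (and φ ψ) = encode φ ++ andS ψ := by
  simp [Fm.and, Fm.neg, encode, andS, List.append_assoc]

theorem encode_ex (φ : AFm) : encode (ex φ) = encode φ ++ exS := by
  simp [Fm.ex, Fm.neg, encode, exS, List.append_assoc]

theorem encode_num_even {m : ℕ} (hm : 0 < m) : encode (num (2 * m)) = encode (num m) ++ suf0 := by
  rw [num_even hm, encode_ex, encode_and, suf0, List.append_assoc]

theorem encode_num_odd (m : ℕ) : encode (num (2 * m + 1)) = encode (num m) ++ suf1 := by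
  rw [num_odd m, encode_ex, encode_ex, encode_and, suf1]
  simp only [List.append_assoc]

theorem encode_Con (T : List AFm) (N : ℕ) :
    encode (Con T N) = encode (num N) ++ encode (num (codeS (encodeL T))) ++ conS := by
  unfold Con conS
  generalize ex (and (num (codeS (encode bot))) (neg (ap provF [1, 2, 0]))) = X
  rw [encode_ex, encode_and]
  have h : andS (ex (and (num (codeS (encodeL T))) X)) =
      encode (num (codeS (encodeL T))) ++ (andS X ++ (exS ++ (encode bot ++
        ([false, true, true, false] ++ ([false, true, true, false] ++
          (encode bot ++ [false, true, true, false])))))) := by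
    rw [andS, encode_ex, encode_and]
    simp only [List.append_assoc]
  rw [h]
  simp only [List.append_assoc]

theorem codeS_snoc (u : List Bool) (b : Bool) : codeS (u ++ [b]) = 2 * codeS u + b.toNat := by
  simp [codeS, List.foldl_append]

theorem codeS_pos' (u : List Bool) : 0 < codeS u := by
  induction u using List.reverseRecOn with
  | nil => simp [codeS]
  | append_singleton u b ih => rw [codeS_snoc]; omega

theorem num_codeS_append (u v : List Bool) :
    num (codeS (u ++ v)) = digF v (num (codeS u)) := by
  induction v generalizing u with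
  | nil => simp [digF]
  | cons b v ih =>
    have h : u ++ b :: v = (u ++ [b]) ++ v := by simp
    rw [h, ih, codeS_snoc]
    cases b with
    | false => rw [Bool.toNat_false, Nat.add_zero, num_even (codeS_pos' u), digF]
    | true => rw [Bool.toNat_true, num_odd, digF]

private theorem len_zeroA : len (zeroA 0) = 6 := rfl

private theorem len_addA001 : len (addA 0 0 1) = 11 := rfl

private theorem len_succA12 : len (succA 1 2) = 11 := rfl

theorem len_num (k : ℕ) : len (num k) ≤ 200 * (Nat.size k + 1) := by
  induction k using Nat.strong_induction_on with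
  | _ k ih =>
    rcases Nat.eq_zero_or_pos k with rfl | hk
    · rw [num, len_zeroA]; omega
    · have hs : Nat.size (k / 2) + 1 ≤ Nat.size k := by
        have h1 : Nat.size (k / 2) ≤ Nat.size k - 1 := by
          rw [Nat.size_le]
          have h2 : k < 2 ^ Nat.size k := Nat.lt_size_self k
          have h3 : 0 < Nat.size k := Nat.size_pos.2 hk
          have h4 : 2 ^ Nat.size k = 2 * 2 ^ (Nat.size k - 1) := by
            rw [← pow_succ']; congr 1; omega
          omega
        have h3 : 0 < Nat.size k := Nat.size_pos.2 hk
        omega
      have hlt : k / 2 < k := Nat.div_lt_self hk (by norm_num)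
      have ih' := ih (k / 2) hlt
      rcases Nat.even_or_odd' k with ⟨m, rfl | rfl⟩
      · have hm : 0 < m := by omega
        have h5 : 2 * m / 2 = m := by omega
        rw [h5] at hs ih'
        rw [num_even hm]
        have h6 : len (ex (and (num m) (addA 0 0 1))) = len (num m) + 51 := by
          simp only [Fm.ex, Fm.and, Fm.neg, len, len_addA001]
        omega
      · have h5 : (2 * m + 1) / 2 = m := by omega
        rw [h5] at hs ih'
        rw [num_odd]
        have h6 : len (ex (ex (and (num m) (and (addA 0 0 1) (succA 1 2))))) =
            len (num m) + 102 := by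
          simp only [Fm.ex, Fm.and, Fm.neg, len, len_addA001, len_succA12]
        omega

end Pool.Agent.Myc
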