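import Pool.Agent.Myc.SynA

set_option autoImplicit false

namespace Pool.Agent.Myc

open Fm

variable {R R' R'' : Type} {ar : R → ℕ} {ar' : R' → ℕ} {ar'' : R'' → ℕ}

/-! ### Lengths -/

theorem len_pos (φ : Fm R ar) : 4 ≤ len φ := by
  cases φ <;> simp only [len] <;> omega

theorem len_rename_le {ρ : ℕ → ℕ} {B : ℕ} (h : ∀ i, ρ i ≤ i + B) (φ : Fm R ar) :
    len (rename ρ φ) ≤ (B + 1) * len φ := by
  induction φ generalizing ρ with
  | bot => simp only [rename, len]; omega
  | eq i j =>
    have h1 := h i
    have h2 := h j
    simp only [rename, len]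
    nlinarith
  | rel r v =>
    simp only [rename, len]
    have h1 : ∑ k, (ρ (v k) + 2) ≤ ∑ k, (B + 1) * (v k + 2) := by
      refine Finset.sum_le_sum fun k _ => ?_
      have := h (v k)
      nlinarith
    rw [← Finset.mul_sum] at h1
    nlinarith
  | imp φ ψ h1 h2 =>
    have h1 := h1 h
    have h2 := h2 h
    simp only [rename, len]
    nlinarith
  | all φ h1 =>
    have h1 := h1 (ρ := up ρ) (by
      intro i
      cases i with
      | zero => simp [up]
      | succ k =>
        have := h k
        show ρ k + 1 ≤ k + 1 + B
        omega)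
    simp only [rename, len]
    nlinarith

/-- The length of a substitution instance of a fixed formula is bounded linearly in the lengths
of the substituted formulas. -/
theorem len_subst_le [Fintype R] (φ : Fm R ar) :
    ∃ C, ∀ τ : (r : R) → Fm R' ar', len (subst τ φ) ≤ C * (1 + ∑ r, len (τ r)) := by
  induction φ with
  | bot => exact ⟨4, fun τ => by simp only [subst, len]; omega⟩
  | eq i j =>
    refine ⟨(i + 2) + (j + 2) + 4, fun τ => ?_⟩
    simp only [subst, len]
    nlinarith [Nat.zero_le (∑ r, len (τ r))]
  | rel r v =>
    refine ⟨∑ k, v k + 1, fun τ => ?_⟩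
    have h1 : ∀ i, ext v i ≤ i + ∑ k, v k := by
      intro i
      unfold ext
      split_ifs with h
      · have : v ⟨i, h⟩ ≤ ∑ k, v k :=
          Finset.single_le_sum (f := fun k => v k) (fun _ _ => Nat.zero_le _)
            (Finset.mem_univ (⟨i, h⟩ : Fin (ar r)))
        omega
      · omega
    have h2 : len (τ r) ≤ ∑ r, len (τ r) :=
      Finset.single_le_sum (f := fun r => len (τ r)) (fun _ _ => Nat.zero_le _)
        (Finset.mem_univ r)
    calc len (subst τ (rel r v)) ≤ (∑ k, v k + 1) * len (τ r) := len_rename_le h1 _
      _ ≤ (∑ k, v k + 1) * (1 + ∑ r, len (τ r)) := Nat.mul_le_mul_left _ (by omega)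
  | imp φ ψ h1 h2 =>
    obtain ⟨C, hC⟩ := h1
    obtain ⟨D, hD⟩ := h2
    refine ⟨C + D + 4, fun τ => ?_⟩
    have h1 := hC τ
    have h2 := hD τ
    simp only [subst, len]
    nlinarith [Nat.zero_le (∑ r, len (τ r))]
  | all φ h1 =>
    obtain ⟨C, hC⟩ := h1
    refine ⟨C + 4, fun τ => ?_⟩
    have h1 := hC τ
    simp only [subst, len]
    nlinarith [Nat.zero_le (∑ r, len (τ r))]

theorem length_encode (φ : AFm) : (encode φ).length = len φ := by
  have htok : ∀ i, (tok i).length = i + 2 := by
    intro i
    simp [tok]
  induction φ with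
  | bot => rfl
  | eq i j =>
    simp only [encode, len, List.length_append, htok]
    rfl
  | rel r v =>
    have htag : (tag r).length = 4 := by cases r <;> rfl
    simp only [encode, len, List.length_append, htag, List.length_flatMap, List.map_ofFn,
      List.sum_ofFn, Function.comp_apply, htok]
  | imp φ ψ h1 h2 =>
    simp only [encode, len, List.length_append, h1, h2]
    rfl
  | all φ h =>
    simp only [encode, len, List.length_append, h]
    rfl

theorem length_encodeL (l : List AFm) : (encodeL l).length = (l.map len).sum := by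
  simp only [encodeL, List.length_flatMap, length_encode]

end Pool.Agent.Myc
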