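import Pool.Agent.Myc.FamDefs
import Pool.Agent.Myc.SemB
import Pool.Agent.Myc.SynC
import Pool.Agent.Myc.AxB
import Pool.Agent.Myc.SigA

set_option autoImplicit false

namespace Pool.Agent.Myc

open Fm

theorem Uf_fv (k : ℕ) : FVs (fun i => i < 1) (Uf k) := by
  induction k with
  | zero =>
    intro k
    fin_cases k
    show (0 : ℕ) < 1
    omega
  | succ k ih =>
    show FVs (fun i => i < 1) (ex (and (Uf k) (succA 0 1)))
    rw [FVs_ex, FVs_and]
    refine ⟨ih.mono fun i hi => Or.inl (by omega), ?_⟩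
    intro k
    fin_cases k
    · exact Or.inl rfl
    · exact Or.inr ⟨0, rfl, by omega⟩

theorem FamC_len_ex {R : Type} {ar : R → ℕ} (φ : Fm R ar) : len (ex φ) = len φ + 20 := by
  show (len φ + 4 + 4 + 4) + 4 + 4 = len φ + 20
  omega

theorem FamC_len_and {R : Type} {ar : R → ℕ} (φ ψ : Fm R ar) :
    len (and φ ψ) = len φ + len ψ + 20 := by
  show (len φ + (len ψ + 4 + 4) + 4) + 4 + 4 = len φ + len ψ + 20
  omega

theorem len_Uf (k : ℕ) : len (Uf k) ≤ 100 * (k + 1) := by
  induction k with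
  | zero =>
    have h : len (Uf 0) = (∑ k : Fin 1, ((![0] : Fin 1 → ℕ) k + 2)) + 4 := rfl
    rw [h]
    simp
  | succ k ih =>
    have h : len (succA 0 1) = (∑ k : Fin 2, ((![0, 1] : Fin 2 → ℕ) k + 2)) + 4 := rfl
    have h' : len (succA 0 1) = 9 := by rw [h]; simp [Fin.sum_univ_two]
    show len (ex (and (Uf k) (succA 0 1))) ≤ 100 * (k + 1 + 1)
    rw [FamC_len_ex, FamC_len_and, h']
    omega

theorem FamC_sat_zero {M : Type} (S : XStr M) (x : ℕ) (e : ℕ → M) :
    Sat S (emb (zeroA x)) e ↔ zeroR S (e x) := by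
  have h : (fun k => e (ext ![x] ((![0] : Fin 1 → ℕ) k))) = ![e x] := by
    funext k; fin_cases k; rfl
  exact iff_of_eq (congrArg (fun v : Fin 1 → M => S.rel .zero v) h)

theorem FamC_sat_succ {M : Type} (S : XStr M) (x y : ℕ) (e : ℕ → M) :
    Sat S (emb (succA x y)) e ↔ succR S (e x) (e y) := by
  have h : (fun k => e (ext ![x, y] ((![0, 1] : Fin 2 → ℕ) k))) = ![e x, e y] := by
    funext k; fin_cases k <;> rfl
  exact iff_of_eq (congrArg (fun v : Fin 2 → M => S.rel .succ v) h)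

theorem sat_Uf {M : Type} (S : XStr M) (k : ℕ) (x : M) (e : ℕ → M) :
    Sat S (emb (Uf k)) (scons x e) ↔ IsU S k x := by
  induction k generalizing x e with
  | zero => exact FamC_sat_zero S 0 (scons x e)
  | succ k ih =>
    show Sat S (subst embT (ex (and (Uf k) (succA 0 1)))) (scons x e) ↔
      ∃ y, IsU S k y ∧ succR S y x
    rw [subst_ex, subst_and, sat_ex]
    refine exists_congr fun a => ?_
    rw [sat_and]
    exact and_congr (ih a (scons x e)) (FamC_sat_succ S 0 1 (scons a (scons x e)))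

theorem subst_digX {τ : RX → AFm} (hz : τ .add = addA 0 1 2) (hs : τ .succ = succA 0 1)
    (w : List Bool) (φ : XFm) : subst τ (digX w φ) = digF w (subst τ φ) := by
  have ha : subst τ (addX 0 0 1) = addA 0 0 1 := by
    show rename (ext ![0, 0, 1]) (τ .add) = addA 0 0 1
    rw [hz]
    have h : (fun k => ext ![0, 0, 1] ((![0, 1, 2] : Fin 3 → ℕ) k)) = ![0, 0, 1] := by
      funext k; fin_cases k <;> rfl
    exact congrArg (fun v : Fin 3 → ℕ => (rel AR.add v : AFm)) h
  have hb : subst τ (succX 1 2) = succA 1 2 := by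
    show rename (ext ![1, 2]) (τ .succ) = succA 1 2
    rw [hs]
    have h : (fun k => ext ![1, 2] ((![0, 1] : Fin 2 → ℕ) k)) = ![1, 2] := by
      funext k; fin_cases k <;> rfl
    exact congrArg (fun v : Fin 2 → ℕ => (rel AR.succ v : AFm)) h
  induction w generalizing φ with
  | nil => rfl
  | cons b w ih =>
    cases b
    · show subst τ (digX w (ex (and φ (addX 0 0 1)))) = digF w (ex (and (subst τ φ) (addA 0 0 1)))
      rw [ih, subst_ex, subst_and, ha]
    · show subst τ (digX w (ex (ex (and φ (and (addX 0 0 1) (succX 1 2)))))) =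
        digF w (ex (ex (and (subst τ φ) (and (addA 0 0 1) (succA 1 2)))))
      rw [ih, subst_ex, subst_ex, subst_and, subst_and, ha, hb]

theorem FamC_sat_addX {M : Type} (S : XStr M) (x y z : ℕ) (e : ℕ → M) :
    Sat S (addX x y z) e ↔ addR S (e x) (e y) (e z) := by
  have h : (fun k => e ((![x, y, z] : Fin 3 → ℕ) k)) = ![e x, e y, e z] := comp_vec3 e x y z
  exact iff_of_eq (congrArg (fun v : Fin 3 → M => S.rel .add v) h)

theorem FamC_sat_succX {M : Type} (S : XStr M) (x y : ℕ) (e : ℕ → M) :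
    Sat S (succX x y) e ↔ succR S (e x) (e y) := by
  have h : (fun k => e ((![x, y] : Fin 2 → ℕ) k)) = ![e x, e y] := comp_vec2 e x y
  exact iff_of_eq (congrArg (fun v : Fin 2 → M => S.rel .succ v) h)

theorem FamC_fv_add : FVs (fun i => i < 2) (addX 0 0 1) := by
  intro k
  fin_cases k
  · show (0 : ℕ) < 2; omega
  · show (0 : ℕ) < 2; omega
  · show (1 : ℕ) < 2; omega

theorem FamC_fv_add3 : FVs (fun i => i < 3) (addX 0 0 1) :=
  FamC_fv_add.mono fun i hi => by omega

theorem FamC_fv_succ3 : FVs (fun i => i < 3) (succX 1 2) := by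
  intro k
  fin_cases k
  · show (1 : ℕ) < 3; omega
  · show (2 : ℕ) < 3; omega

theorem FamC_fv_ex {R : Type} {ar : R → ℕ} {n : ℕ} {φ : Fm R ar}
    (h : FVs (fun i => i < n + 1) φ) : FVs (fun i => i < n) (ex φ) := by
  rw [FVs_ex]
  refine h.mono fun i hi => ?_
  cases i with
  | zero => exact Or.inl rfl
  | succ i => exact Or.inr ⟨i, rfl, by omega⟩

theorem sat_digX {M : Type} (S : XStr M) (w : List Bool) {φ : XFm}
    (hφ : FVs (fun i => i < 1) φ) (e : ℕ → M) :
    Sat S (digX w φ) e ↔ ∃ t, Sat S φ (fun _ => t) ∧ DG S w t (e 0) := by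
  have key : ∀ {φ : XFm}, FVs (fun i => i < 1) φ → ∀ (f : ℕ → M),
      Sat S φ f ↔ Sat S φ (fun _ => f 0) := by
    intro φ hφ f
    refine sat_congr S hφ fun i hi => ?_
    have : i = 0 := by omega
    rw [this]
  induction w generalizing φ with
  | nil =>
    show Sat S φ e ↔ ∃ t, Sat S φ (fun _ => t) ∧ t = e 0
    constructor
    · intro h
      exact ⟨e 0, (key hφ e).1 h, rfl⟩
    · rintro ⟨t, h, rfl⟩
      exact (key hφ e).2 h
  | cons b w ih =>
    cases b
    · have hψ : FVs (fun i => i < 1) (ex (and φ (addX 0 0 1))) := by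
        refine FamC_fv_ex ?_
        rw [FVs_and]
        exact ⟨hφ.mono fun i hi => by omega, FamC_fv_add⟩
      show Sat S (digX w (ex (and φ (addX 0 0 1)))) e ↔
        ∃ t, Sat S φ (fun _ => t) ∧ ∃ y, addR S t t y ∧ DG S w y (e 0)
      refine Iff.trans (ih hψ) ?_
      constructor
      · rintro ⟨t, h, hd⟩
        rw [sat_ex] at h
        obtain ⟨a, ha⟩ := h
        rw [sat_and, FamC_sat_addX] at ha
        exact ⟨a, (key hφ _).1 ha.1, t, ha.2, hd⟩
      · rintro ⟨t, h, y, h1, hd⟩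
        refine ⟨y, ?_, hd⟩
        rw [sat_ex]
        refine ⟨t, ?_⟩
        rw [sat_and, FamC_sat_addX]
        exact ⟨(key hφ _).2 h, h1⟩
    · have hψ : FVs (fun i => i < 1) (ex (ex (and φ (and (addX 0 0 1) (succX 1 2))))) := by
        refine FamC_fv_ex (FamC_fv_ex ?_)
        rw [FVs_and, FVs_and]
        exact ⟨hφ.mono fun i hi => by omega, FamC_fv_add3, FamC_fv_succ3⟩
      show Sat S (digX w (ex (ex (and φ (and (addX 0 0 1) (succX 1 2)))))) e ↔
        ∃ t, Sat S φ (fun _ => t) ∧ ∃ u y, addR S t t u ∧ succR S u y ∧ DG S w y (e 0)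
      refine Iff.trans (ih hψ) ?_
      constructor
      · rintro ⟨t, h, hd⟩
        rw [sat_ex] at h
        obtain ⟨a, h⟩ := h
        rw [sat_ex] at h
        obtain ⟨b, hb⟩ := h
        rw [sat_and, sat_and, FamC_sat_addX, FamC_sat_succX] at hb
        exact ⟨b, (key hφ _).1 hb.1, a, t, hb.2.1, hb.2.2, hd⟩
      · rintro ⟨t, h, u, y, h1, h2, hd⟩
        refine ⟨y, ?_, hd⟩
        rw [sat_ex]
        refine ⟨u, ?_⟩
        rw [sat_ex]
        refine ⟨t, ?_⟩
        rw [sat_and, sat_and, FamC_sat_addX, FamC_sat_succX]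
        exact ⟨(key hφ _).2 h, h1, h2⟩

end Pool.Agent.Myc
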