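import Pool.Agent.Myc.NatE
import Pool.Agent.Myc.Prv

set_option autoImplicit false
set_option linter.unusedSimpArgs false

namespace Pool.Agent.Myc

open Fm

theorem NatF_line (e : ℕ → ℕ) (x y : ℕ) :
    Sat NN (ap lineF [x, y]) e ↔
      ∃ (φ : AFm) (T : List AFm), φ ∈ T ∧ e x = cd φ ∧ e y = cdL T := by
  rw [sat_ap, sat_lineF]; rfl
theorem NatF_log (e : ℕ → ℕ) (x : ℕ) :
    Sat NN (ap logAxF [x]) e ↔ ∃ φ : AFm, LogAx φ ∧ e x = cd φ := by
  rw [sat_ap, sat_logAxF]; rfl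
theorem NatF_pair (e : ℕ → ℕ) (x y z : ℕ) :
    Sat NN (ap pairF [x, y, z]) e ↔ Nat.pair (e x) (e y) = e z := by
  rw [sat_ap, sat_pairF]; rfl
theorem NatF_num (k : ℕ) (e : ℕ → ℕ) (x : ℕ) :
    Sat NN (ap (num k) [x]) e ↔ e x = k := by
  rw [sat_ap, sat_num]; rfl

/-- The meaning of `justF`, in terms of numbers. -/
def NatF_J (a b d : ℕ) : Prop := ∃ φ : AFm, d = cd φ ∧
  ((∃ T : List AFm, φ ∈ T ∧ a = cdL T) ∨ LogAx φ ∨
    (∃ (α : AFm) (l l' : List AFm), α ∈ l ∧ b = cdL l ∧ imp α φ ∈ l' ∧ b = cdL l') ∨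
    (∃ (α : AFm) (l : List AFm), α ∈ l ∧ b = cdL l ∧ φ = all α))

theorem NatF_just (e : ℕ → ℕ) : Sat NN justF e ↔ NatF_J (e 0) (e 1) (e 2) := by
  unfold justF NatF_J
  rw [sat_and, NatE_form, sat_orL]
  simp only [List.mem_cons, List.not_mem_nil, or_false, exists_eq_or_imp, exists_eq_left]
  simp only [sat_exL_cons, sat_exL_nil, NatE_andL2, NatE_andL3, NatF_line, NatF_log]
  constructor
  · rintro ⟨⟨φ, h2⟩, h⟩
    refine ⟨φ, h2, ?_⟩
    rcases h with ⟨φ', T, h3, h4, h5⟩ | ⟨φ', h3, h4⟩ |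
      ⟨a, b, ⟨α, l, h3, h4, h5⟩, ⟨β, l', h6, h7, h8⟩, h9⟩ | ⟨a, ⟨α, l, h3, h4, h5⟩, h6⟩
    · have : φ' = φ := cd_inj (by rw [← h4, h2])
      subst this
      exact Or.inl ⟨T, h3, h5⟩
    · have : φ' = φ := cd_inj (by rw [← h4, h2])
      subst this
      exact Or.inr (Or.inl h3)
    · rw [NatE_imp (φ := α) (ψ := φ) h4 (by simpa using h2)] at h9
      have : β = imp α φ := cd_inj (by rw [← h7, h9])
      subst this
      exact Or.inr (Or.inr (Or.inl ⟨α, l, l', h3, by simpa using h5, h6, by simpa using h8⟩))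
    · rw [NatE_all (φ := α) h4] at h6
      have : φ = all α := cd_inj (by rw [← h2, ← h6]; simp)
      exact Or.inr (Or.inr (Or.inr ⟨α, l, h3, by simpa using h5, this⟩))
  · rintro ⟨φ, h2, h⟩
    refine ⟨⟨φ, h2⟩, ?_⟩
    rcases h with ⟨T, h3, h4⟩ | h3 | ⟨α, l, l', h3, h4, h5, h6⟩ | ⟨α, l, h3, h4, h5⟩
    · exact Or.inl ⟨φ, T, h3, h2, h4⟩
    · exact Or.inr (Or.inl ⟨φ, h3, h2⟩)
    · refine Or.inr (Or.inr (Or.inl ⟨cd α, cd (imp α φ), ⟨α, l, h3, by simp, by simpa using h4⟩,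
        ⟨imp α φ, l', h5, by simp, by simpa using h6⟩, ?_⟩))
      rw [NatE_imp (φ := α) (ψ := φ) (by simp) (by simpa using h2)]
      simp
    · refine Or.inr (Or.inr (Or.inr ⟨cd α, ⟨α, l, h3, by simp, by simpa using h4⟩, ?_⟩))
      rw [NatE_all (φ := α) (by simp)]
      simp [h2, h5]

theorem NatF_justA (e : ℕ → ℕ) (x y z : ℕ) :
    Sat NN (ap justF [x, y, z]) e ↔ NatF_J (e x) (e y) (e z) := by
  rw [sat_ap, NatF_just]; rfl

theorem NatF_J_iff (T l : List AFm) (d : ℕ) :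
    NatF_J (cdL T) (cdL l.reverse) d ↔ ∃ φ : AFm, d = cd φ ∧ Just {ψ | ψ ∈ T} l φ := by
  constructor
  · rintro ⟨φ, h2, h⟩
    refine ⟨φ, h2, ?_⟩
    rcases h with ⟨T', h3, h4⟩ | h3 | ⟨α, l1, l2, h3, h4, h5, h6⟩ | ⟨α, l1, h3, h4, h5⟩
    · have := cdL_inj h4
      subst this
      exact Just.hyp h3
    · exact Just.logic h3
    · have e1 := cdL_inj h4
      have e2 := cdL_inj h6
      subst e1
      subst e2
      exact Just.mp (List.mem_reverse.1 h3) (List.mem_reverse.1 h5)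
    · have e1 := cdL_inj h4
      subst e1
      subst h5
      exact Just.gen (List.mem_reverse.1 h3)
  · rintro ⟨φ, h2, h⟩
    refine ⟨φ, h2, ?_⟩
    cases h with
    | hyp h => exact Or.inl ⟨T, h, rfl⟩
    | logic h => exact Or.inr (Or.inl h)
    | @mp α _ h3 h4 =>
        exact Or.inr (Or.inr (Or.inl ⟨α, l.reverse, l.reverse, List.mem_reverse.2 h3, rfl,
          List.mem_reverse.2 h4, rfl⟩))
    | @gen α h3 => exact Or.inr (Or.inr (Or.inr ⟨α, l.reverse, List.mem_reverse.2 h3, rfl, rfl⟩))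

theorem sat_justF (e : ℕ → ℕ) (T l : List AFm) (h0 : e 0 = cdL T) (h1 : e 1 = cdL l.reverse) :
    Sat NN justF e ↔ ∃ φ : AFm, e 2 = cd φ ∧ Just {ψ | ψ ∈ T} l φ := by
  rw [NatF_just, h0, h1, NatF_J_iff]

theorem NatF_cdL_snoc (l : List AFm) (φ : AFm) :
    cdL (φ :: l).reverse = codeS (encodeL l.reverse ++ encode φ) := by
  simp [cdL, encodeL]

theorem NatF_lfp (u : ℕ) :
    Lfp (fun u => ∃ a b, Nat.pair a b = u ∧ (∃ T : List AFm, a = cdL T) ∧ b = 1)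
      (fun u y _ => ∃ a b c d, Nat.pair a c = u ∧ Nat.pair a b = y ∧ NatF_J a b d ∧ Cc b d c) u ↔
      ∃ T l : List AFm, u = Nat.pair (cdL T) (cdL l.reverse) ∧ IsProof {ψ | ψ ∈ T} l := by
  constructor
  · intro h
    induction h with
    | base h =>
        obtain ⟨a, b, rfl, ⟨T, rfl⟩, rfl⟩ := h
        exact ⟨T, [], rfl, IsProof.nil⟩
    | step h hy hz ihy ihz =>
        obtain ⟨a, b, c, d, rfl, hab, hJ, hC⟩ := h
        obtain ⟨T, l, hu, hl⟩ := ihy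
        rw [hu] at hab
        obtain ⟨rfl, rfl⟩ := Nat.pair_eq_pair.1 hab
        obtain ⟨φ, rfl, hφ⟩ := (NatF_J_iff T l d).1 hJ
        refine ⟨T, φ :: l, ?_, IsProof.cons hl hφ⟩
        rw [NatF_cdL_snoc, (Cc_codeS _ _ _).1 hC]
  · rintro ⟨T, l, rfl, hl⟩
    induction hl with
    | nil => exact Lfp.base ⟨_, _, rfl, ⟨T, rfl⟩, rfl⟩
    | @cons l φ hl hφ ih =>
        refine Lfp.step (y := Nat.pair (cdL T) (cdL l.reverse))
          (z := Nat.pair (cdL T) (cdL l.reverse))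
          ⟨cdL T, cdL l.reverse, cdL (φ :: l).reverse, cd φ, rfl, rfl,
            (NatF_J_iff T l _).2 ⟨φ, rfl, hφ⟩, ?_⟩ ih ih
        rw [NatF_cdL_snoc]
        exact (Cc_codeS _ _ _).2 rfl

theorem sat_proofF (e : ℕ → ℕ) : Sat NN proofF e ↔ ∃ T l : List AFm,
    e 0 = cdL T ∧ e 1 = cdL l.reverse ∧ IsProof {ψ | ψ ∈ T} l := by
  have hb : ∀ e : ℕ → ℕ, Sat NN
      (exL [10, 11] (andL [ap pairF [10, 11, 0], ap lstF [10], ap (num 1) [11]])) e ↔
      (fun u => ∃ a b, Nat.pair a b = u ∧ (∃ T : List AFm, a = cdL T) ∧ b = 1) (e 0) := by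
    intro e
    simp only [sat_exL_cons, sat_exL_nil, NatE_andL3, NatF_pair, NatE_lst, NatF_num]
    simp
  have hs : ∀ e : ℕ → ℕ, Sat NN
      (exL [10, 11, 12, 13] (andL [ap pairF [10, 12, 0], ap pairF [10, 11, 1],
      ap justF [10, 11, 13], ap concF [11, 13, 12]])) e ↔
      (fun u y _ => ∃ a b c d, Nat.pair a c = u ∧ Nat.pair a b = y ∧ NatF_J a b d ∧ Cc b d c)
        (e 0) (e 1) (e 2) := by
    intro e
    simp only [sat_exL_cons, sat_exL_nil, NatE_andL4, NatF_pair, NatE_conc, NatF_justA]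
    simp
  have hl : ∀ e : ℕ → ℕ, Sat NN (lfpF
      (exL [10, 11] (andL [ap pairF [10, 11, 0], ap lstF [10], ap (num 1) [11]]))
      (exL [10, 11, 12, 13] (andL [ap pairF [10, 12, 0], ap pairF [10, 11, 1],
      ap justF [10, 11, 13], ap concF [11, 13, 12]]))) e ↔
      ∃ T l : List AFm, e 0 = Nat.pair (cdL T) (cdL l.reverse) ∧ IsProof {ψ | ψ ∈ T} l := by
    intro e
    rw [← NatF_lfp]
    exact sat_lfpF hb hs e
  unfold proofF
  simp only [sat_exL_cons, sat_exL_nil, sat_and, NatF_pair]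
  constructor
  · rintro ⟨a, h1, h2⟩
    rw [sat_ap, hl] at h2
    obtain ⟨T, l, h3, h4⟩ := h2
    simp at h1 h3
    rw [h3] at h1
    obtain ⟨h5, h6⟩ := Nat.pair_eq_pair.1 h1
    exact ⟨T, l, h5, h6, h4⟩
  · rintro ⟨T, l, h0, h1, h2⟩
    refine ⟨Nat.pair (cdL T) (cdL l.reverse), by simp [h0, h1], ?_⟩
    rw [sat_ap, hl]
    exact ⟨T, l, by simp, h2⟩

theorem NatF_proof (e : ℕ → ℕ) (x y : ℕ) :
    Sat NN (ap proofF [x, y]) e ↔ ∃ T l : List AFm,
      e x = cdL T ∧ e y = cdL l.reverse ∧ IsProof {ψ | ψ ∈ T} l := by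
  rw [sat_ap, sat_proofF]; rfl
theorem NatF_exp2 (e : ℕ → ℕ) (x y : ℕ) :
    Sat NN (ap exp2F [x, y]) e ↔ e y = 2 ^ (e x) := by
  rw [sat_ap, sat_exp2F]; rfl
theorem NatF_lt (e : ℕ → ℕ) (x y : ℕ) :
    Sat NN (ap ltF [x, y]) e ↔ e x < e y := by
  rw [sat_ap, sat_ltF]; rfl

theorem NatF_size (w : List Bool) (m : ℕ) : codeS w < 2 ^ m + 2 ^ m ↔ w.length ≤ m := by
  have h1 := codeS_lt w
  have h2 := le_codeS w
  have h3 : (2 : ℕ) ^ m + 2 ^ m = 2 ^ (m + 1) := by ring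
  rw [h3]
  constructor
  · intro h
    have h4 : (2 : ℕ) ^ w.length < 2 ^ (m + 1) := lt_of_le_of_lt h2 h
    have := (Nat.pow_lt_pow_iff_right (by norm_num)).1 h4
    omega
  · intro h
    exact lt_of_lt_of_le h1 (Nat.pow_le_pow_right (by norm_num) (by omega))

/-- The provability predicate is correct. -/
theorem sat_provF (e : ℕ → ℕ) : Sat NN provF e ↔ ∃ (T : List AFm) (φ : AFm),
    e 0 = cdL T ∧ e 2 = cd φ ∧ Proves {ψ | ψ ∈ T} (e 1) φ := by
  unfold provF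
  simp only [sat_exL_cons, sat_exL_nil, NatE_andL6, NatF_proof, NatF_justA, NatE_conc, NatF_exp2,
    NatF_lt, sat_addA]
  constructor
  · rintro ⟨a, b, c, d, ⟨T, l, h1, h2, h3⟩, h4, h5, h6, h7, h8⟩
    simp at h1 h2 h4 h5 h6 h7 h8
    subst h2
    rw [h1, NatF_J_iff] at h4
    obtain ⟨φ, h9, h10⟩ := h4
    refine ⟨T, φ, h1, h9, l, IsProof.cons h3 h10, ?_⟩
    rw [h9] at h5
    have h11 := (Cc_codeS _ _ _).1 h5
    rw [← NatF_cdL_snoc] at h11
    rw [← NatF_size]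
    change cdL (φ :: l).reverse < _
    rw [← h11]
    omega
  · rintro ⟨T, φ, h1, h2, l, h3, h4⟩
    cases h3 with
    | cons h3 h5 =>
      refine ⟨cdL l.reverse, cdL (φ :: l).reverse, 2 ^ (e 1), 2 ^ (e 1) + 2 ^ (e 1),
        ⟨T, l, ?_, ?_, h3⟩, ?_, ?_, ?_, ?_, ?_⟩
      · simpa using h1
      · simp
      · simp [h1, h2]
        rw [NatF_J_iff]
        exact ⟨φ, rfl, h5⟩
      · simp [h2]
        have := NatF_cdL_snoc l φ
        simp at this
        rw [this]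
        exact (Cc_codeS _ _ _).2 rfl
      · simp
      · simp
      · simp
        have := (NatF_size _ _).2 h4
        simpa [cdL] using this

theorem sat_Con (T : List AFm) (N : ℕ) (e : ℕ → ℕ) :
    Sat NN (Con T N) e ↔ ¬ Proves {ψ | ψ ∈ T} N bot := by
  unfold Con
  simp only [sat_ex, sat_and, sat_num, sat_neg, sat_ap, sat_provF]
  constructor
  · rintro ⟨a, h1, b, h2, c, h3, h4⟩ h5
    simp [scons] at h1 h2 h3
    subst h1 h2 h3
    apply h4
    exact ⟨T, bot, rfl, rfl, h5⟩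
  · intro h
    refine ⟨N, rfl, codeS (encodeL T), rfl, codeS (encode bot), rfl, ?_⟩
    rintro ⟨T', φ, h1, h2, h3⟩
    have e1 : T = T' := cdL_inj h1
    have e2 : bot = φ := cd_inj h2
    subst e1 e2
    exact h h3

end Pool.Agent.Myc
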