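import Pool.Agent.Myc.StdA
import Pool.Agent.Myc.AxA
import Pool.Agent.Myc.SemB

set_option autoImplicit false

namespace Pool.Agent.Myc

open Fm

/-! ### Free variables of the arithmetical formulas -/

section StdB_fv

variable (P : ℕ → Prop)

private theorem StdB_v1 (x : ℕ) : (∀ k : Fin 1, P ((![x] : Fin 1 → ℕ) k)) ↔ P x := by
  simp
private theorem StdB_v2 (x y : ℕ) : (∀ k : Fin 2, P ((![x, y] : Fin 2 → ℕ) k)) ↔ P x ∧ P y := by
  simp [Fin.forall_fin_succ]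
private theorem StdB_v3 (x y z : ℕ) :
    (∀ k : Fin 3, P ((![x, y, z] : Fin 3 → ℕ) k)) ↔ P x ∧ P y ∧ P z := by
  simp [Fin.forall_fin_succ]

theorem StdB_zeroA (x : ℕ) : FVs P (zeroA x) ↔ P x := StdB_v1 P x
theorem StdB_succA (x y : ℕ) : FVs P (succA x y) ↔ P x ∧ P y := StdB_v2 P x y
theorem StdB_addA (x y z : ℕ) : FVs P (addA x y z) ↔ P x ∧ P y ∧ P z := StdB_v3 P x y z
theorem StdB_mulA (x y z : ℕ) : FVs P (mulA x y z) ↔ P x ∧ P y ∧ P z := StdB_v3 P x y z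
theorem StdB_eqA (x y : ℕ) : FVs P (Fm.eq x y : AFm) ↔ P x ∧ P y := Iff.rfl
theorem StdB_impA (φ ψ : AFm) : FVs P (imp φ ψ) ↔ FVs P φ ∧ FVs P ψ := Iff.rfl
theorem StdB_allA (φ : AFm) :
    FVs P (all φ) ↔ FVs (fun i => i = 0 ∨ ∃ k, i = k + 1 ∧ P k) φ := Iff.rfl

end StdB_fv

/-- Free variables of `ap φ v`, as a conditional rewriting rule. -/
theorem StdB_ap {n : ℕ} {φ : AFm} (h : FVs (fun i => i < n) φ) (P : ℕ → Prop) (v : List ℕ)
    (hv : v.length = n) (hP : ∀ i ∈ v, P i) : FVs P (ap φ v) ↔ True :=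
  iff_true_intro (FVs_ap h P v hv hP)

theorem StdB_num (k : ℕ) (P : ℕ → Prop) (v : List ℕ) (hv : v.length = 1) (hP : ∀ i ∈ v, P i) :
    FVs P (ap (num k) v) ↔ True := StdB_ap (FVs_num k) P v hv hP

theorem StdB_ltF : FVs (fun i => i < 2) ltF := by
  simp [ltF, FVs_exL, FVs_and, StdB_addA, StdB_succA]
theorem StdB_leF : FVs (fun i => i < 2) leF := by
  simp [leF, FVs_exL, StdB_addA]
theorem StdB_pairF : FVs (fun i => i < 3) pairF := by
  simp [pairF, FVs_exL, FVs_and, FVs_or, FVs_andL, StdB_addA, StdB_mulA, StdB_ap StdB_ltF,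
    StdB_ap StdB_leF]
theorem StdB_remF : FVs (fun i => i < 3) remF := by
  simp [remF, FVs_exL, FVs_andL, StdB_addA, StdB_mulA, StdB_ap StdB_ltF]
theorem StdB_betaF : FVs (fun i => i < 3) betaF := by
  simp [betaF, FVs_exL, FVs_andL, StdB_succA, StdB_mulA, StdB_ap StdB_pairF, StdB_ap StdB_remF]
theorem StdB_lfpF {base st : AFm} (hb : FVs (fun i => i < 1) base)
    (hs : FVs (fun i => i < 3) st) : FVs (fun i => i < 1) (lfpF base st) := by
  simp [lfpF, FVs_exL, FVs_and, FVs_or, FVs_andL, FVs_alN, StdB_impA, StdB_ap StdB_betaF,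
    StdB_ap StdB_leF, StdB_ap StdB_ltF, StdB_ap hb, StdB_ap hs]
theorem StdB_pow2F : FVs (fun i => i < 1) pow2F := by
  simp [pow2F, FVs_exL, FVs_or, FVs_alN, StdB_impA, StdB_mulA, StdB_addA, StdB_num]
theorem StdB_concF : FVs (fun i => i < 3) concF := by
  simp [concF, FVs_exL, FVs_andL, StdB_ap StdB_pow2F, StdB_ap StdB_leF, StdB_ap StdB_ltF,
    StdB_addA, StdB_mulA]
theorem StdB_tagF (k : ℕ) : FVs (fun i => i < 2) (tagF k) := by
  simp [tagF, FVs_exL, FVs_and, StdB_num, StdB_ap StdB_concF]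
theorem StdB_varF : FVs (fun i => i < 1) varF := by
  simp [varF, FVs_exL, FVs_andL, StdB_num, StdB_ap StdB_pow2F, StdB_succA, StdB_ap StdB_leF]
theorem StdB_nextF : FVs (fun i => i < 2) nextF := by
  simp [nextF, FVs_exL, FVs_andL, StdB_addA, StdB_succA]
theorem StdB_vaddF : FVs (fun i => i < 3) vaddF := by
  simp [vaddF, FVs_exL, FVs_andL, StdB_mulA, StdB_succA, StdB_num]
theorem StdB_vmapF : FVs (fun i => i < 4) vmapF := by
  simp [vmapF, FVs_and, FVs_andL, FVs_orL, FVs_neg, StdB_eqA, StdB_zeroA, StdB_ap StdB_ltF,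
    StdB_ap StdB_leF, StdB_ap StdB_nextF, StdB_ap StdB_vaddF]
theorem StdB_eqC : FVs (fun i => i < 3) eqC := by
  simp [eqC, FVs_exL, FVs_and, StdB_ap StdB_concF, StdB_ap (StdB_tagF _)]
theorem StdB_zeroC : FVs (fun i => i < 2) zeroC := by
  simp [zeroC, StdB_ap (StdB_tagF _)]
theorem StdB_succC : FVs (fun i => i < 3) succC := by
  simp [succC, FVs_exL, FVs_and, StdB_ap StdB_concF, StdB_ap (StdB_tagF _)]
theorem StdB_addC : FVs (fun i => i < 4) addC := by
  simp [addC, FVs_exL, FVs_andL, StdB_ap StdB_concF, StdB_ap (StdB_tagF _)]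
theorem StdB_mulC : FVs (fun i => i < 4) mulC := by
  simp [mulC, FVs_exL, FVs_andL, StdB_ap StdB_concF, StdB_ap (StdB_tagF _)]
theorem StdB_impC : FVs (fun i => i < 3) impC := by
  simp [impC, FVs_exL, FVs_and, StdB_ap StdB_concF, StdB_ap (StdB_tagF _)]
theorem StdB_allC : FVs (fun i => i < 2) allC := by
  simp [allC, StdB_ap (StdB_tagF _)]
theorem StdB_negC : FVs (fun i => i < 2) negC := by
  simp [negC, FVs_exL, FVs_and, StdB_num, StdB_ap StdB_impC]
theorem StdB_quadF : FVs (fun i => i < 5) quadF := by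
  simp [quadF, FVs_exL, FVs_andL, StdB_ap StdB_pairF]
theorem StdB_renBase : FVs (fun i => i < 1) renBase := by
  simp [renBase, FVs_exL, FVs_andL, FVs_orL, FVs_or, FVs_and, StdB_zeroA, StdB_num,
    StdB_ap StdB_quadF, StdB_ap StdB_varF, StdB_ap StdB_vmapF, StdB_ap StdB_eqC,
    StdB_ap StdB_zeroC, StdB_ap StdB_succC, StdB_ap StdB_addC, StdB_ap StdB_mulC]
theorem StdB_renStep : FVs (fun i => i < 3) renStep := by
  simp [renStep, FVs_exL, FVs_andL, FVs_or, FVs_and, StdB_ap StdB_quadF, StdB_ap StdB_impC,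
    StdB_ap StdB_nextF, StdB_ap StdB_allC]
theorem StdB_renF : FVs (fun i => i < 4) renF := by
  simp [renF, FVs_exL, FVs_andL, StdB_ap StdB_varF, StdB_ap StdB_quadF,
    StdB_ap (StdB_lfpF StdB_renBase StdB_renStep)]
theorem StdB_liftF : FVs (fun i => i < 2) liftF := by
  simp [liftF, FVs_exL, FVs_andL, StdB_zeroA, StdB_num, StdB_ap StdB_renF]
theorem StdB_instF : FVs (fun i => i < 3) instF := by
  simp [instF, FVs_exL, FVs_andL, StdB_ap StdB_varF, StdB_num, StdB_ap StdB_renF]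
theorem StdB_formF : FVs (fun i => i < 1) formF := by
  simp [formF, FVs_exL, StdB_ap StdB_liftF]
theorem StdB_logAxF : FVs (fun i => i < 1) logAxF := by
  simp [logAxF, FVs_exL, FVs_andL, FVs_orL, StdB_ap StdB_formF, StdB_ap StdB_impC,
    StdB_ap StdB_negC, StdB_ap StdB_instF, StdB_ap StdB_allC, StdB_ap StdB_liftF,
    StdB_ap StdB_varF, StdB_ap StdB_eqC]
theorem StdB_lstF : FVs (fun i => i < 1) lstF := by
  refine StdB_lfpF (FVs_num 1) ?_
  simp [FVs_exL, FVs_andL, StdB_ap StdB_formF, StdB_ap StdB_concF]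
theorem StdB_lineF : FVs (fun i => i < 2) lineF := by
  simp [lineF, FVs_exL, FVs_andL, StdB_ap StdB_formF, StdB_ap StdB_lstF, StdB_ap StdB_concF]
theorem StdB_justF : FVs (fun i => i < 3) justF := by
  simp [justF, FVs_exL, FVs_and, FVs_andL, FVs_orL, StdB_ap StdB_formF, StdB_ap StdB_lineF,
    StdB_ap StdB_logAxF, StdB_ap StdB_impC, StdB_ap StdB_allC]
theorem StdB_proofF : FVs (fun i => i < 2) proofF := by
  have hb : FVs (fun i => i < 1)
      (exL [10, 11] (andL [ap pairF [10, 11, 0], ap lstF [10], ap (num 1) [11]])) := by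
    simp [FVs_exL, FVs_andL, StdB_ap StdB_pairF, StdB_ap StdB_lstF, StdB_num]
  have hs : FVs (fun i => i < 3)
      (exL [10, 11, 12, 13] (andL [ap pairF [10, 12, 0], ap pairF [10, 11, 1],
      ap justF [10, 11, 13], ap concF [11, 13, 12]])) := by
    simp [FVs_exL, FVs_andL, StdB_ap StdB_pairF, StdB_ap StdB_justF, StdB_ap StdB_concF]
  simp [proofF, FVs_exL, FVs_and, StdB_ap StdB_pairF, StdB_ap (StdB_lfpF hb hs)]
theorem StdB_exp2F : FVs (fun i => i < 2) exp2F := by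
  have hb : FVs (fun i => i < 1)
      (exL [10, 11] (andL [ap pairF [10, 11, 0], zeroA 10, ap (num 1) [11]])) := by
    simp [FVs_exL, FVs_andL, StdB_ap StdB_pairF, StdB_zeroA, StdB_num]
  have hs : FVs (fun i => i < 3)
      (exL [10, 11, 12, 13] (andL [ap pairF [12, 13, 0], ap pairF [10, 11, 1],
      succA 10 12, addA 11 11 13])) := by
    simp [FVs_exL, FVs_andL, StdB_ap StdB_pairF, StdB_succA, StdB_addA]
  simp [exp2F, FVs_exL, FVs_and, StdB_ap StdB_pairF, StdB_ap (StdB_lfpF hb hs)]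
theorem StdB_provF : FVs (fun i => i < 3) provF := by
  simp [provF, FVs_exL, FVs_andL, StdB_ap StdB_proofF, StdB_ap StdB_justF, StdB_ap StdB_concF,
    StdB_ap StdB_exp2F, StdB_addA, StdB_ap StdB_ltF]

theorem StdB_vlB : FVs (fun i => i < 1) vlB := by
  simp [vlB, FVs_exL, FVs_andL, StdB_ap StdB_pairF, StdB_num]
theorem StdB_vlSt : FVs (fun i => i < 3) vlSt := by
  simp [vlSt, FVs_exL, FVs_andL, StdB_ap StdB_pairF, StdB_ap StdB_nextF]
theorem StdB_vlF : FVs (fun i => i < 3) vlF := by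
  simp [vlF, FVs_exL, FVs_andL, StdB_ap StdB_pairF, StdB_ap (StdB_lfpF StdB_vlB StdB_vlSt)]
theorem StdB_t0F : FVs (fun i => i < 2) t0F := by
  simp [t0F, FVs_exL, FVs_andL, FVs_orL, StdB_ap StdB_varF, StdB_ap StdB_eqC,
    StdB_ap StdB_vlF, StdB_ap StdB_zeroC, StdB_ap StdB_succC, StdB_ap StdB_addC,
    StdB_ap StdB_mulC, StdB_zeroA, StdB_succA, StdB_addA, StdB_mulA]
theorem StdB_atsF : FVs (fun i => i < 1) atsF := by
  simp [atsF, FVs_exL, FVs_andL, FVs_orL, StdB_ap StdB_varF, StdB_ap StdB_eqC,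
    StdB_ap StdB_zeroC, StdB_ap StdB_succC, StdB_ap StdB_addC, StdB_ap StdB_mulC]
  exact (FVs_num 16).mono (fun i hi => by simpa using hi)
theorem StdB_imF : FVs (fun i => i < 3) imF := by
  simp [imF, FVs_andL, StdB_ap StdB_formF, StdB_ap StdB_impC]
theorem StdB_alF : FVs (fun i => i < 2) alF := by
  simp [alF, FVs_andL, StdB_ap StdB_formF, StdB_ap StdB_allC]
theorem StdB_dpF : FVs (fun i => i < 2) dpF := by
  have hb : FVs (fun i => i < 1)
      (exL [10, 11, 12] (andL [ap pairF [10, 11, 0], ap atsF [11], succA 12 10])) := by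
    simp [FVs_exL, FVs_andL, StdB_ap StdB_pairF, StdB_ap StdB_atsF, StdB_succA]
  have hs : FVs (fun i => i < 3)
      (exL [10, 11, 12, 13, 14] (andL [ap pairF [10, 11, 0], succA 12 10, ap pairF [12, 13, 1],
      or (and (ap pairF [12, 14, 2]) (ap imF [11, 13, 14])) (ap alF [11, 13])])) := by
    simp [FVs_exL, FVs_andL, FVs_and, FVs_or, StdB_ap StdB_pairF, StdB_succA, StdB_ap StdB_imF,
      StdB_ap StdB_alF]
  simp [dpF, FVs_exL, FVs_and, StdB_ap StdB_pairF, StdB_ap (StdB_lfpF hb hs)]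
theorem StdB_rnF : FVs (fun i => i < 3) rnF := by
  simp [rnF, FVs_exL, FVs_andL, StdB_ap StdB_pairF, StdB_ap StdB_renF]
theorem StdB_rlF : FVs (fun i => i < 3) rlF := by
  simp [rlF, FVs_exL, FVs_andL, FVs_or, FVs_and, FVs_alN, FVs_iff, StdB_impA, StdB_zeroA,
    StdB_ap StdB_pairF, StdB_ap StdB_varF, StdB_ap StdB_vmapF, StdB_ap StdB_vlF]
theorem StdB_upF : FVs (fun i => i < 2) upF := by
  simp [upF, FVs_exL, FVs_andL, FVs_or, StdB_zeroA, StdB_ap StdB_pairF, StdB_ap StdB_varF,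
    StdB_ap StdB_nextF]
theorem StdB_pfF : FVs (fun i => i < 4) pfF := by
  have hb : FVs (fun i => i < 1)
      (exL [10, 11, 12, 13, 14] (andL [ap quadF [10, 11, 12, 13, 0], ap lstF [10],
      ap dpF [11, 13], succA 14 12, or (ap lineF [13, 10]) (ap logAxF [13])])) := by
    simp [FVs_exL, FVs_andL, FVs_or, StdB_ap StdB_quadF, StdB_ap StdB_lstF, StdB_ap StdB_dpF,
      StdB_succA, StdB_ap StdB_lineF, StdB_ap StdB_logAxF]
  have hs : FVs (fun i => i < 3)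
      (exL [10, 11, 12, 13, 14, 15, 16] (andL [ap quadF [10, 11, 12, 13, 0], ap dpF [11, 13],
      succA 14 12, ap quadF [10, 11, 14, 15, 1], ap quadF [10, 11, 14, 16, 2],
      orL [ap imF [16, 15, 13], ap alF [13, 15], eq 13 15]])) := by
    simp [FVs_exL, FVs_andL, FVs_orL, StdB_ap StdB_quadF, StdB_ap StdB_dpF, StdB_succA,
      StdB_ap StdB_imF, StdB_ap StdB_alF, StdB_eqA]
  simp [pfF, FVs_exL, FVs_and, StdB_ap StdB_quadF, StdB_ap (StdB_lfpF hb hs)]
theorem StdB_nuF : FVs (fun i => i < 2) nuF := by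
  have hb : FVs (fun i => i < 1)
      (exL [10, 11] (andL [ap pairF [10, 11, 0], ap (num 0) [10],
      ap (num (codeS (encode (num 0)))) [11]])) := by
    simp [FVs_exL, FVs_andL, StdB_ap StdB_pairF, StdB_num]
  have hs : FVs (fun i => i < 3)
      (exL [10, 11, 12, 13, 14, 15] (andL [ap pairF [10, 11, 0], ap pairF [12, 13, 1],
      or (andL [neg (zeroA 12), addA 12 12 10, ap (num (codeS suf0)) [14], ap concF [13, 14, 11]])
        (andL [addA 12 12 15, succA 15 10, ap (num (codeS suf1)) [14],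
          ap concF [13, 14, 11]])])) := by
    simp [FVs_exL, FVs_andL, FVs_or, FVs_neg, StdB_ap StdB_pairF, StdB_num, StdB_zeroA,
      StdB_addA, StdB_succA, StdB_ap StdB_concF]
  simp [nuF, FVs_exL, FVs_and, StdB_ap StdB_pairF, StdB_ap (StdB_lfpF hb hs)]
theorem StdB_szF (sC : ℕ) : FVs (fun i => i < 2) (szF sC) := by
  simp [szF, FVs_exL, FVs_andL, StdB_ap StdB_exp2F, StdB_ap StdB_leF, StdB_addA,
    StdB_ap StdB_ltF, StdB_num, StdB_succA, StdB_mulA]
theorem StdB_clF : FVs (fun i => i < 3) clF := by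
  simp [clF, FVs_exL, FVs_andL, StdB_ap StdB_lstF, StdB_ap StdB_nuF, StdB_ap StdB_concF,
    StdB_num]

theorem xi_good (sC : ℕ) {V G H K : AFm} (hV : FVs (fun i => i < 3) V)
    (hG : FVs (fun i => i < 1) G) (hH : FVs (fun i => i < 1) H) (hK : FVs (fun i => i < 1) K) :
    Good arX (xi sC V G H K) := by
  intro r
  cases r
  · exact (StdB_zeroA _ 0).2 (by decide)
  · exact (StdB_succA _ 0 1).2 (by decide)
  · exact (StdB_addA _ 0 1 2).2 (by decide)
  · exact (StdB_mulA _ 0 1 2).2 (by decide)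
  · exact StdB_pairF
  · exact StdB_vlF
  · exact StdB_t0F
  · exact StdB_atsF
  · exact StdB_imF
  · exact StdB_alF
  · exact StdB_dpF
  · exact StdB_rnF
  · exact StdB_rlF
  · exact StdB_upF
  · exact StdB_pfF
  · exact StdB_lineF
  · exact StdB_formF
  · exact StdB_varF
  · exact StdB_concF
  · exact StdB_provF
  · exact StdB_nuF
  · exact StdB_szF sC
  · exact StdB_exp2F
  · exact StdB_clF
  · exact StdB_lstF
  · exact hV
  · exact hG
  · exact hH
  · exact hK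

theorem sat_subst_xi (sC : ℕ) (φ : XFm) (e : ℕ → ℕ) :
    Sat NN (subst (xi sC bot bot bot bot) φ) e ↔ Sat (SN sC) φ e := by
  have hg : Good arX (xi sC bot bot bot bot) := xi_good sC trivial trivial trivial trivial
  rw [sat_subst NN 0 hg]
  have hS : pull arX NN 0 (xi sC bot bot bot bot) = SN sC := by
    have : (pull arX NN 0 (xi sC bot bot bot bot)).rel = (SN sC).rel := by
      funext r v
      apply propext
      refine (sat_xi sC r _).trans ?_
      have hv : (fun k : Fin (arX r) =>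
          (fun i : ℕ => if h : i < arX r then v ⟨i, h⟩ else 0) (k : ℕ)) = v := by
        funext k
        simp
      rw [hv]
    cases hS' : SN sC
    cases hP : pull arX NN 0 (xi sC bot bot bot bot)
    rw [hS', hP] at this
    congr
  rw [hS]

theorem subst_xi_emb (sC : ℕ) (V G H K : AFm) (φ : AFm) :
    subst (xi sC V G H K) (emb φ) = φ := by
  induction φ with
  | bot => rfl
  | eq i j => rfl
  | rel r v =>
    cases r
    · refine congrArg (fun w => Fm.rel AR.zero w) ?_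
      funext k
      fin_cases k
      rfl
    · refine congrArg (fun w => Fm.rel AR.succ w) ?_
      funext k
      fin_cases k <;> rfl
    · refine congrArg (fun w => Fm.rel AR.add w) ?_
      funext k
      fin_cases k <;> rfl
    · refine congrArg (fun w => Fm.rel AR.mul w) ?_
      funext k
      fin_cases k <;> rfl
  | imp φ ψ h1 h2 => exact congrArg₂ Fm.imp h1 h2
  | all φ h => exact congrArg Fm.all h

/-! ### The axioms do not contain `F, G, H, K` -/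

/-- The symbols other than `F, G, H, K`. -/
def StdB_okR : RX → Prop
  | .F => False
  | .G => False
  | .H => False
  | .K => False
  | _ => True

/-- No occurrence of `F, G, H, K`. -/
def StdB_ok : XFm → Prop
  | bot => True
  | eq _ _ => True
  | rel r _ => StdB_okR r
  | imp φ ψ => StdB_ok φ ∧ StdB_ok ψ
  | all φ => StdB_ok φ

theorem StdB_ok_subst (sC : ℕ) (V G H K V' G' H' K' : AFm) (φ : XFm) (h : StdB_ok φ) :
    subst (xi sC V G H K) φ = subst (xi sC V' G' H' K') φ := by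
  induction φ with
  | bot => rfl
  | eq i j => rfl
  | rel r v =>
    cases r <;> first | rfl | exact absurd h id
  | imp φ ψ h1 h2 => exact congrArg₂ Fm.imp (h1 h.1) (h2 h.2)
  | all φ ih => exact congrArg Fm.all (ih h)

theorem StdB_ok_rename (ρ : ℕ → ℕ) (φ : XFm) : StdB_ok (rename ρ φ) ↔ StdB_ok φ := by
  induction φ generalizing ρ with
  | bot => rfl
  | eq i j => rfl
  | rel r v => rfl
  | imp φ ψ h1 h2 => exact and_congr (h1 ρ) (h2 ρ)
  | all φ ih => exact ih _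

theorem StdB_ok_imp (φ ψ : XFm) : StdB_ok (imp φ ψ) ↔ StdB_ok φ ∧ StdB_ok ψ := Iff.rfl
theorem StdB_ok_neg (φ : XFm) : StdB_ok (neg φ) ↔ StdB_ok φ := and_iff_left trivial
theorem StdB_ok_or (φ ψ : XFm) : StdB_ok (or φ ψ) ↔ StdB_ok φ ∧ StdB_ok ψ := by
  rw [Fm.or, StdB_ok_imp, StdB_ok_neg]
theorem StdB_ok_and (φ ψ : XFm) : StdB_ok (and φ ψ) ↔ StdB_ok φ ∧ StdB_ok ψ := by
  rw [Fm.and, StdB_ok_neg, StdB_ok_imp, StdB_ok_neg]
theorem StdB_ok_iff (φ ψ : XFm) : StdB_ok (iff φ ψ) ↔ StdB_ok φ ∧ StdB_ok ψ := by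
  rw [Fm.iff, StdB_ok_and, StdB_ok_imp, StdB_ok_imp]
  tauto
theorem StdB_ok_alN (x : ℕ) (φ : XFm) : StdB_ok (alN x φ) ↔ StdB_ok φ :=
  StdB_ok_rename _ φ
theorem StdB_ok_exN (x : ℕ) (φ : XFm) : StdB_ok (exN x φ) ↔ StdB_ok φ := by
  rw [Fm.exN, StdB_ok_neg, StdB_ok_alN, StdB_ok_neg]
theorem StdB_ok_exL (l : List ℕ) (φ : XFm) : StdB_ok (exL l φ) ↔ StdB_ok φ := by
  induction l with
  | nil => rfl
  | cons x l ih => rw [Fm.exL, StdB_ok_exN, ih]
theorem StdB_ok_alL (l : List ℕ) (φ : XFm) : StdB_ok (alL l φ) ↔ StdB_ok φ := by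
  induction l with
  | nil => rfl
  | cons x l ih => rw [alL, StdB_ok_alN, ih]
theorem StdB_ok_ap (φ : XFm) (v : List ℕ) : StdB_ok (ap φ v) ↔ StdB_ok φ := StdB_ok_rename _ φ
theorem StdB_ok_andL (l : List XFm) : StdB_ok (andL l) ↔ ∀ φ ∈ l, StdB_ok φ := by
  induction l with
  | nil => simp [Fm.andL, StdB_ok_neg, StdB_ok]
  | cons φ l ih =>
    cases l with
    | nil => simp [Fm.andL]
    | cons ψ l => rw [Fm.andL, StdB_ok_and, ih]; simp only [List.forall_mem_cons]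
theorem StdB_ok_orL (l : List XFm) : StdB_ok (orL l) ↔ ∀ φ ∈ l, StdB_ok φ := by
  induction l with
  | nil => simp [Fm.orL, StdB_ok]
  | cons φ l ih =>
    cases l with
    | nil => simp [Fm.orL]
    | cons ψ l => rw [Fm.orL, StdB_ok_or, ih]; simp only [List.forall_mem_cons]
theorem StdB_ok_alls (k : ℕ) (φ : XFm) : StdB_ok (alls k φ) ↔ StdB_ok φ := by
  induction k with
  | zero => rfl
  | succ k ih => exact ih

theorem StdB_ok_emb (φ : AFm) : StdB_ok (emb φ) := by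
  induction φ with
  | bot => trivial
  | eq i j => trivial
  | rel r v => cases r <;> trivial
  | imp φ ψ h1 h2 => exact ⟨h1, h2⟩
  | all φ h => exact h

theorem StdB_ok_isNX (k x : ℕ) : StdB_ok (isNX k x) := (StdB_ok_ap _ _).2 (StdB_ok_emb _)

theorem StdB_ok_rels :
    (∀ x, StdB_ok (zeroX x)) ∧ (∀ x y, StdB_ok (succX x y)) ∧ (∀ x y z, StdB_ok (addX x y z)) ∧
    (∀ x y z, StdB_ok (mulX x y z)) ∧ (∀ x y z, StdB_ok (prX x y z)) ∧
    (∀ x y z, StdB_ok (vlX x y z)) ∧ (∀ x y, StdB_ok (t0X x y)) ∧ (∀ x, StdB_ok (atsX x)) ∧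
    (∀ x y z, StdB_ok (imX x y z)) ∧ (∀ x y, StdB_ok (alX x y)) ∧ (∀ x y, StdB_ok (dpX x y)) ∧
    (∀ x y z, StdB_ok (rnX x y z)) ∧ (∀ x y z, StdB_ok (rlX x y z)) ∧
    (∀ x y, StdB_ok (upX x y)) ∧ (∀ x y z w, StdB_ok (pfX x y z w)) ∧
    (∀ x y, StdB_ok (memX x y)) ∧ (∀ x, StdB_ok (formX x)) ∧ (∀ x, StdB_ok (tkX x)) ∧
    (∀ x y z, StdB_ok (concX x y z)) ∧ (∀ x y z, StdB_ok (ppX x y z)) ∧
    (∀ x y, StdB_ok (nuX x y)) ∧ (∀ x y, StdB_ok (szX x y)) ∧ (∀ x y, StdB_ok (e2X x y)) ∧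
    (∀ x y z, StdB_ok (clX x y z)) ∧ (∀ x, StdB_ok (lstX x)) ∧
    (∀ x y, StdB_ok (Fm.eq x y : XFm)) := by
  refine ⟨?_, ?_, ?_, ?_, ?_, ?_, ?_, ?_, ?_, ?_, ?_, ?_, ?_, ?_, ?_, ?_, ?_, ?_, ?_, ?_, ?_, ?_,
    ?_, ?_, ?_, ?_⟩ <;> intros <;> trivial

theorem StdB_ok_dgX (w : List Bool) : StdB_ok (dgX w) := by
  induction w with
  | nil => trivial
  | cons b w ih =>
    cases b <;> simp [dgX, StdB_ok_exL, StdB_ok_and, StdB_ok_andL, StdB_ok_ap, ih, StdB_ok_rels]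

theorem StdB_ok_isUX (k : ℕ) : StdB_ok (isUX k) := by
  induction k with
  | zero => trivial
  | succ k ih => simp [isUX, StdB_ok_exL, StdB_ok_and, StdB_ok_ap, ih, StdB_ok_rels]

theorem StdB_ok_pwX (c : ℕ) : StdB_ok (pwX c) := by
  induction c with
  | zero => exact StdB_ok_isNX _ _
  | succ k ih => simp [pwX, StdB_ok_exL, StdB_ok_and, StdB_ok_ap, ih, StdB_ok_rels]

theorem StdB_ok_lxX : StdB_ok lxX := by
  simp [lxX, StdB_ok_exL, StdB_ok_alN, StdB_ok_and, StdB_ok_andL, StdB_ok_orL, StdB_ok_neg,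
    StdB_ok_imp, StdB_ok_rels]

theorem StdB_ok_axs (cE a0 sC : ℕ) : ∀ p ∈ axs cE a0 sC, StdB_ok p.2 := by
  simp only [axs, List.forall_mem_cons, List.not_mem_nil, false_imp_iff, implies_true, and_true]
  refine ⟨?_, ?_, ?_, ?_, ?_, ?_, ?_, ?_, ?_, ?_, ?_, ?_, ?_, ?_, ?_, ?_, ?_, ?_, ?_, ?_, ?_, ?_,
    ?_, ?_, ?_, ?_, ?_, ?_, ?_, ?_, ?_, ?_, ?_, ?_, ?_, ?_, ?_, ?_, ?_, ?_, ?_, ?_, ?_, ?_,
    ?_, ?_, ?_, ?_, ?_, ?_, ?_, ?_⟩ <;>
  simp [StdB_ok_exL, StdB_ok_andL, StdB_ok_orL, StdB_ok_and, StdB_ok_or, StdB_ok_neg,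
    StdB_ok_iff, StdB_ok_alN, StdB_ok_alL, StdB_ok_imp, StdB_ok_ap, StdB_ok_rels, StdB_ok_isNX,
    StdB_ok_dgX, StdB_ok_isUX, StdB_ok_pwX, StdB_ok_lxX]

theorem StdB_ok_SigX (cE a0 sC : ℕ) : ∀ φ ∈ SigX cE a0 sC, StdB_ok φ := by
  intro φ hφ
  rw [SigX, List.mem_append, List.mem_map, List.mem_map] at hφ
  rcases hφ with ⟨ψ, _, rfl⟩ | ⟨p, hp, rfl⟩
  · exact StdB_ok_emb ψ
  · exact (StdB_ok_alls _ _).2 (StdB_ok_axs cE a0 sC p hp)

/-- The axioms do not contain `F, G, H, K`. -/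
theorem subst_xi_SigX (sC cE a0 : ℕ) (V G H K : AFm) (φ : XFm) (h : φ ∈ SigX cE a0 sC) :
    subst (xi sC V G H K) φ = subst (xi sC bot bot bot bot) φ :=
  StdB_ok_subst sC V G H K bot bot bot bot φ (StdB_ok_SigX cE a0 sC φ h)

end Pool.Agent.Myc
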