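import Pool.Agent.Myc.AxDefs
import Pool.Agent.Myc.CodeDefs
import Pool.Agent.Myc.SemB
import Pool.Agent.Myc.SigA

set_option autoImplicit false

/-!
# Models of the auxiliary theory: numerals, strings, codes
-/

namespace Pool.Agent.Myc

open Fm

variable {M : Type} {S : XStr M} {cE a0 sC : ℕ}

/-! ### Robinson arithmetic -/

/-- The facts expressed by `Q`. -/
structure QM (S : XStr M) : Prop where
  zero_ex : ∃ x, zeroR S x
  zero_un : ∀ x y, zeroR S x → zeroR S y → x = y
  succ_tot : ∀ x, ∃ y, succR S x y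
  succ_un : ∀ x y z, succR S x y → succR S x z → y = z
  add_tot : ∀ x y, ∃ z, addR S x y z
  add_un : ∀ x y z w, addR S x y z → addR S x y w → z = w
  mul_tot : ∀ x y, ∃ z, mulR S x y z
  mul_un : ∀ x y z w, mulR S x y z → mulR S x y w → z = w
  succ_ne : ∀ x y, succR S x y → ¬ zeroR S y
  succ_inj : ∀ x y z, succR S x z → succR S y z → x = y
  cases : ∀ x, zeroR S x ∨ ∃ y, succR S y x
  add_zero : ∀ x y, zeroR S y → addR S x y x
  add_succ : ∀ x y y' z z', succR S y y' → addR S x y z → succR S z z' → addR S x y' z'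
  mul_zero : ∀ x y, zeroR S y → mulR S x y y
  mul_succ : ∀ x y y' z w, succR S y y' → mulR S x y z → addR S z x w → mulR S x y' w

theorem intA_zero (x : ℕ) (e : ℕ → M) : Sat S (emb (zeroA x)) e ↔ zeroR S (e x) := by
  have h : (fun k => (fun i => e (ext ![x] i)) ((![0] : Fin 1 → ℕ) k)) = ![e x] := by
    funext k; fin_cases k; rfl
  unfold emb zeroA subst
  rw [sat_rename]
  change S.rel .zero _ ↔ S.rel .zero _
  exact iff_of_eq (congrArg _ h)

theorem intA_succ (x y : ℕ) (e : ℕ → M) : Sat S (emb (succA x y)) e ↔ succR S (e x) (e y) := by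
  have h : (fun k => (fun i => e (ext ![x, y] i)) ((![0, 1] : Fin 2 → ℕ) k)) = ![e x, e y] := by
    funext k; fin_cases k <;> rfl
  unfold emb succA subst
  rw [sat_rename]
  change S.rel .succ _ ↔ S.rel .succ _
  exact iff_of_eq (congrArg _ h)

theorem intA_add (x y z : ℕ) (e : ℕ → M) :
    Sat S (emb (addA x y z)) e ↔ addR S (e x) (e y) (e z) := by
  have h : (fun k => (fun i => e (ext ![x, y, z] i)) ((![0, 1, 2] : Fin 3 → ℕ) k)) =
      ![e x, e y, e z] := by
    funext k; fin_cases k <;> rfl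
  unfold emb addA subst
  rw [sat_rename]
  change S.rel .add _ ↔ S.rel .add _
  exact iff_of_eq (congrArg _ h)

theorem intA_mul (x y z : ℕ) (e : ℕ → M) :
    Sat S (emb (mulA x y z)) e ↔ mulR S (e x) (e y) (e z) := by
  have h : (fun k => (fun i => e (ext ![x, y, z] i)) ((![0, 1, 2] : Fin 3 → ℕ) k)) =
      ![e x, e y, e z] := by
    funext k; fin_cases k <;> rfl
  unfold emb mulA subst
  rw [sat_rename]
  change S.rel .mul _ ↔ S.rel .mul _
  exact iff_of_eq (congrArg _ h)

theorem intA_ex (φ : AFm) (e : ℕ → M) :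
    Sat S (emb (ex φ)) e ↔ ∃ a, Sat S (emb φ) (scons a e) := by
  unfold emb
  rw [subst_ex, sat_ex]

theorem intA_and (φ ψ : AFm) (e : ℕ → M) :
    Sat S (emb (and φ ψ)) e ↔ Sat S (emb φ) e ∧ Sat S (emb ψ) e := by
  unfold emb
  rw [subst_and, sat_and]

theorem intA_or (φ ψ : AFm) (e : ℕ → M) :
    Sat S (emb (or φ ψ)) e ↔ Sat S (emb φ) e ∨ Sat S (emb ψ) e := by
  unfold emb
  rw [subst_or, sat_or]

theorem intA_neg (φ : AFm) (e : ℕ → M) :
    Sat S (emb (neg φ)) e ↔ ¬ Sat S (emb φ) e := by
  unfold emb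
  rw [subst_neg, sat_neg]

theorem intA_imp (φ ψ : AFm) (e : ℕ → M) :
    Sat S (emb (imp φ ψ)) e ↔ (Sat S (emb φ) e → Sat S (emb ψ) e) := Iff.rfl

theorem intA_all (φ : AFm) (e : ℕ → M) :
    Sat S (emb (all φ)) e ↔ ∀ a, Sat S (emb φ) (scons a e) := Iff.rfl

theorem intA_eq (i j : ℕ) (e : ℕ → M) :
    Sat S (emb (eq i j)) e ↔ e i = e j := Iff.rfl

theorem intA_s0 (a : M) (e : ℕ → M) : scons a e 0 = a := rfl
theorem intA_s1 (a : M) (e : ℕ → M) (k : ℕ) : scons a e (k + 1) = e k := rfl
theorem intA_s1' (a : M) (e : ℕ → M) : scons a e 1 = e 0 := rfl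
theorem intA_s2' (a : M) (e : ℕ → M) : scons a e 2 = e 1 := rfl
theorem intA_s3' (a : M) (e : ℕ → M) : scons a e 3 = e 2 := rfl
theorem intA_s4' (a : M) (e : ℕ → M) : scons a e 4 = e 3 := rfl

theorem qm (h : ∀ φ ∈ Q, ∀ e : ℕ → M, Sat S (emb φ) e) [Nonempty M] : QM S := by
  obtain ⟨a0⟩ := ‹Nonempty M›
  have h' := fun φ hφ => h φ hφ (fun _ => a0)
  simp only [Q, List.forall_mem_cons, intA_zero, intA_succ, intA_add, intA_mul, intA_ex, intA_or, intA_neg, intA_imp, intA_all, intA_eq, intA_s0, intA_s1', intA_s2', intA_s3',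
    intA_s4'] at h'
  obtain ⟨h1, h2, h3, h4, h5, h6, h7, h8, h9, h10, h11, h12, h13, h14, h15, _⟩ := h'
  exact
    { zero_ex := h1
      zero_un := fun x y hx hy => h2 y x hx hy
      succ_tot := fun x => h3 x
      succ_un := fun x y z hy hz => (h4 x z y hy hz)
      add_tot := fun x y => h5 y x
      add_un := fun x y z w hz hw => (h6 y x w z hz hw)
      mul_tot := fun x y => h7 y x
      mul_un := fun x y z w hz hw => (h8 y x w z hz hw)
      succ_ne := fun x y hxy => h9 y x hxy
      succ_inj := fun x y z hx hy => h10 z y x hx hy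
      cases := fun x => h11 x
      add_zero := fun x y hy => h12 x y hy
      add_succ := fun x y y' z z' h1 h2 h3 => h13 z' z x y' y h1 h2 h3
      mul_zero := fun x y hy => h14 x y hy
      mul_succ := fun x y y' z w h1 h2 h3 => h15 w z x y' y h1 h2 h3 }

/-! ### Numerals -/

private theorem intA_good : Good arA embT := by
  intro r
  cases r
  · intro k
    fin_cases k
    exact Nat.zero_lt_one
  · intro k
    fin_cases k
    · exact Nat.zero_lt_two
    · exact Nat.one_lt_two
  · intro k
    fin_cases k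
    · change 0 < 3
      omega
    · change 1 < 3
      omega
    · change 2 < 3
      omega
  · intro k
    fin_cases k
    · change 0 < 3
      omega
    · change 1 < 3
      omega
    · change 2 < 3
      omega

/-- Only the value of the variable `0` matters in a numeral. -/
theorem intA_num (k : ℕ) (e : ℕ → M) : Sat S (emb (num k)) e ↔ IsN S k (e 0) := by
  refine sat_congr S (FVs_subst intA_good (FVs_num k)) ?_
  intro i hi
  obtain rfl : i = 0 := by omega
  rfl

theorem isN_zero (x : M) : IsN S 0 x ↔ zeroR S x := by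
  unfold IsN
  have h0 : num 0 = zeroA 0 := by rw [num]
  rw [h0, intA_zero]

theorem isN_even {k : ℕ} (hk : 0 < k) (x : M) :
    IsN S (2 * k) x ↔ ∃ y, IsN S k y ∧ addR S y y x := by
  unfold IsN
  rw [num_even hk, intA_ex]
  refine exists_congr fun y => ?_
  rw [intA_and, intA_num, intA_add]
  rfl

theorem isN_odd (k : ℕ) (x : M) :
    IsN S (2 * k + 1) x ↔ ∃ u y, IsN S k y ∧ addR S y y u ∧ succR S u x := by
  unfold IsN
  rw [num_odd, intA_ex]
  refine exists_congr fun u => ?_
  rw [intA_ex]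
  refine exists_congr fun y => ?_
  rw [intA_and, intA_and, intA_num, intA_add, intA_succ]
  rfl

theorem isU_ex (h : QM S) (k : ℕ) : ∃ x, IsU S k x := by
  induction k with
  | zero => exact h.zero_ex
  | succ k ih =>
    obtain ⟨y, hy⟩ := ih
    obtain ⟨x, hx⟩ := h.succ_tot y
    exact ⟨x, y, hy, hx⟩

theorem isU_un (h : QM S) {k : ℕ} {x y : M} (hx : IsU S k x) (hy : IsU S k y) : x = y := by
  induction k generalizing x y with
  | zero => exact h.zero_un x y hx hy
  | succ k ih =>
    obtain ⟨x', hx', hx⟩ := hx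
    obtain ⟨y', hy', hy⟩ := hy
    obtain rfl := ih hx' hy'
    exact h.succ_un _ _ _ hx hy

theorem isU_add (h : QM S) {k l : ℕ} {x y z : M} (hx : IsU S k x) (hy : IsU S l y)
    (hz : addR S x y z) : IsU S (k + l) z := by
  induction l generalizing y z with
  | zero =>
    obtain rfl := h.add_un _ _ _ _ hz (h.add_zero x y hy)
    exact hx
  | succ l ih =>
    obtain ⟨y', hy', hy⟩ := hy
    obtain ⟨z', hz'⟩ := h.add_tot x y'
    obtain ⟨z'', hz''⟩ := h.succ_tot z'
    obtain rfl := h.add_un _ _ _ _ hz (h.add_succ x y' y z' z'' hy hz' hz'')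
    exact ⟨z', ih hy' hz', hz''⟩

theorem isU_mul (h : QM S) {k l : ℕ} {x y z : M} (hx : IsU S k x) (hy : IsU S l y)
    (hz : mulR S x y z) : IsU S (k * l) z := by
  induction l generalizing y z with
  | zero =>
    obtain rfl := h.mul_un _ _ _ _ hz (h.mul_zero x y hy)
    exact hy
  | succ l ih =>
    obtain ⟨y', hy', hy⟩ := hy
    obtain ⟨z', hz'⟩ := h.mul_tot x y'
    obtain ⟨w, hw⟩ := h.add_tot z' x
    obtain rfl := h.mul_un _ _ _ _ hz (h.mul_succ x y' y z' w hy hz' hw)
    exact isU_add h (ih hy' hz') hx hw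

theorem isN_iff_isU (h : QM S) (k : ℕ) (x : M) : IsN S k x ↔ IsU S k x := by
  induction k using Nat.strong_induction_on generalizing x with
  | _ k ih =>
    obtain ⟨m, rfl | rfl⟩ : ∃ m, k = 2 * m ∨ k = 2 * m + 1 := ⟨k / 2, by omega⟩
    · rcases Nat.eq_zero_or_pos m with rfl | hm
      · exact isN_zero x
      · rw [isN_even hm]
        constructor
        · rintro ⟨y, hy, hx⟩
          rw [ih m (by omega)] at hy
          have := isU_add h hy hy hx
          rwa [← two_mul] at this
        · intro hx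
          obtain ⟨y, hy⟩ := isU_ex h m
          obtain ⟨x', hx'⟩ := h.add_tot y y
          have h1 := isU_add h hy hy hx'
          rw [← two_mul] at h1
          obtain rfl := isU_un h hx h1
          exact ⟨y, (ih m (by omega) y).2 hy, hx'⟩
    · rw [isN_odd]
      constructor
      · rintro ⟨u, y, hy, hu, hx⟩
        rw [ih m (by omega)] at hy
        have := isU_add h hy hy hu
        rw [← two_mul] at this
        exact ⟨u, this, hx⟩
      · rintro ⟨u, hu, hx⟩
        obtain ⟨y, hy⟩ := isU_ex h m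
        obtain ⟨u', hu'⟩ := h.add_tot y y
        have h1 := isU_add h hy hy hu'
        rw [← two_mul] at h1
        obtain rfl := isU_un h hu h1
        exact ⟨u, y, (ih m (by omega) y).2 hy, hu', hx⟩

theorem isN_ex (h : QM S) (k : ℕ) : ∃ x, IsN S k x := by
  obtain ⟨x, hx⟩ := isU_ex h k
  exact ⟨x, (isN_iff_isU h k x).2 hx⟩

theorem isN_un (h : QM S) {k : ℕ} {x y : M} (hx : IsN S k x) (hy : IsN S k y) : x = y :=
  isU_un h ((isN_iff_isU h k x).1 hx) ((isN_iff_isU h k y).1 hy)

private theorem intA_codeS (w : List Bool) (b : Bool) :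
    codeS (w ++ [b]) = 2 * codeS w + b.toNat := by
  simp [codeS]

private theorem intA_pos (w : List Bool) : 0 < codeS w := by
  induction w using List.reverseRecOn with
  | nil => exact Nat.zero_lt_one
  | append_singleton l a ih =>
    rw [intA_codeS]
    omega

/-- Appending digits. -/
theorem isN_append (h : QM S) (u w : List Bool) (x : M) :
    IsN S (codeS (u ++ w)) x ↔ ∃ t, IsN S (codeS u) t ∧ DG S w t x := by
  induction w generalizing u with
  | nil =>
    rw [List.append_nil]
    constructor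
    · intro hx
      exact ⟨x, hx, rfl⟩
    · rintro ⟨t, ht, htx⟩
      have htx' : t = x := htx
      rwa [← htx']
  | cons b w ih =>
    have e1 : u ++ b :: w = (u ++ [b]) ++ w := by simp
    rw [e1, ih, intA_codeS]
    cases b
    · have e2 : 2 * codeS u + (false).toNat = 2 * codeS u := rfl
      rw [e2]
      constructor
      · rintro ⟨t', ht', hd⟩
        rw [isN_even (intA_pos u)] at ht'
        obtain ⟨t, ht, hadd⟩ := ht'
        exact ⟨t, ht, t', hadd, hd⟩
      · rintro ⟨t, ht, t', hadd, hd⟩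
        exact ⟨t', (isN_even (intA_pos u) t').2 ⟨t, ht, hadd⟩, hd⟩
    · have e2 : 2 * codeS u + (true).toNat = 2 * codeS u + 1 := rfl
      rw [e2]
      constructor
      · rintro ⟨t', ht', hd⟩
        rw [isN_odd] at ht'
        obtain ⟨v, t, ht, hadd, hs⟩ := ht'
        exact ⟨t, ht, v, t', hadd, hs, hd⟩
      · rintro ⟨t, ht, v, t', hadd, hs, hd⟩
        exact ⟨t', (isN_odd _ t').2 ⟨v, t, ht, hadd, hs⟩, hd⟩

end Pool.Agent.Myc
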