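import Pool.Agent.Myc.StdDefs
import Pool.Agent.Myc.IntA
import Pool.Agent.Myc.NatF
import Pool.Agent.Myc.SemB

set_option autoImplicit false

namespace Pool.Agent.Myc

open Fm

/-! ### The standard interpretation, relation by relation -/

section StdC

variable {sC : ℕ}

private theorem StdC_zero (x : ℕ) : zeroR (SN sC) x ↔ x = 0 := Iff.rfl
private theorem StdC_succ (x y : ℕ) : succR (SN sC) x y ↔ x + 1 = y := Iff.rfl
private theorem StdC_add (x y z : ℕ) : addR (SN sC) x y z ↔ x + y = z := Iff.rfl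
private theorem StdC_mul (x y z : ℕ) : mulR (SN sC) x y z ↔ x * y = z := Iff.rfl
private theorem StdC_pr (a s t : ℕ) : prR (SN sC) a s t ↔ Nat.pair a s = t := Iff.rfl
private theorem StdC_vl (s v a : ℕ) : vlR (SN sC) s v a ↔ ∃ i, v = tk i ∧ a = sval s i := Iff.rfl
private theorem StdC_t0 (x s : ℕ) : t0R (SN sC) x s ↔
    ∃ φ : AFm, Atomic φ ∧ x = cd φ ∧ Sat NN φ (sval s) := Iff.rfl
private theorem StdC_ats (x : ℕ) : atsR (SN sC) x ↔ ∃ φ : AFm, Atomic φ ∧ x = cd φ := Iff.rfl
private theorem StdC_im (x y z : ℕ) : imR (SN sC) x y z ↔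
    ∃ φ ψ : AFm, x = cd (imp φ ψ) ∧ y = cd φ ∧ z = cd ψ := Iff.rfl
private theorem StdC_al (x y : ℕ) : alR (SN sC) x y ↔
    ∃ φ : AFm, x = cd (all φ) ∧ y = cd φ := Iff.rfl
private theorem StdC_dp (k x : ℕ) : dpR (SN sC) k x ↔
    ∃ φ : AFm, x = cd φ ∧ depth φ ≤ k := Iff.rfl
private theorem StdC_rn (r x y : ℕ) : rnR (SN sC) r x y ↔
    ∃ (p : Option ℕ) (d : ℕ) (φ : AFm), r = Nat.pair (ptk p) (tk d) ∧
        x = cd φ ∧ y = cd (rename (up^[d] (pren p)) φ) := Iff.rfl
private theorem StdC_rl (r s t : ℕ) : rlR (SN sC) r s t ↔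
    ∃ (p : Option ℕ) (d : ℕ), r = Nat.pair (ptk p) (tk d) ∧
        ∀ i, sval t i = sval s (up^[d] (pren p) i) := Iff.rfl
private theorem StdC_up (r r' : ℕ) : upR (SN sC) r r' ↔
    ∃ (p : Option ℕ) (d : ℕ), r = Nat.pair (ptk p) (tk d) ∧
        r' = Nat.pair (ptk p) (tk (d + 1)) := Iff.rfl
private theorem StdC_pf (a n m y : ℕ) : pfR (SN sC) a n m y ↔
    ∃ (T : List AFm) (φ : AFm), a = cdL T ∧ y = cd φ ∧ PrfN {ψ | ψ ∈ T} n m φ := Iff.rfl
private theorem StdC_mem (y a : ℕ) : memR (SN sC) y a ↔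
    ∃ (φ : AFm) (T : List AFm), φ ∈ T ∧ y = cd φ ∧ a = cdL T := Iff.rfl
private theorem StdC_form (x : ℕ) : formR (SN sC) x ↔ ∃ φ : AFm, x = cd φ := Iff.rfl
private theorem StdC_tk (x : ℕ) : tkR (SN sC) x ↔ ∃ i, x = tk i := Iff.rfl
private theorem StdC_conc (x y z : ℕ) : concR (SN sC) x y z ↔ Cc x y z := Iff.rfl
private theorem StdC_pp (a x y : ℕ) : ppR (SN sC) a x y ↔
    ∃ (T : List AFm) (φ : AFm), a = cdL T ∧ y = cd φ ∧ Proves {ψ | ψ ∈ T} x φ := Iff.rfl
private theorem StdC_nu (v z : ℕ) : nuR (SN sC) v z ↔ z = codeS (encode (num v)) := Iff.rfl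
private theorem StdC_sz (a m : ℕ) : szR (SN sC) a m ↔
    ∃ w : List Bool, a = codeS w ∧ sC * (w.length + 1) ≤ m := Iff.rfl
private theorem StdC_e2 (m q : ℕ) : e2R (SN sC) m q ↔ q = 2 ^ m := Iff.rfl
private theorem StdC_cl (a q b : ℕ) : clR (SN sC) a q b ↔
    ∃ T : List AFm, a = cdL T ∧ b = cdL (Con T q :: T) := Iff.rfl
private theorem StdC_lst (a : ℕ) : lstR (SN sC) a ↔ ∃ T : List AFm, a = cdL T := Iff.rfl

private theorem StdC_isN (k : ℕ) : ∀ x : ℕ, IsN (SN sC) k x ↔ x = k := by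
  induction k using Nat.strong_induction_on with
  | _ k ih =>
    intro x
    rcases Nat.even_or_odd' k with ⟨m, hm | hm⟩
    · rcases Nat.eq_zero_or_pos m with h0 | h0
      · subst h0
        rw [hm]
        exact (isN_zero x).trans (by rw [StdC_zero])
      · rw [hm, isN_even h0]
        constructor
        · rintro ⟨y, hy, hxy⟩
          rw [ih m (by omega)] at hy
          rw [StdC_add] at hxy
          omega
        · rintro rfl
          exact ⟨m, (ih m (by omega) m).2 rfl, by rw [StdC_add]; omega⟩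
    · rw [hm, isN_odd]
      constructor
      · rintro ⟨u, y, hy, hxy, hu⟩
        rw [ih m (by omega)] at hy
        rw [StdC_add] at hxy
        rw [StdC_succ] at hu
        omega
      · rintro rfl
        exact ⟨2 * m, m, (ih m (by omega) m).2 rfl, by rw [StdC_add]; omega,
          by rw [StdC_succ]⟩

private theorem StdC_isU (k : ℕ) : ∀ x : ℕ, IsU (SN sC) k x ↔ x = k := by
  induction k with
  | zero => intro x; exact Iff.rfl
  | succ k ih =>
    intro x
    change (∃ y, IsU (SN sC) k y ∧ succR (SN sC) y x) ↔ _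
    constructor
    · rintro ⟨y, hy, hx⟩
      rw [ih] at hy
      rw [StdC_succ] at hx
      omega
    · rintro rfl
      exact ⟨k, (ih k).2 rfl, rfl⟩

private theorem StdC_PW (m c : ℕ) : ∀ N : ℕ, PW (SN sC) m c N ↔ N = m ^ c := by
  induction c with
  | zero =>
    intro N
    change IsN (SN sC) 1 N ↔ _
    rw [StdC_isN, pow_zero]
  | succ c ih =>
    intro N
    change (∃ w, PW (SN sC) m c w ∧ mulR (SN sC) w m N) ↔ _
    constructor
    · rintro ⟨w, hw, hN⟩
      rw [ih] at hw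
      rw [StdC_mul] at hN
      rw [← hN, hw, pow_succ]
    · rintro rfl
      exact ⟨m ^ c, (ih _).2 rfl, by rw [StdC_mul, pow_succ]⟩

private theorem StdC_DG (w : List Bool) : ∀ (u : List Bool) (x : ℕ),
    DG (SN sC) w (codeS u) x ↔ x = codeS (u ++ w) := by
  induction w with
  | nil =>
    intro u x
    change codeS u = x ↔ _
    rw [List.append_nil]
    exact eq_comm
  | cons b w ih =>
    intro u x
    have hb : u ++ b :: w = (u ++ [b]) ++ w := by simp
    rw [hb]
    cases b with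
    | false =>
      change (∃ y, addR (SN sC) (codeS u) (codeS u) y ∧ DG (SN sC) w y x) ↔ _
      have h2 : codeS u + codeS u = codeS (u ++ [false]) := by
        rw [codeS_append_bit]; simp [two_mul]
      constructor
      · rintro ⟨y, hy, hx⟩
        rw [StdC_add, h2] at hy
        rw [← hy, ih] at hx
        exact hx
      · intro hx
        exact ⟨_, by rw [StdC_add, h2], (ih _ _).2 hx⟩
    | true =>
      change (∃ z y, addR (SN sC) (codeS u) (codeS u) z ∧ succR (SN sC) z y ∧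
        DG (SN sC) w y x) ↔ _
      have h2 : codeS u + codeS u + 1 = codeS (u ++ [true]) := by
        rw [codeS_append_bit]; simp [two_mul]
      constructor
      · rintro ⟨z, y, hz, hy, hx⟩
        rw [StdC_add] at hz
        rw [StdC_succ, ← hz, h2] at hy
        rw [← hy, ih] at hx
        exact hx
      · intro hx
        exact ⟨codeS u + codeS u, _, (StdC_add _ _ _).2 rfl, by rw [StdC_succ, h2],
          (ih _ _).2 hx⟩

private theorem StdC_emb (φ : AFm) : ∀ e : ℕ → ℕ, Sat (SN sC) (emb φ) e ↔ Sat NN φ e := by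
  induction φ with
  | bot => intro e; exact Iff.rfl
  | eq i j => intro e; exact Iff.rfl
  | rel r v =>
    intro e
    cases r <;> exact Iff.rfl
  | imp φ ψ ih1 ih2 =>
    intro e
    exact imp_congr (ih1 e) (ih2 e)
  | all φ ih =>
    intro e
    exact forall_congr' fun a => ih _

private theorem StdC_Q : ∀ φ ∈ Q, ∀ e : ℕ → ℕ, Sat NN φ e := by
  intro φ hφ e
  simp only [Q, List.mem_cons, List.not_mem_nil, or_false] at hφ
  rcases hφ with rfl | rfl | rfl | rfl | rfl | rfl | rfl | rfl | rfl | rfl | rfl | rfl | rfl |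
    rfl | rfl
  · rw [sat_ex]; exact ⟨0, rfl⟩
  · intro a b h1 h2
    exact (h1 : b = 0).trans (h2 : a = 0).symm
  · intro a
    rw [sat_ex]
    exact ⟨a + 1, rfl⟩
  · intro a b c h1 h2
    have h1' : a + 1 = c := h1
    have h2' : a + 1 = b := h2
    exact h1'.symm.trans h2'
  · intro a b
    rw [sat_ex]
    exact ⟨b + a, rfl⟩
  · intro a b c d h1 h2
    have h1' : b + a = d := h1
    have h2' : b + a = c := h2
    exact h1'.symm.trans h2'
  · intro a b
    rw [sat_ex]
    exact ⟨b * a, rfl⟩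
  · intro a b c d h1 h2
    have h1' : b * a = d := h1
    have h2' : b * a = c := h2
    exact h1'.symm.trans h2'
  · intro a b h1
    rw [sat_neg]
    intro h2
    have h1' : b + 1 = a := h1
    have h2' : a = 0 := h2
    omega
  · intro a b c h1 h2
    have h1' : c + 1 = a := h1
    have h2' : b + 1 = a := h2
    exact (by omega : c = b)
  · intro a
    rw [sat_or, sat_ex]
    rcases Nat.eq_zero_or_pos a with h | h
    · exact Or.inl h
    · exact Or.inr ⟨a - 1, (by omega : a - 1 + 1 = a)⟩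
  · intro a b h1
    have h1' : b = 0 := h1
    exact (by omega : a + b = a)
  · intro a b c d f h1 h2 h3
    have h1' : f + 1 = d := h1
    have h2' : c + f = b := h2
    have h3' : b + 1 = a := h3
    exact (by omega : c + d = a)
  · intro a b h1
    have h1' : b = 0 := h1
    exact (by rw [h1', Nat.mul_zero] : a * b = b)
  · intro a b c d f h1 h2 h3
    have h1' : f + 1 = d := h1
    have h2' : c * f = b := h2
    have h3' : b + c = a := h3
    exact (by rw [← h1', ← h3', ← h2']; ring : c * d = a)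

private theorem StdC_tk0 : tk 0 = 6 := rfl
private theorem StdC_cd_bot : cd (bot : AFm) = 16 := rfl

private theorem StdC_depth_pos (φ : AFm) : 1 ≤ depth φ := by
  cases φ <;> simp [depth]

private theorem StdC_depth_rename (φ : AFm) : ∀ ρ : ℕ → ℕ, depth (rename ρ φ) = depth φ := by
  induction φ with
  | bot => intro ρ; rfl
  | eq i j => intro ρ; rfl
  | rel r v => intro ρ; rfl
  | imp φ ψ ih1 ih2 => intro ρ; simp only [rename, depth, ih1, ih2]
  | all φ ih => intro ρ; simp only [rename, depth, ih]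

private theorem StdC_atomic_rename {φ : AFm} (h : Atomic φ) (ρ : ℕ → ℕ) :
    Atomic (rename ρ φ) := by
  cases φ with
  | bot => exact h
  | eq i j => exact h
  | rel r v => exact h
  | imp φ ψ => exact h
  | all φ => exact h

private theorem StdC_depth_le_len (φ : AFm) : depth φ ≤ len φ := by
  induction φ with
  | bot => simp [depth, len]
  | eq i j => simp [depth, len]
  | rel r v => simp only [depth, len]; omega
  | imp φ ψ ih1 ih2 => simp only [depth, len]; omega
  | all φ ih => simp only [depth, len]; omega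

private theorem StdC_PrfN_mono {T : Set AFm} {n m : ℕ} {φ : AFm} (h : PrfN T n m φ) :
    ∀ m', m ≤ m' → PrfN T n m' φ := by
  have hd : depth φ ≤ n := by cases h <;> assumption
  intro m' hm
  induction m', hm using Nat.le_induction with
  | base => exact h
  | succ k _ ih => exact PrfN.mono hd ih

private theorem StdC_PrfN_of_proof {T : Set AFm} {l : List AFm} (h : IsProof T l) (n : ℕ)
    (hd : ∀ φ ∈ l, depth φ ≤ n) : ∀ φ ∈ l, PrfN T n l.length φ := by
  induction h with
  | nil => intro φ hφ; simp at hφ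
  | @cons l φ hl hφ ih =>
    have ih' := ih (fun ψ hψ => hd ψ (List.mem_cons_of_mem _ hψ))
    have h0 : depth φ ≤ n := hd φ List.mem_cons_self
    intro ψ hψ
    rw [List.length_cons]
    rcases List.mem_cons.1 hψ with rfl | hψ
    · cases hφ with
      | hyp h => exact PrfN.hyp h0 h
      | logic h => exact PrfN.logic h0 h
      | mp h1 h2 => exact PrfN.mp h0 (ih' _ h1) (ih' _ h2)
      | gen h => exact PrfN.gen h0 (ih' _ h)
    · exact PrfN.mono (hd ψ (List.mem_cons_of_mem _ hψ)) (ih' ψ hψ)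

private theorem StdC_len_mem {l : List AFm} {φ : AFm} (h : φ ∈ l) : len φ ≤ (l.map len).sum := by
  induction l with
  | nil => simp at h
  | cons ψ l ih =>
    rw [List.map_cons, List.sum_cons]
    rcases List.mem_cons.1 h with rfl | h
    · omega
    · have := ih h; omega

private theorem StdC_length_le (l : List AFm) : l.length ≤ (l.map len).sum := by
  induction l with
  | nil => simp
  | cons ψ l ih =>
    rw [List.map_cons, List.sum_cons, List.length_cons]
    have := len_pos ψ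
    omega

private theorem StdC_pp_pf {T : Set AFm} {n : ℕ} {φ : AFm} (h : Proves T n φ) :
    PrfN T n n φ := by
  obtain ⟨l, hl, hn⟩ := h
  rw [length_encodeL, List.map_reverse, List.sum_reverse] at hn
  have h1 : ∀ ψ ∈ φ :: l, depth ψ ≤ n := fun ψ hψ =>
    (StdC_depth_le_len ψ).trans ((StdC_len_mem hψ).trans hn)
  exact StdC_PrfN_mono (StdC_PrfN_of_proof hl n h1 φ List.mem_cons_self) n
    ((StdC_length_le _).trans hn)

/-- Parameters of renamings are determined by their numbers. -/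
private theorem StdC_par {p p' : Option ℕ} {d d' : ℕ}
    (h : Nat.pair (ptk p) (tk d) = Nat.pair (ptk p') (tk d')) : p = p' ∧ d = d' := by
  rw [Nat.pair_eq_pair] at h
  exact ⟨ptk_inj h.1, tk_inj h.2⟩

private theorem StdC_sval_zero (a s : ℕ) : sval (Nat.pair a s) 0 = a := by
  simp [sval]
private theorem StdC_sval_succ (a s i : ℕ) : sval (Nat.pair a s) (i + 1) = sval s i := by
  simp [sval]

private theorem StdC_conc_codeS (u v : List Bool) (z : ℕ) :
    concR (SN sC) (codeS u) (codeS v) z ↔ z = codeS (u ++ v) := Cc_codeS u v z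

private theorem StdC_im' (φ ψ : AFm) : imR (SN sC) (cd (imp φ ψ)) (cd φ) (cd ψ) :=
  ⟨φ, ψ, rfl, rfl, rfl⟩
private theorem StdC_al' (φ : AFm) : alR (SN sC) (cd (all φ)) (cd φ) := ⟨φ, rfl, rfl⟩
private theorem StdC_ats' {φ : AFm} (h : Atomic φ) : atsR (SN sC) (cd φ) := ⟨φ, h, rfl⟩
private theorem StdC_t0' {φ : AFm} (h : Atomic φ) (s : ℕ) :
    t0R (SN sC) (cd φ) s ↔ Sat NN φ (sval s) := by
  rw [StdC_t0]
  constructor
  · rintro ⟨ψ, _, h2, h3⟩
    rw [cd_inj h2]
    exact h3
  · intro h3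
    exact ⟨φ, h, rfl, h3⟩

private theorem StdC_inst (j : ℕ) (φ : AFm) :
    rnR (SN sC) (Nat.pair (ptk (some j)) (tk 0)) (cd φ) (cd (rename (instMap j) φ)) :=
  ⟨some j, 0, φ, rfl, rfl, rfl⟩

private theorem StdC_inst_rl (j s : ℕ) :
    rlR (SN sC) (Nat.pair (ptk (some j)) (tk 0)) s (Nat.pair (sval s j) s) := by
  refine ⟨some j, 0, rfl, ?_⟩
  intro i
  change sval (Nat.pair (sval s j) s) i = sval s (instMap j i)
  cases i with
  | zero => rw [StdC_sval_zero]; rfl
  | succ i => rw [StdC_sval_succ]; rfl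

private theorem StdC_LX {φ : AFm} (h : LogAx φ) : LXM (SN sC) (cd φ) := by
  cases h with
  | k φ ψ => exact Or.inl ⟨cd φ, cd ψ, cd (imp ψ φ), StdC_im' _ _, StdC_im' _ _⟩
  | s φ ψ χ =>
    exact Or.inr (Or.inl ⟨cd φ, cd ψ, cd χ, cd (imp ψ χ), cd (imp φ (imp ψ χ)), cd (imp φ ψ),
      cd (imp φ χ), cd (imp (imp φ ψ) (imp φ χ)), StdC_im' _ _, StdC_im' _ _, StdC_im' _ _,
      StdC_im' _ _, StdC_im' _ _, StdC_im' _ _⟩)
  | dn φ =>
    refine Or.inr (Or.inr (Or.inl ⟨cd φ, cd bot, cd (neg φ), cd (neg (neg φ)),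
      StdC_ats' trivial, ?_, StdC_im' _ _, StdC_im' _ _, StdC_im' _ _⟩))
    intro s hs
    rw [StdC_t0' (φ := bot) trivial] at hs
    exact hs
  | inst j φ =>
    refine Or.inr (Or.inr (Or.inr (Or.inl ⟨cd φ, cd (rename (instMap j) φ),
      Nat.pair (ptk (some j)) (tk 0), cd (all φ), StdC_inst _ _, ?_, StdC_al' _, StdC_im' _ _⟩)))
    intro s
    exact ⟨sval s j, Nat.pair (sval s j) s, rfl, StdC_inst_rl j s⟩
  | dist φ ψ =>
    exact Or.inr (Or.inr (Or.inr (Or.inr (Or.inl ⟨cd φ, cd ψ, cd (imp φ ψ), cd (all (imp φ ψ)),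
      cd (all φ), cd (all ψ), cd (imp (all φ) (all ψ)), StdC_im' _ _, StdC_al' _, StdC_al' _,
      StdC_al' _, StdC_im' _ _, StdC_im' _ _⟩))))
  | vac φ =>
    refine Or.inr (Or.inr (Or.inr (Or.inr (Or.inr (Or.inl ⟨cd φ, cd (rename Nat.succ φ),
      Nat.pair (ptk none) (tk 0), cd (all (rename Nat.succ φ)), ?_, ?_, StdC_al' _,
      StdC_im' _ _⟩)))))
    · exact ⟨none, 0, φ, rfl, rfl, rfl⟩
    · intro s a t h
      rw [StdC_pr] at h
      refine ⟨none, 0, rfl, ?_⟩
      intro i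
      change sval s i = sval t (i + 1)
      rw [← h, StdC_sval_succ]
  | refl i =>
    refine Or.inr (Or.inr (Or.inr (Or.inr (Or.inr (Or.inr (Or.inl ⟨StdC_ats' trivial, ?_⟩))))))
    intro s
    rw [StdC_t0' (φ := eq i i) trivial]
    rfl
  | leib i j φ =>
    refine Or.inr (Or.inr (Or.inr (Or.inr (Or.inr (Or.inr (Or.inr ⟨cd φ,
      cd (rename (instMap i) φ), cd (rename (instMap j) φ), Nat.pair (ptk (some i)) (tk 0),
      Nat.pair (ptk (some j)) (tk 0), cd (eq i j),
      cd (imp (rename (instMap i) φ) (rename (instMap j) φ)), StdC_inst _ _, StdC_inst _ _,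
      StdC_ats' trivial, ?_, StdC_im' _ _, StdC_im' _ _⟩))))))
    intro s hs
    rw [StdC_t0' (φ := eq i j) trivial] at hs
    have hs' : sval s i = sval s j := hs
    refine ⟨sval s i, Nat.pair (sval s i) s, rfl, StdC_inst_rl i s, ?_⟩
    have h2 := StdC_inst_rl (sC := sC) j s
    rw [← hs'] at h2
    exact h2

private theorem StdC_enc_rel1 (i : ℕ) :
    encode (zeroA i) = tok i ++ [false, false, true, false] := by
  change (List.ofFn (n := 1) ![i]).flatMap tok ++ tag .zero = _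
  simp [tag, List.ofFn_succ]

private theorem StdC_enc_rel2 (i j : ℕ) :
    encode (succA i j) = tok i ++ tok j ++ [false, false, true, true] := by
  change (List.ofFn (n := 2) ![i, j]).flatMap tok ++ tag .succ = _
  simp [tag, List.ofFn_succ]

private theorem StdC_enc_rel3 (i j k : ℕ) :
    encode (addA i j k) = tok i ++ tok j ++ tok k ++ [false, true, false, false] := by
  change (List.ofFn (n := 3) ![i, j, k]).flatMap tok ++ tag .add = _
  simp [tag, List.ofFn_succ]

private theorem StdC_enc_rel4 (i j k : ℕ) :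
    encode (mulA i j k) = tok i ++ tok j ++ tok k ++ [false, true, false, true] := by
  change (List.ofFn (n := 3) ![i, j, k]).flatMap tok ++ tag .mul = _
  simp [tag, List.ofFn_succ]

end StdC

/-- The axioms are true, provided that the last one is. -/
theorem SMax_SN (sC cE a0 : ℕ)
    (hpsi : ∀ (m : ℕ) (T : List AFm) (x : ℕ), sC * ((encodeL T).length + 1) ≤ m → x ≤ m ^ 2 →
      Proves {ψ | ψ ∈ Con T (2 ^ m) :: T} x bot →
      ∀ (d a' : ℕ), d = a0 → Cc d (cdL T) a' →
        ∃ T' : List AFm, a' = cdL T' ∧ Proves {ψ | ψ ∈ T'} (m ^ cE) bot) :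
    SMax (SN sC) cE a0 sC where
  q := fun φ hφ e => (StdC_emb φ e).2 (StdC_Q φ hφ e)
  pr_tot := fun a s => ⟨Nat.pair a s, rfl⟩
  pr_sur := fun t => ⟨t.unpair.1, t.unpair.2, Nat.pair_unpair t⟩
  pr_inj := by
    intro a s t a' s' h h'
    rw [StdC_pr] at h h'
    rw [← h', Nat.pair_eq_pair] at h
    exact h
  vl0 := by
    intro v a s' s h1 h2
    rw [StdC_isN] at h1
    rw [StdC_pr] at h2
    refine ⟨0, h1, ?_⟩
    change a = sval s 0
    rw [← h2, StdC_sval_zero]
  vlS := by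
    rintro v u v' b s' s a h1 ⟨w, h2, h3⟩ h4 ⟨i, h5, h6⟩
    rw [StdC_add] at h1
    rw [StdC_succ] at h2 h3
    rw [StdC_pr] at h4
    have h5' : v = tk i := h5
    have h6' : a = sval s' i := h6
    refine ⟨i + 1, ?_, ?_⟩
    · change v' = tk (i + 1)
      rw [next_tk]; omega
    · change a = sval s (i + 1)
      rw [← h4, StdC_sval_succ, h6']
  at_im := by
    rintro x y z ⟨φ, h, h1⟩ ⟨φ', ψ', h2, _⟩
    have h1' : x = cd φ := h1
    have h2' : x = cd (imp φ' ψ') := h2
    have := cd_inj (h1'.symm.trans h2')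
    subst this
    exact h
  at_al := by
    rintro x y ⟨φ, h, h1⟩ ⟨φ', h2, _⟩
    have h1' : x = cd φ := h1
    have h2' : x = cd (all φ') := h2
    have := cd_inj (h1'.symm.trans h2')
    subst this
    exact h
  im_al := by
    rintro x y z w ⟨φ, ψ, h1, _⟩ ⟨φ', h2, _⟩
    have h1' : x = cd (imp φ ψ) := h1
    have h2' : x = cd (all φ') := h2
    have := cd_inj (h1'.symm.trans h2')
    cases this
  im_inj := by
    rintro x y z y' z' ⟨φ, ψ, h1, h2, h3⟩ ⟨φ', ψ', h4, h5, h6⟩
    have h1' : x = cd (imp φ ψ) := h1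
    have h4' : x = cd (imp φ' ψ') := h4
    have h := cd_inj (h1'.symm.trans h4')
    cases h
    exact ⟨(h2 : y = cd φ).trans (h5 : y' = cd φ).symm,
      (h3 : z = cd ψ).trans (h6 : z' = cd ψ).symm⟩
  al_inj := by
    rintro x y y' ⟨φ, h1, h2⟩ ⟨φ', h4, h5⟩
    have h1' : x = cd (all φ) := h1
    have h4' : x = cd (all φ') := h4
    have h := cd_inj (h1'.symm.trans h4')
    cases h
    exact (h2 : y = cd φ).trans (h5 : y' = cd φ).symm
  dp_zero := by
    rintro k x h ⟨φ, h1, h2⟩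
    have h' : k = 0 := h
    have h2' : depth φ ≤ k := h2
    have := StdC_depth_pos φ
    omega
  dp_cases := by
    rintro k x ⟨φ, h1, h2⟩
    have h1' : x = cd φ := h1
    rw [h1']
    cases φ with
    | bot => exact Or.inl (StdC_ats' trivial)
    | eq i j => exact Or.inl (StdC_ats' trivial)
    | rel r v => exact Or.inl (StdC_ats' trivial)
    | imp φ ψ => exact Or.inr (Or.inl ⟨_, _, StdC_im' _ _⟩)
    | all φ => exact Or.inr (Or.inr ⟨_, StdC_al' _⟩)
  dp_im := by
    rintro k k' x y z h ⟨φ, h1, h2⟩ ⟨φ1, ψ1, h3, h4, h5⟩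
    have h' : k + 1 = k' := h
    have h1' : x = cd φ := h1
    have h2' : depth φ ≤ k' := h2
    have h3' : x = cd (imp φ1 ψ1) := h3
    have h := cd_inj (h1'.symm.trans h3')
    cases h
    simp only [depth] at h2'
    exact ⟨⟨φ1, h4, (by omega : depth φ1 ≤ k)⟩, ⟨ψ1, h5, (by omega : depth ψ1 ≤ k)⟩⟩
  dp_al := by
    rintro k k' x y h ⟨φ, h1, h2⟩ ⟨φ1, h3, h4⟩
    have h' : k + 1 = k' := h
    have h1' : x = cd φ := h1
    have h2' : depth φ ≤ k' := h2
    have h3' : x = cd (all φ1) := h3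
    have h := cd_inj (h1'.symm.trans h3')
    cases h
    simp only [depth] at h2'
    exact ⟨φ1, h4, (by omega : depth φ1 ≤ k)⟩
  dp_im' := by
    rintro k x y z ⟨φ, h1, h2⟩ ⟨φ1, ψ1, h3, h4, h5⟩
    have h1' : x = cd φ := h1
    have h2' : depth φ ≤ k := h2
    have h3' : x = cd (imp φ1 ψ1) := h3
    have h := cd_inj (h1'.symm.trans h3')
    cases h
    simp only [depth] at h2'
    exact ⟨⟨φ1, h4, (by omega : depth φ1 ≤ k)⟩, ⟨ψ1, h5, (by omega : depth ψ1 ≤ k)⟩⟩
  dp_al' := by
    rintro k x y ⟨φ, h1, h2⟩ ⟨φ1, h3, h4⟩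
    have h1' : x = cd φ := h1
    have h2' : depth φ ≤ k := h2
    have h3' : x = cd (all φ1) := h3
    have h := cd_inj (h1'.symm.trans h3')
    cases h
    simp only [depth] at h2'
    exact ⟨φ1, h4, (by omega : depth φ1 ≤ k)⟩
  rn_at := by
    rintro r x y ⟨φ, h1, h2⟩ ⟨p, d, φ', h3, h4, h5⟩
    have h2' : x = cd φ := h2
    have h3' : r = Nat.pair (ptk p) (tk d) := h3
    have h4' : x = cd φ' := h4
    have h5' : y = cd (rename (up^[d] (pren p)) φ') := h5
    have h := cd_inj (h2'.symm.trans h4')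
    subst h
    rw [h5', h2']
    refine ⟨StdC_ats' (StdC_atomic_rename h1 _), ?_⟩
    rintro s t ⟨p', d', h6, h7⟩
    have h6' : r = Nat.pair (ptk p') (tk d') := h6
    have h7' : ∀ i, sval t i = sval s (up^[d'] (pren p') i) := h7
    obtain ⟨rfl, rfl⟩ := StdC_par (h3'.symm.trans h6')
    rw [StdC_t0' (StdC_atomic_rename h1 _), StdC_t0' h1, sat_rename]
    have h8 : (fun i => sval s (up^[d] (pren p) i)) = sval t := by
      funext i; exact (h7' i).symm
    rw [h8]
  rn_im := by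
    rintro r x y x1 x2 ⟨p, d, φ', h3, h4, h5⟩ ⟨φ1, ψ1, h6, h7, h8⟩
    have h4' : x = cd φ' := h4
    have h5' : y = cd (rename (up^[d] (pren p)) φ') := h5
    have h6' : x = cd (imp φ1 ψ1) := h6
    have h := cd_inj (h4'.symm.trans h6')
    subst h
    refine ⟨cd (rename (up^[d] (pren p)) φ1), cd (rename (up^[d] (pren p)) ψ1), ?_, ?_, ?_⟩
    · rw [h5']; exact StdC_im' _ _
    · exact ⟨p, d, φ1, h3, h7, rfl⟩
    · exact ⟨p, d, ψ1, h3, h8, rfl⟩
  rn_al := by
    rintro r x y x1 ⟨p, d, φ', h3, h4, h5⟩ ⟨φ1, h6, h7⟩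
    have h4' : x = cd φ' := h4
    have h5' : y = cd (rename (up^[d] (pren p)) φ') := h5
    have h6' : x = cd (all φ1) := h6
    have h := cd_inj (h4'.symm.trans h6')
    subst h
    refine ⟨Nat.pair (ptk p) (tk (d + 1)), cd (rename (up^[d + 1] (pren p)) φ1), ?_, ?_, ?_⟩
    · rw [h5', Function.iterate_succ_apply']; exact StdC_al' _
    · exact ⟨p, d, h3, rfl⟩
    · exact ⟨p, d + 1, φ1, rfl, h7, rfl⟩
  rn_dp := by
    rintro r x y k ⟨p, d, φ', h3, h4, h5⟩
    have h4' : x = cd φ' := h4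
    have h5' : y = cd (rename (up^[d] (pren p)) φ') := h5
    constructor
    · rintro ⟨φ, h1, h2⟩
      have h1' : x = cd φ := h1
      have h := cd_inj (h4'.symm.trans h1')
      subst h
      exact ⟨_, h5, (StdC_depth_rename _ _).trans_le h2⟩
    · rintro ⟨φ, h1, h2⟩
      have h1' : y = cd φ := h1
      have h := cd_inj (h5'.symm.trans h1')
      subst h
      exact ⟨_, h4, (StdC_depth_rename _ _).symm.trans_le h2⟩
  up_rl := by
    rintro r r' s t a s' t' ⟨p, d, h1, h2⟩ ⟨p', d', h3, h4⟩ h5 h6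
    have h1' : r = Nat.pair (ptk p) (tk d) := h1
    have h3' : r = Nat.pair (ptk p') (tk d') := h3
    have h4' : ∀ i, sval t i = sval s (up^[d'] (pren p') i) := h4
    obtain ⟨rfl, rfl⟩ := StdC_par (h1'.symm.trans h3')
    rw [StdC_pr] at h5 h6
    refine ⟨p, d + 1, h2, ?_⟩
    intro i
    change sval t' i = sval s' (up^[d + 1] (pren p) i)
    rw [Function.iterate_succ_apply', ← h5, ← h6]
    cases i with
    | zero => rw [StdC_sval_zero]; exact (StdC_sval_zero _ _).symm
    | succ i =>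
      rw [StdC_sval_succ, h4']
      exact (StdC_sval_succ _ _ _).symm
  pf_zero := by
    rintro a n m y h ⟨T, φ, h1, h2, h3⟩
    have h' : m = 0 := h
    have h3' : PrfN {ψ | ψ ∈ T} n m φ := h3
    subst h'
    cases h3'
  pf_succ := by
    rintro a n m m' y h ⟨T, φ, h1, h2, h3⟩
    have h' : m + 1 = m' := h
    have h1' : a = cdL T := h1
    have h2' : y = cd φ := h2
    have h3' : PrfN {ψ | ψ ∈ T} n m' φ := h3
    subst h'
    have hd : depth φ ≤ n := by cases h3' <;> assumption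
    refine ⟨⟨φ, h2, hd⟩, ?_⟩
    cases h3' with
    | hyp _ h => exact Or.inr (Or.inl ⟨φ, T, h, h2, h1⟩)
    | logic _ h => rw [h2']; exact Or.inr (Or.inr (Or.inl (StdC_LX h)))
    | @mp _ χ _ _ h4 h5 =>
      refine Or.inr (Or.inr (Or.inr (Or.inl ⟨cd χ, cd (imp χ φ), ⟨T, χ, h1, rfl, h4⟩,
        ⟨T, imp χ φ, h1, rfl, h5⟩, ?_⟩)))
      rw [h2']
      exact StdC_im' _ _
    | @gen _ χ _ h4 =>
      refine Or.inr (Or.inr (Or.inr (Or.inr ⟨cd χ, ⟨T, χ, h1, rfl, h4⟩, ?_⟩)))
      rw [h2']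
      exact StdC_al' _
    | mono _ h4 => exact Or.inl ⟨T, φ, h1, h2, h4⟩
  pp_pf := by
    rintro a n y ⟨T, φ, h1, h2, h3⟩
    exact ⟨T, φ, h1, h2, StdC_pp_pf h3⟩
  bot_at := by
    intro y h
    rw [StdC_isN] at h
    have h' : y = cd bot := h
    rw [h']
    refine ⟨StdC_ats' trivial, ⟨bot, rfl⟩, ?_⟩
    intro s hs
    rw [StdC_t0' (φ := bot) trivial] at hs
    exact hs
  mem_nil := by
    rintro y a h ⟨φ, T, h1, h2, h3⟩
    rw [StdC_isN] at h
    have h3' : a = cdL T := h3
    have h4 : cdL T = cdL [] := by rw [← h3', h]; rfl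
    rw [cdL_inj h4] at h1
    simp at h1
  mem_cons := by
    rintro x a b y ⟨φ, h1⟩ ⟨T, h2⟩ h3 ⟨ψ, T', h4, h5, h6⟩
    have h1' : x = cd φ := h1
    have h2' : a = cdL T := h2
    have h5' : y = cd ψ := h5
    have h6' : b = cdL T' := h6
    rw [h1', h2'] at h3
    have h7 : b = codeS (encode φ ++ encodeL T) := (StdC_conc_codeS _ _ _).1 h3
    have h8 : b = cdL (φ :: T) := h7
    have h9 := cdL_inj (h6'.symm.trans h8)
    subst h9
    rcases List.mem_cons.1 h4 with rfl | h4
    · exact Or.inl (h5'.trans h1'.symm)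
    · exact Or.inr ⟨ψ, T, h4, h5, h2⟩
  lst_nil := by
    intro a h
    rw [StdC_isN] at h
    exact ⟨[], h⟩
  lst_cons := by
    rintro x a b ⟨φ, h1⟩ ⟨T, h2⟩ h3
    have h1' : x = cd φ := h1
    have h2' : a = cdL T := h2
    rw [h1', h2'] at h3
    exact ⟨φ :: T, (StdC_conc_codeS _ _ _).1 h3⟩
  tk0 := by
    intro v h
    rw [StdC_isN] at h
    exact ⟨0, h⟩
  tkS := by
    rintro v u w v' ⟨i, h1⟩ h2 h3 h4
    have h1' : v = tk i := h1
    rw [StdC_add] at h2
    rw [StdC_succ] at h3 h4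
    refine ⟨i + 1, ?_⟩
    change v' = tk (i + 1)
    rw [next_tk]; omega
  form_eq := by
    rintro v w t x ⟨i, h1⟩ ⟨j, h2⟩ h3 h4
    have h1' : v = codeS (tok i) := h1
    have h2' : w = codeS (tok j) := h2
    rw [h1', h2', StdC_conc_codeS] at h3
    rw [h3, StdC_DG] at h4
    have h5 : x = cd (eq i j) := h4
    rw [h5]
    refine ⟨⟨_, rfl⟩, StdC_ats' trivial, ?_⟩
    rintro s a b ⟨i', h6, h7⟩ ⟨j', h8, h9⟩
    have h6' : v = tk i' := h6
    have h8' : w = tk j' := h8
    have e1 : i = i' := tk_inj (h1'.symm.trans h6')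
    have e2 : j = j' := tk_inj (h2'.symm.trans h8')
    subst e1 e2
    have h7' : a = sval s i := h7
    have h9' : b = sval s j := h9
    rw [StdC_t0' (φ := eq i j) trivial, h7', h9']
    rfl
  form_zero := by
    rintro v x ⟨i, h1⟩ h4
    have h1' : v = codeS (tok i) := h1
    rw [h1', StdC_DG, ← StdC_enc_rel1] at h4
    have h5 : x = cd (zeroA i) := h4
    rw [h5]
    refine ⟨⟨_, rfl⟩, StdC_ats' trivial, ?_⟩
    rintro s a ⟨i', h6, h7⟩
    have h6' : v = tk i' := h6
    have e1 : i = i' := tk_inj (h1'.symm.trans h6')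
    subst e1
    have h7' : a = sval s i := h7
    rw [StdC_t0' (φ := zeroA i) trivial, h7']
    rfl
  form_succ := by
    rintro v w t x ⟨i, h1⟩ ⟨j, h2⟩ h3 h4
    have h1' : v = codeS (tok i) := h1
    have h2' : w = codeS (tok j) := h2
    rw [h1', h2', StdC_conc_codeS] at h3
    rw [h3, StdC_DG, ← StdC_enc_rel2] at h4
    have h5 : x = cd (succA i j) := h4
    rw [h5]
    refine ⟨⟨_, rfl⟩, StdC_ats' trivial, ?_⟩
    rintro s a b ⟨i', h6, h7⟩ ⟨j', h8, h9⟩
    have h6' : v = tk i' := h6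
    have h8' : w = tk j' := h8
    have e1 : i = i' := tk_inj (h1'.symm.trans h6')
    have e2 : j = j' := tk_inj (h2'.symm.trans h8')
    subst e1 e2
    have h7' : a = sval s i := h7
    have h9' : b = sval s j := h9
    rw [StdC_t0' (φ := succA i j) trivial, h7', h9']
    rfl
  form_add := by
    rintro v w u t t' x ⟨i, h1⟩ ⟨j, h2⟩ ⟨k, h2k⟩ h3 h3k h4
    have h1' : v = codeS (tok i) := h1
    have h2' : w = codeS (tok j) := h2
    have h2k' : u = codeS (tok k) := h2k
    rw [h1', h2', StdC_conc_codeS] at h3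
    rw [h3, h2k', StdC_conc_codeS] at h3k
    rw [h3k, StdC_DG, ← StdC_enc_rel3] at h4
    have h5 : x = cd (addA i j k) := h4
    rw [h5]
    refine ⟨⟨_, rfl⟩, StdC_ats' trivial, ?_⟩
    rintro s a b c ⟨i', h6, h7⟩ ⟨j', h8, h9⟩ ⟨k', h10, h11⟩
    have h6' : v = tk i' := h6
    have h8' : w = tk j' := h8
    have h10' : u = tk k' := h10
    have e1 : i = i' := tk_inj (h1'.symm.trans h6')
    have e2 : j = j' := tk_inj (h2'.symm.trans h8')
    have e3 : k = k' := tk_inj (h2k'.symm.trans h10')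
    subst e1 e2 e3
    have h7' : a = sval s i := h7
    have h9' : b = sval s j := h9
    have h11' : c = sval s k := h11
    rw [StdC_t0' (φ := addA i j k) trivial, h7', h9',
      h11']
    rfl
  form_mul := by
    rintro v w u t t' x ⟨i, h1⟩ ⟨j, h2⟩ ⟨k, h2k⟩ h3 h3k h4
    have h1' : v = codeS (tok i) := h1
    have h2' : w = codeS (tok j) := h2
    have h2k' : u = codeS (tok k) := h2k
    rw [h1', h2', StdC_conc_codeS] at h3
    rw [h3, h2k', StdC_conc_codeS] at h3k
    rw [h3k, StdC_DG, ← StdC_enc_rel4] at h4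
    have h5 : x = cd (mulA i j k) := h4
    rw [h5]
    refine ⟨⟨_, rfl⟩, StdC_ats' trivial, ?_⟩
    rintro s a b c ⟨i', h6, h7⟩ ⟨j', h8, h9⟩ ⟨k', h10, h11⟩
    have h6' : v = tk i' := h6
    have h8' : w = tk j' := h8
    have h10' : u = tk k' := h10
    have e1 : i = i' := tk_inj (h1'.symm.trans h6')
    have e2 : j = j' := tk_inj (h2'.symm.trans h8')
    have e3 : k = k' := tk_inj (h2k'.symm.trans h10')
    subst e1 e2 e3
    have h7' : a = sval s i := h7
    have h9' : b = sval s j := h9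
    have h11' : c = sval s k := h11
    rw [StdC_t0' (φ := mulA i j k) trivial, h7', h9',
      h11']
    rfl
  form_im := by
    rintro y z t x ⟨φ, h1⟩ ⟨ψ, h2⟩ h3 h4
    have h1' : y = codeS (encode φ) := h1
    have h2' : z = codeS (encode ψ) := h2
    rw [h1', h2', StdC_conc_codeS] at h3
    rw [h3, StdC_DG] at h4
    have h5 : x = cd (imp φ ψ) := h4
    rw [h5, h1', h2']
    exact ⟨⟨_, rfl⟩, StdC_im' _ _⟩
  form_al := by
    rintro y x ⟨φ, h1⟩ h4
    have h1' : y = codeS (encode φ) := h1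
    rw [h1', StdC_DG] at h4
    have h5 : x = cd (all φ) := h4
    rw [h5, h1']
    exact ⟨⟨_, rfl⟩, StdC_al' _⟩
  conc0 := by
    intro x y h
    rw [StdC_isN] at h
    rw [StdC_conc, h]
    exact ⟨1, ⟨0, rfl⟩, le_rfl, by omega, by omega⟩
  concD := by
    rintro x y z y' z' ⟨q, ⟨k, hk⟩, h1, h2, h3⟩ h4 h5
    have h1' : q ≤ y := h1
    have h2' : y < 2 * q := h2
    have h3' : z + q = x * q + y := h3
    rw [StdC_add] at h4 h5
    rw [StdC_conc]
    refine ⟨2 * q, ⟨k + 1, by rw [hk, pow_succ]; ring⟩, by omega, by omega, ?_⟩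
    have : x * (2 * q) = 2 * (x * q) := by ring
    rw [this]
    omega
  concE := by
    rintro x y z y' z' y'' z'' ⟨q, ⟨k, hk⟩, h1, h2, h3⟩ h4 h5 h6 h7
    have h1' : q ≤ y := h1
    have h2' : y < 2 * q := h2
    have h3' : z + q = x * q + y := h3
    rw [StdC_add] at h4 h5
    rw [StdC_succ] at h6 h7
    rw [StdC_conc]
    refine ⟨2 * q, ⟨k + 1, by rw [hk, pow_succ]; ring⟩, by omega, by omega, ?_⟩
    have : x * (2 * q) = 2 * (x * q) := by ring
    rw [this]
    omega
  nu0 := by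
    intro v z h1 h2
    rw [StdC_isN] at h1 h2
    rw [StdC_nu, h1, h2]
  nuD := by
    intro v z v' z' h1 h2 h3 h4
    rw [StdC_nu] at h1
    rw [StdC_zero] at h2
    rw [StdC_add] at h3
    rw [h1, StdC_DG, ← encode_num_even (Nat.pos_of_ne_zero h2)] at h4
    rw [StdC_nu, h4, ← h3, two_mul]
  nuE := by
    intro v z u v' z' h1 h3 h3' h4
    rw [StdC_nu] at h1
    rw [StdC_add] at h3
    rw [StdC_succ] at h3'
    rw [h1, StdC_DG, ← encode_num_odd] at h4
    rw [StdC_nu, h4, ← h3', ← h3, two_mul]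
  sz1 := by
    intro a m h1 h2
    rw [StdC_isN] at h1
    rw [StdC_isU] at h2
    refine ⟨[], h1, ?_⟩
    change sC * (0 + 1) ≤ m
    omega
  szD := by
    rintro a m b d m' ⟨w, h1, h2⟩ h3 h4 h5
    have h1' : a = codeS w := h1
    have h2' : sC * (w.length + 1) ≤ m := h2
    rw [StdC_isU] at h4
    rw [StdC_add] at h5
    have h6 : ∀ x : Bool, sC * ((w ++ [x]).length + 1) ≤ m' := by
      intro x
      rw [List.length_append, List.length_singleton]
      have : sC * (w.length + 1 + 1) = sC * (w.length + 1) + sC := by ring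
      rw [this]; omega
    rw [h1', StdC_DG, StdC_DG] at h3
    rcases h3 with h3 | h3
    · exact ⟨w ++ [false], h3, h6 _⟩
    · exact ⟨w ++ [true], h3, h6 _⟩
  szS := by
    rintro a m m' ⟨w, h1, h2⟩ h3
    rw [StdC_succ] at h3
    have h2' : sC * (w.length + 1) ≤ m := h2
    exact ⟨w, h1, (by omega : sC * (w.length + 1) ≤ m')⟩
  e20 := by
    intro m q h1 h2
    rw [StdC_isN] at h2
    rw [StdC_zero] at h1
    rw [StdC_e2, h1, h2, pow_zero]
  e2S := by
    intro m q m' q' h1 h2 h3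
    rw [StdC_e2] at h1
    rw [StdC_succ] at h2
    rw [StdC_add] at h3
    rw [StdC_e2, ← h2, pow_succ, ← h3, h1]; ring
  clA := by
    rintro a q z zz t1 w t2 b ⟨T, h1⟩ h2 h3 h4 h5 h6 h7
    have h1' : a = codeS (encodeL T) := h1
    rw [StdC_nu] at h2 h3
    rw [h2, h3, StdC_conc_codeS] at h4
    rw [StdC_isN] at h5
    rw [h4, h5, StdC_conc_codeS] at h6
    rw [h6, h1', StdC_conc_codeS, ← encode_Con] at h7
    exact ⟨T, h1, h7⟩
  psi := by
    rintro m q a b x m2 N y d a' h1 ⟨T, h2, h3⟩ ⟨w, h4, h5⟩ h6 ⟨u, h7⟩ h8 h9 h10 h11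
      ⟨T', φ', h12, h13, h14⟩
    rw [StdC_e2] at h1
    have h2' : a = cdL T := h2
    have h3' : b = cdL (Con T q :: T) := h3
    have h4' : a = codeS w := h4
    have h5' : sC * (w.length + 1) ≤ m := h5
    rw [StdC_mul] at h6
    rw [StdC_add] at h7
    rw [StdC_PW] at h8
    rw [StdC_isN] at h9 h10
    rw [StdC_conc] at h11
    have h12' : b = cdL T' := h12
    have h13' : y = cd φ' := h13
    have h14' : Proves {ψ | ψ ∈ T'} x φ' := h14
    have e1 : encodeL T = w := codeS_inj (h2'.symm.trans h4')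
    have e2 := cdL_inj (h12'.symm.trans h3')
    have e3 : cd φ' = cd bot := by rw [← h13', h9]; rfl
    have e4 := cd_inj e3
    subst e4 e2
    rw [h1] at h14'
    rw [h2'] at h11
    obtain ⟨T'', h15, h16⟩ := hpsi m T x (by rw [e1]; exact h5') (by rw [sq]; omega) h14' d a'
      h10 h11
    rw [← h8] at h16
    exact ⟨T'', bot, h15, h13, h16⟩

end Pool.Agent.Myc
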