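import Pool.Agent.Myc.FamDefs
import Pool.Agent.Myc.StdB
import Pool.Agent.Myc.StdC
import Pool.Agent.Myc.AxC
import Pool.Agent.Myc.NatF

set_option autoImplicit false

namespace Pool.Agent.Myc

open Fm

theorem provF_fv : FVs (fun i => i < 3) provF :=
  xi_good 0 (V := bot) (G := bot) (H := bot) (K := bot) trivial trivial trivial trivial .pp

private theorem FamA_zeroA (P : ℕ → Prop) (x : ℕ) : FVs P (zeroA x) ↔ P x := by
  constructor
  · intro h; exact h (0 : Fin 1)
  · intro h k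
    change Fin 1 at k
    fin_cases k
    exact h

private theorem FamA_succA (P : ℕ → Prop) (x y : ℕ) : FVs P (succA x y) ↔ P x ∧ P y := by
  constructor
  · intro h; exact ⟨h (0 : Fin 2), h (1 : Fin 2)⟩
  · rintro ⟨h1, h2⟩ k
    change Fin 2 at k
    fin_cases k
    · exact h1
    · exact h2

private theorem FamA_addA (P : ℕ → Prop) (x y z : ℕ) :
    FVs P (addA x y z) ↔ P x ∧ P y ∧ P z := by
  constructor
  · intro h; exact ⟨h (0 : Fin 3), h (1 : Fin 3), h (2 : Fin 3)⟩
  · rintro ⟨h1, h2, h3⟩ k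
    change Fin 3 at k
    fin_cases k
    · exact h1
    · exact h2
    · exact h3

private theorem FamA_mulA (P : ℕ → Prop) (x y z : ℕ) :
    FVs P (mulA x y z) ↔ P x ∧ P y ∧ P z := by
  constructor
  · intro h; exact ⟨h (0 : Fin 3), h (1 : Fin 3), h (2 : Fin 3)⟩
  · rintro ⟨h1, h2, h3⟩ k
    change Fin 3 at k
    fin_cases k
    · exact h1
    · exact h2
    · exact h3

theorem Q_closed : ∀ φ ∈ Q, Closed φ := by
  intro φ h
  simp only [Q, List.mem_cons, List.not_mem_nil, or_false] at h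
  rcases h with rfl | rfl | rfl | rfl | rfl | rfl | rfl | rfl | rfl | rfl | rfl | rfl | rfl | rfl |
    rfl <;>
  simp [Closed, FVs, FVs_ex, FVs_or, FVs_neg, FamA_zeroA, FamA_succA, FamA_addA, FamA_mulA]

theorem A0_closed : ∀ φ ∈ A0, Closed φ := by
  intro φ h
  simp only [A0, List.mem_append, List.mem_singleton] at h
  rcases h with h | rfl
  · exact Q_closed φ h
  · refine closed_alls ?_
    refine ⟨?_, ?_⟩
    · rw [FamA_zeroA]; omega
    · rw [FVs_neg]; exact provF_fv

theorem BaseA_closed (cE sC : ℕ) : ∀ φ ∈ BaseA cE sC, Closed φ := by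
  intro φ h
  simp only [BaseA, List.mem_append, List.mem_map] at h
  rcases h with h | ⟨p, hp, rfl⟩
  · exact A0_closed φ h
  · refine closed_alls ?_
    exact FVs_subst (xi_good sC (V := bot) (G := bot) (H := bot) (K := bot) trivial trivial
      trivial trivial) (axs_fv _ _ _ p hp)

theorem Con_closed (T : List AFm) (N : ℕ) : Closed (Con T N) := by
  unfold Closed Con
  rw [FVs_ex, FVs_and, FVs_ex, FVs_and, FVs_ex, FVs_and, FVs_neg]
  refine ⟨(FVs_num _).mono ?_, (FVs_num _).mono ?_, (FVs_num _).mono ?_, ?_⟩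
  · intro i hi; left; omega
  · intro i hi; left; omega
  · intro i hi; left; omega
  · refine FVs_ap provF_fv _ _ rfl ?_
    intro i hi
    simp only [List.mem_cons, List.not_mem_nil, or_false] at hi
    rcases hi with rfl | rfl | rfl
    · right; exact ⟨0, rfl, Or.inl rfl⟩
    · right; exact ⟨1, rfl, Or.inr ⟨0, rfl, Or.inl rfl⟩⟩
    · left; rfl

private theorem FamA_sat_zeroA (x : ℕ) (e : ℕ → ℕ) : Sat NN (zeroA x) e ↔ e x = 0 := Iff.rfl
private theorem FamA_sat_succA (x y : ℕ) (e : ℕ → ℕ) :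
    Sat NN (succA x y) e ↔ e x + 1 = e y := Iff.rfl
private theorem FamA_sat_addA (x y z : ℕ) (e : ℕ → ℕ) :
    Sat NN (addA x y z) e ↔ e x + e y = e z := Iff.rfl
private theorem FamA_sat_mulA (x y z : ℕ) (e : ℕ → ℕ) :
    Sat NN (mulA x y z) e ↔ e x * e y = e z := Iff.rfl
private theorem FamA_sat_eq (x y : ℕ) (e : ℕ → ℕ) :
    Sat NN (eq x y) e ↔ e x = e y := Iff.rfl

private theorem FamA_s0 (a : ℕ) (e : ℕ → ℕ) : scons a e 0 = a := rfl
private theorem FamA_s1 (a : ℕ) (e : ℕ → ℕ) : scons a e 1 = e 0 := rfl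
private theorem FamA_s2 (a : ℕ) (e : ℕ → ℕ) : scons a e 2 = e 1 := rfl
private theorem FamA_s3 (a : ℕ) (e : ℕ → ℕ) : scons a e 3 = e 2 := rfl
private theorem FamA_s4 (a : ℕ) (e : ℕ → ℕ) : scons a e 4 = e 3 := rfl

private theorem FamA_Q_true : ∀ φ ∈ Q, ∀ e, Sat NN φ e := by
  intro φ h e
  simp only [Q, List.mem_cons, List.not_mem_nil, or_false] at h
  rcases h with rfl | rfl | rfl | rfl | rfl | rfl | rfl | rfl | rfl | rfl | rfl | rfl | rfl | rfl |
    rfl <;>
  simp only [sat_ex, sat_all, sat_imp, sat_or, sat_neg, FamA_sat_zeroA, FamA_sat_succA,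
    FamA_sat_addA, FamA_sat_mulA, FamA_sat_eq, FamA_s0, FamA_s1, FamA_s2, FamA_s3, FamA_s4]
  · exact ⟨0, rfl⟩
  · intro a b; omega
  · intro a; exact ⟨a + 1, rfl⟩
  · intro a b c; omega
  · intro a b; exact ⟨b + a, rfl⟩
  · intro a b c d; omega
  · intro a b; exact ⟨b * a, rfl⟩
  · intro a b c d h1 h2; rw [← h1, ← h2]
  · intro a b; omega
  · intro a b c; omega
  · intro a
    rcases Nat.eq_zero_or_pos a with h | h
    · exact Or.inl h
    · exact Or.inr ⟨a - 1, by omega⟩
  · intro a b; omega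
  · intro a b c d f; omega
  · intro a b h; rw [h, Nat.mul_zero]
  · intro a b c d f h1 h2 h3
    rw [← h1, Nat.mul_add, Nat.mul_one, h2, h3]

theorem A0_true : ∀ φ ∈ A0, ∀ e, Sat NN φ e := by
  intro φ h
  simp only [A0, List.mem_append, List.mem_singleton] at h
  rcases h with h | rfl
  · exact FamA_Q_true φ h
  · unfold zProv
    rw [sat_alls]
    intro e h0 h
    have h0' : e 1 = 0 := h0
    rw [sat_provF] at h
    obtain ⟨T, φ, -, -, l, -, hl⟩ := h
    rw [h0', length_encodeL] at hl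
    simp only [List.map_reverse, List.sum_reverse, List.map_cons, List.sum_cons] at hl
    have := len_pos φ
    omega

private theorem FamA_cc {A T : List AFm} {d a' : ℕ} (hd : d = cdL A) (hc : Cc d (cdL T) a') :
    a' = cdL (A ++ T) := by
  rw [hd] at hc
  have h : Cc (codeS (encodeL A)) (codeS (encodeL T)) a' := hc
  rw [Cc_codeS] at h
  rw [h]
  unfold cdL encodeL
  rw [List.flatMap_append]

/-- The base theory is true, provided that the last axiom is. -/
theorem BaseA_true (sC cE : ℕ)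
    (hpsi : ∀ (m : ℕ) (T : List AFm) (x : ℕ), sC * ((encodeL T).length + 1) ≤ m → x ≤ m ^ 2 →
      Proves {ψ | ψ ∈ Con T (2 ^ m) :: T} x bot → Proves {ψ | ψ ∈ A0 ++ T} (m ^ cE) bot) :
    ∀ φ ∈ BaseA cE sC, ∀ e, Sat NN φ e := by
  intro φ h
  simp only [BaseA, List.mem_append, List.mem_map] at h
  rcases h with h | ⟨p, hp, rfl⟩
  · exact A0_true φ h
  · have hS : SMax (SN sC) cE (cdL A0) sC := by
      refine SMax_SN sC cE (cdL A0) ?_
      intro m T x h1 h2 h3 d a' hd hc
      exact ⟨A0 ++ T, FamA_cc hd hc, hpsi m T x h1 h2 h3⟩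
    rw [sat_alls]
    intro e
    rw [sat_subst_xi]
    have h1 := (models_iff (SN sC) cE (cdL A0) sC).mpr hS (alls p.1 p.2) (by
      unfold SigX
      rw [List.mem_append]
      right
      rw [List.mem_map]
      exact ⟨p, hp, rfl⟩)
    exact (sat_alls _ _ _).mp h1 e

end Pool.Agent.Myc
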