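import Pool.Agent.Myc.StdDefs

set_option autoImplicit false

/-!
# The base theory and the principle for families of short proofs
-/

namespace Pool.Agent.Myc

open Fm

/-- `P (a, x, y)` is false for `x = 0`. -/
def zProv : AFm := alls 3 (imp (zeroA 1) (neg provF))

/-- A small theory. -/
def A0 : List AFm := Q ++ [zProv]

/-- The base theory. -/
def BaseA (cE sC : ℕ) : List AFm :=
  A0 ++ (axs cE (cdL A0) sC).map (fun p => alls p.1 (subst (xi sC bot bot bot bot) p.2))

end Pool.Agent.Myc
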