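import Pool.Agent.Myc.NumA

set_option autoImplicit false

namespace Pool.Agent.Myc

open Fm

theorem NumB_chain {A : Set AFm} {f : ℕ → AFm} {n0 c0 D : ℕ} (h0 : Pv A c0 (f n0))
    (hs : ∀ n, n0 ≤ n → Pv A (D * (n + 1)) (imp (f n) (f (n + 1)))) (n : ℕ) (hn : n0 ≤ n) :
    Pv A (c0 + 2 * D * (n + 1) ^ 2) (f n) := by
  induction n, hn using Nat.le_induction with
  | base => exact h0.mono (by nlinarith)
  | succ n hn ih =>
    refine ((hs n hn).mp' ih).mono ?_
    nlinarith

theorem NumB_ap0 {φ : AFm} (h : FVs (fun i => i < 1) φ) : ap φ [0] = φ := by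
  unfold ap
  conv_rhs => rw [← rename_id φ]
  refine rename_congr h (fun i hi => ?_)
  have : i = 0 := by omega
  subst this; rfl

theorem NumB_sub1 {φ : AFm} (h : FVs (fun i => i < 1) φ) (x : ℕ) :
    rename (ext ![x]) φ = ap φ [x] := by
  refine rename_congr h (fun i hi => ?_)
  have : i = 0 := by omega
  subst this
  simp [ext]

section
variable (sC : ℕ) (V G H K : AFm)

theorem NumB_G (hG : FVs (fun i => i < 1) G) (x : ℕ) :
    subst (xi sC V G H K) (GX x) = ap G [x] := NumB_sub1 hG x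
theorem NumB_H (hG : FVs (fun i => i < 1) H) (x : ℕ) :
    subst (xi sC V G H K) (HX x) = ap H [x] := NumB_sub1 hG x
theorem NumB_K (hG : FVs (fun i => i < 1) K) (x : ℕ) :
    subst (xi sC V G H K) (KX x) = ap K [x] := NumB_sub1 hG x

theorem NumB_zero (x : ℕ) : subst (xi sC V G H K) (zeroX x) = zeroA x := by
  show rename (ext ![x]) (zeroA 0) = zeroA x
  unfold zeroA
  simp only [rename]
  congr 1
  funext k
  fin_cases k; rfl

theorem NumB_succ (x y : ℕ) : subst (xi sC V G H K) (succX x y) = succA x y := by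
  show rename (ext ![x, y]) (succA 0 1) = succA x y
  unfold succA
  simp only [rename]
  congr 1
  funext k
  fin_cases k <;> rfl

theorem NumB_add (x y z : ℕ) : subst (xi sC V G H K) (addX x y z) = addA x y z := by
  show rename (ext ![x, y, z]) (addA 0 1 2) = addA x y z
  unfold addA
  simp only [rename]
  congr 1
  funext k
  fin_cases k <;> rfl

theorem NumB_mul (x y z : ℕ) : subst (xi sC V G H K) (mulX x y z) = mulA x y z := by
  show rename (ext ![x, y, z]) (mulA 0 1 2) = mulA x y z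
  unfold mulA
  simp only [rename]
  congr 1
  funext k
  fin_cases k <;> rfl

end

section
variable {M : Type} (S : XStr M)

theorem NumB_satG (x : ℕ) (e : ℕ → M) : Sat S (GX x) e ↔ GR S (e x) := by
  exact Iff.of_eq (congrArg (S.rel .G) (comp_vec1 e x))
theorem NumB_satH (x : ℕ) (e : ℕ → M) : Sat S (HX x) e ↔ HR S (e x) := by
  exact Iff.of_eq (congrArg (S.rel .H) (comp_vec1 e x))
theorem NumB_satK (x : ℕ) (e : ℕ → M) : Sat S (KX x) e ↔ KR S (e x) := by
  exact Iff.of_eq (congrArg (S.rel .K) (comp_vec1 e x))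
theorem NumB_satZero (x : ℕ) (e : ℕ → M) : Sat S (zeroX x) e ↔ zeroR S (e x) := by
  exact Iff.of_eq (congrArg (S.rel .zero) (comp_vec1 e x))
theorem NumB_satSucc (x y : ℕ) (e : ℕ → M) : Sat S (succX x y) e ↔ succR S (e x) (e y) := by
  exact Iff.of_eq (congrArg (S.rel .succ) (comp_vec2 e x y))
theorem NumB_satAdd (x y z : ℕ) (e : ℕ → M) :
    Sat S (addX x y z) e ↔ addR S (e x) (e y) (e z) := by
  exact Iff.of_eq (congrArg (S.rel .add) (comp_vec3 e x y z))
theorem NumB_satMul (x y z : ℕ) (e : ℕ → M) :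
    Sat S (mulX x y z) e ↔ mulR S (e x) (e y) (e z) := by
  exact Iff.of_eq (congrArg (S.rel .mul) (comp_vec3 e x y z))

end

theorem NumB_Uf_succ (k : ℕ) : Uf (k + 1) = ex (and (Uf k) (succA 0 1)) := rfl

theorem NumB_size_le (k : ℕ) : Nat.size k ≤ k := by
  rw [Nat.size_le]
  exact Nat.lt_two_pow_self

variable (cE sC : ℕ) (T : List AFm) (hT : ∀ φ ∈ BaseA cE sC, φ ∈ T) (hc : ∀ φ ∈ T, Closed φ)
include hT hc

theorem NumB_stepE : ∃ C, ∀ m, 0 < m → Pv {ψ | ψ ∈ T} (C * (m + 1))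
    (imp (alls 3 (imp (ap (Uf m) [0]) (imp (ap (Uf m) [1]) (imp (addA 0 1 2)
      (ap (Uf (m + m)) [2]))))) (imp (all (imp (num m) (Uf m)))
        (all (imp (num (2 * m)) (Uf (m + m)))))) := by
  obtain ⟨C, hC⟩ := fam cE sC T hT hc (φ := imp (alls 3 (imp (GX 0) (imp (GX 1)
    (imp (addX 0 1 2) (KX 2))))) (imp (all (imp (HX 0) (GX 0)))
      (all (imp (ex (and (HX 0) (addX 0 0 1))) (KX 0))))) (by
    intro M _ S _ _ _ e
    simp only [alls, sat_all, sat_imp, sat_ex, sat_and, NumB_satG, NumB_satH, NumB_satK,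
      NumB_satAdd, scons]
    rintro h1 h2 a ⟨b, hb, hadd⟩
    exact h1 _ _ _ (h2 b hb) (h2 b hb) hadd)
  refine ⟨C * 1000, fun m hm => ?_⟩
  have h := hC bot (Uf m) (num m) (Uf (m + m)) trivial (Uf_fv m) (FVs_num m) (Uf_fv (m + m))
  simp only [subst, subst_alls, subst_ex, subst_and, NumB_G _ _ _ _ _ (Uf_fv m),
      NumB_H _ _ _ _ _ (FVs_num m), NumB_K _ _ _ _ _ (Uf_fv (m + m)), NumB_add] at h
  rw [NumB_ap0 (FVs_num m), NumB_ap0 (Uf_fv (m + m)), ← num_even hm] at h
  have e1 : (imp (num m) (ap (Uf m) [0])) = imp (num m) (Uf m) := by rw [NumB_ap0 (Uf_fv m)]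
  rw [e1] at h
  refine h.mono ?_
  have h1 := len_Uf m
  have h2 := len_Uf (m + m)
  have h3 := len_num m
  have h4 := NumB_size_le m
  have h5 : len (bot : AFm) = 4 := rfl
  rw [mul_assoc]
  refine Nat.mul_le_mul_left _ ?_
  omega

theorem NumB_stepO : ∃ C, ∀ m, Pv {ψ | ψ ∈ T} (C * (m + 1))
    (imp (alls 3 (imp (ap (Uf m) [0]) (imp (ap (Uf m) [1]) (imp (addA 0 1 2)
      (ap (Uf (m + m)) [2]))))) (imp (all (imp (num m) (Uf m)))
        (all (imp (num (2 * m + 1)) (Uf (m + m + 1)))))) := by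
  obtain ⟨C, hC⟩ := fam cE sC T hT hc (φ := imp (alls 3 (imp (GX 0) (imp (GX 1)
    (imp (addX 0 1 2) (KX 2))))) (imp (all (imp (HX 0) (GX 0)))
      (all (imp (ex (ex (and (HX 0) (and (addX 0 0 1) (succX 1 2)))))
        (ex (and (KX 0) (succX 0 1))))))) (by
    intro M _ S _ _ _ e
    simp only [alls, sat_all, sat_imp, sat_ex, sat_and, NumB_satG, NumB_satH, NumB_satK,
      NumB_satAdd, NumB_satSucc, scons]
    rintro h1 h2 a ⟨c, b, hb, hadd, hs⟩
    exact ⟨c, h1 _ _ _ (h2 b hb) (h2 b hb) hadd, hs⟩)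
  refine ⟨C * 1000, fun m => ?_⟩
  have h := hC bot (Uf m) (num m) (Uf (m + m)) trivial (Uf_fv m) (FVs_num m) (Uf_fv (m + m))
  simp only [subst, subst_alls, subst_ex, subst_and, NumB_G _ _ _ _ _ (Uf_fv m),
      NumB_H _ _ _ _ _ (FVs_num m), NumB_K _ _ _ _ _ (Uf_fv (m + m)), NumB_add,
      NumB_succ] at h
  rw [NumB_ap0 (FVs_num m), NumB_ap0 (Uf_fv (m + m)), ← num_odd m, ← NumB_Uf_succ] at h
  have e1 : (imp (num m) (ap (Uf m) [0])) = imp (num m) (Uf m) := by rw [NumB_ap0 (Uf_fv m)]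
  rw [e1] at h
  refine h.mono ?_
  have h1 := len_Uf m
  have h2 := len_Uf (m + m)
  have h3 := len_num m
  have h4 := NumB_size_le m
  have h5 : len (bot : AFm) = 4 := rfl
  rw [mul_assoc]
  refine Nat.mul_le_mul_left _ ?_
  omega

theorem NumB_base : ∃ C, Pv {ψ | ψ ∈ T} C (all (imp (num 0) (Uf 0))) := by
  obtain ⟨C, hC⟩ := fam cE sC T hT hc (φ := all (imp (zeroX 0) (zeroX 0))) (by
    intro M _ S _ _ _ e a h
    exact h)
  have h := hC bot bot bot bot trivial trivial trivial trivial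
  simp only [subst, NumB_zero] at h
  have e : num 0 = zeroA 0 := by rw [num]
  rw [e]
  exact ⟨_, h⟩

theorem fam_numU : ∃ C, ∀ k, Pv {ψ | ψ ∈ T} (C * (k + 1) ^ 3) (all (imp (num k) (Uf k))) := by
  obtain ⟨C0, h0⟩ := NumB_base cE sC T hT hc
  obtain ⟨C1, h1⟩ := NumB_stepE cE sC T hT hc
  obtain ⟨C2, h2⟩ := NumB_stepO cE sC T hT hc
  obtain ⟨C3, h3⟩ := fam_addU cE sC T hT hc
  refine ⟨C0 + 8 * C1 + 8 * C2 + 8 * C3, fun k => ?_⟩
  induction k using Nat.strong_induction_on with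
  | _ k ih =>
    obtain ⟨m, hm⟩ := Nat.even_or_odd' k
    rcases hm with hm | hm
    · rcases Nat.eq_zero_or_pos m with h | h
      · subst h
        simp only [mul_zero] at hm
        subst hm
        exact h0.mono (by nlinarith)
      · have ihm := ih m (by omega)
        have hk : m + m = k := by omega
        have := ((h1 m h).mp' (h3 m m)).mp' ihm
        rw [← hm, hk] at this
        refine this.mono ?_
        subst hk
        have k1 : 4 * (m + 1) + 8 * (m + 1) ^ 3 ≤ 8 * (m + m + 1) ^ 3 := by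
          obtain ⟨l, rfl⟩ : ∃ l, m = l + 1 := ⟨m - 1, by omega⟩
          ring_nf
          nlinarith [Nat.zero_le l, Nat.zero_le (l ^ 2), Nat.zero_le (l ^ 3)]
        have k2 : 2 * (m + m + 1) ^ 2 + 8 * (m + 1) ^ 3 ≤ 8 * (m + m + 1) ^ 3 := by
          obtain ⟨l, rfl⟩ : ∃ l, m = l + 1 := ⟨m - 1, by omega⟩
          ring_nf
          nlinarith [Nat.zero_le l, Nat.zero_le (l ^ 2), Nat.zero_le (l ^ 3)]
        have k3 : (m + 1) ^ 3 ≤ (m + m + 1) ^ 3 := Nat.pow_le_pow_left (by omega) 3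
        have a1 := Nat.mul_le_mul_left C1 k1
        have a2 := Nat.mul_le_mul_left C3 k2
        have a3 := Nat.mul_le_mul_left C0 k3
        have a4 := Nat.mul_le_mul_left C2 k3
        linarith
    · have ihm := ih m (by omega)
      have hk : m + m + 1 = k := by omega
      have := ((h2 m).mp' (h3 m m)).mp' ihm
      rw [← hm, hk] at this
      refine this.mono ?_
      subst hk
      have k1 : 4 * (m + 1) + 8 * (m + 1) ^ 3 ≤ 8 * (m + m + 1 + 1) ^ 3 := by
        ring_nf
        nlinarith [Nat.zero_le m, Nat.zero_le (m ^ 2), Nat.zero_le (m ^ 3)]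
      have k2 : 2 * (m + m + 1) ^ 2 + 8 * (m + 1) ^ 3 ≤ 8 * (m + m + 1 + 1) ^ 3 := by
        ring_nf
        nlinarith [Nat.zero_le m, Nat.zero_le (m ^ 2), Nat.zero_le (m ^ 3)]
      have k3 : (m + 1) ^ 3 ≤ (m + m + 1 + 1) ^ 3 := Nat.pow_le_pow_left (by omega) 3
      have a1 := Nat.mul_le_mul_left C2 k1
      have a2 := Nat.mul_le_mul_left C3 k2
      have a3 := Nat.mul_le_mul_left C0 k3
      have a4 := Nat.mul_le_mul_left C1 k3
      linarith

theorem fam_exNum : ∃ C, ∀ k, Pv {ψ | ψ ∈ T} (C * (Nat.size k + 1) ^ 2) (ex (num k)) := by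
  obtain ⟨C0, h0⟩ := fam cE sC T hT hc (φ := ex (zeroX 0)) (by
    intro M _ S _ hq _ e
    rw [sat_ex]
    obtain ⟨x, hx⟩ := hq.zero_ex
    exact ⟨x, (NumB_satZero S 0 _).2 hx⟩)
  obtain ⟨C1, h1⟩ := fam cE sC T hT hc (φ := imp (ex (GX 0)) (ex (ex (and (GX 0)
      (addX 0 0 1))))) (by
    intro M _ S _ hq _ e
    simp only [sat_imp, sat_ex, sat_and, NumB_satG, NumB_satAdd, scons]
    rintro ⟨a, ha⟩
    obtain ⟨z, hz⟩ := hq.add_tot a a
    exact ⟨z, a, ha, hz⟩)
  obtain ⟨C2, h2⟩ := fam cE sC T hT hc (φ := imp (ex (GX 0)) (ex (ex (ex (and (GX 0)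
      (and (addX 0 0 1) (succX 1 2))))))) (by
    intro M _ S _ hq _ e
    simp only [sat_imp, sat_ex, sat_and, NumB_satG, NumB_satAdd, NumB_satSucc, scons]
    rintro ⟨a, ha⟩
    obtain ⟨z, hz⟩ := hq.add_tot a a
    obtain ⟨w, hw⟩ := hq.succ_tot z
    exact ⟨w, z, a, ha, hz, hw⟩)
  have h0' : Pv {ψ | ψ ∈ T} (C0 * 17) (ex (num 0)) := by
    have h := h0 bot bot bot bot trivial trivial trivial trivial
    simp only [subst_ex, NumB_zero] at h
    have e : num 0 = zeroA 0 := by rw [num]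
    rw [e]
    exact h
  have h1' : ∀ m, 0 < m → Pv {ψ | ψ ∈ T} (C1 * (300 * (Nat.size m + 1)))
      (imp (ex (num m)) (ex (num (2 * m)))) := by
    intro m hm
    have h := h1 bot (num m) bot bot trivial (FVs_num m) trivial trivial
    simp only [subst, subst_ex, subst_and, NumB_G _ _ _ _ _ (FVs_num m), NumB_add] at h
    rw [NumB_ap0 (FVs_num m), ← num_even hm] at h
    refine h.mono (Nat.mul_le_mul_left _ ?_)
    have h3 := len_num m
    have h5 : len (bot : AFm) = 4 := rfl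
    omega
  have h2' : ∀ m, Pv {ψ | ψ ∈ T} (C2 * (300 * (Nat.size m + 1)))
      (imp (ex (num m)) (ex (num (2 * m + 1)))) := by
    intro m
    have h := h2 bot (num m) bot bot trivial (FVs_num m) trivial trivial
    simp only [subst, subst_ex, subst_and, NumB_G _ _ _ _ _ (FVs_num m), NumB_add,
      NumB_succ] at h
    rw [NumB_ap0 (FVs_num m), ← num_odd m] at h
    refine h.mono (Nat.mul_le_mul_left _ ?_)
    have h3 := len_num m
    have h5 : len (bot : AFm) = 4 := rfl
    omega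
  refine ⟨17 * C0 + 600 * C1 + 600 * C2, fun k => ?_⟩
  induction k using Nat.strong_induction_on with
  | _ k ih =>
    have hb : ∀ {m : ℕ}, Nat.size k = Nat.size m + 1 →
        2 * (C1 * (300 * (Nat.size m + 1))) +
          (17 * C0 + 600 * C1 + 600 * C2) * (Nat.size m + 1) ^ 2 ≤
        (17 * C0 + 600 * C1 + 600 * C2) * (Nat.size k + 1) ^ 2 ∧
        2 * (C2 * (300 * (Nat.size m + 1))) +
          (17 * C0 + 600 * C1 + 600 * C2) * (Nat.size m + 1) ^ 2 ≤
        (17 * C0 + 600 * C1 + 600 * C2) * (Nat.size k + 1) ^ 2 := by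
      intro m hm
      rw [hm]
      generalize Nat.size m + 1 = s
      have e : (s + 1) ^ 2 = s ^ 2 + (2 * s + 1) := by ring
      rw [e]
      constructor <;> nlinarith
    obtain ⟨m, hm⟩ := Nat.even_or_odd' k
    rcases hm with hm | hm
    · rcases Nat.eq_zero_or_pos m with h | h
      · subst h
        simp only [mul_zero] at hm
        subst hm
        refine h0'.mono ?_
        rw [Nat.size_zero]
        omega
      · have ihm := ih m (by omega)
        have := (h1' m h).mp' ihm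
        rw [← hm] at this
        refine this.mono ?_
        refine (hb ?_).1
        rw [hm]
        have := Nat.size_bit (b := false) (n := m) (by simp [Nat.bit]; omega)
        simpa [Nat.bit] using this
    · have ihm := ih m (by omega)
      have := (h2' m).mp' ihm
      rw [← hm] at this
      refine this.mono ?_
      refine (hb ?_).2
      rw [hm]
      have := Nat.size_bit (b := true) (n := m) (by simp [Nat.bit])
      simpa [Nat.bit] using this

omit hT hc in
/-- `pwX` does not contain `F, G, H, K`. -/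
theorem NumB_subst_pwX {V G H K : AFm} (hV : FVs (fun i => i < 3) V)
    (hG : FVs (fun i => i < 1) G) (hH : FVs (fun i => i < 1) H) (hK : FVs (fun i => i < 1) K)
    (c : ℕ) : subst (xi sC V G H K) (pwX c) = subst (xi sC bot bot bot bot) (pwX c) := by
  have g1 := xi_good sC hV hG hH hK
  have g2 := xi_good sC (V := bot) (G := bot) (H := bot) (K := bot) trivial trivial trivial trivial
  induction c with
  | zero => simp only [pwX, isNX, subst_ap g1, subst_ap g2, subst_xi_emb]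
  | succ c ih =>
    simp only [pwX, exL, subst_exN g1, subst_exN g2, subst_and, subst_ap g1, subst_ap g2, ih,
      NumB_mul]

omit hT hc in
theorem NumB_satPwSucc {M : Type} (S : XStr M) (c : ℕ) (e : ℕ → M) :
    Sat S (pwX (c + 1)) e ↔ ∃ a, PW S (e 0) c a ∧ mulR S a (e 0) (e 1) := by
  rw [sat_pwX]
  rfl

/-- If `m` is the `n`-th successor of zero then `m ^ c` is the `n ^ c`-th one. -/
theorem fam_powU (c : ℕ) : ∃ C, ∀ n, Pv {ψ | ψ ∈ T} (C * (n + 1) ^ (3 * (c + 1)))
    (alls 2 (imp (ap (Uf n) [0]) (imp (subst (xi sC bot bot bot bot) (pwX c))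
      (ap (Uf (n ^ c)) [1])))) := by
  induction c with
  | zero =>
    obtain ⟨C, hC⟩ := fam cE sC T hT hc (φ := alls 2 (imp (GX 0) (imp (pwX 0)
      (ap (ex (and (zeroX 0) (succX 0 1))) [1])))) (by
      intro M _ S _ hq _ e
      simp only [alls, sat_all, sat_imp, NumB_satG, sat_pwX, sat_ap, sat_ex, sat_and,
        NumB_satZero, NumB_satSucc, scons]
      intro a b _ hb
      have h1 : IsU S 1 a := (isN_iff_isU hq 1 a).1 hb
      exact h1)
    refine ⟨C * 200, fun n => ?_⟩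
    have h := hC bot (Uf n) bot bot trivial (Uf_fv n) trivial trivial
    have g1 := xi_good sC (V := bot) (G := Uf n) (H := bot) (K := bot) trivial (Uf_fv n)
      trivial trivial
    simp only [subst, subst_alls, subst_ex, subst_and, NumB_G _ _ _ _ _ (Uf_fv n), NumB_zero,
      NumB_succ, subst_ap g1,
      NumB_subst_pwX sC (V := bot) (G := Uf n) (H := bot) (K := bot) trivial (Uf_fv n)
        trivial trivial] at h
    refine h.mono ?_
    have h3 := len_Uf n
    have h5 : len (bot : AFm) = 4 := rfl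
    have h6 : n + 1 ≤ (n + 1) ^ (3 * (0 + 1)) := by
      conv_lhs => rw [← pow_one (n + 1)]
      exact Nat.pow_le_pow_right (by omega) (by omega)
    rw [mul_assoc]
    refine Nat.mul_le_mul_left _ ?_
    omega
  | succ c ih =>
    obtain ⟨C0, h0⟩ := ih
    obtain ⟨C1, h1⟩ := fam_mulU cE sC T hT hc
    obtain ⟨C, hC⟩ := fam cE sC T hT hc (φ := imp (alls 3 (imp (GX 0) (imp (HX 1)
      (imp (mulX 0 1 2) (KX 2))))) (imp (alls 2 (imp (HX 0) (imp (pwX c) (GX 1))))
        (alls 2 (imp (HX 0) (imp (pwX (c + 1)) (KX 1)))))) (by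
      intro M _ S _ hq _ e
      simp only [alls, sat_all, sat_imp, NumB_satG, NumB_satH, NumB_satK, sat_pwX,
        NumB_satMul, scons]
      rintro h1 h2 a b hb ⟨w, hw, hm⟩
      exact h1 _ _ _ (h2 _ _ hb hw) hb hm)
    refine ⟨2 * (2 * (C * 1000) + C1 * 8) + C0, fun n => ?_⟩
    have h := hC bot (Uf (n ^ c)) (Uf n) (Uf (n ^ (c + 1))) trivial (Uf_fv _) (Uf_fv _) (Uf_fv _)
    simp only [subst, subst_alls, NumB_G _ _ _ _ _ (Uf_fv (n ^ c)),
      NumB_H _ _ _ _ _ (Uf_fv n), NumB_K _ _ _ _ _ (Uf_fv (n ^ (c + 1))), NumB_mul,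
      NumB_subst_pwX sC (V := bot) (G := Uf (n ^ c)) (H := Uf n) (K := Uf (n ^ (c + 1)))
        trivial (Uf_fv _) (Uf_fv _) (Uf_fv _)] at h
    have h4 := h1 (n ^ c) n
    rw [← pow_succ] at h4
    have h5 := (h.mp' h4).mp' (h0 n)
    refine h5.mono ?_
    have l1 := len_Uf n
    have l2 := len_Uf (n ^ c)
    have l3 := len_Uf (n ^ (c + 1))
    have l5 : len (bot : AFm) = 4 := rfl
    set X := (n + 1) ^ (3 * (c + 1 + 1)) with hX
    have p0 : 1 ≤ X := Nat.one_le_pow _ _ (by omega)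
    have p1 : n ≤ X := (Nat.le_succ n).trans (by
      conv_lhs => rw [← Nat.add_one, ← pow_one (n + 1)]
      exact Nat.pow_le_pow_right (by omega) (by omega))
    have p2 : n ^ c ≤ X := (Nat.pow_le_pow_left (Nat.le_succ n) c).trans
      (Nat.pow_le_pow_right (by omega) (by omega))
    have p3 : n ^ (c + 1) ≤ X := (Nat.pow_le_pow_left (Nat.le_succ n) (c + 1)).trans
      (Nat.pow_le_pow_right (by omega) (by omega))
    have p4 : (n + 1) ^ (3 * (c + 1)) ≤ X := Nat.pow_le_pow_right (by omega) (by omega)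
    have p5 : ((n ^ c + 1) * (n + 1)) ^ 3 ≤ 8 * X := by
      have q1 : n ^ c + 1 ≤ 2 * (n + 1) ^ c := by
        have := Nat.pow_le_pow_left (Nat.le_succ n) c
        have := Nat.one_le_pow c (n + 1) (by omega)
        simp only [Nat.succ_eq_add_one] at *
        omega
      calc ((n ^ c + 1) * (n + 1)) ^ 3 ≤ (2 * (n + 1) ^ c * (n + 1)) ^ 3 :=
            Nat.pow_le_pow_left (Nat.mul_le_mul_right _ q1) 3
        _ = 8 * (n + 1) ^ (3 * (c + 1)) := by ring
        _ ≤ 8 * X := Nat.mul_le_mul_left _ p4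
    have a1 : C * (1 + len (bot : AFm) + len (Uf (n ^ c)) + len (Uf n) +
        len (Uf (n ^ (c + 1)))) ≤ C * 1000 * X := by
      rw [mul_assoc]
      refine Nat.mul_le_mul_left _ ?_
      omega
    have a2 := Nat.mul_le_mul_left C1 p5
    have a3 := Nat.mul_le_mul_left C0 p4
    nlinarith

end Pool.Agent.Myc
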