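import Pool.Agent.Myc.PudC
import Pool.Agent.Myc.NumB

set_option autoImplicit false

namespace Pool.Agent.Myc

open Fm

/-! ### Instances of formulas of the auxiliary language -/

theorem FinA_ext1 (a : ℕ) : ext ![a] = fun i => [a].getD i 0 := by
  funext i; rcases i with _ | i <;> simp [ext]
theorem FinA_ext2 (a b : ℕ) : ext ![a, b] = fun i => [a, b].getD i 0 := by
  funext i; rcases i with _ | _ | i <;> simp [ext]
theorem FinA_ext3 (a b c : ℕ) : ext ![a, b, c] = fun i => [a, b, c].getD i 0 := by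
  funext i; rcases i with _ | _ | _ | i <;> simp [ext]

section
variable (sC : ℕ) (V G H K : AFm)

theorem FinA_G (x : ℕ) : subst (xi sC V G H K) (GX x) = ap G [x] :=
  congrArg (fun ρ => rename ρ G) (FinA_ext1 x)
theorem FinA_H (x : ℕ) : subst (xi sC V G H K) (HX x) = ap H [x] :=
  congrArg (fun ρ => rename ρ H) (FinA_ext1 x)
theorem FinA_K (x : ℕ) : subst (xi sC V G H K) (KX x) = ap K [x] :=
  congrArg (fun ρ => rename ρ K) (FinA_ext1 x)
theorem FinA_pp (a x y : ℕ) : subst (xi sC V G H K) (ppX a x y) = ap provF [a, x, y] :=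
  congrArg (fun ρ => rename ρ provF) (FinA_ext3 a x y)
theorem FinA_add (x y z : ℕ) : subst (xi sC V G H K) (addX x y z) = addA x y z := by
  simp only [addX, addA, subst, xi, rename]
  congr 1; funext k; fin_cases k <;> rfl
theorem FinA_mul (x y z : ℕ) : subst (xi sC V G H K) (mulX x y z) = mulA x y z := by
  simp only [mulX, mulA, subst, xi, rename]
  congr 1; funext k; fin_cases k <;> rfl

variable {V G H K}

theorem FinA_isN (hV : FVs (fun i => i < 3) V) (hG : FVs (fun i => i < 1) G)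
    (hH : FVs (fun i => i < 1) H) (hK : FVs (fun i => i < 1) K) (k x : ℕ) :
    subst (xi sC V G H K) (isNX k x) = ap (num k) [x] := by
  rw [isNX, subst_ap (xi_good sC hV hG hH hK), subst_xi_emb]

theorem FinA_pw (hV : FVs (fun i => i < 3) V) (hG : FVs (fun i => i < 1) G)
    (hH : FVs (fun i => i < 1) H) (hK : FVs (fun i => i < 1) K) (c : ℕ) :
    subst (xi sC V G H K) (pwX c) = subst (xi sC bot bot bot bot) (pwX c) := by
  have hb : Good arX (xi sC bot bot bot bot) := xi_good sC trivial trivial trivial trivial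
  induction c with
  | zero =>
    rw [pwX, FinA_isN sC hV hG hH hK, FinA_isN sC (V := bot) (G := bot) (H := bot) (K := bot)
      trivial trivial trivial trivial]
  | succ c ih =>
    simp only [pwX, exL]
    rw [subst_exN (xi_good sC hV hG hH hK), subst_exN hb, subst_and, subst_and,
      subst_ap (xi_good sC hV hG hH hK), subst_ap hb, ih, FinA_mul, FinA_mul]

end

theorem FinA_ap0 {φ : AFm} (h : FVs (fun i => i < 1) φ) : ap φ [0] = φ := by
  unfold ap
  rw [rename_congr h (ρ := id), rename_id]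
  intro i hi
  have : i = 0 := by omega
  subst this; rfl

/-! ### Satisfaction -/

section
variable {M : Type} (S : XStr M) (e : ℕ → M)

theorem FinA_sG (x : ℕ) : Sat S (GX x) e ↔ GR S (e x) :=
  Iff.of_eq (congrArg (S.rel RX.G) (comp_vec1 e x))
theorem FinA_sH (x : ℕ) : Sat S (HX x) e ↔ HR S (e x) :=
  Iff.of_eq (congrArg (S.rel RX.H) (comp_vec1 e x))
theorem FinA_sK (x : ℕ) : Sat S (KX x) e ↔ KR S (e x) :=
  Iff.of_eq (congrArg (S.rel RX.K) (comp_vec1 e x))
theorem FinA_spp (a x y : ℕ) : Sat S (ppX a x y) e ↔ ppR S (e a) (e x) (e y) :=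
  Iff.of_eq (congrArg (S.rel RX.pp) (comp_vec3 e a x y))
theorem FinA_sadd (x y z : ℕ) : Sat S (addX x y z) e ↔ addR S (e x) (e y) (e z) :=
  Iff.of_eq (congrArg (S.rel RX.add) (comp_vec3 e x y z))
theorem FinA_smul (x y z : ℕ) : Sat S (mulX x y z) e ↔ mulR S (e x) (e y) (e z) :=
  Iff.of_eq (congrArg (S.rel RX.mul) (comp_vec3 e x y z))
end

theorem FinA_scons0 {M : Type} (a : M) (e : ℕ → M) : scons a e 0 = a := rfl
theorem FinA_sconsS {M : Type} (a : M) (e : ℕ → M) (k : ℕ) : scons a e (k + 1) = e k := rfl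

/-! ### The step -/

/-- `UCon T' N`, `num N → Uf N`, existence of the numerals imply `Con T' N`. -/
def FinA_X : XFm :=
  imp (alls 3 (imp (GX 0) (imp (KX 1) (imp (isNX 16 2) (neg (ppX 1 0 2))))))
    (imp (all (imp (HX 0) (GX 0))) (imp (ex (HX 0)) (imp (ex (KX 0))
      (ex (and (HX 0) (ex (and (KX 0) (ex (and (isNX 16 0) (neg (ppX 1 2 0)))))))))))

theorem FinA_sat {M : Type} [Nonempty M] (S : XStr M) (hq : QM S) (e : ℕ → M) :
    Sat S FinA_X e := by
  simp only [FinA_X, alls, sat_imp, sat_all, sat_ex, sat_and, sat_neg, FinA_sG, FinA_sH, FinA_sK,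
    FinA_spp, sat_isNX, FinA_scons0, FinA_sconsS]
  intro h1 h2 ⟨N, hN⟩ ⟨b, hb⟩
  obtain ⟨y, hy⟩ := isN_ex hq 16
  exact ⟨N, hN, b, hb, y, hy, h1 y b N (h2 N hN) hb hy⟩

theorem FinA_subst (sC : ℕ) (T' : List AFm) (N : ℕ) :
    subst (xi sC bot (Uf N) (num N) (num (cdL T'))) FinA_X =
      imp (UCon T' N) (imp (all (imp (num N) (Uf N))) (imp (ex (num N)) (imp (ex (num (cdL T')))
        (Con T' N)))) := by
  have hV : FVs (fun i => i < 3) (bot : AFm) := trivial
  have hN := FVs_num N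
  have hK := FVs_num (cdL T')
  have hU := Uf_fv N
  have h16 : codeS (encode bot) = 16 := rfl
  have ha : ap (num 16) [0] = num 16 := FinA_ap0 (FVs_num 16)
  simp only [FinA_X, subst, subst_alls, subst_ex, subst_and, subst_neg, FinA_G, FinA_H, FinA_K,
    FinA_pp, FinA_isN sC hV hU hN hK, FinA_ap0 hN, FinA_ap0 hU, FinA_ap0 hK, UCon, Con, h16, ha]
  rfl

theorem FinA_size (N : ℕ) : Nat.size N ≤ N := Nat.size_le.2 Nat.lt_two_pow_self

theorem FinA_core (cE sC : ℕ) (T : List AFm) (hT : ∀ φ ∈ BaseA cE sC, φ ∈ T)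
    (hc : ∀ φ ∈ T, Closed φ) :
    ∃ C, ∀ (T' : List AFm) (N L : ℕ), Pv {ψ | ψ ∈ T} L (UCon T' N) →
      Pv {ψ | ψ ∈ T} (C * (L + (Nat.size (cdL T') + N + 1) ^ 3)) (Con T' N) := by
  obtain ⟨C1, h1⟩ := fam cE sC T hT hc (φ := FinA_X) (fun M _ S _ hq _ e => FinA_sat S hq e)
  obtain ⟨C2, h2⟩ := fam_numU cE sC T hT hc
  obtain ⟨C3, h3⟩ := fam_exNum cE sC T hT hc
  refine ⟨11200 * C1 + 8 + 4 * C2 + 3 * C3, fun T' N L hL => ?_⟩
  have hV : FVs (fun i => i < 3) (bot : AFm) := trivial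
  have i1 := h1 bot (Uf N) (num N) (num (cdL T')) hV (Uf_fv N) (FVs_num N) (FVs_num _)
  rw [FinA_subst] at i1
  have i2 := ((((i1.mp' hL).mp' (h2 N)).mp' (h3 N)).mp' (h3 (cdL T')))
  refine i2.mono ?_
  set s := Nat.size (cdL T') + N + 1 with hs
  have hs1 : 1 ≤ s := by omega
  have hs3 : s ≤ s ^ 3 := Nat.le_self_pow (by norm_num) s
  have hs23 : s ^ 2 ≤ s ^ 3 := Nat.pow_le_pow_right hs1 (by norm_num)
  have e1 : 1 + len (bot : AFm) + len (Uf N) + len (num N) + len (num (cdL T')) ≤ 700 * s ^ 3 := by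
    have a1 := len_Uf N
    have a2 := len_num N
    have a3 := len_num (cdL T')
    have a4 := FinA_size N
    have a5 : len (bot : AFm) = 4 := rfl
    have : 1 + len (bot : AFm) + len (Uf N) + len (num N) + len (num (cdL T')) ≤ 700 * s := by
      omega
    exact this.trans (Nat.mul_le_mul_left _ hs3)
  have e2 : (N + 1) ^ 3 ≤ s ^ 3 := Nat.pow_le_pow_left (by omega) 3
  have e3 : (Nat.size N + 1) ^ 2 ≤ s ^ 3 :=
    (Nat.pow_le_pow_left (by have := FinA_size N; omega) 2).trans hs23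
  have e4 : (Nat.size (cdL T') + 1) ^ 2 ≤ s ^ 3 := (Nat.pow_le_pow_left (by omega) 2).trans hs23
  have f1 := Nat.mul_le_mul_left C1 e1
  have f2 := Nat.mul_le_mul_left C2 e2
  have f3 := Nat.mul_le_mul_left C3 e3
  have f4 := Nat.mul_le_mul_left C3 e4
  have f5 : 8 * L ≤ (11200 * C1 + 8 + 4 * C2 + 3 * C3) * L := Nat.mul_le_mul_right _ (by omega)
  calc 2 * (2 * (2 * (2 * (C1 * (1 + len (bot : AFm) + len (Uf N) + len (num N) +
        len (num (cdL T')))) + L) + C2 * (N + 1) ^ 3) + C3 * (Nat.size N + 1) ^ 2) +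
        C3 * (Nat.size (cdL T') + 1) ^ 2
      ≤ 2 * (2 * (2 * (2 * (C1 * (700 * s ^ 3))) + C2 * s ^ 3) + C3 * s ^ 3) +
        C3 * s ^ 3 + 8 * L := by omega
    _ = (11200 * C1 + 4 * C2 + 3 * C3) * s ^ 3 + 8 * L := by ring
    _ ≤ (11200 * C1 + 8 + 4 * C2 + 3 * C3) * s ^ 3 +
        (11200 * C1 + 8 + 4 * C2 + 3 * C3) * L :=
        Nat.add_le_add (Nat.mul_le_mul_right _ (by omega)) f5
    _ = (11200 * C1 + 8 + 4 * C2 + 3 * C3) * (L + s ^ 3) := by ring

/-- Short proofs of the consistency statements with dyadic numerals. -/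
theorem con_dyadic (cE sC : ℕ) (T : List AFm) (hT : ∀ φ ∈ BaseA cE sC, φ ∈ T)
    (hc : ∀ φ ∈ T, Closed φ) :
    ∃ C, ∀ N, Pv {ψ | ψ ∈ T} (C * (N + 1) ^ 3) (Con T N) := by
  obtain ⟨C1, h1⟩ := FinA_core cE sC T hT hc
  obtain ⟨C2, h2⟩ := pudlak cE sC T hT hc
  refine ⟨C1 * (C2 + (Nat.size (cdL T) + 1) ^ 3), fun N => (h1 T N _ (h2 N)).mono ?_⟩
  rw [mul_assoc]
  refine Nat.mul_le_mul_left _ ?_
  rw [add_mul]
  refine Nat.add_le_add ?_ ?_
  · exact Nat.mul_le_mul_left _ (Nat.pow_le_pow_right (by omega) (by norm_num))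
  · rw [← mul_pow]
    exact Nat.pow_le_pow_left (by nlinarith [Nat.zero_le (Nat.size (cdL T) * N)]) 3

end Pool.Agent.Myc
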