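import Pool.Agent.Myc.IntA

set_option autoImplicit false

namespace Pool.Agent.Myc

open Fm

variable {M : Type} {S : XStr M} {cE a0 sC : ℕ}

/-! ### Strings and codes -/

theorem IntB_codeS_nil : codeS [] = 1 := rfl

theorem IntB_codeS_append (u v : List Bool) :
    codeS (u ++ v) = v.foldl (fun n b => 2 * n + b.toNat) (codeS u) := by
  simp [codeS, List.foldl_append]

theorem IntB_codeS_replicate (n : ℕ) : codeS (List.replicate n true) = 2 ^ (n + 1) - 1 := by
  induction n with
  | zero => rfl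
  | succ n ih =>
    rw [List.replicate_succ', IntB_codeS_append, ih]
    have h : 0 < 2 ^ (n + 1) := by positivity
    simp only [List.foldl_cons, List.foldl_nil, Bool.toNat_true]
    rw [pow_succ 2 (n + 1)]
    omega

theorem IntB_tk (i : ℕ) : tk i + 2 = 2 ^ (i + 3) := by
  unfold tk tok
  rw [IntB_codeS_append, IntB_codeS_replicate]
  have h : 1 ≤ 2 ^ (i + 1) := Nat.one_le_two_pow
  simp only [List.foldl_cons, List.foldl_nil, Bool.toNat_false]
  rw [show i + 3 = i + 1 + 1 + 1 by omega, pow_succ 2 (i + 1 + 1), pow_succ 2 (i + 1)]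
  omega

theorem IntB_tk_zero : tk 0 = 6 := by
  have := IntB_tk 0
  norm_num at this
  omega

theorem IntB_tk_succ (i : ℕ) : tk (i + 1) = tk i + tk i + 1 + 1 := by
  have h1 := IntB_tk i
  have h2 := IntB_tk (i + 1)
  rw [show i + 1 + 3 = (i + 3) + 1 by omega, pow_succ] at h2
  omega

theorem IntB_succ_un (hq : QM S) {k : ℕ} {x y : M} (hx : IsN S k x) (hy : succR S x y) :
    IsN S (k + 1) y := by
  rw [isN_iff_isU hq] at hx ⊢
  exact ⟨x, hx, hy⟩

theorem IntB_dbl (hq : QM S) {k : ℕ} {x y : M} (hx : IsN S k x) (hy : addR S x x y) :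
    IsN S (k + k) y := by
  rw [isN_iff_isU hq] at hx ⊢
  exact isU_add hq hx hx hy

/-- The predecessor of a variable. -/
theorem IntB_tk_pred (hq : QM S) {i : ℕ} {v : M} (hv : IsN S (tk (i + 1)) v) :
    ∃ v0 u w, IsN S (tk i) v0 ∧ addR S v0 v0 u ∧ succR S u w ∧ succR S w v := by
  obtain ⟨v0, hv0⟩ := isN_ex hq (tk i)
  obtain ⟨u, hu⟩ := hq.add_tot v0 v0
  obtain ⟨w, hw⟩ := hq.succ_tot u
  obtain ⟨v', hv'⟩ := hq.succ_tot w
  have h1 := IntB_succ_un hq (IntB_succ_un hq (IntB_dbl hq hv0 hu) hw) hv'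
  rw [← IntB_tk_succ] at h1
  have h2 := isN_un hq h1 hv
  subst h2
  exact ⟨v0, u, w, hv0, hu, hw, hv'⟩

theorem conc_codes (h : SMax S cE a0 sC) (hq : QM S) (u v : List Bool) {x y z : M}
    (hx : IsN S (codeS u) x) (hy : IsN S (codeS v) y) (hz : IsN S (codeS (u ++ v)) z) :
    concR S x y z := by
  induction v using List.reverseRecOn generalizing y z with
  | nil =>
    rw [List.append_nil] at hz
    have := isN_un hq hx hz
    subst this
    exact h.conc0 x y hy
  | append_singleton v b ih =>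
    rw [isN_append hq] at hy
    rw [← List.append_assoc, isN_append hq] at hz
    obtain ⟨t, ht, hd⟩ := hy
    obtain ⟨t', ht', hd'⟩ := hz
    have hc := ih ht ht'
    cases b with
    | false =>
      obtain ⟨y', hy', rfl⟩ := hd
      obtain ⟨z', hz', rfl⟩ := hd'
      exact h.concD x t t' y' z' hc hy' hz'
    | true =>
      obtain ⟨y1, y2, hy1, hy2, rfl⟩ := hd
      obtain ⟨z1, z2, hz1, hz2, rfl⟩ := hd'
      exact h.concE x t t' y1 z1 y2 z2 hc hy1 hz1 hy2 hz2

theorem tk_codes (h : SMax S cE a0 sC) (hq : QM S) (i : ℕ) {v : M} (hv : IsN S (tk i) v) :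
    tkR S v := by
  induction i generalizing v with
  | zero =>
    rw [IntB_tk_zero] at hv
    exact h.tk0 v hv
  | succ i ih =>
    obtain ⟨v0, u, w, hv0, hu, hw, hv'⟩ := IntB_tk_pred hq hv
    exact h.tkS v0 u w v (ih hv0) hu hw hv'

theorem IntB_ofFn1 (v : Fin 1 → ℕ) : (List.ofFn v).flatMap tok = tok (v 0) := by
  simp [List.ofFn_succ]

theorem IntB_ofFn2 (v : Fin 2 → ℕ) : (List.ofFn v).flatMap tok = tok (v 0) ++ tok (v 1) := by
  simp [List.ofFn_succ]

theorem IntB_ofFn3 (v : Fin 3 → ℕ) :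
    (List.ofFn v).flatMap tok = tok (v 0) ++ tok (v 1) ++ tok (v 2) := by
  simp [List.ofFn_succ]

/-- Splitting the code of a concatenation. -/
theorem IntB_split (h : SMax S cE a0 sC) (hq : QM S) (u v w : List Bool) {x : M}
    (hx : IsN S (codeS (u ++ v ++ w)) x) :
    ∃ a b t, IsN S (codeS u) a ∧ IsN S (codeS v) b ∧ IsN S (codeS (u ++ v)) t ∧
      concR S a b t ∧ DG S w t x := by
  rw [isN_append hq] at hx
  obtain ⟨t, ht, hd⟩ := hx
  obtain ⟨a, ha⟩ := isN_ex hq (codeS u)
  obtain ⟨b, hb⟩ := isN_ex hq (codeS v)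
  exact ⟨a, b, t, ha, hb, ht, conc_codes h hq u v ha hb ht, hd⟩

/-- All that is known about the code of an atomic formula. -/
theorem IntB_atom (h : SMax S cE a0 sC) (hq : QM S) (φ : AFm) {x : M}
    (hx : IsN S (cd φ) x) (hφ : ∀ α β, φ ≠ imp α β) (hφ' : ∀ α, φ ≠ all α) :
    formR S x ∧ atsR S x ∧ ∀ s (e : ℕ → M), (∀ i v, IsN S (tk i) v → vlR S s v (e i)) →
      (t0R S x s ↔ Sat S (emb φ) e) := by
  cases φ with
  | bot =>
    obtain ⟨h1, h2, h3⟩ := h.bot_at x hx
    exact ⟨h2, h1, fun s e _ => ⟨fun h4 => absurd h4 (h3 s), fun h4 => absurd h4 id⟩⟩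
  | eq i j =>
    unfold cd at hx
    rw [show encode (eq i j) = tok i ++ tok j ++ [false, false, false, true] from rfl] at hx
    obtain ⟨a, b, t, ha, hb, -, hc, hd⟩ := IntB_split h hq _ _ _ hx
    obtain ⟨h1, h2, h3⟩ := h.form_eq a b t x (tk_codes h hq i ha) (tk_codes h hq j hb) hc hd
    exact ⟨h1, h2, fun s e he => h3 s (e i) (e j) (he i a ha) (he j b hb)⟩
  | rel r v =>
    cases r with
    | zero =>
      change Fin 1 → ℕ at v
      unfold cd at hx
      rw [show encode (rel .zero v) = (List.ofFn v).flatMap tok ++ [false, false, true, false]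
        from rfl, IntB_ofFn1, isN_append hq] at hx
      obtain ⟨t, ht, hd⟩ := hx
      obtain ⟨h1, h2, h3⟩ := h.form_zero t x (tk_codes h hq _ ht) hd
      refine ⟨h1, h2, fun s e he => (h3 s (e (v 0)) (he _ t ht)).trans ?_⟩
      change zeroR S (e (v 0)) ↔ Sat S (rename (ext v) (zeroX 0)) e
      rw [sat_rename]
      have h4 : (![e (v 0)] : Fin 1 → M) = (fun k : Fin 1 => e (ext v ((![0] : Fin 1 → ℕ) k))) := by
        funext k; fin_cases k; rfl
      exact Iff.of_eq (congrArg (S.rel .zero) h4)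
    | succ =>
      change Fin 2 → ℕ at v
      unfold cd at hx
      rw [show encode (rel .succ v) = (List.ofFn v).flatMap tok ++ [false, false, true, true]
        from rfl, IntB_ofFn2] at hx
      obtain ⟨a, b, t, ha, hb, -, hc, hd⟩ := IntB_split h hq _ _ _ hx
      obtain ⟨h1, h2, h3⟩ := h.form_succ a b t x (tk_codes h hq _ ha) (tk_codes h hq _ hb) hc hd
      refine ⟨h1, h2, fun s e he =>
        (h3 s (e (v 0)) (e (v 1)) (he _ a ha) (he _ b hb)).trans ?_⟩
      change succR S (e (v 0)) (e (v 1)) ↔ Sat S (rename (ext v) (succX 0 1)) e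
      rw [sat_rename]
      have h4 : (![e (v 0), e (v 1)] : Fin 2 → M) =
          (fun k : Fin 2 => e (ext v ((![0, 1] : Fin 2 → ℕ) k))) := by
        funext k; fin_cases k <;> rfl
      exact Iff.of_eq (congrArg (S.rel .succ) h4)
    | add =>
      change Fin 3 → ℕ at v
      unfold cd at hx
      rw [show encode (rel .add v) = (List.ofFn v).flatMap tok ++ [false, true, false, false]
        from rfl, IntB_ofFn3] at hx
      obtain ⟨t1, c, t, ht1, hcc, -, hc, hd⟩ := IntB_split h hq _ _ _ hx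
      obtain ⟨a, ha⟩ := isN_ex hq (codeS (tok (v 0)))
      obtain ⟨b, hb⟩ := isN_ex hq (codeS (tok (v 1)))
      have hc1 := conc_codes h hq _ _ ha hb ht1
      obtain ⟨h1, h2, h3⟩ := h.form_add a b c t1 t x (tk_codes h hq _ ha) (tk_codes h hq _ hb)
        (tk_codes h hq _ hcc) hc1 hc hd
      refine ⟨h1, h2, fun s e he =>
        (h3 s (e (v 0)) (e (v 1)) (e (v 2)) (he _ a ha) (he _ b hb) (he _ c hcc)).trans ?_⟩
      change addR S (e (v 0)) (e (v 1)) (e (v 2)) ↔ Sat S (rename (ext v) (addX 0 1 2)) e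
      rw [sat_rename]
      have h4 : (![e (v 0), e (v 1), e (v 2)] : Fin 3 → M) =
          (fun k : Fin 3 => e (ext v ((![0, 1, 2] : Fin 3 → ℕ) k))) := by
        funext k; fin_cases k <;> rfl
      exact Iff.of_eq (congrArg (S.rel .add) h4)
    | mul =>
      change Fin 3 → ℕ at v
      unfold cd at hx
      rw [show encode (rel .mul v) = (List.ofFn v).flatMap tok ++ [false, true, false, true]
        from rfl, IntB_ofFn3] at hx
      obtain ⟨t1, c, t, ht1, hcc, -, hc, hd⟩ := IntB_split h hq _ _ _ hx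
      obtain ⟨a, ha⟩ := isN_ex hq (codeS (tok (v 0)))
      obtain ⟨b, hb⟩ := isN_ex hq (codeS (tok (v 1)))
      have hc1 := conc_codes h hq _ _ ha hb ht1
      obtain ⟨h1, h2, h3⟩ := h.form_mul a b c t1 t x (tk_codes h hq _ ha) (tk_codes h hq _ hb)
        (tk_codes h hq _ hcc) hc1 hc hd
      refine ⟨h1, h2, fun s e he =>
        (h3 s (e (v 0)) (e (v 1)) (e (v 2)) (he _ a ha) (he _ b hb) (he _ c hcc)).trans ?_⟩
      change mulR S (e (v 0)) (e (v 1)) (e (v 2)) ↔ Sat S (rename (ext v) (mulX 0 1 2)) e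
      rw [sat_rename]
      have h4 : (![e (v 0), e (v 1), e (v 2)] : Fin 3 → M) =
          (fun k : Fin 3 => e (ext v ((![0, 1, 2] : Fin 3 → ℕ) k))) := by
        funext k; fin_cases k <;> rfl
      exact Iff.of_eq (congrArg (S.rel .mul) h4)
  | imp α β => exact absurd rfl (hφ α β)
  | all α => exact absurd rfl (hφ' α)

theorem IntB_form_im (h : SMax S cE a0 sC) (hq : QM S) (φ ψ : AFm) {x y z : M}
    (hφ : ∀ x, IsN S (cd φ) x → formR S x) (hψ : ∀ x, IsN S (cd ψ) x → formR S x)
    (hx : IsN S (cd (imp φ ψ)) x) (hy : IsN S (cd φ) y) (hz : IsN S (cd ψ) z) :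
    formR S x ∧ imR S x y z := by
  unfold cd at hx
  rw [show encode (imp φ ψ) = encode φ ++ encode ψ ++ [false, true, true, false] from rfl] at hx
  obtain ⟨a, b, t, ha, hb, -, hc, hd⟩ := IntB_split h hq _ _ _ hx
  have h1 := isN_un hq ha hy
  have h2 := isN_un hq hb hz
  subst h1
  subst h2
  exact h.form_im a b t x (hφ a ha) (hψ b hb) hc hd

theorem IntB_form_al (h : SMax S cE a0 sC) (hq : QM S) (φ : AFm) {x y : M}
    (hφ : ∀ x, IsN S (cd φ) x → formR S x)
    (hx : IsN S (cd (all φ)) x) (hy : IsN S (cd φ) y) :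
    formR S x ∧ alR S x y := by
  unfold cd at hx
  rw [show encode (all φ) = encode φ ++ [false, true, true, true] from rfl, isN_append hq] at hx
  obtain ⟨t, ht, hd⟩ := hx
  have h1 := isN_un hq ht hy
  subst h1
  exact h.form_al t x (hφ t ht) hd

theorem form_codes (h : SMax S cE a0 sC) (hq : QM S) (φ : AFm) {x : M} (hx : IsN S (cd φ) x) :
    formR S x := by
  induction φ generalizing x with
  | bot => exact (IntB_atom h hq _ hx (by intro _ _ h; cases h) (by intro _ h; cases h)).1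
  | eq i j => exact (IntB_atom h hq _ hx (by intro _ _ h; cases h) (by intro _ h; cases h)).1
  | rel r v => exact (IntB_atom h hq _ hx (by intro _ _ h; cases h) (by intro _ h; cases h)).1
  | imp φ ψ ih1 ih2 =>
    obtain ⟨y, hy⟩ := isN_ex hq (cd φ)
    obtain ⟨z, hz⟩ := isN_ex hq (cd ψ)
    exact (IntB_form_im h hq φ ψ (fun x hx => ih1 hx) (fun x hx => ih2 hx) hx hy hz).1
  | all φ ih =>
    obtain ⟨y, hy⟩ := isN_ex hq (cd φ)
    exact (IntB_form_al h hq φ (fun x hx => ih hx) hx hy).1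

theorem im_codes (h : SMax S cE a0 sC) (hq : QM S) (φ ψ : AFm) {x y z : M}
    (hx : IsN S (cd (imp φ ψ)) x) (hy : IsN S (cd φ) y) (hz : IsN S (cd ψ) z) :
    imR S x y z :=
  (IntB_form_im h hq φ ψ (fun _ hx => form_codes h hq φ hx) (fun _ hx => form_codes h hq ψ hx)
    hx hy hz).2

theorem al_codes (h : SMax S cE a0 sC) (hq : QM S) (φ : AFm) {x y : M}
    (hx : IsN S (cd (all φ)) x) (hy : IsN S (cd φ) y) : alR S x y :=
  (IntB_form_al h hq φ (fun _ hx => form_codes h hq φ hx) hx hy).2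

/-- The code of a list with a head. -/
theorem IntB_cons (h : SMax S cE a0 sC) (hq : QM S) (φ : AFm) (T : List AFm) {b : M}
    (hb : IsN S (cdL (φ :: T)) b) :
    ∃ x a, IsN S (cd φ) x ∧ IsN S (cdL T) a ∧ concR S x a b := by
  obtain ⟨x, hx⟩ := isN_ex hq (cd φ)
  obtain ⟨a, ha⟩ := isN_ex hq (cdL T)
  refine ⟨x, a, hx, ha, conc_codes h hq (encode φ) (encodeL T) hx ha ?_⟩
  have h1 : encodeL (φ :: T) = encode φ ++ encodeL T := by simp [encodeL]
  unfold cdL at hb
  rw [h1] at hb
  exact hb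

theorem lst_codes (h : SMax S cE a0 sC) (hq : QM S) (T : List AFm) {a : M}
    (ha : IsN S (cdL T) a) : lstR S a := by
  induction T generalizing a with
  | nil => exact h.lst_nil a ha
  | cons φ T ih =>
    obtain ⟨x, b, hx, hb, hc⟩ := IntB_cons h hq φ T ha
    exact h.lst_cons x b a (form_codes h hq φ hx) (ih hb) hc

theorem mem_codes (h : SMax S cE a0 sC) (hq : QM S) (T : List AFm) {a y : M}
    (ha : IsN S (cdL T) a) (hy : memR S y a) : ∃ φ ∈ T, IsN S (cd φ) y := by
  induction T generalizing a with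
  | nil => exact absurd hy (h.mem_nil y a ha)
  | cons φ T ih =>
    obtain ⟨x, b, hx, hb, hc⟩ := IntB_cons h hq φ T ha
    rcases h.mem_cons x b a y (form_codes h hq φ hx) (lst_codes h hq T hb) hc hy with h1 | h1
    · subst h1
      exact ⟨φ, List.mem_cons_self, hx⟩
    · obtain ⟨ψ, hψ, h2⟩ := ih hb h1
      exact ⟨ψ, List.mem_cons_of_mem _ hψ, h2⟩

/-- `e` lists the values of the variables for the assignment `s`. -/
def Vals (S : XStr M) (s : M) (e : ℕ → M) : Prop :=
  ∀ i v, IsN S (tk i) v → vlR S s v (e i)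

theorem vals_scons (h : SMax S cE a0 sC) (hq : QM S) {s t a : M} {e : ℕ → M} (he : Vals S s e)
    (ht : prR S a s t) : Vals S t (scons a e) := by
  intro i v hv
  cases i with
  | zero =>
    rw [IntB_tk_zero] at hv
    exact h.vl0 v a s t hv ht
  | succ i =>
    obtain ⟨v0, u, w, hv0, hu, hw, hv'⟩ := IntB_tk_pred hq hv
    exact h.vlS v0 u v a s t (e i) hu ⟨w, hw, hv'⟩ ht (he i v0 hv0)

theorem vals_ex (h : SMax S cE a0 sC) (hq : QM S) (s : M) : ∃ e, Vals S s e := by
  choose g g' hg using h.pr_sur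
  have key : ∀ (i : ℕ) (s v : M), IsN S (tk i) v → vlR S s v (g (g'^[i] s)) := by
    intro i
    induction i with
    | zero =>
      intro s v hv
      rw [IntB_tk_zero] at hv
      exact h.vl0 v (g s) (g' s) s hv (hg s)
    | succ i ih =>
      intro s v hv
      obtain ⟨v0, u, w, hv0, hu, hw, hv'⟩ := IntB_tk_pred hq hv
      exact h.vlS v0 u v (g s) (g' s) s _ hu ⟨w, hw, hv'⟩ (hg s) (ih (g' s) v0 hv0)
  exact ⟨fun i => g (g'^[i] s), fun i v hv => key i s v hv⟩

/-- The truth of atomic formulas. -/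
theorem t0_codes (h : SMax S cE a0 sC) (hq : QM S) (φ : AFm) {x s : M} {e : ℕ → M}
    (hx : IsN S (cd φ) x) (he : Vals S s e) (hφ : ∀ α β, φ ≠ imp α β) (hφ' : ∀ α, φ ≠ all α) :
    atsR S x ∧ (t0R S x s ↔ Sat S (emb φ) e) := by
  obtain ⟨-, h2, h3⟩ := IntB_atom h hq φ hx hφ hφ'
  exact ⟨h2, h3 s e he⟩

theorem nu_codes (h : SMax S cE a0 sC) (hq : QM S) (k : ℕ) {v z : M} (hv : IsN S k v)
    (hz : IsN S (codeS (encode (num k))) z) : nuR S v z := by
  induction k using Nat.strong_induction_on generalizing v z with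
  | _ k ih =>
    rcases Nat.even_or_odd' k with ⟨m, rfl | rfl⟩
    · rcases Nat.eq_zero_or_pos m with rfl | hm
      · exact h.nu0 v z hv hz
      · rw [encode_num_even hm, isN_append hq] at hz
        rw [isN_even hm] at hv
        obtain ⟨t, ht, hd⟩ := hz
        obtain ⟨y, hy, hy2⟩ := hv
        have h0 : ¬ zeroR S y := by
          rw [isN_iff_isU hq] at hy
          obtain ⟨m', rfl⟩ := Nat.exists_eq_succ_of_ne_zero hm.ne'
          obtain ⟨y', -, hy'⟩ := hy
          exact hq.succ_ne _ _ hy'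
        exact h.nuD y t v z (ih m (by omega) hy ht) h0 hy2 hd
    · rw [encode_num_odd, isN_append hq] at hz
      rw [isN_odd] at hv
      obtain ⟨t, ht, hd⟩ := hz
      obtain ⟨u, y, hy, hu, hv'⟩ := hv
      exact h.nuE y t u v z (ih m (by omega) hy ht) hu hv' hd

theorem sz_codes (h : SMax S cE a0 sC) (hq : QM S) (w : List Bool) {a m : M}
    (ha : IsN S (codeS w) a) (hm : IsU S (sC * (w.length + 1)) m) : szR S a m := by
  induction w using List.reverseRecOn generalizing a m with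
  | nil =>
    rw [List.length_nil, zero_add, mul_one] at hm
    exact h.sz1 a m ha hm
  | append_singleton w b ih =>
    rw [isN_append hq] at ha
    obtain ⟨t, ht, hd⟩ := ha
    obtain ⟨m0, hm0⟩ := isU_ex hq (S := S) (sC * (w.length + 1))
    obtain ⟨d, hdd⟩ := isU_ex hq (S := S) sC
    obtain ⟨m1, hm1⟩ := hq.add_tot m0 d
    have h1 := isU_add hq hm0 hdd hm1
    have h2 : sC * ((w ++ [b]).length + 1) = sC * (w.length + 1) + sC := by
      rw [List.length_append, List.length_singleton]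
      ring
    rw [h2] at hm
    have h3 := isU_un hq h1 hm
    subst h3
    refine h.szD t m0 a d m1 (ih ht hm0) ?_ hdd hm1
    cases b with
    | false => exact Or.inl hd
    | true => exact Or.inr hd

end Pool.Agent.Myc
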