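import Pool.Agent.Myc.Fam
import Pool.Agent.Myc.IntB
import Pool.Agent.Myc.NumB

set_option autoImplicit false

namespace Pool.Agent.Myc

open Fm

section
variable (sC : ℕ) {V G H K : AFm}

theorem NumC_ren2 {φ : AFm} (h : FVs (fun i => i < 2) φ) :
    rename (ext ![0, 1]) φ = φ := by
  conv_rhs => rw [← rename_id φ]
  refine rename_congr h (fun i hi => ?_)
  interval_cases i <;> rfl

theorem NumC_isNX (hg : Good arX (xi sC V G H K)) (k x : ℕ) :
    subst (xi sC V G H K) (isNX k x) = ap (num k) [x] := by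
  unfold isNX
  rw [subst_ap hg, subst_xi_emb]

theorem NumC_e2 (hg : Good arX (xi sC V G H K)) :
    subst (xi sC V G H K) (e2X 0 1) = exp2F := NumC_ren2 (hg .e2)

theorem NumC_nu (hg : Good arX (xi sC V G H K)) :
    subst (xi sC V G H K) (nuX 0 1) = nuF := NumC_ren2 (hg .nu)

theorem NumC_sz (hg : Good arX (xi sC V G H K)) :
    subst (xi sC V G H K) (szX 0 1) = szF sC := NumC_ren2 (hg .sz)

end

section
variable {M : Type} (S : XStr M)

theorem NumC_satE2 (x y : ℕ) (e : ℕ → M) : Sat S (e2X x y) e ↔ e2R S (e x) (e y) := by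
  exact Iff.of_eq (congrArg (S.rel .e2) (comp_vec2 e x y))
theorem NumC_satNu (x y : ℕ) (e : ℕ → M) : Sat S (nuX x y) e ↔ nuR S (e x) (e y) := by
  exact Iff.of_eq (congrArg (S.rel .nu) (comp_vec2 e x y))
theorem NumC_satSz (x y : ℕ) (e : ℕ → M) : Sat S (szX x y) e ↔ szR S (e x) (e y) := by
  exact Iff.of_eq (congrArg (S.rel .sz) (comp_vec2 e x y))

theorem NumC_satUf (k : ℕ) (e : ℕ → M) (x : ℕ) :
    Sat S (ap (emb (Uf k)) [x]) e ↔ IsU S k (e x) := by
  rw [sat_ap]
  have h : (fun i => e ([x].getD i 0)) = scons (e x) (fun _ => e 0) := by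
    funext i
    cases i <;> simp [scons]
  rw [h]
  exact sat_Uf S k (e x) _

theorem NumC_ne0 (hq : QM S) {x y : M} (hx : ¬ zeroR S x) (h : addR S x x y) :
    ¬ zeroR S y := by
  rcases hq.cases x with h0 | ⟨u, hu⟩
  · exact absurd h0 hx
  · obtain ⟨z, hz⟩ := hq.add_tot x u
    obtain ⟨z', hz'⟩ := hq.succ_tot z
    have h1 := hq.add_succ x u x z z' hu hz hz'
    have h2 := hq.add_un _ _ _ _ h1 h
    subst h2
    exact hq.succ_ne _ _ hz'

end

theorem NumC_codeS_lt (w : List Bool) : codeS w < 2 ^ (w.length + 1) := by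
  have key : ∀ (w : List Bool) (k : ℕ),
      w.foldl (fun n b => 2 * n + b.toNat) k < (k + 1) * 2 ^ w.length := by
    intro w
    induction w with
    | nil => intro k; simp
    | cons b w ih =>
      intro k
      have h := ih (2 * k + b.toNat)
      simp only [List.foldl_cons, List.length_cons]
      refine h.trans_le ?_
      rw [pow_succ', ← mul_assoc]
      refine Nat.mul_le_mul_right _ ?_
      have := Bool.toNat_le b
      omega
  have h := key w 1
  rw [pow_succ']
  exact h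

theorem NumC_size_codeS (w : List Bool) : Nat.size (codeS w) ≤ w.length + 1 :=
  Nat.size_le.2 (NumC_codeS_lt w)

theorem NumC_len_pow (n : ℕ) : len (num (2 ^ n)) ≤ 200 * (n + 2) := by
  have h := len_num (2 ^ n)
  rw [Nat.size_pow] at h
  exact h

variable (cE sC : ℕ) (T : List AFm) (hT : ∀ φ ∈ BaseA cE sC, φ ∈ T) (hc : ∀ φ ∈ T, Closed φ)
include hT hc

theorem fam_e2 : ∃ C, ∀ n, Pv {ψ | ψ ∈ T} (C * (n + 1) ^ 2)
    (alls 2 (imp (ap (Uf n) [0]) (imp (ap (num (2 ^ n)) [1]) exp2F))) := by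
  obtain ⟨C0, h0⟩ := fam cE sC T hT hc
    (φ := alls 2 (imp (zeroX 0) (imp (isNX 1 1) (e2X 0 1)))) (by
    intro M _ S hS _ _ e
    simp only [alls, sat_all, sat_imp, NumB_satZero, sat_isNX, NumC_satE2, scons]
    intro a b hb ha
    exact hS.e20 _ _ hb ha)
  obtain ⟨C, hC⟩ := fam cE sC T hT hc
    (φ := imp (alls 2 (imp (GX 0) (imp (HX 1) (e2X 0 1))))
      (alls 2 (imp (ex (and (GX 0) (succX 0 1)))
        (imp (ap (ex (and (HX 0) (addX 0 0 1))) [1]) (e2X 0 1))))) (by
    intro M _ S hS _ _ e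
    simp only [alls, sat_all, sat_imp, sat_ex, sat_and, sat_ap, NumB_satG, NumB_satH,
      NumB_satSucc, NumB_satAdd, NumC_satE2, scons, List.getD_cons_zero]
    rintro h1 a b ⟨c, hc, hcb⟩ ⟨q, hq, hqa⟩
    exact hS.e2S _ _ _ _ (h1 _ _ hc hq) hcb hqa)
  refine ⟨C0 * 17 + 2 * (C * 1000), fun n => ?_⟩
  have hbase : Pv {ψ | ψ ∈ T} (C0 * 17)
      (alls 2 (imp (ap (Uf 0) [0]) (imp (ap (num (2 ^ 0)) [1]) exp2F))) := by
    have h := h0 bot bot bot bot trivial trivial trivial trivial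
    have hg : Good arX (xi sC bot bot bot bot) := xi_good sC trivial trivial trivial trivial
    simp only [subst, subst_alls, NumB_zero, NumC_isNX sC hg, NumC_e2 sC hg] at h
    rw [NumB_ap0 (Uf_fv 0), pow_zero]
    exact h
  have hstep : ∀ n, 0 ≤ n → Pv {ψ | ψ ∈ T} (C * 1000 * (n + 1))
      (imp (alls 2 (imp (ap (Uf n) [0]) (imp (ap (num (2 ^ n)) [1]) exp2F)))
        (alls 2 (imp (ap (Uf (n + 1)) [0]) (imp (ap (num (2 ^ (n + 1))) [1]) exp2F)))) := by
    intro n _
    have h := hC bot (Uf n) (num (2 ^ n)) bot trivial (Uf_fv n) (FVs_num _) trivial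
    have hg : Good arX (xi sC bot (Uf n) (num (2 ^ n)) bot) :=
      xi_good sC trivial (Uf_fv n) (FVs_num _) trivial
    simp only [subst, subst_alls, subst_ex, subst_and, subst_ap hg,
      NumB_G _ _ _ _ _ (Uf_fv n), NumB_H _ _ _ _ _ (FVs_num (2 ^ n)), NumB_succ, NumB_add,
      NumC_e2 sC hg] at h
    rw [NumB_ap0 (FVs_num (2 ^ n)), ← num_even (Nat.pos_of_ne_zero (by positivity)),
      ← pow_succ'] at h
    rw [NumB_ap0 (Uf_fv (n + 1)), NumB_Uf_succ]
    rw [NumB_ap0 (Uf_fv n)] at h ⊢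
    refine h.mono ?_
    have l1 := len_Uf n
    have l2 := NumC_len_pow n
    have l3 : len (bot : AFm) = 4 := rfl
    rw [mul_assoc]
    refine Nat.mul_le_mul_left _ ?_
    omega
  have h := NumB_chain (f := fun n => alls 2 (imp (ap (Uf n) [0]) (imp (ap (num (2 ^ n)) [1])
    exp2F))) hbase hstep n (Nat.zero_le n)
  refine h.mono ?_
  nlinarith [Nat.one_le_pow 2 (n + 1) (by omega)]

theorem fam_nu : ∃ C, ∀ n, Pv {ψ | ψ ∈ T} (C * (n + 1) ^ 2)
    (alls 2 (imp (ap (num (2 ^ n)) [0]) (imp (ap (num (codeS (encode (num (2 ^ n))))) [1])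
      nuF))) := by
  obtain ⟨C0, h0⟩ := fam cE sC T hT hc
    (φ := alls 2 (imp (isNX 1 0) (imp (isNX (codeS (encode (num 1))) 1)
      (and (neg (zeroX 0)) (nuX 0 1))))) (by
    intro M _ S hS hq _ e
    simp only [alls, sat_all, sat_imp, sat_and, sat_neg, NumB_satZero, sat_isNX, NumC_satNu,
      scons]
    intro a b hb ha
    refine ⟨?_, nu_codes hS hq 1 hb ha⟩
    obtain ⟨y, _, hy⟩ := (isN_iff_isU hq 1 b).1 hb
    exact hq.succ_ne _ _ hy)
  obtain ⟨C, hC⟩ := fam cE sC T hT hc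
    (φ := imp (alls 2 (imp (GX 0) (imp (HX 1) (and (neg (zeroX 0)) (nuX 0 1)))))
      (alls 2 (imp (ex (and (GX 0) (addX 0 0 1)))
        (imp (ap (digX suf0 (HX 0)) [1]) (and (neg (zeroX 0)) (nuX 0 1)))))) (by
    intro M _ S hS hq _ e
    have hfv : FVs (fun i => i < 1) (HX 0) := by
      intro k
      fin_cases k
      show (0 : ℕ) < 1
      omega
    simp only [alls, sat_all, sat_imp, sat_ex, sat_and, sat_neg, sat_ap, sat_digX S _ hfv,
      NumB_satG, NumB_satH, NumB_satZero, NumB_satAdd, NumC_satNu, scons, List.getD_cons_zero]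
    rintro h1 a b ⟨c, hc, hcb⟩ ⟨t, ht, hta⟩
    obtain ⟨h2, h3⟩ := h1 _ _ hc ht
    exact ⟨NumC_ne0 S hq h2 hcb, hS.nuD _ _ _ _ h3 h2 hcb hta⟩)
  obtain ⟨C1, hC1⟩ := fam cE sC T hT hc
    (φ := imp (alls 2 (imp (GX 0) (imp (HX 1) (and (neg (zeroX 0)) (nuX 0 1)))))
      (alls 2 (imp (GX 0) (imp (HX 1) (nuX 0 1))))) (by
    intro M _ S hS hq _ e
    simp only [alls, sat_all, sat_imp, sat_and, sat_neg, NumB_satG, NumB_satH, NumB_satZero,
      NumC_satNu, scons]
    intro h1 a b hb ha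
    exact (h1 _ _ hb ha).2)
  refine ⟨C0 * 17 + 2 * (C * 100000) + 2 * (C1 * 100000), fun n => ?_⟩
  have hbase : Pv {ψ | ψ ∈ T} (C0 * 17)
      (alls 2 (imp (ap (num (2 ^ 0)) [0]) (imp (ap (num (codeS (encode (num (2 ^ 0))))) [1])
        (and (neg (zeroA 0)) nuF)))) := by
    have h := h0 bot bot bot bot trivial trivial trivial trivial
    have hg : Good arX (xi sC bot bot bot bot) := xi_good sC trivial trivial trivial trivial
    simp only [subst, subst_alls, subst_and, subst_neg, NumB_zero, NumC_isNX sC hg,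
      NumC_nu sC hg] at h
    rw [pow_zero]
    exact h
  have hlen : ∀ n, 1 + len (bot : AFm) + len (num (2 ^ n)) +
      len (num (codeS (encode (num (2 ^ n))))) + len (bot : AFm) ≤ 100000 * (n + 1) := by
    intro n
    have l2 := NumC_len_pow n
    have l3 : len (bot : AFm) = 4 := rfl
    have l4 := len_num (codeS (encode (num (2 ^ n))))
    have l5 := NumC_size_codeS (encode (num (2 ^ n)))
    rw [length_encode] at l5
    omega
  have hstep : ∀ n, 0 ≤ n → Pv {ψ | ψ ∈ T} (C * 100000 * (n + 1))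
      (imp (alls 2 (imp (ap (num (2 ^ n)) [0])
          (imp (ap (num (codeS (encode (num (2 ^ n))))) [1]) (and (neg (zeroA 0)) nuF))))
        (alls 2 (imp (ap (num (2 ^ (n + 1))) [0])
          (imp (ap (num (codeS (encode (num (2 ^ (n + 1)))))) [1])
            (and (neg (zeroA 0)) nuF))))) := by
    intro n _
    have h := hC bot (num (2 ^ n)) (num (codeS (encode (num (2 ^ n))))) bot trivial
      (FVs_num _) (FVs_num _) trivial
    have hg : Good arX (xi sC bot (num (2 ^ n)) (num (codeS (encode (num (2 ^ n))))) bot) :=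
      xi_good sC trivial (FVs_num _) (FVs_num _) trivial
    simp only [subst, subst_alls, subst_ex, subst_and, subst_neg, subst_ap hg,
      subst_digX (τ := xi sC bot (num (2 ^ n)) (num (codeS (encode (num (2 ^ n))))) bot) rfl rfl,
      NumB_G _ _ _ _ _ (FVs_num (2 ^ n)),
      NumB_H _ _ _ _ _ (FVs_num (codeS (encode (num (2 ^ n))))), NumB_zero, NumB_add,
      NumC_nu sC hg] at h
    rw [NumB_ap0 (FVs_num (2 ^ n)), NumB_ap0 (FVs_num (codeS (encode (num (2 ^ n))))),
      ← num_codeS_append, ← encode_num_even (Nat.pos_of_ne_zero (by positivity)),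
      ← num_even (Nat.pos_of_ne_zero (by positivity)), ← pow_succ'] at h
    rw [NumB_ap0 (FVs_num (2 ^ n)), NumB_ap0 (FVs_num (2 ^ (n + 1)))]
    refine h.mono ?_
    rw [mul_assoc]
    exact Nat.mul_le_mul_left _ (hlen n)
  have h := NumB_chain (f := fun n => alls 2 (imp (ap (num (2 ^ n)) [0])
          (imp (ap (num (codeS (encode (num (2 ^ n))))) [1]) (and (neg (zeroA 0)) nuF))))
    hbase hstep n (Nat.zero_le n)
  have h' := hC1 bot (num (2 ^ n)) (num (codeS (encode (num (2 ^ n))))) bot trivial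
      (FVs_num _) (FVs_num _) trivial
  have hg : Good arX (xi sC bot (num (2 ^ n)) (num (codeS (encode (num (2 ^ n))))) bot) :=
      xi_good sC trivial (FVs_num _) (FVs_num _) trivial
  simp only [subst, subst_alls, subst_and, subst_neg,
      NumB_G _ _ _ _ _ (FVs_num (2 ^ n)),
      NumB_H _ _ _ _ _ (FVs_num (codeS (encode (num (2 ^ n))))), NumB_zero,
      NumC_nu sC hg] at h'
  refine (h'.mp' h).mono ?_
  have h1 := Nat.mul_le_mul_left C1 (hlen n)
  have h2 : n + 1 ≤ (n + 1) ^ 2 := by nlinarith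
  have h3 : 1 ≤ (n + 1) ^ 2 := Nat.one_le_pow _ _ (by omega)
  have h4 : C1 * (100000 * (n + 1)) ≤ C1 * (100000 * (n + 1) ^ 2) :=
    Nat.mul_le_mul_left _ (Nat.mul_le_mul_left _ h2)
  have h5 : C0 * 17 ≤ C0 * 17 * (n + 1) ^ 2 := Nat.le_mul_of_pos_right _ h3
  nlinarith

/-- For each fixed string `w`. -/
theorem fam_sz (w : List Bool) : ∃ C, ∀ n, sC * (w.length + 1) ≤ n →
    Pv {ψ | ψ ∈ T} (C * (n + 1) ^ 2)
      (alls 2 (imp (ap (Uf n) [1]) (imp (ap (num (codeS w)) [0]) (szF sC)))) := by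
  obtain ⟨C0, h0⟩ := fam cE sC T hT hc
    (φ := alls 2 (imp (ap (emb (Uf (sC * (w.length + 1)))) [1])
      (imp (isNX (codeS w) 0) (szX 0 1)))) (by
    intro M _ S hS hq _ e
    simp only [alls, sat_all, sat_imp, NumC_satUf, sat_isNX, NumC_satSz, scons]
    intro a b ha hb
    exact sz_codes hS hq w hb ha)
  obtain ⟨C, hC⟩ := fam cE sC T hT hc
    (φ := imp (alls 2 (imp (GX 1) (imp (HX 0) (szX 0 1))))
      (alls 2 (imp (ap (ex (and (GX 0) (succX 0 1))) [1]) (imp (HX 0) (szX 0 1))))) (by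
    intro M _ S hS _ _ e
    simp only [alls, sat_all, sat_imp, sat_ex, sat_and, sat_ap, NumB_satG, NumB_satH,
      NumB_satSucc, NumC_satSz, scons, List.getD_cons_zero]
    rintro h1 a b ⟨c, hc, hca⟩ hb
    exact hS.szS _ _ _ (h1 _ _ hc hb) hca)
  refine ⟨C0 * 17 + 2 * (C * (1000 + len (num (codeS w)))), fun n hn => ?_⟩
  have hbase : Pv {ψ | ψ ∈ T} (C0 * 17)
      (alls 2 (imp (ap (Uf (sC * (w.length + 1))) [1])
        (imp (ap (num (codeS w)) [0]) (szF sC)))) := by
    have h := h0 bot bot bot bot trivial trivial trivial trivial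
    have hg : Good arX (xi sC bot bot bot bot) := xi_good sC trivial trivial trivial trivial
    simp only [subst, subst_alls, subst_ap hg, subst_xi_emb, NumC_isNX sC hg,
      NumC_sz sC hg] at h
    exact h
  have hstep : ∀ n, sC * (w.length + 1) ≤ n →
      Pv {ψ | ψ ∈ T} (C * (1000 + len (num (codeS w))) * (n + 1))
      (imp (alls 2 (imp (ap (Uf n) [1]) (imp (ap (num (codeS w)) [0]) (szF sC))))
        (alls 2 (imp (ap (Uf (n + 1)) [1]) (imp (ap (num (codeS w)) [0]) (szF sC))))) := by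
    intro n _
    have h := hC bot (Uf n) (num (codeS w)) bot trivial (Uf_fv n) (FVs_num _) trivial
    have hg : Good arX (xi sC bot (Uf n) (num (codeS w)) bot) :=
      xi_good sC trivial (Uf_fv n) (FVs_num _) trivial
    simp only [subst, subst_alls, subst_ex, subst_and, subst_ap hg,
      NumB_G _ _ _ _ _ (Uf_fv n), NumB_H _ _ _ _ _ (FVs_num (codeS w)), NumB_succ,
      NumC_sz sC hg] at h
    rw [NumB_ap0 (Uf_fv n), ← NumB_Uf_succ] at h
    refine h.mono ?_
    have l1 := len_Uf n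
    have l3 : len (bot : AFm) = 4 := rfl
    rw [mul_assoc]
    refine Nat.mul_le_mul_left _ ?_
    nlinarith
  have h := NumB_chain (f := fun n => alls 2 (imp (ap (Uf n) [1])
    (imp (ap (num (codeS w)) [0]) (szF sC)))) hbase hstep n hn
  refine h.mono ?_
  have h3 : 1 ≤ (n + 1) ^ 2 := Nat.one_le_pow _ _ (by omega)
  have h5 : C0 * 17 ≤ C0 * 17 * (n + 1) ^ 2 := Nat.le_mul_of_pos_right _ h3
  nlinarith

end Pool.Agent.Myc
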