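import Pool.Agent.Myc.FinA
import Pool.Agent.Myc.NumC
import Pool.Agent.Myc.IntB

set_option autoImplicit false

namespace Pool.Agent.Myc

open Fm

/-! ### Digits and concatenation in models -/

section
variable {M : Type} {S : XStr M} {cE a0 sC : ℕ}

theorem FinB_DG_append (S : XStr M) (u w : List Bool) (t x : M) :
    DG S (u ++ w) t x ↔ ∃ y, DG S u t y ∧ DG S w y x := by
  induction u generalizing t with
  | nil => simp [DG]
  | cons b u ih =>
    cases b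
    · simp only [List.cons_append, DG, ih]
      constructor
      · rintro ⟨y, hy, z, hz, hw⟩; exact ⟨z, ⟨y, hy, hz⟩, hw⟩
      · rintro ⟨z, ⟨y, hy, hz⟩, hw⟩; exact ⟨y, hy, z, hz, hw⟩
    · simp only [List.cons_append, DG, ih]
      constructor
      · rintro ⟨v, y, hv, hy, z, hz, hw⟩; exact ⟨z, ⟨v, y, hv, hy, hz⟩, hw⟩
      · rintro ⟨z, ⟨v, y, hv, hy, hz⟩, hw⟩; exact ⟨v, y, hv, hy, z, hz, hw⟩

theorem FinB_conc (h : SMax S cE a0 sC) (hq : QM S) (w : List Bool) {x y z : M}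
    (hy : IsN S (codeS w) y) (hz : DG S w x z) : concR S x y z := by
  induction w using List.reverseRecOn generalizing y z with
  | nil =>
    have : x = z := hz
    subst this
    exact h.conc0 x y hy
  | append_singleton w b ih =>
    obtain ⟨t, ht, hty⟩ := (isN_append hq w [b] y).1 hy
    obtain ⟨s, hs, hsz⟩ := (FinB_DG_append S w [b] x z).1 hz
    have h1 := ih ht hs
    cases b
    · obtain ⟨y', h2, h3⟩ := hty
      obtain ⟨z', h4, h5⟩ := hsz
      have e1 : y' = y := h3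
      have e2 : z' = z := h5
      subst e1; subst e2
      exact h.concD x t s _ _ h1 h2 h4
    · obtain ⟨u, y', h2, h2', h3⟩ := hty
      obtain ⟨v, z', h4, h4', h5⟩ := hsz
      have e1 : y' = y := h3
      have e2 : z' = z := h5
      subst e1; subst e2
      exact h.concE x t s _ _ _ _ h1 h2 h4 h2' h4'

theorem FinB_PW_ex (hq : QM S) (m : M) (c : ℕ) : ∃ N, PW S m c N := by
  induction c with
  | zero => exact isN_ex hq 1
  | succ c ih =>
    obtain ⟨w, hw⟩ := ih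
    obtain ⟨N, hN⟩ := hq.mul_tot w m
    exact ⟨N, w, hw, hN⟩

end

/-! ### The steps -/

/-- The string which follows the numeral of `2 ^ n` in the string of `Con A (2 ^ n) :: A`. -/
def FinB_KA (A : List AFm) : List Bool := encode (num (cdL A)) ++ conS ++ encodeL A

/-- The conclusion of the first step, with a formula saying that `x₀` is the code of the theory. -/
def FinB_A (cE c' : ℕ) (B : XFm) : XFm :=
  alls 7 (imp (GX 0) (imp (ap B [1]) (imp (isNX c' 2) (imp (mulX 0 0 4)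
    (imp (ex (addX 4 0 5)) (imp (ap (pwX cE) [0, 5]) (imp (isNX 16 6)
      (imp (ppX 1 3 6) (ppX 2 5 6)))))))))

def FinB_X1 (cE c c' : ℕ) (w : List Bool) : XFm :=
  imp (ex (HX 0)) (imp (alls 2 (imp (GX 0) (imp (HX 1) (e2X 0 1))))
    (imp (alls 2 (imp (HX 0) (imp (KX 1) (nuX 0 1))))
      (imp (alls 2 (imp (GX 1) (imp (isNX c 0) (szX 0 1))))
        (FinB_A cE c' (digX w (KX 0))))))

def FinB_B : XFm :=
  alls 5 (imp (GX 0) (imp (KX 1) (imp (mulX 0 0 3) (imp (ex (addX 3 0 4)) (imp (isNX 16 4)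
    (neg (ppX 1 2 4)))))))

def FinB_X2 (cE c' : ℕ) : XFm :=
  imp (FinB_A cE c' (KX 0)) (imp (alls 3 (imp (HX 0) (imp (isNX c' 1) (imp (isNX 16 2)
    (neg (ppX 1 0 2)))))) (imp (alls 2 (imp (GX 0) (imp (pwX cE) (HX 1)))) FinB_B))

def FinB_C : XFm :=
  alls 3 (imp (GX 0) (imp (HX 1) (imp (mulX 0 0 2) (ex (addX 2 0 3)))))

def FinB_X3 : XFm :=
  imp (alls 3 (imp (GX 0) (imp (GX 1) (imp (mulX 0 1 2) (KX 2)))))
    (imp (alls 2 (imp (HX 0) (imp (KX 1) (ex (addX 1 0 2))))) FinB_C)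

def FinB_X4 : XFm :=
  imp FinB_B (imp FinB_C (imp (ex (GX 0)) (alls 3 (imp (HX 0) (imp (KX 1) (imp (isNX 16 2)
    (neg (ppX 1 0 2))))))))

section
variable {M : Type} (S : XStr M) (e : ℕ → M)

theorem FinB_se2 (x y : ℕ) : Sat S (e2X x y) e ↔ e2R S (e x) (e y) :=
  Iff.of_eq (congrArg (S.rel RX.e2) (comp_vec2 e x y))
theorem FinB_snu (x y : ℕ) : Sat S (nuX x y) e ↔ nuR S (e x) (e y) :=
  Iff.of_eq (congrArg (S.rel RX.nu) (comp_vec2 e x y))
theorem FinB_ssz (x y : ℕ) : Sat S (szX x y) e ↔ szR S (e x) (e y) :=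
  Iff.of_eq (congrArg (S.rel RX.sz) (comp_vec2 e x y))

theorem FinB_sat4 [Nonempty M] (hq : QM S) : Sat S FinB_X4 e := by
  simp only [FinB_X4, FinB_B, FinB_C, alls, sat_imp, sat_all, sat_ex, sat_neg, FinA_sG, FinA_sH,
    FinA_sK, FinA_spp, FinA_sadd, FinA_smul, sat_isNX, FinA_scons0, FinA_sconsS]
  intro hB hC ⟨μ, hμ⟩ y b x hx hb hy
  obtain ⟨m2, hm2⟩ := hq.mul_tot μ μ
  exact hB y m2 x b μ hμ hb hm2 (hC m2 x μ hμ hx hm2) hy

theorem FinB_sat3 : Sat S FinB_X3 e := by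
  simp only [FinB_X3, FinB_C, alls, sat_imp, sat_all, sat_ex, FinA_sG, FinA_sH,
    FinA_sK, FinA_sadd, FinA_smul, FinA_scons0, FinA_sconsS]
  intro h1 h2 m2 x μ hμ hx hm
  exact h2 m2 x hx (h1 m2 μ μ hμ hμ hm)

theorem FinB_sat2 [Nonempty M] (hq : QM S) (cE c' : ℕ) : Sat S (FinB_X2 cE c') e := by
  simp only [FinB_X2, FinB_A, FinB_B, alls, sat_imp, sat_all, sat_ex, sat_neg, sat_ap, FinA_sG,
    FinA_sH, FinA_sK, FinA_spp, FinA_sadd, FinA_smul, sat_isNX, sat_pwX, FinA_scons0, FinA_sconsS,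
    List.getD_cons_zero, List.getD_cons_succ]
  intro h1 h2 h3 y m2 x b μ hμ hb hm hx hy hp
  obtain ⟨N, hN⟩ := FinB_PW_ex hq μ cE
  obtain ⟨a', ha'⟩ := isN_ex hq c'
  exact h2 y a' N (h3 N μ hμ hN) ha' hy (h1 y N m2 x a' b μ hμ hb ha' hm hx hN hy hp)

theorem FinB_sat1 [Nonempty M] {S : XStr M} {cE sC : ℕ} (h : SMax S cE (cdL A0) sC) (hq : QM S)
    (A : List AFm) (e : ℕ → M) :
    Sat S (FinB_X1 cE (cdL A) (cdL (A0 ++ A)) (FinB_KA A)) e := by
  have hK : FVs (fun i => i < 1) (KX 0) := by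
    intro k
    fin_cases k
    exact Nat.one_pos
  simp only [FinB_X1, FinB_A, alls, sat_imp, sat_all, sat_ex, sat_ap, sat_digX S _ hK, FinA_sG,
    FinA_sH, FinA_sK, FinA_spp, FinA_sadd, FinA_smul, sat_isNX, sat_pwX, FinB_se2, FinB_snu,
    FinB_ssz, FinA_scons0, FinA_sconsS, List.getD_cons_zero, List.getD_cons_succ]
  intro ⟨q, hq1⟩ h1 h2 h3 y N m2 x a' b μ hμ ⟨t, ht, hb⟩ ha' hm hx hN hy hp
  obtain ⟨a, ha⟩ := isN_ex hq (cdL A)
  obtain ⟨d, hd⟩ := isN_ex hq (cdL A0)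
  obtain ⟨zz, hzz⟩ := isN_ex hq (codeS (encode (num (cdL A))))
  obtain ⟨w, hw⟩ := isN_ex hq (codeS conS)
  rw [FinB_KA, FinB_DG_append] at hb
  obtain ⟨t2, hb, hb2⟩ := hb
  rw [FinB_DG_append] at hb
  obtain ⟨t1, hb, hb1⟩ := hb
  have c1 : concR S t zz t1 := FinB_conc h hq _ hzz hb
  have c2 : concR S t1 w t2 := FinB_conc h hq _ hw hb1
  have c3 : concR S t2 a b := FinB_conc h hq _ ha hb2
  have hcl : clR S a q b := h.clA a q t zz t1 w t2 b (lst_codes h hq A ha) (h2 t q hq1 ht)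
    (nu_codes h hq _ ha hzz) c1 hw c2 c3
  have hda : concR S d a a' := conc_codes h hq (encodeL A0) (encodeL A) hd ha (by
    have : encodeL A0 ++ encodeL A = encodeL (A0 ++ A) := by simp [encodeL]
    rw [this]; exact ha')
  exact h.psi μ q a b x m2 N y d a' (h1 q μ hμ hq1) hcl (h3 μ a hμ ha) hm hx hN hy hd hda hp

end

/-! ### Substitution instances -/

/-- The arithmetical version of `FinB_A`. -/
def FinB_AA (sC cE c' : ℕ) (G B : AFm) : AFm :=
  alls 7 (imp (ap G [0]) (imp (ap B [1]) (imp (ap (num c') [2]) (imp (mulA 0 0 4)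
    (imp (ex (addA 4 0 5)) (imp (ap (subst (xi sC bot bot bot bot) (pwX cE)) [0, 5])
      (imp (ap (num 16) [6]) (imp (ap provF [1, 3, 6]) (ap provF [2, 5, 6])))))))))

def FinB_BB (G K : AFm) : AFm :=
  alls 5 (imp (ap G [0]) (imp (ap K [1]) (imp (mulA 0 0 3) (imp (ex (addA 3 0 4))
    (imp (ap (num 16) [4]) (neg (ap provF [1, 2, 4])))))))

def FinB_CC (G H : AFm) : AFm :=
  alls 3 (imp (ap G [0]) (imp (ap H [1]) (imp (mulA 0 0 2) (ex (addA 2 0 3)))))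

section
variable {sC : ℕ} {G H K : AFm} (hG : FVs (fun i => i < 1) G)
  (hH : FVs (fun i => i < 1) H) (hK : FVs (fun i => i < 1) K)
include hG hH hK

theorem FinB_sub_A (cE c' : ℕ) (B : XFm) :
    subst (xi sC bot G H K) (FinB_A cE c' B) =
      FinB_AA sC cE c' G (subst (xi sC bot G H K) B) := by
  have hV : FVs (fun i => i < 3) (bot : AFm) := trivial
  have hg := xi_good sC hV hG hH hK
  simp only [FinB_A, FinB_AA, subst, subst_alls, subst_ex, subst_ap hg, FinA_G,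
    FinA_pp, FinA_isN sC hV hG hH hK, FinA_pw sC hV hG hH hK, FinA_mul, FinA_add]

theorem FinB_sub_B : subst (xi sC bot G H K) FinB_B = FinB_BB G K := by
  have hV : FVs (fun i => i < 3) (bot : AFm) := trivial
  simp only [FinB_B, FinB_BB, subst, subst_alls, subst_ex, subst_neg, FinA_G, FinA_K,
    FinA_pp, FinA_isN sC hV hG hH hK, FinA_mul, FinA_add]

omit hG hH hK in
theorem FinB_sub_C : subst (xi sC bot G H K) FinB_C = FinB_CC G H := by
  simp only [FinB_C, FinB_CC, subst, subst_alls, subst_ex, FinA_G, FinA_H, FinA_mul, FinA_add]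

theorem FinB_sub_X1 (cE c c' : ℕ) (w : List Bool) :
    subst (xi sC bot G H K) (FinB_X1 cE c c' w) =
      imp (ex H) (imp (alls 2 (imp (ap G [0]) (imp (ap H [1]) exp2F)))
        (imp (alls 2 (imp (ap H [0]) (imp (ap K [1]) nuF)))
          (imp (alls 2 (imp (ap G [1]) (imp (ap (num c) [0]) (szF sC))))
            (FinB_AA sC cE c' G (digF w K))))) := by
  have hV : FVs (fun i => i < 3) (bot : AFm) := trivial
  have hg := xi_good sC hV hG hH hK
  have hd : subst (xi sC bot G H K) (digX w (KX 0)) = digF w K := by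
    rw [subst_digX rfl rfl, FinA_K, FinA_ap0 hK]
  rw [← hd, ← FinB_sub_A hG hH hK]
  simp only [FinB_X1, subst, subst_alls, subst_ex, FinA_G, FinA_H, FinA_K,
    FinA_isN sC hV hG hH hK, NumC_e2 sC hg, NumC_nu sC hg, NumC_sz sC hg, FinA_ap0 hH]

theorem FinB_sub_X2 (cE c' : ℕ) :
    subst (xi sC bot G H K) (FinB_X2 cE c') =
      imp (FinB_AA sC cE c' G K) (imp (alls 3 (imp (ap H [0]) (imp (ap (num c') [1])
        (imp (ap (num 16) [2]) (neg (ap provF [1, 0, 2]))))))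
        (imp (alls 2 (imp (ap G [0]) (imp (subst (xi sC bot bot bot bot) (pwX cE)) (ap H [1]))))
          (FinB_BB G K))) := by
  have hV : FVs (fun i => i < 3) (bot : AFm) := trivial
  have hk : subst (xi sC bot G H K) (KX 0) = K := by rw [FinA_K, FinA_ap0 hK]
  rw [← FinB_sub_B (sC := sC) hG hH hK]
  conv_rhs => rw [← hk]
  rw [← FinB_sub_A hG hH hK, hk]
  simp only [FinB_X2, subst, subst_alls, subst_neg, FinA_G, FinA_H, FinA_pp,
    FinA_isN sC hV hG hH hK, FinA_pw sC hV hG hH hK]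

omit hG hH hK in
theorem FinB_sub_X3 :
    subst (xi sC bot G H K) FinB_X3 =
      imp (alls 3 (imp (ap G [0]) (imp (ap G [1]) (imp (mulA 0 1 2) (ap K [2])))))
        (imp (alls 2 (imp (ap H [0]) (imp (ap K [1]) (ex (addA 1 0 2))))) (FinB_CC G H)) := by
  rw [← FinB_sub_C (sC := sC) (G := G) (H := H) (K := K)]
  simp only [FinB_X3, subst, subst_alls, subst_ex, FinA_G, FinA_H, FinA_K, FinA_mul, FinA_add]

theorem FinB_sub_X4 :
    subst (xi sC bot G H K) FinB_X4 =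
      imp (FinB_BB G K) (imp (FinB_CC G H) (imp (ex G) (alls 3 (imp (ap H [0]) (imp (ap K [1])
        (imp (ap (num 16) [2]) (neg (ap provF [1, 0, 2])))))))) := by
  have hV : FVs (fun i => i < 3) (bot : AFm) := trivial
  rw [← FinB_sub_C (sC := sC) (G := G) (H := H) (K := K),
    ← FinB_sub_B (sC := sC) hG hH hK]
  simp only [FinB_X4, subst, subst_alls, subst_ex, subst_neg, FinA_G, FinA_H, FinA_K, FinA_pp,
    FinA_isN sC hV hG hH hK, FinA_ap0 hG]

end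

/-! ### Families with polynomial bounds -/

/-- The formulas `φ n m` with `n0 ≤ n`, `m ≤ n ^ 2` have proofs of polynomial length. -/
def FinB_Fam (A : Set AFm) (n0 : ℕ) (φ : ℕ → ℕ → AFm) : Prop :=
  ∃ C c, ∀ n m, n0 ≤ n → m ≤ n ^ 2 → Pv A (C * (n + 1) ^ c) (φ n m)

/-- Polynomial bounds. -/
def FinB_LB (f : ℕ → ℕ → ℕ) : Prop := ∃ C c, ∀ n m, m ≤ n ^ 2 → f n m ≤ C * (n + 1) ^ c

theorem FinB_le1 {C c C' c' n : ℕ} (hC : C ≤ C') (hc : c ≤ c') :
    C * (n + 1) ^ c ≤ C' * (n + 1) ^ c' :=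
  Nat.mul_le_mul hC (Nat.pow_le_pow_right (by omega) hc)

theorem FinB_LB.mono {f g : ℕ → ℕ → ℕ} (h : FinB_LB g) (hfg : ∀ n m, m ≤ n ^ 2 → f n m ≤ g n m) :
    FinB_LB f := by
  obtain ⟨C, c, h⟩ := h
  exact ⟨C, c, fun n m hm => (hfg n m hm).trans (h n m hm)⟩

theorem FinB_LB.const (k : ℕ) : FinB_LB (fun _ _ => k) :=
  ⟨k, 0, fun n m _ => by simp⟩

theorem FinB_LB.fst : FinB_LB (fun n _ => n) := ⟨1, 1, fun n m _ => by simp⟩

theorem FinB_LB.snd : FinB_LB (fun _ m => m) :=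
  ⟨1, 2, fun n m hm => by
    have : n ^ 2 ≤ (n + 1) ^ 2 := Nat.pow_le_pow_left (by omega) 2
    show m ≤ 1 * (n + 1) ^ 2
    omega⟩

theorem FinB_LB.add {f g : ℕ → ℕ → ℕ} (hf : FinB_LB f) (hg : FinB_LB g) :
    FinB_LB (fun n m => f n m + g n m) := by
  obtain ⟨C1, c1, h1⟩ := hf
  obtain ⟨C2, c2, h2⟩ := hg
  refine ⟨C1 + C2, c1 + c2, fun n m hm => ?_⟩
  rw [add_mul]
  exact Nat.add_le_add ((h1 n m hm).trans (FinB_le1 le_rfl (by omega)))
    ((h2 n m hm).trans (FinB_le1 le_rfl (by omega)))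

theorem FinB_LB.mul {f g : ℕ → ℕ → ℕ} (hf : FinB_LB f) (hg : FinB_LB g) :
    FinB_LB (fun n m => f n m * g n m) := by
  obtain ⟨C1, c1, h1⟩ := hf
  obtain ⟨C2, c2, h2⟩ := hg
  refine ⟨C1 * C2, c1 + c2, fun n m hm => ?_⟩
  calc f n m * g n m ≤ C1 * (n + 1) ^ c1 * (C2 * (n + 1) ^ c2) :=
        Nat.mul_le_mul (h1 n m hm) (h2 n m hm)
    _ = C1 * C2 * (n + 1) ^ (c1 + c2) := by ring

theorem FinB_LB.pow {f : ℕ → ℕ → ℕ} (hf : FinB_LB f) (k : ℕ) : FinB_LB (fun n m => f n m ^ k) := by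
  induction k with
  | zero => exact (FinB_LB.const 1).mono (fun n m _ => by simp)
  | succ k ih => exact (ih.mul hf).mono (fun n m _ => by simp [pow_succ])

section
variable {A : Set AFm} {n0 : ℕ} {φ ψ : ℕ → ℕ → AFm}

theorem FinB_Fam.of {f : ℕ → ℕ → ℕ} (hf : FinB_LB f)
    (h : ∀ n m, n0 ≤ n → m ≤ n ^ 2 → Pv A (f n m) (φ n m)) : FinB_Fam A n0 φ := by
  obtain ⟨C, c, hC⟩ := hf
  exact ⟨C, c, fun n m hn hm => (h n m hn hm).mono (hC n m hm)⟩

theorem FinB_Fam.mp (h1 : FinB_Fam A n0 (fun n m => imp (φ n m) (ψ n m)))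
    (h2 : FinB_Fam A n0 φ) : FinB_Fam A n0 ψ := by
  obtain ⟨C1, c1, h1⟩ := h1
  obtain ⟨C2, c2, h2⟩ := h2
  refine ⟨2 * C1 + C2, c1 + c2, fun n m hn hm => ((h1 n m hn hm).mp' (h2 n m hn hm)).mono ?_⟩
  rw [add_mul, mul_assoc]
  exact Nat.add_le_add (Nat.mul_le_mul_left _ (FinB_le1 le_rfl (by omega)))
    (FinB_le1 le_rfl (by omega))

end

theorem FinB_Fam_fam (cE sC : ℕ) (T : List AFm) (hT : ∀ φ ∈ BaseA cE sC, φ ∈ T)
    (hc : ∀ φ ∈ T, Closed φ) {X : XFm} (n0 : ℕ)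
    (h : ∀ (M : Type) [Nonempty M] (S : XStr M), SMax S cE (cdL A0) sC → QM S → ∀ e, Sat S X e)
    {G H K : ℕ → ℕ → AFm} (hG : ∀ n m, FVs (fun i => i < 1) (G n m))
    (hH : ∀ n m, FVs (fun i => i < 1) (H n m)) (hK : ∀ n m, FVs (fun i => i < 1) (K n m))
    (lG : FinB_LB (fun n m => len (G n m))) (lH : FinB_LB (fun n m => len (H n m)))
    (lK : FinB_LB (fun n m => len (K n m))) :
    FinB_Fam {ψ | ψ ∈ T} n0 (fun n m => subst (xi sC bot (G n m) (H n m) (K n m)) X) := by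
  obtain ⟨C, hC⟩ := fam cE sC T hT hc (φ := X) (fun M _ S h1 h2 _ e => h M S h1 h2 e)
  refine FinB_Fam.of (f := fun n m => C * (1 + len (bot : AFm) + len (G n m) + len (H n m) +
    len (K n m))) ?_ (fun n m _ _ => hC bot _ _ _ trivial (hG n m) (hH n m) (hK n m))
  exact (FinB_LB.const C).mul ((((FinB_LB.const (1 + len (bot : AFm))).add lG).add lH).add lK)

theorem FinB_LB_num {f : ℕ → ℕ → ℕ} (hf : FinB_LB (fun n m => Nat.size (f n m))) :
    FinB_LB (fun n m => len (num (f n m))) :=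
  ((FinB_LB.const 200).mul (hf.add (FinB_LB.const 1))).mono (fun n m _ => len_num (f n m))

theorem FinB_LB_num' {f : ℕ → ℕ → ℕ} (hf : FinB_LB f) :
    FinB_LB (fun n m => len (num (f n m))) :=
  FinB_LB_num (hf.mono (fun n m _ => FinA_size (f n m)))

theorem FinB_LB_numS {w : ℕ → ℕ → List Bool} (hf : FinB_LB (fun n m => (w n m).length)) :
    FinB_LB (fun n m => len (num (codeS (w n m)))) :=
  FinB_LB_num ((hf.add (FinB_LB.const 1)).mono (fun n m _ => NumC_size_codeS (w n m)))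

theorem FinB_LB_Uf {f : ℕ → ℕ → ℕ} (hf : FinB_LB f) : FinB_LB (fun n m => len (Uf (f n m))) :=
  ((FinB_LB.const 100).mul (hf.add (FinB_LB.const 1))).mono (fun n m _ => len_Uf (f n m))

theorem FinB_LB_pow2 : FinB_LB (fun n _ => len (num (2 ^ n))) :=
  ((FinB_LB.const 200).mul (FinB_LB.fst.add (FinB_LB.const 2))).mono
    (fun n _ _ => NumC_len_pow n)

theorem FinB_Fam.congr {A : Set AFm} {n0 : ℕ} {φ ψ : ℕ → ℕ → AFm} (h : FinB_Fam A n0 φ)
    (e : ∀ n m, φ n m = ψ n m) : FinB_Fam A n0 ψ := by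
  have : φ = ψ := by funext n m; exact e n m
  exact this ▸ h

theorem FinB_code (A : List AFm) (n : ℕ) :
    encodeL (Con A (2 ^ n) :: A) = encode (num (2 ^ n)) ++ FinB_KA A := by
  have h : encodeL (Con A (2 ^ n) :: A) = encode (Con A (2 ^ n)) ++ encodeL A := by
    simp [encodeL]
  rw [h, encode_Con, FinB_KA, cdL]
  simp only [List.append_assoc]

theorem FinB_num (A : List AFm) (n : ℕ) :
    num (cdL (Con A (2 ^ n) :: A)) =
      digF (FinB_KA A) (num (codeS (encode (num (2 ^ n))))) := by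
  rw [cdL, FinB_code, num_codeS_append]

/-- Short proofs of `Con_{A + Con_A (2 ^ n)} (m)` for large `n` and all `m ≤ n ^ 2`. -/
theorem con_big (cE sC : ℕ) (A : List AFm) (hT : ∀ φ ∈ BaseA cE sC, φ ∈ A)
    (hc : ∀ φ ∈ A, Closed φ) : ∃ n0 C c, ∀ n, n0 ≤ n → ∀ m, m ≤ n ^ 2 →
      Pv {ψ | ψ ∈ A} (C * (n + 1) ^ c) (Con (Con A (2 ^ n) :: A) m) := by
  set n0 := sC * ((encodeL A).length + 1) with hn0
  set c' := cdL (A0 ++ A) with hc'
  -- bounds
  have lp : FinB_LB (fun n _ => len (num (2 ^ n))) := FinB_LB_pow2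
  have le : FinB_LB (fun n _ => (encode (num (2 ^ n))).length) :=
    lp.mono (fun n m _ => (length_encode _).le)
  have lt : FinB_LB (fun n _ => (encodeL (Con A (2 ^ n) :: A)).length) := by
    refine (le.add (FinB_LB.const (FinB_KA A).length)).mono (fun n m _ => ?_)
    rw [FinB_code, List.length_append]
  have lN : FinB_LB (fun n _ => len (num (codeS (encode (num (2 ^ n)))))) :=
    FinB_LB_numS (w := fun n _ => encode (num (2 ^ n))) le
  have lT : FinB_LB (fun n _ => len (num (cdL (Con A (2 ^ n) :: A)))) :=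
    FinB_LB_numS (w := fun n _ => encodeL (Con A (2 ^ n) :: A)) lt
  have ln : FinB_LB (fun n _ => len (Uf n)) := FinB_LB_Uf (f := fun n _ => n) FinB_LB.fst
  have lm : FinB_LB (fun _ m => len (Uf m)) := FinB_LB_Uf (f := fun _ m => m) FinB_LB.snd
  have lc : FinB_LB (fun n _ => len (Uf (n ^ cE))) :=
    FinB_LB_Uf (f := fun n _ => n ^ cE) (FinB_LB.fst.pow cE)
  have lnn : FinB_LB (fun n _ => len (Uf (n * n))) :=
    FinB_LB_Uf (f := fun n _ => n * n) (FinB_LB.fst.mul FinB_LB.fst)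
  -- facts
  obtain ⟨C1, h1⟩ := fam_exNum cE sC A hT hc
  obtain ⟨C2, h2⟩ := fam_e2 cE sC A hT hc
  obtain ⟨C3, h3⟩ := fam_nu cE sC A hT hc
  obtain ⟨C4, h4⟩ := fam_sz cE sC A hT hc (encodeL A)
  obtain ⟨C5, h5⟩ := pudlak cE sC (A0 ++ A) (fun φ h => List.mem_append_right _ (hT φ h)) (by
    intro φ h
    rcases List.mem_append.1 h with h | h
    · exact A0_closed φ h
    · exact hc φ h)
  obtain ⟨C6, h6⟩ := fam_powU cE sC A hT hc cE
  obtain ⟨C7, h7⟩ := fam_mulU cE sC A hT hc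
  obtain ⟨C8, h8⟩ := fam_leU cE sC A hT hc
  obtain ⟨C9, h9⟩ := fam_exU cE sC A hT hc
  obtain ⟨C10, h10⟩ := FinA_core cE sC A hT hc
  have f1 : FinB_Fam {ψ | ψ ∈ A} n0 (fun n _ => ex (num (2 ^ n))) :=
    FinB_Fam.of (f := fun n _ => C1 * (Nat.size (2 ^ n) + 1) ^ 2)
      ((FinB_LB.const C1).mul ((((FinB_LB.fst.add (FinB_LB.const 1)).mono
        (fun n m _ => by rw [Nat.size_pow])).add (FinB_LB.const 1)).pow 2))
      (fun n m _ _ => h1 (2 ^ n))
  have lsq : FinB_LB (fun n _ => (n + 1) ^ 2) := (FinB_LB.fst.add (FinB_LB.const 1)).pow 2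
  have f2 : FinB_Fam {ψ | ψ ∈ A} n0
      (fun n _ => alls 2 (imp (ap (Uf n) [0]) (imp (ap (num (2 ^ n)) [1]) exp2F))) :=
    FinB_Fam.of (f := fun n _ => C2 * (n + 1) ^ 2) ((FinB_LB.const C2).mul lsq)
      (fun n m _ _ => h2 n)
  have f3 : FinB_Fam {ψ | ψ ∈ A} n0
      (fun n _ => alls 2 (imp (ap (num (2 ^ n)) [0])
        (imp (ap (num (codeS (encode (num (2 ^ n))))) [1]) nuF))) :=
    FinB_Fam.of (f := fun n _ => C3 * (n + 1) ^ 2) ((FinB_LB.const C3).mul lsq)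
      (fun n m _ _ => h3 n)
  have f4 : FinB_Fam {ψ | ψ ∈ A} n0
      (fun n _ => alls 2 (imp (ap (Uf n) [1]) (imp (ap (num (cdL A)) [0]) (szF sC)))) :=
    FinB_Fam.of (f := fun n _ => C4 * (n + 1) ^ 2) ((FinB_LB.const C4).mul lsq)
      (fun n m hn _ => h4 n hn)
  have f5 : FinB_Fam {ψ | ψ ∈ A} n0
      (fun n _ => alls 3 (imp (ap (Uf (n ^ cE)) [0]) (imp (ap (num c') [1])
        (imp (ap (num 16) [2]) (neg (ap provF [1, 0, 2])))))) :=
    FinB_Fam.of (f := fun n _ => C5 * (n ^ cE + 1) ^ 2)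
      ((FinB_LB.const C5).mul (((FinB_LB.fst.pow cE).add (FinB_LB.const 1)).pow 2))
      (fun n m _ _ => (h5 (n ^ cE)).weaken (by
        intro ψ hψ
        rcases List.mem_append.1 hψ with h | h
        · exact hT _ (List.mem_append_left _ h)
        · exact h))
  have f6 : FinB_Fam {ψ | ψ ∈ A} n0
      (fun n _ => alls 2 (imp (ap (Uf n) [0]) (imp (subst (xi sC bot bot bot bot) (pwX cE))
        (ap (Uf (n ^ cE)) [1])))) :=
    FinB_Fam.of (f := fun n _ => C6 * (n + 1) ^ (3 * (cE + 1)))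
      ((FinB_LB.const C6).mul ((FinB_LB.fst.add (FinB_LB.const 1)).pow _))
      (fun n m _ _ => h6 n)
  have f7 : FinB_Fam {ψ | ψ ∈ A} n0
      (fun n _ => alls 3 (imp (ap (Uf n) [0]) (imp (ap (Uf n) [1]) (imp (mulA 0 1 2)
        (ap (Uf (n * n)) [2]))))) :=
    FinB_Fam.of (f := fun n _ => C7 * ((n + 1) * (n + 1)) ^ 3)
      ((FinB_LB.const C7).mul (((FinB_LB.fst.add (FinB_LB.const 1)).mul
        (FinB_LB.fst.add (FinB_LB.const 1))).pow 3))
      (fun n m _ _ => h7 n n)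
  have f8 : FinB_Fam {ψ | ψ ∈ A} n0
      (fun n m => alls 2 (imp (ap (Uf m) [0]) (imp (ap (Uf (n * n)) [1]) (ex (addA 1 0 2))))) :=
    FinB_Fam.of (f := fun n _ => C8 * (n * n + 1) ^ 2)
      ((FinB_LB.const C8).mul (((FinB_LB.fst.mul FinB_LB.fst).add (FinB_LB.const 1)).pow 2))
      (fun n m _ hm => h8 m (n * n) (by rw [← sq]; exact hm))
  have f9 : FinB_Fam {ψ | ψ ∈ A} n0 (fun n _ => ex (Uf n)) :=
    FinB_Fam.of (f := fun n _ => C9 * (n + 1) ^ 2) ((FinB_LB.const C9).mul lsq)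
      (fun n m _ _ => h9 n)
  -- the four steps
  have s1 : FinB_Fam {ψ | ψ ∈ A} n0 (fun n _ => imp (ex (num (2 ^ n)))
      (imp (alls 2 (imp (ap (Uf n) [0]) (imp (ap (num (2 ^ n)) [1]) exp2F)))
        (imp (alls 2 (imp (ap (num (2 ^ n)) [0])
          (imp (ap (num (codeS (encode (num (2 ^ n))))) [1]) nuF)))
          (imp (alls 2 (imp (ap (Uf n) [1]) (imp (ap (num (cdL A)) [0]) (szF sC))))
            (FinB_AA sC cE c' (Uf n) (num (cdL (Con A (2 ^ n) :: A)))))))) := by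
    refine (FinB_Fam_fam cE sC A hT hc (X := FinB_X1 cE (cdL A) c' (FinB_KA A)) n0
      (fun M _ S h hq e => FinB_sat1 h hq A e) (fun n _ => Uf_fv n) (fun n _ => FVs_num (2 ^ n))
      (fun n _ => FVs_num (codeS (encode (num (2 ^ n))))) ln lp lN).congr (fun n m => ?_)
    rw [FinB_sub_X1 (Uf_fv n) (FVs_num _) (FVs_num _), ← FinB_num]
  have a1 := (((s1.mp f1).mp f2).mp f3).mp f4
  have s2 : FinB_Fam {ψ | ψ ∈ A} n0 (fun n _ =>
      imp (FinB_AA sC cE c' (Uf n) (num (cdL (Con A (2 ^ n) :: A))))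
        (imp (alls 3 (imp (ap (Uf (n ^ cE)) [0]) (imp (ap (num c') [1])
          (imp (ap (num 16) [2]) (neg (ap provF [1, 0, 2]))))))
          (imp (alls 2 (imp (ap (Uf n) [0]) (imp (subst (xi sC bot bot bot bot) (pwX cE))
            (ap (Uf (n ^ cE)) [1]))))
            (FinB_BB (Uf n) (num (cdL (Con A (2 ^ n) :: A))))))) := by
    refine (FinB_Fam_fam cE sC A hT hc (X := FinB_X2 cE c') n0
      (fun M _ S _ hq e => FinB_sat2 S e hq cE c') (fun n _ => Uf_fv n)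
      (fun n _ => Uf_fv (n ^ cE)) (fun n _ => FVs_num (cdL (Con A (2 ^ n) :: A)))
      ln lc lT).congr (fun n m => ?_)
    rw [FinB_sub_X2 (Uf_fv n) (Uf_fv _) (FVs_num _)]
  have b1 := ((s2.mp a1).mp f5).mp f6
  have s3 : FinB_Fam {ψ | ψ ∈ A} n0 (fun n m =>
      imp (alls 3 (imp (ap (Uf n) [0]) (imp (ap (Uf n) [1]) (imp (mulA 0 1 2)
        (ap (Uf (n * n)) [2])))))
        (imp (alls 2 (imp (ap (Uf m) [0]) (imp (ap (Uf (n * n)) [1]) (ex (addA 1 0 2)))))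
          (FinB_CC (Uf n) (Uf m)))) := by
    refine (FinB_Fam_fam cE sC A hT hc (X := FinB_X3) n0
      (fun M _ S _ _ e => FinB_sat3 S e) (fun n _ => Uf_fv n)
      (fun _ m => Uf_fv m) (fun n _ => Uf_fv (n * n)) ln lm lnn).congr (fun n m => ?_)
    rw [FinB_sub_X3]
  have c1 := (s3.mp f7).mp f8
  have s4 : FinB_Fam {ψ | ψ ∈ A} n0 (fun n m =>
      imp (FinB_BB (Uf n) (num (cdL (Con A (2 ^ n) :: A)))) (imp (FinB_CC (Uf n) (Uf m))
        (imp (ex (Uf n)) (UCon (Con A (2 ^ n) :: A) m)))) := by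
    refine (FinB_Fam_fam cE sC A hT hc (X := FinB_X4) n0
      (fun M _ S _ hq e => FinB_sat4 S e hq) (fun n _ => Uf_fv n)
      (fun _ m => Uf_fv m) (fun n _ => FVs_num (cdL (Con A (2 ^ n) :: A)))
      ln lm lT).congr (fun n m => ?_)
    rw [FinB_sub_X4 (Uf_fv n) (Uf_fv m) (FVs_num _)]
    rfl
  obtain ⟨C, c, hd⟩ := ((s4.mp b1).mp c1).mp f9
  have fin : FinB_Fam {ψ | ψ ∈ A} n0 (fun n m => Con (Con A (2 ^ n) :: A) m) := by
    refine FinB_Fam.of (f := fun n m => C10 * (C * (n + 1) ^ c +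
      (Nat.size (cdL (Con A (2 ^ n) :: A)) + m + 1) ^ 3)) ?_
      (fun n m hn hm => h10 _ m _ (hd n m hn hm))
    have l1 : FinB_LB (fun n _ => Nat.size (cdL (Con A (2 ^ n) :: A))) :=
      (lt.add (FinB_LB.const 1)).mono (fun n m _ => NumC_size_codeS _)
    exact (FinB_LB.const C10).mul (((FinB_LB.const C).mul
      ((FinB_LB.fst.add (FinB_LB.const 1)).pow c)).add
      (((l1.add FinB_LB.snd).add (FinB_LB.const 1)).pow 3))
  obtain ⟨C', c', hfin⟩ := fin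
  exact ⟨n0, C', c', fun n hn m hm => hfin n m hn hm⟩

end Pool.Agent.Myc
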