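import Pool.Agent.Myc.RepA

set_option autoImplicit false

namespace Pool.Agent.Myc

open Fm

theorem RepC_size_foldl (w : List Bool) : ∀ n : ℕ, 0 < n →
    Nat.size (w.foldl (fun n b => 2 * n + b.toNat) n) = Nat.size n + w.length := by
  induction w with
  | nil => intro n _; simp
  | cons b w ih =>
    intro n hn
    have h1 : 0 < 2 * n + b.toNat := by omega
    rw [List.foldl_cons, ih _ h1, List.length_cons]
    have h2 : 2 * n + b.toNat = Nat.bit b n := by
      cases b <;> simp [Nat.bit_val]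
    have h3 : Nat.bit b n ≠ 0 := by rw [← h2]; omega
    rw [h2, Nat.size_bit h3]
    omega

theorem RepC_size_codeS (w : List Bool) : Nat.size (codeS w) = w.length + 1 := by
  have h := RepC_size_foldl w 1 one_pos
  have h1 : Nat.size 1 = 1 := by simp
  show Nat.size (w.foldl (fun n b => 2 * n + b.toNat) 1) = _
  rw [h, h1]
  omega

theorem RepC_num_two_pow (m : ℕ) : num (2 ^ m) = nv m 0 := by
  unfold nv
  have h := rename_congr (FVs_num (2 ^ m)) (σ := fun _ => 0) (ρ := id)
    (fun i hi => by simp; omega)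
  rw [h, rename_id]

theorem RepC_neg_ne {a b : AFm} (j i : ℕ) : neg (imp a b) ≠ nv j i := by
  cases j with
  | zero =>
    rw [RepA_nv_zero]
    intro h
    exact Fm.noConfusion rfl HEq.rfl (heq_of_eq (Fm.imp.inj h).1)
  | succ j =>
    rw [RepA_nv_succ]
    intro h
    exact Fm.noConfusion rfl HEq.rfl (heq_of_eq (Fm.imp.inj h).1)

theorem RepC_imp_neg_ne {a b : AFm} (j i : ℕ) : imp a (neg b) ≠ nv j i := by
  cases j with
  | zero =>
    rw [RepA_nv_zero]
    intro h
    exact Fm.noConfusion rfl HEq.rfl (heq_of_eq (Fm.imp.inj h).2)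
  | succ j =>
    rw [RepA_nv_succ]
    intro h
    exact Fm.noConfusion rfl HEq.rfl (heq_of_eq (Fm.imp.inj h).2)

theorem RepC_neg_rel_ne {r : AR} {v : Fin (arA r) → ℕ} (j i : ℕ) :
    neg (rel r v : AFm) ≠ nv j i := by
  cases j with
  | zero =>
    rw [RepA_nv_zero]
    intro h
    exact Fm.noConfusion rfl HEq.rfl (heq_of_eq (Fm.imp.inj h).1)
  | succ j =>
    rw [RepA_nv_succ]
    intro h
    exact Fm.noConfusion rfl HEq.rfl (heq_of_eq (Fm.imp.inj h).1)

theorem RepC_rep_neg {j : ℕ} {φ : AFm} (h : ∀ i, neg φ ≠ nv j i) :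
    rep j (neg φ) = neg (rep j φ) := by
  show rep j (imp φ bot) = imp (rep j φ) bot
  rw [rep_imp h]
  rfl

theorem RepC_rep_exand {j : ℕ} {a b : AFm} (h : ∀ i, ex (Fm.and a b) ≠ nv j i)
    (hb : ∀ i, neg b ≠ nv j i) :
    rep j (ex (Fm.and a b)) = ex (Fm.and (rep j a) (rep j b)) := by
  show rep j (neg (all (neg (neg (imp a (neg b)))))) =
    neg (all (neg (neg (imp (rep j a) (neg (rep j b))))))
  rw [RepC_rep_neg (φ := all (neg (neg (imp a (neg b))))) h,
    rep_all (fun i => RepA_all_ne _ j i),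
    RepC_rep_neg (φ := neg (imp a (neg b))) (RepC_neg_ne j),
    RepC_rep_neg (φ := imp a (neg b)) (RepC_neg_ne j), rep_imp (RepC_imp_neg_ne j),
    RepC_rep_neg hb]

theorem RepC_rep_num (j d : ℕ) : rep j (nv (j + d) 0) = zf d := by
  induction d with
  | zero => rw [Nat.add_zero, rep_nv]; rfl
  | succ d ih =>
    have h0 : nv (j + (d + 1)) 0 = ex (Fm.and (nv (j + d) 0) (addA 0 0 1)) := by
      rw [← Nat.add_assoc, RepA_nv_succ]
    have h1 : ∀ i, ex (Fm.and (nv (j + d) 0) (addA 0 0 1)) ≠ nv j i := by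
      intro i hi
      rw [← h0] at hi
      have := (nv_inj hi).1
      omega
    have h2 : ∀ i, neg (addA 0 0 1) ≠ nv j i := RepC_neg_rel_ne j
    rw [h0, RepC_rep_exand h1 h2, ih]
    rfl

theorem RepC_ne_of_ex {a b : AFm} (j i : ℕ) : ex (Fm.and a (ex b)) ≠ nv j i := by
  cases j with
  | zero =>
    rw [RepA_nv_zero]
    intro h
    exact RepA_ex_ne_and (RepA_ex_inj h).symm
  | succ j =>
    rw [RepA_nv_succ]
    intro h
    have h1 := (RepA_and_inj (RepA_ex_inj h)).2
    exact Fm.noConfusion rfl HEq.rfl (heq_of_eq h1)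

theorem RepC_neg_ex_ne {b : AFm} (j i : ℕ) : neg (ex b) ≠ nv j i := by
  cases j with
  | zero =>
    rw [RepA_nv_zero]
    intro h
    exact Fm.noConfusion rfl HEq.rfl (heq_of_eq (Fm.imp.inj h).1)
  | succ j =>
    rw [RepA_nv_succ]
    intro h
    exact Fm.noConfusion rfl HEq.rfl (heq_of_eq (Fm.imp.inj h).1)

theorem rep_Con : ∃ C, ∀ (T : List AFm) (m j : ℕ), C * ((encodeL T).length + 1) ≤ m →
    m ≤ 2 * j → j < m → rep j (Con T (2 ^ m)) = Con0 T (m - j) := by
  refine ⟨2 * (441 + len (ex (Fm.and (num (codeS (encode bot))) (neg (ap provF [1, 2, 0]))))),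
    fun T m j hC hm hj => ?_⟩
  set X := ex (Fm.and (num (codeS (encode bot))) (neg (ap provF [1, 2, 0]))) with hX
  set L := (encodeL T).length with hL
  have h1 : len (ex (Fm.and (num (codeS (encodeL T))) X)) < 51 * j := by
    have e1 := len_num (codeS (encodeL T))
    rw [RepC_size_codeS] at e1
    rw [RepA_len_ex, RepA_len_and]
    have e2 : (441 + len X) * (L + 1) ≤ j := by
      have : 2 * (441 + len X) * (L + 1) = 2 * ((441 + len X) * (L + 1)) := by ring
      omega
    have e3 : (441 + len X) * (L + 1) = 441 * L + 441 + len X + len X * L := by ring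
    have e4 : 0 ≤ len X * L := Nat.zero_le _
    omega
  have h2 : Con T (2 ^ m) = ex (Fm.and (nv m 0) (ex (Fm.and (num (codeS (encodeL T))) X))) := by
    rw [← RepC_num_two_pow]
    rfl
  have h3 : m = j + (m - j) := by omega
  rw [h2, RepC_rep_exand (RepC_ne_of_ex j) (RepC_neg_ex_ne j), rep_short h1]
  have h4 : rep j (nv m 0) = zf (m - j) := by
    have := RepC_rep_num j (m - j)
    rwa [← h3] at this
  rw [h4]
  rfl

end Pool.Agent.Myc
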