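import Pool.Agent.Myc.RepDefs
import Pool.Agent.Myc.FamB
import Pool.Agent.Myc.FamC
import Pool.Agent.Myc.IntA
import Pool.Agent.Myc.Prv

set_option autoImplicit false

namespace Pool.Agent.Myc

open Fm

/-! ### Lengths -/

theorem RepD_len_and (φ ψ : AFm) : len (and φ ψ) = len φ + len ψ + 20 := by
  simp only [Fm.and, Fm.neg, len]; omega

theorem RepD_len_ex (φ : AFm) : len (ex φ) = len φ + 20 := by
  simp only [Fm.ex, Fm.neg, len]

theorem RepD_len_addA : len (addA 0 0 1) = 11 := by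
  simp only [addA, len]
  rfl

theorem RepD_len_zf (k : ℕ) : len (zf k) = 6 + 51 * k := by
  induction k with
  | zero => simp only [zf, zeroA, len]; rfl
  | succ k ih =>
    simp only [zf]
    rw [RepD_len_ex, RepD_len_and, RepD_len_addA, ih]
    omega

theorem RepD_fv_zf (k : ℕ) : FVs (fun i => i < 1) (zf k) := by
  induction k with
  | zero =>
    simp only [zf, zeroA, FVs]
    intro i
    fin_cases i
    exact Nat.zero_lt_one
  | succ k ih =>
    simp only [zf]
    rw [FVs_ex, FVs_and]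
    refine ⟨ih.mono (by intro i hi; left; omega), ?_⟩
    simp only [addA, FVs]
    intro i
    fin_cases i
    · exact Or.inl rfl
    · exact Or.inl rfl
    · exact Or.inr ⟨0, rfl, Nat.zero_lt_one⟩

theorem RepD_size_codeS (w : List Bool) : Nat.size (codeS w) ≤ w.length + 1 := by
  rw [Nat.size_le]
  induction w using List.reverseRecOn with
  | nil => simp [codeS]
  | append_singleton w b ih =>
    have : codeS (w ++ [b]) = 2 * codeS w + b.toNat := by simp [codeS]
    rw [this, List.length_append, List.length_singleton, pow_succ]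
    have hb : b.toNat ≤ 1 := Bool.toNat_le b
    omega

/-! ### Substitution -/

theorem RepD_ren1 {φ : AFm} (h : FVs (fun i => i < 1) φ) : rename (ext (n := 1) ![0]) φ = φ := by
  conv_rhs => rw [← rename_id φ]
  refine rename_congr h (fun i hi => ?_)
  obtain rfl : i = 0 := by omega
  simp [ext]

theorem RepD_substG (sC : ℕ) {V G H K : AFm} (h : FVs (fun i => i < 1) G) :
    subst (xi sC V G H K) (GX 0) = G := RepD_ren1 h

theorem RepD_substH (sC : ℕ) {V G H K : AFm} (h : FVs (fun i => i < 1) H) :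
    subst (xi sC V G H K) (HX 0) = H := RepD_ren1 h

theorem RepD_subst_imp (τ : (r : RX) → AFm) (φ ψ : XFm) :
    subst τ (imp φ ψ) = imp (subst τ φ) (subst τ ψ) := rfl

theorem RepD_subst_all (τ : (r : RX) → AFm) (φ : XFm) :
    subst τ (all φ) = all (subst τ φ) := rfl

/-! ### The formulas -/

/-- Zero is `2 ^ (k + 1)` times zero if it is `2 ^ k` times zero. -/
def RepD_phiA : XFm :=
  imp (all (imp (emb (zeroA 0)) (GX 0)))
    (all (imp (emb (zeroA 0)) (ex (and (GX 0) (emb (addA 0 0 1))))))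

def RepD_phiB0 : XFm :=
  imp (ex (GX 0)) (ex (ex (and (GX 0) (emb (addA 0 0 1)))))

def RepD_phiB1 : XFm :=
  imp (ex (GX 0)) (ex (ex (ex (and (GX 0) (and (emb (addA 0 0 1)) (emb (succA 1 2)))))))

def RepD_phiC : XFm :=
  imp (all (imp (emb (zeroA 0)) (GX 0))) (imp (ex (HX 0))
    (ex (and (GX 0) (ex (and (HX 0) (ex (and (emb (num (codeS (encode bot))))
      (emb (neg (ap provF [1, 2, 0]))))))))))

section
variable {M : Type} (S : XStr M)

theorem RepD_sat_zero (e : ℕ → M) : Sat S (emb (zeroA 0)) e ↔ zeroR S (e 0) :=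
  iff_of_eq (congrArg (S.rel .zero) (funext fun k => by fin_cases k; rfl))

theorem RepD_sat_add (e : ℕ → M) : Sat S (emb (addA 0 0 1)) e ↔ addR S (e 0) (e 0) (e 1) :=
  iff_of_eq (congrArg (S.rel .add) (funext fun k => by fin_cases k <;> rfl))

theorem RepD_sat_succ (e : ℕ → M) : Sat S (emb (succA 1 2)) e ↔ succR S (e 1) (e 2) :=
  iff_of_eq (congrArg (S.rel .succ) (funext fun k => by fin_cases k <;> rfl))

theorem RepD_sat_zero1 (e : ℕ → M) : Sat S (emb (zeroA 1)) e ↔ zeroR S (e 1) :=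
  iff_of_eq (congrArg (S.rel .zero) (funext fun k => by fin_cases k; rfl))

theorem RepD_sat_G (e : ℕ → M) : Sat S (GX 0) e ↔ GR S (e 0) :=
  iff_of_eq (congrArg (S.rel .G) (funext fun k => by fin_cases k; rfl))

theorem RepD_sat_H (e : ℕ → M) : Sat S (HX 0) e ↔ HR S (e 0) :=
  iff_of_eq (congrArg (S.rel .H) (funext fun k => by fin_cases k; rfl))

theorem RepD_emb_neg (φ : AFm) : emb (neg φ) = neg (emb φ) := rfl
theorem RepD_emb_imp (φ ψ : AFm) : emb (imp φ ψ) = imp (emb φ) (emb ψ) := rfl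
theorem RepD_emb_all (φ : AFm) : emb (all φ) = all (emb φ) := rfl

theorem RepD_scons0 (a : M) (e : ℕ → M) : scons a e 0 = a := rfl
theorem RepD_sconsS (a : M) (e : ℕ → M) (k : ℕ) : scons a e (k + 1) = e k := rfl

theorem RepD_embT_good : Good arA (embT : (r : AR) → XFm) := by
  intro r
  cases r
  · exact (by decide : ∀ i : Fin 1, (![0] : Fin 1 → ℕ) i < 1)
  · exact (by decide : ∀ i : Fin 2, (![0, 1] : Fin 2 → ℕ) i < 2)
  · exact (by decide : ∀ i : Fin 3, (![0, 1, 2] : Fin 3 → ℕ) i < 3)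
  · exact (by decide : ∀ i : Fin 3, (![0, 1, 2] : Fin 3 → ℕ) i < 3)

end

/-! ### Their truth -/

theorem RepD_QM {M : Type} [Nonempty M] {S : XStr M}
    (h : ∀ ψ ∈ A0, ∀ e, Sat S (emb ψ) e) : QM S :=
  qm (fun φ hφ e => h φ (by simp [A0, hφ]) e)

theorem RepD_trueA {M : Type} [Nonempty M] {S : XStr M}
    (h : ∀ ψ ∈ A0, ∀ e, Sat S (emb ψ) e) (e : ℕ → M) : Sat S RepD_phiA e := by
  have hq := RepD_QM h
  rw [RepD_phiA, sat_imp]
  intro h1 x hx
  rw [sat_ex]
  refine ⟨x, ?_⟩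
  have hx' : zeroR S x := (RepD_sat_zero S _).1 hx
  rw [sat_and, RepD_sat_G, RepD_sat_add]
  refine ⟨?_, hq.add_zero x x hx'⟩
  exact (RepD_sat_G S (scons x e)).1 (h1 x ((RepD_sat_zero S _).2 hx'))

theorem RepD_trueB0 {M : Type} [Nonempty M] {S : XStr M}
    (h : ∀ ψ ∈ A0, ∀ e, Sat S (emb ψ) e) (e : ℕ → M) : Sat S RepD_phiB0 e := by
  have hq := RepD_QM h
  rw [RepD_phiB0, sat_imp, sat_ex, sat_ex]
  rintro ⟨x, hx⟩
  rw [RepD_sat_G] at hx
  obtain ⟨y, hy⟩ := hq.add_tot x x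
  refine ⟨y, ?_⟩
  rw [sat_ex]
  refine ⟨x, ?_⟩
  rw [sat_and, RepD_sat_G, RepD_sat_add]
  exact ⟨hx, hy⟩

theorem RepD_trueB1 {M : Type} [Nonempty M] {S : XStr M}
    (h : ∀ ψ ∈ A0, ∀ e, Sat S (emb ψ) e) (e : ℕ → M) : Sat S RepD_phiB1 e := by
  have hq := RepD_QM h
  rw [RepD_phiB1, sat_imp, sat_ex, sat_ex]
  rintro ⟨x, hx⟩
  rw [RepD_sat_G] at hx
  obtain ⟨y, hy⟩ := hq.add_tot x x
  obtain ⟨z, hz⟩ := hq.succ_tot y
  refine ⟨z, ?_⟩
  rw [sat_ex]
  refine ⟨y, ?_⟩
  rw [sat_ex]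
  refine ⟨x, ?_⟩
  rw [sat_and, RepD_sat_G, sat_and, RepD_sat_add, RepD_sat_succ]
  exact ⟨hx, hy, hz⟩

theorem RepD_trueC {M : Type} [Nonempty M] {S : XStr M}
    (h : ∀ ψ ∈ A0, ∀ e, Sat S (emb ψ) e) (e : ℕ → M) : Sat S RepD_phiC e := by
  have hq := RepD_QM h
  rw [RepD_phiC, sat_imp, sat_imp, sat_ex, sat_ex]
  rintro h1 ⟨a, ha⟩
  obtain ⟨x, hx⟩ := hq.zero_ex
  refine ⟨x, ?_⟩
  rw [sat_and]
  refine ⟨h1 x ((RepD_sat_zero S _).2 hx), ?_⟩
  rw [sat_ex]
  refine ⟨a, ?_⟩
  rw [sat_and]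
  refine ⟨(RepD_sat_H S _).2 ((RepD_sat_H S (scons a e)).1 ha), ?_⟩
  rw [sat_ex]
  obtain ⟨y, hy⟩ := isN_ex hq (codeS (encode bot))
  refine ⟨y, ?_⟩
  rw [sat_and]
  refine ⟨(sat_congr S (FVs_subst RepD_embT_good (FVs_num _)) (fun i hi => ?_)).1 hy, ?_⟩
  · obtain rfl : i = 0 := by omega
    rfl
  · have h2 := h zProv (by simp [A0])
    rw [show emb zProv = alls 3 (imp (emb (zeroA 1)) (emb (neg provF))) from rfl,
      sat_alls] at h2
    have h3 := h2 (scons a (scons x (scons y e)))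
    rw [sat_imp, RepD_sat_zero1] at h3
    have h4 := h3 hx
    rw [RepD_emb_neg, sat_neg] at h4 ⊢
    rw [emb, subst_ap RepD_embT_good, sat_ap]
    refine fun h5 => h4 ?_
    refine (sat_congr S (FVs_subst RepD_embT_good provF_fv) (fun i hi => ?_)).1 h5
    interval_cases i <;> rfl


/-! ### Chains -/

theorem RepD_fv_bot : FVs (fun i => i < 3) (bot : AFm) := trivial
theorem RepD_fv_bot1 : FVs (fun i => i < 1) (bot : AFm) := trivial

theorem RepD_chainA : ∃ C, ∀ (k : ℕ) (A : Set AFm), (∀ φ ∈ A0, φ ∈ A) →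
    Pv A (C * (k + 1) ^ 2) (all (imp (zeroA 0) (zf k))) := by
  obtain ⟨C, hC⟩ := fam0 A0 A0_closed (φ := RepD_phiA) (fun M _ S h e => RepD_trueA h e) 0
  obtain ⟨C0, hC0⟩ := fam0 A0 A0_closed (φ := emb (all (imp (zeroA 0) (zeroA 0))))
    (fun M _ S h e => fun x hx => hx) 0
  refine ⟨20 * C0 + 100 * C + 1000, fun k A hA => ?_⟩
  induction k with
  | zero =>
    have h := hC0 bot bot bot bot A RepD_fv_bot RepD_fv_bot1 RepD_fv_bot1 RepD_fv_bot1 hA
    rw [subst_xi_emb] at h
    refine h.mono ?_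
    simp only [len]
    ring_nf
    omega
  | succ k ih =>
    have h := hC bot (zf k) bot bot A RepD_fv_bot (RepD_fv_zf k) RepD_fv_bot1 RepD_fv_bot1 hA
    rw [RepD_phiA, RepD_subst_imp, RepD_subst_all, RepD_subst_all, RepD_subst_imp,
      RepD_subst_imp, subst_ex, subst_and, subst_xi_emb, subst_xi_emb,
      RepD_substG _ (RepD_fv_zf k)] at h
    refine (h.mp ih).mono ?_
    have e1 : len (all (imp (zeroA 0) (ex (and (zf k) (addA 0 0 1))))) = 51 * k + 71 := by
      rw [show len (all (imp (zeroA 0) (ex (and (zf k) (addA 0 0 1))))) =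
        6 + len (ex (and (zf k) (addA 0 0 1))) + 4 + 4 from rfl, RepD_len_ex, RepD_len_and,
        RepD_len_zf, RepD_len_addA]
      omega
    rw [e1, RepD_len_zf]
    simp only [len]
    nlinarith [Nat.zero_le (C * k), Nat.zero_le (C0 * k), Nat.zero_le C, Nat.zero_le C0]

theorem RepD_len_codeS (w : List Bool) : len (num (codeS w)) ≤ 200 * w.length + 400 := by
  have h := len_num (codeS w)
  have h2 := RepD_size_codeS w
  omega

theorem RepD_chainB : ∃ C, ∀ (w : List Bool) (A : Set AFm), (∀ φ ∈ A0, φ ∈ A) →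
    Pv A (C * (w.length + 1) ^ 2) (ex (num (codeS w))) := by
  obtain ⟨C, hC⟩ := fam0 A0 A0_closed (φ := RepD_phiB0) (fun M _ S h e => RepD_trueB0 h e) 0
  obtain ⟨C', hC'⟩ := fam0 A0 A0_closed (φ := RepD_phiB1) (fun M _ S h e => RepD_trueB1 h e) 0
  obtain ⟨C0, hC0⟩ := fam0 A0 A0_closed (φ := emb (ex (num (codeS []))))
    (fun M _ S h e => by
      rw [show emb (ex (num (codeS []))) = ex (emb (num (codeS []))) from rfl, sat_ex]
      obtain ⟨y, hy⟩ := isN_ex (RepD_QM h) (codeS [])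
      refine ⟨y, (sat_congr S (FVs_subst RepD_embT_good (FVs_num _)) (fun i hi => ?_)).1 hy⟩
      obtain rfl : i = 0 := by omega
      rfl) 0
  refine ⟨20 * C0 + 500 * C + 500 * C' + 1000, fun w A hA => ?_⟩
  induction w using List.reverseRecOn with
  | nil =>
    have h := hC0 bot bot bot bot A RepD_fv_bot RepD_fv_bot1 RepD_fv_bot1 RepD_fv_bot1 hA
    rw [subst_xi_emb] at h
    refine h.mono ?_
    simp only [len, List.length_nil]
    ring_nf
    omega
  | append_singleton w b ih =>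
    have hf : FVs (fun i => i < 1) (num (codeS w)) := FVs_num _
    have hl := RepD_len_codeS w
    have hl' := RepD_len_codeS (w ++ [b])
    rw [List.length_append, List.length_singleton] at hl' ⊢
    have key : Pv A ((C + C') * (13 + len (num (codeS w))))
        (imp (ex (num (codeS w))) (ex (num (codeS (w ++ [b]))))) := by
      rw [num_codeS_append]
      cases b with
      | false =>
        have h := hC bot (num (codeS w)) bot bot A RepD_fv_bot hf RepD_fv_bot1 RepD_fv_bot1 hA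
        rw [RepD_phiB0, RepD_subst_imp, subst_ex, subst_ex, subst_ex, subst_and, subst_xi_emb,
          RepD_substG _ hf] at h
        refine h.mono ?_
        simp only [len]
        nlinarith [Nat.zero_le (C' * (13 + len (num (codeS w))))]
      | true =>
        have h := hC' bot (num (codeS w)) bot bot A RepD_fv_bot hf RepD_fv_bot1 RepD_fv_bot1 hA
        rw [RepD_phiB1, RepD_subst_imp, subst_ex, subst_ex, subst_ex, subst_ex, subst_and,
          subst_and, subst_xi_emb, subst_xi_emb, RepD_substG _ hf] at h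
        refine h.mono ?_
        simp only [len]
        nlinarith [Nat.zero_le (C * (13 + len (num (codeS w))))]
    refine (key.mp ih).mono ?_
    rw [RepD_len_ex]
    generalize len (num (codeS w)) = a at *
    generalize len (num (codeS (w ++ [b]))) = a' at *
    generalize w.length = n at *
    have h1 : (C + C') * (13 + a) ≤ (C + C') * (200 * n + 413) :=
      Nat.mul_le_mul_left _ (by omega)
    nlinarith [Nat.zero_le (C * n), Nat.zero_le (C' * n), Nat.zero_le (C0 * n),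
      Nat.zero_le C, Nat.zero_le C', Nat.zero_le C0]

theorem Con0_short : ∃ C, ∀ (T : List AFm) (k : ℕ) (A : Set AFm), (∀ φ ∈ A0, φ ∈ A) →
    Pv A (C * ((encodeL T).length + k + 1) ^ 2) (Con0 T k) := by
  obtain ⟨C1, h1⟩ := RepD_chainA
  obtain ⟨C2, h2⟩ := RepD_chainB
  obtain ⟨C, hC⟩ := fam0 A0 A0_closed (φ := RepD_phiC) (fun M _ S h e => RepD_trueC h e) 0
  obtain ⟨D, hD⟩ : ∃ D, D = len (ex (and (num (codeS (encode bot)))
    (neg (ap provF [1, 2, 0])))) := ⟨_, rfl⟩
  refine ⟨C1 + C2 + 1000 * C + 2 * D + 2000, fun T k A hA => ?_⟩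
  have hf : FVs (fun i => i < 1) (num (codeS (encodeL T))) := FVs_num _
  have hl := RepD_len_codeS (encodeL T)
  have h := hC bot (zf k) (num (codeS (encodeL T))) bot A RepD_fv_bot (RepD_fv_zf k) hf
    RepD_fv_bot1 hA
  rw [RepD_phiC, RepD_subst_imp, RepD_subst_imp, RepD_subst_all, RepD_subst_imp, subst_ex,
    subst_ex, subst_and, subst_ex, subst_and, subst_ex, subst_and, subst_xi_emb, subst_xi_emb,
    subst_xi_emb, RepD_substG _ (RepD_fv_zf k), RepD_substH _ hf] at h
  refine ((h.mp (h1 k A hA)).mp (h2 (encodeL T) A hA)).mono ?_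
  have e2 : len (Con0 T k) = len (zf k) + len (num (codeS (encodeL T))) + D + 80 := by
    rw [Con0, RepD_len_ex, RepD_len_and, RepD_len_ex, RepD_len_and, ← hD]
    omega
  have e1 : len (imp (ex (num (codeS (encodeL T)))) (Con0 T k)) =
      len (num (codeS (encodeL T))) + 24 + len (Con0 T k) := by
    rw [show len (imp (ex (num (codeS (encodeL T)))) (Con0 T k)) =
      len (ex (num (codeS (encodeL T)))) + len (Con0 T k) + 4 from rfl, RepD_len_ex]
    omega
  rw [show (ex (and (zf k) (ex (and (num (codeS (encodeL T))) (ex (and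
    (num (codeS (encode bot))) (neg (ap provF [1, 2, 0])))))))) = Con0 T k from rfl, e1, e2,
    RepD_len_zf]
  simp only [len]
  generalize len (num (codeS (encodeL T))) = a at *
  generalize (encodeL T).length = n at *
  have g1 : C * (1 + 4 + (6 + 51 * k) + a + 4) ≤ C * (200 * n + 51 * k + 415) :=
    Nat.mul_le_mul_left _ (by omega)
  have g2 : C1 * (k + 1) ^ 2 ≤ C1 * (n + k + 1) ^ 2 :=
    Nat.mul_le_mul_left _ (Nat.pow_le_pow_left (by omega) 2)
  have g3 : C2 * (n + 1) ^ 2 ≤ C2 * (n + k + 1) ^ 2 :=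
    Nat.mul_le_mul_left _ (Nat.pow_le_pow_left (by omega) 2)
  have g4 : n + k + 1 ≤ (n + k + 1) ^ 2 := Nat.le_self_pow (by norm_num) _
  have g5 : C * (200 * n + 51 * k + 415) ≤ 1000 * C * (n + k + 1) ^ 2 := by
    calc C * (200 * n + 51 * k + 415) ≤ C * (1000 * (n + k + 1) ^ 2) :=
          Nat.mul_le_mul_left _ (by omega)
      _ = _ := by ring
  have g6 : 2 * D ≤ 2 * D * (n + k + 1) ^ 2 := Nat.le_mul_of_pos_right _ (by positivity)
  have g7 : (C1 + C2 + 1000 * C + 2 * D + 2000) * (n + k + 1) ^ 2 = C1 * (n + k + 1) ^ 2 +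
    C2 * (n + k + 1) ^ 2 + 1000 * C * (n + k + 1) ^ 2 + 2 * D * (n + k + 1) ^ 2 +
    2000 * (n + k + 1) ^ 2 := by ring
  omega

end Pool.Agent.Myc
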