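import Pool.Agent.Myc.RepB
import Pool.Agent.Myc.RepC
import Pool.Agent.Myc.RepD
import Pool.Agent.Myc.Prv

set_option autoImplicit false

namespace Pool.Agent.Myc

open Fm

theorem RepE_plen_append {R : Type} {ar : R → ℕ} (l l' : List (Fm R ar)) :
    plen (l ++ l') = plen l + plen l' := by
  simp [plen]

theorem RepE_plen_rep (j : ℕ) (l : List AFm) : plen (l.map (rep j)) ≤ plen l := by
  induction l with
  | nil => simp [plen]
  | cons φ l ih =>
    have h := len_rep j φ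
    simp only [plen, List.map_cons, List.sum_cons] at ih ⊢
    omega

theorem RepE_len_le {T : List AFm} {φ : AFm} (h : φ ∈ T) : len φ ≤ (encodeL T).length := by
  rw [length_encodeL]
  exact List.le_sum_of_mem (List.mem_map_of_mem h)

/-- The main combinatorial lemma. -/
theorem rep_lemma : ∃ cE sC, ∀ (m : ℕ) (T : List AFm) (x : ℕ),
    sC * ((encodeL T).length + 1) ≤ m → x ≤ m ^ 2 →
    Proves {ψ | ψ ∈ Con T (2 ^ m) :: T} x bot → Proves {ψ | ψ ∈ A0 ++ T} (m ^ cE) bot := by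
  obtain ⟨C1, h1⟩ := rep_Con
  obtain ⟨C2, h2⟩ := Con0_short
  refine ⟨4, C1 + C2 + 100, fun m T x hm hx hp => ?_⟩
  rw [proves_iff] at hp ⊢
  obtain ⟨l, hl, hlen⟩ := hp
  set L := (encodeL T).length with hL
  have e1 : (C1 + C2 + 100) * (L + 1) = C1 * (L + 1) + C2 * (L + 1) + 100 * (L + 1) := by ring
  have m1 : C1 * (L + 1) ≤ m := by rw [e1] at hm; omega
  have m2 : C2 * (L + 1) ≤ m := by rw [e1] at hm; omega
  have m3 : 100 * (L + 1) ≤ m := by rw [e1] at hm; omega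
  have m4 : C2 ≤ m := le_trans (Nat.le_mul_of_pos_right _ (by omega)) m2
  have m5 : 100 ≤ m := by omega
  obtain ⟨j, hj1, hj2, hn⟩ := exists_level m5 (bot :: l) (hlen.trans hx)
  have hr := h1 T m j m1 hj1 hj2
  have hP : IsProof {ψ | ψ ∈ Con0 T (m - j) :: (A0 ++ T)} ((bot :: l).map (rep j)) := by
    refine rep_proof hl hn (fun φ hφ _ => ?_)
    simp only [Set.mem_ofPred_eq, List.mem_cons] at hφ ⊢
    rcases hφ with rfl | hφ
    · exact Or.inl hr
    · right
      have hlφ := RepE_len_le hφ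
      rw [rep_short (by omega)]
      simp [hφ]
  obtain ⟨l0, hl0, hlen0⟩ := h2 T (m - j) {ψ | ψ ∈ A0 ++ T} (fun φ hφ => by simp [hφ])
  obtain ⟨l2, hl2, hlen2, hmem⟩ := hP.absorb hl0 (fun ψ hψ _ => by
    simp only [Set.mem_ofPred_eq, List.mem_cons] at hψ
    rcases hψ with rfl | hψ
    · exact Or.inr (by simp)
    · exact Or.inl hψ)
  have hb : (bot : AFm) ∈ l2 ++ (Con0 T (m - j) :: l0) :=
    hmem bot (by simp [rep])
  obtain ⟨l3, hl3, hlen3⟩ := hl2.of_mem hb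
  refine ⟨l3, hl3, hlen3.trans ?_⟩
  rw [RepE_plen_append]
  have b1 : plen l2 ≤ m ^ 2 :=
    hlen2.trans ((RepE_plen_rep j _).trans (hlen.trans hx))
  have b2 : plen (Con0 T (m - j) :: l0) ≤ 4 * m ^ 3 := by
    refine hlen0.trans ?_
    calc C2 * (L + (m - j) + 1) ^ 2 ≤ m * (2 * m) ^ 2 :=
          Nat.mul_le_mul m4 (Nat.pow_le_pow_left (by omega) 2)
      _ = 4 * m ^ 3 := by ring
  have b3 : m ^ 2 ≤ m ^ 3 := Nat.pow_le_pow_right (by omega) (by norm_num)
  have b4 : 5 * m ^ 3 ≤ m ^ 4 := by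
    calc 5 * m ^ 3 ≤ m * m ^ 3 := Nat.mul_le_mul_right _ (by omega)
      _ = m ^ 4 := by ring
  omega

end Pool.Agent.Myc
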