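import Pool.Agent.Myc.FinA
import Pool.Agent.Myc.FinB
import Pool.Agent.Myc.RepE

set_option autoImplicit false

namespace Pool.Agent.Myc

open Fm

theorem FinC_bound (K C c n : ℕ) : K + C * (n + 1) ^ c ≤ (n + 2) ^ (K + C + c + 1) := by
  have h2 : 1 ≤ n + 2 := by omega
  have hK : K ≤ (n + 2) ^ (K + C + c) := by
    calc K ≤ 2 ^ K := Nat.lt_two_pow_self.le
      _ ≤ (n + 2) ^ K := Nat.pow_le_pow_left (by omega) K
      _ ≤ (n + 2) ^ (K + C + c) := Nat.pow_le_pow_right h2 (by omega)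
  have hC : C * (n + 1) ^ c ≤ (n + 2) ^ (K + C + c) := by
    calc C * (n + 1) ^ c ≤ (n + 2) ^ C * (n + 2) ^ c := by
          refine Nat.mul_le_mul ?_ (Nat.pow_le_pow_left (by omega) c)
          exact le_trans Nat.lt_two_pow_self.le (Nat.pow_le_pow_left (by omega) C)
      _ = (n + 2) ^ (C + c) := (pow_add _ _ _).symm
      _ ≤ (n + 2) ^ (K + C + c) := Nat.pow_le_pow_right h2 (by omega)
  calc K + C * (n + 1) ^ c ≤ (n + 2) ^ (K + C + c) + (n + 2) ^ (K + C + c) := Nat.add_le_add hK hC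
    _ = (n + 2) ^ (K + C + c) * 2 := by ring
    _ ≤ (n + 2) ^ (K + C + c) * (n + 2) := Nat.mul_le_mul_left _ (by omega)
    _ = (n + 2) ^ (K + C + c + 1) := (pow_succ _ _).symm

/-- The theorem for all finite theories which contain the base theory. -/
theorem FinC_ext (cE sC : ℕ) (T : List AFm) (hT : ∀ φ ∈ BaseA cE sC, φ ∈ T)
    (hc : ∀ φ ∈ T, Closed φ) : ∃ c : ℕ, ∀ n m : ℕ, m ≤ n ^ 2 →
      Proves {φ | φ ∈ T} ((n + 2) ^ c) (Con (Con T (2 ^ n) :: T) m) := by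
  obtain ⟨n0, C, c, hbig⟩ := con_big cE sC T hT hc
  obtain ⟨C1, h1⟩ := con_dyadic cE sC T hT hc
  have hsmall : ∀ n m : ℕ, ∃ k, Pv {ψ | ψ ∈ T} k (Con (Con T (2 ^ n) :: T) m) := by
    intro n m
    obtain ⟨C2, h2⟩ := con_dyadic cE sC (Con T (2 ^ n) :: T)
      (fun φ h => List.mem_cons_of_mem _ (hT φ h)) (by
        intro φ h
        rcases List.mem_cons.1 h with h | h
        · rw [h]; exact Con_closed _ _
        · exact hc φ h)
    apply Pvb_iff.1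
    refine Pvb.cut (T := {ψ | ψ ∈ Con T (2 ^ n) :: T}) ?_ (Pvb_iff.2 ⟨_, h2 m⟩)
    intro ψ hψ
    rcases List.mem_cons.1 hψ with h | h
    · rw [h]; exact Pvb_iff.2 ⟨_, h1 (2 ^ n)⟩
    · exact Pvb.hyp h
  choose f hf using hsmall
  set K : ℕ := ∑ n ∈ Finset.range n0, ∑ m ∈ Finset.range (n ^ 2 + 1), f n m with hK
  refine ⟨K + C + c + 1, fun n m hm => (proves_iff _ _ _).2 ?_⟩
  refine Pv.mono ?_ (FinC_bound K C c n)
  by_cases hn : n0 ≤ n
  · exact (hbig n hn m hm).mono (Nat.le_add_left _ _)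
  · refine (hf n m).mono (le_trans ?_ (Nat.le_add_right _ _))
    calc f n m ≤ ∑ m ∈ Finset.range (n ^ 2 + 1), f n m :=
          Finset.single_le_sum (f := fun m => f n m) (fun _ _ => Nat.zero_le _)
            (Finset.mem_range.2 (by omega))
      _ ≤ K := Finset.single_le_sum (f := fun n => ∑ m ∈ Finset.range (n ^ 2 + 1), f n m)
            (fun _ _ => Nat.zero_le _) (Finset.mem_range.2 (by omega))

/-- The theorem. -/
theorem main : ∃ A : List AFm, (∀ φ ∈ Q, φ ∈ A) ∧ (∀ φ ∈ A, Closed φ) ∧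
    (∀ φ ∈ A, ∀ e, Sat NN φ e) ∧ Consistent {φ | φ ∈ A} ∧
    ∀ T : List AFm, (∀ φ ∈ A, φ ∈ T) → (∀ φ ∈ T, Closed φ) →
      ∃ c : ℕ, ∀ n m : ℕ, m ≤ n ^ 2 →
        Proves {φ | φ ∈ T} ((n + 2) ^ c) (Con (Con T (2 ^ n) :: T) m) := by
  obtain ⟨cE, sC, hrep⟩ := rep_lemma
  have hclosed := BaseA_closed cE sC
  have htrue := BaseA_true sC cE hrep
  refine ⟨BaseA cE sC, ?_, hclosed, htrue, consistent_of_model NN htrue,
    fun T hT hc => FinC_ext cE sC T hT hc⟩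
  intro φ hφ
  simp only [BaseA, A0, List.mem_append]
  exact Or.inl (Or.inl hφ)

end Pool.Agent.Myc
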