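import Pool.Agent.Myc.IntA

set_option autoImplicit false

/-!
# Models of the auxiliary theory: evaluation of formulas, soundness of bounded proofs
-/

namespace Pool.Agent.Myc

open Fm

variable {M : Type} {S : XStr M} {cE a0 sC : ℕ} {Φ : M → M → M → Prop}

/-! ### One level of the evaluation -/

theorem HM_zero (h : SMax S cE a0 sC) (Φ : M → M → M → Prop) {κ : M} (hκ : zeroR S κ) :
    HM S Φ κ := by
  intro o i x s _ _ hd
  exact absurd hd (h.dp_zero κ x hκ)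

private theorem IntC_one_ne (hq : QM S) {i : M} (hi : IsN S 1 i) : ¬ zeroR S i := by
  intro h0
  rw [isN_iff_isU hq] at hi
  obtain ⟨y, _, hy⟩ := hi
  exact hq.succ_ne y i hy h0

private theorem IntC_congr (h : SMax S cE a0 sC) {Φ Φ' : M → M → M → Prop} {κ : M}
    (hΦ : ∀ y t c, dpR S κ y → (zeroR S c ∨ IsN S 1 c) → (Φ y t c ↔ Φ' y t c))
    {x s b : M} (hk : ∀ y z, imR S x y z → dpR S κ y ∧ dpR S κ z)
    (ha : ∀ y, alR S x y → dpR S κ y) :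
    PhiM S Φ x s b → PhiM S Φ' x s b := by
  rintro (h1 | ⟨h1, w, h2, h3⟩)
  · exact Or.inl h1
  · refine Or.inr ⟨h1, w, h2, ?_⟩
    intro y t c hc
    refine (hΦ y t c ?_ ?_).1 (h3 y t c hc)
    · rcases hc with ⟨⟨z, hz⟩, _⟩ | ⟨⟨z, hz⟩, _⟩ | ⟨hy, _⟩
      · exact (hk y z hz).1
      · exact (hk z y hz).2
      · exact ha y hy
    · rcases hc with ⟨_, _, ⟨_, _, h⟩ | ⟨_, h⟩⟩ | ⟨_, _, ⟨_, _, h⟩ | ⟨_, h⟩⟩ |
        ⟨_, ⟨_, h, _⟩ | ⟨_, h, _⟩⟩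
      · exact Or.inl h
      · exact Or.inr h
      · exact Or.inr h
      · exact Or.inl h
      · exact Or.inr h
      · exact Or.inl h

private theorem IntC_at_i (h : SMax S cE a0 sC) (hq : QM S) {x s i : M} (hi : IsN S 1 i)
    (hx : atsR S x) : PhiM S Φ x s i ↔ t0R S x s := by
  constructor
  · rintro (⟨_, ⟨_, h1⟩ | ⟨h1, _⟩⟩ | ⟨h1, _⟩)
    · exact h1
    · exact absurd h1 (IntC_one_ne hq hi)
    · exact absurd hx h1
  · intro h1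
    exact Or.inl ⟨hx, Or.inl ⟨hi, h1⟩⟩

private theorem IntC_at_o (h : SMax S cE a0 sC) (hq : QM S) {x s o : M} (ho : zeroR S o)
    (hx : atsR S x) : PhiM S Φ x s o ↔ ¬ t0R S x s := by
  constructor
  · rintro (⟨_, ⟨h0, h1⟩ | ⟨h0, h1⟩⟩ | ⟨h1, _⟩)
    · exact absurd ho (IntC_one_ne hq h0)
    · exact h1
    · exact absurd hx h1
  · intro h1
    exact Or.inl ⟨hx, Or.inr ⟨ho, h1⟩⟩

private theorem IntC_im_i (h : SMax S cE a0 sC) (hq : QM S) {x y z s o i : M} (ho : zeroR S o)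
    (hi : IsN S 1 i) (hx : imR S x y z) : PhiM S Φ x s i ↔ (Φ y s o ∨ Φ z s i) := by
  have hne : ¬ zeroR S i := IntC_one_ne hq hi
  have hna : ¬ atsR S x := fun hh => h.at_im x y z hh hx
  constructor
  · rintro (⟨h1, _⟩ | ⟨_, w, h2, h3⟩)
    · exact absurd h1 hna
    · rcases h2 with ⟨_, ⟨_, hw | hw⟩ | h0⟩ | ⟨⟨y', h2⟩, _⟩
      · left
        exact h3 y s o (Or.inl ⟨⟨z, hx⟩, rfl, Or.inl ⟨hi, hw, ho⟩⟩)
      · right
        exact h3 z s i (Or.inr (Or.inl ⟨⟨y, hx⟩, rfl, Or.inl ⟨hi, hw, hi⟩⟩))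
      · exact absurd h0 hne
      · exact absurd h2 (h.im_al x y z y' hx)
  · rintro (h1 | h1)
    · refine Or.inr ⟨hna, o, Or.inl ⟨⟨y, z, hx⟩, Or.inl ⟨hi, Or.inl ho⟩⟩, ?_⟩
      rintro y' t c (⟨⟨z', hz⟩, ht, ⟨_, _, hc⟩ | ⟨hc, _⟩⟩ | ⟨⟨z', hz⟩, ht, ⟨_, hw, _⟩ | ⟨hc, _⟩⟩ |
        ⟨hy, _⟩)
      · obtain ⟨rfl, rfl⟩ := h.im_inj x y' z' y z hz hx
        rw [hq.zero_un c o hc ho, ht]
        exact h1
      · exact absurd hc hne
      · exact absurd ho (IntC_one_ne hq hw)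
      · exact absurd hc hne
      · exact absurd hy (h.im_al x y z y' hx)
    · refine Or.inr ⟨hna, i, Or.inl ⟨⟨y, z, hx⟩, Or.inl ⟨hi, Or.inr hi⟩⟩, ?_⟩
      rintro y' t c (⟨⟨z', hz⟩, ht, ⟨_, hw, _⟩ | ⟨hc, _⟩⟩ | ⟨⟨z', hz⟩, ht, ⟨_, _, hc⟩ | ⟨hc, _⟩⟩ |
        ⟨hy, _⟩)
      · exact absurd hw hne
      · exact absurd hc hne
      · obtain ⟨rfl, rfl⟩ := h.im_inj x z' y' y z hz hx
        rw [isN_un hq hc hi, ht]
        exact h1
      · exact absurd hc hne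
      · exact absurd hy (h.im_al x y z y' hx)

private theorem IntC_im_o (h : SMax S cE a0 sC) (hq : QM S) {x y z s o i : M} (ho : zeroR S o)
    (hi : IsN S 1 i) (hx : imR S x y z) : PhiM S Φ x s o ↔ (Φ y s i ∧ Φ z s o) := by
  have hne : ¬ IsN S 1 o := fun hh => IntC_one_ne hq hh ho
  have hna : ¬ atsR S x := fun hh => h.at_im x y z hh hx
  constructor
  · rintro (⟨h1, _⟩ | ⟨_, w, h2, h3⟩)
    · exact absurd h1 hna
    · exact ⟨h3 y s i (Or.inl ⟨⟨z, hx⟩, rfl, Or.inr ⟨ho, hi⟩⟩),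
        h3 z s o (Or.inr (Or.inl ⟨⟨y, hx⟩, rfl, Or.inr ⟨ho, ho⟩⟩))⟩
  · rintro ⟨h1, h2⟩
    refine Or.inr ⟨hna, o, Or.inl ⟨⟨y, z, hx⟩, Or.inr ho⟩, ?_⟩
    rintro y' t c (⟨⟨z', hz⟩, ht, ⟨hc, _⟩ | ⟨_, hc⟩⟩ | ⟨⟨z', hz⟩, ht, ⟨hc, _⟩ | ⟨_, hc⟩⟩ |
        ⟨hy, _⟩)
    · exact absurd hc hne
    · obtain ⟨rfl, rfl⟩ := h.im_inj x y' z' y z hz hx
      rw [isN_un hq hc hi, ht]
      exact h1
    · exact absurd hc hne
    · obtain ⟨rfl, rfl⟩ := h.im_inj x z' y' y z hz hx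
      rw [hq.zero_un c o hc ho, ht]
      exact h2
    · exact absurd hy (h.im_al x y z y' hx)

private theorem IntC_al_i (h : SMax S cE a0 sC) (hq : QM S) {x y s i : M}
    (hi : IsN S 1 i) (hx : alR S x y) : PhiM S Φ x s i ↔ ∀ a t, prR S a s t → Φ y t i := by
  have hne : ¬ zeroR S i := IntC_one_ne hq hi
  have hna : ¬ atsR S x := fun hh => h.at_al x y hh hx
  constructor
  · rintro (⟨h1, _⟩ | ⟨_, w, h2, h3⟩) a t hat
    · exact absurd h1 hna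
    · exact h3 y t i (Or.inr (Or.inr ⟨hx, Or.inl ⟨hi, hi, a, hat⟩⟩))
  · intro h1
    refine Or.inr ⟨hna, s, Or.inr ⟨⟨y, hx⟩, Or.inl hi⟩, ?_⟩
    rintro y' t c (⟨⟨z', hz⟩, _⟩ | ⟨⟨z', hz⟩, _⟩ | ⟨hy, ⟨_, hc, a, ha⟩ | ⟨hc, _⟩⟩)
    · exact absurd hx (h.im_al x y' z' y hz)
    · exact absurd hx (h.im_al x z' y' y hz)
    · obtain rfl := h.al_inj x y' y hy hx
      rw [isN_un hq hc hi]
      exact h1 a t ha
    · exact absurd hc hne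

private theorem IntC_al_o (h : SMax S cE a0 sC) (hq : QM S) {x y s o : M}
    (ho : zeroR S o) (hx : alR S x y) : PhiM S Φ x s o ↔ ∃ a t, prR S a s t ∧ Φ y t o := by
  have hne : ¬ IsN S 1 o := fun hh => IntC_one_ne hq hh ho
  have hna : ¬ atsR S x := fun hh => h.at_al x y hh hx
  constructor
  · rintro (⟨h1, _⟩ | ⟨_, w, h2, h3⟩)
    · exact absurd h1 hna
    · rcases h2 with ⟨⟨y', z', hz⟩, _⟩ | ⟨_, h2 | ⟨_, a, ha⟩⟩
      · exact absurd hx (h.im_al x y' z' y hz)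
      · exact absurd h2 hne
      · exact ⟨a, w, ha, h3 y w o (Or.inr (Or.inr ⟨hx, Or.inr ⟨ho, ho, rfl⟩⟩))⟩
  · rintro ⟨a, t, hat, h1⟩
    refine Or.inr ⟨hna, t, Or.inr ⟨⟨y, hx⟩, Or.inr ⟨ho, a, hat⟩⟩, ?_⟩
    rintro y' t' c (⟨⟨z', hz⟩, _⟩ | ⟨⟨z', hz⟩, _⟩ | ⟨hy, ⟨hc, _⟩ | ⟨_, hc, ht⟩⟩)
    · exact absurd hx (h.im_al x y' z' y hz)
    · exact absurd hx (h.im_al x z' y' y hz)
    · exact absurd hc hne
    · obtain rfl := h.al_inj x y' y hy hx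
      rw [hq.zero_un c o hc ho, ht]
      exact h1

theorem HM_succ (h : SMax S cE a0 sC) (hq : QM S) {κ κ' : M} (hH : HM S Φ κ)
    (hκ : succR S κ κ') : HM S (PhiM S Φ) κ' := by
  intro o i x s ho hi hd
  have hk : ∀ y z, imR S x y z → dpR S κ y ∧ dpR S κ z := fun y z hz =>
    h.dp_im κ κ' x y z hκ hd hz
  have ha : ∀ y, alR S x y → dpR S κ y := fun y hy => h.dp_al κ κ' x y hκ hd hy
  have hc : ∀ y t c, dpR S κ y → (zeroR S c ∨ IsN S 1 c) → (Φ y t c ↔ PhiM S Φ y t c) := by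
    rintro y t c hy (h0 | h1)
    · exact (hH c i y t h0 hi hy).2.2
    · exact (hH o c y t ho h1 hy).2.1
  have hc' : ∀ y t c, dpR S κ y → (zeroR S c ∨ IsN S 1 c) → (PhiM S Φ y t c ↔ Φ y t c) :=
    fun y t c h1 h2 => (hc y t c h1 h2).symm
  refine ⟨?_, ⟨IntC_congr h hc hk ha, IntC_congr h hc' hk ha⟩,
    ⟨IntC_congr h hc hk ha, IntC_congr h hc' hk ha⟩⟩
  rcases h.dp_cases κ' x hd with hx | ⟨y, z, hx⟩ | ⟨y, hx⟩
  · rw [IntC_at_i h hq hi hx, IntC_at_o h hq ho hx]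
  · rw [IntC_im_i h hq ho hi hx, IntC_im_o h hq ho hi hx]
    have h1 := (hH o i y s ho hi (hk y z hx).1).1
    have h2 := (hH o i z s ho hi (hk y z hx).2).1
    tauto
  · rw [IntC_al_i h hq hi hx, IntC_al_o h hq ho hx]
    push Not
    refine exists_congr fun a => exists_congr fun t => ?_
    have h1 := (hH o i y t ho hi (ha y hx)).1
    tauto

/-! ### Tarski's clauses -/

theorem HM_at (h : SMax S cE a0 sC) (hq : QM S) {ν x s i : M} (hH : HM S Φ ν) (hi : IsN S 1 i)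
    (hd : dpR S ν x) (hx : atsR S x) : Φ x s i ↔ t0R S x s := by
  obtain ⟨o, ho⟩ := hq.zero_ex
  rw [(hH o i x s ho hi hd).2.1, IntC_at_i h hq hi hx]

theorem HM_im (h : SMax S cE a0 sC) (hq : QM S) {ν x y z s i : M} (hH : HM S Φ ν)
    (hi : IsN S 1 i) (hd : dpR S ν x) (hx : imR S x y z) :
    Φ x s i ↔ (Φ y s i → Φ z s i) := by
  obtain ⟨o, ho⟩ := hq.zero_ex
  rw [(hH o i x s ho hi hd).2.1, IntC_im_i h hq ho hi hx]
  have h1 := (hH o i y s ho hi (h.dp_im' ν x y z hd hx).1).1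
  tauto

theorem HM_al (h : SMax S cE a0 sC) (hq : QM S) {ν x y s i : M} (hH : HM S Φ ν)
    (hi : IsN S 1 i) (hd : dpR S ν x) (hx : alR S x y) :
    Φ x s i ↔ ∀ a t, prR S a s t → Φ y t i := by
  obtain ⟨o, ho⟩ := hq.zero_ex
  rw [(hH o i x s ho hi hd).2.1, IntC_al_i h hq hi hx]

end Pool.Agent.Myc
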