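import Pool.Agent.Myc.IntC

set_option autoImplicit false

namespace Pool.Agent.Myc

open Fm

variable {M : Type} {S : XStr M} {cE a0 sC : ℕ} {Φ : M → M → M → Prop}

/-! ### Renaming -/

theorem SLM_zero (h : SMax S cE a0 sC) {ν κ : M} (hκ : zeroR S κ) : SLM S Φ ν κ := by
  intro i x _ hd
  exact absurd hd (h.dp_zero κ x hκ)

theorem SLM_succ (h : SMax S cE a0 sC) (hq : QM S) {ν κ κ' : M} (hH : HM S Φ ν)
    (hS : SLM S Φ ν κ) (hκ : succR S κ κ') : SLM S Φ ν κ' := by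
  intro i x hi hd hn r y s t hr hst
  have hny : dpR S ν y := (h.rn_dp r x y ν hr).1 hn
  rcases h.dp_cases κ' x hd with hx | ⟨x1, x2, hx⟩ | ⟨x1, hx⟩
  · obtain ⟨hy, ht⟩ := h.rn_at r x y hx hr
    rw [HM_at h hq hH hi hny hy, HM_at h hq hH hi hn hx]
    exact ht s t hst
  · obtain ⟨y1, y2, hy, hr1, hr2⟩ := h.rn_im r x y x1 x2 hr hx
    obtain ⟨k1, k2⟩ := h.dp_im κ κ' x x1 x2 hκ hd hx
    obtain ⟨n1, n2⟩ := h.dp_im' ν x x1 x2 hn hx
    rw [HM_im h hq hH hi hny hy, HM_im h hq hH hi hn hx,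
      hS i x1 hi k1 n1 r y1 s t hr1 hst, hS i x2 hi k2 n2 r y2 s t hr2 hst]
  · obtain ⟨r', y1, hy, hu, hr1⟩ := h.rn_al r x y x1 hr hx
    have k1 := h.dp_al κ κ' x x1 hκ hd hx
    have n1 := h.dp_al' ν x x1 hn hx
    rw [HM_al h hq hH hi hny hy, HM_al h hq hH hi hn hx]
    constructor
    · intro hh a t' ht'
      obtain ⟨s', hs'⟩ := h.pr_tot a s
      exact (hS i x1 hi k1 n1 r' y1 s' t' hr1 (h.up_rl r r' s t a s' t' hu hst hs' ht')).1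
        (hh a s' hs')
    · intro hh a s' hs'
      obtain ⟨t', ht'⟩ := h.pr_tot a t
      exact (hS i x1 hi k1 n1 r' y1 s' t' hr1 (h.up_rl r r' s t a s' t' hu hst hs' ht')).2
        (hh a t' ht')

/-! ### Soundness -/

theorem LX_sound (h : SMax S cE a0 sC) (hq : QM S) {ν y i s : M} (hH : HM S Φ ν)
    (hS : SLM S Φ ν ν) (hi : IsN S 1 i) (hy : LXM S y) (hd : dpR S ν y) : Φ y s i := by
  rcases hy with ⟨p, q, u, h1, h2⟩ | ⟨p, q, r, u1, u2, u3, u4, u5, h1, h2, h3, h4, h5, h6⟩ |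
    ⟨p, o, u1, u2, ho, ho', h1, h2, h3⟩ | ⟨p, q, r, u, hr, hrl, h1, h2⟩ |
    ⟨p, q, u1, u2, u3, u4, u5, h1, h2, h3, h4, h5, h6⟩ | ⟨p, q, r, u, hr, hrl, h1, h2⟩ |
    ⟨ha, ht⟩ | ⟨p, q1, q2, r1, r2, e, u, hr1, hr2, he, hrl, h1, h2⟩
  · -- `k`
    obtain ⟨dp, du⟩ := h.dp_im' ν y p u hd h1
    rw [HM_im h hq hH hi hd h1, HM_im h hq hH hi du h2]
    exact fun a _ => a
  · -- `s`
    obtain ⟨d2, d5⟩ := h.dp_im' ν y u2 u5 hd h6
    obtain ⟨d3, d4⟩ := h.dp_im' ν u5 u3 u4 d5 h5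
    obtain ⟨dp, d1⟩ := h.dp_im' ν u2 p u1 d2 h2
    rw [HM_im h hq hH hi hd h6, HM_im h hq hH hi d5 h5, HM_im h hq hH hi d2 h2,
      HM_im h hq hH hi d1 h1, HM_im h hq hH hi d3 h3, HM_im h hq hH hi d4 h4]
    exact fun a b c => a c (b c)
  · -- `dn`
    obtain ⟨d2, dp⟩ := h.dp_im' ν y u2 p hd h3
    obtain ⟨d1, d0⟩ := h.dp_im' ν u2 u1 o d2 h2
    rw [HM_im h hq hH hi hd h3, HM_im h hq hH hi d2 h2, HM_im h hq hH hi d1 h1,
      HM_at h hq hH hi d0 ho]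
    have := ho' s
    tauto
  · -- `inst`
    obtain ⟨du, dq⟩ := h.dp_im' ν y u q hd h2
    have dp := h.dp_al' ν u p du h1
    rw [HM_im h hq hH hi hd h2, HM_al h hq hH hi du h1]
    intro hh
    obtain ⟨a, t, hp, hst⟩ := hrl s
    exact (hS i p hi dp dp r q s t hr hst).2 (hh a t hp)
  · -- `dist`
    obtain ⟨d2, d5⟩ := h.dp_im' ν y u2 u5 hd h6
    obtain ⟨d3, d4⟩ := h.dp_im' ν u5 u3 u4 d5 h5
    have d1 := h.dp_al' ν u2 u1 d2 h2
    rw [HM_im h hq hH hi hd h6, HM_im h hq hH hi d5 h5, HM_al h hq hH hi d2 h2,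
      HM_al h hq hH hi d3 h3, HM_al h hq hH hi d4 h4]
    intro hh1 hh2 a t hp
    exact (HM_im h hq hH hi d1 h1).1 (hh1 a t hp) (hh2 a t hp)
  · -- `vac`
    obtain ⟨dp, du⟩ := h.dp_im' ν y p u hd h2
    rw [HM_im h hq hH hi hd h2, HM_al h hq hH hi du h1]
    intro hh a t hp
    exact (hS i p hi dp dp r q t s hr (hrl s a t hp)).2 hh
  · -- `refl`
    rw [HM_at h hq hH hi hd ha]
    exact ht s
  · -- `leib`
    obtain ⟨de, du⟩ := h.dp_im' ν y e u hd h2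
    obtain ⟨dq1, dq2⟩ := h.dp_im' ν u q1 q2 du h1
    have dp : dpR S ν p := (h.rn_dp r1 p q1 ν hr1).2 dq1
    rw [HM_im h hq hH hi hd h2, HM_im h hq hH hi du h1, HM_at h hq hH hi de he]
    intro ht hq1
    obtain ⟨a, t, -, hs1, hs2⟩ := hrl s ht
    exact (hS i p hi dp dp r2 q2 s t hr2 hs2).2 ((hS i p hi dp dp r1 q1 s t hr1 hs1).1 hq1)

/-- All formulas with a proof of at most `m` levels are true. -/
def LNM (S : XStr M) (Φ : M → M → M → Prop) (ν a m : M) : Prop :=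
  ∀ y, pfR S a ν m y → ∀ s i, IsN S 1 i → Φ y s i

theorem LNM_zero (h : SMax S cE a0 sC) {ν a m : M} (hm : zeroR S m) : LNM S Φ ν a m := by
  intro y hy
  exact absurd hy (h.pf_zero a ν m y hm)

theorem IntD_dp (h : SMax S cE a0 sC) (hq : QM S) {ν a m y : M} (hy : pfR S a ν m y) :
    dpR S ν y := by
  rcases hq.cases m with hm | ⟨m0, hm⟩
  · exact absurd hy (h.pf_zero a ν m y hm)
  · exact (h.pf_succ a ν m0 m y hm hy).1

theorem LNM_succ (h : SMax S cE a0 sC) (hq : QM S) {ν a m m' : M} (hH : HM S Φ ν)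
    (hS : SLM S Φ ν ν) (hA : ∀ y, memR S y a → dpR S ν y → ∀ s i, IsN S 1 i → Φ y s i)
    (hL : LNM S Φ ν a m) (hm : succR S m m') : LNM S Φ ν a m' := by
  intro y hy s i hi
  obtain ⟨hd, hc⟩ := h.pf_succ a ν m m' y hm hy
  rcases hc with hc | hc | hc | ⟨p, q, hp, hq', hi'⟩ | ⟨p, hp, hal⟩
  · exact hL y hc s i hi
  · exact hA y hc hd s i hi
  · exact LX_sound h hq hH hS hi hc hd
  · exact (HM_im h hq hH hi (IntD_dp h hq hq') hi').1 (hL q hq' s i hi) (hL p hp s i hi)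
  · exact (HM_al h hq hH hi hd hal).2 fun _ t _ => hL p hp t i hi

theorem not_pp (h : SMax S cE a0 sC) (hq : QM S) {ν a y : M} (hH : HM S Φ ν)
    (hL : LNM S Φ ν a ν) (hy : IsN S 16 y) : ¬ ppR S a ν y := by
  intro hp
  have hpf := h.pp_pf a ν y hp
  obtain ⟨i, hi⟩ := isN_ex hq 1
  obtain ⟨hat, _, ht⟩ := h.bot_at y hy
  exact ht y ((HM_at h hq hH hi (IntD_dp h hq hpf) hat).1 (hL y hpf y i hi))

end Pool.Agent.Myc
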