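import Pool.Agent.Myc.IntC
import Pool.Agent.Myc.IntB

set_option autoImplicit false

namespace Pool.Agent.Myc

open Fm

variable {M : Type} {S : XStr M} {cE a0 sC : ℕ} {Φ : M → M → M → Prop}

/-! ### Truth of standard formulas -/

theorem tschema (h : SMax S cE a0 sC) (hq : QM S) {ν i : M} (hH : HM S Φ ν) (hi : IsN S 1 i)
    (φ : AFm) {x s : M} {e : ℕ → M} (hx : IsN S (cd φ) x) (hd : dpR S ν x) (he : Vals S s e) :
    Φ x s i ↔ Sat S (emb φ) e := by
  induction φ generalizing x s e with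
  | bot =>
    obtain ⟨ha, ht⟩ := t0_codes h hq Fm.bot hx he (fun _ _ hc => by cases hc)
      (fun _ hc => by cases hc)
    exact (HM_at h hq hH hi hd ha).trans ht
  | eq a b =>
    obtain ⟨ha, ht⟩ := t0_codes h hq (Fm.eq a b) hx he (fun _ _ hc => by cases hc)
      (fun _ hc => by cases hc)
    exact (HM_at h hq hH hi hd ha).trans ht
  | rel r v =>
    obtain ⟨ha, ht⟩ := t0_codes h hq (Fm.rel r v) hx he (fun _ _ hc => by cases hc)
      (fun _ hc => by cases hc)
    exact (HM_at h hq hH hi hd ha).trans ht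
  | imp α β ihα ihβ =>
    obtain ⟨y, hy⟩ := isN_ex hq (cd α)
    obtain ⟨z, hz⟩ := isN_ex hq (cd β)
    have hx' := im_codes h hq α β hx hy hz
    obtain ⟨d1, d2⟩ := h.dp_im' ν x y z hd hx'
    rw [HM_im h hq hH hi hd hx', ihα hy d1 he, ihβ hz d2 he]
    rfl
  | all α ihα =>
    obtain ⟨y, hy⟩ := isN_ex hq (cd α)
    have hx' := al_codes h hq α hx hy
    have d1 := h.dp_al' ν x y hd hx'
    rw [HM_al h hq hH hi hd hx']
    constructor
    · intro hh a
      obtain ⟨t, ht⟩ := h.pr_tot a s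
      exact (ihα hy d1 (vals_scons h hq he ht)).1 (hh a t ht)
    · intro hh a t ht
      exact (ihα hy d1 (vals_scons h hq he ht)).2 (hh a)

theorem axioms_true (h : SMax S cE a0 sC) (hq : QM S) {ν a : M} (hH : HM S Φ ν) {T : List AFm}
    (hT : ∀ φ ∈ T, ∀ e, Sat S (emb φ) e) (ha : IsN S (cdL T) a) :
    ∀ y, memR S y a → dpR S ν y → ∀ s i, IsN S 1 i → Φ y s i := by
  intro y hy hd s i hi
  obtain ⟨φ, hφ, hyφ⟩ := mem_codes h hq T ha hy
  obtain ⟨e, he⟩ := vals_ex h hq s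
  exact (tschema h hq hH hi φ hyφ hd he).2 (hT φ hφ e)

end Pool.Agent.Myc
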