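import Pool.Agent.Myc.SemA
import Pool.Agent.Myc.CodeDefs
import Pool.Agent.Myc.SigA

set_option autoImplicit false

/-!
# Arithmetical formulas in the standard model: numerals, pairs, sequences, inductive definitions
-/

namespace Pool.Agent.Myc

open Fm

theorem sat_zeroA (x : ℕ) (e : ℕ → ℕ) : Sat NN (zeroA x) e ↔ e x = 0 := Iff.rfl
theorem sat_succA (x y : ℕ) (e : ℕ → ℕ) : Sat NN (succA x y) e ↔ e x + 1 = e y := Iff.rfl
theorem sat_addA (x y z : ℕ) (e : ℕ → ℕ) : Sat NN (addA x y z) e ↔ e x + e y = e z := Iff.rfl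
theorem sat_mulA (x y z : ℕ) (e : ℕ → ℕ) : Sat NN (mulA x y z) e ↔ e x * e y = e z := Iff.rfl

theorem sat_num (k : ℕ) (e : ℕ → ℕ) : Sat NN (num k) e ↔ e 0 = k := by
  induction k using Nat.strong_induction_on generalizing e with
  | _ k ih =>
    rcases Nat.eq_zero_or_pos k with rfl | hk
    · rw [num]
      exact Iff.rfl
    · rcases Nat.even_or_odd' k with ⟨m, rfl | rfl⟩
      · have hm : 0 < m := by omega
        rw [num_even hm, sat_ex]
        simp only [sat_and, sat_addA, ih m (by omega)]
        constructor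
        · rintro ⟨a, h1, h2⟩
          have h1' : a = m := h1
          have h2' : a + a = e 0 := h2
          omega
        · intro h
          exact ⟨m, rfl, by change m + m = e 0; omega⟩
      · rw [num_odd, sat_ex]
        simp only [sat_ex, sat_and, sat_addA, sat_succA, ih m (by omega)]
        constructor
        · rintro ⟨a, b, h1, h2, h3⟩
          have h1' : b = m := h1
          have h2' : b + b = a := h2
          have h3' : a + 1 = e 0 := h3
          omega
        · intro h
          refine ⟨2 * m, m, rfl, ?_, ?_⟩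
          · change m + m = 2 * m
            omega
          · change 2 * m + 1 = e 0
            omega

theorem sat_ltF (e : ℕ → ℕ) : Sat NN ltF e ↔ e 0 < e 1 := by
  simp only [ltF, sat_exL_cons, sat_exL_nil, sat_and, sat_addA, sat_succA]
  simp only [Function.update_apply]
  norm_num
  constructor
  · rintro ⟨a, h⟩
    omega
  · intro h
    exact ⟨e 1 - e 0 - 1, by omega⟩

theorem sat_leF (e : ℕ → ℕ) : Sat NN leF e ↔ e 0 ≤ e 1 := by
  simp only [leF, sat_exL_cons, sat_exL_nil, sat_addA]
  simp only [Function.update_apply]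
  norm_num
  constructor
  · rintro ⟨a, h⟩
    omega
  · intro h
    exact ⟨e 1 - e 0, by omega⟩

theorem sat_pairF (e : ℕ → ℕ) : Sat NN pairF e ↔ Nat.pair (e 0) (e 1) = e 2 := by
  simp only [pairF, sat_or, sat_exL_cons, sat_exL_nil, sat_addA, sat_and, sat_mulA, sat_andL,
    sat_ap, sat_ltF, sat_leF, List.mem_cons, forall_eq_or_imp, List.not_mem_nil]
  simp only [Function.update_apply]
  norm_num
  unfold Nat.pair
  split_ifs with h
  · constructor
    · rintro (⟨_, h2⟩ | ⟨h1, _⟩)
      · exact h2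
      · omega
    · intro h2
      exact Or.inl ⟨h, h2⟩
  · constructor
    · rintro (⟨h1, _⟩ | ⟨_, h2⟩)
      · omega
      · exact h2
    · intro h2
      exact Or.inr ⟨by omega, h2⟩

theorem sat_remF (e : ℕ → ℕ) : Sat NN remF e ↔ 0 < e 1 ∧ e 0 % e 1 = e 2 := by
  simp only [remF, sat_exL_cons, sat_exL_nil, sat_addA, sat_mulA, sat_andL,
    sat_ap, sat_ltF, List.mem_cons, forall_eq_or_imp, List.not_mem_nil]
  simp only [Function.update_apply]
  norm_num
  constructor
  · rintro ⟨h1, q, h2⟩
    refine ⟨by omega, ?_⟩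
    rw [← h2, mul_comm, Nat.mul_add_mod, Nat.mod_eq_of_lt h1]
  · rintro ⟨h1, h2⟩
    refine ⟨by rw [← h2]; exact Nat.mod_lt _ h1, e 0 / e 1, ?_⟩
    rw [← h2]
    exact Nat.div_add_mod' _ _

theorem sat_betaF (e : ℕ → ℕ) : Sat NN betaF e ↔ Nat.beta (e 0) (e 1) = e 2 := by
  simp only [betaF, sat_exL_cons, sat_exL_nil, sat_mulA, sat_andL, sat_succA,
    sat_ap, sat_pairF, sat_remF, List.mem_cons, forall_eq_or_imp, List.not_mem_nil]
  simp only [Function.update_apply]
  norm_num
  unfold Nat.beta
  constructor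
  · rintro ⟨a, b, h1, h2⟩
    rw [← h1, Nat.unpair_pair]
    exact h2
  · intro h
    exact ⟨_, _, Nat.pair_unpair _, h⟩

/-- Sequences witnessing membership in the least fixed point. -/
private def NatA_Seq (B : ℕ → Prop) (St : ℕ → ℕ → ℕ → Prop) (f : ℕ → ℕ) (n : ℕ) : Prop :=
  ∀ i ≤ n, B (f i) ∨ ∃ j < i, ∃ k < i, St (f i) (f j) (f k)

private theorem NatA_lfp_of_seq {B : ℕ → Prop} {St : ℕ → ℕ → ℕ → Prop} {f : ℕ → ℕ} {n : ℕ}
    (h : NatA_Seq B St f n) : ∀ i ≤ n, Lfp B St (f i) := by
  intro i
  induction i using Nat.strong_induction_on with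
  | _ i ih =>
    intro hi
    rcases h i hi with hb | ⟨j, hj, k, hk, hst⟩
    · exact Lfp.base hb
    · exact Lfp.step hst (ih j hj (by omega)) (ih k hk (by omega))

private theorem NatA_seq_of_lfp {B : ℕ → Prop} {St : ℕ → ℕ → ℕ → Prop} {u : ℕ}
    (h : Lfp B St u) : ∃ f n, f n = u ∧ NatA_Seq B St f n := by
  induction h with
  | base hb =>
    rename_i u
    exact ⟨fun _ => u, 0, rfl, fun i _ => Or.inl hb⟩
  | step hst _ _ ih1 ih2 =>
    rename_i u y z _ _
    obtain ⟨f, n, hf, hF⟩ := ih1
    obtain ⟨g, m, hg, hG⟩ := ih2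
    refine ⟨fun i => if i ≤ n then f i else if i ≤ n + 1 + m then g (i - (n + 1)) else u,
      n + 1 + m + 1, ?_, ?_⟩
    · beta_reduce
      rw [if_neg (by omega), if_neg (by omega)]
    · intro i hi
      by_cases h1 : i ≤ n
      · rcases hF i h1 with hb | ⟨j, hj, k, hk, hs⟩
        · left
          simpa [h1] using hb
        · right
          refine ⟨j, hj, k, hk, ?_⟩
          simpa [h1, show j ≤ n by omega, show k ≤ n by omega] using hs
      · by_cases h2 : i ≤ n + 1 + m
        · rcases hG (i - (n + 1)) (by omega) with hb | ⟨j, hj, k, hk, hs⟩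
          · left
            simpa [h1, h2] using hb
          · right
            refine ⟨j + (n + 1), by omega, k + (n + 1), by omega, ?_⟩
            simp only [h1, h2, if_true, if_false]
            rw [if_neg (by omega), if_pos (by omega), if_neg (by omega), if_pos (by omega),
              Nat.add_sub_cancel, Nat.add_sub_cancel]
            exact hs
        · right
          refine ⟨n, by omega, n + 1 + m, by omega, ?_⟩
          simp only [h1, h2, if_true, if_false, le_refl]
          rw [if_neg (by omega), Nat.add_sub_cancel_left, hf, hg]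
          exact hst

private theorem NatA_code (f : ℕ → ℕ) (n : ℕ) : ∃ a, ∀ i ≤ n, Nat.beta a i = f i := by
  refine ⟨Nat.unbeta ((List.range (n + 1)).map f), fun i hi => ?_⟩
  have h := Nat.beta_unbeta_coe ((List.range (n + 1)).map f) ⟨i, by simp; omega⟩
  rw [show ((⟨i, by simp; omega⟩ : Fin ((List.range (n + 1)).map f).length) : ℕ) = i from rfl]
    at h
  rw [h]
  simp

theorem sat_lfpF {base st : AFm} {B : ℕ → Prop} {St : ℕ → ℕ → ℕ → Prop}
    (hb : ∀ e : ℕ → ℕ, Sat NN base e ↔ B (e 0))
    (hs : ∀ e : ℕ → ℕ, Sat NN st e ↔ St (e 0) (e 1) (e 2)) (e : ℕ → ℕ) :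
    Sat NN (lfpF base st) e ↔ Lfp B St (e 0) := by
  simp only [lfpF, sat_exL_cons, sat_exL_nil, sat_and, sat_andL, sat_or, sat_alN, sat_imp,
    sat_ap, sat_betaF, sat_leF, sat_ltF, hb, hs, List.mem_cons, forall_eq_or_imp,
    List.not_mem_nil]
  simp only [Function.update_apply]
  norm_num
  constructor
  · rintro ⟨a, n, h1, h2⟩
    rw [← h1]
    exact NatA_lfp_of_seq (f := fun i => a.beta i) h2 n le_rfl
  · intro h
    obtain ⟨f, n, hf, hF⟩ := NatA_seq_of_lfp h
    obtain ⟨a, ha⟩ := NatA_code f n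
    refine ⟨a, n, by rw [ha n le_rfl, hf], fun i hi => ?_⟩
    rcases hF i hi with hb | ⟨j, hj, k, hk, hs⟩
    · left
      rw [ha i hi]
      exact hb
    · right
      refine ⟨j, hj, k, hk, ?_⟩
      rw [ha i hi, ha j (by omega), ha k (by omega)]
      exact hs

end Pool.Agent.Myc
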