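import Pool.Agent.Myc.NatA

set_option autoImplicit false

/-!
# Powers of two, concatenation, strings as numbers
-/

namespace Pool.Agent.Myc

open Fm

private theorem NatB_pow2 (n : ℕ) :
    (∀ a b, a * b = n → a = 1 ∨ ∃ c, c + c = a) → ∃ k, n = 2 ^ k := by
  induction n using Nat.strong_induction_on with
  | _ n ih =>
    intro h
    rcases Nat.eq_zero_or_pos n with rfl | hn
    · rcases h 3 0 (by norm_num) with h1 | ⟨c, hc⟩ <;> omega
    · rcases h n 1 (by omega) with h1 | ⟨c, hc⟩
      · exact ⟨0, by simpa using h1⟩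
      · obtain ⟨k, hk⟩ := ih c (by omega) (fun a b hab => h a (b * 2) (by
          rw [← mul_assoc, hab]; omega))
        exact ⟨k + 1, by rw [pow_succ, ← hk]; omega⟩

theorem sat_pow2F (e : ℕ → ℕ) : Sat NN pow2F e ↔ ∃ k, e 0 = 2 ^ k := by
  simp only [pow2F, sat_alN, sat_imp, sat_mulA, sat_or, sat_ap, sat_num, sat_exL_cons,
    sat_exL_nil, sat_addA]
  simp only [Function.update_apply]
  norm_num
  constructor
  · exact NatB_pow2 (e 0)
  · rintro ⟨k, hk⟩ a b hab
    have hd : a ∣ 2 ^ k := ⟨b, by rw [hab, hk]⟩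
    obtain ⟨j, -, rfl⟩ := (Nat.dvd_prime_pow Nat.prime_two).1 hd
    rcases Nat.eq_zero_or_pos j with rfl | hj
    · left
      rfl
    · right
      obtain ⟨i, rfl⟩ : ∃ i, j = i + 1 := ⟨j - 1, by omega⟩
      exact ⟨2 ^ i, by rw [pow_succ]; omega⟩

theorem sat_concF (e : ℕ → ℕ) : Sat NN concF e ↔ Cc (e 0) (e 1) (e 2) := by
  simp only [concF, sat_exL_cons, sat_exL_nil, sat_andL, sat_ap, sat_pow2F, sat_leF, sat_addA,
    sat_ltF, sat_mulA, List.mem_cons, forall_eq_or_imp, List.not_mem_nil]
  simp only [Function.update_apply]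
  norm_num
  unfold Cc
  constructor
  · rintro ⟨q, h1, h2, h3, h4⟩
    exact ⟨q, h1, h2, by omega, by omega⟩
  · rintro ⟨q, h1, h2, h3, h4⟩
    exact ⟨q, h1, h2, by omega, by omega⟩

theorem codeS_nil : codeS [] = 1 := rfl
theorem codeS_append_bit (w : List Bool) (b : Bool) : codeS (w ++ [b]) = 2 * codeS w + b.toNat := by
  simp [codeS, List.foldl_append]

theorem codeS_pos (w : List Bool) : 0 < codeS w := by
  induction w using List.reverseRecOn with
  | nil => exact Nat.one_pos
  | append_singleton w b ih =>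
    rw [codeS_append_bit]
    omega

theorem codeS_lt (w : List Bool) : codeS w < 2 ^ (w.length + 1) := by
  induction w using List.reverseRecOn with
  | nil => simp [codeS]
  | append_singleton w b ih =>
    rw [codeS_append_bit, List.length_append, List.length_singleton, pow_succ]
    have := Bool.toNat_le b
    omega

theorem le_codeS (w : List Bool) : 2 ^ w.length ≤ codeS w := by
  induction w using List.reverseRecOn with
  | nil => simp [codeS]
  | append_singleton w b ih =>
    rw [codeS_append_bit, List.length_append, List.length_singleton, pow_succ]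
    omega

theorem codeS_append (u v : List Bool) :
    codeS (u ++ v) + 2 ^ v.length = codeS u * 2 ^ v.length + codeS v := by
  induction v using List.reverseRecOn with
  | nil => simp [codeS]
  | append_singleton v b ih =>
    rw [← List.append_assoc, codeS_append_bit, codeS_append_bit, List.length_append,
      List.length_singleton, pow_succ]
    have h : codeS u * (2 ^ v.length * 2) = 2 * (codeS u * 2 ^ v.length) := by ring
    rw [h]
    omega

theorem codeS_inj {u v : List Bool} (h : codeS u = codeS v) : u = v := by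
  induction u using List.reverseRecOn generalizing v with
  | nil =>
    rcases List.eq_nil_or_concat v with rfl | ⟨v, b, rfl⟩
    · rfl
    · rw [List.concat_eq_append, codeS_append_bit, codeS_nil] at h
      have := codeS_pos v
      omega
  | append_singleton u b ih =>
    rcases List.eq_nil_or_concat v with rfl | ⟨v, c, rfl⟩
    · rw [codeS_append_bit, codeS_nil] at h
      have := codeS_pos u
      omega
    · rw [List.concat_eq_append] at h ⊢
      rw [codeS_append_bit, codeS_append_bit] at h
      have hb := Bool.toNat_le b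
      have hc := Bool.toNat_le c
      have h1 : codeS u = codeS v := by omega
      have h2 : b.toNat = c.toNat := by omega
      have h3 : b = c := by
        cases b <;> cases c <;> simp_all
      rw [ih h1, h3]

theorem codeS_surj {n : ℕ} (h : 0 < n) : ∃ w, codeS w = n := by
  induction n using Nat.strong_induction_on with
  | _ n ih =>
    by_cases h1 : n = 1
    · exact ⟨[], h1.symm⟩
    · obtain ⟨w, hw⟩ := ih (n / 2) (by omega) (by omega)
      rcases Nat.mod_two_eq_zero_or_one n with h2 | h2
      · exact ⟨w ++ [false], by rw [codeS_append_bit, hw]; simp; omega⟩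
      · exact ⟨w ++ [true], by rw [codeS_append_bit, hw]; simp; omega⟩

private theorem NatB_log {k : ℕ} {v : List Bool} (h1 : 2 ^ k ≤ codeS v)
    (h2 : codeS v < 2 * 2 ^ k) : k = v.length := by
  have h3 := codeS_lt v
  have h4 := le_codeS v
  have h5 : k < v.length + 1 := (Nat.pow_lt_pow_iff_right (by norm_num)).1 (lt_of_le_of_lt h1 h3)
  have h6 : v.length < k + 1 := (Nat.pow_lt_pow_iff_right (a := 2) (by norm_num)).1
    (lt_of_le_of_lt h4 (by rw [pow_succ]; omega))
  omega

theorem Cc_codeS (u v : List Bool) (z : ℕ) : Cc (codeS u) (codeS v) z ↔ z = codeS (u ++ v) := by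
  have h := codeS_append u v
  constructor
  · rintro ⟨q, ⟨k, rfl⟩, h1, h2, h3⟩
    have hk := NatB_log h1 h2
    subst hk
    omega
  · rintro rfl
    exact ⟨2 ^ v.length, ⟨_, rfl⟩, le_codeS v, by
      have := codeS_lt v
      rw [pow_succ] at this
      omega, h⟩

/-- The second argument of a concatenation is the number of a string. -/
theorem Cc_right {x y z : ℕ} (h : Cc x y z) : ∃ v, y = codeS v := by
  obtain ⟨q, ⟨k, rfl⟩, h1, -, -⟩ := h
  obtain ⟨w, hw⟩ := codeS_surj (n := y) (lt_of_lt_of_le (by positivity) h1)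
  exact ⟨w, hw.symm⟩

theorem sat_tagF (w : List Bool) (e : ℕ → ℕ) :
    Sat NN (tagF (codeS w)) e ↔ Cc (e 0) (codeS w) (e 1) := by
  simp only [tagF, sat_exL_cons, sat_exL_nil, sat_and, sat_ap, sat_num, sat_concF]
  simp only [Function.update_apply]
  norm_num

theorem sat_exp2_aux (x q : ℕ) :
    Lfp (fun u => ∃ a b, Nat.pair a b = u ∧ a = 0 ∧ b = 1)
      (fun u v _ => ∃ a b c d, Nat.pair c d = u ∧ Nat.pair a b = v ∧ a + 1 = c ∧ b + b = d)
      (Nat.pair x q) ↔ q = 2 ^ x := by
  constructor
  · intro h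
    generalize hu : Nat.pair x q = u at h
    induction h generalizing x q with
    | base hb =>
      obtain ⟨a, b, h1, rfl, rfl⟩ := hb
      rw [← h1, Nat.pair_eq_pair] at hu
      obtain ⟨rfl, rfl⟩ := hu
      rfl
    | step hst _ _ ih1 _ =>
      obtain ⟨a, b, c, d, h1, h2, h3, h4⟩ := hst
      rw [← h1, Nat.pair_eq_pair] at hu
      obtain ⟨rfl, rfl⟩ := hu
      have h5 := ih1 a b h2
      rw [← h3, ← h4, h5, pow_succ]
      omega
  · rintro rfl
    induction x with
    | zero => exact Lfp.base ⟨0, 1, rfl, rfl, rfl⟩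
    | succ x ih =>
      exact Lfp.step ⟨x, 2 ^ x, x + 1, 2 ^ (x + 1), rfl, rfl, rfl, by rw [pow_succ]; omega⟩ ih ih

theorem sat_exp2F (e : ℕ → ℕ) : Sat NN exp2F e ↔ e 1 = 2 ^ (e 0) := by
  have hb : ∀ e : ℕ → ℕ, Sat NN (exL [10, 11] (andL [ap pairF [10, 11, 0], zeroA 10,
      ap (num 1) [11]])) e ↔ (fun u => ∃ a b, Nat.pair a b = u ∧ a = 0 ∧ b = 1) (e 0) := by
    intro e
    simp only [sat_exL_cons, sat_exL_nil, sat_andL, sat_ap, sat_pairF, sat_zeroA, sat_num,
      List.mem_cons, forall_eq_or_imp, List.not_mem_nil]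
    simp only [Function.update_apply]
    norm_num
  have hs : ∀ e : ℕ → ℕ, Sat NN (exL [10, 11, 12, 13] (andL [ap pairF [12, 13, 0],
      ap pairF [10, 11, 1], succA 10 12, addA 11 11 13])) e ↔
      (fun u v _ => ∃ a b c d, Nat.pair c d = u ∧ Nat.pair a b = v ∧ a + 1 = c ∧ b + b = d)
        (e 0) (e 1) (e 2) := by
    intro e
    simp only [sat_exL_cons, sat_exL_nil, sat_andL, sat_ap, sat_pairF, sat_succA, sat_addA,
      List.mem_cons, forall_eq_or_imp, List.not_mem_nil]
    simp only [Function.update_apply]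
    norm_num
  have key := fun e : ℕ → ℕ =>
    sat_lfpF (B := fun u => ∃ a b, Nat.pair a b = u ∧ a = 0 ∧ b = 1)
      (St := fun u v _ => ∃ a b c d, Nat.pair c d = u ∧ Nat.pair a b = v ∧ a + 1 = c ∧
        b + b = d) hb hs e
  rw [← sat_exp2_aux]
  simp only [exp2F, sat_exL_cons, sat_exL_nil, sat_and, sat_ap, sat_pairF, key]
  simp only [Function.update_apply]
  norm_num

end Pool.Agent.Myc
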