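import Pool.Agent.Myc.NatB

set_option autoImplicit false

/-!
# The arithmetised syntax in the standard model
-/

namespace Pool.Agent.Myc

open Fm

private theorem NatC_replicate (n : ℕ) : codeS (List.replicate n true) + 1 = 2 ^ (n + 1) := by
  induction n with
  | zero => simp [codeS_nil]
  | succ n ih =>
    rw [List.replicate_succ', codeS_append_bit]
    have : (true).toNat = 1 := rfl
    rw [this, pow_succ]
    omega

theorem tk_eq (i : ℕ) : tk i + 2 = 2 ^ (i + 3) := by
  unfold tk tok
  rw [codeS_append_bit]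
  have h := NatC_replicate (i + 1)
  have : (false).toNat = 0 := rfl
  rw [this]
  have e : 2 ^ (i + 3) = 2 * 2 ^ (i + 1 + 1) := by rw [pow_succ]; ring
  rw [e, ← h]
  ring

theorem tk_lt {i j : ℕ} : tk i < tk j ↔ i < j := by
  have hi := tk_eq i
  have hj := tk_eq j
  have : (2 : ℕ) ^ (i + 3) < 2 ^ (j + 3) ↔ i + 3 < j + 3 :=
    Nat.pow_lt_pow_iff_right (by norm_num)
  constructor
  · intro h
    have : (2 : ℕ) ^ (i + 3) < 2 ^ (j + 3) := by omega
    have := (Nat.pow_lt_pow_iff_right (a := 2) (by norm_num)).1 this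
    omega
  · intro h
    have : (2 : ℕ) ^ (i + 3) < 2 ^ (j + 3) := Nat.pow_lt_pow_right (by norm_num) (by omega)
    omega

theorem tk_inj {i j : ℕ} (h : tk i = tk j) : i = j := by
  rcases lt_trichotomy i j with h' | h' | h'
  · exact absurd h (ne_of_lt (tk_lt.2 h'))
  · exact h'
  · exact absurd h.symm (ne_of_lt (tk_lt.2 h'))

theorem tk_pos (i : ℕ) : tk i ≠ 0 := by
  have h := tk_eq i
  have : (8 : ℕ) ≤ 2 ^ (i + 3) := by
    calc (8 : ℕ) = 2 ^ 3 := by norm_num
      _ ≤ 2 ^ (i + 3) := Nat.pow_le_pow_right (by norm_num) (by omega)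
  omega

private theorem NatC_tk_ge (i : ℕ) : 6 ≤ tk i := by
  have h := tk_eq i
  have : (8 : ℕ) ≤ 2 ^ (i + 3) := by
    calc (8 : ℕ) = 2 ^ 3 := by norm_num
      _ ≤ 2 ^ (i + 3) := Nat.pow_le_pow_right (by norm_num) (by omega)
  omega

/-! ### Unique readability: a stack machine reading the string from the left -/

/-- One reduction of the stack, for the operation with the given last three bits. -/
private def NatC_red : Bool → Bool → Bool → List (ℕ ⊕ AFm) → List (ℕ ⊕ AFm)
  | false, false, false, st => Sum.inr bot :: st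
  | false, false, true, Sum.inl j :: Sum.inl i :: st => Sum.inr (eq i j) :: st
  | false, true, false, Sum.inl i :: st => Sum.inr (zeroA i) :: st
  | false, true, true, Sum.inl j :: Sum.inl i :: st => Sum.inr (succA i j) :: st
  | true, false, false, Sum.inl k :: Sum.inl j :: Sum.inl i :: st => Sum.inr (addA i j k) :: st
  | true, false, true, Sum.inl k :: Sum.inl j :: Sum.inl i :: st => Sum.inr (mulA i j k) :: st
  | true, true, false, Sum.inr ψ :: Sum.inr φ :: st => Sum.inr (imp φ ψ) :: st
  | true, true, true, Sum.inr φ :: st => Sum.inr (all φ) :: st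
  | _, _, _, st => st

/-- The machine: remaining string, number of ones read in the current variable, stack. -/
private def NatC_run : List Bool → ℕ → List (ℕ ⊕ AFm) → List (ℕ ⊕ AFm)
  | [], _, st => st
  | true :: w, n, st => NatC_run w (n + 1) st
  | false :: w, n + 1, st => NatC_run w 0 (Sum.inl n :: st)
  | false :: b1 :: b2 :: b3 :: w, 0, st => NatC_run w 0 (NatC_red b1 b2 b3 st)
  | false :: _, 0, st => st

private theorem NatC_run_rep (n m : ℕ) (w : List Bool) (st : List (ℕ ⊕ AFm)) :
    NatC_run (List.replicate n true ++ w) m st = NatC_run w (m + n) st := by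
  induction n generalizing m with
  | zero => simp
  | succ n ih =>
    rw [List.replicate_succ, List.cons_append, NatC_run, ih]
    congr 1
    omega

private theorem NatC_run_tok (i : ℕ) (w : List Bool) (st : List (ℕ ⊕ AFm)) :
    NatC_run (tok i ++ w) 0 st = NatC_run w 0 (Sum.inl i :: st) := by
  unfold tok
  rw [List.append_assoc, NatC_run_rep, List.cons_append, List.nil_append]
  rw [show 0 + (i + 1) = i + 1 by omega, NatC_run]

private theorem NatC_enc_zero (i : ℕ) :
    encode (zeroA i) = tok i ++ [false, false, true, false] := by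
  have : encode (zeroA i) = (List.ofFn (n := 1) ![i]).flatMap tok ++ [false, false, true, false] :=
    rfl
  rw [this]; simp

private theorem NatC_enc_succ (i j : ℕ) :
    encode (succA i j) = tok i ++ (tok j ++ [false, false, true, true]) := by
  have : encode (succA i j) =
      (List.ofFn (n := 2) ![i, j]).flatMap tok ++ [false, false, true, true] := rfl
  rw [this]; simp [List.ofFn_succ]

private theorem NatC_enc_add (i j k : ℕ) :
    encode (addA i j k) = tok i ++ (tok j ++ (tok k ++ [false, true, false, false])) := by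
  have : encode (addA i j k) =
      (List.ofFn (n := 3) ![i, j, k]).flatMap tok ++ [false, true, false, false] := rfl
  rw [this]; simp [List.ofFn_succ]

private theorem NatC_enc_mul (i j k : ℕ) :
    encode (mulA i j k) = tok i ++ (tok j ++ (tok k ++ [false, true, false, true])) := by
  have : encode (mulA i j k) =
      (List.ofFn (n := 3) ![i, j, k]).flatMap tok ++ [false, true, false, true] := rfl
  rw [this]; simp [List.ofFn_succ]

private theorem NatC_run_encode (φ : AFm) : ∀ (w : List Bool) (st : List (ℕ ⊕ AFm)),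
    NatC_run (encode φ ++ w) 0 st = NatC_run w 0 (Sum.inr φ :: st) := by
  induction φ with
  | bot => intro w st; rfl
  | eq i j =>
    intro w st
    rw [encode, List.append_assoc, List.append_assoc, NatC_run_tok, NatC_run_tok]
    rfl
  | rel r v =>
    intro w st
    cases r with
    | zero =>
      obtain ⟨i, hv⟩ : ∃ i, (rel AR.zero v : AFm) = zeroA i := by
        refine ⟨v (0 : Fin 1), ?_⟩
        unfold zeroA
        congr 1
        funext k
        change Fin 1 at k
        fin_cases k
        rfl
      rw [hv, NatC_enc_zero, List.append_assoc, NatC_run_tok]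
      rfl
    | succ =>
      obtain ⟨i, j, hv⟩ : ∃ i j, (rel AR.succ v : AFm) = succA i j := by
        refine ⟨v (0 : Fin 2), v (1 : Fin 2), ?_⟩
        unfold succA
        congr 1
        funext k
        change Fin 2 at k
        fin_cases k <;> rfl
      rw [hv, NatC_enc_succ, List.append_assoc, NatC_run_tok, List.append_assoc, NatC_run_tok]
      rfl
    | add =>
      obtain ⟨i, j, k, hv⟩ : ∃ i j k, (rel AR.add v : AFm) = addA i j k := by
        refine ⟨v (0 : Fin 3), v (1 : Fin 3), v (2 : Fin 3), ?_⟩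
        unfold addA
        congr 1
        funext k
        change Fin 3 at k
        fin_cases k <;> rfl
      rw [hv, NatC_enc_add, List.append_assoc, NatC_run_tok, List.append_assoc, NatC_run_tok,
        List.append_assoc, NatC_run_tok]
      rfl
    | mul =>
      obtain ⟨i, j, k, hv⟩ : ∃ i j k, (rel AR.mul v : AFm) = mulA i j k := by
        refine ⟨v (0 : Fin 3), v (1 : Fin 3), v (2 : Fin 3), ?_⟩
        unfold mulA
        congr 1
        funext k
        change Fin 3 at k
        fin_cases k <;> rfl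
      rw [hv, NatC_enc_mul, List.append_assoc, NatC_run_tok, List.append_assoc, NatC_run_tok,
        List.append_assoc, NatC_run_tok]
      rfl
  | imp φ ψ ih1 ih2 =>
    intro w st
    rw [encode, List.append_assoc, List.append_assoc, ih1, ih2]
    rfl
  | all φ ih =>
    intro w st
    rw [encode, List.append_assoc, ih]
    rfl

private theorem NatC_run_encodeL (T : List AFm) : ∀ (st : List (ℕ ⊕ AFm)),
    NatC_run (encodeL T) 0 st = (T.map Sum.inr).reverse ++ st := by
  induction T with
  | nil => intro st; rfl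
  | cons φ T ih =>
    intro st
    have : encodeL (φ :: T) = encode φ ++ encodeL T := rfl
    rw [this, NatC_run_encode, ih]
    simp

/-- Unique readability. -/
theorem encodeL_inj {T T' : List AFm} (h : encodeL T = encodeL T') : T = T' := by
  have h1 := NatC_run_encodeL T []
  have h2 := NatC_run_encodeL T' []
  rw [h, h2] at h1
  simp only [List.append_nil] at h1
  have h3 := List.reverse_injective h1
  exact (List.map_injective_iff.2 Sum.inr_injective) h3.symm

theorem cd_inj {φ ψ : AFm} (h : cd φ = cd ψ) : φ = ψ := by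
  have h1 : encode φ = encode ψ := codeS_inj h
  have h2 : encodeL [φ] = encodeL [ψ] := by simp [encodeL, h1]
  have h3 := encodeL_inj h2
  simpa using h3

theorem cdL_inj {T T' : List AFm} (h : cdL T = cdL T') : T = T' := encodeL_inj (codeS_inj h)

/-! ### Semantics -/

theorem sat_varF (e : ℕ → ℕ) : Sat NN varF e ↔ ∃ i, e 0 = tk i := by
  simp only [varF, sat_exL_cons, sat_exL_nil, sat_andL, List.mem_cons, List.not_mem_nil, or_false,
    forall_eq_or_imp, forall_eq, sat_succA, sat_ap, sat_pow2F, sat_num, sat_leF]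
  constructor
  · rintro ⟨a, b, c, h1, h2, ⟨k, h3⟩, h4, h5⟩
    simp [Function.update_apply] at h1 h2 h3 h4 h5
    subst h4
    have hk : 3 ≤ k := by
      by_contra hk
      have hk' : k ≤ 2 := by omega
      have : 2 ^ k ≤ 2 ^ 2 := Nat.pow_le_pow_right (by norm_num) hk'
      omega
    refine ⟨k - 3, ?_⟩
    have := tk_eq (k - 3)
    rw [show k - 3 + 3 = k by omega] at this
    omega
  · rintro ⟨i, hi⟩
    have h := tk_eq i
    have h6 := NatC_tk_ge i
    refine ⟨e 0 + 1, e 0 + 2, 6, ?_, ?_, ⟨i + 3, ?_⟩, ?_, ?_⟩ <;>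
      simp [Function.update_apply] <;> omega

theorem sat_nextF (e : ℕ → ℕ) : Sat NN nextF e ↔ e 1 = 2 * e 0 + 2 := by
  simp only [nextF, sat_exL_cons, sat_exL_nil, sat_andL, List.mem_cons, List.not_mem_nil, or_false,
    forall_eq_or_imp, forall_eq, sat_succA, sat_addA]
  constructor
  · rintro ⟨a, b, h1, h2, h3⟩
    simp [Function.update_apply] at h1 h2 h3
    omega
  · intro h
    refine ⟨2 * e 0, 2 * e 0 + 1, ?_, ?_, ?_⟩ <;> simp [Function.update_apply] <;> omega

theorem next_tk (i : ℕ) : tk (i + 1) = 2 * tk i + 2 := by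
  have h1 := tk_eq i
  have h2 := tk_eq (i + 1)
  have : 2 ^ (i + 1 + 3) = 2 * 2 ^ (i + 3) := by rw [show i + 1 + 3 = (i + 3) + 1 by omega, pow_succ]; ring
  omega

theorem sat_vaddF (e : ℕ → ℕ) :
    Sat NN vaddF e ↔ (e 0 + 2) * (e 1 + 2) = 8 * (e 2 + 2) := by
  simp only [vaddF, sat_exL_cons, sat_exL_nil, sat_andL, List.mem_cons, List.not_mem_nil, or_false,
    forall_eq_or_imp, forall_eq, sat_succA, sat_addA, sat_mulA, sat_ap, sat_num]
  constructor
  · rintro ⟨a0, a1, a2, a3, a4, a5, a6, a7, h0, h1, h2, h3, h4, h5, h6, h7, h8⟩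
    simp [Function.update_apply] at h0 h1 h2 h3 h4 h5 h6 h7 h8
    subst h0 h2 h4 h6
    subst h1 h3 h5
    rw [← h8] at h7
    linarith
  · intro h
    refine ⟨e 0 + 1, e 0 + 2, e 1 + 1, e 1 + 2, e 2 + 1, e 2 + 2, 8, 8 * (e 2 + 2),
      ?_, ?_, ?_, ?_, ?_, ?_, ?_, ?_, ?_⟩ <;> simp [Function.update_apply]
    · exact h
    · ring

theorem vadd_tk (i j x : ℕ) : (tk i + 2) * (tk j + 2) = 8 * (x + 2) ↔ x = tk (i + j) := by
  rw [tk_eq, tk_eq]
  have h := tk_eq (i + j)
  have h2 : 2 ^ (i + 3) * 2 ^ (j + 3) = 8 * 2 ^ (i + j + 3) := by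
    rw [← pow_add, show i + 3 + (j + 3) = 3 + (i + j + 3) by omega, pow_add]
    norm_num
  rw [h2]
  omega

theorem ptk_inj {p q : Option ℕ} (h : ptk p = ptk q) : p = q := by
  cases p with
  | none =>
    cases q with
    | none => rfl
    | some j => exact absurd h.symm (tk_pos j)
  | some i =>
    cases q with
    | none => exact absurd h (tk_pos i)
    | some j => rw [tk_inj h]

private theorem NatC_up_iter (ρ : ℕ → ℕ) (d : ℕ) :
    ∀ i, (up^[d] ρ) i = if i < d then i else ρ (i - d) + d := by
  induction d with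
  | zero => intro i; simp
  | succ d ih =>
    intro i
    rw [Function.iterate_succ_apply']
    cases i with
    | zero => simp [up]
    | succ i =>
      rw [up, ih]
      by_cases h : i < d
      · simp [h]
      · simp [h]
        omega

theorem sat_vmapF (e : ℕ → ℕ) (p : Option ℕ) (d i : ℕ) (h0 : e 0 = ptk p) (h1 : e 1 = tk d)
    (h2 : e 2 = tk i) : Sat NN vmapF e ↔ e 3 = tk ((up^[d] (pren p)) i) := by
  rw [NatC_up_iter]
  have key : Sat NN vmapF e ↔ ((e 2 < e 1 ∧ e 3 = e 2) ∨ (e 1 ≤ e 2 ∧ e 0 = 0 ∧ e 3 = 2 * e 2 + 2)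
      ∨ (e 2 = e 1 ∧ e 0 ≠ 0 ∧ (e 0 + 2) * (e 1 + 2) = 8 * (e 3 + 2))
      ∨ (e 1 < e 2 ∧ e 0 ≠ 0 ∧ e 2 = 2 * e 3 + 2)) := by
    simp only [vmapF, sat_orL, sat_andL, List.mem_cons, List.not_mem_nil, or_false,
      exists_eq_or_imp, exists_eq_left, forall_eq_or_imp, forall_eq, sat_and, sat_neg, sat_zeroA,
      sat_ap, sat_ltF, sat_leF, sat_nextF, sat_vaddF]
    simp [Sat]
  rw [key, h0, h1, h2]
  cases p with
  | none =>
    simp only [ptk, pren, ne_eq, not_true_eq_false, false_and, and_false, or_false, true_and]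
    rcases lt_or_ge i d with h | h
    · have h' := tk_lt.2 h
      simp only [h', h, true_and, if_true]
      constructor
      · rintro (h3 | h3)
        · exact h3
        · omega
      · intro h3; exact Or.inl h3
    · have h' : tk d ≤ tk i := by
        rcases Nat.lt_or_ge (tk i) (tk d) with h3 | h3
        · exact absurd (tk_lt.1 h3) (by omega)
        · exact h3
      rw [if_neg (by omega), show Nat.succ (i - d) + d = i + 1 by omega, next_tk]
      constructor
      · rintro (h3 | h3)
        · omega
        · exact h3.2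
      · intro h3; exact Or.inr ⟨h', h3⟩
  | some j =>
    have hj := tk_pos j
    simp only [ptk, pren, ne_eq, hj, not_false_eq_true, true_and, false_and, and_false, false_or,
      vadd_tk]
    rcases lt_trichotomy i d with h | h | h
    · have h' := tk_lt.2 h
      rw [if_pos h]
      constructor
      · rintro (h3 | h3 | h3)
        · exact h3.2
        · omega
        · omega
      · intro h3; exact Or.inl ⟨h', h3⟩
    · subst h
      rw [if_neg (by omega), Nat.sub_self]
      simp [instMap]
    · have h' := tk_lt.2 h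
      rw [if_neg (by omega)]
      obtain ⟨m, hm⟩ : ∃ m, i - d = m + 1 := ⟨i - d - 1, by omega⟩
      rw [hm]
      have hi : i = m + d + 1 := by omega
      simp only [instMap]
      have h4 := next_tk (m + d)
      rw [← hi] at h4
      constructor
      · rintro (h3 | h3 | h3)
        · omega
        · omega
        · omega
      · intro h3
        right; right
        exact ⟨h', by omega⟩

private theorem NatC_conc_tag (w : List Bool) (u v : List Bool) (e : ℕ → ℕ)
    (h0 : e 0 = codeS u) (h1 : e 1 = codeS v) (k : ℕ) (hk : k = codeS w) :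
    Sat NN (exL [10] (and (ap concF [0, 1, 10]) (ap (tagF k) [10, 2]))) e ↔
      e 2 = codeS ((u ++ v) ++ w) := by
  subst hk
  simp only [sat_exL_cons, sat_exL_nil, sat_and, sat_ap, sat_concF, sat_tagF]
  simp [Function.update_apply, h0, h1, Cc_codeS]

theorem sat_eqC (e : ℕ → ℕ) (i j : ℕ) (h0 : e 0 = tk i) (h1 : e 1 = tk j) :
    Sat NN eqC e ↔ e 2 = cd (eq i j) := by
  have := NatC_conc_tag [false, false, false, true] (tok i) (tok j) e h0 h1 17 (by rfl)
  exact this

theorem sat_zeroC (e : ℕ → ℕ) (i : ℕ) (h0 : e 0 = tk i) :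
    Sat NN zeroC e ↔ e 1 = cd (zeroA i) := by
  have hc : (18 : ℕ) = codeS [false, false, true, false] := by rfl
  have hz : cd (zeroA i) = codeS (tok i ++ [false, false, true, false]) := by
    simp [cd, NatC_enc_zero]
  rw [zeroC, sat_ap, hc, sat_tagF, hz]
  have h0' : e 0 = codeS (tok i) := h0
  simp [h0', Cc_codeS]

theorem sat_succC (e : ℕ → ℕ) (i j : ℕ) (h0 : e 0 = tk i) (h1 : e 1 = tk j) :
    Sat NN succC e ↔ e 2 = cd (succA i j) := by
  have := NatC_conc_tag [false, false, true, true] (tok i) (tok j) e h0 h1 19 (by rfl)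
  have hz : cd (succA i j) = codeS (tok i ++ tok j ++ [false, false, true, true]) := by
    simp [cd, NatC_enc_succ]
  rw [hz]
  exact this

private theorem NatC_conc3_tag (w : List Bool) (u v t : List Bool) (e : ℕ → ℕ)
    (h0 : e 0 = codeS u) (h1 : e 1 = codeS v) (h2 : e 2 = codeS t) (k : ℕ) (hk : k = codeS w) :
    Sat NN (exL [10, 11] (andL [ap concF [0, 1, 10], ap concF [10, 2, 11],
      ap (tagF k) [11, 3]])) e ↔ e 3 = codeS (((u ++ v) ++ t) ++ w) := by
  subst hk
  simp only [sat_exL_cons, sat_exL_nil, sat_andL, List.mem_cons, List.not_mem_nil, or_false,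
    forall_eq_or_imp, forall_eq, sat_ap, sat_concF, sat_tagF]
  simp [Function.update_apply, h0, h1, h2, Cc_codeS]

theorem sat_addC (e : ℕ → ℕ) (i j k : ℕ) (h0 : e 0 = tk i) (h1 : e 1 = tk j) (h2 : e 2 = tk k) :
    Sat NN addC e ↔ e 3 = cd (addA i j k) := by
  have := NatC_conc3_tag [false, true, false, false] (tok i) (tok j) (tok k) e h0 h1 h2 20 (by rfl)
  have hz : cd (addA i j k) = codeS (tok i ++ tok j ++ tok k ++ [false, true, false, false]) := by
    simp [cd, NatC_enc_add]
  rw [hz]
  exact this

theorem sat_mulC (e : ℕ → ℕ) (i j k : ℕ) (h0 : e 0 = tk i) (h1 : e 1 = tk j) (h2 : e 2 = tk k) :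
    Sat NN mulC e ↔ e 3 = cd (mulA i j k) := by
  have := NatC_conc3_tag [false, true, false, true] (tok i) (tok j) (tok k) e h0 h1 h2 21 (by rfl)
  have hz : cd (mulA i j k) = codeS (tok i ++ tok j ++ tok k ++ [false, true, false, true]) := by
    simp [cd, NatC_enc_mul]
  rw [hz]
  exact this

theorem sat_impC (e : ℕ → ℕ) (φ ψ : AFm) (h0 : e 0 = cd φ) (h1 : e 1 = cd ψ) :
    Sat NN impC e ↔ e 2 = cd (imp φ ψ) := by
  have := NatC_conc_tag [false, true, true, false] (encode φ) (encode ψ) e h0 h1 22 (by rfl)
  exact this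

theorem sat_allC (e : ℕ → ℕ) (φ : AFm) (h0 : e 0 = cd φ) :
    Sat NN allC e ↔ e 1 = cd (all φ) := by
  have hc : (23 : ℕ) = codeS [false, true, true, true] := by rfl
  have hz : cd (all φ) = codeS (encode φ ++ [false, true, true, true]) := rfl
  rw [allC, sat_ap, hc, sat_tagF, hz]
  have h0' : e 0 = codeS (encode φ) := h0
  simp [h0', Cc_codeS]

theorem cd_bot : cd bot = 16 := by rfl

theorem sat_negC (e : ℕ → ℕ) (φ : AFm) (h0 : e 0 = cd φ) :
    Sat NN negC e ↔ e 1 = cd (neg φ) := by
  simp only [negC, sat_exL_cons, sat_exL_nil, sat_and, sat_ap, sat_num]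
  constructor
  · rintro ⟨a, h1, h2⟩
    simp [Function.update_apply] at h1
    subst h1
    rw [sat_impC _ φ bot (by simpa [Function.update_apply] using h0)
      (by simp [Function.update_apply, cd_bot])] at h2
    simpa [Function.update_apply, neg] using h2
  · intro h
    refine ⟨16, by simp [Function.update_apply], ?_⟩
    rw [sat_impC _ φ bot (by simpa [Function.update_apply] using h0)
      (by simp [Function.update_apply, cd_bot])]
    simpa [Function.update_apply, neg] using h

theorem sat_quadF (e : ℕ → ℕ) :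
    Sat NN quadF e ↔ Nat.pair (Nat.pair (e 0) (e 1)) (Nat.pair (e 2) (e 3)) = e 4 := by
  simp only [quadF, sat_exL_cons, sat_exL_nil, sat_andL, List.mem_cons, List.not_mem_nil, or_false,
    forall_eq_or_imp, forall_eq, sat_ap, sat_pairF]
  simp [Function.update_apply]

end Pool.Agent.Myc
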