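import Pool.Agent.Myc.NatC

set_option autoImplicit false

namespace Pool.Agent.Myc

open Fm

/-! ### Free variables -/

section NatD_fv

variable (P : ℕ → Prop)

private theorem NatD_v1 (x : ℕ) : (∀ k : Fin 1, P ((![x] : Fin 1 → ℕ) k)) ↔ P x := by
  simp
private theorem NatD_v2 (x y : ℕ) : (∀ k : Fin 2, P ((![x, y] : Fin 2 → ℕ) k)) ↔ P x ∧ P y := by
  simp [Fin.forall_fin_succ]
private theorem NatD_v3 (x y z : ℕ) :
    (∀ k : Fin 3, P ((![x, y, z] : Fin 3 → ℕ) k)) ↔ P x ∧ P y ∧ P z := by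
  simp [Fin.forall_fin_succ]

private theorem NatD_zeroA (x : ℕ) : FVs P (zeroA x) ↔ P x := NatD_v1 P x
private theorem NatD_succA (x y : ℕ) : FVs P (succA x y) ↔ P x ∧ P y := NatD_v2 P x y
private theorem NatD_addA (x y z : ℕ) : FVs P (addA x y z) ↔ P x ∧ P y ∧ P z := NatD_v3 P x y z
private theorem NatD_mulA (x y z : ℕ) : FVs P (mulA x y z) ↔ P x ∧ P y ∧ P z := NatD_v3 P x y z
private theorem NatD_eqA (x y : ℕ) : FVs P (Fm.eq x y : AFm) ↔ P x ∧ P y := Iff.rfl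
private theorem NatD_impA (φ ψ : AFm) : FVs P (imp φ ψ) ↔ FVs P φ ∧ FVs P ψ := Iff.rfl

end NatD_fv

private theorem NatD_fap {n : ℕ} {φ : AFm} (h : FVs (fun i => i < n) φ) (P : ℕ → Prop)
    (v : List ℕ) (hv : v.length = n) (hP : ∀ i ∈ v, P i) : FVs P (ap φ v) ↔ True :=
  iff_true_intro (FVs_ap h P v hv hP)

private theorem NatD_num (k : ℕ) (P : ℕ → Prop) (v : List ℕ) (hv : v.length = 1)
    (hP : ∀ i ∈ v, P i) : FVs P (ap (num k) v) ↔ True := NatD_fap (FVs_num k) P v hv hP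

private theorem NatD_ltF : FVs (fun i => i < 2) ltF := by
  simp [ltF, FVs_exL, FVs_and, NatD_addA, NatD_succA]
private theorem NatD_leF : FVs (fun i => i < 2) leF := by
  simp [leF, FVs_exL, NatD_addA]
private theorem NatD_pow2F : FVs (fun i => i < 1) pow2F := by
  simp [pow2F, FVs_exL, FVs_or, FVs_alN, NatD_impA, NatD_mulA, NatD_addA, NatD_num]
private theorem NatD_concF : FVs (fun i => i < 3) concF := by
  simp [concF, FVs_exL, FVs_andL, NatD_fap NatD_pow2F, NatD_fap NatD_leF, NatD_fap NatD_ltF,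
    NatD_addA, NatD_mulA]
private theorem NatD_tagF (k : ℕ) : FVs (fun i => i < 2) (tagF k) := by
  simp [tagF, FVs_exL, FVs_and, NatD_num, NatD_fap NatD_concF]
private theorem NatD_nextF : FVs (fun i => i < 2) nextF := by
  simp [nextF, FVs_exL, FVs_andL, NatD_addA, NatD_succA]
private theorem NatD_vaddF : FVs (fun i => i < 3) vaddF := by
  simp [vaddF, FVs_exL, FVs_andL, NatD_mulA, NatD_succA, NatD_num]
private theorem NatD_vmapF : FVs (fun i => i < 4) vmapF := by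
  simp [vmapF, FVs_and, FVs_andL, FVs_orL, FVs_neg, NatD_eqA, NatD_zeroA, NatD_fap NatD_ltF,
    NatD_fap NatD_leF, NatD_fap NatD_nextF, NatD_fap NatD_vaddF]
private theorem NatD_eqC : FVs (fun i => i < 3) eqC := by
  simp [eqC, FVs_exL, FVs_and, NatD_fap NatD_concF, NatD_fap (NatD_tagF _)]
private theorem NatD_zeroC : FVs (fun i => i < 2) zeroC := by
  simp [zeroC, NatD_fap (NatD_tagF _)]
private theorem NatD_succC : FVs (fun i => i < 3) succC := by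
  simp [succC, FVs_exL, FVs_and, NatD_fap NatD_concF, NatD_fap (NatD_tagF _)]
private theorem NatD_addC : FVs (fun i => i < 4) addC := by
  simp [addC, FVs_exL, FVs_andL, NatD_fap NatD_concF, NatD_fap (NatD_tagF _)]
private theorem NatD_mulC : FVs (fun i => i < 4) mulC := by
  simp [mulC, FVs_exL, FVs_andL, NatD_fap NatD_concF, NatD_fap (NatD_tagF _)]
private theorem NatD_impC : FVs (fun i => i < 3) impC := by
  simp [impC, FVs_exL, FVs_and, NatD_fap NatD_concF, NatD_fap (NatD_tagF _)]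
private theorem NatD_allC : FVs (fun i => i < 2) allC := by
  simp [allC, NatD_fap (NatD_tagF _)]

/-! ### Satisfaction with a list of values -/

/-- The formula `φ` holds for the values in the list `l`. -/
def NatD_S (φ : AFm) (l : List ℕ) : Prop := Sat NN φ (fun i => l.getD i 0)

private theorem NatD_sap {n : ℕ} {φ : AFm} (h : FVs (fun i => i < n) φ) (v : List ℕ)
    (e : ℕ → ℕ) (hv : v.length = n) : Sat NN (ap φ v) e ↔ NatD_S φ (v.map e) := by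
  rw [sat_ap, NatD_S]
  refine sat_congr NN h ?_
  intro i hi
  have h1 : i < v.length := by omega
  have h2 : i < (v.map e).length := by simpa using h1
  simp only [List.getD_eq_getElem _ _ h1, List.getD_eq_getElem _ _ h2, List.getElem_map]

/-- The quadruple with the given entries. -/
def NatD_Q (a b c d : ℕ) : ℕ := Nat.pair (Nat.pair a b) (Nat.pair c d)

private theorem NatD_Q_inj {a b c d a' b' c' d' : ℕ} :
    NatD_Q a b c d = NatD_Q a' b' c' d' ↔ a = a' ∧ b = b' ∧ c = c' ∧ d = d' := by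
  simp [NatD_Q, Nat.pair_eq_pair, and_assoc]

/-- The meaning of `renBase`. -/
def NatD_B (u : ℕ) : Prop :=
  ∃ a b c d, NatD_Q a b c d = u ∧ (a = 0 ∨ ∃ i, a = tk i) ∧ (∃ i, b = tk i) ∧
    ((c = 16 ∧ d = 16) ∨ ∃ x y z x' y' z', (∃ i, x = tk i) ∧ (∃ i, y = tk i) ∧ (∃ i, z = tk i) ∧
      NatD_S vmapF [a, b, x, x'] ∧ NatD_S vmapF [a, b, y, y'] ∧ NatD_S vmapF [a, b, z, z'] ∧
      ((NatD_S eqC [x, y, c] ∧ NatD_S eqC [x', y', d]) ∨
        (NatD_S zeroC [x, c] ∧ NatD_S zeroC [x', d]) ∨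
        (NatD_S succC [x, y, c] ∧ NatD_S succC [x', y', d]) ∨
        (NatD_S addC [x, y, z, c] ∧ NatD_S addC [x', y', z', d]) ∨
        (NatD_S mulC [x, y, z, c] ∧ NatD_S mulC [x', y', z', d])))

/-- The meaning of `renStep`. -/
def NatD_St (u v w : ℕ) : Prop :=
  ∃ a b c d, NatD_Q a b c d = u ∧
    ((∃ c1 d1 c2 d2, NatD_Q a b c1 d1 = v ∧ NatD_Q a b c2 d2 = w ∧ NatD_S impC [c1, c2, c] ∧
        NatD_S impC [d1, d2, d]) ∨
      ∃ b' c1 d1, b' = 2 * b + 2 ∧ NatD_Q a b' c1 d1 = v ∧ NatD_S allC [c1, c] ∧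
        NatD_S allC [d1, d])

private theorem NatD_hb (e : ℕ → ℕ) : Sat NN renBase e ↔ NatD_B (e 0) := by
  simp only [renBase, NatD_B, NatD_Q, sat_exL_cons, sat_exL_nil, sat_andL, sat_orL,
    List.mem_cons, List.not_mem_nil, or_false, forall_eq_or_imp, forall_eq, exists_eq_or_imp,
    exists_eq_left, sat_and, sat_or, sat_zeroA, NatD_sap NatD_vmapF, NatD_sap NatD_eqC,
    NatD_sap NatD_zeroC, NatD_sap NatD_succC, NatD_sap NatD_addC, NatD_sap NatD_mulC,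
    List.length_cons, List.length_nil, List.map_cons, List.map_nil, sat_ap, sat_varF, sat_quadF,
    sat_num, Function.update_apply, List.getD_cons_zero, List.getD_cons_succ, ↓reduceIte,
    Nat.reduceEqDiff, OfNat.zero_ne_ofNat, Nat.reduceAdd]

private theorem NatD_hs (e : ℕ → ℕ) : Sat NN renStep e ↔ NatD_St (e 0) (e 1) (e 2) := by
  simp only [renStep, NatD_St, NatD_Q, sat_exL_cons, sat_exL_nil, sat_andL,
    List.mem_cons, List.not_mem_nil, or_false, forall_eq_or_imp, forall_eq,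
    sat_and, sat_or, NatD_sap NatD_impC, NatD_sap NatD_allC,
    List.length_cons, List.length_nil, List.map_cons, List.map_nil, sat_ap, sat_nextF, sat_quadF,
    Function.update_apply, List.getD_cons_zero, List.getD_cons_succ, ↓reduceIte,
    Nat.reduceEqDiff, OfNat.zero_ne_ofNat, Nat.reduceAdd, OfNat.one_ne_ofNat]

/-! ### The constructors -/

private theorem NatD_Svmap (p : Option ℕ) (d i y : ℕ) :
    NatD_S vmapF [ptk p, tk d, tk i, y] ↔ y = tk ((up^[d] (pren p)) i) :=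
  sat_vmapF _ p d i rfl rfl rfl
private theorem NatD_Seq (i j y : ℕ) : NatD_S eqC [tk i, tk j, y] ↔ y = cd (eq i j) :=
  sat_eqC _ i j rfl rfl
private theorem NatD_Szero (i y : ℕ) : NatD_S zeroC [tk i, y] ↔ y = cd (zeroA i) :=
  sat_zeroC _ i rfl
private theorem NatD_Ssucc (i j y : ℕ) : NatD_S succC [tk i, tk j, y] ↔ y = cd (succA i j) :=
  sat_succC _ i j rfl rfl
private theorem NatD_Sadd (i j k y : ℕ) :
    NatD_S addC [tk i, tk j, tk k, y] ↔ y = cd (addA i j k) := sat_addC _ i j k rfl rfl rfl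
private theorem NatD_Smul (i j k y : ℕ) :
    NatD_S mulC [tk i, tk j, tk k, y] ↔ y = cd (mulA i j k) := sat_mulC _ i j k rfl rfl rfl
private theorem NatD_Simp (φ ψ : AFm) (y : ℕ) :
    NatD_S impC [cd φ, cd ψ, y] ↔ y = cd (imp φ ψ) := sat_impC _ φ ψ rfl rfl
private theorem NatD_Sall (φ : AFm) (y : ℕ) :
    NatD_S allC [cd φ, y] ↔ y = cd (all φ) := sat_allC _ φ rfl

private theorem NatD_rn_zero (ρ : ℕ → ℕ) (i : ℕ) : rename ρ (zeroA i) = zeroA (ρ i) := by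
  refine congrArg (fun w => Fm.rel AR.zero w) ?_
  funext k
  fin_cases k
  rfl
private theorem NatD_rn_succ (ρ : ℕ → ℕ) (i j : ℕ) :
    rename ρ (succA i j) = succA (ρ i) (ρ j) := by
  refine congrArg (fun w => Fm.rel AR.succ w) ?_
  funext k
  fin_cases k <;> rfl
private theorem NatD_rn_add (ρ : ℕ → ℕ) (i j l : ℕ) :
    rename ρ (addA i j l) = addA (ρ i) (ρ j) (ρ l) := by
  refine congrArg (fun w => Fm.rel AR.add w) ?_
  funext k
  fin_cases k <;> rfl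
private theorem NatD_rn_mul (ρ : ℕ → ℕ) (i j l : ℕ) :
    rename ρ (mulA i j l) = mulA (ρ i) (ρ j) (ρ l) := by
  refine congrArg (fun w => Fm.rel AR.mul w) ?_
  funext k
  fin_cases k <;> rfl

/-- The entries of a member of the least set. -/
private theorem NatD_sound {u : ℕ} (h : Lfp NatD_B NatD_St u) :
    ∃ a b c c', u = NatD_Q a b c c' ∧ ∃ p, a = ptk p ∧ ∀ d, b = tk d →
      ∃ φ : AFm, c = cd φ ∧ c' = cd (rename (up^[d] (pren p)) φ) := by
  induction h with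
  | base h =>
    obtain ⟨a, b, c, c', hu, ha, hb, h⟩ := h
    have hp : ∃ p, a = ptk p := by
      rcases ha with ha | ⟨i, ha⟩
      · exact ⟨none, ha⟩
      · exact ⟨some i, ha⟩
    obtain ⟨p, rfl⟩ := hp
    refine ⟨_, b, c, c', hu.symm, p, rfl, ?_⟩
    rintro d rfl
    rcases h with ⟨rfl, rfl⟩ | ⟨x, y, z, x', y', z', ⟨i, rfl⟩, ⟨j, rfl⟩, ⟨k, rfl⟩, hx, hy, hz, h⟩
    · exact ⟨bot, cd_bot.symm, cd_bot.symm⟩
    · rw [NatD_Svmap] at hx hy hz
      subst hx hy hz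
      rcases h with ⟨h1, h2⟩ | ⟨h1, h2⟩ | ⟨h1, h2⟩ | ⟨h1, h2⟩ | ⟨h1, h2⟩
      · rw [NatD_Seq] at h1 h2
        exact ⟨_, h1, h2⟩
      · rw [NatD_Szero] at h1 h2
        exact ⟨_, h1, by rw [NatD_rn_zero]; exact h2⟩
      · rw [NatD_Ssucc] at h1 h2
        exact ⟨_, h1, by rw [NatD_rn_succ]; exact h2⟩
      · rw [NatD_Sadd] at h1 h2
        exact ⟨_, h1, by rw [NatD_rn_add]; exact h2⟩
      · rw [NatD_Smul] at h1 h2
        exact ⟨_, h1, by rw [NatD_rn_mul]; exact h2⟩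
  | step h _ _ ih1 ih2 =>
    obtain ⟨a1, b1, x1, x1', e1, p, rfl, g1⟩ := ih1
    obtain ⟨a2, b2, x2, x2', e2, p2, rfl, g2⟩ := ih2
    obtain ⟨a, b, c, c', hu, h⟩ := h
    rcases h with ⟨c1, d1, c2, d2, hy, hz, h1, h2⟩ | ⟨b', c1, d1, hb', hy, h1, h2⟩
    · rw [e1, NatD_Q_inj] at hy
      rw [e2, NatD_Q_inj] at hz
      obtain ⟨rfl, rfl, rfl, rfl⟩ := hy
      obtain ⟨ep, rfl, rfl, rfl⟩ := hz
      have ep := ptk_inj ep
      subst ep
      refine ⟨_, _, c, c', hu.symm, p, rfl, ?_⟩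
      intro d hd
      obtain ⟨φ, hφ, hφ'⟩ := g1 d hd
      obtain ⟨ψ, hψ, hψ'⟩ := g2 d hd
      subst hφ hφ' hψ hψ'
      rw [NatD_Simp] at h1 h2
      exact ⟨_, h1, h2⟩
    · rw [e1, NatD_Q_inj] at hy
      obtain ⟨rfl, rfl, rfl, rfl⟩ := hy
      refine ⟨_, _, c, c', hu.symm, p, rfl, ?_⟩
      intro d hd
      subst hd
      obtain ⟨φ, hφ, hφ'⟩ := g1 (d + 1) (by rw [hb', next_tk])
      subst hφ hφ'
      rw [NatD_Sall] at h1 h2
      refine ⟨_, h1, ?_⟩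
      rw [h2, rename, Function.iterate_succ_apply']

private theorem NatD_var (p : Option ℕ) : ptk p = 0 ∨ ∃ i, ptk p = tk i := by
  cases p with
  | none => exact Or.inl rfl
  | some i => exact Or.inr ⟨i, rfl⟩

private theorem NatD_complete (p : Option ℕ) (φ : AFm) (d : ℕ) :
    Lfp NatD_B NatD_St (NatD_Q (ptk p) (tk d) (cd φ) (cd (rename (up^[d] (pren p)) φ))) := by
  induction φ generalizing d with
  | bot =>
    exact .base ⟨_, _, _, _, rfl, NatD_var p, ⟨d, rfl⟩, Or.inl ⟨cd_bot, cd_bot⟩⟩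
  | eq i j =>
    exact .base ⟨_, _, _, _, rfl, NatD_var p, ⟨d, rfl⟩, Or.inr ⟨tk i, tk j, tk 0, _, _, _,
      ⟨_, rfl⟩, ⟨_, rfl⟩, ⟨_, rfl⟩, (NatD_Svmap p d i _).2 rfl, (NatD_Svmap p d j _).2 rfl,
      (NatD_Svmap p d 0 _).2 rfl, Or.inl ⟨(NatD_Seq _ _ _).2 rfl, (NatD_Seq _ _ _).2 rfl⟩⟩⟩
  | rel r v =>
    cases r
    · have hv : Fm.rel AR.zero v = zeroA (v (0 : Fin 1)) := by
        refine congrArg (fun w => Fm.rel AR.zero w) ?_
        funext k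
        fin_cases k
        rfl
      rw [hv, NatD_rn_zero]
      exact .base ⟨_, _, _, _, rfl, NatD_var p, ⟨d, rfl⟩, Or.inr ⟨tk (v (0 : Fin 1)), tk 0, tk 0,
        _, _, _, ⟨_, rfl⟩, ⟨_, rfl⟩, ⟨_, rfl⟩, (NatD_Svmap p d _ _).2 rfl,
        (NatD_Svmap p d 0 _).2 rfl, (NatD_Svmap p d 0 _).2 rfl,
        Or.inr (Or.inl ⟨(NatD_Szero _ _).2 rfl, (NatD_Szero _ _).2 rfl⟩)⟩⟩
    · have hv : Fm.rel AR.succ v = succA (v (0 : Fin 2)) (v (1 : Fin 2)) := by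
        refine congrArg (fun w => Fm.rel AR.succ w) ?_
        funext k
        fin_cases k <;> rfl
      rw [hv, NatD_rn_succ]
      exact .base ⟨_, _, _, _, rfl, NatD_var p, ⟨d, rfl⟩, Or.inr ⟨tk (v (0 : Fin 2)),
        tk (v (1 : Fin 2)), tk 0,
        _, _, _, ⟨_, rfl⟩, ⟨_, rfl⟩, ⟨_, rfl⟩, (NatD_Svmap p d _ _).2 rfl,
        (NatD_Svmap p d _ _).2 rfl, (NatD_Svmap p d 0 _).2 rfl,
        Or.inr (Or.inr (Or.inl ⟨(NatD_Ssucc _ _ _).2 rfl, (NatD_Ssucc _ _ _).2 rfl⟩))⟩⟩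
    · have hv : Fm.rel AR.add v = addA (v (0 : Fin 3)) (v (1 : Fin 3)) (v (2 : Fin 3)) := by
        refine congrArg (fun w => Fm.rel AR.add w) ?_
        funext k
        fin_cases k <;> rfl
      rw [hv, NatD_rn_add]
      exact .base ⟨_, _, _, _, rfl, NatD_var p, ⟨d, rfl⟩, Or.inr ⟨tk (v (0 : Fin 3)),
        tk (v (1 : Fin 3)), tk (v (2 : Fin 3)),
        _, _, _, ⟨_, rfl⟩, ⟨_, rfl⟩, ⟨_, rfl⟩, (NatD_Svmap p d _ _).2 rfl,
        (NatD_Svmap p d _ _).2 rfl, (NatD_Svmap p d _ _).2 rfl,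
        Or.inr (Or.inr (Or.inr (Or.inl ⟨(NatD_Sadd _ _ _ _).2 rfl,
          (NatD_Sadd _ _ _ _).2 rfl⟩)))⟩⟩
    · have hv : Fm.rel AR.mul v = mulA (v (0 : Fin 3)) (v (1 : Fin 3)) (v (2 : Fin 3)) := by
        refine congrArg (fun w => Fm.rel AR.mul w) ?_
        funext k
        fin_cases k <;> rfl
      rw [hv, NatD_rn_mul]
      exact .base ⟨_, _, _, _, rfl, NatD_var p, ⟨d, rfl⟩, Or.inr ⟨tk (v (0 : Fin 3)),
        tk (v (1 : Fin 3)), tk (v (2 : Fin 3)),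
        _, _, _, ⟨_, rfl⟩, ⟨_, rfl⟩, ⟨_, rfl⟩, (NatD_Svmap p d _ _).2 rfl,
        (NatD_Svmap p d _ _).2 rfl, (NatD_Svmap p d _ _).2 rfl,
        Or.inr (Or.inr (Or.inr (Or.inr ⟨(NatD_Smul _ _ _ _).2 rfl,
          (NatD_Smul _ _ _ _).2 rfl⟩)))⟩⟩
  | imp φ ψ h1 h2 =>
    exact .step ⟨_, _, _, _, rfl, Or.inl ⟨_, _, _, _, rfl, rfl, (NatD_Simp φ ψ _).2 rfl,
      (NatD_Simp _ _ _).2 rfl⟩⟩ (h1 d) (h2 d)
  | all φ ih =>
    have h := ih (d + 1)
    rw [Function.iterate_succ_apply', next_tk] at h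
    exact Lfp.step (y := NatD_Q (ptk p) (2 * tk d + 2) (cd φ)
        (cd (rename (up (up^[d] (pren p))) φ)))
      (z := NatD_Q (ptk p) (2 * tk d + 2) (cd φ) (cd (rename (up (up^[d] (pren p))) φ)))
      ⟨_, _, _, _, rfl, Or.inr ⟨_, _, _, rfl, rfl, (NatD_Sall φ _).2 rfl,
        (NatD_Sall _ _).2 rfl⟩⟩ h h

theorem sat_renF (e : ℕ → ℕ) : Sat NN renF e ↔ ∃ (p : Option ℕ) (d : ℕ) (φ : AFm),
    e 0 = ptk p ∧ e 1 = tk d ∧ e 2 = cd φ ∧ e 3 = cd (rename (up^[d] (pren p)) φ) := by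
  have key : Sat NN renF e ↔ (∃ d, e 1 = tk d) ∧
      Lfp NatD_B NatD_St (NatD_Q (e 0) (e 1) (e 2) (e 3)) := by
    simp only [renF, sat_exL_cons, sat_exL_nil, sat_andL, List.mem_cons, List.not_mem_nil,
      or_false, forall_eq_or_imp, forall_eq, sat_ap, sat_varF, sat_quadF,
      sat_lfpF NatD_hb NatD_hs, Function.update_apply, List.getD_cons_zero,
      List.getD_cons_succ, ↓reduceIte, Nat.reduceEqDiff, OfNat.ofNat_ne_zero,
      OfNat.zero_ne_ofNat, Nat.reduceAdd, OfNat.ofNat_ne_one, OfNat.one_ne_ofNat]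
    constructor
    · rintro ⟨u, hd, hu, h⟩
      exact ⟨hd, by rw [NatD_Q, hu]; exact h⟩
    · rintro ⟨hd, h⟩
      exact ⟨_, hd, rfl, h⟩
  rw [key]
  constructor
  · rintro ⟨⟨d, hd⟩, h⟩
    obtain ⟨a, b, c, c', hu, p, hp, hφ⟩ := NatD_sound h
    rw [NatD_Q_inj] at hu
    obtain ⟨h0, h1, h2, h3⟩ := hu
    obtain ⟨φ, hc, hc'⟩ := hφ d (h1.symm.trans hd)
    exact ⟨p, d, φ, h0.trans hp, hd, h2.trans hc, h3.trans hc'⟩
  · rintro ⟨p, d, φ, h0, h1, h2, h3⟩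
    rw [h0, h1, h2, h3]
    exact ⟨⟨d, rfl⟩, NatD_complete p φ d⟩

theorem sat_liftF (e : ℕ → ℕ) :
    Sat NN liftF e ↔ ∃ φ : AFm, e 0 = cd φ ∧ e 1 = cd (rename Nat.succ φ) := by
  simp only [liftF, sat_exL_cons, sat_exL_nil, sat_andL, List.mem_cons, List.not_mem_nil,
    or_false, forall_eq_or_imp, forall_eq, sat_ap, sat_zeroA, sat_num, sat_renF,
    Function.update_apply, List.getD_cons_zero, List.getD_cons_succ, ↓reduceIte,
    Nat.reduceEqDiff, OfNat.ofNat_ne_zero, OfNat.zero_ne_ofNat, Nat.reduceAdd,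
    OfNat.ofNat_ne_one, OfNat.one_ne_ofNat]
  constructor
  · rintro ⟨a, b, ha, hb, p, d, φ, h0, h1, h2, h3⟩
    have hp : p = none := ptk_inj (h0.symm.trans ha)
    have hd : d = 0 := tk_inj (h1.symm.trans hb)
    subst hp hd
    exact ⟨φ, h2, h3⟩
  · rintro ⟨φ, h0, h1⟩
    exact ⟨0, 6, rfl, rfl, none, 0, φ, rfl, rfl, h0, h1⟩

theorem sat_instF (e : ℕ → ℕ) : Sat NN instF e ↔ ∃ (j : ℕ) (φ : AFm),
    e 0 = tk j ∧ e 1 = cd φ ∧ e 2 = cd (rename (instMap j) φ) := by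
  simp only [instF, sat_exL_cons, sat_exL_nil, sat_andL, List.mem_cons, List.not_mem_nil,
    or_false, forall_eq_or_imp, forall_eq, sat_ap, sat_varF, sat_num, sat_renF,
    Function.update_apply, List.getD_cons_zero, List.getD_cons_succ, ↓reduceIte,
    Nat.reduceEqDiff, OfNat.ofNat_ne_zero, OfNat.zero_ne_ofNat, Nat.reduceAdd,
    OfNat.ofNat_ne_one, OfNat.one_ne_ofNat]
  constructor
  · rintro ⟨b, ⟨j, hj⟩, hb, p, d, φ, h0, h1, h2, h3⟩
    have hp : p = some j := ptk_inj (h0.symm.trans hj)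
    have hd : d = 0 := tk_inj (h1.symm.trans hb)
    subst hp hd
    exact ⟨j, φ, hj, h2, h3⟩
  · rintro ⟨j, φ, h0, h1, h2⟩
    exact ⟨6, ⟨j, h0⟩, rfl, some j, 0, φ, h0, rfl, h1, h2⟩

theorem sat_formF (e : ℕ → ℕ) : Sat NN formF e ↔ ∃ φ : AFm, e 0 = cd φ := by
  simp only [formF, sat_exL_cons, sat_exL_nil, sat_ap, sat_liftF,
    Function.update_apply, List.getD_cons_zero, List.getD_cons_succ, ↓reduceIte,
    Nat.reduceEqDiff, OfNat.ofNat_ne_zero, OfNat.zero_ne_ofNat, Nat.reduceAdd]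
  constructor
  · rintro ⟨a, φ, h0, h1⟩
    exact ⟨φ, h0⟩
  · rintro ⟨φ, h0⟩
    exact ⟨_, φ, h0, rfl⟩

end Pool.Agent.Myc
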