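import Pool.Agent.Myc.NatD

set_option autoImplicit false
set_option linter.unusedSimpArgs false

namespace Pool.Agent.Myc

open Fm

section NatEAux

variable {M : Type} (S : Str AR arA M)

theorem NatE_andL2 (φ ψ : AFm) (e : ℕ → M) :
    Sat S (andL [φ, ψ]) e ↔ Sat S φ e ∧ Sat S ψ e := by simp [sat_andL]
theorem NatE_andL3 (φ ψ χ : AFm) (e : ℕ → M) :
    Sat S (andL [φ, ψ, χ]) e ↔ Sat S φ e ∧ Sat S ψ e ∧ Sat S χ e := by simp [sat_andL]
theorem NatE_andL4 (φ ψ χ θ : AFm) (e : ℕ → M) :
    Sat S (andL [φ, ψ, χ, θ]) e ↔ Sat S φ e ∧ Sat S ψ e ∧ Sat S χ e ∧ Sat S θ e := by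
  simp [sat_andL]
theorem NatE_andL5 (φ ψ χ θ τ : AFm) (e : ℕ → M) :
    Sat S (andL [φ, ψ, χ, θ, τ]) e ↔
      Sat S φ e ∧ Sat S ψ e ∧ Sat S χ e ∧ Sat S θ e ∧ Sat S τ e := by
  simp [sat_andL]
theorem NatE_andL6 (φ ψ χ θ τ ρ : AFm) (e : ℕ → M) :
    Sat S (andL [φ, ψ, χ, θ, τ, ρ]) e ↔
      Sat S φ e ∧ Sat S ψ e ∧ Sat S χ e ∧ Sat S θ e ∧ Sat S τ e ∧ Sat S ρ e := by
  simp [sat_andL]

theorem NatE_form (e : ℕ → ℕ) (x : ℕ) :
    Sat NN (ap formF [x]) e ↔ ∃ φ : AFm, e x = cd φ := by
  rw [sat_ap, sat_formF]; rfl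
theorem NatE_imp {e : ℕ → ℕ} {x y z : ℕ} {φ ψ : AFm} (hx : e x = cd φ) (hy : e y = cd ψ) :
    Sat NN (ap impC [x, y, z]) e ↔ e z = cd (imp φ ψ) := by
  rw [sat_ap]; exact sat_impC _ φ ψ hx hy
theorem NatE_all {e : ℕ → ℕ} {x y : ℕ} {φ : AFm} (hx : e x = cd φ) :
    Sat NN (ap allC [x, y]) e ↔ e y = cd (all φ) := by
  rw [sat_ap]; exact sat_allC _ φ hx
theorem NatE_neg {e : ℕ → ℕ} {x y : ℕ} {φ : AFm} (hx : e x = cd φ) :
    Sat NN (ap negC [x, y]) e ↔ e y = cd (neg φ) := by
  rw [sat_ap]; exact sat_negC _ φ hx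
theorem NatE_eqv {e : ℕ → ℕ} {x y z : ℕ} {i j : ℕ} (hx : e x = tk i) (hy : e y = tk j) :
    Sat NN (ap eqC [x, y, z]) e ↔ e z = cd (eq i j) := by
  rw [sat_ap]; exact sat_eqC _ i j hx hy
theorem NatE_var (e : ℕ → ℕ) (x : ℕ) :
    Sat NN (ap varF [x]) e ↔ ∃ i, e x = tk i := by
  rw [sat_ap, sat_varF]; rfl
theorem NatE_lift (e : ℕ → ℕ) (x y : ℕ) :
    Sat NN (ap liftF [x, y]) e ↔ ∃ φ : AFm, e x = cd φ ∧ e y = cd (rename Nat.succ φ) := by
  rw [sat_ap, sat_liftF]; rfl
theorem NatE_inst (e : ℕ → ℕ) (x y z : ℕ) :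
    Sat NN (ap instF [x, y, z]) e ↔ ∃ (j : ℕ) (φ : AFm),
      e x = tk j ∧ e y = cd φ ∧ e z = cd (rename (instMap j) φ) := by
  rw [sat_ap, sat_instF]; rfl
theorem NatE_conc (e : ℕ → ℕ) (x y z : ℕ) :
    Sat NN (ap concF [x, y, z]) e ↔ Cc (e x) (e y) (e z) := by
  rw [sat_ap, sat_concF]; rfl

theorem NatE_up (e : ℕ → ℕ) (x y a : ℕ) (h : y ≠ x) : Function.update e x a y = e y :=
  Function.update_of_ne h _ _

end NatEAux

section NatELog

variable {e : ℕ → ℕ} {φ ψ χ : AFm}

theorem NatE_k (h10 : e 10 = cd φ) (h11 : e 11 = cd ψ) :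
    Sat NN (exL [13] (andL [ap impC [11, 10, 13], ap impC [10, 13, 0]])) e ↔
      e 0 = cd (imp φ (imp ψ φ)) := by
  simp only [sat_exL_cons, sat_exL_nil, NatE_andL2]
  constructor
  · rintro ⟨a, h1, h2⟩
    rw [NatE_imp (φ := ψ) (ψ := φ) (by simp [Function.update_apply, h11])
      (by simp [Function.update_apply, h10])] at h1
    rw [NatE_imp (φ := φ) (ψ := imp ψ φ) (by simp [Function.update_apply, h10]) h1] at h2
    simpa [Function.update_apply] using h2
  · intro h
    refine ⟨cd (imp ψ φ), ?_, ?_⟩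
    · rw [NatE_imp (φ := ψ) (ψ := φ) (by simp [Function.update_apply, h11])
        (by simp [Function.update_apply, h10])]
      simp [Function.update_apply]
    · rw [NatE_imp (φ := φ) (ψ := imp ψ φ) (by simp [Function.update_apply, h10])
        (by simp [Function.update_apply])]
      simp [Function.update_apply, h]

theorem NatE_s (h10 : e 10 = cd φ) (h11 : e 11 = cd ψ) (h12 : e 12 = cd χ) :
    Sat NN (exL [13, 14, 15, 16, 17] (andL [ap impC [11, 12, 13], ap impC [10, 13, 14],
        ap impC [10, 11, 15], ap impC [10, 12, 16], ap impC [15, 16, 17],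
        ap impC [14, 17, 0]])) e ↔
      e 0 = cd (imp (imp φ (imp ψ χ)) (imp (imp φ ψ) (imp φ χ))) := by
  simp only [sat_exL_cons, sat_exL_nil, NatE_andL6]
  constructor
  · rintro ⟨a, b, c, d, f, h1, h2, h3, h4, h5, h6⟩
    rw [NatE_imp (φ := ψ) (ψ := χ) (by simp [Function.update_apply, h11])
      (by simp [Function.update_apply, h12])] at h1
    rw [NatE_imp (φ := φ) (ψ := imp ψ χ) (by simp [Function.update_apply, h10]) h1] at h2
    rw [NatE_imp (φ := φ) (ψ := ψ) (by simp [Function.update_apply, h10])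
      (by simp [Function.update_apply, h11])] at h3
    rw [NatE_imp (φ := φ) (ψ := χ) (by simp [Function.update_apply, h10])
      (by simp [Function.update_apply, h12])] at h4
    rw [NatE_imp h3 h4] at h5
    rw [NatE_imp h2 h5] at h6
    simpa [Function.update_apply] using h6
  · intro h
    refine ⟨cd (imp ψ χ), cd (imp φ (imp ψ χ)), cd (imp φ ψ), cd (imp φ χ),
      cd (imp (imp φ ψ) (imp φ χ)), ?_, ?_, ?_, ?_, ?_, ?_⟩
    · rw [NatE_imp (φ := ψ) (ψ := χ) (by simp [Function.update_apply, h11])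
        (by simp [Function.update_apply, h12])]
      simp [Function.update_apply]
    · rw [NatE_imp (φ := φ) (ψ := imp ψ χ) (by simp [Function.update_apply, h10])
        (by simp [Function.update_apply])]
      simp [Function.update_apply]
    · rw [NatE_imp (φ := φ) (ψ := ψ) (by simp [Function.update_apply, h10])
        (by simp [Function.update_apply, h11])]
      simp [Function.update_apply]
    · rw [NatE_imp (φ := φ) (ψ := χ) (by simp [Function.update_apply, h10])
        (by simp [Function.update_apply, h12])]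
      simp [Function.update_apply]
    · rw [NatE_imp (φ := imp φ ψ) (ψ := imp φ χ) (by simp [Function.update_apply])
        (by simp [Function.update_apply])]
      simp [Function.update_apply]
    · rw [NatE_imp (φ := imp φ (imp ψ χ)) (ψ := imp (imp φ ψ) (imp φ χ))
        (by simp [Function.update_apply]) (by simp [Function.update_apply])]
      simp [Function.update_apply, h]

theorem NatE_dn (h10 : e 10 = cd φ) :
    Sat NN (exL [13, 14] (andL [ap negC [10, 13], ap negC [13, 14], ap impC [14, 10, 0]])) e ↔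
      e 0 = cd (imp (neg (neg φ)) φ) := by
  simp only [sat_exL_cons, sat_exL_nil, NatE_andL3]
  constructor
  · rintro ⟨a, b, h1, h2, h3⟩
    rw [NatE_neg (φ := φ) (by simp [Function.update_apply, h10])] at h1
    rw [NatE_neg h1] at h2
    rw [NatE_imp (ψ := φ) h2 (by simp [Function.update_apply, h10])] at h3
    simpa [Function.update_apply] using h3
  · intro h
    refine ⟨cd (neg φ), cd (neg (neg φ)), ?_, ?_, ?_⟩
    · rw [NatE_neg (φ := φ) (by simp [Function.update_apply, h10])]
      simp [Function.update_apply]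
    · rw [NatE_neg (φ := neg φ) (by simp [Function.update_apply])]
      simp [Function.update_apply]
    · rw [NatE_imp (φ := neg (neg φ)) (ψ := φ) (by simp [Function.update_apply])
        (by simp [Function.update_apply, h10])]
      simp [Function.update_apply, h]

theorem NatE_ins (h10 : e 10 = cd φ) :
    Sat NN (exL [13, 14, 15] (andL [ap instF [13, 10, 14], ap allC [10, 15],
      ap impC [15, 14, 0]])) e ↔
      ∃ j, e 0 = cd (imp (all φ) (rename (instMap j) φ)) := by
  simp only [sat_exL_cons, sat_exL_nil, NatE_andL3]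
  constructor
  · rintro ⟨a, b, c, h1, h2, h3⟩
    rw [NatE_inst] at h1
    obtain ⟨j, φ', h1, h1', h1''⟩ := h1
    have hφ : φ' = φ := cd_inj (by rw [← h1', ← h10]; simp [Function.update_apply])
    subst hφ
    rw [NatE_all (φ := φ') (by simp [Function.update_apply, h10])] at h2
    rw [NatE_imp h2 h1''] at h3
    exact ⟨j, by simpa [Function.update_apply] using h3⟩
  · rintro ⟨j, h⟩
    refine ⟨tk j, cd (rename (instMap j) φ), cd (all φ), ?_, ?_, ?_⟩
    · rw [NatE_inst]
      exact ⟨j, φ, by simp [Function.update_apply], by simp [Function.update_apply, h10],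
        by simp [Function.update_apply]⟩
    · rw [NatE_all (φ := φ) (by simp [Function.update_apply, h10])]
      simp [Function.update_apply]
    · rw [NatE_imp (φ := all φ) (ψ := rename (instMap j) φ) (by simp [Function.update_apply])
        (by simp [Function.update_apply])]
      simp [Function.update_apply, h]

theorem NatE_dist (h10 : e 10 = cd φ) (h11 : e 11 = cd ψ) :
    Sat NN (exL [13, 14, 15, 16, 17] (andL [ap impC [10, 11, 13], ap allC [13, 14],
        ap allC [10, 15], ap allC [11, 16], ap impC [15, 16, 17], ap impC [14, 17, 0]])) e ↔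
      e 0 = cd (imp (all (imp φ ψ)) (imp (all φ) (all ψ))) := by
  simp only [sat_exL_cons, sat_exL_nil, NatE_andL6]
  constructor
  · rintro ⟨a, b, c, d, f, h1, h2, h3, h4, h5, h6⟩
    rw [NatE_imp (φ := φ) (ψ := ψ) (by simp [Function.update_apply, h10])
      (by simp [Function.update_apply, h11])] at h1
    rw [NatE_all h1] at h2
    rw [NatE_all (φ := φ) (by simp [Function.update_apply, h10])] at h3
    rw [NatE_all (φ := ψ) (by simp [Function.update_apply, h11])] at h4
    rw [NatE_imp h3 h4] at h5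
    rw [NatE_imp h2 h5] at h6
    simpa [Function.update_apply] using h6
  · intro h
    refine ⟨cd (imp φ ψ), cd (all (imp φ ψ)), cd (all φ), cd (all ψ),
      cd (imp (all φ) (all ψ)), ?_, ?_, ?_, ?_, ?_, ?_⟩
    · rw [NatE_imp (φ := φ) (ψ := ψ) (by simp [Function.update_apply, h10])
        (by simp [Function.update_apply, h11])]
      simp [Function.update_apply]
    · rw [NatE_all (φ := imp φ ψ) (by simp [Function.update_apply])]
      simp [Function.update_apply]
    · rw [NatE_all (φ := φ) (by simp [Function.update_apply, h10])]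
      simp [Function.update_apply]
    · rw [NatE_all (φ := ψ) (by simp [Function.update_apply, h11])]
      simp [Function.update_apply]
    · rw [NatE_imp (φ := all φ) (ψ := all ψ) (by simp [Function.update_apply])
        (by simp [Function.update_apply])]
      simp [Function.update_apply]
    · rw [NatE_imp (φ := all (imp φ ψ)) (ψ := imp (all φ) (all ψ))
        (by simp [Function.update_apply]) (by simp [Function.update_apply])]
      simp [Function.update_apply, h]

theorem NatE_vac (h10 : e 10 = cd φ) :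
    Sat NN (exL [13, 14] (andL [ap liftF [10, 13], ap allC [13, 14], ap impC [10, 14, 0]])) e ↔
      e 0 = cd (imp φ (all (rename Nat.succ φ))) := by
  simp only [sat_exL_cons, sat_exL_nil, NatE_andL3]
  constructor
  · rintro ⟨a, b, h1, h2, h3⟩
    rw [NatE_lift] at h1
    obtain ⟨φ', h1, h1'⟩ := h1
    have hφ : φ' = φ := cd_inj (by rw [← h1, ← h10]; simp [Function.update_apply])
    subst hφ
    rw [NatE_all h1'] at h2
    rw [NatE_imp h1 h2] at h3
    simpa [Function.update_apply] using h3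
  · intro h
    refine ⟨cd (rename Nat.succ φ), cd (all (rename Nat.succ φ)), ?_, ?_, ?_⟩
    · rw [NatE_lift]
      exact ⟨φ, by simp [Function.update_apply, h10], by simp [Function.update_apply]⟩
    · rw [NatE_all (φ := rename Nat.succ φ) (by simp [Function.update_apply])]
      simp [Function.update_apply]
    · rw [NatE_imp (φ := φ) (ψ := all (rename Nat.succ φ)) (by simp [Function.update_apply, h10])
        (by simp [Function.update_apply])]
      simp [Function.update_apply, h]

theorem NatE_refl :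
    Sat NN (exL [13] (andL [ap varF [13], ap eqC [13, 13, 0]])) e ↔
      ∃ i, e 0 = cd (eq i i) := by
  simp only [sat_exL_cons, sat_exL_nil, NatE_andL2]
  constructor
  · rintro ⟨a, h1, h2⟩
    rw [NatE_var] at h1
    obtain ⟨i, h1⟩ := h1
    rw [NatE_eqv h1 h1] at h2
    exact ⟨i, by simpa [Function.update_apply] using h2⟩
  · rintro ⟨i, h⟩
    refine ⟨tk i, ?_, ?_⟩
    · rw [NatE_var]
      exact ⟨i, by simp [Function.update_apply]⟩
    · rw [NatE_eqv (i := i) (j := i) (by simp [Function.update_apply])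
        (by simp [Function.update_apply])]
      simp [Function.update_apply, h]

theorem NatE_leib (h10 : e 10 = cd φ) :
    Sat NN (exL [13, 14, 15, 16, 17, 18] (andL [ap instF [13, 10, 15], ap instF [14, 10, 16],
        ap eqC [13, 14, 17], ap impC [15, 16, 18], ap impC [17, 18, 0]])) e ↔
      ∃ i j, e 0 = cd (imp (eq i j) (imp (rename (instMap i) φ) (rename (instMap j) φ))) := by
  simp only [sat_exL_cons, sat_exL_nil, NatE_andL5]
  constructor
  · rintro ⟨a, b, c, d, f, g, h1, h2, h3, h4, h5⟩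
    rw [NatE_inst] at h1 h2
    obtain ⟨i, φ', h1, h1', h1''⟩ := h1
    obtain ⟨j, φ'', h2, h2', h2''⟩ := h2
    have hφ : φ' = φ := cd_inj (by rw [← h1', ← h10]; simp [Function.update_apply])
    have hφ' : φ'' = φ := cd_inj (by rw [← h2', ← h10]; simp [Function.update_apply])
    subst hφ
    subst hφ'
    rw [NatE_eqv h1 h2] at h3
    rw [NatE_imp h1'' h2''] at h4
    rw [NatE_imp h3 h4] at h5
    exact ⟨i, j, by simpa [Function.update_apply] using h5⟩
  · rintro ⟨i, j, h⟩
    refine ⟨tk i, tk j, cd (rename (instMap i) φ), cd (rename (instMap j) φ), cd (eq i j),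
      cd (imp (rename (instMap i) φ) (rename (instMap j) φ)), ?_, ?_, ?_, ?_, ?_⟩
    · rw [NatE_inst]
      exact ⟨i, φ, by simp [Function.update_apply], by simp [Function.update_apply, h10],
        by simp [Function.update_apply]⟩
    · rw [NatE_inst]
      exact ⟨j, φ, by simp [Function.update_apply], by simp [Function.update_apply, h10],
        by simp [Function.update_apply]⟩
    · rw [NatE_eqv (i := i) (j := j) (by simp [Function.update_apply])
        (by simp [Function.update_apply])]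
      simp [Function.update_apply]
    · rw [NatE_imp (φ := rename (instMap i) φ) (ψ := rename (instMap j) φ)
        (by simp [Function.update_apply]) (by simp [Function.update_apply])]
      simp [Function.update_apply]
    · rw [NatE_imp (φ := eq i j) (ψ := imp (rename (instMap i) φ) (rename (instMap j) φ))
        (by simp [Function.update_apply]) (by simp [Function.update_apply])]
      simp [Function.update_apply, h]

end NatELog

theorem sat_logAxF (e : ℕ → ℕ) : Sat NN logAxF e ↔ ∃ φ : AFm, LogAx φ ∧ e 0 = cd φ := by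
  have key : ∀ (a b c : ℕ) (φ ψ χ : AFm) (hφ : a = cd φ) (hψ : b = cd ψ) (hχ : c = cd χ),
      (Sat NN (orL [
      exL [13] (andL [ap impC [11, 10, 13], ap impC [10, 13, 0]]),
      exL [13, 14, 15, 16, 17] (andL [ap impC [11, 12, 13], ap impC [10, 13, 14],
        ap impC [10, 11, 15], ap impC [10, 12, 16], ap impC [15, 16, 17], ap impC [14, 17, 0]]),
      exL [13, 14] (andL [ap negC [10, 13], ap negC [13, 14], ap impC [14, 10, 0]]),
      exL [13, 14, 15] (andL [ap instF [13, 10, 14], ap allC [10, 15], ap impC [15, 14, 0]]),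
      exL [13, 14, 15, 16, 17] (andL [ap impC [10, 11, 13], ap allC [13, 14], ap allC [10, 15],
        ap allC [11, 16], ap impC [15, 16, 17], ap impC [14, 17, 0]]),
      exL [13, 14] (andL [ap liftF [10, 13], ap allC [13, 14], ap impC [10, 14, 0]]),
      exL [13] (andL [ap varF [13], ap eqC [13, 13, 0]]),
      exL [13, 14, 15, 16, 17, 18] (andL [ap instF [13, 10, 15], ap instF [14, 10, 16],
        ap eqC [13, 14, 17], ap impC [15, 16, 18], ap impC [17, 18, 0]])])
        (Function.update (Function.update (Function.update e 10 a) 11 b) 12 c) ↔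
        (e 0 = cd (imp φ (imp ψ φ)) ∨
         e 0 = cd (imp (imp φ (imp ψ χ)) (imp (imp φ ψ) (imp φ χ))) ∨
         e 0 = cd (imp (neg (neg φ)) φ) ∨
         (∃ j, e 0 = cd (imp (all φ) (rename (instMap j) φ))) ∨
         e 0 = cd (imp (all (imp φ ψ)) (imp (all φ) (all ψ))) ∨
         e 0 = cd (imp φ (all (rename Nat.succ φ))) ∨
         (∃ i, e 0 = cd (eq i i)) ∨
         (∃ i j, e 0 = cd (imp (eq i j)
           (imp (rename (instMap i) φ) (rename (instMap j) φ)))))) := by
    intro a b c φ ψ χ hφ hψ hχ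
    set e' := Function.update (Function.update (Function.update e 10 a) 11 b) 12 c with he'
    have h10 : e' 10 = cd φ := by simp [he', Function.update_apply, hφ]
    have h11 : e' 11 = cd ψ := by simp [he', Function.update_apply, hψ]
    have h12 : e' 12 = cd χ := by simp [he', hχ]
    have h0 : e' 0 = e 0 := by simp [he', Function.update_apply]
    rw [sat_orL]
    simp only [List.mem_cons, List.not_mem_nil, or_false, exists_eq_or_imp, exists_eq_left,
      NatE_k h10 h11, NatE_s h10 h11 h12, NatE_dn h10, NatE_ins h10, NatE_dist h10 h11,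
      NatE_vac h10, NatE_refl, NatE_leib h10, h0]
  unfold logAxF
  simp only [sat_exL_cons, sat_exL_nil, NatE_andL4]
  constructor
  · rintro ⟨a, b, c, h1, h2, h3, h4⟩
    rw [NatE_form] at h1 h2 h3
    obtain ⟨φ, h1⟩ := h1
    obtain ⟨ψ, h2⟩ := h2
    obtain ⟨χ, h3⟩ := h3
    rw [key a b c φ ψ χ (by simpa [Function.update_apply] using h1)
      (by simpa [Function.update_apply] using h2) (by simpa using h3)] at h4
    rcases h4 with h4 | h4 | h4 | ⟨j, h4⟩ | h4 | h4 | ⟨i, h4⟩ | ⟨i, j, h4⟩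
    · exact ⟨_, LogAx.k φ ψ, h4⟩
    · exact ⟨_, LogAx.s φ ψ χ, h4⟩
    · exact ⟨_, LogAx.dn φ, h4⟩
    · exact ⟨_, LogAx.inst j φ, h4⟩
    · exact ⟨_, LogAx.dist φ ψ, h4⟩
    · exact ⟨_, LogAx.vac φ, h4⟩
    · exact ⟨_, LogAx.refl i, h4⟩
    · exact ⟨_, LogAx.leib i j φ, h4⟩
  · rintro ⟨θ, hθ, h⟩
    suffices hh : ∃ φ ψ χ : AFm, (e 0 = cd (imp φ (imp ψ φ)) ∨
         e 0 = cd (imp (imp φ (imp ψ χ)) (imp (imp φ ψ) (imp φ χ))) ∨
         e 0 = cd (imp (neg (neg φ)) φ) ∨
         (∃ j, e 0 = cd (imp (all φ) (rename (instMap j) φ))) ∨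
         e 0 = cd (imp (all (imp φ ψ)) (imp (all φ) (all ψ))) ∨
         e 0 = cd (imp φ (all (rename Nat.succ φ))) ∨
         (∃ i, e 0 = cd (eq i i)) ∨
         (∃ i j, e 0 = cd (imp (eq i j)
           (imp (rename (instMap i) φ) (rename (instMap j) φ))))) by
      obtain ⟨φ, ψ, χ, hh⟩ := hh
      exact ⟨cd φ, cd ψ, cd χ, by
          rw [NatE_form]; exact ⟨φ, by simp [Function.update_apply]⟩, by
          rw [NatE_form]; exact ⟨ψ, by simp [Function.update_apply]⟩, by
          rw [NatE_form]; exact ⟨χ, by simp⟩, (key _ _ _ φ ψ χ rfl rfl rfl).2 hh⟩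
    cases hθ with
    | k φ ψ => exact ⟨φ, ψ, φ, Or.inl h⟩
    | s φ ψ χ => exact ⟨φ, ψ, χ, Or.inr (Or.inl h)⟩
    | dn φ => exact ⟨φ, φ, φ, Or.inr (Or.inr (Or.inl h))⟩
    | inst j φ => exact ⟨φ, φ, φ, Or.inr (Or.inr (Or.inr (Or.inl ⟨j, h⟩)))⟩
    | dist φ ψ => exact ⟨φ, ψ, φ, Or.inr (Or.inr (Or.inr (Or.inr (Or.inl h))))⟩
    | vac φ => exact ⟨φ, φ, φ, Or.inr (Or.inr (Or.inr (Or.inr (Or.inr (Or.inl h)))))⟩
    | refl i =>
        exact ⟨bot, bot, bot, Or.inr (Or.inr (Or.inr (Or.inr (Or.inr (Or.inr (Or.inl ⟨i, h⟩))))))⟩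
    | leib i j φ =>
        exact ⟨φ, φ, φ, Or.inr (Or.inr (Or.inr (Or.inr (Or.inr (Or.inr (Or.inr ⟨i, j, h⟩))))))⟩

/-- The steps of `lstF`. -/
theorem NatE_lstStep (e : ℕ → ℕ) :
    Sat NN (exL [10] (andL [ap formF [10], ap concF [1, 10, 0]])) e ↔
      ∃ φ : AFm, Cc (e 1) (cd φ) (e 0) := by
  simp only [sat_exL_cons, sat_exL_nil, NatE_andL2, NatE_form, NatE_conc]
  constructor
  · rintro ⟨a, ⟨φ, h1⟩, h2⟩
    rw [h1] at h2
    exact ⟨φ, by simpa using h2⟩
  · rintro ⟨φ, h⟩
    exact ⟨cd φ, ⟨φ, by simp⟩, by simpa using h⟩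

theorem NatE_cdL_snoc (T : List AFm) (φ : AFm) : cdL (T ++ [φ]) = codeS (encodeL T ++ encode φ) := by
  simp [cdL, encodeL]

theorem sat_lstF (e : ℕ → ℕ) : Sat NN lstF e ↔ ∃ T : List AFm, e 0 = cdL T := by
  unfold lstF
  rw [sat_lfpF (B := fun u => u = 1) (St := fun u y _ => ∃ φ : AFm, Cc y (cd φ) u)
    (fun e => sat_num 1 e) NatE_lstStep]
  constructor
  · intro h
    generalize e 0 = u at h
    induction h with
    | base h => exact ⟨[], by rw [h]; rfl⟩
    | @step u y z h hy hz ihy ihz =>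
        obtain ⟨T, hT⟩ := ihy
        obtain ⟨φ, h⟩ := h
        refine ⟨T ++ [φ], ?_⟩
        rw [NatE_cdL_snoc]
        rw [hT] at h
        exact (Cc_codeS _ _ _).1 h
  · rintro ⟨T, h⟩
    rw [h]
    clear h
    induction T using List.reverseRecOn with
    | nil => exact Lfp.base rfl
    | append_singleton T φ ih =>
        refine Lfp.step (y := cdL T) (z := cdL T) ⟨φ, ?_⟩ ih ih
        rw [NatE_cdL_snoc]
        exact (Cc_codeS _ _ _).2 rfl

theorem NatE_lst (e : ℕ → ℕ) (x : ℕ) :
    Sat NN (ap lstF [x]) e ↔ ∃ T : List AFm, e x = cdL T := by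
  rw [sat_ap, sat_lstF]; rfl

theorem sat_lineF (e : ℕ → ℕ) :
    Sat NN lineF e ↔ ∃ (φ : AFm) (T : List AFm), φ ∈ T ∧ e 0 = cd φ ∧ e 1 = cdL T := by
  unfold lineF
  simp only [sat_exL_cons, sat_exL_nil, NatE_andL5, NatE_form, NatE_conc, NatE_lst]
  constructor
  · rintro ⟨a, b, c, ⟨φ, h1⟩, ⟨T, h2⟩, ⟨T', h3⟩, h4, h5⟩
    simp at h1 h2 h3 h4 h5
    subst h2 h3
    rw [h1] at h4
    have h6 := (Cc_codeS _ _ _).1 h4
    rw [h6] at h5
    have h7 := (Cc_codeS _ _ _).1 h5
    refine ⟨φ, T ++ φ :: T', by simp, h1, ?_⟩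
    rw [h7]
    simp [cdL, encodeL]
  · rintro ⟨φ, T, hφ, h0, h1⟩
    obtain ⟨T1, T2, rfl⟩ := List.append_of_mem hφ
    refine ⟨cdL T1, cdL T2, codeS (encodeL T1 ++ encode φ), ⟨φ, by simpa using h0⟩,
      ⟨T1, by simp⟩, ⟨T2, by simp⟩, ?_, ?_⟩
    · simp [h0]
      exact (Cc_codeS _ _ _).2 rfl
    · simp [h1]
      refine (Cc_codeS _ _ _).2 ?_
      simp [cdL, encodeL]

end Pool.Agent.Myc
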