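import Pool.Agent.Myc.Fam
import Pool.Agent.Myc.IntA

set_option autoImplicit false

namespace Pool.Agent.Myc

open Fm

/-! ### Auxiliary lemmas on substitution -/

theorem NumA_ap0 {φ : AFm} (h : FVs (fun i => i < 1) φ) : ap φ [0] = φ := by
  have h1 : ap φ [0] = rename id φ := by
    unfold ap
    apply rename_congr h
    intro i hi
    have : i = 0 := by omega
    subst this
    rfl
  rw [h1, rename_id]

theorem NumA_s_zero (sC : ℕ) (V G H K : AFm) (x : ℕ) :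
    subst (xi sC V G H K) (zeroX x) = zeroA x := by
  show rel AR.zero _ = rel AR.zero _
  congr 1
  funext k
  fin_cases k
  rfl

theorem NumA_s_succ (sC : ℕ) (V G H K : AFm) (x y : ℕ) :
    subst (xi sC V G H K) (succX x y) = succA x y := by
  show rel AR.succ _ = rel AR.succ _
  congr 1
  funext k
  fin_cases k <;> rfl

theorem NumA_s_add (sC : ℕ) (V G H K : AFm) (x y z : ℕ) :
    subst (xi sC V G H K) (addX x y z) = addA x y z := by
  show rel AR.add _ = rel AR.add _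
  congr 1
  funext k
  fin_cases k <;> rfl

theorem NumA_s_mul (sC : ℕ) (V G H K : AFm) (x y z : ℕ) :
    subst (xi sC V G H K) (mulX x y z) = mulA x y z := by
  show rel AR.mul _ = rel AR.mul _
  congr 1
  funext k
  fin_cases k <;> rfl

theorem NumA_ext1 (x : ℕ) : ext ![x] = fun i => [x].getD i 0 := by
  funext i
  rcases i with _ | i
  · rfl
  · simp [ext]

theorem NumA_s_G (sC : ℕ) (V G H K : AFm) (x : ℕ) :
    subst (xi sC V G H K) (GX x) = ap G [x] := by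
  show rename (ext ![x]) G = _
  rw [NumA_ext1]; rfl

theorem NumA_s_H (sC : ℕ) (V G H K : AFm) (x : ℕ) :
    subst (xi sC V G H K) (HX x) = ap H [x] := by
  show rename (ext ![x]) H = _
  rw [NumA_ext1]; rfl

theorem NumA_s_K (sC : ℕ) (V G H K : AFm) (x : ℕ) :
    subst (xi sC V G H K) (KX x) = ap K [x] := by
  show rename (ext ![x]) K = _
  rw [NumA_ext1]; rfl

theorem NumA_s_F (sC : ℕ) {V : AFm} (hV : FVs (fun i => i < 1) V) (G H K : AFm) (x : ℕ) :
    subst (xi sC V G H K) (FX x x x) = ap V [x] := by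
  show rename (ext ![x, x, x]) V = rename _ V
  apply rename_congr hV
  intro i hi
  have : i = 0 := by omega
  subst this
  rfl

theorem NumA_ap_Uf_succ (k x : ℕ) :
    ap (Uf (k + 1)) [x] = ex (and (Uf k) (succA 0 (x + 1))) := by
  show ex (and (rename (up _) (Uf k)) (rel AR.succ _)) = ex (and (Uf k) (rel AR.succ _))
  have h1 : rename (up (fun i => [x].getD i 0)) (Uf k) = Uf k := by
    have h2 : rename (up (fun i => [x].getD i 0)) (Uf k) = rename id (Uf k) := by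
      apply rename_congr (Uf_fv k)
      intro i hi
      have : i = 0 := by omega
      subst this
      rfl
    rw [h2, rename_id]
  rw [h1]
  congr 3
  funext j
  fin_cases j <;> rfl

theorem NumA_ap_Uf_zero (x : ℕ) : ap (Uf 0) [x] = zeroA x := by
  show rel AR.zero _ = rel AR.zero _
  congr 1
  funext j
  fin_cases j
  rfl

/-! ### Auxiliary lemmas on satisfaction -/

section
variable {M : Type} (S : XStr M) (e : ℕ → M)

theorem NumA_sat_zero (x : ℕ) : Sat S (zeroX x) e ↔ zeroR S (e x) :=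
  iff_of_eq (congrArg (S.rel RX.zero) (comp_vec1 e x))
theorem NumA_sat_succ (x y : ℕ) : Sat S (succX x y) e ↔ succR S (e x) (e y) :=
  iff_of_eq (congrArg (S.rel RX.succ) (comp_vec2 e x y))
theorem NumA_sat_add (x y z : ℕ) : Sat S (addX x y z) e ↔ addR S (e x) (e y) (e z) :=
  iff_of_eq (congrArg (S.rel RX.add) (comp_vec3 e x y z))
theorem NumA_sat_mul (x y z : ℕ) : Sat S (mulX x y z) e ↔ mulR S (e x) (e y) (e z) :=
  iff_of_eq (congrArg (S.rel RX.mul) (comp_vec3 e x y z))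
theorem NumA_sat_F (x y z : ℕ) : Sat S (FX x y z) e ↔ FR S (e x) (e y) (e z) :=
  iff_of_eq (congrArg (S.rel RX.F) (comp_vec3 e x y z))
theorem NumA_sat_G (x : ℕ) : Sat S (GX x) e ↔ GR S (e x) :=
  iff_of_eq (congrArg (S.rel RX.G) (comp_vec1 e x))
theorem NumA_sat_H (x : ℕ) : Sat S (HX x) e ↔ HR S (e x) :=
  iff_of_eq (congrArg (S.rel RX.H) (comp_vec1 e x))
theorem NumA_sat_K (x : ℕ) : Sat S (KX x) e ↔ KR S (e x) :=
  iff_of_eq (congrArg (S.rel RX.K) (comp_vec1 e x))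
theorem NumA_sat_eq (x y : ℕ) : Sat S (eq x y : XFm) e ↔ e x = e y := Iff.rfl

end

/-- A chain of short implications. -/
theorem NumA_chain {T : Set AFm} {P : ℕ → AFm} {c0 B n : ℕ} (h0 : Pv T c0 (P 0))
    (hs : ∀ k < n, Pv T B (imp (P k) (P (k + 1)))) : ∀ k ≤ n, Pv T (c0 + 2 * B * k) (P k) := by
  intro k
  induction k with
  | zero => intro _; exact h0
  | succ k ih =>
    intro hk
    have := Pv.mp' (hs k (by omega)) (ih (by omega))
    exact this.mono (by ring_nf; omega)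

variable (cE sC : ℕ) (T : List AFm) (hT : ∀ φ ∈ BaseA cE sC, φ ∈ T) (hc : ∀ φ ∈ T, Closed φ)
include hT hc

theorem fam_exU : ∃ C, ∀ k, Pv {ψ | ψ ∈ T} (C * (k + 1) ^ 2) (ex (Uf k)) := by
  obtain ⟨C0, h0⟩ := fam cE sC T hT hc (φ := ex (zeroX 0)) (by
    intro M _ S _ h _ e
    rw [sat_ex]
    obtain ⟨x, hx⟩ := h.zero_ex
    exact ⟨x, (NumA_sat_zero S _ 0).2 hx⟩)
  obtain ⟨C1, h1⟩ := fam cE sC T hT hc
    (φ := imp (ex (GX 0)) (ex (ex (and (GX 0) (succX 0 1))))) (by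
    intro M _ S _ h _ e
    rw [sat_imp, sat_ex, sat_ex]
    rintro ⟨x, hx⟩
    rw [NumA_sat_G] at hx
    obtain ⟨y, hy⟩ := h.succ_tot x
    refine ⟨y, ?_⟩
    rw [sat_ex]
    refine ⟨x, ?_⟩
    rw [sat_and, NumA_sat_G, NumA_sat_succ]
    exact ⟨hx, hy⟩)
  have e0 := h0 bot bot bot bot trivial trivial trivial trivial
  rw [subst_ex, NumA_s_zero] at e0
  have e1 : ∀ k, Pv {ψ | ψ ∈ T} (C1 * (1 + 4 + len (Uf k) + 4 + 4))
      (imp (ex (Uf k)) (ex (Uf (k + 1)))) := by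
    intro k
    have := h1 bot (Uf k) bot bot trivial (Uf_fv k) trivial trivial
    have e2 : subst (xi sC bot (Uf k) bot bot) (imp (ex (GX 0)) (ex (ex (and (GX 0) (succX 0 1)))))
        = imp (ex (Uf k)) (ex (Uf (k + 1))) := by
      show imp (subst _ (ex (GX 0))) (subst _ (ex (ex (and (GX 0) (succX 0 1))))) = _
      rw [subst_ex, subst_ex, subst_ex, subst_and, NumA_s_G, NumA_s_succ, NumA_ap0 (Uf_fv k)]
      rfl
    rw [e2] at this
    exact this
  refine ⟨C0 * 17 + 226 * C1, fun n => ?_⟩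
  have := NumA_chain (P := fun k => ex (Uf k)) (n := n) (B := C1 * 113 * (n + 1)) e0
    (fun k hk => (e1 k).mono (by
      rw [mul_assoc]
      apply Nat.mul_le_mul_left
      have := len_Uf k
      omega)) n le_rfl
  refine this.mono ?_
  show C0 * (1 + 4 + 4 + 4 + 4) + 2 * (C1 * 113 * (n + 1)) * n ≤ _
  nlinarith [Nat.zero_le (C0 * n), Nat.zero_le (C0 * n * n), Nat.zero_le (C1 * n)]

theorem fam_addU : ∃ C, ∀ k l, Pv {ψ | ψ ∈ T} (C * (k + l + 1) ^ 2)
    (alls 3 (imp (ap (Uf k) [0]) (imp (ap (Uf l) [1]) (imp (addA 0 1 2)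
      (ap (Uf (k + l)) [2]))))) := by
  obtain ⟨C0, h0⟩ := fam cE sC T hT hc
    (φ := alls 3 (imp (GX 0) (imp (zeroX 1) (imp (addX 0 1 2) (GX 2))))) (by
    intro M _ S _ h _ e a b c
    simp only [alls, sat_imp, NumA_sat_G, NumA_sat_zero, NumA_sat_add]
    intro h1 h2 h3
    have := h.add_un _ _ _ _ (h.add_zero _ _ h2) h3
    rw [← this]
    exact h1)
  obtain ⟨C1, h1⟩ := fam cE sC T hT hc
    (φ := imp (alls 3 (imp (GX 0) (imp (HX 1) (imp (addX 0 1 2) (KX 2)))))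
      (alls 3 (imp (GX 0) (imp (ex (and (HX 0) (succX 0 2))) (imp (addX 0 1 2)
        (ex (and (KX 0) (succX 0 3)))))))) (by
    intro M _ S _ h _ e h1 a b c
    simp only [alls, sat_imp, NumA_sat_G, NumA_sat_H, NumA_sat_K, NumA_sat_add,
      NumA_sat_succ, sat_ex, sat_and, Sat] at h1 ⊢
    rintro h2 ⟨y, hy, hy'⟩ h3
    obtain ⟨z, hz⟩ := h.add_tot c y
    obtain ⟨z', hz'⟩ := h.succ_tot z
    have h4 := h.add_un _ _ _ _ (h.add_succ _ _ _ _ _ hy' hz hz') h3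
    refine ⟨z, h1 z y c h2 hy hz, ?_⟩
    have : z' = a := h4
    subst this
    exact hz')
  have e0 : ∀ k, Pv {ψ | ψ ∈ T} (C0 * (1 + 4 + len (Uf k) + 4 + 4))
      (alls 3 (imp (ap (Uf k) [0]) (imp (ap (Uf 0) [1]) (imp (addA 0 1 2)
      (ap (Uf (k + 0)) [2]))))) := by
    intro k
    have := h0 bot (Uf k) bot bot trivial (Uf_fv k) trivial trivial
    rw [subst_alls] at this
    simp only [subst, NumA_s_G, NumA_s_zero, NumA_s_add] at this
    rw [NumA_ap_Uf_zero]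
    exact this
  have e1 : ∀ k l, Pv {ψ | ψ ∈ T} (C1 * (1 + 4 + len (Uf k) + len (Uf l) + len (Uf (k + l))))
      (imp (alls 3 (imp (ap (Uf k) [0]) (imp (ap (Uf l) [1]) (imp (addA 0 1 2)
        (ap (Uf (k + l)) [2])))))
        (alls 3 (imp (ap (Uf k) [0]) (imp (ap (Uf (l + 1)) [1]) (imp (addA 0 1 2)
        (ap (Uf (k + (l + 1))) [2])))))) := by
    intro k l
    have := h1 bot (Uf k) (Uf l) (Uf (k + l)) trivial (Uf_fv _) (Uf_fv _) (Uf_fv _)
    simp only [subst, subst_alls, subst_ex, subst_and, NumA_s_G, NumA_s_H, NumA_s_K,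
      NumA_s_add, NumA_s_succ, NumA_ap0 (Uf_fv _)] at this
    rw [← add_assoc, NumA_ap_Uf_succ, NumA_ap_Uf_succ, NumA_ap0 (Uf_fv _)]
    exact this
  refine ⟨C0 * 113 + 1000 * C1, fun k l => ?_⟩
  have := NumA_chain (P := fun l => (alls 3 (imp (ap (Uf k) [0]) (imp (ap (Uf l) [1])
      (imp (addA 0 1 2) (ap (Uf (k + l)) [2])))))) (n := l) (B := C1 * 500 * (k + l + 1)) (e0 k)
    (fun j hj => (e1 k j).mono (by
      rw [mul_assoc]
      apply Nat.mul_le_mul_left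
      have h1 := len_Uf k
      have h2 := len_Uf j
      have h3 := len_Uf (k + j)
      omega)) l le_rfl
  refine this.mono ?_
  have hU := len_Uf k
  have h5 : C0 * (1 + 4 + len (Uf k) + 4 + 4) ≤ C0 * (113 * (k + 1)) :=
    Nat.mul_le_mul_left _ (by omega)
  have h6 : C0 * (113 * (k + 1)) ≤ C0 * 113 * (k + l + 1) ^ 2 := by
    rw [mul_assoc]
    apply Nat.mul_le_mul_left
    apply Nat.mul_le_mul_left
    exact le_trans (by omega) (Nat.le_self_pow (by norm_num) (k + l + 1))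
  have h7 : 2 * (C1 * 500 * (k + l + 1)) * l ≤ 1000 * C1 * (k + l + 1) ^ 2 := by
    calc 2 * (C1 * 500 * (k + l + 1)) * l = 1000 * C1 * ((k + l + 1) * l) := by ring
      _ ≤ _ := by
        apply Nat.mul_le_mul_left
        nlinarith
  calc _ ≤ C0 * 113 * (k + l + 1) ^ 2 + 1000 * C1 * (k + l + 1) ^ 2 := by omega
    _ = _ := by ring

theorem fam_mulU : ∃ C, ∀ k l, Pv {ψ | ψ ∈ T} (C * ((k + 1) * (l + 1)) ^ 3)
    (alls 3 (imp (ap (Uf k) [0]) (imp (ap (Uf l) [1]) (imp (mulA 0 1 2)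
      (ap (Uf (k * l)) [2]))))) := by
  obtain ⟨CA, hA⟩ := fam_addU cE sC T hT hc
  obtain ⟨C0, h0⟩ := fam cE sC T hT hc
    (φ := alls 3 (imp (GX 0) (imp (zeroX 1) (imp (mulX 0 1 2) (zeroX 2))))) (by
    intro M _ S _ h _ e a b c
    simp only [alls, sat_imp, NumA_sat_G, NumA_sat_zero, NumA_sat_mul]
    intro h1 h2 h3
    have := h.mul_un _ _ _ _ (h.mul_zero _ _ h2) h3
    rw [← this]
    exact h2)
  obtain ⟨C1, h1⟩ := fam cE sC T hT hc
    (φ := imp (alls 3 (imp (KX 0) (imp (GX 1) (imp (addX 0 1 2) (FX 2 2 2)))))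
      (imp (alls 3 (imp (GX 0) (imp (HX 1) (imp (mulX 0 1 2) (KX 2)))))
      (alls 3 (imp (GX 0) (imp (ex (and (HX 0) (succX 0 2))) (imp (mulX 0 1 2)
        (FX 2 2 2))))))) (by
    intro M _ S _ h _ e hadd h1 a b c
    simp only [alls, sat_imp, NumA_sat_G, NumA_sat_H, NumA_sat_K, NumA_sat_add,
      NumA_sat_mul, NumA_sat_F, NumA_sat_succ, sat_ex, sat_and, Sat] at hadd h1 ⊢
    rintro h2 ⟨y, hy, hy'⟩ h3
    obtain ⟨z, hz⟩ := h.mul_tot c y
    obtain ⟨z', hz'⟩ := h.add_tot z c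
    have h4 : z' = a := h.mul_un _ _ _ _ (h.mul_succ _ _ _ _ _ hy' hz hz') h3
    have h5 := hadd z' c z (h1 z y c h2 hy hz) h2 hz'
    subst h4
    exact h5)
  have e0 : ∀ k, Pv {ψ | ψ ∈ T} (C0 * (1 + 4 + len (Uf k) + 4 + 4))
      (alls 3 (imp (ap (Uf k) [0]) (imp (ap (Uf 0) [1]) (imp (mulA 0 1 2)
      (ap (Uf (k * 0)) [2]))))) := by
    intro k
    have := h0 bot (Uf k) bot bot trivial (Uf_fv k) trivial trivial
    rw [subst_alls] at this
    simp only [subst, NumA_s_G, NumA_s_zero, NumA_s_mul] at this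
    rw [Nat.mul_zero, NumA_ap_Uf_zero, NumA_ap_Uf_zero]
    exact this
  have e1 : ∀ k l, Pv {ψ | ψ ∈ T} (C1 * (1 + len (Uf (k * l + k)) + len (Uf k) + len (Uf l) +
      len (Uf (k * l))))
      (imp (alls 3 (imp (ap (Uf (k * l)) [0]) (imp (ap (Uf k) [1]) (imp (addA 0 1 2)
        (ap (Uf (k * l + k)) [2])))))
      (imp (alls 3 (imp (ap (Uf k) [0]) (imp (ap (Uf l) [1]) (imp (mulA 0 1 2)
        (ap (Uf (k * l)) [2])))))
        (alls 3 (imp (ap (Uf k) [0]) (imp (ap (Uf (l + 1)) [1]) (imp (mulA 0 1 2)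
        (ap (Uf (k * (l + 1))) [2]))))))) := by
    intro k l
    have := h1 (Uf (k * l + k)) (Uf k) (Uf l) (Uf (k * l)) ((Uf_fv _).mono (by intro i hi; omega))
      (Uf_fv _) (Uf_fv _) (Uf_fv _)
    simp only [subst, subst_alls, subst_ex, subst_and, NumA_s_G, NumA_s_H, NumA_s_K,
      NumA_s_add, NumA_s_mul, NumA_s_succ, NumA_ap0 (Uf_fv _),
      NumA_s_F sC (Uf_fv _)] at this
    rw [Nat.mul_succ, NumA_ap_Uf_succ]
    simp only [NumA_ap0 (Uf_fv _)]
    exact this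
  have e2 : ∀ k l, Pv {ψ | ψ ∈ T} ((802 * C1 + CA) * ((k + 1) * (l + 1)) ^ 2)
      (imp (alls 3 (imp (ap (Uf k) [0]) (imp (ap (Uf l) [1]) (imp (mulA 0 1 2)
        (ap (Uf (k * l)) [2])))))
        (alls 3 (imp (ap (Uf k) [0]) (imp (ap (Uf (l + 1)) [1]) (imp (mulA 0 1 2)
        (ap (Uf (k * (l + 1))) [2])))))) := by
    intro k l
    refine (Pv.mp' (e1 k l) (hA (k * l) k)).mono ?_
    have hN : k * l + k + 1 ≤ (k + 1) * (l + 1) := by nlinarith
    have hN1 : k + 1 ≤ (k + 1) * (l + 1) := by nlinarith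
    have hN2 : l + 1 ≤ (k + 1) * (l + 1) := by nlinarith
    have hN3 : 1 ≤ (k + 1) * (l + 1) := by nlinarith
    generalize (k + 1) * (l + 1) = N at hN hN1 hN2 hN3
    have l1 := len_Uf (k * l + k)
    have l2 := len_Uf k
    have l3 := len_Uf l
    have l4 := len_Uf (k * l)
    have h5 : C1 * (1 + len (Uf (k * l + k)) + len (Uf k) + len (Uf l) + len (Uf (k * l))) ≤
        C1 * (401 * N) := Nat.mul_le_mul_left _ (by omega)
    have h6 : C1 * (401 * N) ≤ 401 * C1 * N ^ 2 := by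
      calc C1 * (401 * N) = 401 * C1 * (N * 1) := by ring
        _ ≤ 401 * C1 * (N * N) := by
          apply Nat.mul_le_mul_left
          apply Nat.mul_le_mul_left
          exact hN3
        _ = _ := by ring
    have h7 : CA * (k * l + k + 1) ^ 2 ≤ CA * N ^ 2 :=
      Nat.mul_le_mul_left _ (Nat.pow_le_pow_left hN 2)
    calc _ ≤ 2 * (401 * C1 * N ^ 2) + CA * N ^ 2 := by omega
      _ = _ := by ring
  refine ⟨C0 * 113 + 2 * (802 * C1 + CA), fun k l => ?_⟩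
  have := NumA_chain (P := fun l => (alls 3 (imp (ap (Uf k) [0]) (imp (ap (Uf l) [1])
      (imp (mulA 0 1 2) (ap (Uf (k * l)) [2])))))) (n := l)
      (B := (802 * C1 + CA) * ((k + 1) * (l + 1)) ^ 2) (e0 k)
    (fun j hj => (e2 k j).mono (by
      apply Nat.mul_le_mul_left
      apply Nat.pow_le_pow_left
      apply Nat.mul_le_mul_left
      omega)) l le_rfl
  refine this.mono ?_
  have hU := len_Uf k
  have hN1 : k + 1 ≤ (k + 1) * (l + 1) := by nlinarith
  have hN2 : l ≤ (k + 1) * (l + 1) := by nlinarith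
  have hN3 : 1 ≤ (k + 1) * (l + 1) := by nlinarith
  generalize (k + 1) * (l + 1) = N at hN1 hN2 hN3
  have h5 : C0 * (1 + 4 + len (Uf k) + 4 + 4) ≤ C0 * (113 * N) :=
    Nat.mul_le_mul_left _ (by omega)
  have h6 : C0 * (113 * N) ≤ C0 * 113 * N ^ 3 := by
    rw [mul_assoc]
    apply Nat.mul_le_mul_left
    apply Nat.mul_le_mul_left
    exact Nat.le_self_pow (by norm_num) N
  have h7 : 2 * ((802 * C1 + CA) * N ^ 2) * l ≤ 2 * (802 * C1 + CA) * N ^ 3 := by
    calc 2 * ((802 * C1 + CA) * N ^ 2) * l = 2 * (802 * C1 + CA) * (N ^ 2 * l) := by ring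
      _ ≤ 2 * (802 * C1 + CA) * (N ^ 2 * N) := by
        apply Nat.mul_le_mul_left
        apply Nat.mul_le_mul_left
        exact hN2
      _ = _ := by ring
  calc _ ≤ C0 * 113 * N ^ 3 + 2 * (802 * C1 + CA) * N ^ 3 := by omega
    _ = _ := by ring

theorem NumA_unU : ∃ C, ∀ k, Pv {ψ | ψ ∈ T} (C * (k + 1) ^ 2)
    (alls 2 (imp (ap (Uf k) [0]) (imp (ap (Uf k) [1]) (eq 0 1)))) := by
  obtain ⟨C0, h0⟩ := fam cE sC T hT hc
    (φ := alls 2 (imp (zeroX 0) (imp (zeroX 1) (eq 0 1)))) (by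
    intro M _ S _ h _ e a b
    simp only [alls, sat_imp, NumA_sat_zero, NumA_sat_eq]
    intro h1 h2
    exact h.zero_un _ _ h1 h2)
  obtain ⟨C1, h1⟩ := fam cE sC T hT hc
    (φ := imp (alls 2 (imp (GX 0) (imp (GX 1) (eq 0 1))))
      (alls 2 (imp (ex (and (GX 0) (succX 0 1))) (imp (ex (and (GX 0) (succX 0 2)))
        (eq 0 1))))) (by
    intro M _ S _ h _ e h1 a b
    simp only [alls, sat_imp, NumA_sat_G, NumA_sat_succ, sat_ex, sat_and,
      Sat] at h1 ⊢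
    rintro ⟨x, hx, hx'⟩ ⟨y, hy, hy'⟩
    have h2 : x = y := h1 y x hx hy
    subst h2
    exact h.succ_un _ _ _ hx' hy')
  have e0 := h0 bot bot bot bot trivial trivial trivial trivial
  rw [subst_alls] at e0
  simp only [subst, NumA_s_zero] at e0
  have e1 : ∀ k, Pv {ψ | ψ ∈ T} (C1 * (1 + 4 + len (Uf k) + 4 + 4))
      (imp (alls 2 (imp (ap (Uf k) [0]) (imp (ap (Uf k) [1]) (eq 0 1))))
        (alls 2 (imp (ap (Uf (k + 1)) [0]) (imp (ap (Uf (k + 1)) [1]) (eq 0 1))))) := by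
    intro k
    have := h1 bot (Uf k) bot bot trivial (Uf_fv k) trivial trivial
    simp only [subst, subst_alls, subst_ex, subst_and, NumA_s_G, NumA_s_succ,
      NumA_ap0 (Uf_fv _)] at this
    rw [NumA_ap_Uf_succ, NumA_ap_Uf_succ, NumA_ap0 (Uf_fv _)]
    exact this
  refine ⟨C0 * 17 + 226 * C1, fun n => ?_⟩
  have := NumA_chain (P := fun k => (alls 2 (imp (ap (Uf k) [0]) (imp (ap (Uf k) [1])
      (eq 0 1))))) (n := n) (B := C1 * 113 * (n + 1)) (by
      simp only [NumA_ap_Uf_zero]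
      exact e0)
    (fun k hk => (e1 k).mono (by
      rw [mul_assoc]
      apply Nat.mul_le_mul_left
      have := len_Uf k
      omega)) n le_rfl
  refine this.mono ?_
  show C0 * (1 + 4 + 4 + 4 + 4) + 2 * (C1 * 113 * (n + 1)) * n ≤ _
  nlinarith [Nat.zero_le (C0 * n), Nat.zero_le (C0 * n * n), Nat.zero_le (C1 * n)]

theorem fam_leU : ∃ C, ∀ k l, k ≤ l → Pv {ψ | ψ ∈ T} (C * (l + 1) ^ 2)
    (alls 2 (imp (ap (Uf k) [0]) (imp (ap (Uf l) [1]) (ex (addA 1 0 2))))) := by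
  obtain ⟨CU, hU⟩ := NumA_unU cE sC T hT hc
  obtain ⟨C0, h0⟩ := fam cE sC T hT hc
    (φ := imp (alls 2 (imp (GX 0) (imp (GX 1) (eq 0 1))))
      (alls 2 (imp (GX 0) (imp (GX 1) (ex (addX 1 0 2)))))) (by
    intro M _ S _ h _ e h1 a b
    simp only [alls, sat_imp, NumA_sat_G, NumA_sat_add, sat_ex, Sat] at h1 ⊢
    intro h2 h3
    have h4 : b = a := h1 a b h2 h3
    subst h4
    obtain ⟨z, hz⟩ := h.zero_ex
    exact ⟨z, h.add_zero _ _ hz⟩)
  obtain ⟨C1, h1⟩ := fam cE sC T hT hc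
    (φ := imp (alls 2 (imp (GX 0) (imp (HX 1) (ex (addX 1 0 2)))))
      (alls 2 (imp (GX 0) (imp (ex (and (HX 0) (succX 0 2))) (ex (addX 1 0 2)))))) (by
    intro M _ S _ h _ e h1 a b
    simp only [alls, sat_imp, NumA_sat_G, NumA_sat_H, NumA_sat_add, NumA_sat_succ, sat_ex,
      sat_and, Sat] at h1 ⊢
    rintro h2 ⟨w, hw, hw'⟩
    obtain ⟨y, hy⟩ := h1 w b h2 hw
    obtain ⟨y', hy'⟩ := h.succ_tot y
    exact ⟨y', h.add_succ _ _ _ _ _ hy' hy hw'⟩)
  have e0 : ∀ k, Pv {ψ | ψ ∈ T} (C0 * (1 + 4 + len (Uf k) + 4 + 4))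
      (imp (alls 2 (imp (ap (Uf k) [0]) (imp (ap (Uf k) [1]) (eq 0 1))))
      (alls 2 (imp (ap (Uf k) [0]) (imp (ap (Uf k) [1]) (ex (addA 1 0 2)))))) := by
    intro k
    have := h0 bot (Uf k) bot bot trivial (Uf_fv k) trivial trivial
    simp only [subst, subst_alls, subst_ex, NumA_s_G, NumA_s_add] at this
    exact this
  have e1 : ∀ k l, Pv {ψ | ψ ∈ T} (C1 * (1 + 4 + len (Uf k) + len (Uf l) + 4))
      (imp (alls 2 (imp (ap (Uf k) [0]) (imp (ap (Uf l) [1]) (ex (addA 1 0 2)))))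
        (alls 2 (imp (ap (Uf k) [0]) (imp (ap (Uf (l + 1)) [1]) (ex (addA 1 0 2)))))) := by
    intro k l
    have := h1 bot (Uf k) (Uf l) bot trivial (Uf_fv _) (Uf_fv _) trivial
    simp only [subst, subst_alls, subst_ex, subst_and, NumA_s_G, NumA_s_H, NumA_s_add,
      NumA_s_succ, NumA_ap0 (Uf_fv _)] at this
    rw [NumA_ap_Uf_succ, NumA_ap0 (Uf_fv _)]
    exact this
  refine ⟨C0 * 226 + CU + 1000 * C1, fun k l hkl => ?_⟩
  obtain ⟨d, rfl⟩ := Nat.exists_eq_add_of_le hkl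
  have := NumA_chain (P := fun j => (alls 2 (imp (ap (Uf k) [0]) (imp (ap (Uf (k + j)) [1])
      (ex (addA 1 0 2)))))) (n := d) (B := C1 * 500 * (k + d + 1))
    (Pv.mp' (e0 k) (hU k))
    (fun j hj => (e1 k (k + j)).mono (by
      rw [mul_assoc]
      apply Nat.mul_le_mul_left
      have h1 := len_Uf k
      have h2 := len_Uf (k + j)
      omega)) d le_rfl
  refine this.mono ?_
  have hU := len_Uf k
  have h5 : C0 * (1 + 4 + len (Uf k) + 4 + 4) ≤ C0 * (113 * (k + 1)) :=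
    Nat.mul_le_mul_left _ (by omega)
  have h6 : C0 * (113 * (k + 1)) ≤ C0 * 113 * (k + d + 1) ^ 2 := by
    rw [mul_assoc]
    apply Nat.mul_le_mul_left
    apply Nat.mul_le_mul_left
    exact le_trans (by omega) (Nat.le_self_pow (by norm_num) (k + d + 1))
  have h7 : 2 * (C1 * 500 * (k + d + 1)) * d ≤ 1000 * C1 * (k + d + 1) ^ 2 := by
    calc 2 * (C1 * 500 * (k + d + 1)) * d = 1000 * C1 * ((k + d + 1) * d) := by ring
      _ ≤ _ := by
        apply Nat.mul_le_mul_left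
        nlinarith
  have h8 : CU * (k + 1) ^ 2 ≤ CU * (k + d + 1) ^ 2 :=
    Nat.mul_le_mul_left _ (Nat.pow_le_pow_left (by omega) 2)
  calc _ ≤ 2 * (C0 * 113 * (k + d + 1) ^ 2) + CU * (k + d + 1) ^ 2 +
        1000 * C1 * (k + d + 1) ^ 2 := by omega
    _ = _ := by ring

end Pool.Agent.Myc
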