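import Pool.Agent.Myc.PudDefs
import Pool.Agent.Myc.Fam
import Pool.Agent.Myc.IntC

set_option autoImplicit false

namespace Pool.Agent.Myc

open Fm

/-! ### Replacing the predicate variables -/

/-- The substitution of formulas of the auxiliary language for the predicate variables. -/
def PudA_sig (F G H K : XFm) : (r : RX) → XFm
  | .F => F
  | .G => G
  | .H => H
  | .K => K
  | r => rel r (fun k => k.val)

theorem PudA_sig_good {F G H K : XFm} (hF : FVs (fun i => i < 3) F)
    (hG : FVs (fun i => i < 1) G) (hH : FVs (fun i => i < 1) H) (hK : FVs (fun i => i < 1) K) :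
    Good arX (PudA_sig F G H K) := by
  intro r
  cases r
  case F => exact hF
  case G => exact hG
  case H => exact hH
  case K => exact hK
  all_goals exact fun k => k.isLt

theorem PudA_id {R R' : Type} {ar : R → ℕ} {ar' : R' → ℕ} (τ : (r : R) → Fm R' ar')
    (hτ : Good ar τ) (r : R) : subst τ (rel r (fun k => k.val) : Fm R ar) = τ r := by
  show rename (ext (fun k : Fin (ar r) => k.val)) (τ r) = τ r
  refine (rename_congr (hτ r) ?_).trans (rename_id _)
  intro i hi
  simp only [ext, hi, dif_pos, id_eq]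

theorem PudA_comp (sC : ℕ) {V G H K : AFm} (hV : FVs (fun i => i < 3) V)
    (hG : FVs (fun i => i < 1) G) (hH : FVs (fun i => i < 1) H) (hK : FVs (fun i => i < 1) K)
    {F' G' H' K' : XFm} (hF' : FVs (fun i => i < 3) F')
    (hG' : FVs (fun i => i < 1) G') (hH' : FVs (fun i => i < 1) H')
    (hK' : FVs (fun i => i < 1) K') (φ : XFm) :
    subst (xi sC V G H K) (subst (PudA_sig F' G' H' K') φ) =
      subst (xi sC (subst (xi sC V G H K) F') (subst (xi sC V G H K) G')
        (subst (xi sC V G H K) H') (subst (xi sC V G H K) K')) φ := by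
  have hg := xi_good sC hV hG hH hK
  rw [subst_subst (PudA_sig_good hF' hG' hH' hK') hg]
  congr 1
  funext r
  cases r
  case F => rfl
  case G => rfl
  case H => rfl
  case K => rfl
  all_goals exact PudA_id _ hg _

/-- The structure with other relations for the predicate variables. -/
def PudA_mod {M : Type} (S : XStr M) (F : M → M → M → Prop) (G H K : M → Prop) : XStr M where
  rel := fun r => match r with
    | .F => fun v => F (v (0 : Fin 3)) (v (1 : Fin 3)) (v (2 : Fin 3))
    | .G => fun v => G (v (0 : Fin 1))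
    | .H => fun v => H (v (0 : Fin 1))
    | .K => fun v => K (v (0 : Fin 1))
    | r => fun v => S.rel r v

/-- The assignment with the values `x, y, z`. -/
def PudA_asg {M : Type} (x y z : M) : ℕ → M := fun i => if i = 0 then x else if i = 1 then y else z

theorem PudA_sat {M : Type} [Nonempty M] (S : XStr M) {F' G' H' K' : XFm}
    (hF' : FVs (fun i => i < 3) F') (hG' : FVs (fun i => i < 1) G')
    (hH' : FVs (fun i => i < 1) H') (hK' : FVs (fun i => i < 1) K') (φ : XFm) (e : ℕ → M) :
    Sat S (subst (PudA_sig F' G' H' K') φ) e ↔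
      Sat (PudA_mod S (fun x y z => Sat S F' (PudA_asg x y z)) (fun x => Sat S G' (fun _ => x))
        (fun x => Sat S H' (fun _ => x)) (fun x => Sat S K' (fun _ => x))) φ e := by
  obtain ⟨d⟩ := (inferInstance : Nonempty M)
  rw [sat_subst S d (PudA_sig_good hF' hG' hH' hK')]
  have key : pull arX S d (PudA_sig F' G' H' K') =
      PudA_mod S (fun x y z => Sat S F' (PudA_asg x y z)) (fun x => Sat S G' (fun _ => x))
        (fun x => Sat S H' (fun _ => x)) (fun x => Sat S K' (fun _ => x)) := by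
    unfold pull PudA_mod
    congr 1
    funext r v
    cases r
    case F =>
      refine propext (sat_congr S hF' ?_)
      intro i hi
      interval_cases i <;> rfl
    case G =>
      refine propext (sat_congr S hG' ?_)
      intro i hi
      interval_cases i; rfl
    case H =>
      refine propext (sat_congr S hH' ?_)
      intro i hi
      interval_cases i; rfl
    case K =>
      refine propext (sat_congr S hK' ?_)
      intro i hi
      interval_cases i; rfl
    all_goals
      show S.rel _ _ = S.rel _ _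
      congr 1
      funext k
      exact dif_pos k.isLt
  rw [key]

theorem PudA_emb {M : Type} (S : XStr M) (F : M → M → M → Prop) (G H K : M → Prop) (φ : AFm) :
    ∀ e : ℕ → M, Sat (PudA_mod S F G H K) (emb φ) e ↔ Sat S (emb φ) e := by
  induction φ with
  | bot => exact fun _ => Iff.rfl
  | eq i j => exact fun _ => Iff.rfl
  | rel r v =>
    intro e
    show Sat _ (rename (ext v) (embT r)) e ↔ Sat _ (rename (ext v) (embT r)) e
    rw [sat_rename, sat_rename]
    cases r <;> exact Iff.rfl
  | imp φ ψ h1 h2 =>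
    intro e
    show (Sat _ (emb φ) e → Sat _ (emb ψ) e) ↔ (Sat _ (emb φ) e → Sat _ (emb ψ) e)
    rw [h1 e, h2 e]
  | all φ h =>
    intro e
    show (∀ a, Sat _ (emb φ) (scons a e)) ↔ (∀ a, Sat _ (emb φ) (scons a e))
    exact forall_congr' fun a => h _

theorem PudA_isN {M : Type} (S : XStr M) (F : M → M → M → Prop) (G H K : M → Prop) :
    IsN (PudA_mod S F G H K) = IsN S := by
  funext k x
  exact propext (PudA_emb S F G H K _ _)

theorem PudA_PhiM {M : Type} (S : XStr M) (F : M → M → M → Prop) (G H K : M → Prop) :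
    PhiM (PudA_mod S F G H K) = PhiM S := by
  funext Φ x s b
  unfold PhiM
  rw [PudA_isN]
  rfl

theorem PudA_HM {M : Type} (S : XStr M) (F : M → M → M → Prop) (G H K : M → Prop) :
    HM (PudA_mod S F G H K) = HM S := by
  funext Φ κ
  unfold HM
  rw [PudA_isN, PudA_PhiM]
  rfl

theorem PudA_SLM {M : Type} (S : XStr M) (F : M → M → M → Prop) (G H K : M → Prop) :
    SLM (PudA_mod S F G H K) = SLM S := by
  funext Φ ν κ
  unfold SLM
  rw [PudA_isN]
  rfl

/-! ### Formulas without the predicate variables -/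

/-- The predicate variables do not occur. -/
def PudA_free : XFm → Prop
  | bot => True
  | eq _ _ => True
  | rel r _ => r ≠ .F ∧ r ≠ .G ∧ r ≠ .H ∧ r ≠ .K
  | imp φ ψ => PudA_free φ ∧ PudA_free ψ
  | all φ => PudA_free φ

theorem PudA_free_rename (ρ : ℕ → ℕ) (φ : XFm) : PudA_free (rename ρ φ) ↔ PudA_free φ := by
  induction φ generalizing ρ with
  | bot => exact Iff.rfl
  | eq i j => exact Iff.rfl
  | rel r v => exact Iff.rfl
  | imp φ ψ h1 h2 => exact and_congr (h1 ρ) (h2 ρ)
  | all φ h => exact h _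

theorem PudA_free_neg (φ : XFm) : PudA_free (neg φ) ↔ PudA_free φ := by
  simp [neg, PudA_free]

theorem PudA_free_or (φ ψ : XFm) : PudA_free (Fm.or φ ψ) ↔ PudA_free φ ∧ PudA_free ψ := by
  simp [Fm.or, neg, PudA_free]

theorem PudA_free_and (φ ψ : XFm) : PudA_free (Fm.and φ ψ) ↔ PudA_free φ ∧ PudA_free ψ := by
  simp [Fm.and, neg, PudA_free]

theorem PudA_free_alN (x : ℕ) (φ : XFm) : PudA_free (alN x φ) ↔ PudA_free φ :=
  PudA_free_rename _ φ

theorem PudA_free_exN (x : ℕ) (φ : XFm) : PudA_free (exN x φ) ↔ PudA_free φ := by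
  simp [exN, PudA_free_neg, PudA_free_alN]

theorem PudA_free_exL (l : List ℕ) (φ : XFm) : PudA_free (exL l φ) ↔ PudA_free φ := by
  induction l with
  | nil => exact Iff.rfl
  | cons x l h => rw [exL, PudA_free_exN, h]

theorem PudA_free_andL (l : List XFm) (h : ∀ φ ∈ l, PudA_free φ) : PudA_free (andL l) := by
  induction l using andL.induct with
  | case1 => exact (PudA_free_neg _).2 trivial
  | case2 φ => exact h φ (by simp)
  | case3 φ ψ l ih =>
    exact (PudA_free_and _ _).2 ⟨h φ (by simp), ih fun χ hχ => h χ (by simp at hχ ⊢; tauto)⟩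

theorem PudA_free_orL (l : List XFm) (h : ∀ φ ∈ l, PudA_free φ) : PudA_free (orL l) := by
  induction l using orL.induct with
  | case1 => trivial
  | case2 φ => exact h φ (by simp)
  | case3 φ ψ l ih =>
    exact (PudA_free_or _ _).2 ⟨h φ (by simp), ih fun χ hχ => h χ (by simp at hχ ⊢; tauto)⟩

theorem PudA_free_ap (φ : XFm) (v : List ℕ) : PudA_free (ap φ v) ↔ PudA_free φ :=
  PudA_free_rename _ φ

theorem PudA_free_emb (φ : AFm) : PudA_free (emb φ) := by
  induction φ with
  | bot => trivial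
  | eq i j => trivial
  | rel r v =>
    show PudA_free (rename (ext v) (embT r))
    rw [PudA_free_rename]
    cases r <;> simp [embT, PudA_free, zeroX, succX, addX, mulX]
  | imp φ ψ h1 h2 => exact ⟨h1, h2⟩
  | all φ h => exact h

theorem PudA_free_isNX (k x : ℕ) : PudA_free (isNX k x) :=
  (PudA_free_ap _ _).2 (PudA_free_emb _)

theorem PudA_free_subst (sC : ℕ) (V G H K V' G' H' K' : AFm) {φ : XFm} (h : PudA_free φ) :
    subst (xi sC V G H K) φ = subst (xi sC V' G' H' K') φ := by
  induction φ with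
  | bot => rfl
  | eq i j => rfl
  | rel r v =>
    show rename (ext v) (xi sC V G H K r) = rename (ext v) (xi sC V' G' H' K' r)
    obtain ⟨h1, h2, h3, h4⟩ := h
    cases r <;> first | rfl | contradiction
  | imp φ ψ h1 h2 =>
    show imp (subst _ φ) (subst _ ψ) = imp (subst _ φ) (subst _ ψ)
    rw [h1 h.1, h2 h.2]
  | all φ ih =>
    show all (subst _ φ) = all (subst _ φ)
    rw [ih h]

/-- The parts of `phiX`. -/
def PudA_a : XFm := and (atsX 0) (or (and (isNX 1 2) (t0X 0 1)) (and (zeroX 2) (neg (t0X 0 1))))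
def PudA_b : XFm := neg (atsX 0)
def PudA_c : XFm := ap wX [1, 2, 3, 0]
def PudA_d : XFm := ap qX [4, 5, 6, 3, 0, 1, 2]

theorem PudA_phiX : phiX = or PudA_a (and PudA_b (ex (and PudA_c
    (all (all (all (imp PudA_d (FX 0 1 2)))))))) := rfl

theorem PudA_wX : PudA_free wX := by
  simp [wX, PudA_free_or, PudA_free_and, PudA_free_exL, PudA_free_isNX, PudA_free, imX, zeroX,
    alX, prX]

theorem PudA_qX : PudA_free qX := by
  refine PudA_free_orL _ ?_
  simp only [List.mem_cons, List.not_mem_nil, or_false, forall_eq_or_imp, forall_eq]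
  refine ⟨PudA_free_andL _ ?_, PudA_free_andL _ ?_, ?_⟩
  · simp only [List.mem_cons, List.not_mem_nil, or_false, forall_eq_or_imp, forall_eq]
    refine ⟨?_, ?_, ?_⟩
    · simp [PudA_free_exL, PudA_free, imX]
    · simp [PudA_free]
    · rw [PudA_free_or]
      refine ⟨PudA_free_andL _ ?_, ?_⟩
      · simp [PudA_free_isNX, PudA_free, zeroX]
      · simp [PudA_free_and, PudA_free_isNX, PudA_free, zeroX]
  · simp only [List.mem_cons, List.not_mem_nil, or_false, forall_eq_or_imp, forall_eq]
    refine ⟨?_, ?_, ?_⟩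
    · simp [PudA_free_exL, PudA_free, imX]
    · simp [PudA_free]
    · rw [PudA_free_or]
      refine ⟨PudA_free_andL _ ?_, ?_⟩
      · simp [PudA_free_isNX]
      · simp [PudA_free_and, PudA_free, zeroX]
  · rw [PudA_free_and, PudA_free_or]
    refine ⟨by simp [PudA_free, alX], PudA_free_andL _ ?_, PudA_free_andL _ ?_⟩
    · simp [PudA_free_exL, PudA_free_isNX, PudA_free, prX]
    · simp [PudA_free, zeroX]

theorem PudA_free_a : PudA_free PudA_a := by
  simp [PudA_a, PudA_free_and, PudA_free_or, PudA_free_neg, PudA_free_isNX, PudA_free, atsX, t0X,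
    zeroX]

theorem PudA_free_b : PudA_free PudA_b := by
  simp [PudA_b, PudA_free_neg, PudA_free, atsX]

theorem PudA_free_c : PudA_free PudA_c := (PudA_free_ap _ _).2 PudA_wX
theorem PudA_free_d : PudA_free PudA_d := (PudA_free_ap _ _).2 PudA_qX

/-- The substitution of `V` for `F` in `phiX`. -/
def PudA_step (sC : ℕ) (V : AFm) : AFm :=
  or (subst (xi sC bot bot bot bot) PudA_a) (and (subst (xi sC bot bot bot bot) PudA_b)
    (ex (and (subst (xi sC bot bot bot bot) PudA_c)
      (all (all (all (imp (subst (xi sC bot bot bot bot) PudA_d) V)))))))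

theorem PudA_subst_phiX (sC : ℕ) {V : AFm} (hV : FVs (fun i => i < 3) V) (G H K : AFm) :
    subst (xi sC V G H K) phiX = PudA_step sC V := by
  have hF : subst (xi sC V G H K) (FX 0 1 2) = V := by
    show rename (ext ![0, 1, 2]) V = V
    refine (rename_congr hV ?_).trans (rename_id _)
    intro i hi
    interval_cases i <;> rfl
  rw [PudA_phiX, subst_or, subst_and, subst_ex, subst_and]
  simp only [subst.eq_4, subst.eq_5, hF]
  rw [PudA_free_subst sC V G H K bot bot bot bot PudA_free_a,
    PudA_free_subst sC V G H K bot bot bot bot PudA_free_b,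
    PudA_free_subst sC V G H K bot bot bot bot PudA_free_c,
    PudA_free_subst sC V G H K bot bot bot bot PudA_free_d]
  rfl

theorem Vf_fv (sC k : ℕ) : FVs (fun i => i < 3) (Vf sC k) := by
  induction k with
  | zero => trivial
  | succ k ih => exact FVs_subst (xi_good sC ih (G := bot) (H := bot) (K := bot)
    trivial trivial trivial) phiX_fv

theorem PudA_Vf_succ (sC k : ℕ) (G H K : AFm) :
    subst (xi sC (Vf sC k) G H K) phiX = Vf sC (k + 1) := by
  rw [PudA_subst_phiX sC (Vf_fv sC k)]
  exact (PudA_subst_phiX sC (Vf_fv sC k) bot bot bot).symm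

theorem len_Vf (sC : ℕ) : ∃ C, ∀ k, len (Vf sC k) ≤ C * (k + 1) := by
  refine ⟨4 + len (PudA_step sC bot), ?_⟩
  intro k
  induction k with
  | zero => show 4 ≤ _; omega
  | succ k ih =>
    have h1 : len (Vf sC (k + 1)) + 4 = len (Vf sC k) + len (PudA_step sC bot) := by
      rw [← PudA_Vf_succ sC k bot bot bot, PudA_subst_phiX sC (Vf_fv sC k)]
      simp only [PudA_step, Fm.or, Fm.and, ex, neg, len]
      omega
    nlinarith

theorem PudA_atG {M : Type} (S : XStr M) (x : ℕ) (e : ℕ → M) : Sat S (GX x) e ↔ GR S (e x) := by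
  have h : Sat S (GX x) e = S.rel .G (fun k : Fin 1 => e (![x] k)) := rfl
  rw [h, comp_vec1]; rfl

theorem PudA_atH {M : Type} (S : XStr M) (x : ℕ) (e : ℕ → M) : Sat S (HX x) e ↔ HR S (e x) := by
  have h : Sat S (HX x) e = S.rel .H (fun k : Fin 1 => e (![x] k)) := rfl
  rw [h, comp_vec1]; rfl

theorem PudA_atK {M : Type} (S : XStr M) (x : ℕ) (e : ℕ → M) : Sat S (KX x) e ↔ KR S (e x) := by
  have h : Sat S (KX x) e = S.rel .K (fun k : Fin 1 => e (![x] k)) := rfl
  rw [h, comp_vec1]; rfl

theorem PudA_atZ {M : Type} (S : XStr M) (x : ℕ) (e : ℕ → M) :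
    Sat S (zeroX x) e ↔ zeroR S (e x) := by
  have h : Sat S (zeroX x) e = S.rel .zero (fun k : Fin 1 => e (![x] k)) := rfl
  rw [h, comp_vec1]; rfl

theorem PudA_atS {M : Type} (S : XStr M) (x y : ℕ) (e : ℕ → M) :
    Sat S (succX x y) e ↔ succR S (e x) (e y) := by
  have h : Sat S (succX x y) e = S.rel .succ (fun k : Fin 2 => e (![x, y] k)) := rfl
  rw [h, comp_vec2]; rfl

theorem PudA_atF {M : Type} (S : XStr M) (x y z : ℕ) (e : ℕ → M) :
    Sat S (FX x y z) e ↔ FR S (e x) (e y) (e z) := by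
  have h : Sat S (FX x y z) e = S.rel .F (fun k : Fin 3 => e (![x, y, z] k)) := rfl
  rw [h, comp_vec3]; rfl

theorem PudA_sat_E1X {M : Type} (S : XStr M) (e : ℕ → M) :
    Sat S E1X e ↔ ∀ κ, GR S κ → HM S (FR S) κ := by
  show (∀ a, Sat S (GX 0) (scons a e) → Sat S hX (scons a e)) ↔ _
  refine forall_congr' fun a => ?_
  rw [sat_hX, PudA_atG]
  rfl

theorem PudA_GX_fv : FVs (fun i => i < 1) (GX 0) := by
  intro k
  have h : ∀ k : Fin 1, ![0] k < 1 := by decide
  exact h k
theorem PudA_HX_fv : FVs (fun i => i < 1) (HX 0) := by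
  intro k
  have h : ∀ k : Fin 1, ![0] k < 1 := by decide
  exact h k
theorem PudA_KX_fv : FVs (fun i => i < 1) (KX 0) := by
  intro k
  have h : ∀ k : Fin 1, ![0] k < 1 := by decide
  exact h k
theorem PudA_ZX_fv : FVs (fun i => i < 1) (zeroX 0) := by
  intro k
  have h : ∀ k : Fin 1, ![0] k < 1 := by decide
  exact h k
theorem PudA_FX_fv : FVs (fun i => i < 3) (FX 0 1 2) := by
  intro k
  have h : ∀ k : Fin 3, ![0, 1, 2] k < 3 := by decide
  exact h k

/-- The formula for the successor of an element of `G`. -/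
def PudA_sG : XFm := ex (and (GX 0) (succX 0 1))

theorem PudA_sG_fv : FVs (fun i => i < 1) PudA_sG := by
  unfold PudA_sG
  rw [FVs_ex, FVs_and]
  refine ⟨FVs.mono PudA_GX_fv fun i hi => Or.inl (by omega), ?_⟩
  intro k
  have h : ∀ k : Fin 2, ![0, 1] k = 0 ∨ ![0, 1] k = 1 := by decide
  rcases h k with h | h
  · exact Or.inl h
  · exact Or.inr ⟨0, h, by omega⟩

theorem PudA_sat_sG {M : Type} (S : XStr M) (e : ℕ → M) :
    Sat S PudA_sG e ↔ ∃ y, GR S y ∧ succR S y (e 0) := by
  unfold PudA_sG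
  rw [sat_ex]
  refine exists_congr fun y => ?_
  rw [sat_and, PudA_atG, PudA_atS]
  rfl

theorem PudA_GX (sC : ℕ) (V : AFm) {G : AFm} (H K : AFm) (hG : FVs (fun i => i < 1) G) :
    subst (xi sC V G H K) (GX 0) = G := by
  show rename (ext ![0]) G = G
  refine (rename_congr hG ?_).trans (rename_id _)
  intro i hi
  interval_cases i; rfl

theorem PudA_HX (sC : ℕ) (V G : AFm) {H : AFm} (K : AFm) (hH : FVs (fun i => i < 1) H) :
    subst (xi sC V G H K) (HX 0) = H := by
  show rename (ext ![0]) H = H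
  refine (rename_congr hH ?_).trans (rename_id _)
  intro i hi
  interval_cases i; rfl

theorem PudA_KX (sC : ℕ) (V G H : AFm) {K : AFm} (hK : FVs (fun i => i < 1) K) :
    subst (xi sC V G H K) (KX 0) = K := by
  show rename (ext ![0]) K = K
  refine (rename_congr hK ?_).trans (rename_id _)
  intro i hi
  interval_cases i; rfl

theorem PudA_FX (sC : ℕ) {V : AFm} (G H K : AFm) (hV : FVs (fun i => i < 3) V) :
    subst (xi sC V G H K) (FX 0 1 2) = V := by
  show rename (ext ![0, 1, 2]) V = V
  refine (rename_congr hV ?_).trans (rename_id _)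
  intro i hi
  interval_cases i <;> rfl

theorem PudA_ZX (sC : ℕ) (V G H K : AFm) : subst (xi sC V G H K) (zeroX 0) = zeroA 0 := by
  show rename (ext ![0]) (zeroA 0) = zeroA 0
  simp only [zeroA, rename]
  congr 1
  funext k
  have h : ∀ k : Fin 1, ext ![0] (![0] k) = ![0] k := by decide
  exact h k

theorem PudA_subst_sG (sC : ℕ) (V H K : AFm) (k : ℕ) :
    subst (xi sC V (Uf k) H K) PudA_sG = Uf (k + 1) := by
  unfold PudA_sG
  rw [subst_ex, subst_and, PudA_GX sC V H K (Uf_fv k)]
  have h2 : subst (xi sC V (Uf k) H K) (succX 0 1) = succA 0 1 := by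
    show rename (ext ![0, 1]) (succA 0 1) = succA 0 1
    simp only [succA, rename]
    congr 1
    funext k
    have h : ∀ k : Fin 2, ext ![0, 1] (![0, 1] k) = ![0, 1] k := by decide
    exact h k
  rw [h2]
  rfl

theorem PudA_sat_GX {M : Type} (S : XStr M) :
    (fun x => Sat S (GX 0) (fun _ => x)) = GR S := by
  funext x; exact propext (PudA_atG S 0 _)
theorem PudA_sat_HX {M : Type} (S : XStr M) :
    (fun x => Sat S (HX 0) (fun _ => x)) = HR S := by
  funext x; exact propext (PudA_atH S 0 _)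
theorem PudA_sat_KX {M : Type} (S : XStr M) :
    (fun x => Sat S (KX 0) (fun _ => x)) = KR S := by
  funext x; exact propext (PudA_atK S 0 _)
theorem PudA_sat_ZX {M : Type} (S : XStr M) :
    (fun x => Sat S (zeroX 0) (fun _ => x)) = zeroR S := by
  funext x; exact propext (PudA_atZ S 0 _)
theorem PudA_sat_FX {M : Type} (S : XStr M) :
    (fun x y z => Sat S (FX 0 1 2) (PudA_asg x y z)) = FR S := by
  funext x y z; exact propext (PudA_atF S 0 1 2 _)
theorem PudA_sat_sG' {M : Type} (S : XStr M) :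
    (fun x => Sat S PudA_sG (fun _ => x)) = fun x => ∃ y, GR S y ∧ succR S y x := by
  funext x; exact propext (PudA_sat_sG S _)
theorem PudA_sat_phiX {M : Type} (S : XStr M) :
    (fun x y z => Sat S phiX (PudA_asg x y z)) = PhiM S (FR S) := by
  funext x y z; exact propext (sat_phiX S _)

/-- Chains of short proofs. -/
theorem PudA_chain {R : Type} {ar : R → ℕ} {T : Set (Fm R ar)} {P : ℕ → Fm R ar} {B n : ℕ}
    (h0 : Pv T B (P 0)) (hs : ∀ k, k < n → Pv T B (imp (P k) (P (k + 1)))) :
    ∀ k, k ≤ n → Pv T ((2 * k + 1) * B) (P k) := by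
  intro k
  induction k with
  | zero => intro _; simpa using h0
  | succ k ih =>
    intro hk
    refine ((hs k hk).mp' (ih (by omega))).mono ?_
    nlinarith

theorem PudA_mod_GR {M : Type} (S : XStr M) (F : M → M → M → Prop) (G H K : M → Prop) :
    GR (PudA_mod S F G H K) = G := rfl

theorem PudA_mod_FR {M : Type} (S : XStr M) (F : M → M → M → Prop) (G H K : M → Prop) :
    FR (PudA_mod S F G H K) = F := rfl

theorem pud1 (cE sC : ℕ) (T : List AFm) (hT : ∀ φ ∈ BaseA cE sC, φ ∈ T)
    (hc : ∀ φ ∈ T, Closed φ) :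
    ∃ C, ∀ n, Pv {ψ | ψ ∈ T} (C * (n + 1) ^ 2)
      (subst (xi sC (Vf sC n) (Uf n) bot bot) E1X) := by
  -- the base
  have base : ∀ (M : Type) [Nonempty M] (S : XStr M), SMax S cE (cdL A0) sC → QM S →
      (∀ ψ ∈ T, ∀ e, Sat S (emb ψ) e) → ∀ e,
        Sat S (subst (PudA_sig bot (zeroX 0) bot bot) E1X) e := by
    intro M _ S hS _ _ e
    rw [PudA_sat S (F' := bot) (H' := bot) (K' := bot) trivial
      PudA_ZX_fv trivial trivial, PudA_sat_E1X, PudA_HM, PudA_mod_GR]
    exact fun κ hκ => HM_zero hS _ ((PudA_atZ S 0 _).1 hκ)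
  have step : ∀ (M : Type) [Nonempty M] (S : XStr M), SMax S cE (cdL A0) sC → QM S →
      (∀ ψ ∈ T, ∀ e, Sat S (emb ψ) e) → ∀ e,
        Sat S (imp E1X (subst (PudA_sig phiX PudA_sG bot bot) E1X)) e := by
    intro M _ S hS hq _ e
    show Sat S E1X e → Sat S (subst (PudA_sig phiX PudA_sG bot bot) E1X) e
    rw [PudA_sat S (H' := bot) (K' := bot) phiX_fv PudA_sG_fv trivial trivial, PudA_sat_E1X,
      PudA_sat_E1X, PudA_HM, PudA_mod_GR, PudA_mod_FR, PudA_sat_phiX]
    intro h κ' hκ'
    obtain ⟨κ, hκ, hs⟩ := (PudA_sat_sG S _).1 hκ'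
    exact HM_succ hS hq (h κ hκ) hs
  obtain ⟨C0, h0⟩ := fam cE sC T hT hc base
  obtain ⟨C1, h1⟩ := fam cE sC T hT hc step
  obtain ⟨CV, hCV⟩ := len_Vf sC
  have hB : ∃ B, B = C0 * 17 + C1 * (109 + CV) := ⟨_, rfl⟩
  obtain ⟨B, hB⟩ := hB
  refine ⟨2 * B, fun n => ?_⟩
  have key := PudA_chain (T := {ψ | ψ ∈ T}) (n := n)
    (P := fun k => subst (xi sC (Vf sC k) (Uf k) bot bot) E1X) (B := B * (n + 1)) ?_ ?_ n le_rfl
  · refine key.mono ?_
    nlinarith
  · have h2 := h0 bot bot bot bot trivial trivial trivial trivial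
    rw [PudA_comp sC (V := bot) (G := bot) (H := bot) (K := bot) trivial trivial trivial trivial
      (F' := bot) (H' := bot) (K' := bot) trivial PudA_ZX_fv trivial trivial, PudA_ZX] at h2
    refine Pv.mono (h2 : Pv _ _ (subst (xi sC (Vf sC 0) (Uf 0) bot bot) E1X)) ?_
    simp only [len]
    nlinarith [Nat.zero_le (C0 * n), Nat.zero_le (C1 * (n + 1)), Nat.zero_le (C1 * CV * (n + 1))]
  · intro k hk
    have h2 := h1 (Vf sC k) (Uf k) bot bot (Vf_fv sC k) (Uf_fv k) trivial trivial
    have h3 : subst (xi sC (Vf sC k) (Uf k) bot bot)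
        (imp E1X (subst (PudA_sig phiX PudA_sG bot bot) E1X)) =
        imp (subst (xi sC (Vf sC k) (Uf k) bot bot) E1X)
          (subst (xi sC (Vf sC (k + 1)) (Uf (k + 1)) bot bot) E1X) := by
      show imp _ (subst _ (subst _ _)) = _
      rw [PudA_comp sC (H := bot) (K := bot) (Vf_fv sC k) (Uf_fv k) trivial trivial
        (H' := bot) (K' := bot) phiX_fv PudA_sG_fv trivial trivial, PudA_Vf_succ, PudA_subst_sG]
      rfl
    rw [h3] at h2
    refine h2.mono ?_
    have h4 := hCV k
    have h5 := len_Uf k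
    have h6 : 1 + len (Vf sC k) + len (Uf k) + len (bot : AFm) + len (bot : AFm) ≤
        (109 + CV) * (n + 1) := by
      simp only [len]
      nlinarith [Nat.mul_le_mul_left CV (show k + 1 ≤ n + 1 by omega)]
    calc C1 * _ ≤ C1 * ((109 + CV) * (n + 1)) := Nat.mul_le_mul_left _ h6
      _ ≤ _ := by nlinarith [Nat.zero_le (C0 * 17 * (n + 1))]

end Pool.Agent.Myc
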