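import Pool.Agent.Myc.PudA
import Pool.Agent.Myc.IntD

set_option autoImplicit false

namespace Pool.Agent.Myc

open Fm

theorem PudB_sat_E2X {M : Type} (S : XStr M) (e : ℕ → M) :
    Sat S E2X e ↔ ∀ κ ν, KR S ν → GR S κ → SLM S (FR S) ν κ := by
  show (∀ a b, Sat S (KX 0) (scons b (scons a e)) → Sat S (GX 1) (scons b (scons a e)) →
    Sat S slX (scons b (scons a e))) ↔ _
  refine forall_congr' fun a => forall_congr' fun b => ?_
  rw [sat_slX, PudA_atK, PudA_atG]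
  rfl

/-- The formula of the chain: `E2X` under the hypothesis `E1X` for `K`. -/
def PudB_W : XFm := imp (subst (PudA_sig (FX 0 1 2) (KX 0) bot bot) E1X) E2X

theorem PudB_sat_W {M : Type} [Nonempty M] (S : XStr M) (e : ℕ → M) :
    Sat S PudB_W e ↔ ((∀ κ, KR S κ → HM S (FR S) κ) →
      ∀ κ ν, KR S ν → GR S κ → SLM S (FR S) ν κ) := by
  show (Sat S (subst (PudA_sig (FX 0 1 2) (KX 0) bot bot) E1X) e → Sat S E2X e) ↔ _
  rw [PudB_sat_E2X, PudA_sat S (H' := bot) (K' := bot) PudA_FX_fv PudA_KX_fv trivial trivial,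
    PudA_sat_E1X, PudA_HM, PudA_mod_GR, PudA_mod_FR, PudA_sat_FX]
  simp only [PudA_atK]

theorem PudB_mod_KR {M : Type} (S : XStr M) (F : M → M → M → Prop) (G H K : M → Prop) :
    KR (PudA_mod S F G H K) = K := rfl

theorem pud2 (cE sC : ℕ) (T : List AFm) (hT : ∀ φ ∈ BaseA cE sC, φ ∈ T)
    (hc : ∀ φ ∈ T, Closed φ) :
    ∃ C, ∀ n k, k ≤ n → Pv {ψ | ψ ∈ T} (C * (n + 1) ^ 2)
      (subst (xi sC (Vf sC n) (Uf k) bot (Uf n)) E2X) := by
  -- the base
  have base : ∀ (M : Type) [Nonempty M] (S : XStr M), SMax S cE (cdL A0) sC → QM S →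
      (∀ ψ ∈ T, ∀ e, Sat S (emb ψ) e) → ∀ e,
        Sat S (subst (PudA_sig (FX 0 1 2) (zeroX 0) bot (KX 0)) PudB_W) e := by
    intro M _ S hS _ _ e
    rw [PudA_sat S (H' := bot) PudA_FX_fv PudA_ZX_fv trivial PudA_KX_fv, PudB_sat_W, PudA_SLM,
      PudA_mod_GR]
    intro _ κ ν _ hκ
    exact SLM_zero hS ((PudA_atZ S 0 _).1 hκ)
  have step : ∀ (M : Type) [Nonempty M] (S : XStr M), SMax S cE (cdL A0) sC → QM S →
      (∀ ψ ∈ T, ∀ e, Sat S (emb ψ) e) → ∀ e,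
        Sat S (imp PudB_W (subst (PudA_sig (FX 0 1 2) PudA_sG bot (KX 0)) PudB_W)) e := by
    intro M _ S hS hq _ e
    show Sat S PudB_W e → Sat S (subst (PudA_sig (FX 0 1 2) PudA_sG bot (KX 0)) PudB_W) e
    rw [PudA_sat S (H' := bot) PudA_FX_fv PudA_sG_fv trivial PudA_KX_fv, PudB_sat_W, PudB_sat_W,
      PudA_SLM, PudA_HM, PudA_mod_GR, PudA_mod_FR, PudB_mod_KR, PudA_sat_FX]
    simp only [PudA_atK]
    intro h hE κ' ν hν hκ'
    obtain ⟨κ, hκ, hs⟩ := (PudA_sat_sG S _).1 hκ'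
    exact SLM_succ hS hq (hE ν hν) (h hE κ ν hν hκ) hs
  obtain ⟨C0, h0⟩ := fam cE sC T hT hc base
  obtain ⟨C1, h1⟩ := fam cE sC T hT hc step
  obtain ⟨C2, h2⟩ := pud1 cE sC T hT hc
  obtain ⟨CV, hCV⟩ := len_Vf sC
  obtain ⟨B, hB⟩ : ∃ B, B = (C0 + C1) * (209 + CV) := ⟨_, rfl⟩
  have hW : ∀ n k, subst (xi sC (Vf sC n) (Uf k) bot (Uf n)) PudB_W =
      imp (subst (xi sC (Vf sC n) (Uf n) bot bot) E1X)
        (subst (xi sC (Vf sC n) (Uf k) bot (Uf n)) E2X) := by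
    intro n k
    show imp (subst _ (subst _ _)) _ = _
    rw [PudA_comp sC (H := bot) (Vf_fv sC n) (Uf_fv k) trivial (Uf_fv n)
      (H' := bot) (K' := bot) PudA_FX_fv PudA_KX_fv trivial trivial,
      PudA_FX sC _ _ _ (Vf_fv sC n), PudA_KX sC _ _ _ (Uf_fv n)]
    rfl
  have hlen : ∀ n k, k ≤ n → 1 + len (Vf sC n) + len (Uf k) + len (bot : AFm) + len (Uf n) ≤
      (209 + CV) * (n + 1) := by
    intro n k hk
    have h4 := hCV n
    have h5 := len_Uf k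
    have h6 := len_Uf n
    simp only [len]
    nlinarith
  refine ⟨4 * B + C2, fun n k hk => ?_⟩
  have key := PudA_chain (T := {ψ | ψ ∈ T}) (n := n)
    (P := fun k => subst (xi sC (Vf sC n) (Uf k) bot (Uf n)) PudB_W) (B := B * (n + 1))
    ?_ ?_ k hk
  · have key' := key
    simp only [hW] at key'
    refine (key'.mp' (h2 n)).mono ?_
    have h3 : k * (B * (n + 1)) ≤ n * (B * (n + 1)) := Nat.mul_le_mul_right _ hk
    nlinarith
  · have h3 := h0 (Vf sC n) bot bot (Uf n) (Vf_fv sC n) trivial trivial (Uf_fv n)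
    rw [PudA_comp sC (G := bot) (H := bot) (Vf_fv sC n) trivial trivial (Uf_fv n)
      (H' := bot) PudA_FX_fv PudA_ZX_fv trivial PudA_KX_fv, PudA_ZX,
      PudA_FX sC _ _ _ (Vf_fv sC n), PudA_KX sC _ _ _ (Uf_fv n)] at h3
    refine Pv.mono (h3 : Pv _ _ (subst (xi sC (Vf sC n) (Uf 0) bot (Uf n)) PudB_W)) ?_
    have h4 := hlen n 0 (by omega)
    have h5 : 1 + len (Vf sC n) + len (bot : AFm) + len (bot : AFm) + len (Uf n) ≤
        (209 + CV) * (n + 1) := by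
      refine le_trans ?_ h4
      have : len (bot : AFm) ≤ len (Uf 0) := by simp [Uf, zeroA, len]
      omega
    calc C0 * _ ≤ C0 * ((209 + CV) * (n + 1)) := Nat.mul_le_mul_left _ h5
      _ ≤ _ := by rw [hB]; nlinarith [Nat.zero_le (C1 * (209 + CV) * (n + 1))]
  · intro k hk
    have h3 := h1 (Vf sC n) (Uf k) bot (Uf n) (Vf_fv sC n) (Uf_fv k) trivial (Uf_fv n)
    have h4 : subst (xi sC (Vf sC n) (Uf k) bot (Uf n))
        (imp PudB_W (subst (PudA_sig (FX 0 1 2) PudA_sG bot (KX 0)) PudB_W)) =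
        imp (subst (xi sC (Vf sC n) (Uf k) bot (Uf n)) PudB_W)
          (subst (xi sC (Vf sC n) (Uf (k + 1)) bot (Uf n)) PudB_W) := by
      show imp _ (subst _ (subst _ _)) = _
      rw [PudA_comp sC (H := bot) (Vf_fv sC n) (Uf_fv k) trivial (Uf_fv n)
        (H' := bot) PudA_FX_fv PudA_sG_fv trivial PudA_KX_fv, PudA_subst_sG,
        PudA_FX sC _ _ _ (Vf_fv sC n), PudA_KX sC _ _ _ (Uf_fv n)]
      rfl
    rw [h4] at h3
    refine h3.mono ?_
    calc C1 * _ ≤ C1 * ((209 + CV) * (n + 1)) := Nat.mul_le_mul_left _ (hlen n k hk.le)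
      _ ≤ _ := by rw [hB]; nlinarith [Nat.zero_le (C0 * (209 + CV) * (n + 1))]

end Pool.Agent.Myc
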