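import Pool.Agent.Myc.PudB
import Pool.Agent.Myc.IntE

set_option autoImplicit false

namespace Pool.Agent.Myc

open Fm

theorem PudC_atpf {M : Type} (S : XStr M) (x y z w : ℕ) (e : ℕ → M) :
    Sat S (pfX x y z w) e ↔ pfR S (e x) (e y) (e z) (e w) := by
  have h : Sat S (pfX x y z w) e = S.rel .pf (fun k : Fin 4 => e (![x, y, z, w] k)) := rfl
  rw [h, comp_vec4]; rfl

theorem PudC_atpp {M : Type} (S : XStr M) (x y z : ℕ) (e : ℕ → M) :
    Sat S (ppX x y z) e ↔ ppR S (e x) (e y) (e z) := by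
  have h : Sat S (ppX x y z) e = S.rel .pp (fun k : Fin 3 => e (![x, y, z] k)) := rfl
  rw [h, comp_vec3]; rfl

theorem PudC_sat_lnX {M : Type} (S : XStr M) (e : ℕ → M) :
    Sat S lnX e ↔ LNM S (FR S) (e 0) (e 1) (e 2) := by
  unfold lnX LNM
  simp only [alL, sat_alN, sat_imp, PudC_atpf, sat_isNX, PudA_atF]
  constructor
  · intro h y hy s i hi
    exact h y s i (by simpa [Function.update] using hy) (by simpa [Function.update] using hi)
  · intro h y s i hy hi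
    have hy' : pfR S (e 1) (e 0) (e 2) y := by simpa [Function.update] using hy
    have hi' : IsN S 1 i := by simpa [Function.update] using hi
    simpa [Function.update] using h y hy' s i hi'

theorem PudC_sat_E3X {M : Type} (S : XStr M) (e : ℕ → M) :
    Sat S E3X e ↔ ∀ m a ν, KR S ν → HR S a → GR S m → LNM S (FR S) ν a m := by
  show (∀ m a ν, Sat S (KX 0) (scons ν (scons a (scons m e))) →
    Sat S (HX 1) (scons ν (scons a (scons m e))) →
    Sat S (GX 2) (scons ν (scons a (scons m e))) →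
    Sat S lnX (scons ν (scons a (scons m e)))) ↔ _
  refine forall_congr' fun m => forall_congr' fun a => forall_congr' fun ν => ?_
  rw [PudC_sat_lnX, PudA_atK, PudA_atH, PudA_atG]
  rfl

theorem PudC_LNM {M : Type} (S : XStr M) (F : M → M → M → Prop) (G H K : M → Prop) :
    LNM (PudA_mod S F G H K) = LNM S := by
  funext Φ ν a m
  unfold LNM
  rw [PudA_isN]
  rfl

theorem PudC_mod_HR {M : Type} (S : XStr M) (F : M → M → M → Prop) (G H K : M → Prop) :
    HR (PudA_mod S F G H K) = H := rfl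

theorem PudC_isNX_fv (k : ℕ) : FVs (fun i => i < 1) (isNX k 0) :=
  isNX_fv k 0 _ (by omega)

theorem PudC_isNX {sC : ℕ} {V G H K : AFm} (hg : Good arX (xi sC V G H K)) (k x : ℕ) :
    subst (xi sC V G H K) (isNX k x) = ap (num k) [x] := by
  unfold isNX
  rw [subst_ap hg, subst_xi_emb]

theorem PudC_ap0 {φ : AFm} (h : FVs (fun i => i < 1) φ) : ap φ [0] = φ := by
  unfold ap
  refine (rename_congr h ?_).trans (rename_id _)
  intro i hi
  interval_cases i; rfl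

/-- The formula of the chain: `E3X` under the hypotheses `E1X` and `E2X` for `K`. -/
def PudC_W : XFm := imp (subst (PudA_sig (FX 0 1 2) (KX 0) bot bot) E1X)
  (imp (subst (PudA_sig (FX 0 1 2) (KX 0) bot (KX 0)) E2X) E3X)

theorem PudC_sat_W {M : Type} [Nonempty M] (S : XStr M) (e : ℕ → M) :
    Sat S PudC_W e ↔ ((∀ κ, KR S κ → HM S (FR S) κ) →
      (∀ κ ν, KR S ν → KR S κ → SLM S (FR S) ν κ) →
      ∀ m a ν, KR S ν → HR S a → GR S m → LNM S (FR S) ν a m) := by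
  show (Sat S (subst (PudA_sig (FX 0 1 2) (KX 0) bot bot) E1X) e →
    Sat S (subst (PudA_sig (FX 0 1 2) (KX 0) bot (KX 0)) E2X) e → Sat S E3X e) ↔ _
  rw [PudC_sat_E3X, PudA_sat S (H' := bot) (K' := bot) PudA_FX_fv PudA_KX_fv trivial trivial,
    PudA_sat S (H' := bot) PudA_FX_fv PudA_KX_fv trivial PudA_KX_fv,
    PudA_sat_E1X, PudB_sat_E2X, PudA_HM, PudA_SLM, PudA_mod_GR, PudA_mod_GR, PudA_mod_FR,
    PudA_mod_FR, PudB_mod_KR, PudA_sat_FX]
  simp only [PudA_atK]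

theorem pud3 (cE sC : ℕ) (T : List AFm) (hT : ∀ φ ∈ BaseA cE sC, φ ∈ T)
    (hc : ∀ φ ∈ T, Closed φ) :
    ∃ C, ∀ n k, k ≤ n → Pv {ψ | ψ ∈ T} (C * (n + 1) ^ 2)
      (subst (xi sC (Vf sC n) (Uf k) (num (cdL T)) (Uf n)) E3X) := by
  -- the base
  have base : ∀ (M : Type) [Nonempty M] (S : XStr M), SMax S cE (cdL A0) sC → QM S →
      (∀ ψ ∈ T, ∀ e, Sat S (emb ψ) e) → ∀ e,
        Sat S (subst (PudA_sig (FX 0 1 2) (zeroX 0) (isNX (cdL T) 0) (KX 0)) PudC_W) e := by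
    intro M _ S hS _ _ e
    rw [PudA_sat S PudA_FX_fv PudA_ZX_fv (PudC_isNX_fv _) PudA_KX_fv, PudC_sat_W, PudC_LNM,
      PudA_mod_GR]
    intro _ _ m a ν _ _ hm
    exact LNM_zero hS ((PudA_atZ S 0 _).1 hm)
  have step : ∀ (M : Type) [Nonempty M] (S : XStr M), SMax S cE (cdL A0) sC → QM S →
      (∀ ψ ∈ T, ∀ e, Sat S (emb ψ) e) → ∀ e,
        Sat S (imp (subst (PudA_sig (FX 0 1 2) (GX 0) (isNX (cdL T) 0) (KX 0)) PudC_W)
          (subst (PudA_sig (FX 0 1 2) PudA_sG (isNX (cdL T) 0) (KX 0)) PudC_W)) e := by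
    intro M _ S hS hq hTM e
    show Sat S (subst _ PudC_W) e → Sat S (subst _ PudC_W) e
    rw [PudA_sat S PudA_FX_fv PudA_GX_fv (PudC_isNX_fv _) PudA_KX_fv,
      PudA_sat S PudA_FX_fv PudA_sG_fv (PudC_isNX_fv _) PudA_KX_fv, PudC_sat_W, PudC_sat_W,
      PudC_LNM, PudC_LNM, PudA_SLM, PudA_SLM, PudA_HM, PudA_HM, PudA_mod_GR, PudA_mod_GR,
      PudA_mod_FR, PudA_mod_FR, PudB_mod_KR, PudB_mod_KR, PudC_mod_HR, PudC_mod_HR,
      PudA_sat_FX]
    simp only [PudA_atK, PudA_atG, sat_isNX]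
    intro h hE hR m' a ν hν ha hm'
    obtain ⟨m, hm, hs⟩ := (PudA_sat_sG S _).1 hm'
    exact LNM_succ hS hq (hE ν hν) (hR ν ν hν hν) (axioms_true hS hq (hE ν hν) hTM ha)
      (h hE hR m a ν hν ha hm) hs
  obtain ⟨C0, h0⟩ := fam cE sC T hT hc base
  obtain ⟨C1, h1⟩ := fam cE sC T hT hc step
  obtain ⟨C2, h2⟩ := pud1 cE sC T hT hc
  obtain ⟨C3, h3⟩ := pud2 cE sC T hT hc
  obtain ⟨CV, hCV⟩ := len_Vf sC
  have hN : FVs (fun i => i < 1) (num (cdL T)) := FVs_num _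
  have hW : ∀ n k, subst (xi sC (Vf sC n) (Uf k) (num (cdL T)) (Uf n)) PudC_W =
      imp (subst (xi sC (Vf sC n) (Uf n) bot bot) E1X)
        (imp (subst (xi sC (Vf sC n) (Uf n) bot (Uf n)) E2X)
          (subst (xi sC (Vf sC n) (Uf k) (num (cdL T)) (Uf n)) E3X)) := by
    intro n k
    show imp (subst _ (subst _ _)) (imp (subst _ (subst _ _)) _) = _
    rw [PudA_comp sC (Vf_fv sC n) (Uf_fv k) hN (Uf_fv n)
      (H' := bot) (K' := bot) PudA_FX_fv PudA_KX_fv trivial trivial,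
      PudA_comp sC (Vf_fv sC n) (Uf_fv k) hN (Uf_fv n)
      (H' := bot) PudA_FX_fv PudA_KX_fv trivial PudA_KX_fv,
      PudA_FX sC _ _ _ (Vf_fv sC n), PudA_KX sC _ _ _ (Uf_fv n)]
    rfl
  have hlen : ∀ n k, k ≤ n → 1 + len (Vf sC n) + len (Uf k) + len (bot : AFm) + len (Uf n) ≤
      (209 + CV) * (n + 1) := by
    intro n k hk
    have h4 := hCV n
    have h5 := len_Uf k
    have h6 := len_Uf n
    simp only [len]
    nlinarith
  have hI : ∀ n (G : AFm), FVs (fun i => i < 1) G →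
      subst (xi sC (Vf sC n) G bot (Uf n)) (isNX (cdL T) 0) = num (cdL T) := by
    intro n G hG
    rw [PudC_isNX (xi_good sC (Vf_fv sC n) hG (H := bot) trivial (Uf_fv n)), PudC_ap0 hN]
  obtain ⟨B, hB⟩ : ∃ B, B = (C0 + C1) * (209 + CV) := ⟨_, rfl⟩
  refine ⟨8 * B + 2 * C2 + C3, fun n k hk => ?_⟩
  have key := PudA_chain (T := {ψ | ψ ∈ T}) (n := n)
    (P := fun k => subst (xi sC (Vf sC n) (Uf k) (num (cdL T)) (Uf n)) PudC_W) (B := B * (n + 1))
    ?_ ?_ k hk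
  · have key' := key
    simp only [hW] at key'
    refine ((key'.mp' (h2 n)).mp' (h3 n n le_rfl)).mono ?_
    have h4 : k * (B * (n + 1)) ≤ n * (B * (n + 1)) := Nat.mul_le_mul_right _ hk
    nlinarith
  · have h4 := h0 (Vf sC n) bot bot (Uf n) (Vf_fv sC n) trivial trivial (Uf_fv n)
    rw [PudA_comp sC (G := bot) (H := bot) (Vf_fv sC n) trivial trivial (Uf_fv n)
      PudA_FX_fv PudA_ZX_fv (PudC_isNX_fv _) PudA_KX_fv, PudA_ZX,
      PudA_FX sC _ _ _ (Vf_fv sC n), PudA_KX sC _ _ _ (Uf_fv n), hI n bot trivial] at h4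
    refine Pv.mono (h4 : Pv _ _ (subst (xi sC (Vf sC n) (Uf 0) (num (cdL T)) (Uf n)) PudC_W)) ?_
    have h5 := hlen n 0 (by omega)
    have h6 : 1 + len (Vf sC n) + len (bot : AFm) + len (bot : AFm) + len (Uf n) ≤
        (209 + CV) * (n + 1) := by
      refine le_trans ?_ h5
      have : len (bot : AFm) ≤ len (Uf 0) := by simp [Uf, zeroA, len]
      omega
    calc C0 * _ ≤ C0 * ((209 + CV) * (n + 1)) := Nat.mul_le_mul_left _ h6
      _ ≤ _ := by rw [hB]; nlinarith [Nat.zero_le (C1 * (209 + CV) * (n + 1))]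
  · intro k hk
    have h4 := h1 (Vf sC n) (Uf k) bot (Uf n) (Vf_fv sC n) (Uf_fv k) trivial (Uf_fv n)
    have h5 : subst (xi sC (Vf sC n) (Uf k) bot (Uf n))
        (imp (subst (PudA_sig (FX 0 1 2) (GX 0) (isNX (cdL T) 0) (KX 0)) PudC_W)
          (subst (PudA_sig (FX 0 1 2) PudA_sG (isNX (cdL T) 0) (KX 0)) PudC_W)) =
        imp (subst (xi sC (Vf sC n) (Uf k) (num (cdL T)) (Uf n)) PudC_W)
          (subst (xi sC (Vf sC n) (Uf (k + 1)) (num (cdL T)) (Uf n)) PudC_W) := by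
      show imp (subst _ (subst _ _)) (subst _ (subst _ _)) = _
      rw [PudA_comp sC (H := bot) (Vf_fv sC n) (Uf_fv k) trivial (Uf_fv n)
        PudA_FX_fv PudA_GX_fv (PudC_isNX_fv _) PudA_KX_fv,
        PudA_comp sC (H := bot) (Vf_fv sC n) (Uf_fv k) trivial (Uf_fv n)
        PudA_FX_fv PudA_sG_fv (PudC_isNX_fv _) PudA_KX_fv, PudA_subst_sG,
        PudA_FX sC _ _ _ (Vf_fv sC n), PudA_KX sC _ _ _ (Uf_fv n), PudA_GX sC _ _ _ (Uf_fv k),
        hI n (Uf k) (Uf_fv k)]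
    rw [h5] at h4
    refine h4.mono ?_
    calc C1 * _ ≤ C1 * ((209 + CV) * (n + 1)) := Nat.mul_le_mul_left _ (hlen n k hk.le)
      _ ≤ _ := by rw [hB]; nlinarith [Nat.zero_le (C0 * (209 + CV) * (n + 1))]

/-- The formula of the last step. -/
def PudC_Z (c : ℕ) : XFm := imp (subst (PudA_sig (FX 0 1 2) (KX 0) bot bot) E1X)
  (imp (subst (PudA_sig (FX 0 1 2) (KX 0) (isNX c 0) (KX 0)) E3X)
    (alls 3 (imp (KX 0) (imp (isNX c 1) (imp (isNX 16 2) (neg (ppX 1 0 2)))))))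

/-- Short proofs of finitistic consistency. -/
theorem pudlak (cE sC : ℕ) (T : List AFm) (hT : ∀ φ ∈ BaseA cE sC, φ ∈ T)
    (hc : ∀ φ ∈ T, Closed φ) :
    ∃ C, ∀ n, Pv {ψ | ψ ∈ T} (C * (n + 1) ^ 2) (UCon T n) := by
  have last : ∀ (M : Type) [Nonempty M] (S : XStr M), SMax S cE (cdL A0) sC → QM S →
      (∀ ψ ∈ T, ∀ e, Sat S (emb ψ) e) → ∀ e, Sat S (PudC_Z (cdL T)) e := by
    intro M _ S hS hq hTM e
    show Sat S (subst _ E1X) e → Sat S (subst _ E3X) e →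
      ∀ y a ν, Sat S (KX 0) (scons ν (scons a (scons y e))) →
      Sat S (isNX (cdL T) 1) (scons ν (scons a (scons y e))) →
      Sat S (isNX 16 2) (scons ν (scons a (scons y e))) →
      ¬ Sat S (ppX 1 0 2) (scons ν (scons a (scons y e)))
    rw [PudA_sat S (H' := bot) (K' := bot) PudA_FX_fv PudA_KX_fv trivial trivial,
      PudA_sat S PudA_FX_fv PudA_KX_fv (PudC_isNX_fv _) PudA_KX_fv,
      PudA_sat_E1X, PudC_sat_E3X, PudA_HM, PudC_LNM, PudA_mod_GR, PudA_mod_GR, PudA_mod_FR,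
      PudA_mod_FR, PudB_mod_KR, PudC_mod_HR, PudA_sat_FX]
    simp only [PudA_atK, sat_isNX, PudC_atpp]
    intro hE hL y a ν hν ha hy
    exact not_pp hS hq (hE ν hν) (hL ν a ν hν ha hν) hy
  obtain ⟨C1, h1⟩ := fam cE sC T hT hc last
  obtain ⟨C2, h2⟩ := pud1 cE sC T hT hc
  obtain ⟨C3, h3⟩ := pud3 cE sC T hT hc
  obtain ⟨CV, hCV⟩ := len_Vf sC
  have hN : FVs (fun i => i < 1) (num (cdL T)) := FVs_num _
  have hI : ∀ n, subst (xi sC (Vf sC n) bot bot (Uf n)) (isNX (cdL T) 0) = num (cdL T) := by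
    intro n
    rw [PudC_isNX (xi_good sC (Vf_fv sC n) (G := bot) trivial (H := bot) trivial (Uf_fv n)),
      PudC_ap0 hN]
  refine ⟨4 * (C1 * (109 + CV)) + 2 * C2 + C3, fun n => ?_⟩
  have h4 := h1 (Vf sC n) bot bot (Uf n) (Vf_fv sC n) trivial trivial (Uf_fv n)
  have h5 : subst (xi sC (Vf sC n) bot bot (Uf n)) (PudC_Z (cdL T)) =
      imp (subst (xi sC (Vf sC n) (Uf n) bot bot) E1X)
        (imp (subst (xi sC (Vf sC n) (Uf n) (num (cdL T)) (Uf n)) E3X) (UCon T n)) := by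
    have hg := xi_good sC (Vf_fv sC n) (G := bot) trivial (H := bot) trivial (Uf_fv n)
    have e1 : subst (xi sC (Vf sC n) bot bot (Uf n)) (KX 0) = ap (Uf n) [0] := by
      show rename (ext ![0]) (Uf n) = rename _ (Uf n)
      refine rename_congr (Uf_fv n) ?_
      intro i hi
      interval_cases i; rfl
    have e2 : subst (xi sC (Vf sC n) bot bot (Uf n)) (ppX 1 0 2) = ap provF [1, 0, 2] := by
      show rename (ext ![1, 0, 2]) provF = rename _ provF
      refine rename_congr provF_fv ?_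
      intro i hi
      interval_cases i <;> rfl
    show imp (subst _ (subst _ _)) (imp (subst _ (subst _ _)) (subst _ _)) = _
    rw [PudA_comp sC (G := bot) (H := bot) (Vf_fv sC n) trivial trivial (Uf_fv n)
      (H' := bot) (K' := bot) PudA_FX_fv PudA_KX_fv trivial trivial,
      PudA_comp sC (G := bot) (H := bot) (Vf_fv sC n) trivial trivial (Uf_fv n)
      PudA_FX_fv PudA_KX_fv (PudC_isNX_fv _) PudA_KX_fv,
      PudA_FX sC _ _ _ (Vf_fv sC n), PudA_KX sC _ _ _ (Uf_fv n), hI n, subst_alls,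
      subst.eq_4, subst.eq_4, subst.eq_4, subst_neg, PudC_isNX hg, PudC_isNX hg, e1, e2]
    rfl
  rw [h5] at h4
  refine ((h4.mp' (h2 n)).mp' (h3 n n le_rfl)).mono ?_
  have h6 := hCV n
  have h7 := len_Uf n
  have h8 : 1 + len (Vf sC n) + len (bot : AFm) + len (bot : AFm) + len (Uf n) ≤
      (109 + CV) * (n + 1) := by
    simp only [len]
    nlinarith
  have h9 : C1 * (1 + len (Vf sC n) + len (bot : AFm) + len (bot : AFm) + len (Uf n)) ≤
      C1 * (109 + CV) * (n + 1) := by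
    calc _ ≤ C1 * ((109 + CV) * (n + 1)) := Nat.mul_le_mul_left _ h8
      _ = _ := by ring
  have h10 : C1 * (109 + CV) * (n + 1) ≤ C1 * (109 + CV) * (n + 1) ^ 2 := by
    refine Nat.mul_le_mul_left _ ?_
    nlinarith
  nlinarith

end Pool.Agent.Myc
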