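import Pool.Agent.Myc.FamDefs

set_option autoImplicit false

namespace Pool.Agent.Myc

open Fm

/-- The sentence `Con_T (n)` with the unary numeral for `n`, universally quantified. -/
def UCon (T : List AFm) (n : ℕ) : AFm :=
  alls 3 (imp (ap (Uf n) [0]) (imp (ap (num (cdL T)) [1]) (imp (ap (num 16) [2])
    (neg (ap provF [1, 0, 2])))))

/-- The evaluation predicate for formulas of depth at most `k`. -/
def Vf (sC : ℕ) : ℕ → AFm
  | 0 => bot
  | k + 1 => subst (xi sC (Vf sC k) bot bot bot) phiX

/-- The `k`-th evaluation predicate evaluates formulas of depth at most `k`. -/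
def E1X : XFm := all (imp (GX 0) hX)

/-- It commutes with renamings. -/
def E2X : XFm := alls 2 (imp (KX 0) (imp (GX 1) slX))

/-- All formulas with a proof of at most `m` levels are true: `x₀ = ν`, `x₁ = a`, `x₂ = m`. -/
def lnX : XFm := alL [10, 11, 12] (imp (pfX 1 0 2 10) (imp (isNX 1 12) (FX 10 11 12)))

def E3X : XFm := alls 3 (imp (KX 0) (imp (HX 1) (imp (GX 2) lnX)))

end Pool.Agent.Myc
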