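import Pool.Agent.Myc.RepDefs
import Pool.Agent.Myc.SynC
import Pool.Agent.Myc.SigA

set_option autoImplicit false

namespace Pool.Agent.Myc

open Fm

theorem RepA_nv_succ (j i : ℕ) : nv (j + 1) i = ex (and (nv j 0) (addA 0 0 (i + 1))) := by
  have h0 : (2 : ℕ) ^ (j + 1) = 2 * 2 ^ j := by ring
  have h1 : num (2 ^ (j + 1)) = ex (and (num (2 ^ j)) (addA 0 0 1)) := by
    rw [h0]; exact num_even (by positivity)
  have h2 : rename (up (fun _ => i)) (num (2 ^ j)) = nv j 0 := by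
    unfold nv
    apply rename_congr (FVs_num _)
    intro k hk
    have : k = 0 := by omega
    subst this
    rfl
  have h3 : rename (up (fun _ => i)) (addA 0 0 1) = addA 0 0 (i + 1) := by
    show rel AR.add _ = rel AR.add _
    congr 1
    funext k
    fin_cases k <;> rfl
  show rename (fun _ => i) (num (2 ^ (j + 1))) = _
  rw [h1]
  show ex (and (rename (up (fun _ => i)) (num (2 ^ j)))
    (rename (up (fun _ => i)) (addA 0 0 1))) = _
  rw [h2, h3]

theorem RepA_nv_zero (i : ℕ) :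
    nv 0 i = ex (ex (and (zeroA 0) (and (addA 0 0 1) (succA 1 (i + 2))))) := by
  have h1 : num (2 ^ 0) = ex (ex (and (num 0) (and (addA 0 0 1) (succA 1 2)))) := by
    have := num_odd 0
    simpa using this
  have h0 : num 0 = zeroA 0 := by rw [num]
  show rename (fun _ => i) (num (2 ^ 0)) = _
  rw [h1, h0]
  show ex (ex (and (rename (up (up fun _ => i)) (zeroA 0))
    (and (rename (up (up fun _ => i)) (addA 0 0 1))
      (rename (up (up fun _ => i)) (succA 1 2))))) = _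
  have e1 : rename (up (up fun _ => i)) (zeroA 0) = zeroA 0 := by
    show rel AR.zero _ = rel AR.zero _
    congr 1
    funext k
    fin_cases k; rfl
  have e2 : rename (up (up fun _ => i)) (addA 0 0 1) = addA 0 0 1 := by
    show rel AR.add _ = rel AR.add _
    congr 1
    funext k
    fin_cases k <;> rfl
  have e3 : rename (up (up fun _ => i)) (succA 1 2) = succA 1 (i + 2) := by
    show rel AR.succ _ = rel AR.succ _
    congr 1
    funext k
    fin_cases k <;> rfl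
  rw [e1, e2, e3]

theorem RepA_add_inj {a b c a' b' c' : ℕ} (h : addA a b c = addA a' b' c') :
    a = a' ∧ b = b' ∧ c = c' := by
  have h1 : (![a, b, c] : Fin 3 → ℕ) = ![a', b', c'] := by
    have := Fm.rel.inj h
    exact eq_of_heq this.2
  exact ⟨congrFun h1 0, congrFun h1 1, congrFun h1 2⟩

theorem RepA_succ_inj {a b a' b' : ℕ} (h : succA a b = succA a' b') : a = a' ∧ b = b' := by
  have h1 : (![a, b] : Fin 2 → ℕ) = ![a', b'] := by
    have := Fm.rel.inj h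
    exact eq_of_heq this.2
  exact ⟨congrFun h1 0, congrFun h1 1⟩

theorem RepA_ex_inj {φ ψ : AFm} (h : ex φ = ex ψ) : φ = ψ := by
  have h1 := (Fm.imp.inj h).1
  have h2 := Fm.all.inj h1
  exact (Fm.imp.inj h2).1

theorem RepA_and_inj {φ ψ φ' ψ' : AFm} (h : and φ ψ = and φ' ψ') : φ = φ' ∧ ψ = ψ' := by
  have h1 := (Fm.imp.inj h).1
  have h2 := Fm.imp.inj h1
  exact ⟨h2.1, (Fm.imp.inj h2.2).1⟩

theorem RepA_ex_ne_and {φ ψ χ : AFm} : ex φ ≠ and ψ χ := by
  intro h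
  have h1 := (Fm.imp.inj h).1
  exact Fm.noConfusion rfl HEq.rfl (heq_of_eq h1)

theorem nv_inj {j i j' i' : ℕ} (h : nv j i = nv j' i') : j = j' ∧ i = i' := by
  induction j generalizing i j' i' with
  | zero =>
    cases j' with
    | zero =>
      rw [RepA_nv_zero, RepA_nv_zero] at h
      have h1 := (RepA_and_inj (RepA_and_inj (RepA_ex_inj (RepA_ex_inj h))).2).2
      have h2 := (RepA_succ_inj h1).2
      exact ⟨rfl, by omega⟩
    | succ j' =>
      rw [RepA_nv_zero, RepA_nv_succ] at h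
      exact absurd (RepA_ex_inj h) RepA_ex_ne_and
  | succ j ih =>
    cases j' with
    | zero =>
      rw [RepA_nv_zero, RepA_nv_succ] at h
      exact absurd (RepA_ex_inj h).symm RepA_ex_ne_and
    | succ j' =>
      rw [RepA_nv_succ, RepA_nv_succ] at h
      have h1 := RepA_and_inj (RepA_ex_inj h)
      have h2 := ih h1.1
      have h3 := (RepA_add_inj h1.2).2.2
      exact ⟨by omega, by omega⟩

theorem RepA_len_ex (φ : AFm) : len (ex φ) = len φ + 20 := by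
  simp only [ex, neg, len]
theorem RepA_len_and (φ ψ : AFm) : len (and φ ψ) = len φ + len ψ + 20 := by
  simp only [Fm.and, neg, len]; omega
theorem RepA_len_add (a b c : ℕ) : len (addA a b c) = a + b + c + 10 := by
  have : (∑ k : Fin 3, ((![a, b, c] : Fin 3 → ℕ) k + 2)) = a + b + c + 6 := by
    simp [Fin.sum_univ_succ]; omega
  show (∑ k : Fin 3, ((![a, b, c] : Fin 3 → ℕ) k + 2)) + 4 = _
  rw [this]
theorem RepA_len_succ (a b : ℕ) : len (succA a b) = a + b + 8 := by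
  have : (∑ k : Fin 2, ((![a, b] : Fin 2 → ℕ) k + 2)) = a + b + 4 := by
    simp; omega
  show (∑ k : Fin 2, ((![a, b] : Fin 2 → ℕ) k + 2)) + 4 = _
  rw [this]
theorem RepA_len_zero (a : ℕ) : len (zeroA a) = a + 6 := by
  have : (∑ k : Fin 1, ((![a] : Fin 1 → ℕ) k + 2)) = a + 2 := by
    simp
  show (∑ k : Fin 1, ((![a] : Fin 1 → ℕ) k + 2)) + 4 = _
  rw [this]

theorem RepA_len_nv (j i : ℕ) : 51 * j + i + 6 ≤ len (nv j i) := by
  induction j generalizing i with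
  | zero =>
    rw [RepA_nv_zero]
    simp only [RepA_len_ex, RepA_len_and, RepA_len_succ, RepA_len_add, RepA_len_zero]
    omega
  | succ j ih =>
    rw [RepA_nv_succ]
    simp only [RepA_len_ex, RepA_len_and, RepA_len_add]
    have := ih 0
    omega

theorem len_nv (j i : ℕ) : 51 * j ≤ len (nv j i) := by
  have := RepA_len_nv j i
  omega

theorem RepA_nv_imp (j i : ℕ) : ∃ φ ψ, nv j i = imp φ ψ := by
  cases j with
  | zero => rw [RepA_nv_zero]; exact ⟨_, _, rfl⟩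
  | succ j => rw [RepA_nv_succ]; exact ⟨_, _, rfl⟩

theorem nv_not_atomic (j i : ℕ) : ¬ Atomic (nv j i) := by
  obtain ⟨φ, ψ, h⟩ := RepA_nv_imp j i
  rw [h]
  exact fun h => h

theorem RepA_rep_eq {j i : ℕ} {φ : AFm} (h : φ = nv j i) : rep j φ = zeroA i := by
  obtain ⟨a, b, hab⟩ := RepA_nv_imp j i
  have hex : ∃ i', imp a b = nv j i' := ⟨i, hab.symm⟩
  have h1 : rep j (imp a b) = zeroA hex.choose := by
    rw [rep, dif_pos hex]
  have h2 : nv j i = nv j hex.choose := by rw [← hex.choose_spec, hab]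
  rw [h, hab, h1, ← (nv_inj h2).2]

theorem rep_nv (j i : ℕ) : rep j (nv j i) = zeroA i := RepA_rep_eq rfl

theorem rep_imp {j : ℕ} {φ ψ : AFm} (h : ∀ i, imp φ ψ ≠ nv j i) :
    rep j (imp φ ψ) = imp (rep j φ) (rep j ψ) := by
  rw [rep, dif_neg]
  rintro ⟨i, hi⟩
  exact h i hi
theorem rep_all {j : ℕ} {φ : AFm} (h : ∀ i, all φ ≠ nv j i) :
    rep j (all φ) = all (rep j φ) := by
  rw [rep, dif_neg]
  rintro ⟨i, hi⟩
  exact h i hi

theorem RepA_all_ne (φ : AFm) (j i : ℕ) : all φ ≠ nv j i := by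
  obtain ⟨a, b, hab⟩ := RepA_nv_imp j i
  rw [hab]
  intro h
  exact Fm.noConfusion rfl HEq.rfl (heq_of_eq h)

theorem RepA_rename_imp {ρ : ℕ → ℕ} {φ a b : AFm} (h : rename ρ φ = imp a b) :
    ∃ φ1 φ2, φ = imp φ1 φ2 ∧ rename ρ φ1 = a ∧ rename ρ φ2 = b := by
  cases φ with
  | bot => exact Fm.noConfusion rfl HEq.rfl (heq_of_eq h)
  | eq x y => exact Fm.noConfusion rfl HEq.rfl (heq_of_eq h)
  | rel r v => exact Fm.noConfusion rfl HEq.rfl (heq_of_eq h)
  | imp φ1 φ2 =>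
    have h1 := Fm.imp.inj h
    exact ⟨φ1, φ2, rfl, h1.1, h1.2⟩
  | all φ1 => exact Fm.noConfusion rfl HEq.rfl (heq_of_eq h)

theorem RepA_rename_all {ρ : ℕ → ℕ} {φ a : AFm} (h : rename ρ φ = all a) :
    ∃ φ1, φ = all φ1 ∧ rename (up ρ) φ1 = a := by
  cases φ with
  | bot => exact Fm.noConfusion rfl HEq.rfl (heq_of_eq h)
  | eq x y => exact Fm.noConfusion rfl HEq.rfl (heq_of_eq h)
  | rel r v => exact Fm.noConfusion rfl HEq.rfl (heq_of_eq h)
  | imp φ1 φ2 => exact Fm.noConfusion rfl HEq.rfl (heq_of_eq h)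
  | all φ1 => exact ⟨φ1, rfl, Fm.all.inj h⟩

theorem RepA_rename_bot {ρ : ℕ → ℕ} {φ : AFm} (h : rename ρ φ = bot) : φ = bot := by
  cases φ with
  | bot => rfl
  | eq x y => exact Fm.noConfusion rfl HEq.rfl (heq_of_eq h)
  | rel r v => exact Fm.noConfusion rfl HEq.rfl (heq_of_eq h)
  | imp φ1 φ2 => exact Fm.noConfusion rfl HEq.rfl (heq_of_eq h)
  | all φ1 => exact Fm.noConfusion rfl HEq.rfl (heq_of_eq h)

theorem RepA_rename_neg {ρ : ℕ → ℕ} {φ a : AFm} (h : rename ρ φ = neg a) :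
    ∃ φ1, φ = neg φ1 ∧ rename ρ φ1 = a := by
  obtain ⟨φ1, φ2, rfl, h1, h2⟩ := RepA_rename_imp h
  exact ⟨φ1, by rw [RepA_rename_bot h2]; rfl, h1⟩

theorem RepA_rename_ex {ρ : ℕ → ℕ} {φ a : AFm} (h : rename ρ φ = ex a) :
    ∃ φ1, φ = ex φ1 ∧ rename (up ρ) φ1 = a := by
  obtain ⟨φ1, rfl, h1⟩ := RepA_rename_neg h
  obtain ⟨φ2, rfl, h2⟩ := RepA_rename_all h1
  obtain ⟨φ3, rfl, h3⟩ := RepA_rename_neg h2
  exact ⟨φ3, rfl, h3⟩

theorem RepA_rename_and {ρ : ℕ → ℕ} {φ a b : AFm} (h : rename ρ φ = and a b) :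
    ∃ φ1 φ2 : AFm, φ = Fm.and φ1 φ2 ∧ rename ρ φ1 = a ∧ rename ρ φ2 = b := by
  obtain ⟨φ1, rfl, h1⟩ := RepA_rename_neg h
  obtain ⟨φ2, φ3, rfl, h2, h3⟩ := RepA_rename_imp h1
  obtain ⟨φ4, rfl, h4⟩ := RepA_rename_neg h3
  exact ⟨φ2, φ4, rfl, h2, h4⟩

theorem RepA_rename_rel {ρ : ℕ → ℕ} {φ : AFm} {r : AR} {v : Fin (arA r) → ℕ}
    (h : rename ρ φ = rel r v) : ∃ w, φ = rel r w ∧ ∀ k, ρ (w k) = v k := by
  cases φ with
  | bot => exact Fm.noConfusion rfl HEq.rfl (heq_of_eq h)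
  | eq x y => exact Fm.noConfusion rfl HEq.rfl (heq_of_eq h)
  | rel r' w =>
    have h1 := Fm.rel.inj h
    obtain ⟨h2, h3⟩ := h1
    subst h2
    exact ⟨w, rfl, fun k => congrFun (eq_of_heq h3) k⟩
  | imp φ1 φ2 => exact Fm.noConfusion rfl HEq.rfl (heq_of_eq h)
  | all φ1 => exact Fm.noConfusion rfl HEq.rfl (heq_of_eq h)

theorem RepA_rename_add {ρ : ℕ → ℕ} {φ : AFm} {a b c : ℕ} (h : rename ρ φ = addA a b c) :
    ∃ a' b' c', φ = addA a' b' c' ∧ ρ a' = a ∧ ρ b' = b ∧ ρ c' = c := by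
  obtain ⟨w, rfl, hw⟩ := RepA_rename_rel (r := AR.add) (v := ![a, b, c]) h
  refine ⟨w (0 : Fin 3), w (1 : Fin 3), w (2 : Fin 3), ?_, hw (0 : Fin 3), hw (1 : Fin 3),
    hw (2 : Fin 3)⟩
  show rel AR.add w = rel AR.add _
  congr 1
  funext k
  change Fin 3 at k
  fin_cases k <;> rfl

theorem RepA_rename_succ {ρ : ℕ → ℕ} {φ : AFm} {a b : ℕ} (h : rename ρ φ = succA a b) :
    ∃ a' b', φ = succA a' b' ∧ ρ a' = a ∧ ρ b' = b := by
  obtain ⟨w, rfl, hw⟩ := RepA_rename_rel (r := AR.succ) (v := ![a, b]) h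
  refine ⟨w (0 : Fin 2), w (1 : Fin 2), ?_, hw (0 : Fin 2), hw (1 : Fin 2)⟩
  show rel AR.succ w = rel AR.succ _
  congr 1
  funext k
  change Fin 2 at k
  fin_cases k <;> rfl

theorem RepA_rename_zero {ρ : ℕ → ℕ} {φ : AFm} {a : ℕ} (h : rename ρ φ = zeroA a) :
    ∃ a', φ = zeroA a' ∧ ρ a' = a := by
  obtain ⟨w, rfl, hw⟩ := RepA_rename_rel (r := AR.zero) (v := ![a]) h
  refine ⟨w (0 : Fin 1), ?_, hw (0 : Fin 1)⟩
  show rel AR.zero w = rel AR.zero _
  congr 1
  funext k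
  change Fin 1 at k
  fin_cases k; rfl

theorem RepA_up_zero {ρ : ℕ → ℕ} {k : ℕ} (h : up ρ k = 0) : k = 0 := by
  cases k with
  | zero => rfl
  | succ k => simp [up] at h

theorem RepA_up_succ {ρ : ℕ → ℕ} {k i : ℕ} (h : up ρ k = i + 1) : ∃ k', k = k' + 1 ∧ ρ k' = i := by
  cases k with
  | zero => simp [up] at h
  | succ k => exact ⟨k, rfl, by simpa [up] using h⟩

/-- The formulas `nv j i` occur at most once in each class: the preimages of `nv j i` under
renamings are of this form. -/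
theorem rename_eq_nv {j i : ℕ} {ρ : ℕ → ℕ} {φ : AFm} (h : rename ρ φ = nv j i) :
    ∃ i', φ = nv j i' ∧ ρ i' = i := by
  induction j generalizing i ρ φ with
  | zero =>
    rw [RepA_nv_zero] at h
    obtain ⟨φ1, rfl, h1⟩ := RepA_rename_ex h
    obtain ⟨φ2, rfl, h2⟩ := RepA_rename_ex h1
    obtain ⟨φ3, φ4, rfl, h3, h4⟩ := RepA_rename_and h2
    obtain ⟨φ5, φ6, rfl, h5, h6⟩ := RepA_rename_and h4
    obtain ⟨z, rfl, hz⟩ := RepA_rename_zero h3
    obtain ⟨a, b, c, rfl, ha, hb, hc⟩ := RepA_rename_add h5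
    obtain ⟨s, t, rfl, hs, ht⟩ := RepA_rename_succ h6
    have hz' := RepA_up_zero hz
    have ha' := RepA_up_zero ha
    have hb' := RepA_up_zero hb
    obtain ⟨c', hc', hc2⟩ := RepA_up_succ (i := 0) hc
    have hc3 := RepA_up_zero hc2
    obtain ⟨s', hs', hs2⟩ := RepA_up_succ (i := 0) hs
    have hs3 := RepA_up_zero hs2
    obtain ⟨t', ht', ht2⟩ := RepA_up_succ (i := i + 1) ht
    obtain ⟨t'', ht'', ht3⟩ := RepA_up_succ ht2
    refine ⟨t'', ?_, ht3⟩
    rw [RepA_nv_zero]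
    subst hz' ha' hb' hc' hc3 hs' hs3 ht' ht''
    rfl
  | succ j ih =>
    rw [RepA_nv_succ] at h
    obtain ⟨φ1, rfl, h1⟩ := RepA_rename_ex h
    obtain ⟨φ3, φ4, rfl, h3, h4⟩ := RepA_rename_and h1
    obtain ⟨k, rfl, hk⟩ := ih h3
    obtain ⟨a, b, c, rfl, ha, hb, hc⟩ := RepA_rename_add h4
    have hk' := RepA_up_zero hk
    have ha' := RepA_up_zero ha
    have hb' := RepA_up_zero hb
    obtain ⟨c', hc', hc2⟩ := RepA_up_succ hc
    refine ⟨c', ?_, hc2⟩
    rw [RepA_nv_succ]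
    subst hk' ha' hb' hc'
    rfl

theorem rename_nv (ρ : ℕ → ℕ) (j i : ℕ) : rename ρ (nv j i) = nv j (ρ i) := by
  unfold nv
  rw [rename_rename]
  rfl

theorem rep_rename (j : ℕ) (ρ : ℕ → ℕ) (φ : AFm) :
    rep j (rename ρ φ) = rename ρ (rep j φ) := by
  induction φ generalizing ρ with
  | bot => rfl
  | eq a b => rfl
  | rel r v => rfl
  | imp φ ψ ih1 ih2 =>
    by_cases h : ∃ i, imp φ ψ = nv j i
    · obtain ⟨i, hi⟩ := h
      rw [hi, rename_nv, rep_nv, rep_nv]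
      show rel AR.zero _ = rel AR.zero _
      congr 1
      funext k
      fin_cases k; rfl
    · have h1 : ∀ i, imp φ ψ ≠ nv j i := fun i hi => h ⟨i, hi⟩
      have h2 : ∀ i, imp (rename ρ φ) (rename ρ ψ) ≠ nv j i := by
        intro i hi
        obtain ⟨i', hi', -⟩ := rename_eq_nv (φ := imp φ ψ) (ρ := ρ) hi
        exact h1 i' hi'
      rw [rep_imp h1]
      show rep j (imp (rename ρ φ) (rename ρ ψ)) = imp (rename ρ (rep j φ)) (rename ρ (rep j ψ))
      rw [rep_imp h2, ih1, ih2]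
  | all φ ih =>
    rw [rep_all (fun i => RepA_all_ne φ j i)]
    show rep j (all (rename (up ρ) φ)) = all (rename (up ρ) (rep j φ))
    rw [rep_all (fun i => RepA_all_ne _ j i), ih]

theorem rep_short {j : ℕ} {φ : AFm} (h : len φ < 51 * j) : rep j φ = φ := by
  induction φ with
  | bot => rfl
  | eq a b => rfl
  | rel r v => rfl
  | imp φ ψ ih1 ih2 =>
    have h1 : ∀ i, imp φ ψ ≠ nv j i := by
      intro i hi
      have := len_nv j i
      rw [← hi] at this
      omega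
    have h2 : len (imp φ ψ) = len φ + len ψ + 4 := rfl
    rw [rep_imp h1, ih1 (by omega), ih2 (by omega)]
  | all φ ih =>
    have h2 : len (all φ) = len φ + 4 := rfl
    rw [rep_all (fun i => RepA_all_ne φ j i), ih (by omega)]

theorem len_rep (j : ℕ) (φ : AFm) : len (rep j φ) ≤ len φ := by
  induction φ with
  | bot => exact le_rfl
  | eq a b => exact le_rfl
  | rel r v => exact le_rfl
  | imp φ ψ ih1 ih2 =>
    by_cases h : ∃ i, imp φ ψ = nv j i
    · obtain ⟨i, hi⟩ := h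
      rw [hi, rep_nv, RepA_len_zero]
      have := RepA_len_nv j i
      omega
    · have h1 : ∀ i, imp φ ψ ≠ nv j i := fun i hi => h ⟨i, hi⟩
      rw [rep_imp h1]
      show len (rep j φ) + len (rep j ψ) + 4 ≤ len φ + len ψ + 4
      omega
  | all φ ih =>
    rw [rep_all (fun i => RepA_all_ne φ j i)]
    show len (rep j φ) + 4 ≤ len φ + 4
    omega

end Pool.Agent.Myc
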