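import Pool.Agent.Myc.RepA

set_option autoImplicit false

namespace Pool.Agent.Myc

open Fm

theorem nodes_length (φ : AFm) : (nodes φ).length ≤ 7 := by
  rcases φ with _ | _ | _ | ⟨α, β⟩ | _
  · simp [nodes]
  · simp [nodes]
  · simp [nodes]
  · rcases α with _ | _ | _ | _ | _ <;> rcases β with _ | _ | _ | _ | _ <;> simp [nodes]
  · simp [nodes]

private theorem RepB_nodes_len (φ : AFm) : ∀ ψ ∈ nodes φ, len ψ ≤ len φ := by
  rcases φ with _ | _ | _ | ⟨α, β⟩ | _
  · simp [nodes]
  · simp [nodes]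
  · simp [nodes]
  · rcases α with _ | _ | _ | ⟨α1, α2⟩ | α1 <;> rcases β with _ | _ | _ | ⟨β1, β2⟩ | _ <;>
      simp only [nodes, List.cons_append, List.nil_append, List.append_nil, List.mem_cons,
        List.not_mem_nil, or_false, forall_eq_or_imp, forall_eq, len] <;> omega
  · simp [nodes]

theorem nodes_len (φ ψ : AFm) (h : ψ ∈ nodes φ) : len ψ ≤ len φ := RepB_nodes_len φ ψ h

private theorem RepB_self (φ : AFm) : φ ∈ nodes φ := by
  unfold nodes; simp

private theorem RepB_l (α β : AFm) : α ∈ nodes (imp α β) := by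
  unfold nodes; simp

private theorem RepB_r (α β : AFm) : β ∈ nodes (imp α β) := by
  unfold nodes; simp

private theorem RepB_ll (α1 α2 β : AFm) : α1 ∈ nodes (imp (imp α1 α2) β) := by
  unfold nodes; simp

private theorem RepB_lr (α1 α2 β : AFm) : α2 ∈ nodes (imp (imp α1 α2) β) := by
  unfold nodes; simp

private theorem RepB_la (α1 β : AFm) : α1 ∈ nodes (imp (all α1) β) := by
  unfold nodes; simp

private theorem RepB_rl (α β1 β2 : AFm) : β1 ∈ nodes (imp α (imp β1 β2)) := by
  unfold nodes; simp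

private theorem RepB_rr (α β1 β2 : AFm) : β2 ∈ nodes (imp α (imp β1 β2)) := by
  unfold nodes; simp

private theorem RepB_logAx {j : ℕ} {φ : AFm} (h : LogAx φ)
    (hn : ∀ ψ ∈ nodes φ, ∀ i, ψ ≠ nv j i) : LogAx (rep j φ) := by
  cases h with
  | k φ ψ =>
    rw [rep_imp (hn _ (RepB_self _)), rep_imp (hn _ (RepB_r _ _))]
    exact LogAx.k _ _
  | s φ ψ χ =>
    rw [rep_imp (hn _ (RepB_self _)), rep_imp (hn _ (RepB_l _ _)), rep_imp (hn _ (RepB_r _ _)),
      rep_imp (hn _ (RepB_lr _ _ _)), rep_imp (hn _ (RepB_rl _ _ _)),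
      rep_imp (hn _ (RepB_rr _ _ _))]
    exact LogAx.s _ _ _
  | dn φ =>
    have h1 := hn _ (RepB_self _)
    have h2 := hn _ (RepB_l _ _)
    unfold neg at h1 h2 hn ⊢
    rw [rep_imp h1, rep_imp h2, rep_imp (hn _ (RepB_ll _ _ _))]
    exact LogAx.dn _
  | inst i φ =>
    rw [rep_imp (hn _ (RepB_self _)), rep_all (hn _ (RepB_l _ _)), rep_rename]
    exact LogAx.inst _ _
  | dist φ ψ =>
    rw [rep_imp (hn _ (RepB_self _)), rep_all (hn _ (RepB_l _ _)), rep_imp (hn _ (RepB_r _ _)),
      rep_imp (hn _ (RepB_la _ _)), rep_all (hn _ (RepB_rl _ _ _)), rep_all (hn _ (RepB_rr _ _ _))]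
    exact LogAx.dist _ _
  | vac φ =>
    rw [rep_imp (hn _ (RepB_self _)), rep_all (hn _ (RepB_r _ _)), rep_rename]
    exact LogAx.vac _
  | refl i => exact LogAx.refl i
  | leib i i' φ =>
    rw [rep_imp (hn _ (RepB_self _)), rep_imp (hn _ (RepB_r _ _)), rep_rename, rep_rename]
    exact LogAx.leib _ _ _

/-- If no line touches the level `j` then the replacement turns proofs into proofs. -/
theorem rep_proof {T T' : Set AFm} {j : ℕ} {l : List AFm} (hl : IsProof T l)
    (hn : ∀ φ ∈ l, ∀ ψ ∈ nodes φ, ∀ i, ψ ≠ nv j i) (hT : ∀ φ ∈ T, φ ∈ l → rep j φ ∈ T') :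
    IsProof T' (l.map (rep j)) := by
  induction hl with
  | nil => exact IsProof.nil
  | @cons l φ h hφ ih =>
    rw [List.map_cons]
    refine IsProof.cons (ih (fun ψ hψ => hn ψ (List.mem_cons_of_mem _ hψ))
      (fun ψ h1 h2 => hT ψ h1 (List.mem_cons_of_mem _ h2))) ?_
    cases hφ with
    | hyp h1 => exact Just.hyp (hT _ h1 (List.mem_cons_self ..))
    | logic h1 => exact Just.logic (RepB_logAx h1 (hn _ (List.mem_cons_self ..)))
    | @mp φ ψ h1 h2 =>
      have h3 := hn _ (List.mem_cons_of_mem _ h2) _ (RepB_self _)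
      refine Just.mp (φ := rep j φ) (List.mem_map_of_mem h1) ?_
      rw [← rep_imp h3]
      exact List.mem_map_of_mem h2
    | @gen ψ h1 =>
      rw [rep_all (hn _ (List.mem_cons_self ..) _ (RepB_self _))]
      exact Just.gen (List.mem_map_of_mem h1)

open Classical in
private theorem RepB_long (m : ℕ) (l : List AFm) :
    (l.filter (fun φ => decide (51 * m ≤ 2 * len φ))).length * (51 * m) ≤ 2 * plen l := by
  induction l with
  | nil => simp [plen]
  | cons φ l ih =>
    have : plen (φ :: l) = len φ + plen l := by simp [plen]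
    rw [this]
    by_cases h : 51 * m ≤ 2 * len φ
    · rw [List.filter_cons_of_pos (by simpa using h), List.length_cons, Nat.add_mul]
      omega
    · rw [List.filter_cons_of_neg (by simpa using h)]
      omega

private theorem RepB_flat (l : List AFm) : (l.flatMap nodes).length ≤ 7 * l.length := by
  induction l with
  | nil => simp
  | cons φ l ih =>
    rw [List.flatMap_cons, List.length_append, List.length_cons]
    have := nodes_length φ
    omega

/-- A short proof leaves some level untouched. -/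
theorem exists_level {m : ℕ} (hm : 100 ≤ m) (l : List AFm) (hl : plen l ≤ m ^ 2) :
    ∃ j, m ≤ 2 * j ∧ j < m ∧ ∀ φ ∈ l, ∀ ψ ∈ nodes φ, ∀ i, ψ ≠ nv j i := by
  classical
  by_contra hcon
  push Not at hcon
  set L' := l.filter (fun φ => decide (51 * m ≤ 2 * len φ)) with hL'
  set N := L'.flatMap nodes with hN
  have hJ : ∀ j ∈ Finset.Ico ((m + 1) / 2) m, ∃ ψ, ψ ∈ N ∧ ∃ i, ψ = nv j i := by
    intro j hj
    rw [Finset.mem_Ico] at hj
    obtain ⟨φ, hφ, ψ, hψ, i, hi⟩ := hcon j (by omega) hj.2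
    refine ⟨ψ, ?_, i, hi⟩
    rw [hN, List.mem_flatMap]
    refine ⟨φ, ?_, hψ⟩
    rw [hL', List.mem_filter]
    refine ⟨hφ, ?_⟩
    have h1 := nodes_len φ ψ hψ
    have h2 := len_nv j i
    rw [← hi] at h2
    simp only [decide_eq_true_eq]
    omega
  have : Nonempty AFm := ⟨bot⟩
  choose! f hf using hJ
  have hcard : (Finset.Ico ((m + 1) / 2) m).card ≤ N.toFinset.card := by
    apply Finset.card_le_card_of_injOn f
    · intro j hj
      exact List.mem_toFinset.2 (hf j hj).1
    · intro j hj j' hj' hjj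
      obtain ⟨i, hi⟩ := (hf j hj).2
      obtain ⟨i', hi'⟩ := (hf j' hj').2
      have : nv j i = nv j' i' := by rw [← hi, ← hi', hjj]
      exact (nv_inj this).1
  rw [Nat.card_Ico] at hcard
  have h1 : N.toFinset.card ≤ N.length := List.toFinset_card_le N
  have h2 : N.length ≤ 7 * L'.length := RepB_flat L'
  have h3 : L'.length * (51 * m) ≤ 2 * plen l := RepB_long m l
  have h4 : L'.length * (51 * m) ≤ 2 * m ^ 2 := h3.trans (by omega)
  have h5 : L'.length * 51 ≤ 2 * m := by
    by_contra h6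
    push Not at h6
    have : (2 * m) * m < (L'.length * 51) * m := Nat.mul_lt_mul_of_pos_right h6 (by omega)
    nlinarith
  omega

end Pool.Agent.Myc
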