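import Pool.Agent.Myc.FamDefs

set_option autoImplicit false

namespace Pool.Agent.Myc

open Fm

/-! ### The replacement -/

/-- The formula `num (2 ^ j)` with the variable `i` for its free variable. -/
def nv (j i : ℕ) : AFm := rename (fun _ => i) (num (2 ^ j))

open Classical in
/-- Replace all subformulas `nv j i` by `zeroA i`. -/
noncomputable def rep (j : ℕ) : AFm → AFm
  | bot => bot
  | eq a b => eq a b
  | rel r v => rel r v
  | imp φ ψ => if h : ∃ i, imp φ ψ = nv j i then zeroA h.choose else imp (rep j φ) (rep j ψ)
  | all φ => if h : ∃ i, all φ = nv j i then zeroA h.choose else all (rep j φ)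

/-! ### Pattern nodes -/

/-- The formulas of the form `nv j i` for which the justification of a line of a proof may break:
the line itself, and the nodes of the schema of a logical axiom. -/
def nodes : AFm → List AFm
  | φ => [φ] ++ (match φ with
    | imp α β => [α, β] ++
        (match α with
          | imp α1 α2 => [α1, α2]
          | all α1 => [α1]
          | _ => []) ++
        (match β with
          | imp β1 β2 => [β1, β2]
          | _ => [])
    | _ => [])

/-! ### The replaced consistency statement -/

/-- `x₀` is `2 ^ k` times zero. -/
def zf : ℕ → AFm
  | 0 => zeroA 0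
  | k + 1 => ex (and (zf k) (addA 0 0 1))

/-- The consistency statement for zero. -/
def Con0 (T : List AFm) (k : ℕ) : AFm :=
  ex (and (zf k) (ex (and (num (codeS (encodeL T))) (ex (and (num (codeS (encode bot)))
    (neg (ap provF [1, 2, 0])))))))

end Pool.Agent.Myc
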