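import Pool.Agent.Myc.SynA

set_option autoImplicit false

/-!
# Semantics: basic lemmas
-/

namespace Pool.Agent.Myc

open Fm

variable {R R' : Type} {ar : R → ℕ} {ar' : R' → ℕ} {M : Type}

theorem scons_up (a : M) (ρ : ℕ → ℕ) (e : ℕ → M) :
    (fun i => scons a e (up ρ i)) = scons a (fun i => e (ρ i)) := by
  funext i
  cases i <;> rfl

theorem sat_rename (S : Str R ar M) (ρ : ℕ → ℕ) (φ : Fm R ar) (e : ℕ → M) :
    Sat S (rename ρ φ) e ↔ Sat S φ (fun i => e (ρ i)) := by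
  induction φ generalizing ρ e with
  | bot => exact Iff.rfl
  | eq i j => exact Iff.rfl
  | rel r v => exact Iff.rfl
  | imp φ ψ h1 h2 =>
    show ((_ → _) ↔ (_ → _))
    rw [h1, h2]
  | all φ h =>
    show ((∀ a, _) ↔ (∀ a, _))
    refine forall_congr' fun a => ?_
    rw [h, scons_up]

theorem sat_congr (S : Str R ar M) {P : ℕ → Prop} {φ : Fm R ar} (h : FVs P φ) {e e' : ℕ → M}
    (he : ∀ i, P i → e i = e' i) : Sat S φ e ↔ Sat S φ e' := by
  induction φ generalizing P e e' with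
  | bot => exact Iff.rfl
  | eq i j =>
    show (e i = e j ↔ e' i = e' j)
    rw [he i h.1, he j h.2]
  | rel r v =>
    show (S.rel r _ ↔ S.rel r _)
    have : (fun k => e (v k)) = fun k => e' (v k) := by
      funext k
      exact he _ (h k)
    rw [this]
  | imp φ ψ h1 h2 =>
    show ((_ → _) ↔ (_ → _))
    rw [h1 h.1 he, h2 h.2 he]
  | all φ h1 =>
    show ((∀ a, _) ↔ (∀ a, _))
    refine forall_congr' fun a => h1 h ?_
    rintro i (rfl | ⟨k, rfl, hk⟩)
    · rfl
    · exact he k hk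

theorem sat_neg (S : Str R ar M) (φ : Fm R ar) (e : ℕ → M) :
    Sat S (neg φ) e ↔ ¬ Sat S φ e := Iff.rfl
theorem sat_or (S : Str R ar M) (φ ψ : Fm R ar) (e : ℕ → M) :
    Sat S (or φ ψ) e ↔ Sat S φ e ∨ Sat S ψ e := by
  show (¬ Sat S φ e → Sat S ψ e) ↔ _
  tauto
theorem sat_and (S : Str R ar M) (φ ψ : Fm R ar) (e : ℕ → M) :
    Sat S (and φ ψ) e ↔ Sat S φ e ∧ Sat S ψ e := by
  show (¬ (Sat S φ e → ¬ Sat S ψ e)) ↔ _
  tauto
theorem sat_iff (S : Str R ar M) (φ ψ : Fm R ar) (e : ℕ → M) :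
    Sat S (iff φ ψ) e ↔ (Sat S φ e ↔ Sat S ψ e) := by
  rw [iff, sat_and]
  exact ⟨fun h => ⟨h.1, h.2⟩, fun h => ⟨h.1, h.2⟩⟩
theorem sat_ex (S : Str R ar M) (φ : Fm R ar) (e : ℕ → M) :
    Sat S (ex φ) e ↔ ∃ a, Sat S φ (scons a e) := by
  show (¬ ∀ a, ¬ Sat S φ (scons a e)) ↔ _
  push Not
  rfl
theorem sat_imp (S : Str R ar M) (φ ψ : Fm R ar) (e : ℕ → M) :
    Sat S (imp φ ψ) e ↔ (Sat S φ e → Sat S ψ e) := Iff.rfl
theorem sat_all (S : Str R ar M) (φ : Fm R ar) (e : ℕ → M) :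
    Sat S (all φ) e ↔ ∀ a, Sat S φ (scons a e) := Iff.rfl
theorem sat_alN (S : Str R ar M) (x : ℕ) (φ : Fm R ar) (e : ℕ → M) :
    Sat S (alN x φ) e ↔ ∀ a, Sat S φ (Function.update e x a) := by
  show (∀ a, Sat S (rename _ φ) (scons a e)) ↔ _
  refine forall_congr' fun a => ?_
  rw [sat_rename]
  have : (fun i => scons a e (if i = x then 0 else i + 1)) = Function.update e x a := by
    funext i
    by_cases hi : i = x
    · subst hi
      simp [scons]
    · rw [Function.update_of_ne hi, if_neg hi]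
      rfl
  rw [this]
theorem sat_exN (S : Str R ar M) (x : ℕ) (φ : Fm R ar) (e : ℕ → M) :
    Sat S (exN x φ) e ↔ ∃ a, Sat S φ (Function.update e x a) := by
  rw [exN, sat_neg, sat_alN]
  simp only [sat_neg]
  push Not
  rfl
theorem sat_exL_nil (S : Str R ar M) (φ : Fm R ar) (e : ℕ → M) :
    Sat S (exL [] φ) e ↔ Sat S φ e := Iff.rfl
theorem sat_exL_cons (S : Str R ar M) (x : ℕ) (l : List ℕ) (φ : Fm R ar) (e : ℕ → M) :
    Sat S (exL (x :: l) φ) e ↔ ∃ a, Sat S (exL l φ) (Function.update e x a) :=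
  sat_exN S x _ e
theorem sat_andL (S : Str R ar M) (l : List (Fm R ar)) (e : ℕ → M) :
    Sat S (andL l) e ↔ ∀ φ ∈ l, Sat S φ e := by
  induction l with
  | nil => simp [andL, sat_neg, Sat]
  | cons φ l ih =>
    cases l with
    | nil => simp [andL]
    | cons ψ l =>
      rw [andL, sat_and, ih]
      simp
theorem sat_orL (S : Str R ar M) (l : List (Fm R ar)) (e : ℕ → M) :
    Sat S (orL l) e ↔ ∃ φ ∈ l, Sat S φ e := by
  induction l with
  | nil => simp [orL, Sat]
  | cons φ l ih =>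
    cases l with
    | nil => simp [orL]
    | cons ψ l =>
      rw [orL, sat_or, ih]
      simp
theorem sat_ap (S : Str R ar M) (φ : Fm R ar) (v : List ℕ) (e : ℕ → M) :
    Sat S (ap φ v) e ↔ Sat S φ (fun i => e (v.getD i 0)) :=
  sat_rename S _ φ e
theorem sat_alls (S : Str R ar M) [Nonempty M] (k : ℕ) (φ : Fm R ar) :
    (∀ e, Sat S (alls k φ) e) ↔ ∀ e, Sat S φ e := by
  induction k with
  | zero => exact Iff.rfl
  | succ k ih =>
    rw [← ih]
    constructor
    · intro h e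
      have h1 := h (fun i => e (i + 1)) (e 0)
      have : scons (e 0) (fun i => e (i + 1)) = e := by
        funext i
        cases i <;> rfl
      rwa [this] at h1
    · intro h e a
      exact h _

/-- The value of a vector of variables. -/
theorem comp_vec1 (e : ℕ → M) (x : ℕ) : (fun k => e (![x] k)) = ![e x] := by
  funext k; fin_cases k; rfl
theorem comp_vec2 (e : ℕ → M) (x y : ℕ) : (fun k => e (![x, y] k)) = ![e x, e y] := by
  funext k; fin_cases k <;> rfl
theorem comp_vec3 (e : ℕ → M) (x y z : ℕ) : (fun k => e (![x, y, z] k)) = ![e x, e y, e z] := by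
  funext k; fin_cases k <;> rfl
theorem comp_vec4 (e : ℕ → M) (x y z w : ℕ) :
    (fun k => e (![x, y, z, w] k)) = ![e x, e y, e z, e w] := by
  funext k; fin_cases k <;> rfl

end Pool.Agent.Myc
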