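import Pool.Agent.Myc.Base

set_option autoImplicit false

/-!
# The auxiliary language and its axioms

The language `RX` has the arithmetical symbols, symbols for syntactic notions and for the
evaluation of formulas, and four predicate variables `F, G, H, K`.
-/

namespace Pool.Agent.Myc

open Fm

/-- The predicate symbols of the auxiliary language. -/
inductive RX : Type
  | zero | succ | add | mul
  | pr | vl | t0 | ats | im | al | dp | rn | rl | up | pf | mem | form | tk | conc | pp
  | nu | sz | e2 | cl | lst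
  | F | G | H | K
  deriving DecidableEq, Fintype

/-- Their arities. -/
def arX : RX → ℕ
  | .zero => 1
  | .succ => 2
  | .add => 3
  | .mul => 3
  | .pr => 3
  | .vl => 3
  | .t0 => 2
  | .ats => 1
  | .im => 3
  | .al => 2
  | .dp => 2
  | .rn => 3
  | .rl => 3
  | .up => 2
  | .pf => 4
  | .mem => 2
  | .form => 1
  | .tk => 1
  | .conc => 3
  | .pp => 3
  | .nu => 2
  | .sz => 2
  | .e2 => 2
  | .cl => 3
  | .lst => 1
  | .F => 3
  | .G => 1
  | .H => 1
  | .K => 1

/-- Formulas of the auxiliary language. -/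
abbrev XFm : Type := Fm RX arX

/-- Structures for the auxiliary language. -/
abbrev XStr (M : Type) : Type := Str RX arX M

def zeroX (x : ℕ) : XFm := rel .zero ![x]
def succX (x y : ℕ) : XFm := rel .succ ![x, y]
def addX (x y z : ℕ) : XFm := rel .add ![x, y, z]
def mulX (x y z : ℕ) : XFm := rel .mul ![x, y, z]
def prX (a s t : ℕ) : XFm := rel .pr ![a, s, t]
def vlX (s v a : ℕ) : XFm := rel .vl ![s, v, a]
def t0X (x s : ℕ) : XFm := rel .t0 ![x, s]
def atsX (x : ℕ) : XFm := rel .ats ![x]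
def imX (x y z : ℕ) : XFm := rel .im ![x, y, z]
def alX (x y : ℕ) : XFm := rel .al ![x, y]
def dpX (k x : ℕ) : XFm := rel .dp ![k, x]
def rnX (r x y : ℕ) : XFm := rel .rn ![r, x, y]
def rlX (r s t : ℕ) : XFm := rel .rl ![r, s, t]
def upX (r r' : ℕ) : XFm := rel .up ![r, r']
def pfX (a n m y : ℕ) : XFm := rel .pf ![a, n, m, y]
def memX (y a : ℕ) : XFm := rel .mem ![y, a]
def formX (x : ℕ) : XFm := rel .form ![x]
def tkX (v : ℕ) : XFm := rel .tk ![v]
def concX (x y z : ℕ) : XFm := rel .conc ![x, y, z]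
def ppX (a x y : ℕ) : XFm := rel .pp ![a, x, y]
def nuX (v z : ℕ) : XFm := rel .nu ![v, z]
def szX (a m : ℕ) : XFm := rel .sz ![a, m]
def e2X (m q : ℕ) : XFm := rel .e2 ![m, q]
def clX (a q b : ℕ) : XFm := rel .cl ![a, q, b]
def lstX (a : ℕ) : XFm := rel .lst ![a]
def FX (x s b : ℕ) : XFm := rel .F ![x, s, b]
def GX (x : ℕ) : XFm := rel .G ![x]
def HX (x : ℕ) : XFm := rel .H ![x]
def KX (x : ℕ) : XFm := rel .K ![x]

/-- The inclusion of the language of arithmetic. -/
def embT : (r : AR) → XFm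
  | .zero => zeroX 0
  | .succ => succX 0 1
  | .add => addX 0 1 2
  | .mul => mulX 0 1 2

/-- The inclusion of the language of arithmetic. -/
def emb : AFm → XFm := subst embT

/-! ### The relations of a structure -/

section
variable {M : Type} (S : XStr M)

def zeroR (x : M) : Prop := S.rel .zero ![x]
def succR (x y : M) : Prop := S.rel .succ ![x, y]
def addR (x y z : M) : Prop := S.rel .add ![x, y, z]
def mulR (x y z : M) : Prop := S.rel .mul ![x, y, z]
def prR (a s t : M) : Prop := S.rel .pr ![a, s, t]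
def vlR (s v a : M) : Prop := S.rel .vl ![s, v, a]
def t0R (x s : M) : Prop := S.rel .t0 ![x, s]
def atsR (x : M) : Prop := S.rel .ats ![x]
def imR (x y z : M) : Prop := S.rel .im ![x, y, z]
def alR (x y : M) : Prop := S.rel .al ![x, y]
def dpR (k x : M) : Prop := S.rel .dp ![k, x]
def rnR (r x y : M) : Prop := S.rel .rn ![r, x, y]
def rlR (r s t : M) : Prop := S.rel .rl ![r, s, t]
def upR (r r' : M) : Prop := S.rel .up ![r, r']
def pfR (a n m y : M) : Prop := S.rel .pf ![a, n, m, y]
def memR (y a : M) : Prop := S.rel .mem ![y, a]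
def formR (x : M) : Prop := S.rel .form ![x]
def tkR (v : M) : Prop := S.rel .tk ![v]
def concR (x y z : M) : Prop := S.rel .conc ![x, y, z]
def ppR (a x y : M) : Prop := S.rel .pp ![a, x, y]
def nuR (v z : M) : Prop := S.rel .nu ![v, z]
def szR (a m : M) : Prop := S.rel .sz ![a, m]
def e2R (m q : M) : Prop := S.rel .e2 ![m, q]
def clR (a q b : M) : Prop := S.rel .cl ![a, q, b]
def lstR (a : M) : Prop := S.rel .lst ![a]
def FR (x s b : M) : Prop := S.rel .F ![x, s, b]
def GR (x : M) : Prop := S.rel .G ![x]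
def HR (x : M) : Prop := S.rel .H ![x]
def KR (x : M) : Prop := S.rel .K ![x]

/-- `x` is the number `k`. -/
def IsN (k : ℕ) (x : M) : Prop := Sat S (emb (num k)) (fun _ => x)

/-- `x` is `t` with the digits `w` appended. -/
def DG : List Bool → M → M → Prop
  | [], t, x => t = x
  | false :: w, t, x => ∃ y, addR S t t y ∧ DG w y x
  | true :: w, t, x => ∃ u y, addR S t t u ∧ succR S u y ∧ DG w y x

/-- `x` is the `k`-th successor of zero. -/
def IsU : ℕ → M → Prop
  | 0, x => zeroR S x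
  | k + 1, x => ∃ y, IsU k y ∧ succR S y x

/-- `N = m ^ c`. -/
def PW (m : M) : ℕ → M → Prop
  | 0, N => IsN S 1 N
  | c + 1, N => ∃ w, PW m c w ∧ mulR S w m N

/-- The evaluation of formulas, one level further: if `Φ x s b` means that the formula `x` has the
truth value `b` (zero or one) at the assignment `s`, for formulas `x` of depth at most `k`, then
`PhiM Φ` has this meaning for formulas of depth at most `k + 1`. -/
def PhiM (Φ : M → M → M → Prop) (x s b : M) : Prop :=
  (atsR S x ∧ ((IsN S 1 b ∧ t0R S x s) ∨ (zeroR S b ∧ ¬ t0R S x s))) ∨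
  (¬ atsR S x ∧ ∃ w,
    ((∃ y z, imR S x y z) ∧ ((IsN S 1 b ∧ (zeroR S w ∨ IsN S 1 w)) ∨ zeroR S b) ∨
      (∃ y, alR S x y) ∧ (IsN S 1 b ∨ (zeroR S b ∧ ∃ a, prR S a s w))) ∧
    ∀ y t c,
      ((∃ z, imR S x y z) ∧ t = s ∧
          ((IsN S 1 b ∧ zeroR S w ∧ zeroR S c) ∨ (zeroR S b ∧ IsN S 1 c)) ∨
        (∃ z, imR S x z y) ∧ t = s ∧
          ((IsN S 1 b ∧ IsN S 1 w ∧ IsN S 1 c) ∨ (zeroR S b ∧ zeroR S c)) ∨
        alR S x y ∧ ((IsN S 1 b ∧ IsN S 1 c ∧ ∃ a, prR S a s t) ∨
          (zeroR S b ∧ zeroR S c ∧ t = w))) → Φ y t c)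

/-- `Φ` evaluates the formulas of depth at most `κ`. -/
def HM (Φ : M → M → M → Prop) (κ : M) : Prop :=
  ∀ o i x s, zeroR S o → IsN S 1 i → dpR S κ x →
    (Φ x s o ↔ ¬ Φ x s i) ∧ (Φ x s i ↔ PhiM S Φ x s i) ∧ (Φ x s o ↔ PhiM S Φ x s o)

/-- The evaluation commutes with renamings, for formulas of depth at most `ν` and `κ`. -/
def SLM (Φ : M → M → M → Prop) (ν κ : M) : Prop :=
  ∀ i x, IsN S 1 i → dpR S κ x → dpR S ν x → ∀ r y s t, rnR S r x y → rlR S r s t →
    (Φ y s i ↔ Φ x t i)

/-- The logical axioms. -/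
def LXM (y : M) : Prop :=
  (∃ p q u, imR S y p u ∧ imR S u q p) ∨
  (∃ p q r u1 u2 u3 u4 u5, imR S u1 q r ∧ imR S u2 p u1 ∧ imR S u3 p q ∧ imR S u4 p r ∧
    imR S u5 u3 u4 ∧ imR S y u2 u5) ∨
  (∃ p o u1 u2, atsR S o ∧ (∀ s, ¬ t0R S o s) ∧ imR S u1 p o ∧ imR S u2 u1 o ∧ imR S y u2 p) ∨
  (∃ p q r u, rnR S r p q ∧ (∀ s, ∃ a t, prR S a s t ∧ rlR S r s t) ∧ alR S u p ∧
    imR S y u q) ∨
  (∃ p q u1 u2 u3 u4 u5, imR S u1 p q ∧ alR S u2 u1 ∧ alR S u3 p ∧ alR S u4 q ∧
    imR S u5 u3 u4 ∧ imR S y u2 u5) ∨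
  (∃ p q r u, rnR S r p q ∧ (∀ s a t, prR S a s t → rlR S r t s) ∧ alR S u q ∧ imR S y p u) ∨
  (atsR S y ∧ ∀ s, t0R S y s) ∨
  (∃ p q1 q2 r1 r2 e u, rnR S r1 p q1 ∧ rnR S r2 p q2 ∧ atsR S e ∧
    (∀ s, t0R S e s → ∃ a t, prR S a s t ∧ rlR S r1 s t ∧ rlR S r2 s t) ∧
    imR S u q1 q2 ∧ imR S y e u)

end

/-- The string of `and φ ψ` is the string of `φ` followed by `andS ψ`. -/
def andS (ψ : AFm) : List Bool :=
  encode ψ ++ encode bot ++ [false, true, true, false] ++ [false, true, true, false] ++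
    encode bot ++ [false, true, true, false]

/-- The string of `ex φ` is the string of `φ` followed by `exS`. -/
def exS : List Bool :=
  encode bot ++ [false, true, true, false] ++ [false, true, true, true] ++ encode bot ++
    [false, true, true, false]

/-- The string of `num (2 m)` is the string of `num m` followed by `suf0`, if `m > 0`. -/
def suf0 : List Bool := andS (addA 0 0 1) ++ exS

/-- The string of `num (2 m + 1)` is the string of `num m` followed by `suf1`. -/
def suf1 : List Bool := andS (and (addA 0 0 1) (succA 1 2)) ++ exS ++ exS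

/-- The string of `Con T N` is the string of `num N` followed by the string of the numeral of `T`
and by `conS`. -/
def conS : List Bool :=
  andS (ex (and (num (codeS (encode bot))) (neg (ap provF [1, 2, 0])))) ++ exS ++
    encode bot ++ [false, true, true, false] ++ [false, true, true, false] ++
    encode bot ++ [false, true, true, false] ++ exS

/-- Appending digits to a numeral. -/
def digF : List Bool → AFm → AFm
  | [], φ => φ
  | false :: w, φ => digF w (ex (and φ (addA 0 0 1)))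
  | true :: w, φ => digF w (ex (ex (and φ (and (addA 0 0 1) (succA 1 2)))))

/-- The same for formulas of the auxiliary language. -/
def digX : List Bool → XFm → XFm
  | [], φ => φ
  | false :: w, φ => digX w (ex (and φ (addX 0 0 1)))
  | true :: w, φ => digX w (ex (ex (and φ (and (addX 0 0 1) (succX 1 2)))))

/-- The unary numeral of `n`. -/
def Uf : ℕ → AFm
  | 0 => zeroA 0
  | k + 1 => ex (and (Uf k) (succA 0 1))

end Pool.Agent.Myc
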