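import Pool.Agent.Myc.StdDefs
import Pool.Agent.Myc.NatF

set_option autoImplicit false

namespace Pool.Agent.Myc

open Fm

/-! ### Strings of compound formulas, without conditions -/

def StdA_eqN (a b x : ℕ) : Prop := ∃ t, Cc a b t ∧ Cc t 17 x
def StdA_zeroN (a x : ℕ) : Prop := Cc a 18 x
def StdA_succN (a b x : ℕ) : Prop := ∃ t, Cc a b t ∧ Cc t 19 x
def StdA_addN (a b c x : ℕ) : Prop := ∃ t u, Cc a b t ∧ Cc t c u ∧ Cc u 20 x
def StdA_mulN (a b c x : ℕ) : Prop := ∃ t u, Cc a b t ∧ Cc t c u ∧ Cc u 21 x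
def StdA_impN (a b x : ℕ) : Prop := ∃ t, Cc a b t ∧ Cc t 22 x
def StdA_allN (a x : ℕ) : Prop := Cc a 23 x

theorem StdA_tag17 (e : ℕ → ℕ) : Sat NN (tagF 17) e ↔ Cc (e 0) 17 (e 1) :=
  sat_tagF [false, false, false, true] e
theorem StdA_tag18 (e : ℕ → ℕ) : Sat NN (tagF 18) e ↔ Cc (e 0) 18 (e 1) :=
  sat_tagF [false, false, true, false] e
theorem StdA_tag19 (e : ℕ → ℕ) : Sat NN (tagF 19) e ↔ Cc (e 0) 19 (e 1) :=
  sat_tagF [false, false, true, true] e
theorem StdA_tag20 (e : ℕ → ℕ) : Sat NN (tagF 20) e ↔ Cc (e 0) 20 (e 1) :=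
  sat_tagF [false, true, false, false] e
theorem StdA_tag21 (e : ℕ → ℕ) : Sat NN (tagF 21) e ↔ Cc (e 0) 21 (e 1) :=
  sat_tagF [false, true, false, true] e
theorem StdA_tag22 (e : ℕ → ℕ) : Sat NN (tagF 22) e ↔ Cc (e 0) 22 (e 1) :=
  sat_tagF [false, true, true, false] e
theorem StdA_tag23 (e : ℕ → ℕ) : Sat NN (tagF 23) e ↔ Cc (e 0) 23 (e 1) :=
  sat_tagF [false, true, true, true] e

theorem StdA_sat_eqC (e : ℕ → ℕ) : Sat NN eqC e ↔ StdA_eqN (e 0) (e 1) (e 2) := by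
  simp [eqC, StdA_eqN, sat_exL_cons, sat_exL_nil, sat_and, sat_ap, sat_concF, StdA_tag17,
    Function.update_apply]
theorem StdA_sat_zeroC (e : ℕ → ℕ) : Sat NN zeroC e ↔ StdA_zeroN (e 0) (e 1) := by
  simp [zeroC, StdA_zeroN, sat_ap, StdA_tag18]
theorem StdA_sat_succC (e : ℕ → ℕ) : Sat NN succC e ↔ StdA_succN (e 0) (e 1) (e 2) := by
  simp [succC, StdA_succN, sat_exL_cons, sat_exL_nil, sat_and, sat_ap, sat_concF, StdA_tag19,
    Function.update_apply]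
theorem StdA_sat_addC (e : ℕ → ℕ) : Sat NN addC e ↔ StdA_addN (e 0) (e 1) (e 2) (e 3) := by
  simp [addC, StdA_addN, sat_exL_cons, sat_exL_nil, sat_andL, sat_ap, sat_concF, StdA_tag20,
    Function.update_apply]
theorem StdA_sat_mulC (e : ℕ → ℕ) : Sat NN mulC e ↔ StdA_mulN (e 0) (e 1) (e 2) (e 3) := by
  simp [mulC, StdA_mulN, sat_exL_cons, sat_exL_nil, sat_andL, sat_ap, sat_concF, StdA_tag21,
    Function.update_apply]
theorem StdA_sat_impC (e : ℕ → ℕ) : Sat NN impC e ↔ StdA_impN (e 0) (e 1) (e 2) := by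
  simp [impC, StdA_impN, sat_exL_cons, sat_exL_nil, sat_and, sat_ap, sat_concF, StdA_tag22,
    Function.update_apply]
theorem StdA_sat_allC (e : ℕ → ℕ) : Sat NN allC e ↔ StdA_allN (e 0) (e 1) := by
  simp [allC, StdA_allN, sat_ap, StdA_tag23]

/-- An assignment with the given first values. -/
def StdA_as (l : List ℕ) : ℕ → ℕ := fun k => l.getD k 0

theorem StdA_eqN_iff (i j x : ℕ) : StdA_eqN (tk i) (tk j) x ↔ x = cd (eq i j) := by
  have h := sat_eqC (StdA_as [tk i, tk j, x]) i j rfl rfl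
  rw [StdA_sat_eqC] at h
  exact h
theorem StdA_zeroN_iff (i x : ℕ) : StdA_zeroN (tk i) x ↔ x = cd (zeroA i) := by
  have h := sat_zeroC (StdA_as [tk i, x]) i rfl
  rw [StdA_sat_zeroC] at h
  exact h
theorem StdA_succN_iff (i j x : ℕ) : StdA_succN (tk i) (tk j) x ↔ x = cd (succA i j) := by
  have h := sat_succC (StdA_as [tk i, tk j, x]) i j rfl rfl
  rw [StdA_sat_succC] at h
  exact h
theorem StdA_addN_iff (i j k x : ℕ) :
    StdA_addN (tk i) (tk j) (tk k) x ↔ x = cd (addA i j k) := by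
  have h := sat_addC (StdA_as [tk i, tk j, tk k, x]) i j k rfl rfl rfl
  rw [StdA_sat_addC] at h
  exact h
theorem StdA_mulN_iff (i j k x : ℕ) :
    StdA_mulN (tk i) (tk j) (tk k) x ↔ x = cd (mulA i j k) := by
  have h := sat_mulC (StdA_as [tk i, tk j, tk k, x]) i j k rfl rfl rfl
  rw [StdA_sat_mulC] at h
  exact h
theorem StdA_impN_iff (φ ψ : AFm) (x : ℕ) : StdA_impN (cd φ) (cd ψ) x ↔ x = cd (imp φ ψ) := by
  have h := sat_impC (StdA_as [cd φ, cd ψ, x]) φ ψ rfl rfl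
  rw [StdA_sat_impC] at h
  exact h
theorem StdA_allN_iff (φ : AFm) (x : ℕ) : StdA_allN (cd φ) x ↔ x = cd (all φ) := by
  have h := sat_allC (StdA_as [cd φ, x]) φ rfl
  rw [StdA_sat_allC] at h
  exact h

/-- The value of a renaming, as a relation between numbers. -/
def StdA_vmN (a b x y : ℕ) : Prop :=
  (x < b ∧ y = x) ∨ (b ≤ x ∧ a = 0 ∧ y = 2 * x + 2) ∨
    (x = b ∧ a ≠ 0 ∧ (a + 2) * (b + 2) = 8 * (y + 2)) ∨ (b < x ∧ a ≠ 0 ∧ x = 2 * y + 2)

theorem StdA_sat_vmapF (e : ℕ → ℕ) : Sat NN vmapF e ↔ StdA_vmN (e 0) (e 1) (e 2) (e 3) := by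
  simp [vmapF, StdA_vmN, sat_orL, sat_andL, sat_and, sat_neg, sat_ap, sat_ltF, sat_leF,
    sat_zeroA, sat_nextF, sat_vaddF, Sat]

theorem StdA_vmN_iff (p : Option ℕ) (d i y : ℕ) :
    StdA_vmN (ptk p) (tk d) (tk i) y ↔ y = tk ((up^[d] (pren p)) i) := by
  have h := sat_vmapF (StdA_as [ptk p, tk d, tk i, y]) p d i rfl rfl rfl
  rw [StdA_sat_vmapF] at h
  exact h

/-! ### Values of variables -/

def StdA_vlB (u : ℕ) : Prop := ∃ a x, Nat.pair (Nat.pair (Nat.pair a x) 6) a = u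
def StdA_vlS (u y _z : ℕ) : Prop := ∃ a x x1, (∃ x2,
  Nat.pair (Nat.pair (Nat.pair x2 x) (2 * x1 + 2)) a = u) ∧ Nat.pair (Nat.pair x x1) a = y

theorem StdA_sat_vlB (e : ℕ → ℕ) : Sat NN vlB e ↔ StdA_vlB (e 0) := by
  simp [vlB, StdA_vlB, sat_exL_cons, sat_exL_nil, sat_andL, sat_ap, sat_pairF, sat_num,
    Function.update_apply]

theorem StdA_sat_vlSt (e : ℕ → ℕ) : Sat NN vlSt e ↔ StdA_vlS (e 0) (e 1) (e 2) := by
  simp [vlSt, StdA_vlS, sat_exL_cons, sat_exL_nil, sat_andL, sat_ap, sat_pairF,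
    Function.update_apply, sat_nextF]

theorem StdA_sat_vlL (e : ℕ → ℕ) : Sat NN (lfpF vlB vlSt) e ↔ Lfp StdA_vlB StdA_vlS (e 0) :=
  sat_lfpF StdA_sat_vlB StdA_sat_vlSt e

theorem StdA_pair {a b c d : ℕ} (h : Nat.pair a b = Nat.pair c d) : a = c ∧ b = d :=
  Nat.pair_eq_pair.1 h

theorem StdA_tk0 : tk 0 = 6 := by decide

theorem StdA_vl_lfp (u : ℕ) :
    Lfp StdA_vlB StdA_vlS u ↔ ∃ s i, u = Nat.pair (Nat.pair s (tk i)) (sval s i) := by
  constructor
  · intro h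
    induction h with
    | base h =>
      obtain ⟨a, x, rfl⟩ := h
      exact ⟨Nat.pair a x, 0, by rw [StdA_tk0]; simp [sval]⟩
    | step h hy hz ihy ihz =>
      obtain ⟨a, x, x1, ⟨x2, rfl⟩, rfl⟩ := h
      obtain ⟨s, i, hs⟩ := ihy
      obtain ⟨h1, h2⟩ := StdA_pair hs
      obtain ⟨h3, h4⟩ := StdA_pair h1
      subst h2 h3 h4
      exact ⟨Nat.pair x2 x, i + 1, by rw [next_tk]; simp [sval]⟩
  · rintro ⟨s, i, rfl⟩
    induction i generalizing s with
    | zero =>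
      apply Lfp.base
      refine ⟨s.unpair.1, s.unpair.2, ?_⟩
      rw [StdA_tk0]
      simp [sval]
    | succ i ih =>
      refine Lfp.step (y := Nat.pair (Nat.pair s.unpair.2 (tk i)) (sval s.unpair.2 i))
        (z := Nat.pair (Nat.pair s.unpair.2 (tk i)) (sval s.unpair.2 i))
        ⟨sval s (i + 1), s.unpair.2, tk i, ⟨s.unpair.1, ?_⟩, rfl⟩ ?_ ?_
      · rw [next_tk]; simp
      · exact ih s.unpair.2
      · exact ih s.unpair.2

theorem StdA_sat_vlF (e : ℕ → ℕ) :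
    Sat NN vlF e ↔ ∃ i, e 1 = tk i ∧ e 2 = sval (e 0) i := by
  have h : Sat NN vlF e ↔ ∃ s i, Nat.pair (Nat.pair (e 0) (e 1)) (e 2) =
      Nat.pair (Nat.pair s (tk i)) (sval s i) := by
    rw [← StdA_vl_lfp]
    simp [vlF, sat_exL_cons, sat_exL_nil, sat_andL, sat_ap, sat_pairF, Function.update_apply,
      StdA_sat_vlL]
  rw [h]
  simp only [Nat.pair_eq_pair]
  constructor
  · rintro ⟨s, i, ⟨h1, h2⟩, h3⟩
    exact ⟨i, h2, by rw [h1]; exact h3⟩
  · rintro ⟨i, h1, h2⟩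
    exact ⟨e 0, i, ⟨rfl, h1⟩, h2⟩

theorem StdA_tk_iff (i j : ℕ) : tk i = tk j ↔ i = j := ⟨tk_inj, fun h => by rw [h]⟩
theorem StdA_cd_iff (φ ψ : AFm) : cd φ = cd ψ ↔ φ = ψ := ⟨cd_inj, fun h => by rw [h]⟩

theorem StdA_vl_tk (s i a : ℕ) : (∃ j, tk i = tk j ∧ a = sval s j) ↔ a = sval s i := by
  constructor
  · rintro ⟨j, h1, h2⟩
    rw [tk_inj h1]; exact h2
  · intro h
    exact ⟨i, rfl, h⟩

/-! ### Atomic formulas -/

theorem StdA_vec1 (v : Fin 1 → ℕ) : v = ![v 0] := by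
  funext k; fin_cases k; rfl
theorem StdA_vec2 (v : Fin 2 → ℕ) : v = ![v 0, v 1] := by
  funext k; fin_cases k <;> rfl
theorem StdA_vec3 (v : Fin 3 → ℕ) : v = ![v 0, v 1, v 2] := by
  funext k; fin_cases k <;> rfl

theorem StdA_atomic {P : AFm → Prop} : (∃ φ : AFm, Atomic φ ∧ P φ) ↔
    P bot ∨ (∃ i j, P (eq i j)) ∨ (∃ i, P (zeroA i)) ∨ (∃ i j, P (succA i j)) ∨
      (∃ i j k, P (addA i j k)) ∨ (∃ i j k, P (mulA i j k)) := by
  constructor
  · rintro ⟨φ, h, hP⟩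
    cases φ with
    | bot => exact Or.inl hP
    | eq i j => exact Or.inr (Or.inl ⟨i, j, hP⟩)
    | rel r v =>
      cases r with
      | zero =>
        refine Or.inr (Or.inr (Or.inl ⟨v (0 : Fin 1), ?_⟩))
        have h' := StdA_vec1 v
        unfold zeroA
        rw [← h']; exact hP
      | succ =>
        refine Or.inr (Or.inr (Or.inr (Or.inl ⟨v (0 : Fin 2), v (1 : Fin 2), ?_⟩)))
        have h' := StdA_vec2 v
        unfold succA
        rw [← h']; exact hP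
      | add =>
        refine Or.inr (Or.inr (Or.inr (Or.inr (Or.inl
          ⟨v (0 : Fin 3), v (1 : Fin 3), v (2 : Fin 3), ?_⟩))))
        have h' := StdA_vec3 v
        unfold addA
        rw [← h']; exact hP
      | mul =>
        refine Or.inr (Or.inr (Or.inr (Or.inr (Or.inr
          ⟨v (0 : Fin 3), v (1 : Fin 3), v (2 : Fin 3), ?_⟩))))
        have h' := StdA_vec3 v
        unfold mulA
        rw [← h']; exact hP
    | imp φ ψ => exact absurd h (by simp [Atomic])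
    | all φ => exact absurd h (by simp [Atomic])
  · rintro (h | ⟨i, j, h⟩ | ⟨i, h⟩ | ⟨i, j, h⟩ | ⟨i, j, k, h⟩ | ⟨i, j, k, h⟩)
    · exact ⟨bot, trivial, h⟩
    · exact ⟨_, by simp [Atomic], h⟩
    · exact ⟨_, by simp [Atomic, zeroA], h⟩
    · exact ⟨_, by simp [Atomic, succA], h⟩
    · exact ⟨_, by simp [Atomic, addA], h⟩
    · exact ⟨_, by simp [Atomic, mulA], h⟩

theorem StdA_sat_atsF (e : ℕ → ℕ) : Sat NN atsF e ↔ ∃ φ : AFm, Atomic φ ∧ e 0 = cd φ := by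
  rw [StdA_atomic (P := fun φ => e 0 = cd φ)]
  simp [atsF, sat_orL, sat_exL_cons, sat_exL_nil, sat_andL, sat_ap, sat_num, sat_varF,
    StdA_sat_eqC, StdA_sat_zeroC, StdA_sat_succC, StdA_sat_addC, StdA_sat_mulC,
    Function.update_apply, cd_bot, StdA_eqN_iff, StdA_zeroN_iff, StdA_succN_iff, StdA_addN_iff,
    StdA_mulN_iff]

theorem StdA_sat_t0F (e : ℕ → ℕ) : Sat NN t0F e ↔
    ∃ φ : AFm, Atomic φ ∧ (e 0 = cd φ ∧ Sat NN φ (sval (e 1))) := by
  rw [StdA_atomic (P := fun φ => e 0 = cd φ ∧ Sat NN φ (sval (e 1)))]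
  simp [t0F, sat_orL, sat_exL_cons, sat_exL_nil, sat_andL, sat_ap, sat_num, sat_varF,
    StdA_sat_eqC, StdA_sat_zeroC, StdA_sat_succC, StdA_sat_addC, StdA_sat_mulC,
    Function.update_apply, cd_bot, StdA_sat_vlF, sat_zeroA, sat_succA, sat_addA, sat_mulA, Sat,
    StdA_eqN_iff, StdA_zeroN_iff, StdA_succN_iff, StdA_addN_iff, StdA_mulN_iff, StdA_tk_iff]

/-! ### Implications, quantifications, depths -/

theorem StdA_sat_imF (e : ℕ → ℕ) : Sat NN imF e ↔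
    ∃ φ ψ : AFm, e 0 = cd (imp φ ψ) ∧ e 1 = cd φ ∧ e 2 = cd ψ := by
  simp only [imF, StdA_sat_impC, sat_exL_cons, sat_exL_nil, sat_andL, sat_orL, List.mem_cons, List.not_mem_nil, or_false,
    forall_eq_or_imp, forall_eq, exists_eq_or_imp, exists_eq_left, sat_and, sat_or, sat_neg,
    sat_alN, sat_imp, sat_iff, sat_ap, sat_pairF, sat_quadF, sat_zeroA, sat_succA, sat_addA,
    sat_mulA, sat_num, sat_ltF, sat_leF, sat_formF, sat_lstF, sat_lineF, sat_logAxF, sat_varF,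
    sat_nextF, sat_concF, sat_exp2F, sat_renF, StdA_sat_vmapF, StdA_sat_vlF, StdA_sat_atsF,
    Function.update_apply, List.getD_cons_zero, List.getD_cons_succ, ↓reduceIte,
    Nat.reduceEqDiff, OfNat.ofNat_ne_zero, OfNat.zero_ne_ofNat]
  constructor
  · rintro ⟨⟨φ, h1⟩, ⟨ψ, h2⟩, h3⟩
    rw [h1, h2, StdA_impN_iff] at h3
    exact ⟨φ, ψ, h3, h1, h2⟩
  · rintro ⟨φ, ψ, h3, h1, h2⟩
    refine ⟨⟨φ, h1⟩, ⟨ψ, h2⟩, ?_⟩
    rw [h1, h2, StdA_impN_iff]
    exact h3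

theorem StdA_sat_alF (e : ℕ → ℕ) : Sat NN alF e ↔
    ∃ φ : AFm, e 0 = cd (all φ) ∧ e 1 = cd φ := by
  simp only [alF, StdA_sat_allC, sat_exL_cons, sat_exL_nil, sat_andL, sat_orL, List.mem_cons, List.not_mem_nil, or_false,
    forall_eq_or_imp, forall_eq, exists_eq_or_imp, exists_eq_left, sat_and, sat_or, sat_neg,
    sat_alN, sat_imp, sat_iff, sat_ap, sat_pairF, sat_quadF, sat_zeroA, sat_succA, sat_addA,
    sat_mulA, sat_num, sat_ltF, sat_leF, sat_formF, sat_lstF, sat_lineF, sat_logAxF, sat_varF,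
    sat_nextF, sat_concF, sat_exp2F, sat_renF, StdA_sat_vmapF, StdA_sat_vlF, StdA_sat_atsF,
    Function.update_apply, List.getD_cons_zero, List.getD_cons_succ, ↓reduceIte,
    Nat.reduceEqDiff, OfNat.ofNat_ne_zero, OfNat.zero_ne_ofNat]
  constructor
  · rintro ⟨⟨φ, h1⟩, h3⟩
    rw [h1, StdA_allN_iff] at h3
    exact ⟨φ, h3, h1⟩
  · rintro ⟨φ, h3, h1⟩
    refine ⟨⟨φ, h1⟩, ?_⟩
    rw [h1, StdA_allN_iff]
    exact h3

def StdA_dpB (u : ℕ) : Prop := ∃ k x k', Nat.pair k x = u ∧ (∃ φ : AFm, Atomic φ ∧ x = cd φ) ∧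
  k' + 1 = k
def StdA_dpS (u y z : ℕ) : Prop := ∃ k x k' x1 x2, Nat.pair k x = u ∧ k' + 1 = k ∧
  Nat.pair k' x1 = y ∧ ((Nat.pair k' x2 = z ∧
    ∃ φ ψ : AFm, x = cd (imp φ ψ) ∧ x1 = cd φ ∧ x2 = cd ψ) ∨
    ∃ φ : AFm, x = cd (all φ) ∧ x1 = cd φ)

def StdA_dpb : AFm := exL [10, 11, 12] (andL [ap pairF [10, 11, 0], ap atsF [11], succA 12 10])
def StdA_dps : AFm := exL [10, 11, 12, 13, 14] (andL [ap pairF [10, 11, 0], succA 12 10,
  ap pairF [12, 13, 1], or (and (ap pairF [12, 14, 2]) (ap imF [11, 13, 14])) (ap alF [11, 13])])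

theorem StdA_sat_dpb (e : ℕ → ℕ) : Sat NN StdA_dpb e ↔ StdA_dpB (e 0) := by
  simp only [StdA_dpb, StdA_dpB, sat_exL_cons, sat_exL_nil, sat_andL, sat_orL, List.mem_cons, List.not_mem_nil, or_false,
    forall_eq_or_imp, forall_eq, exists_eq_or_imp, exists_eq_left, sat_and, sat_or, sat_neg,
    sat_alN, sat_imp, sat_iff, sat_ap, sat_pairF, sat_quadF, sat_zeroA, sat_succA, sat_addA,
    sat_mulA, sat_num, sat_ltF, sat_leF, sat_formF, sat_lstF, sat_lineF, sat_logAxF, sat_varF,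
    sat_nextF, sat_concF, sat_exp2F, sat_renF, StdA_sat_vmapF, StdA_sat_vlF, StdA_sat_atsF,
    Function.update_apply, List.getD_cons_zero, List.getD_cons_succ, ↓reduceIte,
    Nat.reduceEqDiff, OfNat.ofNat_ne_zero, OfNat.zero_ne_ofNat]

theorem StdA_sat_dps (e : ℕ → ℕ) : Sat NN StdA_dps e ↔ StdA_dpS (e 0) (e 1) (e 2) := by
  simp only [StdA_dps, StdA_dpS, StdA_sat_imF, StdA_sat_alF, sat_exL_cons, sat_exL_nil, sat_andL, sat_orL, List.mem_cons, List.not_mem_nil, or_false,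
    forall_eq_or_imp, forall_eq, exists_eq_or_imp, exists_eq_left, sat_and, sat_or, sat_neg,
    sat_alN, sat_imp, sat_iff, sat_ap, sat_pairF, sat_quadF, sat_zeroA, sat_succA, sat_addA,
    sat_mulA, sat_num, sat_ltF, sat_leF, sat_formF, sat_lstF, sat_lineF, sat_logAxF, sat_varF,
    sat_nextF, sat_concF, sat_exp2F, sat_renF, StdA_sat_vmapF, StdA_sat_vlF, StdA_sat_atsF,
    Function.update_apply, List.getD_cons_zero, List.getD_cons_succ, ↓reduceIte,
    Nat.reduceEqDiff, OfNat.ofNat_ne_zero, OfNat.zero_ne_ofNat]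

theorem StdA_depth_atomic {φ : AFm} (h : Atomic φ) : depth φ = 1 := by
  cases φ <;> simp_all [Atomic, depth]

theorem StdA_depth_pos (φ : AFm) : 1 ≤ depth φ := by
  cases φ <;> simp [depth]

theorem StdA_dp_lfp (u : ℕ) :
    Lfp StdA_dpB StdA_dpS u ↔ ∃ (k : ℕ) (φ : AFm), u = Nat.pair k (cd φ) ∧ depth φ ≤ k := by
  constructor
  · intro h
    induction h with
    | base h =>
      obtain ⟨k, x, k', rfl, ⟨φ, h1, rfl⟩, rfl⟩ := h
      exact ⟨k' + 1, φ, rfl, by rw [StdA_depth_atomic h1]; omega⟩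
    | step h hy hz ihy ihz =>
      obtain ⟨k, x, k', x1, x2, rfl, rfl, rfl, h⟩ := h
      rcases h with ⟨rfl, φ, ψ, rfl, rfl, rfl⟩ | ⟨φ, rfl, rfl⟩
      · obtain ⟨k1, φ', h1, h2⟩ := ihy
        obtain ⟨k2, ψ', h3, h4⟩ := ihz
        obtain ⟨h5, h6⟩ := StdA_pair h1
        obtain ⟨h7, h8⟩ := StdA_pair h3
        have h9 := cd_inj h6
        have h10 := cd_inj h8
        subst h9 h10 h5 h7
        exact ⟨k' + 1, imp φ ψ, rfl, by simp only [depth]; omega⟩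
      · obtain ⟨k1, φ', h1, h2⟩ := ihy
        obtain ⟨h5, h6⟩ := StdA_pair h1
        have h9 := cd_inj h6
        subst h9 h5
        exact ⟨k' + 1, all φ, rfl, by simp only [depth]; omega⟩
  · rintro ⟨k, φ, rfl, hk⟩
    induction φ generalizing k with
    | bot =>
      simp only [depth] at hk
      exact Lfp.base ⟨k, _, k - 1, rfl, ⟨bot, trivial, rfl⟩, by omega⟩
    | eq i j =>
      simp only [depth] at hk
      exact Lfp.base ⟨k, _, k - 1, rfl, ⟨eq i j, trivial, rfl⟩, by omega⟩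
    | rel r v =>
      simp only [depth] at hk
      exact Lfp.base ⟨k, _, k - 1, rfl, ⟨rel r v, trivial, rfl⟩, by omega⟩
    | imp φ ψ ih1 ih2 =>
      simp only [depth] at hk
      refine Lfp.step (y := Nat.pair (k - 1) (cd φ)) (z := Nat.pair (k - 1) (cd ψ))
        ⟨k, _, k - 1, cd φ, cd ψ, rfl, by omega, rfl, Or.inl ⟨rfl, φ, ψ, rfl, rfl, rfl⟩⟩ ?_ ?_
      · exact ih1 _ (by omega)
      · exact ih2 _ (by omega)
    | all φ ih =>
      simp only [depth] at hk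
      refine Lfp.step (y := Nat.pair (k - 1) (cd φ)) (z := Nat.pair (k - 1) (cd φ))
        ⟨k, _, k - 1, cd φ, 0, rfl, by omega, rfl, Or.inr ⟨φ, rfl, rfl⟩⟩ ?_ ?_
      · exact ih _ (by omega)
      · exact ih _ (by omega)

theorem StdA_sat_dpL (e : ℕ → ℕ) : Sat NN (lfpF StdA_dpb StdA_dps) e ↔
    Lfp StdA_dpB StdA_dpS (e 0) := sat_lfpF StdA_sat_dpb StdA_sat_dps e

theorem StdA_dpF_eq : dpF = exL [10] (and (ap pairF [0, 1, 10])
    (ap (lfpF StdA_dpb StdA_dps) [10])) := rfl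

theorem StdA_sat_dpF (e : ℕ → ℕ) : Sat NN dpF e ↔ ∃ φ : AFm, e 1 = cd φ ∧ depth φ ≤ e 0 := by
  simp only [StdA_dpF_eq, StdA_sat_dpL, StdA_dp_lfp, sat_exL_cons, sat_exL_nil, sat_andL, sat_orL, List.mem_cons, List.not_mem_nil, or_false,
    forall_eq_or_imp, forall_eq, exists_eq_or_imp, exists_eq_left, sat_and, sat_or, sat_neg,
    sat_alN, sat_imp, sat_iff, sat_ap, sat_pairF, sat_quadF, sat_zeroA, sat_succA, sat_addA,
    sat_mulA, sat_num, sat_ltF, sat_leF, sat_formF, sat_lstF, sat_lineF, sat_logAxF, sat_varF,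
    sat_nextF, sat_concF, sat_exp2F, sat_renF, StdA_sat_vmapF, StdA_sat_vlF, StdA_sat_atsF,
    Function.update_apply, List.getD_cons_zero, List.getD_cons_succ, ↓reduceIte,
    Nat.reduceEqDiff, OfNat.ofNat_ne_zero, OfNat.zero_ne_ofNat]
  constructor
  · rintro ⟨a, rfl, k, φ, h, h2⟩
    obtain ⟨rfl, h1⟩ := StdA_pair h
    exact ⟨φ, h1, h2⟩
  · rintro ⟨φ, h1, h2⟩
    exact ⟨_, rfl, e 0, φ, by rw [h1], h2⟩

/-! ### Renamings -/

theorem StdA_sat_rnF (e : ℕ → ℕ) : Sat NN rnF e ↔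
    ∃ (p : Option ℕ) (d : ℕ) (φ : AFm), e 0 = Nat.pair (ptk p) (tk d) ∧
        e 1 = cd φ ∧ e 2 = cd (rename (up^[d] (pren p)) φ) := by
  simp only [rnF, sat_exL_cons, sat_exL_nil, sat_andL, sat_orL, List.mem_cons, List.not_mem_nil, or_false,
    forall_eq_or_imp, forall_eq, exists_eq_or_imp, exists_eq_left, sat_and, sat_or, sat_neg,
    sat_alN, sat_imp, sat_iff, sat_ap, sat_pairF, sat_quadF, sat_zeroA, sat_succA, sat_addA,
    sat_mulA, sat_num, sat_ltF, sat_leF, sat_formF, sat_lstF, sat_lineF, sat_logAxF, sat_varF,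
    sat_nextF, sat_concF, sat_exp2F, sat_renF, StdA_sat_vmapF, StdA_sat_vlF, StdA_sat_atsF,
    Function.update_apply, List.getD_cons_zero, List.getD_cons_succ, ↓reduceIte,
    Nat.reduceEqDiff, OfNat.ofNat_ne_zero, OfNat.zero_ne_ofNat]
  constructor
  · rintro ⟨a, b, h1, p, d, φ, rfl, rfl, h2, h3⟩
    exact ⟨p, d, φ, h1.symm, h2, h3⟩
  · rintro ⟨p, d, φ, h1, h2, h3⟩
    exact ⟨_, _, h1.symm, p, d, φ, rfl, rfl, h2, h3⟩

theorem StdA_param (x : ℕ) : (x = 0 ∨ ∃ i, x = tk i) ↔ ∃ p, x = ptk p := by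
  constructor
  · rintro (h | ⟨i, h⟩)
    · exact ⟨none, h⟩
    · exact ⟨some i, h⟩
  · rintro ⟨p, h⟩
    cases p with
    | none => exact Or.inl h
    | some i => exact Or.inr ⟨i, h⟩

theorem StdA_sat_upF (e : ℕ → ℕ) : Sat NN upF e ↔
    ∃ (p : Option ℕ) (d : ℕ), e 0 = Nat.pair (ptk p) (tk d) ∧
        e 1 = Nat.pair (ptk p) (tk (d + 1)) := by
  simp only [upF, StdA_param, sat_exL_cons, sat_exL_nil, sat_andL, sat_orL, List.mem_cons, List.not_mem_nil, or_false,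
    forall_eq_or_imp, forall_eq, exists_eq_or_imp, exists_eq_left, sat_and, sat_or, sat_neg,
    sat_alN, sat_imp, sat_iff, sat_ap, sat_pairF, sat_quadF, sat_zeroA, sat_succA, sat_addA,
    sat_mulA, sat_num, sat_ltF, sat_leF, sat_formF, sat_lstF, sat_lineF, sat_logAxF, sat_varF,
    sat_nextF, sat_concF, sat_exp2F, sat_renF, StdA_sat_vmapF, StdA_sat_vlF, StdA_sat_atsF,
    Function.update_apply, List.getD_cons_zero, List.getD_cons_succ, ↓reduceIte,
    Nat.reduceEqDiff, OfNat.ofNat_ne_zero, OfNat.zero_ne_ofNat]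
  constructor
  · rintro ⟨a, b, c, h1, ⟨p, rfl⟩, ⟨d, rfl⟩, rfl, h2⟩
    exact ⟨p, d, h1.symm, by rw [next_tk]; exact h2.symm⟩
  · rintro ⟨p, d, h1, h2⟩
    exact ⟨_, _, _, h1.symm, ⟨p, rfl⟩, ⟨d, rfl⟩, rfl, by rw [← next_tk]; exact h2.symm⟩

theorem StdA_sat_rlF (e : ℕ → ℕ) : Sat NN rlF e ↔
    ∃ (p : Option ℕ) (d : ℕ), e 0 = Nat.pair (ptk p) (tk d) ∧
        ∀ i, sval (e 2) i = sval (e 1) (up^[d] (pren p) i) := by
  simp only [rlF, StdA_param, sat_exL_cons, sat_exL_nil, sat_andL, sat_orL, List.mem_cons, List.not_mem_nil, or_false,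
    forall_eq_or_imp, forall_eq, exists_eq_or_imp, exists_eq_left, sat_and, sat_or, sat_neg,
    sat_alN, sat_imp, sat_iff, sat_ap, sat_pairF, sat_quadF, sat_zeroA, sat_succA, sat_addA,
    sat_mulA, sat_num, sat_ltF, sat_leF, sat_formF, sat_lstF, sat_lineF, sat_logAxF, sat_varF,
    sat_nextF, sat_concF, sat_exp2F, sat_renF, StdA_sat_vmapF, StdA_sat_vlF, StdA_sat_atsF,
    Function.update_apply, List.getD_cons_zero, List.getD_cons_succ, ↓reduceIte,
    Nat.reduceEqDiff, OfNat.ofNat_ne_zero, OfNat.zero_ne_ofNat]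
  constructor
  · rintro ⟨a, b, h1, ⟨p, rfl⟩, ⟨d, rfl⟩, h2⟩
    refine ⟨p, d, h1.symm, fun i => ?_⟩
    have h3 := h2 (tk i) (tk ((up^[d] (pren p)) i)) ⟨⟨i, rfl⟩, (StdA_vmN_iff p d i _).2 rfl⟩
      (sval (e 2) i)
    rw [StdA_vl_tk, StdA_vl_tk] at h3
    exact h3.1 rfl
  · rintro ⟨p, d, h1, h2⟩
    refine ⟨_, _, h1.symm, ⟨p, rfl⟩, ⟨d, rfl⟩, ?_⟩
    rintro x y ⟨⟨i, rfl⟩, h3⟩ a
    rw [StdA_vmN_iff] at h3
    subst h3
    rw [StdA_vl_tk, StdA_vl_tk, h2 i]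

/-! ### Proofs -/

def StdA_pfB (u : ℕ) : Prop := ∃ a n m y m', Nat.pair (Nat.pair a n) (Nat.pair m y) = u ∧
  (∃ T : List AFm, a = cdL T) ∧ (∃ φ : AFm, y = cd φ ∧ depth φ ≤ n) ∧ m' + 1 = m ∧
    ((∃ (φ : AFm) (T : List AFm), φ ∈ T ∧ y = cd φ ∧ a = cdL T) ∨
      ∃ φ : AFm, LogAx φ ∧ y = cd φ)
def StdA_pfS (u v w : ℕ) : Prop := ∃ a n m y m' p q,
  Nat.pair (Nat.pair a n) (Nat.pair m y) = u ∧ (∃ φ : AFm, y = cd φ ∧ depth φ ≤ n) ∧
    m' + 1 = m ∧ Nat.pair (Nat.pair a n) (Nat.pair m' p) = v ∧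
    Nat.pair (Nat.pair a n) (Nat.pair m' q) = w ∧
    ((∃ φ ψ : AFm, q = cd (imp φ ψ) ∧ p = cd φ ∧ y = cd ψ) ∨
      (∃ φ : AFm, y = cd (all φ) ∧ p = cd φ) ∨ y = p)

def StdA_pfb : AFm := exL [10, 11, 12, 13, 14] (andL [ap quadF [10, 11, 12, 13, 0], ap lstF [10],
  ap dpF [11, 13], succA 14 12, or (ap lineF [13, 10]) (ap logAxF [13])])
def StdA_pfs : AFm := exL [10, 11, 12, 13, 14, 15, 16] (andL [ap quadF [10, 11, 12, 13, 0],
  ap dpF [11, 13], succA 14 12, ap quadF [10, 11, 14, 15, 1], ap quadF [10, 11, 14, 16, 2],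
  orL [ap imF [16, 15, 13], ap alF [13, 15], eq 13 15]])

theorem StdA_sat_eq (i j : ℕ) (e : ℕ → ℕ) : Sat NN (eq i j) e ↔ e i = e j := Iff.rfl

theorem StdA_sat_pfb (e : ℕ → ℕ) : Sat NN StdA_pfb e ↔ StdA_pfB (e 0) := by
  simp only [StdA_pfb, StdA_pfB, StdA_sat_dpF, sat_exL_cons, sat_exL_nil, sat_andL, sat_orL, List.mem_cons, List.not_mem_nil, or_false,
    forall_eq_or_imp, forall_eq, exists_eq_or_imp, exists_eq_left, sat_and, sat_or, sat_neg,
    sat_alN, sat_imp, sat_iff, sat_ap, sat_pairF, sat_quadF, sat_zeroA, sat_succA, sat_addA,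
    sat_mulA, sat_num, sat_ltF, sat_leF, sat_formF, sat_lstF, sat_lineF, sat_logAxF, sat_varF,
    sat_nextF, sat_concF, sat_exp2F, sat_renF, StdA_sat_vmapF, StdA_sat_vlF, StdA_sat_atsF,
    Function.update_apply, List.getD_cons_zero, List.getD_cons_succ, ↓reduceIte,
    Nat.reduceEqDiff, OfNat.ofNat_ne_zero, OfNat.zero_ne_ofNat]

theorem StdA_sat_pfs (e : ℕ → ℕ) : Sat NN StdA_pfs e ↔ StdA_pfS (e 0) (e 1) (e 2) := by
  simp only [StdA_pfs, StdA_pfS, StdA_sat_dpF, StdA_sat_imF, StdA_sat_alF, StdA_sat_eq, sat_exL_cons, sat_exL_nil, sat_andL, sat_orL, List.mem_cons, List.not_mem_nil, or_false,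
    forall_eq_or_imp, forall_eq, exists_eq_or_imp, exists_eq_left, sat_and, sat_or, sat_neg,
    sat_alN, sat_imp, sat_iff, sat_ap, sat_pairF, sat_quadF, sat_zeroA, sat_succA, sat_addA,
    sat_mulA, sat_num, sat_ltF, sat_leF, sat_formF, sat_lstF, sat_lineF, sat_logAxF, sat_varF,
    sat_nextF, sat_concF, sat_exp2F, sat_renF, StdA_sat_vmapF, StdA_sat_vlF, StdA_sat_atsF,
    Function.update_apply, List.getD_cons_zero, List.getD_cons_succ, ↓reduceIte,
    Nat.reduceEqDiff, OfNat.ofNat_ne_zero, OfNat.zero_ne_ofNat]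

theorem StdA_pf_lfp (u : ℕ) :
    Lfp StdA_pfB StdA_pfS u ↔ ∃ (T : List AFm) (n m : ℕ) (φ : AFm),
      u = Nat.pair (Nat.pair (cdL T) n) (Nat.pair m (cd φ)) ∧ PrfN {ψ | ψ ∈ T} n m φ := by
  constructor
  · intro h
    induction h with
    | base h =>
      obtain ⟨a, n, m, y, m', rfl, ⟨T, rfl⟩, ⟨φ, rfl, hd⟩, rfl, h⟩ := h
      refine ⟨T, n, m' + 1, φ, rfl, ?_⟩
      rcases h with ⟨φ', T', h1, h2, h3⟩ | ⟨φ', h1, h2⟩
      · have h4 := cd_inj h2
        have h5 := cdL_inj h3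
        subst h4 h5
        exact PrfN.hyp hd h1
      · have h4 := cd_inj h2
        subst h4
        exact PrfN.logic hd h1
    | step h hy hz ihy ihz =>
      obtain ⟨a, n, m, y, m', p, q, rfl, ⟨φ, rfl, hd⟩, rfl, rfl, rfl, h⟩ := h
      obtain ⟨T1, n1, m1, φ1, h1, h2⟩ := ihy
      obtain ⟨T2, n2, m2, φ2, h3, h4⟩ := ihz
      obtain ⟨h5, h6⟩ := StdA_pair h1
      obtain ⟨h7, h8⟩ := StdA_pair h5
      obtain ⟨h9, h10⟩ := StdA_pair h6
      obtain ⟨h11, h12⟩ := StdA_pair h3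
      obtain ⟨h13, h14⟩ := StdA_pair h11
      obtain ⟨h15, h16⟩ := StdA_pair h12
      subst h7 h8 h9 h10
      have h17 := cdL_inj h13
      subst h17 h14 h15 h16
      refine ⟨T1, n, m' + 1, φ, rfl, ?_⟩
      rcases h with ⟨χ, ψ, h18, h19, h20⟩ | ⟨χ, h18, h19⟩ | h18
      · have e1 := cd_inj h18
        have e2 := cd_inj h19
        have e3 := cd_inj h20
        subst e1 e2 e3
        exact PrfN.mp hd h2 h4
      · have e1 := cd_inj h18
        have e2 := cd_inj h19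
        subst e1 e2
        exact PrfN.gen hd h2
      · have e1 := cd_inj h18
        subst e1
        exact PrfN.mono hd h2
  · rintro ⟨T, n, m, φ, rfl, h⟩
    induction h with
    | @hyp m φ hd h =>
      exact Lfp.base ⟨_, _, _, _, m, rfl, ⟨T, rfl⟩, ⟨φ, rfl, hd⟩, rfl, Or.inl ⟨φ, T, h, rfl, rfl⟩⟩
    | @logic m φ hd h =>
      exact Lfp.base ⟨_, _, _, _, m, rfl, ⟨T, rfl⟩, ⟨φ, rfl, hd⟩, rfl, Or.inr ⟨φ, h, rfl⟩⟩
    | @mp m φ ψ hd h1 h2 ih1 ih2 =>
      exact Lfp.step ⟨_, _, _, _, m, cd φ, cd (imp φ ψ), rfl, ⟨ψ, rfl, hd⟩, rfl, rfl, rfl,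
        Or.inl ⟨φ, ψ, rfl, rfl, rfl⟩⟩ ih1 ih2
    | @gen m φ hd h ih =>
      exact Lfp.step ⟨_, _, _, _, m, cd φ, cd φ, rfl, ⟨_, rfl, hd⟩, rfl, rfl, rfl,
        Or.inr (Or.inl ⟨φ, rfl, rfl⟩)⟩ ih ih
    | @mono m φ hd h ih =>
      exact Lfp.step ⟨_, _, _, _, m, cd φ, cd φ, rfl, ⟨_, rfl, hd⟩, rfl, rfl, rfl,
        Or.inr (Or.inr rfl)⟩ ih ih

theorem StdA_sat_pfL (e : ℕ → ℕ) : Sat NN (lfpF StdA_pfb StdA_pfs) e ↔
    Lfp StdA_pfB StdA_pfS (e 0) := sat_lfpF StdA_sat_pfb StdA_sat_pfs e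

theorem StdA_pfF_eq : pfF = exL [10] (and (ap quadF [0, 1, 2, 3, 10])
    (ap (lfpF StdA_pfb StdA_pfs) [10])) := rfl

theorem StdA_sat_pfF (e : ℕ → ℕ) : Sat NN pfF e ↔
    ∃ (T : List AFm) (φ : AFm), e 0 = cdL T ∧ e 3 = cd φ ∧
        PrfN {ψ | ψ ∈ T} (e 1) (e 2) φ := by
  simp only [StdA_pfF_eq, StdA_sat_pfL, StdA_pf_lfp, sat_exL_cons, sat_exL_nil, sat_andL, sat_orL, List.mem_cons, List.not_mem_nil, or_false,
    forall_eq_or_imp, forall_eq, exists_eq_or_imp, exists_eq_left, sat_and, sat_or, sat_neg,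
    sat_alN, sat_imp, sat_iff, sat_ap, sat_pairF, sat_quadF, sat_zeroA, sat_succA, sat_addA,
    sat_mulA, sat_num, sat_ltF, sat_leF, sat_formF, sat_lstF, sat_lineF, sat_logAxF, sat_varF,
    sat_nextF, sat_concF, sat_exp2F, sat_renF, StdA_sat_vmapF, StdA_sat_vlF, StdA_sat_atsF,
    Function.update_apply, List.getD_cons_zero, List.getD_cons_succ, ↓reduceIte,
    Nat.reduceEqDiff, OfNat.ofNat_ne_zero, OfNat.zero_ne_ofNat]
  constructor
  · rintro ⟨a, rfl, T, n, m, φ, h, h2⟩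
    obtain ⟨h3, h4⟩ := StdA_pair h
    obtain ⟨h5, rfl⟩ := StdA_pair h3
    obtain ⟨rfl, h6⟩ := StdA_pair h4
    exact ⟨T, φ, h5, h6, h2⟩
  · rintro ⟨T, φ, h1, h2, h3⟩
    exact ⟨_, rfl, T, _, _, φ, by rw [h1, h2], h3⟩

/-! ### Codes of numerals and consistency statements -/

def StdA_nuB (u : ℕ) : Prop := ∃ v z, Nat.pair v z = u ∧ v = 0 ∧ z = codeS (encode (num 0))
def StdA_nuS (u y _w : ℕ) : Prop := ∃ v z v' z' t s, Nat.pair v z = u ∧ Nat.pair v' z' = y ∧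
  ((¬ v' = 0 ∧ v' + v' = v ∧ t = codeS suf0 ∧ Cc z' t z) ∨
    (v' + v' = s ∧ s + 1 = v ∧ t = codeS suf1 ∧ Cc z' t z))

def StdA_nub : AFm := exL [10, 11] (andL [ap pairF [10, 11, 0], ap (num 0) [10],
  ap (num (codeS (encode (num 0)))) [11]])
def StdA_nus : AFm := exL [10, 11, 12, 13, 14, 15] (andL [ap pairF [10, 11, 0],
  ap pairF [12, 13, 1],
  or (andL [neg (zeroA 12), addA 12 12 10, ap (num (codeS suf0)) [14], ap concF [13, 14, 11]])
    (andL [addA 12 12 15, succA 15 10, ap (num (codeS suf1)) [14], ap concF [13, 14, 11]])])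

theorem StdA_sat_nub (e : ℕ → ℕ) : Sat NN StdA_nub e ↔ StdA_nuB (e 0) := by
  simp only [StdA_nub, StdA_nuB, sat_exL_cons, sat_exL_nil, sat_andL, sat_orL, List.mem_cons, List.not_mem_nil, or_false,
    forall_eq_or_imp, forall_eq, exists_eq_or_imp, exists_eq_left, sat_and, sat_or, sat_neg,
    sat_alN, sat_imp, sat_iff, sat_ap, sat_pairF, sat_quadF, sat_zeroA, sat_succA, sat_addA,
    sat_mulA, sat_num, sat_ltF, sat_leF, sat_formF, sat_lstF, sat_lineF, sat_logAxF, sat_varF,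
    sat_nextF, sat_concF, sat_exp2F, sat_renF, StdA_sat_vmapF, StdA_sat_vlF, StdA_sat_atsF,
    Function.update_apply, List.getD_cons_zero, List.getD_cons_succ, ↓reduceIte,
    Nat.reduceEqDiff, OfNat.ofNat_ne_zero, OfNat.zero_ne_ofNat]

theorem StdA_sat_nus (e : ℕ → ℕ) : Sat NN StdA_nus e ↔ StdA_nuS (e 0) (e 1) (e 2) := by
  simp only [StdA_nus, StdA_nuS, sat_exL_cons, sat_exL_nil, sat_andL, sat_orL, List.mem_cons, List.not_mem_nil, or_false,
    forall_eq_or_imp, forall_eq, exists_eq_or_imp, exists_eq_left, sat_and, sat_or, sat_neg,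
    sat_alN, sat_imp, sat_iff, sat_ap, sat_pairF, sat_quadF, sat_zeroA, sat_succA, sat_addA,
    sat_mulA, sat_num, sat_ltF, sat_leF, sat_formF, sat_lstF, sat_lineF, sat_logAxF, sat_varF,
    sat_nextF, sat_concF, sat_exp2F, sat_renF, StdA_sat_vmapF, StdA_sat_vlF, StdA_sat_atsF,
    Function.update_apply, List.getD_cons_zero, List.getD_cons_succ, ↓reduceIte,
    Nat.reduceEqDiff, OfNat.ofNat_ne_zero, OfNat.zero_ne_ofNat]

theorem StdA_nu_lfp (u : ℕ) :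
    Lfp StdA_nuB StdA_nuS u ↔ ∃ v, u = Nat.pair v (codeS (encode (num v))) := by
  constructor
  · intro h
    induction h with
    | base h =>
      obtain ⟨v, z, rfl, rfl, rfl⟩ := h
      exact ⟨0, rfl⟩
    | step h hy hz ihy ihz =>
      obtain ⟨v, z, v', z', t, s, rfl, rfl, h⟩ := h
      obtain ⟨v1, h1⟩ := ihy
      obtain ⟨h2, h3⟩ := StdA_pair h1
      subst h2 h3
      rcases h with ⟨h4, rfl, h6, h5⟩ | ⟨rfl, rfl, h6, h5⟩
      · rw [h6, Cc_codeS] at h5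
        refine ⟨v' + v', ?_⟩
        rw [h5, ← two_mul, encode_num_even (by omega)]
      · rw [h6, Cc_codeS] at h5
        refine ⟨v' + v' + 1, ?_⟩
        rw [h5, ← two_mul, encode_num_odd]
  · rintro ⟨v, rfl⟩
    induction v using Nat.strong_induction_on with
    | _ v ih =>
      rcases Nat.eq_zero_or_pos v with rfl | hv
      · exact Lfp.base ⟨0, codeS (encode (num 0)), rfl, rfl, rfl⟩
      · obtain ⟨k, hk | hk⟩ := Nat.even_or_odd' v
        · have h := ih k (by omega)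
          have h2 : StdA_nuS (Nat.pair v (codeS (encode (num v))))
              (Nat.pair k (codeS (encode (num k)))) (Nat.pair k (codeS (encode (num k)))) := by
            refine ⟨v, codeS (encode (num v)), k, codeS (encode (num k)), codeS suf0, 0, rfl, rfl,
              Or.inl ⟨by omega, by omega, rfl, ?_⟩⟩
            rw [Cc_codeS, ← encode_num_even (by omega), hk]
          exact Lfp.step h2 h h
        · have h := ih k (by omega)
          have h2 : StdA_nuS (Nat.pair v (codeS (encode (num v))))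
              (Nat.pair k (codeS (encode (num k)))) (Nat.pair k (codeS (encode (num k)))) := by
            refine ⟨v, codeS (encode (num v)), k, codeS (encode (num k)), codeS suf1, k + k, rfl,
              rfl, Or.inr ⟨rfl, by omega, rfl, ?_⟩⟩
            rw [Cc_codeS, ← encode_num_odd, hk]
          exact Lfp.step h2 h h

theorem StdA_sat_nuL (e : ℕ → ℕ) : Sat NN (lfpF StdA_nub StdA_nus) e ↔
    Lfp StdA_nuB StdA_nuS (e 0) := sat_lfpF StdA_sat_nub StdA_sat_nus e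

theorem StdA_nuF_eq : nuF = exL [10] (and (ap pairF [0, 1, 10])
    (ap (lfpF StdA_nub StdA_nus) [10])) := rfl

theorem StdA_sat_nuF (e : ℕ → ℕ) : Sat NN nuF e ↔ e 1 = codeS (encode (num (e 0))) := by
  simp only [StdA_nuF_eq, StdA_sat_nuL, StdA_nu_lfp, sat_exL_cons, sat_exL_nil, sat_andL, sat_orL, List.mem_cons, List.not_mem_nil, or_false,
    forall_eq_or_imp, forall_eq, exists_eq_or_imp, exists_eq_left, sat_and, sat_or, sat_neg,
    sat_alN, sat_imp, sat_iff, sat_ap, sat_pairF, sat_quadF, sat_zeroA, sat_succA, sat_addA,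
    sat_mulA, sat_num, sat_ltF, sat_leF, sat_formF, sat_lstF, sat_lineF, sat_logAxF, sat_varF,
    sat_nextF, sat_concF, sat_exp2F, sat_renF, StdA_sat_vmapF, StdA_sat_vlF, StdA_sat_atsF,
    Function.update_apply, List.getD_cons_zero, List.getD_cons_succ, ↓reduceIte,
    Nat.reduceEqDiff, OfNat.ofNat_ne_zero, OfNat.zero_ne_ofNat]
  constructor
  · rintro ⟨a, rfl, v, h⟩
    obtain ⟨rfl, h1⟩ := StdA_pair h
    exact h1
  · intro h
    exact ⟨_, rfl, e 0, by rw [h]⟩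

theorem StdA_sat_szF (sC : ℕ) (e : ℕ → ℕ) : Sat NN (szF sC) e ↔ ∃ w : List Bool,
    e 0 = codeS w ∧ sC * (w.length + 1) ≤ e 1 := by
  simp only [szF, sat_exL_cons, sat_exL_nil, sat_andL, sat_orL, List.mem_cons, List.not_mem_nil, or_false,
    forall_eq_or_imp, forall_eq, exists_eq_or_imp, exists_eq_left, sat_and, sat_or, sat_neg,
    sat_alN, sat_imp, sat_iff, sat_ap, sat_pairF, sat_quadF, sat_zeroA, sat_succA, sat_addA,
    sat_mulA, sat_num, sat_ltF, sat_leF, sat_formF, sat_lstF, sat_lineF, sat_logAxF, sat_varF,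
    sat_nextF, sat_concF, sat_exp2F, sat_renF, StdA_sat_vmapF, StdA_sat_vlF, StdA_sat_atsF,
    Function.update_apply, List.getD_cons_zero, List.getD_cons_succ, ↓reduceIte,
    Nat.reduceEqDiff, OfNat.ofNat_ne_zero, OfNat.zero_ne_ofNat]
  constructor
  · rintro ⟨l, q, d, s, l', y, rfl, h1, rfl, h2, rfl, rfl, rfl, h3⟩
    have h4 : 0 < e 0 := lt_of_lt_of_le (by positivity) h1
    obtain ⟨w, hw⟩ := codeS_surj h4
    have h5 := codeS_lt w
    have h6 := le_codeS w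
    have h7 : w.length ≤ l := by
      have h8 : 2 ^ w.length < 2 ^ (l + 1) := by
        rw [pow_succ]; omega
      have := (Nat.pow_lt_pow_iff_right (by norm_num : 1 < 2)).1 h8
      omega
    refine ⟨w, hw.symm, le_trans ?_ h3⟩
    exact Nat.mul_le_mul_left _ (by omega)
  · rintro ⟨w, h1, h2⟩
    refine ⟨w.length, _, _, _, _, _, rfl, ?_, rfl, ?_, rfl, rfl, rfl, h2⟩
    · rw [h1]; exact le_codeS w
    · rw [h1, ← two_mul, mul_comm, ← pow_succ]; exact codeS_lt w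

theorem StdA_sat_clF (e : ℕ → ℕ) : Sat NN clF e ↔ ∃ T : List AFm, e 0 = cdL T ∧
    e 2 = cdL (Con T (e 1) :: T) := by
  have key : ∀ T : List AFm, cdL (Con T (e 1) :: T) = codeS (encode (num (e 1)) ++
      encode (num (codeS (encodeL T))) ++ conS ++ encodeL T) := by
    intro T
    rw [← encode_Con]
    rfl
  simp only [clF, StdA_sat_nuF, sat_exL_cons, sat_exL_nil, sat_andL, sat_orL, List.mem_cons, List.not_mem_nil, or_false,
    forall_eq_or_imp, forall_eq, exists_eq_or_imp, exists_eq_left, sat_and, sat_or, sat_neg,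
    sat_alN, sat_imp, sat_iff, sat_ap, sat_pairF, sat_quadF, sat_zeroA, sat_succA, sat_addA,
    sat_mulA, sat_num, sat_ltF, sat_leF, sat_formF, sat_lstF, sat_lineF, sat_logAxF, sat_varF,
    sat_nextF, sat_concF, sat_exp2F, sat_renF, StdA_sat_vmapF, StdA_sat_vlF, StdA_sat_atsF,
    Function.update_apply, List.getD_cons_zero, List.getD_cons_succ, ↓reduceIte,
    Nat.reduceEqDiff, OfNat.ofNat_ne_zero, OfNat.zero_ne_ofNat]
  constructor
  · rintro ⟨a, b, c, d, f, ⟨T, h0⟩, rfl, rfl, h1, h6, h2, h3⟩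
    refine ⟨T, h0, ?_⟩
    rw [h6] at h2
    rw [Cc_codeS] at h1
    subst h1
    rw [Cc_codeS] at h2
    subst h2
    rw [h0] at h3
    rw [key]
    exact (Cc_codeS _ _ _).1 h3
  · rintro ⟨T, h0, h1⟩
    rw [key] at h1
    have h2 := (Cc_codeS (encode (num (e 1))) (encode (num (codeS (encodeL T)))) _).2 rfl
    have h3 := (Cc_codeS (encode (num (e 1)) ++ encode (num (codeS (encodeL T)))) conS _).2 rfl
    have h4 := (Cc_codeS (encode (num (e 1)) ++ encode (num (codeS (encodeL T))) ++ conS)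
      (encodeL T) _).2 rfl
    refine ⟨_, _, _, codeS conS, _, ⟨T, h0⟩, rfl, rfl, ?_, rfl, h3, ?_⟩
    · rw [h0]; exact h2
    · rw [h0, h1]; exact h4

/-- The formulas define the standard interpretation. -/
theorem sat_xi (sC : ℕ) (r : RX) (e : ℕ → ℕ) :
    Sat NN (xi sC bot bot bot bot r) e ↔ (SN sC).rel r (fun k => e k) := by
  cases r with
  | zero => exact sat_zeroA 0 e
  | succ => exact sat_succA 0 1 e
  | add => exact sat_addA 0 1 2 e
  | mul => exact sat_mulA 0 1 2 e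
  | pr => exact sat_pairF e
  | vl => exact StdA_sat_vlF e
  | t0 => exact StdA_sat_t0F e
  | ats => exact StdA_sat_atsF e
  | im => exact StdA_sat_imF e
  | al => exact StdA_sat_alF e
  | dp => exact StdA_sat_dpF e
  | rn => exact StdA_sat_rnF e
  | rl => exact StdA_sat_rlF e
  | up => exact StdA_sat_upF e
  | pf => exact StdA_sat_pfF e
  | mem => exact sat_lineF e
  | form => exact sat_formF e
  | tk => exact sat_varF e
  | conc => exact sat_concF e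
  | pp => exact sat_provF e
  | nu => exact StdA_sat_nuF e
  | sz => exact StdA_sat_szF sC e
  | e2 => exact sat_exp2F e
  | cl => exact StdA_sat_clF e
  | lst => exact sat_lstF e
  | F => exact Iff.rfl
  | G => exact Iff.rfl
  | H => exact Iff.rfl
  | K => exact Iff.rfl

end Pool.Agent.Myc
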