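import Pool.Agent.Myc.AxDefs
import Pool.Agent.Myc.CodeDefs

set_option autoImplicit false

/-!
# The standard interpretation of the auxiliary language
-/

namespace Pool.Agent.Myc

open Fm

/-- The assignment with the number `s`. -/
def sval (s : ℕ) : ℕ → ℕ
  | 0 => s.unpair.1
  | i + 1 => sval s.unpair.2 i

/-- Atomic formulas, falsum included. -/
def Atomic : AFm → Prop
  | bot => True
  | eq _ _ => True
  | rel _ _ => True
  | imp _ _ => False
  | all _ => False

/-- The depth of a formula. -/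
def depth : AFm → ℕ
  | bot => 1
  | eq _ _ => 1
  | rel _ _ => 1
  | imp φ ψ => max (depth φ) (depth ψ) + 1
  | all φ => depth φ + 1

/-- Provability with at most `m` levels, all formulas having depth at most `n`. -/
inductive PrfN (T : Set AFm) (n : ℕ) : ℕ → AFm → Prop
  | hyp {m : ℕ} {φ : AFm} (hd : depth φ ≤ n) (h : φ ∈ T) : PrfN T n (m + 1) φ
  | logic {m : ℕ} {φ : AFm} (hd : depth φ ≤ n) (h : LogAx φ) : PrfN T n (m + 1) φ
  | mp {m : ℕ} {φ ψ : AFm} (hd : depth ψ ≤ n) (h1 : PrfN T n m φ) (h2 : PrfN T n m (imp φ ψ)) :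
      PrfN T n (m + 1) ψ
  | gen {m : ℕ} {φ : AFm} (hd : depth (all φ) ≤ n) (h : PrfN T n m φ) : PrfN T n (m + 1) (all φ)
  | mono {m : ℕ} {φ : AFm} (hd : depth φ ≤ n) (h : PrfN T n m φ) : PrfN T n (m + 1) φ

/-- The standard interpretation. -/
def SN (sC : ℕ) : XStr ℕ where
  rel := fun r => match r with
    | .zero => fun v => v (0 : Fin 1) = 0
    | .succ => fun v => v (0 : Fin 2) + 1 = v (1 : Fin 2)
    | .add => fun v => v (0 : Fin 3) + v (1 : Fin 3) = v (2 : Fin 3)
    | .mul => fun v => v (0 : Fin 3) * v (1 : Fin 3) = v (2 : Fin 3)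
    | .pr => fun v => Nat.pair (v (0 : Fin 3)) (v (1 : Fin 3)) = v (2 : Fin 3)
    | .vl => fun v => ∃ i, v (1 : Fin 3) = tk i ∧ v (2 : Fin 3) = sval (v (0 : Fin 3)) i
    | .t0 => fun v => ∃ φ : AFm, Atomic φ ∧ v (0 : Fin 2) = cd φ ∧ Sat NN φ (sval (v (1 : Fin 2)))
    | .ats => fun v => ∃ φ : AFm, Atomic φ ∧ v (0 : Fin 1) = cd φ
    | .im => fun v => ∃ φ ψ : AFm, v (0 : Fin 3) = cd (imp φ ψ) ∧ v (1 : Fin 3) = cd φ ∧
        v (2 : Fin 3) = cd ψ
    | .al => fun v => ∃ φ : AFm, v (0 : Fin 2) = cd (all φ) ∧ v (1 : Fin 2) = cd φ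
    | .dp => fun v => ∃ φ : AFm, v (1 : Fin 2) = cd φ ∧ depth φ ≤ v (0 : Fin 2)
    | .rn => fun v => ∃ (p : Option ℕ) (d : ℕ) (φ : AFm), v (0 : Fin 3) = Nat.pair (ptk p) (tk d) ∧
        v (1 : Fin 3) = cd φ ∧ v (2 : Fin 3) = cd (rename (up^[d] (pren p)) φ)
    | .rl => fun v => ∃ (p : Option ℕ) (d : ℕ), v (0 : Fin 3) = Nat.pair (ptk p) (tk d) ∧
        ∀ i, sval (v (2 : Fin 3)) i = sval (v (1 : Fin 3)) (up^[d] (pren p) i)
    | .up => fun v => ∃ (p : Option ℕ) (d : ℕ), v (0 : Fin 2) = Nat.pair (ptk p) (tk d) ∧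
        v (1 : Fin 2) = Nat.pair (ptk p) (tk (d + 1))
    | .pf => fun v => ∃ (T : List AFm) (φ : AFm), v (0 : Fin 4) = cdL T ∧ v (3 : Fin 4) = cd φ ∧
        PrfN {ψ | ψ ∈ T} (v (1 : Fin 4)) (v (2 : Fin 4)) φ
    | .mem => fun v => ∃ (φ : AFm) (T : List AFm), φ ∈ T ∧ v (0 : Fin 2) = cd φ ∧
        v (1 : Fin 2) = cdL T
    | .form => fun v => ∃ φ : AFm, v (0 : Fin 1) = cd φ
    | .tk => fun v => ∃ i, v (0 : Fin 1) = tk i
    | .conc => fun v => Cc (v (0 : Fin 3)) (v (1 : Fin 3)) (v (2 : Fin 3))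
    | .pp => fun v => ∃ (T : List AFm) (φ : AFm), v (0 : Fin 3) = cdL T ∧ v (2 : Fin 3) = cd φ ∧
        Proves {ψ | ψ ∈ T} (v (1 : Fin 3)) φ
    | .nu => fun v => v (1 : Fin 2) = codeS (encode (num (v (0 : Fin 2))))
    | .sz => fun v => ∃ w : List Bool, v (0 : Fin 2) = codeS w ∧
        sC * (w.length + 1) ≤ v (1 : Fin 2)
    | .e2 => fun v => v (1 : Fin 2) = 2 ^ (v (0 : Fin 2))
    | .cl => fun v => ∃ T : List AFm, v (0 : Fin 3) = cdL T ∧
        v (2 : Fin 3) = cdL (Con T (v (1 : Fin 3)) :: T)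
    | .lst => fun v => ∃ T : List AFm, v (0 : Fin 1) = cdL T
    | .F => fun _ => False
    | .G => fun _ => False
    | .H => fun _ => False
    | .K => fun _ => False

/-! ### Arithmetical definitions of the auxiliary symbols -/

def vlB : AFm :=
  exL [10, 11, 12, 13, 14] (andL [ap pairF [10, 11, 13], ap pairF [13, 12, 0],
    ap (num 6) [11], ap pairF [12, 14, 10]])
def vlSt : AFm :=
  exL [10, 11, 12, 13, 14, 15, 16, 17] (andL [ap pairF [10, 11, 15], ap pairF [15, 12, 0],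
    ap pairF [13, 14, 16], ap pairF [16, 12, 1], ap nextF [14, 11], ap pairF [17, 13, 10]])
/-- `x₂` is the value of the variable `x₁` for the assignment `x₀`. -/
def vlF : AFm :=
  exL [10, 11] (andL [ap pairF [0, 1, 10], ap pairF [10, 2, 11], ap (lfpF vlB vlSt) [11]])

def t0F : AFm :=
  orL [exL [10, 11, 12] (andL [ap varF [10], ap varF [11], ap eqC [10, 11, 0],
      ap vlF [1, 10, 12], ap vlF [1, 11, 12]]),
    exL [10, 12] (andL [ap varF [10], ap zeroC [10, 0], ap vlF [1, 10, 12], zeroA 12]),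
    exL [10, 11, 12, 13] (andL [ap varF [10], ap varF [11], ap succC [10, 11, 0],
      ap vlF [1, 10, 12], ap vlF [1, 11, 13], succA 12 13]),
    exL [10, 11, 12, 13, 14, 15] (andL [ap varF [10], ap varF [11], ap varF [12],
      ap addC [10, 11, 12, 0], ap vlF [1, 10, 13], ap vlF [1, 11, 14], ap vlF [1, 12, 15],
      addA 13 14 15]),
    exL [10, 11, 12, 13, 14, 15] (andL [ap varF [10], ap varF [11], ap varF [12],
      ap mulC [10, 11, 12, 0], ap vlF [1, 10, 13], ap vlF [1, 11, 14], ap vlF [1, 12, 15],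
      mulA 13 14 15])]

def atsF : AFm :=
  orL [num 16, exL [10, 11] (andL [ap varF [10], ap varF [11], ap eqC [10, 11, 0]]),
    exL [10] (andL [ap varF [10], ap zeroC [10, 0]]),
    exL [10, 11] (andL [ap varF [10], ap varF [11], ap succC [10, 11, 0]]),
    exL [10, 11, 12] (andL [ap varF [10], ap varF [11], ap varF [12], ap addC [10, 11, 12, 0]]),
    exL [10, 11, 12] (andL [ap varF [10], ap varF [11], ap varF [12], ap mulC [10, 11, 12, 0]])]

def imF : AFm := andL [ap formF [1], ap formF [2], ap impC [1, 2, 0]]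
def alF : AFm := andL [ap formF [1], ap allC [1, 0]]

def dpF : AFm :=
  exL [10] (and (ap pairF [0, 1, 10]) (ap (lfpF
    (exL [10, 11, 12] (andL [ap pairF [10, 11, 0], ap atsF [11], succA 12 10]))
    (exL [10, 11, 12, 13, 14] (andL [ap pairF [10, 11, 0], succA 12 10, ap pairF [12, 13, 1],
      or (and (ap pairF [12, 14, 2]) (ap imF [11, 13, 14])) (ap alF [11, 13])]))) [10]))

def rnF : AFm := exL [10, 11] (andL [ap pairF [10, 11, 0], ap renF [10, 11, 1, 2]])

def rlF : AFm :=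
  exL [10, 11] (andL [ap pairF [10, 11, 0], or (zeroA 10) (ap varF [10]), ap varF [11],
    alN 12 (alN 13 (imp (and (ap varF [12]) (ap vmapF [10, 11, 12, 13]))
      (alN 14 (iff (ap vlF [2, 12, 14]) (ap vlF [1, 13, 14])))))])

def upF : AFm :=
  exL [10, 11, 12] (andL [ap pairF [10, 11, 0], or (zeroA 10) (ap varF [10]), ap varF [11],
    ap nextF [11, 12], ap pairF [10, 12, 1]])

def pfF : AFm :=
  exL [10] (and (ap quadF [0, 1, 2, 3, 10]) (ap (lfpF
    (exL [10, 11, 12, 13, 14] (andL [ap quadF [10, 11, 12, 13, 0], ap lstF [10],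
      ap dpF [11, 13], succA 14 12, or (ap lineF [13, 10]) (ap logAxF [13])]))
    (exL [10, 11, 12, 13, 14, 15, 16] (andL [ap quadF [10, 11, 12, 13, 0], ap dpF [11, 13],
      succA 14 12, ap quadF [10, 11, 14, 15, 1], ap quadF [10, 11, 14, 16, 2],
      orL [ap imF [16, 15, 13], ap alF [13, 15], eq 13 15]]))) [10]))

def nuF : AFm :=
  exL [10] (and (ap pairF [0, 1, 10]) (ap (lfpF
    (exL [10, 11] (andL [ap pairF [10, 11, 0], ap (num 0) [10],
      ap (num (codeS (encode (num 0)))) [11]]))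
    (exL [10, 11, 12, 13, 14, 15] (andL [ap pairF [10, 11, 0], ap pairF [12, 13, 1],
      or (andL [neg (zeroA 12), addA 12 12 10, ap (num (codeS suf0)) [14], ap concF [13, 14, 11]])
        (andL [addA 12 12 15, succA 15 10, ap (num (codeS suf1)) [14],
          ap concF [13, 14, 11]])]))) [10]))

def szF (sC : ℕ) : AFm :=
  exL [10, 11, 12, 13, 14, 15] (andL [ap exp2F [10, 11], ap leF [11, 0], addA 11 11 12,
    ap ltF [0, 12], ap (num sC) [13], succA 10 14, mulA 13 14 15, ap leF [15, 1]])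

def clF : AFm :=
  exL [10, 11, 12, 13, 14] (andL [ap lstF [0], ap nuF [1, 10], ap nuF [0, 11],
    ap concF [10, 11, 12], ap (num (codeS conS)) [13], ap concF [12, 13, 14],
    ap concF [14, 0, 2]])

/-- The arithmetical formulas for the symbols of the auxiliary language, with given formulas for
`F, G, H, K`. -/
def xi (sC : ℕ) (V G H K : AFm) : RX → AFm
  | .zero => zeroA 0
  | .succ => succA 0 1
  | .add => addA 0 1 2
  | .mul => mulA 0 1 2
  | .pr => pairF
  | .vl => vlF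
  | .t0 => t0F
  | .ats => atsF
  | .im => imF
  | .al => alF
  | .dp => dpF
  | .rn => rnF
  | .rl => rlF
  | .up => upF
  | .pf => pfF
  | .mem => lineF
  | .form => formF
  | .tk => varF
  | .conc => concF
  | .pp => provF
  | .nu => nuF
  | .sz => szF sC
  | .e2 => exp2F
  | .cl => clF
  | .lst => lstF
  | .F => V
  | .G => G
  | .H => H
  | .K => K

end Pool.Agent.Myc
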